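import Pool.Agent.LibMoserT.LedDefs
set_option autoImplicit false
/-!
# Concrete parameters of the tail

`q = 2048`, `l0 = 8192`.
-/
namespace Pool.Agent.LibMoserT
open Pool.Agent.LibMoser5 Pool.Agent.LibMoserF

noncomputable section

/-- number of the first frame with label at least `2 ^ 38` -/
def G1 : ℕ := 566

/-- parameters of the fat lane for the frame `[l, l1)` -/
def FPc (l l1 : ℕ) : FatP where
  qn := 2048
  NF := 4
  l := l
  l1 := l1
  x := if l < 40000 then 24 else 64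
  rd := if l < 24500 then 16 else if l < 32500 then 24 else if l < 37000 then 40 else 75
  μ := Nat.sqrt (l / 2)
  s := if l < 40000 then 2 / 5 else 1 / 10

/-- parameters of the fat lane -/
def F41 (g : ℕ) : FatP := FPc (fl 8192 g) (fl 8192 (g + 1))

/-- mass of the group `i` of class G (unit 32) when the load is `lam` -/
def MGl (lam : ℝ) (i : ℕ) : ℝ :=
  lam * (th 2048 (32 * i + 32) * ((pool 2048 (32 * i) (32 * i + 32)).card : ℝ))

/-- the concrete data without the table of class O -/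
structure Std41 (D : TD) (a lam : ℕ → ℝ) : Prop where
  qn : D.qn = 2048
  l0 : D.l0 = 8192
  N1 : 2 ^ 28 ≤ D.N1
  N1' : D.N1 ≤ 2 ^ 28 + 10 ^ 6
  k00 : D.k00 = 8192
  ug : ∀ g, D.ug g = 32
  F : ∀ g, D.F g = F41 g
  a0 : ∀ g, 0 ≤ a g
  a1 : ∀ g, a g ≤ 1
  A : ∀ g k, 1 ≤ g → fl 8192 g - 20 ≤ k → k < fl 8192 (g + 1) - 20 → D.A k = a g
  lam0 : ∀ g, 0 ≤ lam g
  lam1 : ∀ g, lam g ≤ 1
  MG : ∀ g i, D.MG g i = MGl (lam g) i

end

end Pool.Agent.LibMoserT
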