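import Pool.Agent.LibMoserT.FatNum
import Pool.Agent.LibMoserT.LedP
set_option autoImplicit false
/-!
# The chosen parameters of the fat lane
-/
namespace Pool.Agent.LibMoserT
open Pool.Agent.LibMoser5 Pool.Agent.LibMoserF Classical

noncomputable section

def zs (l : ℕ) : ℝ := if l < 40000 then 2 / 5 else 1 / 10
def zx (l : ℕ) : ℕ := if l < 40000 then 24 else 64
def zrd (l : ℕ) : ℕ :=
  if l < 24500 then 16 else if l < 32500 then 24 else if l < 37000 then 40 else 75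

section
variable {l : ℕ}

theorem sqrt_facts (hl : 8192 ≤ l) :
    2 * (Nat.sqrt (l / 2) : ℝ) ^ 2 ≤ l ∧ (128 : ℝ) * Nat.sqrt (l / 2) ≤ l ∧
      64 ≤ Nat.sqrt (l / 2) := by
  have h0 : Nat.sqrt (l / 2) ^ 2 ≤ l / 2 := Nat.sqrt_le' _
  have h1 : 2 * Nat.sqrt (l / 2) ^ 2 ≤ l := by omega
  have h2 : 64 ≤ Nat.sqrt (l / 2) := by
    rw [Nat.le_sqrt']
    omega
  have h3 : 128 * Nat.sqrt (l / 2) ≤ l := by nlinarith
  refine ⟨by exact_mod_cast h1, by exact_mod_cast h3, h2⟩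

theorem sqrt_facts2 (hl : 40000 ≤ l) : (282 : ℝ) * Nat.sqrt (l / 2) ≤ l := by
  have h0 : Nat.sqrt (l / 2) ^ 2 ≤ l / 2 := Nat.sqrt_le' _
  have h1 : 2 * Nat.sqrt (l / 2) ^ 2 ≤ l := by omega
  have h2 : 141 ≤ Nat.sqrt (l / 2) := by
    rw [Nat.le_sqrt']
    omega
  have h3 : 282 * Nat.sqrt (l / 2) ≤ l := by nlinarith
  exact_mod_cast h3

theorem FPc_thr {l1 : ℕ} (hl : 8192 ≤ l) :
    ((FPc l l1).thr : ℝ) ≤ 20 / 2217 * (l : ℝ) ^ 2 + 1 / 64 * l := by
  obtain ⟨h1, h2, h3⟩ := sqrt_facts hl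
  have h4 : Nat.sqrt (4 * l ^ 3 / (3 * (2048 * 4))) ^ 2 ≤ 4 * l ^ 3 / (3 * (2048 * 4)) :=
    Nat.sqrt_le' _
  have h5 : 24576 * Nat.sqrt (4 * l ^ 3 / (3 * (2048 * 4))) ^ 2 ≤ 4 * l ^ 3 := by
    refine (Nat.mul_le_mul_left _ h4).trans ?_
    exact Nat.mul_div_le _ _
  obtain ⟨k, hk⟩ : ∃ k, k = Nat.sqrt (4 * l ^ 3 / (3 * (2048 * 4))) := ⟨_, rfl⟩
  rw [← hk] at h5
  have h6 : (24576 : ℝ) * (k : ℝ) ^ 2 ≤ 4 * (l : ℝ) ^ 3 := by exact_mod_cast h5
  have h7 : ((FPc l l1).thr : ℝ) = (Nat.sqrt (l / 2) : ℝ) * k + 2 * Nat.sqrt (l / 2) := by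
    unfold FatP.thr FatP.K FPc
    simp only
    rw [← hk]
    push_cast
    ring
  rw [h7]
  have h8 : (Nat.sqrt (l / 2) : ℝ) * k ≤ 20 / 2217 * (l : ℝ) ^ 2 := by
    apply le_of_sq_le_sq _ (by positivity)
    rw [mul_pow]
    have h9 : (0 : ℝ) ≤ (Nat.sqrt (l / 2) : ℝ) ^ 2 := sq_nonneg _
    have h10 : (0 : ℝ) ≤ (k : ℝ) ^ 2 := sq_nonneg _
    have h11 : (Nat.sqrt (l / 2) : ℝ) ^ 2 * (k : ℝ) ^ 2 ≤
        (l / 2) * (4 * (l : ℝ) ^ 3 / 24576) :=
      mul_le_mul (by linarith) (by linarith) h10 (by positivity)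
    have h12 : ((l : ℝ) / 2) * (4 * (l : ℝ) ^ 3 / 24576) = (l : ℝ) ^ 4 / 12288 := by ring
    have h13 : (20 / 2217 * (l : ℝ) ^ 2) ^ 2 = 400 / 4915089 * (l : ℝ) ^ 4 := by ring
    rw [h13]
    rw [h12] at h11
    have h14 : (0 : ℝ) ≤ (l : ℝ) ^ 4 := by positivity
    linarith
  linarith

/-- **The chosen parameters satisfy the numerical conditions.** -/
theorem FPc_ok (hl : 8192 ≤ l) : (FPc l (l + 32 * (l / 1024))).Ok := by
  obtain ⟨h1, h2, h3⟩ := sqrt_facts hl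
  have hlR : (8192 : ℝ) ≤ l := by exact_mod_cast hl
  have hμ2 : 2 * Nat.sqrt (l / 2) ^ 2 ≤ l := by
    have h0 : Nat.sqrt (l / 2) ^ 2 ≤ l / 2 := Nat.sqrt_le' _
    omega
  have hthr := FPc_thr (l1 := l + 32 * (l / 1024)) hl
  have hx : (FPc l (l + 32 * (l / 1024))).x = zx l := rfl
  have hxle : zx l ≤ 64 := by unfold zx; split_ifs <;> norm_num
  have hx1 : 1 ≤ zx l := by unfold zx; split_ifs <;> norm_num
  have hrd1 : 1 ≤ zrd l := by unfold zrd; split_ifs <;> norm_num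
  have hs : (FPc l (l + 32 * (l / 1024))).s = zs l := rfl
  have hl1R : ((l + 32 * (l / 1024) : ℕ) : ℝ) ≤ 33 / 32 * l := by
    have : 32 * (l + 32 * (l / 1024)) ≤ 33 * l := by omega
    have h : (32 : ℝ) * ((l + 32 * (l / 1024) : ℕ) : ℝ) ≤ 33 * l := by exact_mod_cast this
    linarith
  obtain ⟨w, hw⟩ : ∃ w, w = (FPc l (l + 32 * (l / 1024))).w := ⟨_, rfl⟩
  have hwdef : w = ((FPc l (l + 32 * (l / 1024))).thr : ℝ) / (zs l - 1 / 2048) + 16384 := by
    rw [hw]; rfl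
  have hm : ((l - zx l : ℕ) : ℝ) = (l : ℝ) - zx l := by
    rw [Nat.cast_sub (by omega)]
  -- bounds for `w`
  have hwmain : w ≤ ((l : ℝ) ^ 3 - ((l : ℝ) - zx l) ^ 3) / 2048 - 1 ∧
      26953 * ((Nat.sqrt (l / 2) : ℝ) * w * (l : ℝ) ^ 3) ≤ 10 * ((l : ℝ) - zx l) ^ 6 := by
    rcases Nat.lt_or_ge l 40000 with hz | hz
    · have e1 : zs l = 2 / 5 := by unfold zs; rw [if_pos hz]
      have e2 : zx l = 24 := by unfold zx; rw [if_pos hz]
      have hw1 : w ≤ 22581 / 1000000 * (l : ℝ) ^ 2 + 3912 / 100000 * l + 16384 := by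
        rw [hwdef, e1]
        have : ((FPc l (l + 32 * (l / 1024))).thr : ℝ) / (2 / 5 - 1 / 2048) ≤
            22581 / 1000000 * (l : ℝ) ^ 2 + 3912 / 100000 * l := by
          rw [div_le_iff₀ (by norm_num)]
          nlinarith
        linarith
      rw [e2]
      push_cast
      constructor
      · nlinarith
      · have hm0 : (0 : ℝ) ≤ (l : ℝ) - 24 := by linarith
        have h4 : (1021 / 1024 * (l : ℝ)) ^ 6 ≤ ((l : ℝ) - 24) ^ 6 :=
          pow_le_pow_left₀ (by positivity) (by linarith) 6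
        have h5 : 27432 / 1280 * w ≤ (l : ℝ) ^ 2 := by nlinarith
        have h6 : (Nat.sqrt (l / 2) : ℝ) * w ≤ l / 128 * w := by
          apply mul_le_mul_of_nonneg_right (by linarith)
          rw [hwdef, e1]
          have : (0 : ℝ) ≤ (FPc l (l + 32 * (l / 1024))).thr := Nat.cast_nonneg _
          positivity
        have h7 : 27432 * ((Nat.sqrt (l / 2) : ℝ) * w * (l : ℝ) ^ 3) ≤ 10 * (l : ℝ) ^ 6 := by
          have h8 : 27432 * ((Nat.sqrt (l / 2) : ℝ) * w) ≤ 10 * (l : ℝ) ^ 3 := by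
            have h10 : 27432 * ((l : ℝ) / 128 * w) = 10 * l * (27432 / 1280 * w) := by ring
            have h11 : 10 * l * (27432 / 1280 * w) ≤ 10 * l * (l : ℝ) ^ 2 :=
              mul_le_mul_of_nonneg_left h5 (by positivity)
            nlinarith
          have h9 := mul_le_mul_of_nonneg_right h8 (by positivity : (0 : ℝ) ≤ (l : ℝ) ^ 3)
          nlinarith
        rw [mul_pow] at h4
        norm_num at h4 ⊢
        have h12 : (0 : ℝ) ≤ (l : ℝ) ^ 6 := by positivity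
        linarith
    · have e1 : zs l = 1 / 10 := by unfold zs; rw [if_neg (by omega)]
      have e2 : zx l = 64 := by unfold zx; rw [if_neg (by omega)]
      have hzR : (40000 : ℝ) ≤ l := by exact_mod_cast hz
      have hμ282 := sqrt_facts2 hz
      have hw1 : w ≤ 90656 / 1000000 * (l : ℝ) ^ 2 + 15703 / 100000 * l + 16384 := by
        rw [hwdef, e1]
        have : ((FPc l (l + 32 * (l / 1024))).thr : ℝ) / (1 / 10 - 1 / 2048) ≤
            90656 / 1000000 * (l : ℝ) ^ 2 + 15703 / 100000 * l := by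
          rw [div_le_iff₀ (by norm_num)]
          nlinarith
        linarith
      rw [e2]
      push_cast
      constructor
      · nlinarith
      · have hm0 : (0 : ℝ) ≤ (l : ℝ) - 64 := by linarith
        have h4 : (624 / 625 * (l : ℝ)) ^ 6 ≤ ((l : ℝ) - 64) ^ 6 :=
          pow_le_pow_left₀ (by positivity) (by linarith) 6
        have h5 : 27214 / 2820 * w ≤ (l : ℝ) ^ 2 := by nlinarith
        have h6 : (Nat.sqrt (l / 2) : ℝ) * w ≤ l / 282 * w := by
          apply mul_le_mul_of_nonneg_right (by linarith)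
          rw [hwdef, e1]
          have : (0 : ℝ) ≤ (FPc l (l + 32 * (l / 1024))).thr := Nat.cast_nonneg _
          positivity
        have h7 : 27214 * ((Nat.sqrt (l / 2) : ℝ) * w * (l : ℝ) ^ 3) ≤ 10 * (l : ℝ) ^ 6 := by
          have h8 : 27214 * ((Nat.sqrt (l / 2) : ℝ) * w) ≤ 10 * (l : ℝ) ^ 3 := by
            have h10 : 27214 * ((l : ℝ) / 282 * w) = 10 * l * (27214 / 2820 * w) := by ring
            have h11 : 10 * l * (27214 / 2820 * w) ≤ 10 * l * (l : ℝ) ^ 2 :=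
              mul_le_mul_of_nonneg_left h5 (by positivity)
            nlinarith
          have h9 := mul_le_mul_of_nonneg_right h8 (by positivity : (0 : ℝ) ≤ (l : ℝ) ^ 3)
          nlinarith
        rw [mul_pow] at h4
        norm_num at h4 ⊢
        have h12 : (0 : ℝ) ≤ (l : ℝ) ^ 6 := by positivity
        linarith
  obtain ⟨hw1, hw2⟩ := hwmain
  exact {
    q1 := by norm_num [FPc]
    q2 := by norm_num [FPc]
    l0 := hl
    lx := by
      show l + zx l ≤ l + 32 * (l / 1024)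
      omega
    l1 := by
      show 32 * (l + 32 * (l / 1024)) ≤ 33 * l
      omega
    x1 := hx1
    x64 := hxle
    μ2 := by
      show 2 ≤ Nat.sqrt (l / 2)
      omega
    s0 := by
      show 1 / 10 ≤ zs l
      unfold zs
      split_ifs <;> norm_num
    rd0 := hrd1
    NF0 := by norm_num [FPc]
    rdq := by
      show 2048 * zrd l * 4 * 10 ^ 6 ≤ 4 * l ^ 3
      have hl3 : 8192 ^ 3 ≤ l ^ 3 := Nat.pow_le_pow_left hl 3
      unfold zrd
      split_ifs with h4 h5 h6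
      · norm_num at hl3 ⊢; omega
      · norm_num at hl3 ⊢; omega
      · norm_num at hl3 ⊢; omega
      · norm_num at hl3 ⊢; omega
    rdμ := by
      show 175 * 4 * zrd l * Nat.sqrt (l / 2) ^ 2 * 2048 ≤ l ^ 3
      have h4 : 175 * 4 * zrd l * Nat.sqrt (l / 2) ^ 2 * 2048 ≤ 175 * 2 * zrd l * 2048 * l := by
        calc 175 * 4 * zrd l * Nat.sqrt (l / 2) ^ 2 * 2048 =
            175 * 2 * zrd l * 2048 * (2 * Nat.sqrt (l / 2) ^ 2) := by ring
          _ ≤ 175 * 2 * zrd l * 2048 * l := Nat.mul_le_mul_left _ hμ2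
      refine h4.trans ?_
      have h5 : 175 * 2 * zrd l * 2048 ≤ l ^ 2 := by
        have h9 : 8192 ^ 2 ≤ l ^ 2 := Nat.pow_le_pow_left hl 2
        unfold zrd
        split_ifs with h6 h7 h8
        · norm_num at h9 ⊢; omega
        · norm_num at h9 ⊢; omega
        · norm_num at h9 ⊢; omega
        · norm_num at h9 ⊢; omega
      calc 175 * 2 * zrd l * 2048 * l ≤ l ^ 2 * l := Nat.mul_le_mul_right l h5
        _ = l ^ 3 := by ring
    hw := by
      rw [← hw]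
      show w ≤ ((l : ℝ) ^ 3 - ((l - zx l : ℕ) : ℝ) ^ 3) / ((2048 : ℕ) : ℝ) - 1
      rw [hm]
      exact_mod_cast hw1
    hy := by
      unfold FatP.y
      rw [← hw]
      show 6 / 5 * ((Nat.sqrt (l / 2) : ℝ) * w * th ((2048 : ℕ) : ℝ) (l - zx l) ^ 2) ≤
        th ((2048 : ℕ) : ℝ) (l + 32 * (l / 1024))
      unfold th
      rw [hm]
      have hxR : (zx l : ℝ) ≤ 64 := by exact_mod_cast hxle
      have hmpos : (0 : ℝ) < (l : ℝ) - zx l := by linarith
      have hL : (0 : ℝ) < ((l + 32 * (l / 1024) : ℕ) : ℝ) := by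
        have : 0 < l + 32 * (l / 1024) := by omega
        exact_mod_cast this
      have hL3 : ((l + 32 * (l / 1024) : ℕ) : ℝ) ^ 3 ≤ (33 / 32 * (l : ℝ)) ^ 3 :=
        pow_le_pow_left₀ hL.le hl1R 3
      set m := (l : ℝ) - zx l with hmdef
      set L1 := ((l + 32 * (l / 1024) : ℕ) : ℝ) with hL1
      have hw0 : 0 ≤ w := by
        rw [hwdef]
        have : (0 : ℝ) ≤ (FPc l (l + 32 * (l / 1024))).thr := Nat.cast_nonneg _
        have h4 : 0 < zs l - 1 / 2048 := by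
          unfold zs
          split_ifs <;> norm_num
        positivity
      have h4 : 6 / 5 * ((Nat.sqrt (l / 2) : ℝ) * w * (((2048 : ℕ) : ℝ) / m ^ 3) ^ 2) =
          6 / 5 * 2048 ^ 2 * ((Nat.sqrt (l / 2) : ℝ) * w) / m ^ 6 := by
        rw [div_pow]
        push_cast
        ring
      rw [h4, div_le_div_iff₀ (by positivity) (by positivity)]
      have h5 : 0 ≤ (Nat.sqrt (l / 2) : ℝ) * w := mul_nonneg (Nat.cast_nonneg _) hw0
      have h6 : 6 / 5 * 2048 ^ 2 * ((Nat.sqrt (l / 2) : ℝ) * w) * L1 ^ 3 ≤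
          6 / 5 * 2048 ^ 2 * ((Nat.sqrt (l / 2) : ℝ) * w) * (33 / 32 * (l : ℝ)) ^ 3 :=
        mul_le_mul_of_nonneg_left hL3 (by positivity)
      refine h6.trans ?_
      have h7 : 6 / 5 * 2048 ^ 2 * ((Nat.sqrt (l / 2) : ℝ) * w) * (33 / 32 * (l : ℝ)) ^ 3 =
          2048 * (107811 / 40 * ((Nat.sqrt (l / 2) : ℝ) * w * (l : ℝ) ^ 3)) := by ring
      rw [h7]
      push_cast
      have h8 : 0 ≤ (Nat.sqrt (l / 2) : ℝ) * w * (l : ℝ) ^ 3 := by positivity
      nlinarith }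

end

theorem zs_anti {l l' : ℕ} (h : l ≤ l') : zs l' ≤ zs l := by
  unfold zs
  split_ifs with h1 h2 h2
  · exact le_rfl
  · omega
  · norm_num
  · exact le_rfl

theorem zs_le_one (l : ℕ) : zs l ≤ 1 := by
  unfold zs
  split_ifs <;> norm_num

theorem zx_mono {l l' : ℕ} (h : l ≤ l') : zx l ≤ zx l' := by
  unfold zx
  split_ifs with h1 h2 h2
  · exact le_rfl
  · norm_num
  · omega
  · exact le_rfl

theorem FPc_thr_mono {l l' l1 l1' : ℕ} (h : l ≤ l') : (FPc l l1).thr ≤ (FPc l' l1').thr := by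
  unfold FatP.thr FatP.K FPc
  simp only
  apply Nat.mul_le_mul (Nat.sqrt_le_sqrt (Nat.div_le_div_right h))
  have h1 : Nat.sqrt (4 * l ^ 3 / (3 * (2048 * 4))) ≤ Nat.sqrt (4 * l' ^ 3 / (3 * (2048 * 4))) := by
    apply Nat.sqrt_le_sqrt
    apply Nat.div_le_div_right
    exact Nat.mul_le_mul_left _ (Nat.pow_le_pow_left h 3)
  omega

theorem FPc_y {l : ℕ} (hl : 8192 ≤ l) :
    (FPc l (l + 32 * (l / 1024))).y ≤ th ((2048 : ℕ) : ℝ) (l + 32 * (l / 1024) - 36) := by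
  have hf := FPc_ok hl
  have h1 := hf.hy
  have h2 := hf.σ0
  have h3 : (FPc l (l + 32 * (l / 1024))).σ ≤ th ((2048 : ℕ) : ℝ) (l + 32 * (l / 1024) - 36) := by
    show th ((2048 : ℕ) : ℝ) (l + 32 * (l / 1024)) ≤ _
    exact th_anti (by norm_num) (by omega) (by omega)
  linarith

end

end Pool.Agent.LibMoserT
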