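import Pool.Agent.LibMoserF.Fill
import Pool.Agent.LibMoserF.RowRule
import Pool.Agent.LibMoserF.CountSd
set_option autoImplicit false
/-!
# Tail of the packing: definitions

Parameter `q > 0`.  Window edges `th q k = q/k^3`.  A row `(p, r)` = free rectangle of thickness `p`
and length `r ≥ (5/4) p` has window `k` iff `th q (k+1) < p ≤ th q k`.
Block `l` = the squares with `th q (l+1) < sd n ≤ th q l`.
-/
namespace Pool.Agent.LibMoserT
open Pool.Agent.LibMoser5 Pool.Agent.LibMoserF Classical

noncomputable section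

/-- window edges -/
def th (q : ℝ) (k : ℕ) : ℝ := q / (k : ℝ) ^ 3

/-- the thickness `p` lies in window `k` -/
def InWin (q : ℝ) (k : ℕ) (p : ℝ) : Prop := th q (k + 1) < p ∧ p ≤ th q k

/-- relative width of window `k` (in units of the lower edge) -/
def om (q : ℝ) (k : ℕ) : ℝ := (th q k - th q (k + 1)) / th q (k + 1)

/-- the mass which a row needs: length plus overhead `(4/5) p` -/
def ms (x : ℝ × ℝ) : ℝ := x.2 + 4 / 5 * x.1

/-- constant of the chain potential: `fch θ' t ≤ chC * t` -/
def chC : ℝ := 5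

/-- chain potential for a window with lower edge `θ'` of a row of thickness `t`
(uncontrolled end piece) -/
def fch (θ' t : ℝ) : ℝ := if 5 / 4 * θ' ≤ t then 5 * t - 1 / 20 * θ' else 0

/-- the rest of a row `p × r`, filled with `n` squares of sides in `[(197/200) p, p]` until the rest is
at most `6/5 p`, can be at least `h` -/
def hitR (h p r : ℝ) : Prop := ∃ n : ℕ, r ≤ ((n : ℝ) + 6 / 5) * p ∧ h ≤ r - n * (197 / 200 * p)

/-- chain potential of a row `p × r` of class R -/
def fhit (θ' p r : ℝ) : ℝ := if hitR (5 / 4 * θ') p r then fch θ' p else 0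

/-- potential of a row of class R for the window `(θ', θ]` -/
def pot (θ' θ : ℝ) (x : ℝ × ℝ) : ℝ :=
  if x.1 ≤ θ' then 0 else if x.1 ≤ θ then ms x * θ' / (θ - θ') else fhit θ' x.1 x.2

/-- potential of a row of class O or J (its own mass is not counted) -/
def potC (θ' θ : ℝ) (x : ℝ × ℝ) : ℝ := if x.1 ≤ θ then 0 else fch θ' x.1

/-- potential for window `k` -/
def P (q : ℝ) (k : ℕ) (L : List (ℝ × ℝ)) : ℝ := (L.map (pot (th q (k + 1)) (th q k))).sum
def PC (q : ℝ) (k : ℕ) (L : List (ℝ × ℝ)) : ℝ := (L.map (potC (th q (k + 1)) (th q k))).sum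

/-- an end piece `a × b` of a row of thickness `t` -/
structure EP where
  a : ℝ
  b : ℝ
  t : ℝ

def EP.Ok (x : EP) : Prop := x.t / 5 ≤ x.a ∧ x.a ≤ x.t ∧ x.t ≤ x.b ∧ x.b ≤ 6 / 5 * x.t

/-- what an end piece may cost after the cut -/
def rel (θ' : ℝ) (x : EP) : ℝ := if 5 / 4 * θ' ≤ x.a then fch θ' x.t else 0

/-- the two strips of an end piece cut at `φ` -/
def EP.strips (x : EP) (φ : ℝ) : List (ℝ × ℝ) := [(φ * x.a, x.b), ((1 - φ) * x.a, x.b)]

end

end Pool.Agent.LibMoserT
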