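import Pool.Agent.LibMoserF.StripStep
import Pool.Agent.LibMoserT.Defs
set_option autoImplicit false
/-!
# Waste pieces of the strips become rows; sums over a chain of strips
-/
namespace Pool.Agent.LibMoserT
open Pool.Agent.LibMoser5 Pool.Agent.LibMoserF Classical

noncomputable section

/-- one waste piece becomes at most two rows -/
theorem waste_one {W H : ℝ} {x : ℝ × ℝ} {F : List (ℝ × ℝ)} {P : Finset ℕ} {T : ℝ}
    (h : PT W H (x :: F) P) (h0 : 0 ≤ x.1 ∧ 0 ≤ x.2) (hT : min x.1 x.2 ≤ T) :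
    ∃ J : List (ℝ × ℝ), PT W H (J ++ F) P ∧
      (∀ x ∈ J, 0 < x.1 ∧ x.1 ≤ T ∧ 6 / 5 * x.1 ≤ x.2) ∧
      (J.map ms).sum ≤ 3 / 2 * (x.1 + x.2) ∧
      (J.map Prod.fst).sum ≤ min x.1 x.2 := by
  -- orient
  obtain ⟨a, b, ha0, hab, hmin, hsum, h1⟩ : ∃ a b : ℝ, 0 ≤ a ∧ a ≤ b ∧ min x.1 x.2 = a ∧
      a + b = x.1 + x.2 ∧ PT W H ((a, b) :: F) P := by
    obtain ⟨p, r⟩ := x
    rcases le_total p r with hpr | hpr
    · exact ⟨p, r, h0.1, hpr, min_eq_left hpr, rfl, h⟩
    · exact ⟨r, p, h0.2, hpr, min_eq_right hpr, add_comm _ _, h.swap⟩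
  rw [hmin] at hT ⊢
  rw [← hsum]
  rcases ha0.eq_or_lt with he | hpos
  · refine ⟨[], h1.drop (by rw [← he]; simp), by simp, ?_, ?_⟩
    · simp only [List.map_nil, List.sum_nil]; linarith
    · simp only [List.map_nil, List.sum_nil]; linarith
  · rcases le_or_gt (6 / 5 * a) b with hc | hc
    · refine ⟨[(a, b)], h1, ?_, ?_, ?_⟩
      · intro y hy
        rw [List.mem_singleton] at hy
        subst hy
        exact ⟨hpos, hT, hc⟩
      · simp only [List.map_cons, List.map_nil, List.sum_cons, List.sum_nil, ms]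
        linarith
      · simp
    · have h2 := h1.swap.cut (b₁ := a / 2) (by linarith) (by linarith)
      have e : a - a / 2 = a / 2 := by ring
      rw [e] at h2
      have h3 : PT W H ((b, a / 2) :: (a / 2, b) :: F) P :=
        h2.swap.perm (List.Perm.swap _ _ _)
      refine ⟨[(a / 2, b), (a / 2, b)], h3.swap, ?_, ?_, ?_⟩
      · intro y hy
        have hy' : y = (a / 2, b) := by
          simpa using hy
        subst hy'
        simp only
        exact ⟨by linarith, by linarith, by linarith⟩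
      · simp only [List.map_cons, List.map_nil, List.sum_cons, List.sum_nil, ms]
        linarith
      · simp only [List.map_cons, List.map_nil, List.sum_cons, List.sum_nil]
        linarith

/-- **Waste pieces become rows** (orient, halve the nearly square ones, drop those of area 0). -/
theorem waste_rows {W H : ℝ} {Z F : List (ℝ × ℝ)} {P : Finset ℕ} {T : ℝ}
    (h : PT W H (Z ++ F) P) (h0 : ∀ x ∈ Z, 0 ≤ x.1 ∧ 0 ≤ x.2) (hT : ∀ x ∈ Z, min x.1 x.2 ≤ T) :
    ∃ J : List (ℝ × ℝ), PT W H (J ++ F) P ∧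
      (∀ x ∈ J, 0 < x.1 ∧ x.1 ≤ T ∧ 6 / 5 * x.1 ≤ x.2) ∧
      (J.map ms).sum ≤ 3 / 2 * wt Z ∧
      (J.map Prod.fst).sum ≤ (Z.map (fun x => min x.1 x.2)).sum := by
  induction Z generalizing F with
  | nil =>
    refine ⟨[], h, by simp, ?_, ?_⟩
    · simp [wt_nil]
    · simp
  | cons x Z ih =>
    rw [List.cons_append] at h
    obtain ⟨J₁, a1, a2, a3, a4⟩ := waste_one h (h0 x List.mem_cons_self) (hT x List.mem_cons_self)
    have h1 : PT W H (Z ++ (J₁ ++ F)) P := by
      refine a1.perm ?_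
      rw [← List.append_assoc, ← List.append_assoc]
      exact List.Perm.append_right _ List.perm_append_comm
    obtain ⟨J₂, b1, b2, b3, b4⟩ := ih h1 (fun y hy => h0 y (List.mem_cons_of_mem _ hy))
      (fun y hy => hT y (List.mem_cons_of_mem _ hy))
    refine ⟨J₂ ++ J₁, by rw [List.append_assoc]; exact b1, ?_, ?_, ?_⟩
    · intro y hy
      rcases List.mem_append.1 hy with hy | hy
      · exact b2 y hy
      · exact a2 y hy
    · rw [List.map_append, List.sum_append, wt_cons]
      linarith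
    · rw [List.map_append, List.sum_append, List.map_cons, List.sum_cons]
      linarith

/-- drop the rows of thickness 0 -/
theorem drop_rows {W H : ℝ} {Z F : List (ℝ × ℝ)} {P : Finset ℕ}
    (h : PT W H (Z ++ F) P) (h0 : ∀ x ∈ Z, 0 ≤ x.1) :
    ∃ J : List (ℝ × ℝ), J.Sublist Z ∧ PT W H (J ++ F) P ∧ (∀ x ∈ J, 0 < x.1) := by
  induction Z generalizing F with
  | nil => exact ⟨[], List.Sublist.refl _, h, by simp⟩
  | cons x Z ih =>
    rw [List.cons_append] at h
    have h0' : ∀ y ∈ Z, 0 ≤ y.1 := fun y hy => h0 y (List.mem_cons_of_mem _ hy)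
    rcases (h0 x List.mem_cons_self).eq_or_lt with he | hpos
    · obtain ⟨J, j1, j2, j3⟩ := ih (h.drop (by rw [← he, zero_mul])) h0'
      exact ⟨J, j1.cons _, j2, j3⟩
    · obtain ⟨J, j1, j2, j3⟩ := ih (F := x :: F) (h.perm List.perm_middle.symm) h0'
      refine ⟨x :: J, j1.cons_cons _, ?_, ?_⟩
      · rw [List.cons_append]
        exact j2.perm List.perm_middle
      · intro y hy
        rcases List.mem_cons.1 hy with rfl | hy
        · exact hpos
        · exact j3 y hy

section
variable {M R : ℕ} {u : ℕ → ℕ}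

/-- first side of a bottom piece -/
theorem pwBot_fst_le {x : ℝ × ℝ} (hu : ∀ k l, k < l → l < (M + 1) * (R + 1) → u k < u l)
    (hx : x ∈ pwBot M (rm M u) (hV M R u)) : x.1 ≤ dl M R u := by
  unfold pwBot at hx
  obtain ⟨i, hi, rfl⟩ := List.mem_map.1 hx
  rw [List.mem_range] at hi
  simp only
  unfold PY
  rw [Finset.sum_range_zero, add_zero]
  refine le_trans ?_ (hV_sum (M := M) (R := R) hu)
  refine Finset.sum_le_sum_of_subset_of_nonneg ?_ ?_
  · intro k hk
    rw [Finset.mem_range] at hk ⊢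
    omega
  · intro k hk _
    rw [Finset.mem_range] at hk
    exact hV_nonneg hu hk

theorem stripU_min_le {x : ℝ × ℝ} (hu : ∀ k l, k < l → l < (M + 1) * (R + 1) → u k < u l)
    (hx : x ∈ stripU M R u) : min x.1 x.2 ≤ ((M : ℝ) + 1) * dl M R u := by
  have hd := dl_nonneg (M := M) (R := R) hu
  refine (min_le_left _ _).trans ?_
  have hM : (0 : ℝ) ≤ M := Nat.cast_nonneg M
  unfold stripU at hx
  rcases List.mem_append.1 hx with hx | hx
  · have g := strip_PW (M := M) (R := R) (u := u) hu (le_refl (hW M u))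
    unfold pwHole at hx
    obtain ⟨q, hq, rfl⟩ := List.mem_map.1 hx
    rw [mem_prs] at hq
    simp only
    -- first column is the longest
    have hanti : ∀ j ≤ R, PX (rm M u) (q.1 + 1) j ≤ PX (rm M u) (q.1 + 1) 0 := by
      intro j
      induction j with
      | zero => intro _; exact le_rfl
      | succ j ih =>
        intro hj
        have h1 := g.PX_anti (i := q.1 + 1) (j := j) (by omega) (by omega)
        exact h1.trans (ih (by omega))
    have h1 := hanti q.2 hq.2.le
    have h2 := PX_diff (M := M) (R := R) hu (by omega : q.1 + 1 ≤ M + 1) (j := q.2 + 1) (by omega)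
    have h3 : ((q.1 + 1 : ℕ) : ℝ) ≤ (M : ℝ) + 1 := by
      have : q.1 + 1 ≤ M + 1 := by omega
      exact_mod_cast this
    have h4 := mul_le_mul_of_nonneg_right h3 hd
    linarith
  · have h1 := pwBot_fst_le hu hx
    nlinarith

theorem stripU_min_sum (hu : ∀ k l, k < l → l < (M + 1) * (R + 1) → u k < u l) :
    ((stripU M R u).map (fun x => min x.1 x.2)).sum ≤ ((M : ℝ) ^ 2 + M + R) * dl M R u := by
  have hd := dl_nonneg (M := M) (R := R) hu
  have hn : ∀ a ∈ stripU M R u, 0 ≤ a.1 ∧ 0 ≤ a.2 := fun a ha => stripU_nonneg hu ha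
  unfold stripU at hn ⊢
  rw [List.map_append, List.sum_append]
  have h1 : ((pwHole M R (rm M u) (hV M R u)).map (fun x => min x.1 x.2)).sum ≤
      wt (pwHole M R (rm M u) (hV M R u)) := by
    unfold wt
    refine List.sum_le_sum ?_
    intro a ha
    have h2 := hn a (List.mem_append_left _ ha)
    have h3 := min_le_left a.1 a.2
    linarith
  have h2 := wt_pwHole (M := M) (R := R) hu
  have h3 : ((pwBot M (rm M u) (hV M R u)).map (fun x => min x.1 x.2)).sum ≤ M * dl M R u := by
    have h4 : ∀ a ∈ (pwBot M (rm M u) (hV M R u)).map (fun x => min x.1 x.2), a ≤ dl M R u := by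
      intro a ha
      obtain ⟨y, hy, rfl⟩ := List.mem_map.1 ha
      exact (min_le_left _ _).trans (pwBot_fst_le hu hy)
    have h5 := List.sum_le_card_nsmul _ _ h4
    have h6 : ((pwBot M (rm M u) (hV M R u)).map (fun x : ℝ × ℝ => min x.1 x.2)).length = M := by
      unfold pwBot
      simp
    rw [h6, nsmul_eq_mul] at h5
    exact h5
  linarith

end

section
variable {u : ℕ → ℕ} {L o o' : ℕ} {S : List StripD} {σ Sx : ℝ}

theorem StripD_n_pos (s : StripD) : 0 < s.n := by
  unfold StripD.n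
  positivity

/-- telescoping, general form -/
theorem Chain.dl_sum_aux (hc : Chain o S o') (hL : o' ≤ L)
    (hu : ∀ k l, k < l → l < L → u k < u l) (hσ : ∀ k < L, σ ≤ sd (u k)) {B : ℝ}
    (hB : ∀ k, o ≤ k → k < L → sd (u k) ≤ B) (hS : σ ≤ B) :
    (S.map (fun s => dl s.M s.R (shu u s.o))).sum ≤ B - σ := by
  induction S generalizing o B with
  | nil =>
    simp only [List.map_nil, List.sum_nil]
    linarith
  | cons s S ih =>
    have hso : s.o = o := hc.1
    have hle := hc.2.le
    have hn := StripD_n_pos s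
    rw [List.map_cons, List.sum_cons]
    have h1 := ih (o := o + s.n) (B := sd (u (o + s.n - 1))) hc.2 (by
      intro k hk hkL
      apply sd_anti
      exact (hu _ _ (by omega) hkL).le) (hσ _ (by omega))
    have h2 : dl s.M s.R (shu u s.o) = sd (u o) - sd (u (o + s.n - 1)) := by
      unfold dl shu
      have e1 : s.o + 0 = o := by omega
      have e2 : s.o + ((s.M + 1) * (s.R + 1) - 1) = o + s.n - 1 := by
        have : s.n = (s.M + 1) * (s.R + 1) := rfl
        omega
      rw [e1, e2]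
    rw [h2]
    have h3 := hB o le_rfl (by omega)
    linarith

/-- telescoping -/
theorem Chain.dl_sum (hc : Chain o S o') (hL : o' ≤ L) (hu : ∀ k l, k < l → l < L → u k < u l)
    (hσ : ∀ k < L, σ ≤ sd (u k) ∧ sd (u k) ≤ Sx) (hS : σ ≤ Sx) :
    (S.map (fun s => dl s.M s.R (shu u s.o))).sum ≤ Sx - σ :=
  Chain.dl_sum_aux hc hL hu (fun k hk => (hσ k hk).1) (fun k _ hk => (hσ k hk).2) hS

theorem Chain.count {ν : ℕ} (hc : Chain o S o') (hL : o' ≤ L) (hn : ∀ s ∈ S, ν ≤ s.n) :
    S.length * ν ≤ L := by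
  have h1 := hc.sum
  have h2 : S.length * ν ≤ (S.map StripD.n).sum := by
    have h3 : ∀ a ∈ S.map StripD.n, ν ≤ a := by
      intro a ha
      obtain ⟨s, hs, rfl⟩ := List.mem_map.1 ha
      exact hn s hs
    have h4 := List.card_nsmul_le_sum _ _ h3
    rw [List.length_map, smul_eq_mul] at h4
    exact h4
  omega

/-- every strip of the chain ends before `o'` -/
theorem Chain.mem_le {s : StripD} (hc : Chain o S o') (hs : s ∈ S) : o ≤ s.o ∧ s.o + s.n ≤ o' :=
  hc.mem hs

/-- the shifted indices of a strip of the chain are increasing -/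
theorem Chain.shu_mono {s : StripD} (hc : Chain o S o') (hL : o' ≤ L)
    (hu : ∀ k l, k < l → l < L → u k < u l) (hs : s ∈ S) :
    ∀ k l, k < l → l < (s.M + 1) * (s.R + 1) → shu u s.o k < shu u s.o l := by
  intro k l hkl hl
  have h1 := hc.mem hs
  have h2 : s.n = (s.M + 1) * (s.R + 1) := rfl
  exact hu _ _ (by omega) (by omega)

/-- sum over a flatMap -/
theorem sum_flatMap_le {α : Type*} (S : List α) (f : α → List (ℝ × ℝ)) (φ : ℝ × ℝ → ℝ)
    (g : α → ℝ) (h : ∀ s ∈ S, ((f s).map φ).sum ≤ g s) :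
    ((S.flatMap f).map φ).sum ≤ (S.map g).sum := by
  induction S with
  | nil => simp
  | cons s S ih =>
    rw [List.flatMap_cons, List.map_append, List.sum_append, List.map_cons, List.sum_cons]
    have h1 := h s List.mem_cons_self
    have h2 := ih (fun t ht => h t (List.mem_cons_of_mem _ ht))
    linarith

theorem sum_mul_add (S : List StripD) (d : StripD → ℝ) (c e : ℝ) :
    (S.map (fun s => c * d s + e)).sum = c * (S.map d).sum + S.length * e := by
  induction S with
  | nil => simp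
  | cons s S ih =>
    rw [List.map_cons, List.sum_cons, ih, List.map_cons, List.sum_cons, List.length_cons]
    push_cast
    ring

/-- weight of the uncontrolled pieces of all strips -/
theorem Chain.wt_unc {M K : ℕ} (hc : Chain o S o') (hL : o' ≤ L)
    (hu : ∀ k l, k < l → l < L → u k < u l)
    (hσ : ∀ k < L, σ ≤ sd (u k) ∧ sd (u k) ≤ Sx) (hS : σ ≤ Sx)
    (hQ : ∀ s ∈ S, s.M = M ∧ s.R < K) :
    wt (S.flatMap (StripD.unc u)) ≤
      (((M : ℝ) + 1) ^ 2 + K) * (Sx - σ) + S.length * ((M : ℝ) + 1) * Sx := by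
  have hM : (0 : ℝ) ≤ M := Nat.cast_nonneg M
  have hK : (0 : ℝ) ≤ K := Nat.cast_nonneg K
  have h1 := Chain.dl_sum hc hL hu hσ hS
  have h2 : wt (S.flatMap (StripD.unc u)) ≤ (S.map (fun s =>
      (((M : ℝ) + 1) ^ 2 + K) * dl s.M s.R (shu u s.o) + ((M : ℝ) + 1) * Sx)).sum := by
    unfold wt
    apply sum_flatMap_le
    intro s hs
    have hv := Chain.shu_mono hc hL hu hs
    have h3 := wt_stripU (M := s.M) (R := s.R) hv
    have hd := dl_nonneg (M := s.M) (R := s.R) hv
    have h4 : sd (shu u s.o 0) ≤ Sx := by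
      have := hc.mem hs
      have hn := StripD_n_pos s
      unfold shu
      exact (hσ _ (by omega)).2
    have h5 := sd_pos (shu u s.o 0)
    obtain ⟨e1, e2⟩ := hQ s hs
    have e3 : (s.R : ℝ) ≤ K := by exact_mod_cast e2.le
    unfold StripD.unc
    unfold wt at h3
    refine h3.trans ?_
    have h6 : ((s.M : ℝ) ^ 2 + s.M + s.R) * dl s.M s.R (shu u s.o) ≤
        (((M : ℝ) + 1) ^ 2 + K) * dl s.M s.R (shu u s.o) := by
      apply mul_le_mul_of_nonneg_right _ hd
      rw [e1]
      nlinarith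
    have h7 : (s.M : ℝ) * sd (shu u s.o 0) ≤ ((M : ℝ) + 1) * Sx := by
      rw [e1]
      nlinarith
    linarith
  refine h2.trans ?_
  rw [sum_mul_add S (fun s => dl s.M s.R (shu u s.o))]
  have h8 : (((M : ℝ) + 1) ^ 2 + K) * (S.map (fun s => dl s.M s.R (shu u s.o))).sum ≤
      (((M : ℝ) + 1) ^ 2 + K) * (Sx - σ) := mul_le_mul_of_nonneg_left h1 (by positivity)
  nlinarith

/-- thickness of the uncontrolled pieces of all strips -/
theorem Chain.min_unc {M K : ℕ} (hc : Chain o S o') (hL : o' ≤ L)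
    (hu : ∀ k l, k < l → l < L → u k < u l)
    (hσ : ∀ k < L, σ ≤ sd (u k) ∧ sd (u k) ≤ Sx) (hS : σ ≤ Sx)
    (hQ : ∀ s ∈ S, s.M = M ∧ s.R < K) :
    ((S.flatMap (StripD.unc u)).map (fun x => min x.1 x.2)).sum ≤
      (((M : ℝ) + 1) ^ 2 + K) * (Sx - σ) := by
  have hM : (0 : ℝ) ≤ M := Nat.cast_nonneg M
  have hK : (0 : ℝ) ≤ K := Nat.cast_nonneg K
  have h1 := Chain.dl_sum hc hL hu hσ hS
  have h2 : ((S.flatMap (StripD.unc u)).map (fun x => min x.1 x.2)).sum ≤ (S.map (fun s =>
      (((M : ℝ) + 1) ^ 2 + K) * dl s.M s.R (shu u s.o) + 0)).sum := by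
    apply sum_flatMap_le
    intro s hs
    have hv := Chain.shu_mono hc hL hu hs
    have h3 := stripU_min_sum (M := s.M) (R := s.R) hv
    have hd := dl_nonneg (M := s.M) (R := s.R) hv
    obtain ⟨e1, e2⟩ := hQ s hs
    have e3 : (s.R : ℝ) ≤ K := by exact_mod_cast e2.le
    unfold StripD.unc
    refine h3.trans ?_
    rw [add_zero]
    apply mul_le_mul_of_nonneg_right _ hd
    rw [e1]
    nlinarith
  refine h2.trans ?_
  rw [sum_mul_add S (fun s => dl s.M s.R (shu u s.o)), mul_zero, add_zero]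
  exact mul_le_mul_of_nonneg_left h1 (by positivity)

/-- thickness of the slivers of all strips -/
theorem Chain.fst_right {M K : ℕ} (hc : Chain o S o') (hL : o' ≤ L)
    (hu : ∀ k l, k < l → l < L → u k < u l)
    (hσ : ∀ k < L, σ ≤ sd (u k) ∧ sd (u k) ≤ Sx) (hS : σ ≤ Sx)
    (hQ : ∀ s ∈ S, s.M = M ∧ s.R < K) :
    ((S.flatMap (StripD.right u)).map Prod.fst).sum ≤
      ((M : ℝ) + 1) * K * (Sx - σ) := by
  have hM : (0 : ℝ) ≤ M := Nat.cast_nonneg M
  have hK : (0 : ℝ) ≤ K := Nat.cast_nonneg K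
  have h1 := Chain.dl_sum hc hL hu hσ hS
  have h2 : ((S.flatMap (StripD.right u)).map Prod.fst).sum ≤ (S.map (fun s =>
      (((M : ℝ) + 1) * K) * dl s.M s.R (shu u s.o) + 0)).sum := by
    apply sum_flatMap_le
    intro s hs
    have hv := Chain.shu_mono hc hL hu hs
    have hd := dl_nonneg (M := s.M) (R := s.R) hv
    obtain ⟨e1, e2⟩ := hQ s hs
    have e3 : (s.R : ℝ) ≤ K := by exact_mod_cast e2.le
    unfold StripD.right
    have h4 : ∀ a ∈ (stripRight s.M s.R (shu u s.o)).map Prod.fst,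
        a ≤ ((s.M : ℝ) + 1) * dl s.M s.R (shu u s.o) := by
      intro a ha
      obtain ⟨y, hy, rfl⟩ := List.mem_map.1 ha
      exact (stripRight_thick hv hy).2.1
    have h5 := List.sum_le_card_nsmul _ _ h4
    have h6 : ((stripRight s.M s.R (shu u s.o)).map Prod.fst).length = s.R := by
      unfold stripRight
      simp
    rw [h6, nsmul_eq_mul] at h5
    rw [e1] at h5 hd ⊢
    refine h5.trans ?_
    rw [add_zero]
    have h7 : (s.R : ℝ) * (((M : ℝ) + 1) * dl M s.R (shu u s.o)) ≤
        K * (((M : ℝ) + 1) * dl M s.R (shu u s.o)) :=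
      mul_le_mul_of_nonneg_right e3 (by positivity)
    linarith
  refine h2.trans ?_
  rw [sum_mul_add S (fun s => dl s.M s.R (shu u s.o)), mul_zero, add_zero]
  exact mul_le_mul_of_nonneg_left h1 (by positivity)

end

end

end Pool.Agent.LibMoserT
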