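import Pool.Agent.LibMoserT.FatDefs
import Pool.Agent.LibMoserT.Waste
import Pool.Agent.LibMoser5.Count
set_option autoImplicit false
/-!
# Mass of the slivers of the strips in a thickness interval
-/
namespace Pool.Agent.LibMoserT
open Pool.Agent.LibMoser5 Pool.Agent.LibMoserF Classical

noncomputable section

/-- mass of the rows of thickness in `(α, β]` -/
def msF (α β : ℝ) (L : List (ℝ × ℝ)) : ℝ :=
  ((L.filter (fun x => α < x.1 ∧ x.1 ≤ β)).map ms).sum

theorem msF_nil (α β : ℝ) : msF α β [] = 0 := by simp [msF]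

theorem msF_append (α β : ℝ) (L L' : List (ℝ × ℝ)) :
    msF α β (L ++ L') = msF α β L + msF α β L' := by
  simp [msF]

theorem msF_flatMap {γ : Type} (α β : ℝ) (S : List γ) (g : γ → List (ℝ × ℝ)) :
    msF α β (S.flatMap g) = (S.map (fun s => msF α β (g s))).sum := by
  induction S with
  | nil => simp [msF]
  | cons s S ih => rw [List.flatMap_cons, msF_append, ih, List.map_cons, List.sum_cons]

theorem msF_zero {α β : ℝ} {L : List (ℝ × ℝ)} (h : ∀ x ∈ L, ¬ (α < x.1 ∧ x.1 ≤ β)) :
    msF α β L = 0 := by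
  unfold msF
  rw [List.filter_eq_nil_iff.2]
  · simp
  · intro x hx
    simpa using h x hx

theorem msF_le_count {α β c : ℝ} {L : List (ℝ × ℝ)}
    (hL : ∀ x ∈ L, α < x.1 → x.1 ≤ β → ms x ≤ c) :
    msF α β L ≤ ((L.map Prod.fst).countP (fun x => α < x ∧ x ≤ β) : ℝ) * c := by
  induction L with
  | nil => simp [msF]
  | cons a L ih =>
    have h1 := ih (fun b hb => hL b (List.mem_cons_of_mem _ hb))
    have h2 := hL a List.mem_cons_self
    rw [List.map_cons, List.countP_cons]
    unfold msF at h1 ⊢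
    by_cases h : α < a.1 ∧ a.1 ≤ β
    · rw [List.filter_cons_of_pos (by simpa using h), List.map_cons, List.sum_cons,
        if_pos (by simpa using h)]
      push_cast
      linarith [h2 h.1 h.2]
    · rw [List.filter_cons_of_neg (by simpa using h), if_neg (by simpa using h)]
      push_cast
      linarith

section
variable {M R : ℕ} {u : ℕ → ℕ} {α β σ Sx : ℝ}

/-- mass of the slivers of one strip -/
theorem right_msF (hαβ : α ≤ β) (hα : 0 < α) (hσ : 0 < σ)
    (hu : ∀ k l, k < l → l < (M + 1) * (R + 1) → u k < u l)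
    (h1 : σ ≤ sd (u ((M + 1) * (R + 1) - 1))) (h2 : sd (u 0) ≤ Sx) :
    msF α β (stripRight M R u) ≤
      if α < ((M : ℝ) + 1) * dl M R u ∧ ((M : ℝ) + 1) ^ 2 * σ ^ 2 ≤ β then
        ((β - α) / (((M : ℝ) + 1) ^ 2 * σ ^ 2) + 1) * (Sx + 4 / 5 * β) else 0 := by
  have hM : (0 : ℝ) < (M : ℝ) + 1 := by positivity
  have hσ2 : 0 < ((M : ℝ) + 1) ^ 2 * σ ^ 2 := by positivity
  set s1 := sd (u ((M + 1) * (R + 1) - 1)) with hs1
  have hs1pos : 0 < s1 := sd_pos _
  have hσσ : ((M : ℝ) + 1) ^ 2 * σ ^ 2 ≤ ((M : ℝ) + 1) ^ 2 * s1 ^ 2 :=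
    mul_le_mul_of_nonneg_left (pow_le_pow_left₀ hσ.le h1 2) (by positivity)
  have hsp := thR_spaced (M := M) (R := R) hu
  rw [← hs1] at hsp
  -- every sliver has thickness at least `μ² σ²`
  have hthick : ∀ x ∈ stripRight M R u, ((M : ℝ) + 1) ^ 2 * σ ^ 2 ≤ x.1 := by
    intro x hx
    unfold stripRight at hx
    obtain ⟨j, hj, rfl⟩ := List.mem_map.1 hx
    rw [List.mem_range] at hj
    simp only
    have h3 : ∀ k : ℕ, k < R → ((M : ℝ) + 1) ^ 2 * s1 ^ 2 ≤ thR M u (k + 1) := by
      intro k hk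
      induction k with
      | zero =>
        have h4 := thR_step (M := M) (R := R) hu (j := 0) hk
        have h5 : thR M u 0 = 0 := by
          unfold thR
          rw [hW_eq, sub_self]
        rw [h5] at h4
        simpa using h4
      | succ k ih =>
        have h4 := thR_step (M := M) (R := R) hu (j := k + 1) hk
        have h5 := ih (by omega)
        have h6 : 0 ≤ ((M : ℝ) + 1) ^ 2 * s1 ^ 2 := by positivity
        rw [← hs1] at h4
        linarith
    exact hσσ.trans (h3 j hj)
  split_ifs with hc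
  · obtain ⟨hc1, hc2⟩ := hc
    have hβ : 0 < β := lt_of_lt_of_le hα hαβ
    have hS0 : 0 < Sx := lt_of_lt_of_le (sd_pos _) h2
    have h3 : msF α β (stripRight M R u) ≤
        (((stripRight M R u).map Prod.fst).countP (fun x => α < x ∧ x ≤ β) : ℝ) *
          (Sx + 4 / 5 * β) := by
      apply msF_le_count
      intro x hx _ hxβ
      have h4 := (stripRight_thick hu hx).2.2.2
      unfold ms
      linarith
    have h4 := count_spaced _ (((M : ℝ) + 1) ^ 2 * s1 ^ 2) α β
      (lt_of_lt_of_le hσ2 hσσ) hαβ hsp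
    have h5 : (β - α) / (((M : ℝ) + 1) ^ 2 * s1 ^ 2) ≤ (β - α) / (((M : ℝ) + 1) ^ 2 * σ ^ 2) :=
      div_le_div_of_nonneg_left (by linarith) hσ2 hσσ
    refine h3.trans (mul_le_mul_of_nonneg_right (h4.trans (by linarith)) (by positivity))
  · refine le_of_eq (msF_zero ?_)
    intro x hx hxw
    apply hc
    have h3 := stripRight_thick hu hx
    refine ⟨lt_of_lt_of_le hxw.1 h3.2.1, (hthick x hx).trans hxw.2⟩

end

/-- Markov bound for the number of strips with thick slivers -/
theorem count_markov {γ : Type} (S : List γ) (g : γ → ℝ) (hg : ∀ s ∈ S, 0 ≤ g s) {α c T : ℝ}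
    (hα : 0 < α) (hc : 0 ≤ c) (hT : (S.map g).sum ≤ T) :
    (S.map (fun s => if α < g s then c else 0)).sum ≤ min (S.length : ℝ) (T / α) * c := by
  have h1 : (S.map (fun s => if α < g s then c else 0)).sum ≤ (S.length : ℝ) * c := by
    clear hT
    induction S with
    | nil => simp
    | cons s S ih =>
      rw [List.map_cons, List.sum_cons, List.length_cons]
      have h2 := ih (fun t ht => hg t (List.mem_cons_of_mem _ ht))
      have h3 : (if α < g s then c else 0) ≤ c := by split_ifs <;> linarith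
      push_cast
      linarith
  have h2 : α * (S.map (fun s => if α < g s then c else 0)).sum ≤ (S.map g).sum * c := by
    clear hT h1
    induction S with
    | nil => simp
    | cons s S ih =>
      rw [List.map_cons, List.sum_cons, List.map_cons, List.sum_cons]
      have h2 := ih (fun t ht => hg t (List.mem_cons_of_mem _ ht))
      have h3 : α * (if α < g s then c else 0) ≤ g s * c := by
        split_ifs with h
        · exact mul_le_mul_of_nonneg_right h.le hc
        · rw [mul_zero]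
          exact mul_nonneg (hg s List.mem_cons_self) hc
      linarith
  have h3 : (S.map (fun s => if α < g s then c else 0)).sum ≤ T / α * c := by
    rw [div_mul_eq_mul_div, le_div_iff₀ hα]
    have h4 := mul_le_mul_of_nonneg_right hT hc
    linarith
  rcases le_total (S.length : ℝ) (T / α) with h | h
  · rw [min_eq_left h]; exact h1
  · rw [min_eq_right h]; exact h3

/-- **Mass of the slivers of a chain of strips.** -/
theorem chain_msF {u : ℕ → ℕ} {L o o' M : ℕ} {S : List StripD} {σ Sx N y α β : ℝ}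
    (hc : LibMoserF.Chain o S o') (hL : o' ≤ L) (hu : ∀ k l, k < l → l < L → u k < u l)
    (hσ0 : 0 < σ) (hσ : ∀ k < L, σ ≤ sd (u k) ∧ sd (u k) ≤ Sx) (hS : σ ≤ Sx)
    (hM : ∀ s ∈ S, s.M = M) (hN : (S.length : ℝ) ≤ N)
    (hy : ∀ s ∈ S, ((M : ℝ) + 1) * dl s.M s.R (shu u s.o) ≤ y)
    (hα : 0 < α) (hαβ : α ≤ β) :
    msF α β (S.flatMap (StripD.right u)) ≤
      if α ≤ y ∧ ((M : ℝ) + 1) ^ 2 * σ ^ 2 ≤ β then
        min N (((M : ℝ) + 1) * (Sx - σ) / α) *
          ((β - α) / (((M : ℝ) + 1) ^ 2 * σ ^ 2) + 1) * (Sx + 4 / 5 * β)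
      else 0 := by
  have hS0 : 0 < Sx := lt_of_lt_of_le hσ0 hS
  have hβ : 0 < β := lt_of_lt_of_le hα hαβ
  have hσ2 : 0 < ((M : ℝ) + 1) ^ 2 * σ ^ 2 := by positivity
  have hmono : ∀ s ∈ S, ∀ k l, k < l → l < (s.M + 1) * (s.R + 1) →
      shu u s.o k < shu u s.o l := by
    intro s hs k l hkl hl
    have h1 := Chain.mem_le hc hs
    have : s.n = (s.M + 1) * (s.R + 1) := rfl
    exact hu _ _ (by omega) (by omega)
  have hdl : ∀ s ∈ S, 0 ≤ ((M : ℝ) + 1) * dl s.M s.R (shu u s.o) := fun s hs =>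
    mul_nonneg (by positivity) (dl_nonneg (hmono s hs))
  obtain ⟨c, hcdef⟩ : ∃ c, c = ((β - α) / (((M : ℝ) + 1) ^ 2 * σ ^ 2) + 1) * (Sx + 4 / 5 * β) :=
    ⟨_, rfl⟩
  have hc0 : 0 ≤ c := by
    rw [hcdef]
    have : 0 ≤ (β - α) / (((M : ℝ) + 1) ^ 2 * σ ^ 2) := div_nonneg (by linarith) hσ2.le
    positivity
  have hone : ∀ s ∈ S, msF α β (StripD.right u s) ≤
      if α < ((M : ℝ) + 1) * dl s.M s.R (shu u s.o) ∧ ((M : ℝ) + 1) ^ 2 * σ ^ 2 ≤ β then c
      else 0 := by
    intro s hs
    have h1 := Chain.mem_le hc hs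
    have hn : s.n = (s.M + 1) * (s.R + 1) := rfl
    have hnpos : 0 < (s.M + 1) * (s.R + 1) := by positivity
    have h2 := right_msF (M := s.M) (R := s.R) (u := shu u s.o) (σ := σ) (Sx := Sx) hαβ hα hσ0
      (hmono s hs)
      (by
        unfold shu
        exact (hσ _ (by omega)).1)
      (by
        unfold shu
        exact (hσ _ (by omega)).2)
    rw [hM s hs] at h2 ⊢
    unfold StripD.right
    rw [hM s hs, hcdef]
    exact h2
  rw [msF_flatMap]
  by_cases hβσ : ((M : ℝ) + 1) ^ 2 * σ ^ 2 ≤ β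
  · have h1 : (S.map (fun s => msF α β (StripD.right u s))).sum ≤
        (S.map (fun s => if α < ((M : ℝ) + 1) * dl s.M s.R (shu u s.o) then c else 0)).sum := by
      apply List.sum_le_sum
      intro s hs
      refine (hone s hs).trans (le_of_eq ?_)
      congr 1
      simp [hβσ]
    by_cases hαy : α ≤ y
    · rw [if_pos ⟨hαy, hβσ⟩]
      have h2 := count_markov S (fun s => ((M : ℝ) + 1) * dl s.M s.R (shu u s.o)) hdl hα hc0
        (T := ((M : ℝ) + 1) * (Sx - σ))
        (by
          rw [List.sum_map_mul_left]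
          exact mul_le_mul_of_nonneg_left (Chain.dl_sum hc hL hu hσ hS) (by positivity))
      refine (h1.trans h2).trans ?_
      rw [mul_assoc, ← hcdef]
      exact mul_le_mul_of_nonneg_right (min_le_min_right _ hN) hc0
    · rw [if_neg (fun h => hαy h.1)]
      push Not at hαy
      refine h1.trans (le_of_eq ?_)
      have : ∀ s ∈ S, (if α < ((M : ℝ) + 1) * dl s.M s.R (shu u s.o) then c else 0) = 0 := by
        intro s hs
        rw [if_neg]
        have := hy s hs
        linarith
      rw [List.map_congr_left this]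
      simp
  · rw [if_neg (fun h => hβσ h.2)]
    have : ∀ s ∈ S, msF α β (StripD.right u s) ≤ 0 := by
      intro s hs
      refine (hone s hs).trans (le_of_eq ?_)
      rw [if_neg (fun h => hβσ h.2)]
    have h1 : (S.map (fun s => msF α β (StripD.right u s))).sum ≤ (S.map (fun _ => (0 : ℝ))).sum :=
      List.sum_le_sum this
    simpa using h1

end

end Pool.Agent.LibMoserT
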