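import Pool.Agent.LibMoserT.FatDefs
set_option autoImplicit false
/-!
# Numerical facts for a frame of the fat lane
-/
namespace Pool.Agent.LibMoserT
open Pool.Agent.LibMoser5 Pool.Agent.LibMoserF Classical

noncomputable section

namespace FatP
variable {f : FatP}

theorem Ok.q0 (hf : f.Ok) : (0 : ℝ) < f.qn := by
  have := hf.q1
  exact_mod_cast (by omega : 0 < f.qn)

theorem Ok.l0' (hf : f.Ok) : (8192 : ℝ) ≤ f.l := by exact_mod_cast hf.l0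

theorem Ok.m_eq (hf : f.Ok) : ((f.l - f.x : ℕ) : ℝ) = (f.l : ℝ) - f.x := by
  have h1 := hf.l0
  have h2 := hf.x64
  rw [Nat.cast_sub (by omega)]

theorem Ok.m_ge (hf : f.Ok) : 127 / 128 * (f.l : ℝ) ≤ ((f.l - f.x : ℕ) : ℝ) := by
  rw [hf.m_eq]
  have h1 := hf.l0'
  have h2 : (f.x : ℝ) ≤ 64 := by exact_mod_cast hf.x64
  linarith

theorem Ok.m_le (hf : f.Ok) : ((f.l - f.x : ℕ) : ℝ) ≤ f.l := by
  rw [hf.m_eq]
  have : (0 : ℝ) ≤ f.x := Nat.cast_nonneg _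
  linarith

theorem Ok.m_pos (hf : f.Ok) : (0 : ℝ) < ((f.l - f.x : ℕ) : ℝ) := by
  have h1 := hf.l0'
  have h2 := hf.m_ge
  linarith

theorem Ok.L1_le (hf : f.Ok) : (f.l1 : ℝ) ≤ 33 / 32 * f.l := by
  have : (32 : ℝ) * f.l1 ≤ 33 * f.l := by exact_mod_cast hf.l1
  linarith

theorem Ok.L1_ge (hf : f.Ok) : (f.l : ℝ) + f.x ≤ f.l1 := by exact_mod_cast hf.lx

theorem Ok.l_le_L1 (hf : f.Ok) : (f.l : ℝ) ≤ f.l1 := by
  have h1 := hf.L1_ge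
  have : (0 : ℝ) ≤ f.x := Nat.cast_nonneg _
  linarith

theorem Ok.L1_pos (hf : f.Ok) : (0 : ℝ) < f.l1 := by
  have h1 := hf.l0'
  have h2 := hf.l_le_L1
  linarith

theorem Ok.S_eq (_hf : f.Ok) : f.S = f.qn / ((f.l - f.x : ℕ) : ℝ) ^ 3 := rfl
theorem Ok.σ_eq (_hf : f.Ok) : f.σ = f.qn / (f.l1 : ℝ) ^ 3 := rfl

theorem Ok.S0 (hf : f.Ok) : 0 < f.S := by
  have h1 := hf.q0
  have h2 := hf.m_pos
  rw [hf.S_eq]
  positivity

theorem Ok.σ0 (hf : f.Ok) : 0 < f.σ := by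
  have h1 := hf.q0
  have h2 := hf.L1_pos
  rw [hf.σ_eq]
  positivity

theorem Ok.σS (hf : f.Ok) : f.σ ≤ f.S := by
  rw [hf.σ_eq, hf.S_eq]
  have h1 := hf.q0
  have h2 := hf.m_pos
  have h3 := hf.m_le.trans hf.l_le_L1
  exact div_le_div_of_nonneg_left h1.le (by positivity) (pow_le_pow_left₀ h2.le h3 3)

/-- sides of the squares of the frame -/
theorem Ok.sd_ge (hf : f.Ok) {x1 : ℕ} (hx1' : (x1 : ℝ) ≤ (f.l1 : ℝ) ^ 3 / f.qn + 1 / 2) {n : ℕ}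
    (hn : n < x1) : f.σ ≤ sd n := by
  have h1 := hf.q0
  have h2 := hf.L1_pos
  have h3 : (n : ℝ) + 1 ≤ x1 := by exact_mod_cast hn
  rw [hf.σ_eq]
  unfold sd
  rw [div_le_div_iff₀ (by positivity) (by positivity)]
  have h4 : (n : ℝ) + 1 / 2 ≤ (f.l1 : ℝ) ^ 3 / f.qn := by linarith
  rw [le_div_iff₀ h1] at h4
  linarith

theorem sd_le_of {q L : ℝ} (hq : 0 < q) (hL : 0 < L) {n : ℕ} (h : L ^ 3 / q ≤ n + 1 / 2) :
    sd n ≤ q / L ^ 3 := by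
  unfold sd
  rw [div_le_div_iff₀ (by positivity) (by positivity)]
  rw [div_le_iff₀ hq] at h
  linarith

theorem Ok.sd_le (hf : f.Ok) {x0 : ℕ} (hx0 : (f.l : ℝ) ^ 3 / f.qn - 1 / 2 ≤ x0) {n : ℕ}
    (hn : x0 ≤ n) : sd n ≤ f.S := by
  rw [hf.S_eq]
  apply sd_le_of hf.q0 hf.m_pos
  have h1 : (x0 : ℝ) ≤ n := by exact_mod_cast hn
  have h2 : ((f.l - f.x : ℕ) : ℝ) ^ 3 / f.qn ≤ (f.l : ℝ) ^ 3 / f.qn :=
    div_le_div_of_nonneg_right (pow_le_pow_left₀ hf.m_pos.le hf.m_le 3) hf.q0.le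
  linarith

/-- a lower bound for `1 / S` -/
theorem Ok.S_small (hf : f.Ok) : f.S ≤ 1 / 10 ^ 6 := by
  rw [hf.S_eq, div_le_div_iff₀ (by have := hf.m_pos; positivity) (by norm_num)]
  have h1 : (f.qn : ℝ) ≤ 8192 := by exact_mod_cast hf.q2
  have h2 := hf.m_ge
  have h3 := hf.l0'
  have h4 : (8000 : ℝ) ≤ ((f.l - f.x : ℕ) : ℝ) := by linarith
  have h5 : (8000 : ℝ) ^ 3 ≤ ((f.l - f.x : ℕ) : ℝ) ^ 3 := pow_le_pow_left₀ (by norm_num) h4 3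
  linarith

theorem Ok.w0 (hf : f.Ok) : 0 < f.w := by
  unfold w
  have := hf.s0
  have : (0 : ℝ) ≤ f.thr / (f.s - 1 / 2048) := div_nonneg (Nat.cast_nonneg _) (by linarith)
  linarith

/-- relative decrease of the sides over `w` squares -/
theorem Ok.wS (hf : f.Ok) : f.w * f.S ≤ 239 / 10000 := by
  have h1 := hf.q0
  have h2 := hf.m_pos
  have h3 := hf.m_ge
  have h4 := hf.hw
  have h5 : f.w * f.S ≤ (((f.l : ℝ) ^ 3 - ((f.l - f.x : ℕ) : ℝ) ^ 3) / f.qn) * f.S :=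
    mul_le_mul_of_nonneg_right (by linarith) hf.S0.le
  refine h5.trans ?_
  rw [hf.S_eq]
  set m := ((f.l - f.x : ℕ) : ℝ)
  have h6 : ((f.l : ℝ) ^ 3 - m ^ 3) / f.qn * (f.qn / m ^ 3) = ((f.l : ℝ) ^ 3 - m ^ 3) / m ^ 3 := by
    field_simp
  rw [h6, div_le_iff₀ (by positivity)]
  have h7 : (f.l : ℝ) ≤ 128 / 127 * m := by linarith
  have h8 : (f.l : ℝ) ^ 3 ≤ (128 / 127 * m) ^ 3 := pow_le_pow_left₀ (Nat.cast_nonneg _) h7 3
  rw [mul_pow] at h8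
  have h9 : 0 ≤ m ^ 3 := by positivity
  nlinarith

/-- sides of two squares at distance at most `w` -/
theorem Ok.span_ratio (hf : f.Ok) {a b : ℕ} (hab : a ≤ b) (ha : sd a ≤ f.S)
    (h : (b : ℝ) - a ≤ f.w) : sd a ≤ (1 + 239 / 10000) * sd b := by
  have ha0 : (0 : ℝ) < (a : ℝ) + 1 / 2 := by positivity
  have hb0 : (0 : ℝ) < (b : ℝ) + 1 / 2 := by positivity
  have h1 : sd a = (1 + ((b : ℝ) - a) * sd a) * sd b := by
    unfold sd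
    field_simp
    ring
  have h2 : (0 : ℝ) ≤ (b : ℝ) - a := by
    have : (a : ℝ) ≤ b := by exact_mod_cast hab
    linarith
  have h3 : ((b : ℝ) - a) * sd a ≤ f.w * f.S := mul_le_mul h ha (sd_pos _).le hf.w0.le
  rw [h1]
  apply mul_le_mul_of_nonneg_right _ (sd_pos _).le
  linarith [hf.wS]

/-- total decrease of the sides over `w` squares -/
theorem Ok.span_dl (hf : f.Ok) {a b : ℕ} (hab : a ≤ b) (ha : sd a ≤ f.S)
    (h : (b : ℝ) - a ≤ f.w) : sd a - sd b ≤ f.w * f.S ^ 2 := by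
  have ha0 : (0 : ℝ) < (a : ℝ) + 1 / 2 := by positivity
  have hb0 : (0 : ℝ) < (b : ℝ) + 1 / 2 := by positivity
  have h1 : sd a - sd b = ((b : ℝ) - a) * (sd a * sd b) := by
    unfold sd
    field_simp
    ring
  have h2 : (0 : ℝ) ≤ (b : ℝ) - a := by
    have : (a : ℝ) ≤ b := by exact_mod_cast hab
    linarith
  have hb : sd b ≤ f.S := (sd_anti hab).trans ha
  rw [h1, pow_two]
  exact mul_le_mul h (mul_le_mul ha hb (sd_pos _).le hf.S0.le)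
    (mul_nonneg (sd_pos _).le (sd_pos _).le) hf.w0.le

/-- total area of all squares with side at most `S` -/
theorem Ok.area_le (hf : f.Ok) {U : Finset ℕ} {x1 : ℕ}
    (hU : ∀ n ∈ U, sd n ≤ f.S ∧ n < x1) :
    ∑ n ∈ U, sd n ^ 2 + 1 / x1 ≤ 1001 / 1000 * f.S ∨ U = ∅ := by
  rcases U.eq_empty_or_nonempty with h0 | hne
  · exact Or.inr h0
  left
  have hq := hf.q0
  obtain ⟨m, hm⟩ : ∃ m, m = ix f.qn (f.l - f.x) := ⟨_, rfl⟩
  have hl1 : 1 ≤ f.l - f.x := by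
    have h1 := hf.l0
    have h2 := hf.x64
    omega
  have hmU : ∀ n ∈ U, m ≤ n := by
    intro n hn
    rw [hm, ix_le_iff hq hl1]
    exact (hU n hn).1
  obtain ⟨n0, hn0⟩ := hne
  have hmx : m < x1 := lt_of_le_of_lt (hmU n0 hn0) (hU n0 hn0).2
  have hsd : sd m ≤ f.S := (ix_le_iff hq hl1).1 (le_of_eq hm.symm)
  have hsub : U ⊆ Finset.Ico m x1 := by
    intro n hn
    rw [Finset.mem_Ico]
    exact ⟨hmU n hn, (hU n hn).2⟩
  have hSs := hf.S_small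
  have hmR : (10 : ℝ) ^ 5 ≤ m := by
    unfold sd at hsd
    rw [div_le_iff₀ (by positivity)] at hsd
    have h1 : f.S * ((m : ℝ) + 1 / 2) ≤ 1 / 10 ^ 6 * ((m : ℝ) + 1 / 2) :=
      mul_le_mul_of_nonneg_right hSs (by positivity)
    linarith
  have hm0 : (0 : ℝ) < m := by linarith
  have htel : ∀ k, m ≤ k → ∑ n ∈ Finset.Ico m k, sd n ^ 2 ≤ 1 / (m : ℝ) - 1 / k := by
    intro k hk
    induction k, hk using Nat.le_induction with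
    | base => simp
    | succ k hk ih =>
      rw [Finset.sum_Ico_succ_top hk]
      have hk0 : (0 : ℝ) < k := lt_of_lt_of_le hm0 (by exact_mod_cast hk)
      have h3 : sd k ^ 2 ≤ 1 / (k : ℝ) - 1 / ((k + 1 : ℕ) : ℝ) := by
        unfold sd
        push_cast
        rw [div_sub_div _ _ hk0.ne' (by positivity), div_pow, div_le_div_iff₀ (by positivity)
          (by positivity)]
        nlinarith
      linarith
  have h1 := htel x1 hmx.le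
  have h2 : ∑ n ∈ U, sd n ^ 2 ≤ ∑ n ∈ Finset.Ico m x1, sd n ^ 2 :=
    Finset.sum_le_sum_of_subset_of_nonneg hsub (fun _ _ _ => sq_nonneg _)
  have h3 : 1 / (m : ℝ) ≤ 1001 / 1000 * f.S := by
    have h4 : 1 / (m : ℝ) ≤ 1001 / 1000 * sd m := by
      unfold sd
      rw [mul_one_div, div_le_div_iff₀ hm0 (by positivity)]
      linarith
    exact h4.trans (mul_le_mul_of_nonneg_left hsd (by norm_num))
  linarith

theorem sqrt_succ_gt (m d : ℕ) (hd : 0 < d) :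
    (m : ℝ) < d * ((Nat.sqrt (m / d) + 1 : ℕ) : ℝ) ^ 2 := by
  have h1 : m / d < (Nat.sqrt (m / d) + 1) ^ 2 := by
    rw [pow_two]
    exact Nat.lt_succ_sqrt _
  have h2 : m < d * (Nat.sqrt (m / d) + 1) ^ 2 := by
    rw [Nat.div_lt_iff_lt_mul hd] at h1
    linarith
  exact_mod_cast h2

theorem sqrt_le_div (m d : ℕ) :
    d * ((Nat.sqrt (m / d) : ℕ) : ℝ) ^ 2 ≤ (m : ℝ) := by
  have h1 : Nat.sqrt (m / d) ^ 2 ≤ m / d := Nat.sqrt_le' _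
  have h2 : d * Nat.sqrt (m / d) ^ 2 ≤ m := by
    refine (Nat.mul_le_mul_left _ h1).trans ?_
    exact Nat.mul_div_le m d
  exact_mod_cast h2

theorem Ok.K_gt (hf : f.Ok) : 4 * (f.l : ℝ) ^ 3 < 3 * (f.qn * f.NF) * (f.K : ℝ) ^ 2 := by
  have h := sqrt_succ_gt (4 * f.l ^ 3) (3 * (f.qn * f.NF)) (by
    have h1 := hf.q1
    have h2 := hf.NF0
    positivity)
  push_cast at h
  unfold K
  push_cast
  exact h

theorem Ok.ρ_le (_hf : f.Ok) : (f.qn * f.rd * f.NF) * (f.ρ : ℝ) ^ 2 ≤ 4 * (f.l : ℝ) ^ 3 := by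
  have h := sqrt_le_div (4 * f.l ^ 3) (f.qn * f.rd * f.NF)
  push_cast at h
  unfold ρ
  exact h

theorem Ok.ρ_ge (hf : f.Ok) : 1000 ≤ f.ρ := by
  unfold ρ
  rw [Nat.le_sqrt']
  rw [Nat.le_div_iff_mul_le (by
    have h1 := hf.q1
    have h2 := hf.NF0
    have h3 := hf.rd0
    positivity)]
  have := hf.rdq
  norm_num at this ⊢
  linarith

theorem Ok.rdR (hf : f.Ok) : (0 : ℝ) < f.rd := by exact_mod_cast hf.rd0
theorem Ok.NFR (hf : f.Ok) : (0 : ℝ) < f.NF := by exact_mod_cast hf.NF0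
theorem Ok.μR (hf : f.Ok) : (2 : ℝ) ≤ f.μ := by exact_mod_cast hf.μ2

theorem Ok.L13 (hf : f.Ok) : (f.l1 : ℝ) ^ 3 ≤ 35937 / 32768 * (f.l : ℝ) ^ 3 := by
  have := pow_le_pow_left₀ hf.L1_pos.le hf.L1_le 3
  rw [mul_pow] at this
  norm_num at this ⊢
  exact this

theorem Ok.m3 (hf : f.Ok) :
    2048383 / 2097152 * (f.l : ℝ) ^ 3 ≤ ((f.l - f.x : ℕ) : ℝ) ^ 3 := by
  have := pow_le_pow_left₀ (by have := hf.l0'; positivity) hf.m_ge 3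
  rw [mul_pow] at this
  norm_num at this ⊢
  exact this

theorem Ok.l3 (hf : f.Ok) : (0 : ℝ) < (f.l : ℝ) ^ 3 := by
  have := hf.l0'
  positivity

/-- upper bound for the short side -/
theorem Ok.num1 (hf : f.Ok) {a b A : ℝ} (ha : 0 < a) (hab : a ≤ b)
    (h1 : f.NF * (a * b) ≤ 26 / 25 * A) (hA : A ≤ 1001 / 1000 * f.S) : a < f.K * f.σ := by
  by_contra hcon
  push Not at hcon
  have hq := hf.q0
  have hN := hf.NFR
  have hσ := hf.σ0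
  have hm := hf.m_pos
  have hL := hf.L1_pos
  have h2 : (f.K * f.σ) ^ 2 ≤ a * b := by
    have h3 : (f.K * f.σ) ^ 2 ≤ a ^ 2 := pow_le_pow_left₀ (by positivity) hcon 2
    nlinarith
  have h3 : f.NF * ((f.K * f.σ) ^ 2) ≤ 26026 / 25000 * f.S := by
    have := mul_le_mul_of_nonneg_left h2 hN.le
    linarith
  have h4 := hf.K_gt
  -- multiply by `3 qn / σ^2 ...`
  have h5 : 4 * (f.l : ℝ) ^ 3 * f.σ ^ 2 < 3 * f.qn * (26026 / 25000 * f.S) := by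
    have h6 : 4 * (f.l : ℝ) ^ 3 * f.σ ^ 2 < 3 * (f.qn * f.NF) * (f.K : ℝ) ^ 2 * f.σ ^ 2 :=
      mul_lt_mul_of_pos_right h4 (by positivity)
    have h7 : 3 * (f.qn * f.NF) * (f.K : ℝ) ^ 2 * f.σ ^ 2 =
        3 * f.qn * (f.NF * ((f.K * f.σ) ^ 2)) := by ring
    have h8 : 3 * f.qn * (f.NF * ((f.K * f.σ) ^ 2)) ≤ 3 * f.qn * (26026 / 25000 * f.S) :=
      mul_le_mul_of_nonneg_left h3 (by positivity)
    linarith
  rw [hf.σ_eq, hf.S_eq] at h5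
  set m := ((f.l - f.x : ℕ) : ℝ) with hmdef
  have h6 : 4 * (f.l : ℝ) ^ 3 * m ^ 3 < 3 * (26026 / 25000) * ((f.l1 : ℝ) ^ 3) ^ 2 := by
    have h7 : 4 * (f.l : ℝ) ^ 3 * (f.qn / (f.l1 : ℝ) ^ 3) ^ 2 =
        4 * (f.l : ℝ) ^ 3 * f.qn ^ 2 / ((f.l1 : ℝ) ^ 3) ^ 2 := by
      rw [div_pow]; ring
    have h8 : 3 * (f.qn : ℝ) * (26026 / 25000 * (f.qn / m ^ 3)) =
        3 * (26026 / 25000) * f.qn ^ 2 / m ^ 3 := by ring
    rw [h7, h8, div_lt_div_iff₀ (by positivity) (by positivity)] at h5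
    have h9 : (0 : ℝ) < f.qn ^ 2 := by positivity
    nlinarith
  have h7 := hf.L13
  have h8 := hf.m3
  rw [← hmdef] at h8
  have h9 := hf.l3
  set X := (f.l : ℝ) ^ 3
  set Y := (f.l1 : ℝ) ^ 3
  set Z := m ^ 3
  have h10 : Y ^ 2 ≤ (35937 / 32768 * X) ^ 2 := pow_le_pow_left₀ (by positivity) h7 2
  have h11 : X * (2048383 / 2097152 * X) ≤ X * Z := mul_le_mul_of_nonneg_left h8 h9.le
  nlinarith [mul_pos h9 h9]

/-- lower bound for the short side -/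
theorem Ok.num2 (hf : f.Ok) {a b : ℝ} (ha : 0 < a) (hba : b ≤ 26 / 25 * a)
    (h1 : f.AR / f.NF ≤ a * b) : f.ρ * f.S ≤ a := by
  by_contra hcon
  push Not at hcon
  have hq := hf.q0
  have hN := hf.NFR
  have hr := hf.rdR
  have hσ := hf.σ0
  have hm := hf.m_pos
  have hL := hf.L1_pos
  have h2 : f.AR / f.NF ≤ 26 / 25 * (f.ρ * f.S) ^ 2 := by
    have h3 : a ^ 2 ≤ (f.ρ * f.S) ^ 2 := pow_le_pow_left₀ ha.le hcon.le 2
    nlinarith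
  have h2' : f.AR / f.NF < 26 / 25 * (f.ρ * f.S) ^ 2 := by
    have h3 : a ^ 2 < (f.ρ * f.S) ^ 2 := pow_lt_pow_left₀ hcon ha.le (by norm_num)
    nlinarith
  have h4 := hf.ρ_le
  unfold AR at h2'
  rw [div_lt_iff₀ hN, hf.σ_eq, hf.S_eq] at h2'
  set m := ((f.l - f.x : ℕ) : ℝ) with hmdef
  have h5 : 24 / (5 * (f.rd : ℝ)) * (f.qn / (f.l1 : ℝ) ^ 3) =
      24 * f.qn / (5 * f.rd * (f.l1 : ℝ) ^ 3) := by
    field_simp
  have h6 : 26 / 25 * ((f.ρ : ℝ) * (f.qn / m ^ 3)) ^ 2 * f.NF =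
      26 / 25 * (f.ρ ^ 2 * f.qn ^ 2 * f.NF) / (m ^ 3) ^ 2 := by
    rw [mul_pow, div_pow]
    ring
  rw [h5, h6, div_lt_div_iff₀ (by positivity) (by positivity)] at h2'
  -- `24 qn m^6 < 26/25 ρ² qn² NF 5 rd L1³`
  have h7 : 24 * (m ^ 3) ^ 2 < 26 / 5 * (4 * (f.l : ℝ) ^ 3) * (f.l1 : ℝ) ^ 3 := by
    have h8 : 26 / 25 * ((f.ρ : ℝ) ^ 2 * f.qn ^ 2 * f.NF) * (5 * f.rd * (f.l1 : ℝ) ^ 3) =
        f.qn * (26 / 5 * ((f.qn * f.rd * f.NF) * (f.ρ : ℝ) ^ 2) * (f.l1 : ℝ) ^ 3) := by ring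
    have h9 : f.qn * (26 / 5 * ((f.qn * f.rd * f.NF) * (f.ρ : ℝ) ^ 2) * (f.l1 : ℝ) ^ 3) ≤
        f.qn * (26 / 5 * (4 * (f.l : ℝ) ^ 3) * (f.l1 : ℝ) ^ 3) := by
      apply mul_le_mul_of_nonneg_left _ hq.le
      apply mul_le_mul_of_nonneg_right _ (by positivity)
      linarith
    have h10 : (f.qn : ℝ) * (24 * (m ^ 3) ^ 2) <
        f.qn * (26 / 5 * (4 * (f.l : ℝ) ^ 3) * (f.l1 : ℝ) ^ 3) := by
      rw [h8] at h2'
      linarith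
    exact lt_of_mul_lt_mul_left h10 hq.le
  have h8 := hf.L13
  have h9 := hf.m3
  rw [← hmdef] at h9
  have h10 := hf.l3
  set X := (f.l : ℝ) ^ 3
  set Y := (f.l1 : ℝ) ^ 3
  set Z := m ^ 3
  have h11 : (2048383 / 2097152 * X) ^ 2 ≤ Z ^ 2 := pow_le_pow_left₀ (by positivity) h9 2
  have h12 : X * Y ≤ X * (35937 / 32768 * X) := mul_le_mul_of_nonneg_left h8 h10.le
  nlinarith [mul_pos h10 h10]

theorem Ok.num3 (hf : f.Ok) {a b : ℝ} (ha : 0 < a) (hba : b ≤ 26 / 25 * a)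
    (h1 : f.AR / f.NF ≤ a * b) : f.μ * f.S * (26 / 25) ≤ a * (26 / 25 - 1) := by
  by_contra hcon
  push Not at hcon
  have hq := hf.q0
  have hN := hf.NFR
  have hr := hf.rdR
  have hσ := hf.σ0
  have hm := hf.m_pos
  have hL := hf.L1_pos
  have hcon' : a < 26 * (f.μ * f.S) := by linarith
  have h2' : f.AR / f.NF < 26 / 25 * (26 * (f.μ * f.S)) ^ 2 := by
    have h3 : a ^ 2 < (26 * (f.μ * f.S)) ^ 2 := pow_lt_pow_left₀ hcon' ha.le (by norm_num)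
    nlinarith
  have h4 : 175 * f.NF * f.rd * (f.μ : ℝ) ^ 2 * f.qn ≤ (f.l : ℝ) ^ 3 := by
    exact_mod_cast hf.rdμ
  unfold AR at h2'
  rw [div_lt_iff₀ hN, hf.σ_eq, hf.S_eq] at h2'
  set m := ((f.l - f.x : ℕ) : ℝ) with hmdef
  have h5 : 24 / (5 * (f.rd : ℝ)) * (f.qn / (f.l1 : ℝ) ^ 3) =
      24 * f.qn / (5 * f.rd * (f.l1 : ℝ) ^ 3) := by
    field_simp
  have h6 : 26 / 25 * (26 * ((f.μ : ℝ) * (f.qn / m ^ 3))) ^ 2 * f.NF =
      26 / 25 * 676 * (f.μ ^ 2 * f.qn ^ 2 * f.NF) / (m ^ 3) ^ 2 := by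
    rw [mul_pow, mul_pow, div_pow]
    ring
  rw [h5, h6, div_lt_div_iff₀ (by positivity) (by positivity)] at h2'
  have h7 : 24 * (m ^ 3) ^ 2 < 26 / 5 * 676 * ((f.l : ℝ) ^ 3 / 175) * (f.l1 : ℝ) ^ 3 := by
    have h8 : 26 / 25 * 676 * ((f.μ : ℝ) ^ 2 * f.qn ^ 2 * f.NF) * (5 * f.rd * (f.l1 : ℝ) ^ 3) =
        f.qn * (26 / 5 * 676 * ((175 * f.NF * f.rd * (f.μ : ℝ) ^ 2 * f.qn) / 175) *
          (f.l1 : ℝ) ^ 3) := by ring
    have h9 : f.qn * (26 / 5 * 676 * ((175 * f.NF * f.rd * (f.μ : ℝ) ^ 2 * f.qn) / 175) *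
          (f.l1 : ℝ) ^ 3) ≤
        f.qn * (26 / 5 * 676 * ((f.l : ℝ) ^ 3 / 175) * (f.l1 : ℝ) ^ 3) := by
      apply mul_le_mul_of_nonneg_left _ hq.le
      apply mul_le_mul_of_nonneg_right _ (by positivity)
      linarith
    have h10 : (f.qn : ℝ) * (24 * (m ^ 3) ^ 2) <
        f.qn * (26 / 5 * 676 * ((f.l : ℝ) ^ 3 / 175) * (f.l1 : ℝ) ^ 3) := by
      rw [h8] at h2'
      linarith
    exact lt_of_mul_lt_mul_left h10 hq.le
  have h8 := hf.L13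
  have h9 := hf.m3
  rw [← hmdef] at h9
  have h10 := hf.l3
  set X := (f.l : ℝ) ^ 3
  set Y := (f.l1 : ℝ) ^ 3
  set Z := m ^ 3
  have h11 : (2048383 / 2097152 * X) ^ 2 ≤ Z ^ 2 := pow_le_pow_left₀ (by positivity) h9 2
  have h12 : X * Y ≤ X * (35937 / 32768 * X) := mul_le_mul_of_nonneg_left h8 h10.le
  nlinarith [mul_pos h10 h10]

/-- the squares pending for the next frame -/
theorem Ok.num4 (hf : f.Ok) {x1 : ℕ} (hx1 : (f.l1 : ℝ) ^ 3 / f.qn - 1 / 2 ≤ x1) {n : ℕ}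
    (h : (x1 : ℝ) - n ≤ f.w) : sd n ≤ th f.qn (f.l1 - f.x) := by
  have hq := hf.q0
  have h1 := hf.hw
  have h2 := hf.L1_ge
  have h3 := hf.l0'
  have hx : (0 : ℝ) ≤ f.x := Nat.cast_nonneg _
  have hx64 : (f.x : ℝ) ≤ 64 := by exact_mod_cast hf.x64
  have hLx : ((f.l1 - f.x : ℕ) : ℝ) = (f.l1 : ℝ) - f.x := by
    rw [Nat.cast_sub]
    have := hf.lx
    omega
  unfold th
  apply sd_le_of hq (by rw [hLx]; linarith)
  rw [hLx]
  rw [hf.m_eq] at h1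
  have h4 : ((f.l1 : ℝ) - f.x) ^ 3 ≤ (f.l1 : ℝ) ^ 3 - ((f.l : ℝ) ^ 3 - ((f.l : ℝ) - f.x) ^ 3) := by
    have h5 := hf.l_le_L1
    nlinarith [mul_nonneg hx (by linarith : (0 : ℝ) ≤ (f.l1 : ℝ) - f.l),
      mul_nonneg (mul_nonneg hx (by linarith : (0 : ℝ) ≤ (f.l1 : ℝ) - f.l))
        (by linarith : (0 : ℝ) ≤ (f.l1 : ℝ) + f.l - f.x)]
  have h5 : ((f.l1 : ℝ) - f.x) ^ 3 / f.qn ≤
      (f.l1 : ℝ) ^ 3 / f.qn - ((f.l : ℝ) ^ 3 - ((f.l : ℝ) - f.x) ^ 3) / f.qn := by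
    rw [← sub_div]
    exact div_le_div_of_nonneg_right h4 hq.le
  linarith

/-- the end pieces of the strips are long -/
theorem Ok.num5 (hf : f.Ok) : 6 / 5 * f.S ≤ f.μ * f.σ := by
  have hq := hf.q0
  have hm := hf.m_pos
  have hL := hf.L1_pos
  have h1 : 6 / 5 * f.S ≤ 2 * f.σ := by
    rw [hf.S_eq, hf.σ_eq, ← mul_div_assoc, ← mul_div_assoc, div_le_div_iff₀ (by positivity)
      (by positivity)]
    have h8 := hf.L13
    have h9 := hf.m3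
    have h10 := hf.l3
    have h11 : 6 / 5 * (f.l1 : ℝ) ^ 3 ≤ 2 * ((f.l - f.x : ℕ) : ℝ) ^ 3 := by linarith
    nlinarith
  have h2 := mul_le_mul_of_nonneg_right hf.μR hf.σ0.le
  linarith

end FatP

end

end Pool.Agent.LibMoserT
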