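import Pool.Agent.LibMoserT.FatEnum
import Pool.Agent.LibMoserT.FatG
import Pool.Agent.LibMoserT.FatNum
set_option autoImplicit false
/-!
# One frame of the fat lane
-/
namespace Pool.Agent.LibMoserT
open Pool.Agent.LibMoser5 Pool.Agent.LibMoserF Classical

noncomputable section

theorem sum_ms_sublist {J Z : List (ℝ × ℝ)} (h : J.Sublist Z) (hZ : ∀ x ∈ Z, 0 ≤ ms x) :
    (J.map ms).sum ≤ (Z.map ms).sum := by
  have h1 : (J.map ms).Sublist (Z.map ms) := h.map _
  refine List.Sublist.sum_le_sum h1 ?_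
  intro a ha
  obtain ⟨x, hx, rfl⟩ := List.mem_map.1 ha
  exact hZ x hx

theorem sum_fst_sublist {J Z : List (ℝ × ℝ)} (h : J.Sublist Z) (hZ : ∀ x ∈ Z, 0 ≤ x.1) :
    (J.map Prod.fst).sum ≤ (Z.map Prod.fst).sum := by
  have h1 : (J.map Prod.fst).Sublist (Z.map Prod.fst) := h.map _
  refine List.Sublist.sum_le_sum h1 ?_
  intro a ha
  obtain ⟨x, hx, rfl⟩ := List.mem_map.1 ha
  exact hZ x hx

/-- **One frame of the fat lane.**  `Up` = pending squares, `Uf` = squares of the frame which are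
not used by the rows. -/
theorem fat_frame {f : FatP} (hf : f.Ok) {W H : ℝ} {FL F : List (ℝ × ℝ)} {P Up Uf : Finset ℕ}
    {x0 x1 : ℕ} (hx0 : (f.l : ℝ) ^ 3 / f.qn - 1 / 2 ≤ x0)
    (hx1 : (f.l1 : ℝ) ^ 3 / f.qn - 1 / 2 ≤ x1) (hx1' : (x1 : ℝ) ≤ (f.l1 : ℝ) ^ 3 / f.qn + 1 / 2)
    (hbig : (x0 : ℝ) + f.w ≤ x1)
    (hUf : ∀ n ∈ Uf, x0 ≤ n ∧ n < x1) (hd : Dens f.s x0 x1 Uf)
    (hp : Pend f.s f.thr f.S x0 Up)
    (h : PT W H (FL ++ F) P) (hP : ∀ n ∈ Up ∪ Uf, n ∉ P)
    (hF : Fat (26 / 25) f.NF FL)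
    (hA0 : f.AR + 21 / 20 * ∑ n ∈ Up ∪ Uf, sd n ^ 2 ≤ ar FL)
    (hA1 : ar FL ≤ ∑ n ∈ Up ∪ Uf, sd n ^ 2 + 1 / x1) :
    ∃ (FL' G J : List (ℝ × ℝ)) (U' : Finset ℕ), U' ⊆ Uf ∧
      Pend f.s f.thr (th f.qn (f.l1 - f.x)) x1 U' ∧ Fat (26 / 25) f.NF FL' ∧
      PT W H (FL' ++ (G ++ (J ++ F))) (P ∪ ((Up ∪ Uf) \ U')) ∧
      (∀ x ∈ G, 0 < x.1 ∧ x.1 ≤ f.y ∧ 6 / 5 * x.1 ≤ x.2) ∧
      (∀ α β : ℝ, 0 < α → α ≤ β →
        ((G.filter (fun x => α < x.1 ∧ x.1 ≤ β)).map ms).sum ≤ f.NG α β) ∧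
      (G.map Prod.fst).sum ≤ f.tG ∧
      (∀ x ∈ J, 0 < x.1 ∧ x.1 ≤ f.S ∧ 6 / 5 * x.1 ≤ x.2) ∧
      (J.map ms).sum ≤ f.mJ ∧ (J.map Prod.fst).sum ≤ f.tJ := by
  have hs : 1 / 2048 < f.s := by have := hf.s0; linarith
  have hs' : 0 < f.s - 1 / 2048 := by linarith
  obtain ⟨u, hu, hU⟩ := exists_enum (Up ∪ Uf)
  obtain ⟨L, hLdef⟩ : ∃ L, L = (Up ∪ Uf).card := ⟨_, rfl⟩
  rw [← hLdef] at hu
  have hUm : ∀ k < L, u k ∈ Up ∪ Uf := fun k hk => (hU _).2 ⟨k, by rw [← hLdef]; exact hk, rfl⟩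
  have hx01 : x0 ≤ x1 := by
    have h1 := hf.w0
    have : (x0 : ℝ) ≤ x1 := by linarith
    exact_mod_cast this
  -- sides
  have hside : ∀ n ∈ Up ∪ Uf, f.σ ≤ sd n ∧ sd n ≤ f.S ∧ n < x1 := by
    intro n hn
    rcases Finset.mem_union.1 hn with h1 | h1
    · have h2 := hp.lt n h1
      exact ⟨hf.sd_ge hx1' (by omega), hp.side n h1, by omega⟩
    · have h2 := hUf n h1
      exact ⟨hf.sd_ge hx1' h2.2, hf.sd_le hx0 h2.1, h2.2⟩
  have hσk : ∀ k < L, f.σ ≤ sd (u k) ∧ sd (u k) ≤ f.S := fun k hk =>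
    ⟨(hside _ (hUm k hk)).1, (hside _ (hUm k hk)).2.1⟩
  have hσ0 := hf.σ0
  have hS0 := hf.S0
  have hσS := hf.σS
  have hbig' : (x0 : ℝ) + (f.thr / (f.s - 1 / 2048) + 16384) ≤ x1 := hbig
  have hcard := hd.card_ge hs hbig'
  have hLthr : f.thr ≤ L := by
    rw [hLdef]
    exact hcard.trans (Finset.card_le_card Finset.subset_union_right)
  have hKpos : 0 < f.K := by unfold FatP.K; omega
  have hμ2 : 2 ≤ f.μ := hf.μ2
  have hthr0 : 0 < f.thr := by
    unfold FatP.thr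
    positivity
  -- total area
  have hA1' : ∑ n ∈ Up ∪ Uf, sd n ^ 2 + 1 / x1 ≤ 1001 / 1000 * f.S := by
    rcases hf.area_le (U := Up ∪ Uf) (x1 := x1) (fun n hn => (hside n hn).2) with h1 | h1
    · exact h1
    · exfalso
      rw [h1] at hLdef
      simp at hLdef
      omega
  -- span
  have hspan : ∀ i j, i ≤ j → j < L → j ≤ i + f.thr → (u j : ℝ) - u i ≤ f.w := by
    intro i j hij hj hji
    rw [hLdef] at hu hj
    exact enum_span hs hUf hd hp hu hU hij hj hji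
  obtain ⟨M, hM⟩ : ∃ M, f.μ = M + 1 := ⟨f.μ - 1, by omega⟩
  have hMR : ((M : ℝ) + 1) = f.μ := by rw [hM]; push_cast; ring
  have hthr_eq : (M + 1) * (f.K + 1) = f.thr := by
    unfold FatP.thr
    rw [hM]
  -- the sum over the enumeration
  have himg : (Finset.range L).image u = Up ∪ Uf := by
    ext n
    rw [Finset.mem_image, hU n, ← hLdef]
    simp only [Finset.mem_range]
  have hinj : Set.InjOn u (Finset.range L : Set ℕ) := by
    intro a ha b hb hab
    simp only [Finset.coe_range, Set.mem_Iio] at ha hb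
    rcases lt_trichotomy a b with h1 | h1 | h1
    · exact absurd hab (ne_of_lt (hu a b h1 hb))
    · exact h1
    · exact absurd hab.symm (ne_of_lt (hu b a h1 ha))
  have hsumU : ∑ k ∈ Finset.Ico 0 L, sd (u k) ^ 2 = ∑ n ∈ Up ∪ Uf, sd n ^ 2 := by
    rw [← himg, Finset.sum_image hinj, Finset.range_eq_Ico]
  have hρ := hf.ρ_ge
  have hρR : (1000 : ℝ) ≤ f.ρ := by exact_mod_cast hρ
  have hNF := hf.NFR
  -- the step
  have hstep : ∀ (o : ℕ) (a b : ℝ), 0 < a → a ≤ b → b ≤ 26 / 25 * a → f.AR / f.NF ≤ a * b →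
      f.NF * (a * b) ≤ 26 / 25 * (1001 / 1000 * f.S) → o + f.thr ≤ L →
      ∃ s : StripD, s.o = o ∧ o + s.n ≤ L ∧ hH s.M s.R (shu u o) ≤ a ∧
        a - hH s.M s.R (shu u o) ≤ sd (u o) ∧
        hW s.M (shu u o) * a ≤ 21 / 20 * ∑ k ∈ Finset.range s.n, sd (shu u o k) ^ 2 ∧
        hW s.M (shu u o) * (26 / 25) ≤ a * (26 / 25 - 1) ∧
        (s.M = M ∧ s.R < f.K ∧ f.ρ ≤ s.R + 2) := by
    intro o a b ha hab hba h1 h2 h3
    have hoL : o < L := by omega
    have hlast : o + (M + 1) * (f.K + 1) - 1 < L := by rw [hthr_eq]; omega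
    have n1 := hf.num1 ha hab h2 le_rfl
    have n2 := hf.num2 ha hba h1
    have n3 := hf.num3 ha hba h1
    obtain ⟨R, r1, r2, r3, r4, r5, r6, r7⟩ := strip_step (u := u) (L := L) (o := o) (M := M)
      (K := f.K) (κ := 26 / 25) (c := 21 / 20) (η := 239 / 10000) (ρ := f.ρ) (a := a) hu
      (by rw [hthr_eq]; exact h3)
      (by
        have h4 := (hσk _ hlast).1
        have h5 : (f.K : ℝ) * f.σ ≤ f.K * sd (u (o + (M + 1) * (f.K + 1) - 1)) :=
          mul_le_mul_of_nonneg_left h4 (Nat.cast_nonneg _)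
        linarith)
      (by norm_num)
      (by
        have h4 : u o ≤ u (o + (M + 1) * (f.K + 1) - 1) := by
          rcases Nat.lt_or_ge o (o + (M + 1) * (f.K + 1) - 1) with h5 | h5
          · exact (hu _ _ h5 hlast).le
          · have : o = o + (M + 1) * (f.K + 1) - 1 := by omega
            rw [← this]
        refine hf.span_ratio h4 (hσk o hoL).2 ?_
        exact hspan _ _ (by rw [hthr_eq]; omega) hlast (by rw [hthr_eq]; omega))
      (by linarith)
      (by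
        have h4 := mul_le_mul_of_nonneg_left (hσk o hoL).2 (by linarith : (0 : ℝ) ≤ f.ρ)
        linarith)
      (by
        have h4 : 1 / ((f.ρ : ℝ) - 1) ≤ 1 / 999 := one_div_le_one_div_of_le (by norm_num) (by linarith)
        have h5 : (1 + 1 / ((f.ρ : ℝ) - 1)) * (1 + 239 / 10000) ^ 2 ≤
            (1 + 1 / 999) * (1 + 239 / 10000) ^ 2 :=
          mul_le_mul_of_nonneg_right (by linarith) (by norm_num)
        refine h5.trans ?_
        norm_num)
      (by
        rw [hMR]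
        have h4 : (f.μ : ℝ) * sd (u o) ≤ f.μ * f.S :=
          mul_le_mul_of_nonneg_left (hσk o hoL).2 (Nat.cast_nonneg _)
        linarith)
      (by norm_num)
    refine ⟨⟨o, M, R⟩, rfl, r3, r4, r5, r6, r7, rfl, r1, ?_⟩
    simp only
    have h4 : (f.ρ : ℝ) * sd (u o) ≤ ((R : ℝ) + 2) * sd (u o) := by
      have h4 := mul_le_mul_of_nonneg_left (hσk o hoL).2 (by linarith : (0 : ℝ) ≤ f.ρ)
      linarith
    have h5 := le_of_mul_le_mul_right h4 (sd_pos _)
    have h6 : (f.ρ : ℝ) ≤ ((R + 2 : ℕ) : ℝ) := by push_cast; exact h5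
    exact_mod_cast h6
  obtain ⟨S, E, FL', o', c1, c2, c3, c4, c5, c6, c7, c8, c9⟩ := fat_fillK (W := W) (H := H)
    (κ := 26 / 25) (A0 := f.AR / f.NF) (A1 := 1001 / 1000 * f.S) (c := 21 / 20) (u := u) (L := L)
    (thr := f.thr) (NF := f.NF) (Q := fun s => s.M = M ∧ s.R < f.K ∧ f.ρ ≤ s.R + 2)
    (by norm_num) hthr0 hf.NF0 hu hstep L 0 FL F P (by omega) (by omega) h hF (hA1.trans hA1')
    (by
      rw [hsumU]
      have : (f.NF : ℝ) * (f.AR / f.NF) = f.AR := by field_simp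
      rw [this]
      exact hA0)
    (by norm_num)
    (fun k _ hk => hP _ (hUm k hk))
  -- the pending squares
  obtain ⟨U', hU'def⟩ : ∃ U' : Finset ℕ, U' = (Finset.Ico o' L).image u := ⟨_, rfl⟩
  have hpend := pend_new (S' := th f.qn (f.l1 - f.x)) hs hUf hd hp (by rw [← hLdef]; exact hu) hU hbig'
    (o' := o') (by rw [← hLdef]; exact c3) (fun n hn => hf.num4 hx1 hn)
  rw [← hLdef, ← hU'def] at hpend
  have hQ : ∀ s ∈ S, s.M = M ∧ s.R < f.K := fun s hs => ⟨(c4 s hs).1, (c4 s hs).2.1⟩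
  -- number of strips
  have hN : (S.length : ℝ) ≤ f.N := by
    have h1 := Chain.count (ν := (M + 1) * (f.ρ - 1)) c1 c2 (by
      intro s hs
      have h2 := c4 s hs
      unfold StripD.n
      rw [h2.1]
      exact Nat.mul_le_mul_left _ (by omega))
    have h2 : (L : ℝ) ≤ ((f.l1 : ℝ) ^ 3 - (f.l : ℝ) ^ 3) / f.qn + 1 + f.thr := by
      have h3 : (Up ∪ Uf).card ≤ f.thr + (x1 - x0) := by
        refine (Finset.card_union_le _ _).trans ?_
        have h4 : Uf ⊆ Finset.Ico x0 x1 := by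
          intro n hn
          rw [Finset.mem_Ico]
          exact hUf n hn
        have h5 := Finset.card_le_card h4
        rw [Nat.card_Ico] at h5
        have := hp.card
        omega
      have h4 : (L : ℝ) ≤ f.thr + ((x1 : ℝ) - x0) := by
        rw [← hLdef] at h3
        have h5 : (L : ℝ) ≤ ((f.thr + (x1 - x0) : ℕ) : ℝ) := by exact_mod_cast h3
        push_cast [Nat.cast_sub hx01] at h5
        exact h5
      rw [sub_div]
      linarith
    have h3 : (S.length : ℝ) * (f.μ * ((f.ρ : ℝ) - 1)) ≤ L := by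
      have h4 : ((S.length * ((M + 1) * (f.ρ - 1)) : ℕ) : ℝ) ≤ L := by exact_mod_cast h1
      push_cast [Nat.cast_sub (by omega : 1 ≤ f.ρ)] at h4
      rw [hMR] at h4
      exact h4
    unfold FatP.N
    rw [le_div_iff₀]
    · linarith
    · have : (0 : ℝ) < (f.ρ : ℝ) - 1 := by linarith
      have := hf.μR
      positivity
  have hmono : ∀ s ∈ S, ∀ k l, k < l → l < (s.M + 1) * (s.R + 1) →
      shu u s.o k < shu u s.o l := by
    intro s hs k l hkl hl
    have h1 := Chain.mem_le c1 hs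
    have : s.n = (s.M + 1) * (s.R + 1) := rfl
    exact hu _ _ (by omega) (by omega)
  -- decrease of the sides in one strip
  have hdl : ∀ s ∈ S, dl s.M s.R (shu u s.o) ≤ f.w * f.S ^ 2 := by
    intro s hs
    have h1 := Chain.mem_le c1 hs
    have h2 := c4 s hs
    have hn : s.n = (s.M + 1) * (s.R + 1) := rfl
    have hnpos : 0 < (s.M + 1) * (s.R + 1) := by positivity
    have hnthr : s.n ≤ f.thr := by
      rw [hn, h2.1, ← hthr_eq]
      exact Nat.mul_le_mul_left _ (by omega)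
    unfold dl shu
    have h3 : s.o + 0 ≤ s.o + ((s.M + 1) * (s.R + 1) - 1) := by omega
    refine hf.span_dl ?_ (hσk _ (by omega)).2 (hspan _ _ h3 (by omega) (by omega))
    rcases Nat.lt_or_ge (s.o + 0) (s.o + ((s.M + 1) * (s.R + 1) - 1)) with h4 | h4
    · exact (hu _ _ h4 (by omega)).le
    · have : s.o + 0 = s.o + ((s.M + 1) * (s.R + 1) - 1) := by omega
      rw [← this]
  have hydl : ∀ s ∈ S, ((M : ℝ) + 1) * dl s.M s.R (shu u s.o) ≤ f.y := by
    intro s hs
    rw [hMR]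
    unfold FatP.y
    rw [mul_assoc]
    exact mul_le_mul_of_nonneg_left (hdl s hs) (Nat.cast_nonneg _)
  have hyσ : 6 / 5 * f.y ≤ f.σ := hf.hy
  -- waste
  have hE2 : ∀ e ∈ E, 0 ≤ e.1 ∧ e.1 ≤ f.S ∧ f.μ * f.σ ≤ e.2 ∧ e.2 ≤ f.μ * f.S := by
    intro e he
    obtain ⟨s, hs, h1, h2, h3⟩ := (List.forall₂_iff_get.1 c5 |> fun hh => by
      obtain ⟨i, hi, hei⟩ := List.mem_iff_getElem.1 he
      have hlen := hh.1
      have h4 := hh.2 i (by rw [hlen]; exact hi) hi
      simp only [List.get_eq_getElem] at h4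
      rw [hei] at h4
      exact ⟨S[i], List.getElem_mem _, h4.1, h4.2.1, h4.2.2⟩ :
      ∃ s ∈ S, 0 ≤ e.1 ∧ e.1 ≤ sd (u s.o) ∧ e.2 = hW s.M (shu u s.o))
    have h4 := Chain.mem_le c1 hs
    have h5 := c4 s hs
    have hn : s.n = (s.M + 1) * (s.R + 1) := rfl
    have hnpos : 0 < (s.M + 1) * (s.R + 1) := by positivity
    have hMn : s.M + 1 ≤ s.n := by
      rw [hn]
      exact Nat.le_mul_of_pos_right _ (Nat.succ_pos _)
    refine ⟨h1, h2.trans (hσk _ (by omega)).2, ?_, ?_⟩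
    · rw [h3, ← hMR, ← h5.1]
      unfold hW shu
      have h6 : ∑ _k ∈ Finset.range (s.M + 1), f.σ ≤
          ∑ k ∈ Finset.range (s.M + 1), sd (u (s.o + k)) := by
        apply Finset.sum_le_sum
        intro k hk
        rw [Finset.mem_range] at hk
        exact (hσk _ (by omega)).1
      rw [Finset.sum_const, Finset.card_range, nsmul_eq_mul] at h6
      push_cast at h6
      exact h6
    · rw [h3, ← hMR, ← h5.1]
      unfold hW shu
      have h6 : ∑ k ∈ Finset.range (s.M + 1), sd (u (s.o + k)) ≤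
          ∑ _k ∈ Finset.range (s.M + 1), f.S := by
        apply Finset.sum_le_sum
        intro k hk
        rw [Finset.mem_range] at hk
        exact (hσk _ (by omega)).2
      rw [Finset.sum_const, Finset.card_range, nsmul_eq_mul] at h6
      push_cast at h6
      exact h6
  obtain ⟨G, hGdef⟩ : ∃ G, G = S.flatMap (StripD.right u) := ⟨_, rfl⟩
  obtain ⟨Z, hZdef⟩ : ∃ Z, Z = S.flatMap (StripD.unc u) := ⟨_, rfl⟩
  rw [← hGdef, ← hZdef] at c9
  have hZ0 : ∀ x ∈ Z, 0 ≤ x.1 ∧ 0 ≤ x.2 := by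
    intro x hx
    rw [hZdef, List.mem_flatMap] at hx
    obtain ⟨s, hs, hx⟩ := hx
    exact stripU_nonneg (hmono s hs) hx
  have hZT : ∀ x ∈ Z, min x.1 x.2 ≤ f.S := by
    intro x hx
    rw [hZdef, List.mem_flatMap] at hx
    obtain ⟨s, hs, hx⟩ := hx
    refine (stripU_min_le (hmono s hs) hx).trans ?_
    have h1 := hydl s hs
    rw [(hQ s hs).1] at h1 ⊢
    have hy0 : 0 ≤ f.y := (mul_nonneg (by positivity)
      (by have := dl_nonneg (hmono s hs); rw [(hQ s hs).1] at this; exact this)).trans h1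
    linarith
  -- first the uncontrolled pieces
  have t1 : PT W H (Z ++ (E ++ (FL' ++ (G ++ F)))) (P ∪ (Finset.Ico 0 o').image u) := by
    refine c9.perm ?_
    rw [← Multiset.coe_eq_coe]
    simp only [← Multiset.coe_add]
    abel
  obtain ⟨J1, a1, a2, a3, a4⟩ := waste_rows t1 hZ0 hZT
  have t2 : PT W H (E ++ (J1 ++ (FL' ++ (G ++ F)))) (P ∪ (Finset.Ico 0 o').image u) := by
    refine a1.perm ?_
    rw [← Multiset.coe_eq_coe]
    simp only [← Multiset.coe_add]
    abel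
  obtain ⟨J2, b1, b2, b3⟩ := drop_rows t2 (fun x hx => (hE2 x hx).1)
  have hElen : E.length = S.length := (List.Forall₂.length_eq c5).symm
  have hEms : (E.map ms).sum ≤ S.length * (f.μ * f.S + 4 / 5 * f.S) := by
    have h1 : ∀ a ∈ E.map ms, a ≤ f.μ * f.S + 4 / 5 * f.S := by
      intro a ha
      obtain ⟨x, hx, rfl⟩ := List.mem_map.1 ha
      have := hE2 x hx
      unfold ms
      linarith
    have h2 := List.sum_le_card_nsmul _ _ h1
    rw [List.length_map, hElen, nsmul_eq_mul] at h2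
    exact h2
  have hEfst : (E.map Prod.fst).sum ≤ S.length * f.S := by
    have h1 : ∀ a ∈ E.map Prod.fst, a ≤ f.S := by
      intro a ha
      obtain ⟨x, hx, rfl⟩ := List.mem_map.1 ha
      exact (hE2 x hx).2.1
    have h2 := List.sum_le_card_nsmul _ _ h1
    rw [List.length_map, hElen, nsmul_eq_mul] at h2
    exact h2
  have hN0 : (0 : ℝ) ≤ S.length := Nat.cast_nonneg _
  have hμS : 0 ≤ f.μ * f.S := mul_nonneg (Nat.cast_nonneg _) hS0.le
  refine ⟨FL', G, J1 ++ J2, U', hpend.1, hpend.2, c6, ?_, ?_, ?_, ?_, ?_, ?_, ?_⟩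
  · have e1 : (Finset.Ico 0 o').image u = (Up ∪ Uf) \ U' := by
      rw [hU'def, ← himg]
      ext n
      rw [Finset.mem_sdiff, Finset.mem_image, Finset.mem_image, Finset.mem_image]
      constructor
      · rintro ⟨k, hk, rfl⟩
        rw [Finset.mem_Ico] at hk
        refine ⟨⟨k, by rw [Finset.mem_range]; omega, rfl⟩, ?_⟩
        rintro ⟨l, hl, e⟩
        rw [Finset.mem_Ico] at hl
        have := hu k l (by omega) hl.2
        omega
      · rintro ⟨⟨k, hk, rfl⟩, hn⟩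
        rw [Finset.mem_range] at hk
        refine ⟨k, ?_, rfl⟩
        rw [Finset.mem_Ico]
        refine ⟨Nat.zero_le _, ?_⟩
        by_contra hcon
        apply hn
        exact ⟨k, by rw [Finset.mem_Ico]; omega, rfl⟩
    rw [← e1]
    refine b2.perm ?_
    rw [← Multiset.coe_eq_coe]
    simp only [← Multiset.coe_add]
    abel
  · intro x hx
    rw [hGdef, List.mem_flatMap] at hx
    obtain ⟨s, hs, hx⟩ := hx
    have h1 := stripRight_thick (hmono s hs) hx
    have h2 := Chain.mem_le c1 hs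
    have h3 := hydl s hs
    have hn : s.n = (s.M + 1) * (s.R + 1) := rfl
    have hnpos : 0 < (s.M + 1) * (s.R + 1) := by positivity
    have h4 : f.σ ≤ x.2 := by
      refine le_trans ?_ h1.2.2.1
      unfold shu
      exact (hσk _ (by omega)).1
    have h5 : x.1 ≤ f.y := by
      refine h1.2.1.trans ?_
      rw [(hQ s hs).1] at h3 ⊢
      exact h3
    exact ⟨h1.1, h5, by linarith⟩
  · intro α β hα hαβ
    have h1 := chain_msF (Sx := f.S) (N := f.N) (y := f.y) c1 c2 hu hσ0 hσk hσS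
      (fun s hs => (hQ s hs).1) hN hydl hα hαβ
    rw [← hGdef, hMR] at h1
    unfold FatP.NG FatP.D
    unfold msF at h1
    exact h1
  · rw [hGdef]
    have h1 := Chain.fst_right c1 c2 hu hσk hσS hQ
    rw [hMR] at h1
    exact h1
  · intro x hx
    rcases List.mem_append.1 hx with hx | hx
    · exact a2 x hx
    · have h1 := b3 x hx
      have h2 := hE2 x (b1.subset hx)
      have h3 := hf.num5
      exact ⟨h1, h2.2.1, by linarith⟩
  · rw [List.map_append, List.sum_append]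
    have h1 := Chain.wt_unc c1 c2 hu hσk hσS hQ
    rw [← hZdef, hMR] at h1
    have h2 : (J2.map ms).sum ≤ (E.map ms).sum := by
      apply sum_ms_sublist b1
      intro x hx
      have h3 := hE2 x hx
      unfold ms
      have h4 : 0 ≤ (f.μ : ℝ) * f.σ := mul_nonneg (Nat.cast_nonneg _) hσ0.le
      linarith
    have h3 : (S.length : ℝ) * f.μ * f.S ≤ f.N * f.μ * f.S := by
      rw [mul_assoc, mul_assoc]
      exact mul_le_mul_of_nonneg_right hN hμS
    have h4 : (S.length : ℝ) * (f.μ * f.S + 4 / 5 * f.S) ≤ f.N * (f.μ * f.S + 4 / 5 * f.S) :=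
      mul_le_mul_of_nonneg_right hN (by linarith)
    unfold FatP.mJ FatP.D
    linarith
  · rw [List.map_append, List.sum_append]
    have h1 := Chain.min_unc c1 c2 hu hσk hσS hQ
    rw [← hZdef, hMR] at h1
    have h2 : (J2.map Prod.fst).sum ≤ (E.map Prod.fst).sum :=
      sum_fst_sublist b1 (fun x hx => (hE2 x hx).1)
    have h4 : (S.length : ℝ) * f.S ≤ f.N * f.S := mul_le_mul_of_nonneg_right hN hS0.le
    unfold FatP.tJ FatP.D
    linarith

end

end Pool.Agent.LibMoserT
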