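import Pool.Agent.LibMoserT.Serve
import Pool.Agent.LibMoserT.FatFrame
set_option autoImplicit false
/-!
# The step of the tail
-/
namespace Pool.Agent.LibMoserT
open Pool.Agent.LibMoser5 Pool.Agent.LibMoserF Classical

noncomputable section

/-- state -/
structure St where
  FL : List (ℝ × ℝ)
  R : List (ℝ × ℝ)
  G : List (ℝ × ℝ)
  J : List (ℝ × ℝ)
  P : Finset ℕ
  U : Finset ℕ

structure Inv (D : TD) (OL : ℕ → List (ℝ × ℝ)) (W H : ℝ) (g : ℕ) (s : St) : Prop where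
  pt : PT W H (s.FL ++ (s.R ++ (D.Ow OL g ++ (s.G ++ s.J)))) s.P
  dis : Disjoint s.P s.U
  un : s.P ∪ s.U = Finset.Ico 1 (D.bg g)
  pd : Pend (D.F g).s (D.F g).thr (D.F g).S (D.bg g) s.U
  fi : Fat (26 / 25) D.NF s.FL
  wt : D.Wt g s.R s.G
  Jt : ∀ x ∈ s.J, 0 < x.1 ∧ x.1 ≤ th D.q (D.fl (g - 1) - 64) ∧ 6 / 5 * x.1 ≤ x.2
  Jm : msum s.J ≤ D.mJ0 + ∑ g' ∈ Finset.range g, (D.F g').mJ
  Gm : ∀ α β : ℝ, 0 < α → α ≤ β →
    msum (cutL α β s.G) ≤ ∑ g' ∈ Finset.range g, (D.F g').NG α β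
  pot : ∀ j, D.fl g - 20 ≤ j → Phi D.q j s.R (D.Ow OL g) s.G s.J ≤
    D.Phi0 + ∑ g' ∈ Finset.range g, D.inc g' j

/-- numerical conditions for the area -/
structure ArOk (D : TD) (aB δ : ℕ → ℝ) : Prop where
  B : AreaB D aB δ
  ar : ∀ g, aB (g + 1) + th D.q (D.fl g - 64) * D.JT + (D.F g).AR +
    1 / 20 * ((D.F g).thr * (D.F g).S ^ 2 + (1 / (D.bg g : ℝ) - 1 / (D.bg (g + 1) : ℝ))) ≤
    sd (D.bg (g + 1))

variable {D : TD} {W H : ℝ} {OL : ℕ → List (ℝ × ℝ)}

/-- every window is served in some frame -/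
theorem TD.frame_of (h1 : D.Ok1) {g k : ℕ} (hk : D.fl g - 20 ≤ k) :
    ∃ g', g ≤ g' ∧ D.fl g' - 20 ≤ k ∧ k < D.fl (g' + 1) - 20 := by
  obtain ⟨G, hG⟩ := LibMoserT.fl_unbounded h1.l1 (k + 21)
  have hex : ∃ d, k < D.fl (g + d) - 20 := by
    refine ⟨G, ?_⟩
    have h2 : D.fl G ≤ D.fl (g + G) := TD.fl_m (by omega)
    have h3 : k + 21 ≤ D.fl G := hG
    omega
  obtain ⟨d, hd, hmin⟩ : ∃ d, k < D.fl (g + d) - 20 ∧ ∀ e < d, ¬ k < D.fl (g + e) - 20 :=
    ⟨Nat.find hex, Nat.find_spec hex, fun e he => Nat.find_min hex he⟩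
  cases d with
  | zero =>
    exfalso
    rw [Nat.add_zero] at hd
    omega
  | succ d =>
    exact ⟨g + d, by omega, not_lt.1 (hmin d (Nat.lt_succ_self d)), hd⟩

theorem FatP.Ok.N0 {f : FatP} (hf : f.Ok) : 0 ≤ f.N := by
  unfold FatP.N
  have h1 := hf.q0
  have h2 := hf.l0'
  have h3 := hf.l_le_L1
  have h4 : (1000 : ℝ) ≤ f.ρ := by exact_mod_cast hf.ρ_ge
  have h5 : (f.l : ℝ) ^ 3 ≤ (f.l1 : ℝ) ^ 3 := pow_le_pow_left₀ (by linarith) h3 3
  have h6 : 0 ≤ ((f.l1 : ℝ) ^ 3 - (f.l : ℝ) ^ 3) / f.qn := div_nonneg (by linarith) h1.le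
  have h7 : (0 : ℝ) ≤ f.thr := Nat.cast_nonneg _
  have h8 : (0 : ℝ) ≤ f.μ := Nat.cast_nonneg _
  exact div_nonneg (by linarith) (mul_nonneg h8 (by linarith))

theorem FatP.Ok.D0 {f : FatP} (hf : f.Ok) : 0 ≤ f.D := by
  unfold FatP.D
  linarith [hf.σS]

theorem FatP.Ok.tG0 {f : FatP} (hf : f.Ok) : 0 ≤ f.tG := by
  unfold FatP.tG
  have := hf.D0
  positivity

theorem FatP.Ok.tJ0 {f : FatP} (hf : f.Ok) : 0 ≤ f.tJ := by
  unfold FatP.tJ
  have := hf.D0
  have := hf.N0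
  have := hf.S0
  positivity

theorem FatP.Ok.mJ0 {f : FatP} (hf : f.Ok) : 0 ≤ f.mJ := by
  unfold FatP.mJ
  have := hf.D0
  have := hf.N0
  have := hf.S0
  positivity

theorem FatP.Ok.NG0 {f : FatP} (hf : f.Ok) {α β : ℝ} (h : 0 < α) (h' : α ≤ β) : 0 ≤ f.NG α β := by
  unfold FatP.NG
  have h1 := hf.D0
  have h2 := hf.N0
  have h3 := hf.S0
  have h4 : 0 ≤ β - α := by linarith
  have h5 : 0 ≤ min f.N (f.μ * f.D / α) := le_min h2 (by positivity)
  have h6 : 0 ≤ β := by linarith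
  split_ifs
  · positivity
  · exact le_rfl

theorem TD.inc_nonneg (h1 : D.Ok1) (g j : ℕ) (hj : 1 ≤ j) : 0 ≤ D.inc g j := by
  have hq : 0 < D.q := TD.q_pos h1
  have hfl := TD.fl_ge h1 g
  have hfl1 := TD.fl_lt h1 g
  have h6 : th D.q (j + 1) < th D.q j := th_lt hq hj (Nat.lt_succ_self j)
  have h7 : 0 < th D.q (j + 1) := th_pos hq (Nat.succ_pos j)
  have h8 : 0 < th D.q j - th D.q (j + 1) := by linarith
  have h9 : 0 < th D.q j := by linarith
  have hσm0 : 0 < D.σm g := th_pos hq (by omega)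
  have hs00 : 0 < D.s0 g := th_pos hq (by omega)
  have hy00 : 0 < D.y0 g := by
    unfold TD.y0
    have : 0 < th D.q (D.fl (g + 1)) := th_pos hq (by omega)
    linarith
  have hC := chC_pos
  have hsum : 0 ≤ ((D.srcs g).map (fun z => z.D D.q j (D.σm g) + z.B D.q j)).sum := by
    apply List.sum_nonneg
    intro a ha
    obtain ⟨z, hz, rfl⟩ := List.mem_map.1 ha
    have hok := TD.srcs_ok h1 g z hz
    have hu := Src.u_nonneg hok
    have hσ := hok.σ0
    obtain ⟨n, hn⟩ := hok.ne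
    have hQ := hok.Qs n hn
    have hS : 0 < z.S := by linarith
    have hD : 0 ≤ z.D D.q j (D.σm g) := by
      unfold Src.D
      split_ifs
      · positivity
      · exact le_rfl
    have hT : 0 ≤ z.T := by
      unfold Src.T
      apply mul_nonneg hu
      apply Finset.sum_nonneg
      intro n hn
      have := (hok.Qs n hn).2
      linarith [hok.Sp, hok.pp]
    have hB : 0 ≤ z.B D.q j := by
      unfold Src.B
      split_ifs
      · have : 0 ≤ z.pmax - z.σ := by linarith [hok.Sp, hok.pp]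
        positivity
      · exact le_rfl
    linarith
  have hK : 0 ≤ D.KEE g j := by
    unfold TD.KEE
    split_ifs
    · unfold KE
      positivity
    · exact le_rfl
  have hF : 0 ≤ D.FAT g := by
    unfold TD.FAT
    have := (h1.Fok g).tG0
    have := (h1.Fok g).tJ0
    have := (h1.Fok g).mJ0
    positivity
  have hk : 0 ≤ 16 * D.q / (D.k0 g : ℝ) ^ 2 := by positivity
  have hy : 0 ≤ 43 * chC * D.y0 g := by positivity
  unfold TD.inc TD.inc1
  linarith

theorem TD.inc1_le (h1 : D.Ok1) (g j : ℕ) : D.inc1 g j ≤ D.inc g j := by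
  have hF : 0 ≤ D.FAT g := by
    unfold TD.FAT
    have := (h1.Fok g).tG0
    have := (h1.Fok g).tJ0
    have := (h1.Fok g).mJ0
    have := chC_pos
    positivity
  unfold TD.inc
  linarith

theorem TD.A_ge (h1 : D.Ok1) (hL : D.Ledger) {g k : ℕ} (hg : 1 ≤ g) (hk : D.fl g - 20 ≤ k) :
    D.Phi0 + ∑ g' ∈ Finset.range g, D.inc g' k ≤ D.A k := by
  obtain ⟨g1, h2, h3, h4⟩ := TD.frame_of h1 hk
  refine le_trans ?_ (hL.led g1 k (by omega) h3 h4)
  apply add_le_add_right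
  apply Finset.sum_le_sum_of_subset_of_nonneg
  · intro x hx
    rw [Finset.mem_range] at hx ⊢
    omega
  · intro i _ _
    have := TD.fl_ge h1 g
    exact TD.inc_nonneg h1 i k (by omega)

theorem rest_bounds {N : ℕ} (hN : 1 ≤ N) {T : ℝ} (hT : T = ∑' n : ℕ, sd (n + 1) ^ 2) (hT0 : 0 < T) :
    sd N ≤ T - ∑ n ∈ Finset.Ico 1 N, sd n ^ 2 ∧ T - ∑ n ∈ Finset.Ico 1 N, sd n ^ 2 ≤ 1 / (N : ℝ) := by
  have hsm : Summable (fun n : ℕ => sd (n + 1) ^ 2) := by
    by_contra h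
    rw [tsum_eq_zero_of_not_summable h] at hT
    linarith
  have hpart : ∀ m : ℕ, ∑ n ∈ Finset.range m, sd (n + 1) ^ 2 = ∑ n ∈ Finset.Ico 1 (m + 1), sd n ^ 2 := by
    intro m
    rw [Finset.sum_Ico_eq_sum_range]
    apply Finset.sum_congr (by simp)
    intro n _
    rw [add_comm 1 n]
  constructor
  · -- lower bound
    have h1 : ∀ M : ℕ, N ≤ M → sd N - sd M ≤ T - ∑ n ∈ Finset.Ico 1 N, sd n ^ 2 := by
      intro M hM
      have h2 : ∑ n ∈ Finset.range M, sd (n + 1) ^ 2 ≤ T := by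
        rw [hT]
        exact hsm.sum_le_tsum _ (fun i _ => by positivity)
      rw [hpart] at h2
      have h3 : ∑ n ∈ Finset.Ico 1 N, sd n ^ 2 + ∑ n ∈ Finset.Ico N M, sd n ^ 2 ≤
          ∑ n ∈ Finset.Ico 1 (M + 1), sd n ^ 2 := by
        rw [Finset.sum_Ico_consecutive _ hN hM]
        apply Finset.sum_le_sum_of_subset_of_nonneg
        · intro x hx
          rw [Finset.mem_Ico] at hx ⊢
          omega
        · intro i _ _
          positivity
      have h4 : sd N - sd M ≤ ∑ n ∈ Finset.Ico N M, sd n ^ 2 := by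
        clear h2 h3
        induction M, hM using Nat.le_induction with
        | base => simp
        | succ M hM ih =>
          rw [Finset.sum_Ico_succ_top hM]
          have h5 := le_sd_sq M
          have h6 : sd M - sd (M + 1) ≤ sd M ^ 2 := by
            refine le_trans (le_of_eq ?_) h5
            unfold sd
            push_cast
            congr 1
            ring
          linarith
      linarith
    have h7 : Filter.Tendsto (fun M : ℕ => sd N - sd M) Filter.atTop (nhds (sd N - 0)) := by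
      apply Filter.Tendsto.sub tendsto_const_nhds
      unfold sd
      have h8 : Filter.Tendsto (fun M : ℕ => (M : ℝ) + 1 / 2) Filter.atTop Filter.atTop :=
        Filter.tendsto_atTop_add_const_right _ _ tendsto_natCast_atTop_atTop
      refine h8.inv_tendsto_atTop.congr (fun M => ?_)
      simp
    rw [sub_zero] at h7
    apply le_of_tendsto h7
    filter_upwards [Filter.eventually_ge_atTop N] with M hM
    exact h1 M hM
  · have h1 : T ≤ ∑ n ∈ Finset.Ico 1 N, sd n ^ 2 + 1 / (N : ℝ) := by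
      rw [hT]
      apply Real.tsum_le_of_sum_range_le (fun n => by positivity)
      intro m
      rw [hpart]
      have hN0 : (0 : ℝ) < N := by exact_mod_cast hN
      rcases le_total N (m + 1) with h2 | h2
      · rw [← Finset.sum_Ico_consecutive _ hN h2]
        have h3 := sum_sd_sq_le N (m + 1) hN h2
        have h4 : (0 : ℝ) ≤ 1 / ((m + 1 : ℕ) : ℝ) := by positivity
        linarith
      · have h3 : ∑ n ∈ Finset.Ico 1 (m + 1), sd n ^ 2 ≤ ∑ n ∈ Finset.Ico 1 N, sd n ^ 2 := by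
          apply Finset.sum_le_sum_of_subset_of_nonneg
          · intro x hx
            rw [Finset.mem_Ico] at hx ⊢
            omega
          · intro i _ _
            positivity
        have h4 : (0 : ℝ) ≤ 1 / (N : ℝ) := by positivity
        linarith
    linarith

theorem ar_thin {t : ℝ} {L : List (ℝ × ℝ)}
    (h : ∀ x ∈ L, 0 < x.1 ∧ x.1 ≤ t ∧ 6 / 5 * x.1 ≤ x.2) : ar L ≤ t * msum L ∧ 0 ≤ ar L := by
  constructor
  · unfold ar msum
    rw [← List.sum_map_mul_left]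
    apply List.sum_le_sum
    intro x hx
    obtain ⟨h1, h2, h3⟩ := h x hx
    unfold ms
    nlinarith
  · unfold ar
    apply List.sum_nonneg
    intro a ha
    obtain ⟨x, hx, rfl⟩ := List.mem_map.1 ha
    obtain ⟨h1, h2, h3⟩ := h x hx
    exact mul_nonneg h1.le (by linarith)

theorem ar_nonneg' {L : List (ℝ × ℝ)} (h : ∀ x ∈ L, 0 < x.1 ∧ 6 / 5 * x.1 ≤ x.2) : 0 ≤ ar L := by
  unfold ar
  apply List.sum_nonneg
  intro a ha
  obtain ⟨x, hx, rfl⟩ := List.mem_map.1 ha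
  obtain ⟨h1, h3⟩ := h x hx
  exact mul_nonneg h1.le (by linarith)

theorem cutL_append (lo hi : ℝ) (L L' : List (ℝ × ℝ)) :
    cutL lo hi (L ++ L') = cutL lo hi L ++ cutL lo hi L' := by
  simp [cutL]

/-- the frame in terms of the fat lane -/
theorem TD.fat_x0 (h1 : D.Ok1) (g : ℕ) :
    ((D.F g).l : ℝ) ^ 3 / (D.F g).qn - 1 / 2 ≤ (D.bg g : ℕ) := by
  rw [h1.Fl g, h1.Fq g]
  have hq : 0 < D.q := TD.q_pos h1
  have h2 : ((D.fl g : ℕ) : ℝ) ^ 3 / (D.qn : ℝ) - 1 / 2 ≤ (ix D.q (D.fl g) : ℕ) := Nat.le_ceil _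
  refine h2.trans ?_
  unfold TD.bg
  split_ifs with hg
  · subst hg
    exact_mod_cast h1.n1
  · exact le_rfl

theorem TD.fat_x1 (h1 : D.Ok1) (g : ℕ) :
    ((D.F g).l1 : ℝ) ^ 3 / (D.F g).qn - 1 / 2 ≤ (D.bg (g + 1) : ℕ) ∧
    ((D.bg (g + 1) : ℕ) : ℝ) ≤ ((D.F g).l1 : ℝ) ^ 3 / (D.F g).qn + 1 / 2 := by
  rw [h1.Fl1 g, h1.Fq g]
  have hq : 0 < D.q := TD.q_pos h1
  have e : D.bg (g + 1) = ix D.q (D.fl (g + 1)) := by
    unfold TD.bg
    rw [if_neg (Nat.succ_ne_zero g)]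
  rw [e]
  refine ⟨Nat.le_ceil _, ?_⟩
  have hfl := TD.fl_ge h1 (g + 1)
  have h3 : (8192 : ℝ) ≤ D.fl (g + 1) := by exact_mod_cast hfl
  have h4 : (0 : ℝ) ≤ ((D.fl (g + 1) : ℕ) : ℝ) ^ 3 / D.q - 1 / 2 := by
    have h5 : (1 : ℝ) ≤ ((D.fl (g + 1) : ℕ) : ℝ) ^ 3 / D.q := by
      rw [le_div_iff₀ hq]
      have h6 := TD.q_le h1
      have h7 : (8192 : ℝ) ^ 3 ≤ (D.fl (g + 1) : ℝ) ^ 3 := pow_le_pow_left₀ (by norm_num) h3 3
      linarith
    linarith
  have h5 := Nat.ceil_lt_add_one h4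
  show ((ix D.q (D.fl (g + 1)) : ℕ) : ℝ) ≤ _
  have e2 : (D.fl (g + 1) : ℝ) ^ 3 / (D.qn : ℝ) = (D.fl (g + 1) : ℝ) ^ 3 / D.q := rfl
  rw [e2]
  unfold ix
  linarith

theorem TD.fat_big (h1 : D.Ok1) (g : ℕ) :
    ((D.bg g : ℕ) : ℝ) + (D.F g).w ≤ (D.bg (g + 1) : ℕ) := by
  by_cases hg : g = 0
  · subst hg
    have e : D.bg (0 + 1) = ix D.q (D.fl 1) := by
      unfold TD.bg
      rw [if_neg (Nat.succ_ne_zero 0)]
    have e2 : D.bg 0 = D.N1 := rfl
    rw [e, e2]
    exact h1.n2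
  · have h2 := (TD.fat_x1 h1 g).1
    have hf := h1.Fok g
    have h3 := hf.hw
    have h4 := hf.L1_ge
    have h5 := hf.m_eq
    have h6 := hf.q0
    have h7 := hf.l0'
    have hx0 : (0 : ℝ) ≤ (D.F g).x := Nat.cast_nonneg _
    have hx1 : ((D.F g).x : ℝ) ≤ 64 := by exact_mod_cast hf.x64
    -- x0 ≤ l^3/q + 1/2
    have hx : ((D.bg g : ℕ) : ℝ) ≤ ((D.F g).l : ℝ) ^ 3 / (D.F g).qn + 1 / 2 := by
      obtain ⟨g', rfl⟩ : ∃ g', g = g' + 1 := ⟨g - 1, by omega⟩
      have h8 := (TD.fat_x1 h1 g').2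
      rw [h1.Fl1 g', h1.Fq g'] at h8
      rw [h1.Fl (g' + 1), h1.Fq (g' + 1)]
      exact h8
    have h9 : ((D.F g).l : ℝ) ^ 3 - (((D.F g).l - (D.F g).x : ℕ) : ℝ) ^ 3 ≤
        ((D.F g).l1 : ℝ) ^ 3 - ((D.F g).l : ℝ) ^ 3 := by
      rw [h5]
      have h10 : (((D.F g).l : ℝ) + (D.F g).x) ^ 3 ≤ ((D.F g).l1 : ℝ) ^ 3 :=
        pow_le_pow_left₀ (by linarith) h4 3
      nlinarith [mul_nonneg (by linarith : (0 : ℝ) ≤ (D.F g).l) (mul_nonneg hx0 hx0)]
    have h11 : (((D.F g).l : ℝ) ^ 3 - (((D.F g).l - (D.F g).x : ℕ) : ℝ) ^ 3) / (D.F g).qn ≤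
        (((D.F g).l1 : ℝ) ^ 3 - ((D.F g).l : ℝ) ^ 3) / (D.F g).qn :=
      div_le_div_of_nonneg_right h9 h6.le
    rw [sub_div ((D.F g).l1 ^ 3 : ℝ)] at h11
    linarith

/-- **Step** -/
theorem step (h1 : D.Ok1) (hL : D.Ledger) {aB δ : ℕ → ℝ} (ha : ArOk D aB δ) (hO : D.OT OL)
    (hW : 0 < W) (hH : 0 < H)
    (hWH : W * H = ∑' n : ℕ, sd (n + 1) ^ 2) {g : ℕ} {s : St}
    (h : Inv D OL W H g s) : ∃ s', Inv D OL W H (g + 1) s' := by
  have hq : 0 < D.q := TD.q_pos h1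
  have hfl := TD.fl_ge h1 g
  have hfl1 := TD.fl_lt h1 g
  have hbg := TD.bg_pos h1 g
  have hbgm := TD.bg_mono h1 g
  have hF := h1.Fok g
  have hPlt : ∀ n ∈ s.P, n < D.bg g := by
    intro n hn
    have h2 : n ∈ s.P ∪ s.U := Finset.mem_union_left _ hn
    rw [h.un, Finset.mem_Ico] at h2
    exact h2.2
  have hJm : msum s.J ≤ D.JT := h.Jm.trans (hL.JT g)
  have hJ0 : ∀ x ∈ s.J, 0 < x.1 ∧ 6 / 5 * x.1 ≤ x.2 := fun x hx => ⟨(h.Jt x hx).1, (h.Jt x hx).2.2⟩
  obtain ⟨C, E, c1, c2, c3, c4, c5⟩ := serve h1 hL hO h.pt hPlt h.wt h.Jt hJm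
    (β := Fin (D.bg (g + 1) + 1))
    (fun n => ⟨min ((n - D.bg g) / 4096) (D.bg (g + 1)), by omega⟩)
  have hWl := TD.Wt_low h1 h.wt
  -- notation
  obtain ⟨Rn, hRn⟩ : ∃ Rn, Rn = newR C E (lowL (th D.q (D.fl (g + 1) - 20)) s.R) := ⟨_, rfl⟩
  obtain ⟨Ol, hOl⟩ : ∃ Ol, Ol = D.Ow OL (g + 1) := ⟨_, rfl⟩
  obtain ⟨Gl, hGl⟩ : ∃ Gl, Gl = lowL (th D.q (D.fl (g + 1) - 36)) s.G := ⟨_, rfl⟩
  obtain ⟨Jl, hJl⟩ : ∃ Jl, Jl = lowL (th D.q (D.fl g - 64)) s.J := ⟨_, rfl⟩
  rw [← hRn, ← hOl, ← hGl, ← hJl] at c1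
  rw [← hRn] at c3
  simp only [← hRn, ← hOl, ← hGl, ← hJl] at c5
  rw [← hGl] at hWl
  have hJlt : ∀ x ∈ Jl, 0 < x.1 ∧ x.1 ≤ th D.q (D.fl g - 64) ∧ 6 / 5 * x.1 ≤ x.2 := by
    intro x hx
    rw [hJl, mem_lowL] at hx
    exact ⟨(hJ0 x hx.1).1, hx.2, (hJ0 x hx.1).2⟩
  have hJlm : msum Jl ≤ msum s.J := by
    have h2 := msum_perm (split_J (lo := th D.q (D.fl g - 64)) s.J (fun x hx => (h.Jt x hx).2.1))
    rw [msum_append, ← hJl] at h2
    have h3 : 0 ≤ msum (cutL (th D.q (D.fl g - 64)) (th D.q (D.fl (g - 1) - 64)) s.J) :=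
      msum_nonneg (fun x hx => hJ0 x (mem_cutL.1 hx).1)
    linarith
  have hpotn : ∀ j, D.fl (g + 1) - 20 ≤ j → Phi D.q j Rn Ol Gl Jl ≤
      D.Phi0 + ∑ g' ∈ Finset.range g, D.inc g' j + D.inc1 g j := by
    intro j hj
    have h2 := c5 j hj
    have h3 := h.pot j (by omega)
    linarith
  -- waiting rows
  have hwt : D.Wt (g + 1) Rn Gl := by
    refine ⟨fun h0 => absurd h0 (Nat.succ_ne_zero g), fun h0 => absurd h0 (Nat.succ_ne_zero g),
      c3, ?_, hWl.Gt, hWl.Gm⟩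
    intro k hk
    have hk1 : 1 ≤ k := by omega
    have h2 := mass_win hq hk1 Rn (fun x hx => ⟨(c3 x hx).1.le, by
      have := c3 x hx
      linarith⟩)
    refine le_trans h2 (mul_le_mul_of_nonneg_right ?_ (om_nonneg hq hk1))
    have h3 := hpotn k hk
    have h4 := TD.A_ge h1 hL (g := g + 1) (by omega) hk
    rw [Finset.sum_range_succ] at h4
    have h5 := TD.inc1_le h1 g k
    have h6 : P D.q k Rn ≤ Phi D.q k Rn Ol Gl Jl := by
      unfold Phi
      have h7 := PC_nonneg hq (j := k) (Ol ++ (Gl ++ Jl))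
      have h8 := msum_nonneg (fun x hx => ⟨(hJlt x hx).1, (hJlt x hx).2.2⟩)
      linarith
    linarith
  -- squares
  obtain ⟨Pl, hPl⟩ : ∃ Pl, Pl = s.P ∪ (C.map Prod.fst).toFinset := ⟨_, rfl⟩
  obtain ⟨Uf, hUf⟩ : ∃ Uf, Uf = (D.Frm g).filter (fun n => n ∉ C.map Prod.fst) := ⟨_, rfl⟩
  obtain ⟨U, hU⟩ : ∃ U, U = s.U ∪ Uf := ⟨_, rfl⟩
  rw [← hPl] at c1
  have hCF : ∀ n ∈ (C.map Prod.fst).toFinset, n ∈ D.Frm g := by
    intro n hn
    rw [List.mem_toFinset, List.mem_map] at hn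
    obtain ⟨c, hc, rfl⟩ := hn
    exact c2 c hc
  have hunion : Pl ∪ U = Finset.Ico 1 (D.bg (g + 1)) := by
    rw [← Finset.Ico_union_Ico_eq_Ico hbg hbgm, ← h.un, hPl, hU, hUf]
    ext n
    have h2 : n ∈ (C.map Prod.fst).toFinset → n ∈ Finset.Ico (D.bg g) (D.bg (g + 1)) := hCF n
    simp only [Finset.mem_union, Finset.mem_filter, TD.Frm, List.mem_toFinset] at h2 ⊢
    tauto
  have hdisj : Disjoint Pl U := by
    rw [Finset.disjoint_left]
    intro n hn hn'
    rw [hPl, Finset.mem_union] at hn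
    rw [hU, hUf, Finset.mem_union, Finset.mem_filter] at hn'
    rcases hn with hn | hn
    · rcases hn' with hn' | hn'
      · exact Finset.disjoint_left.1 h.dis hn hn'
      · have h2 := hPlt n hn
        have h3 := hn'.1
        unfold TD.Frm at h3
        rw [Finset.mem_Ico] at h3
        omega
    · rcases hn' with hn' | hn'
      · have h2 := hCF n hn
        unfold TD.Frm at h2
        have h3 : n ∈ s.P ∪ s.U := Finset.mem_union_right _ hn'
        rw [h.un, Finset.mem_Ico] at h3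
        rw [Finset.mem_Ico] at h2
        omega
      · exact hn'.2 (List.mem_toFinset.1 hn)
  have hUfr : ∀ n ∈ Uf, D.bg g ≤ n ∧ n < D.bg (g + 1) := by
    intro n hn
    rw [hUf, Finset.mem_filter] at hn
    have h2 := hn.1
    unfold TD.Frm at h2
    rw [Finset.mem_Ico] at h2
    exact h2
  have hdens : Dens (D.F g).s (D.bg g) (D.bg (g + 1)) Uf := by
    intro i hi
    have hiB : i < D.bg (g + 1) := by omega
    have hiff : ∀ n ∈ D.Frm g, ((⟨min ((n - D.bg g) / 4096) (D.bg (g + 1)), by omega⟩ :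
        Fin (D.bg (g + 1) + 1)) = ⟨i, by omega⟩) ↔
        (D.bg g + i * 4096 ≤ n ∧ n < D.bg g + (i + 1) * 4096) := by
      intro n hn
      unfold TD.Frm at hn
      rw [Finset.mem_Ico] at hn
      rw [Fin.mk.injEq]
      omega
    have h2 : D.sm g * (((D.Frm g).filter (fun n =>
        (⟨min ((n - D.bg g) / 4096) (D.bg (g + 1)), by omega⟩ :
        Fin (D.bg (g + 1) + 1)) = ⟨i, by omega⟩)).card : ℝ) - 2 ≤
        (((D.Frm g).filter (fun n => n ∉ C.map Prod.fst ∧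
        (⟨min ((n - D.bg g) / 4096) (D.bg (g + 1)), by omega⟩ :
        Fin (D.bg (g + 1) + 1)) = ⟨i, by omega⟩)).card : ℝ) := by
      convert c4 ⟨i, by omega⟩
    have e1 : (D.Frm g).filter (fun n => (⟨min ((n - D.bg g) / 4096) (D.bg (g + 1)), by omega⟩ :
        Fin (D.bg (g + 1) + 1)) = ⟨i, by omega⟩) =
        Finset.Ico (D.bg g + i * 4096) (D.bg g + (i + 1) * 4096) := by
      ext n
      rw [Finset.mem_filter, Finset.mem_Ico]
      constructor
      · rintro ⟨h3, h4⟩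
        exact (hiff n h3).1 h4
      · intro h3
        have h4 : n ∈ D.Frm g := by
          unfold TD.Frm
          rw [Finset.mem_Ico]
          omega
        exact ⟨h4, (hiff n h4).2 h3⟩
    rw [e1, Nat.card_Ico] at h2
    have e2 : D.bg g + (i + 1) * 4096 - (D.bg g + i * 4096) = 4096 := by omega
    rw [e2] at h2
    have e3 : ((4096 : ℕ) : ℝ) = 4096 := by norm_num
    rw [e3] at h2
    refine h2.trans ?_
    have h3 : (D.Frm g).filter (fun n => n ∉ C.map Prod.fst ∧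
        (⟨min ((n - D.bg g) / 4096) (D.bg (g + 1)), by omega⟩ :
        Fin (D.bg (g + 1) + 1)) = ⟨i, by omega⟩) ⊆
        Uf.filter (fun n => D.bg g + i * 4096 ≤ n ∧ n < D.bg g + (i + 1) * 4096) := by
      intro n hn
      rw [Finset.mem_filter] at hn ⊢
      refine ⟨?_, (hiff n hn.1).1 hn.2.2⟩
      rw [hUf, Finset.mem_filter]
      exact ⟨hn.1, hn.2.1⟩
    exact_mod_cast Finset.card_le_card h3
  -- area
  have hbg1 := TD.bg_pos h1 (g + 1)
  have hWH0 : 0 < W * H := mul_pos hW hH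
  obtain ⟨r1, r2⟩ := rest_bounds hbg1 hWH hWH0
  have hsplit : ∑ n ∈ Finset.Ico 1 (D.bg (g + 1)), sd n ^ 2 = ∑ n ∈ Pl, sd n ^ 2 + ∑ n ∈ U, sd n ^ 2 := by
    rw [← hunion, Finset.sum_union hdisj]
  have harea := c1.2
  rw [ar_append'] at harea
  have hassoc : ar (Rn ++ (Ol ++ (Gl ++ Jl))) = ar (Rn ++ (Ol ++ Gl)) + ar Jl := by
    rw [← ar_append']
    congr 1
    simp [List.append_assoc]
  have hJT0 : 0 ≤ D.JT := (msum_nonneg hJ0).trans hJm
  have har1 := TD.area_rows h1 hO (fun g' n hn => by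
    have h2 := hL.cap g' n hn
    linarith) ha.B hwt
  rw [← hOl] at har1
  have hth0 : 0 ≤ th D.q (D.fl g - 64) := (th_pos hq (by omega)).le
  obtain ⟨har2, har3⟩ := ar_thin hJlt
  have har4 : ar Jl ≤ th D.q (D.fl g - 64) * D.JT :=
    har2.trans (mul_le_mul_of_nonneg_left (hJlm.trans hJm) hth0)
  have har5 : 0 ≤ ar (Rn ++ (Ol ++ Gl)) := by
    apply ar_nonneg'
    intro x hx
    simp only [List.mem_append] at hx
    rcases hx with hx | hx | hx
    · have := c3 x hx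
      exact ⟨this.1, by linarith⟩
    · rw [hOl] at hx
      exact TD.Ow_t h1 hO hx
    · exact ⟨(hwt.Gt x hx).1, (hwt.Gt x hx).2.2⟩
  have hUs : ∑ n ∈ U, sd n ^ 2 ≤ (D.F g).thr * (D.F g).S ^ 2 +
      (1 / (D.bg g : ℝ) - 1 / (D.bg (g + 1) : ℝ)) := by
    have h2 : ∑ n ∈ U, sd n ^ 2 ≤ ∑ n ∈ s.U, sd n ^ 2 + ∑ n ∈ Uf, sd n ^ 2 := by
      rw [hU, ← Finset.sum_union_inter]
      have : 0 ≤ ∑ n ∈ s.U ∩ Uf, sd n ^ 2 := Finset.sum_nonneg (fun _ _ => by positivity)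
      linarith
    have h3 : ∑ n ∈ s.U, sd n ^ 2 ≤ (D.F g).thr * (D.F g).S ^ 2 := by
      have h4 : ∑ n ∈ s.U, sd n ^ 2 ≤ s.U.card • ((D.F g).S ^ 2) :=
        Finset.sum_le_card_nsmul _ _ _ (fun n hn =>
          pow_le_pow_left₀ (LibMoser5.Fill_sd_pos n).le (h.pd.side n hn) 2)
      rw [nsmul_eq_mul] at h4
      refine h4.trans (mul_le_mul_of_nonneg_right ?_ (by positivity))
      exact_mod_cast h.pd.card
    have h5 : ∑ n ∈ Uf, sd n ^ 2 ≤ 1 / (D.bg g : ℝ) - 1 / (D.bg (g + 1) : ℝ) := by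
      refine le_trans ?_ (sum_sd_sq_le _ _ hbg hbgm)
      apply Finset.sum_le_sum_of_subset_of_nonneg
      · intro n hn
        rw [Finset.mem_Ico]
        exact hUfr n hn
      · intro i _ _
        positivity
    linarith
  have har := ha.ar g
  obtain ⟨FL', G', J', U', k1, k2, k3, k4, k5, k6, k7, k8, k9, k10⟩ := fat_frame hF
    (FL := s.FL) (F := Rn ++ (Ol ++ (Gl ++ Jl))) (P := Pl) (Up := s.U) (Uf := Uf)
    (TD.fat_x0 h1 g) (TD.fat_x1 h1 g).1 (TD.fat_x1 h1 g).2 (TD.fat_big h1 g)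
    hUfr hdens h.pd c1
    (by
      intro n hn hn'
      rw [← hU] at hn
      exact Finset.disjoint_left.1 hdisj hn' hn)
    (by rw [h1.FN g]; exact h.fi)
    (by
      rw [← hU]
      rw [hassoc] at harea
      linarith)
    (by
      rw [← hU]
      rw [hassoc] at harea
      linarith)
  rw [← hU] at k4
  have hk1U : U' ⊆ U := by
    rw [hU]
    exact k1.trans Finset.subset_union_right
  have hy' := h1.Fy g
  have hSJ : (D.F g).S ≤ th D.q (D.fl g - 64) := by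
    show th ((D.F g).qn : ℝ) ((D.F g).l - (D.F g).x) ≤ _
    rw [h1.Fl g, h1.Fq g]
    have := hF.x64
    exact th_anti hq (by omega) (by omega)
  have hGm : ∀ α β : ℝ, 0 < α → α ≤ β →
      msum (cutL α β (G' ++ Gl)) ≤ ∑ g' ∈ Finset.range (g + 1), (D.F g').NG α β := by
    intro α β hα hαβ
    rw [cutL_append, msum_append, Finset.sum_range_succ]
    have h3 : msum (cutL α β G') ≤ (D.F g).NG α β := k6 α β hα hαβ
    have h4 := h.Gm α β hα hαβ
    have h5 : msum (cutL α β Gl) ≤ msum (cutL α β s.G) := by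
      unfold msum
      have h6 : (cutL α β Gl).Sublist (cutL α β s.G) := by
        rw [hGl]
        unfold cutL lowL
        exact List.Sublist.filter _ List.filter_sublist
      exact sum_ms_sublist h6 (fun x hx => by
        have h7 := h.wt.Gt x (mem_cutL.1 hx).1
        unfold ms
        linarith [h7.1, h7.2.2])
    linarith
  refine ⟨⟨FL', Rn, G' ++ Gl, J' ++ Jl, Pl ∪ (U \ U'), U'⟩, ?_, ?_, ?_, ?_, ?_, ?_, ?_, ?_, ?_, ?_⟩
  · rw [← hOl]
    refine k4.perm ?_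
    rw [List.perm_iff_count]
    intro a
    simp only [List.count_append]
    omega
  · show Disjoint (Pl ∪ (U \ U')) U'
    rw [Finset.disjoint_union_left]
    exact ⟨hdisj.mono_right hk1U, Finset.sdiff_disjoint⟩
  · show Pl ∪ (U \ U') ∪ U' = _
    rw [Finset.union_assoc, Finset.sdiff_union_of_subset hk1U, hunion]
  · have hs' := (h1.Fok (g + 1)).s0
    refine k2.mono (h1.Fs g) (by linarith) (h1.Ft g) ?_
    show th _ _ ≤ th ((D.F (g + 1)).qn : ℝ) ((D.F (g + 1)).l - (D.F (g + 1)).x)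
    rw [h1.Fl1 g, h1.Fq g, h1.Fl (g + 1), h1.Fq (g + 1)]
    have h2 := h1.Fx g
    have h3 := (h1.Fok (g + 1)).x64
    have h4 := TD.fl_ge h1 (g + 1)
    exact th_anti hq (by omega) (by omega)
  · have := k3
    rw [h1.FN g] at this
    exact this
  · refine ⟨fun h0 => absurd h0 (Nat.succ_ne_zero g), fun h0 => absurd h0 (Nat.succ_ne_zero g),
      hwt.Rt, hwt.Rm, ?_, ?_⟩
    · intro x hx
      rcases List.mem_append.1 hx with hx | hx
      · have := k5 x hx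
        exact ⟨this.1, this.2.1.trans hy', this.2.2⟩
      · exact hwt.Gt x hx
    · intro h' hh hh' i hi hi'
      have h3 := TD.ug_ge h1 hi
      have h4 := TD.fl_ge h1 h'
      have h6 : D.ug h' * (i + 1) = D.ug h' * i + D.ug h' := by ring
      have h7 : 0 < th D.q (D.ug h' * (i + 1) - 36) := th_pos hq (by omega)
      have h8 : th D.q (D.ug h' * (i + 1) - 36) ≤ th D.q (D.ug h' * i - 36) :=
        th_anti hq (by omega) (by omega)
      refine (hGm _ _ h7 h8).trans (le_trans ?_ (hL.MG h' i hh' hi hi'))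
      apply Finset.sum_le_sum_of_subset_of_nonneg
      · intro x hx
        rw [Finset.mem_range] at hx ⊢
        omega
      · intro x _ _
        exact (h1.Fok x).NG0 h7 h8
  · intro x hx
    have e : g + 1 - 1 = g := by omega
    rw [e]
    rcases List.mem_append.1 hx with hx | hx
    · have := k8 x hx
      exact ⟨this.1, this.2.1.trans hSJ, this.2.2⟩
    · exact hJlt x hx
  · show msum (J' ++ Jl) ≤ _
    rw [msum_append, Finset.sum_range_succ]
    have h2 := h.Jm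
    have h3 : msum J' ≤ (D.F g).mJ := k9
    linarith
  · exact hGm
  · intro j hj
    have hj1 : 1 ≤ j := by omega
    show Phi D.q j Rn (D.Ow OL (g + 1)) (G' ++ Gl) (J' ++ Jl) ≤ _
    rw [← hOl]
    have h2 := hpotn j hj
    have h3 := PC_le hq (j := j) G' (fun x hx => (k5 x hx).1.le)
    have h4 := PC_le hq (j := j) J' (fun x hx => (k8 x hx).1.le)
    have h5 : msum J' ≤ (D.F g).mJ := k9
    have hC := chC_pos
    have h6 := mul_le_mul_of_nonneg_left k7 hC.le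
    have h7 := mul_le_mul_of_nonneg_left k10 hC.le
    have e : Phi D.q j Rn Ol (G' ++ Gl) (J' ++ Jl) = Phi D.q j Rn Ol Gl Jl + PC D.q j G' +
        PC D.q j J' + 6 * msum J' := by
      unfold Phi
      simp only [PC_append, msum_append]
      ring
    have e2 : D.inc g j = D.inc1 g j + (chC * ((D.F g).tG + (D.F g).tJ) + 6 * (D.F g).mJ) := rfl
    rw [e, Finset.sum_range_succ, e2]
    linarith

/-- **THE TAIL**: from a good state at the start of the tail everything is packed perfectly. -/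
theorem tail (h1 : D.Ok1) (hL : D.Ledger) {aB δ : ℕ → ℝ} (ha : ArOk D aB δ) (hO : D.OT OL)
    (hW : 0 < W) (hH : 0 < H)
    (hWH : W * H = ∑' n : ℕ, sd (n + 1) ^ 2) {s : St} (h : Inv D OL W H 0 s) :
    ∃ p : ℕ → ℝ × ℝ, (∀ n, 1 ≤ n → (LibMoser5.sq n (p n)).Inside W H) ∧
      (∀ m n, 1 ≤ m → 1 ≤ n → m ≠ n → (LibMoser5.sq m (p m)).Sep (LibMoser5.sq n (p n))) := by
  have hall : ∀ g, ∃ s', Inv D OL W H g s' := by
    intro g
    induction g with
    | zero => exact ⟨s, h⟩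
    | succ g ih =>
      obtain ⟨s', hs'⟩ := ih
      exact step h1 hL ha hO hW hH hWH hs'
  apply assemble hW hH
  intro M
  have hq : 0 < D.q := TD.q_pos h1
  have hq8 := TD.q_le h1
  -- a late frame
  obtain ⟨l, hl⟩ := exists_nat_gt (8192 * ((M : ℝ) + 1))
  obtain ⟨g, hg⟩ := LibMoserT.fl_unbounded h1.l1 (l + 64)
  have hlg : l ≤ D.fl g - 64 := by
    have : l + 64 ≤ D.fl g := hg
    omega
  obtain ⟨s', hs'⟩ := hall g
  have hM0 : (0 : ℝ) ≤ M := Nat.cast_nonneg M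
  have hl1 : (1 : ℝ) ≤ l := by linarith
  have hl1' : 1 ≤ l := by exact_mod_cast hl1
  -- side of the pending squares
  have hside : ∀ n ∈ s'.U, sd n ≤ th D.q l := by
    intro n hn
    refine (hs'.pd.side n hn).trans ?_
    show th ((D.F g).qn : ℝ) ((D.F g).l - (D.F g).x) ≤ _
    rw [h1.Fl g, h1.Fq g]
    have := (h1.Fok g).x64
    exact th_anti hq (by omega) (by omega)
  have hthl : th D.q l < sd M := by
    unfold th sd
    rw [div_lt_div_iff₀ (by positivity) (by positivity)]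
    have h2 : (l : ℝ) ≤ (l : ℝ) ^ 3 := by
      have : (l : ℝ) * 1 ≤ l * (l : ℝ) ^ 2 := mul_le_mul_of_nonneg_left (by nlinarith) (by linarith)
      nlinarith
    nlinarith
  have hMbg : M < D.bg g := by
    by_contra hcon
    push Not at hcon
    have h2 : sd M ≤ sd (D.bg g) := by
      unfold sd
      have h3 : ((D.bg g : ℕ) : ℝ) ≤ M := by exact_mod_cast hcon
      exact div_le_div_of_nonneg_left (by norm_num) (by positivity) (by linarith)
    have h4 : sd (D.bg g) ≤ th D.q (D.fl g) := by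
      have h5 : ix D.q (D.fl g) ≤ D.bg g := by
        unfold TD.bg
        split_ifs with hg0
        · rw [hg0]; exact h1.n1
        · exact le_rfl
      have hfl := TD.fl_ge h1 g
      exact (ix_le_iff hq (by omega)).1 h5
    have h5 : th D.q (D.fl g) ≤ th D.q l := th_anti hq (by omega) (by omega)
    linarith
  refine ⟨_, s'.P, hs'.pt, ?_⟩
  intro n hn hnM
  have h2 : n ∈ s'.P ∪ s'.U := by
    rw [hs'.un, Finset.mem_Ico]
    omega
  rcases Finset.mem_union.1 h2 with h3 | h3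
  · exact h3
  · exfalso
    have h4 := hside n h3
    have h5 : sd M ≤ sd n := by
      unfold sd
      have h3 : (n : ℝ) ≤ M := by exact_mod_cast hnM.le
      exact div_le_div_of_nonneg_left (by norm_num) (by positivity) (by linarith)
    linarith

end

end Pool.Agent.LibMoserT
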