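import Pool.Agent.LibMoserT.LedOS
import Pool.Agent.LibMoserT.FatChoice
import Pool.Agent.LibMoserT.Step
set_option autoImplicit false
/-!
# The area conditions for the concrete data
-/
namespace Pool.Agent.LibMoserT
open Pool.Agent.LibMoser5 Pool.Agent.LibMoserF Classical

noncomputable section

variable {T : OTab} {a lam : ℕ → ℝ} {mJ0 Sp : ℝ}

/-- first squares of the frames -/
def bgc (g : ℕ) : ℕ := if g = 0 then N41 else (fl 8192 g) ^ 3 / 2048

theorem bgc_eq (g : ℕ) : (D41 T a lam mJ0 Sp).bg g = bgc g := by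
  unfold TD.bg bgc
  by_cases h : g = 0
  · rw [if_pos h, if_pos h]
    rfl
  · rw [if_neg h, if_neg h, D41_q]
    exact ix_fl g

theorem bgc_bgn {g : ℕ} (hg : g ≤ 567) : bgc g = bgn g := by
  unfold bgc bgn
  rcases Nat.eq_zero_or_pos g with rfl | h
  · rfl
  · have hb : Nat.beq g 0 = false := by
      rw [← Bool.not_eq_true]
      intro h1
      have := Nat.eq_of_beq_eq_true h1
      omega
    rw [if_neg (by omega), hb, cond_false, fT_eq g hg]

theorem bgc_real {g : ℕ} (hg : 1 ≤ g) : (bgc g : ℝ) = (fl 8192 g : ℝ) ^ 3 / 2048 := by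
  obtain ⟨m, hm⟩ := fl8_dvd g
  have e : fl 8192 g ^ 3 = 2048 * (16 * m ^ 3) := by rw [hm]; ring
  unfold bgc
  rw [if_neg (by omega), e, Nat.mul_div_cancel_left _ (by norm_num)]
  have e3 : ((fl 8192 g : ℕ) : ℝ) ^ 3 = 2048 * ((16 * m ^ 3 : ℕ) : ℝ) := by exact_mod_cast e
  rw [e3, mul_div_assoc, mul_div_cancel₀]
  norm_num

/-- bounds for the area of the waiting rows -/
def aBc (g : ℕ) : ℝ :=
  if g < 54 then 37 / 60 * (1 / (bgc g : ℝ)) + 37 / 120 * (1 / (bgc 54 : ℝ))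
  else 37 / 40 * (1 / (bgc g : ℝ))

theorem fl_53 : fl 8192 53 < 40000 := by
  rw [← fT_eq 53 (by norm_num)]
  decide +kernel

theorem fl_54 : 40000 ≤ fl 8192 54 := by
  rw [← fT_eq 54 (by norm_num)]
  decide +kernel

theorem fl_lt54 {g : ℕ} (h : g < 54) : fl 8192 g < 40000 :=
  lt_of_le_of_lt (fl8_mono (by omega)) fl_53

theorem fl_ge54 {g : ℕ} (h : 54 ≤ g) : 40000 ≤ fl 8192 g :=
  fl_54.trans (fl8_mono h)

theorem aBc_nn (g : ℕ) : 0 ≤ aBc g := by
  unfold aBc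
  split_ifs <;> positivity

theorem aBc_le {g : ℕ} (h : g ≤ 54) :
    aBc g = 37 / 60 * (1 / (bgc g : ℝ)) + 37 / 120 * (1 / (bgc 54 : ℝ)) := by
  unfold aBc
  rcases Nat.lt_or_ge g 54 with h1 | h1
  · rw [if_pos h1]
  · have : g = 54 := by omega
    subst this
    rw [if_neg (by omega)]
    ring

theorem aBc_ge {g : ℕ} (h : 54 ≤ g) : aBc g = 37 / 40 * (1 / (bgc g : ℝ)) := by
  unfold aBc
  rw [if_neg (by omega)]

theorem aBc_st (g : ℕ) : (1 + 1 / 36) * (1 - (F41 g).s) *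
    (1 / (bgc g : ℝ) - 1 / (bgc (g + 1) : ℝ)) + aBc (g + 1) ≤ aBc g := by
  have e : (F41 g).s = zs (fl 8192 g) := rfl
  rw [e]
  unfold zs
  rcases Nat.lt_or_ge g 54 with h | h
  · rw [if_pos (fl_lt54 h), aBc_le (by omega), aBc_le (by omega)]
    linarith
  · rw [if_neg (by have := fl_ge54 h; omega), aBc_ge (by omega), aBc_ge h]
    linarith

/-! ### late frames -/

theorem ar_real2 {l l1 t J : ℝ} (hl : 40000 ≤ l) (h1 : l ≤ l1) (h2 : 32 * l1 ≤ 33 * l)
    (ht : t ≤ 20 / 2217 * l ^ 2 + 1 / 64 * l) (hJ : J ≤ 19 / 10000) :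
    37 / 40 * (2048 / l1 ^ 3) + 2048 / (l - 64) ^ 3 * J + 24 / 375 * (2048 / l1 ^ 3) +
      1 / 20 * (t * (2048 / (l - 64) ^ 3) ^ 2 + (2048 / l ^ 3 - 2048 / l1 ^ 3)) ≤
      2 / (2 * (l1 ^ 3 / 2048) + 1) := by
  have hl0 : 0 < l := by linarith
  have hl1 : 0 < l1 := by linarith
  have hl64 : 0 < l - 64 := by linarith
  obtain ⟨X, hX⟩ : ∃ X, X = 2048 / l1 ^ 3 := ⟨_, rfl⟩
  obtain ⟨c, hc⟩ : ∃ c, c = 2048 / l ^ 3 := ⟨_, rfl⟩
  obtain ⟨S, hS⟩ : ∃ S, S = 2048 / (l - 64) ^ 3 := ⟨_, rfl⟩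
  rw [← hX, ← hc, ← hS]
  have hX0 : 0 < X := by rw [hX]; positivity
  have hc0 : 0 < c := by rw [hc]; positivity
  have hS0 : 0 < S := by rw [hS]; positivity
  have hcX : c ≤ 35937 / 32768 * X := by
    rw [hc, hX, mul_div_assoc', div_le_div_iff₀ (by positivity) (by positivity)]
    have h3 : (32 * l1) ^ 3 ≤ (33 * l) ^ 3 := pow_le_pow_left₀ (by positivity) h2 3
    rw [mul_pow, mul_pow] at h3
    norm_num at h3
    linarith
  have hSc : S ≤ 100483 / 100000 * c := by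
    rw [hc, hS, mul_div_assoc', div_le_div_iff₀ (by positivity) (by positivity)]
    have h3 : 39936 / 40000 * l ≤ l - 64 := by linarith
    have h4 : (39936 / 40000 * l) ^ 3 ≤ (l - 64) ^ 3 := pow_le_pow_left₀ (by positivity) h3 3
    rw [mul_pow] at h4
    norm_num at h4
    have h5 : 0 < l ^ 3 := by positivity
    linarith
  have htS : t * S ≤ 5 / 10000 := by
    have h3 : t * S ≤ (20 / 2217 * l ^ 2 + 1 / 64 * l) * (100483 / 100000 * c) :=
      mul_le_mul ht hSc hS0.le (by positivity)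
    refine h3.trans ?_
    have e : (20 / 2217 * l ^ 2 + 1 / 64 * l) * (100483 / 100000 * c) =
        100483 / 100000 * (20 / 2217 * 2048 / l + 1 / 64 * 2048 / l ^ 2) := by
      rw [hc]
      field_simp
    rw [e]
    have h4 : 20 / 2217 * 2048 / l ≤ 20 / 2217 * 2048 / 40000 :=
      div_le_div_of_nonneg_left (by norm_num) (by norm_num) hl
    have h5 : 1 / 64 * 2048 / l ^ 2 ≤ 1 / 64 * 2048 / 40000 ^ 2 :=
      div_le_div_of_nonneg_left (by norm_num) (by norm_num) (pow_le_pow_left₀ (by norm_num) hl 2)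
    norm_num at h4 h5 ⊢
    linarith
  have ht2 : t * S ^ 2 ≤ 5 / 10000 * S := by
    have : t * S ^ 2 = t * S * S := by ring
    rw [this]
    exact mul_le_mul_of_nonneg_right htS hS0.le
  have hSJ : S * J ≤ S * (19 / 10000) := mul_le_mul_of_nonneg_left hJ hS0.le
  have hR : 9999 / 10000 * X ≤ 2 / (2 * (l1 ^ 3 / 2048) + 1) := by
    have h3 : (40000 : ℝ) ^ 3 ≤ l1 ^ 3 := pow_le_pow_left₀ (by norm_num) (by linarith) 3
    norm_num at h3
    rw [hX, mul_div_assoc', div_le_div_iff₀ (by positivity) (by positivity)]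
    linarith
  refine le_trans ?_ hR
  linarith

/-! ### the first frames -/

/-- check of frame `g < 54` -/
def chkAr (g : ℕ) : Bool :=
  Nat.ble (17 * 2 ^ 120 / (30 * bgn (g + 1)) + 37 * 2 ^ 120 / (120 * bgn 54) +
    2 ^ 120 / (20 * bgn g) + 19 * 2048 * 2 ^ 120 / (10000 * (fT g - 64) ^ 3) +
    24 * 2048 * 2 ^ 120 / (5 * (bif Nat.blt (fT g) 24500 then 16 else bif Nat.blt (fT g) 32500 then
      24 else bif Nat.blt (fT g) 37000 then 40 else 75) * fT (g + 1) ^ 3) +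
    (20 * fT g ^ 2 / 2217 + fT g / 64 + 2) * 2048 ^ 2 * 2 ^ 120 / (20 * (fT g - 24) ^ 6) + 6)
    (2 * 2 ^ 120 / (2 * bgn (g + 1) + 1)) &&
  Nat.blt 0 (bgn (g + 1)) && Nat.blt 0 (bgn g) && Nat.blt 0 (bgn 54) && Nat.blt 64 (fT g) &&
  Nat.blt 0 (fT (g + 1))

theorem chkAr_ok : allF chkAr 6 0 54 = true := by decide +kernel

theorem div_lt_add (x y : ℕ) (hy : 0 < y) : (x : ℝ) / y ≤ ((x / y : ℕ) : ℝ) + 1 := by
  have h1 : x < y * (x / y + 1) := Nat.lt_mul_div_succ x hy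
  have h2 : (0 : ℝ) < y := by exact_mod_cast hy
  rw [div_le_iff₀ h2]
  have h3 : (x : ℝ) < y * ((x / y : ℕ) + 1) := by exact_mod_cast h1
  linarith

theorem ar_first {g : ℕ} (hg : g < 54) {J : ℝ} (hJ : J ≤ 19 / 10000) :
    37 / 60 * (1 / (bgc (g + 1) : ℝ)) + 37 / 120 * (1 / (bgc 54 : ℝ)) +
      th 2048 (fl 8192 g - 64) * J + (F41 g).AR +
      1 / 20 * ((F41 g).thr * (F41 g).S ^ 2 + (1 / (bgc g : ℝ) - 1 / (bgc (g + 1) : ℝ))) ≤
      sd (bgc (g + 1)) := by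
  have h := allF_spec _ _ _ _ (by norm_num) chkAr_ok g (Nat.zero_le _) (by omega)
  unfold chkAr at h
  simp only [Bool.and_eq_true] at h
  obtain ⟨⟨⟨⟨⟨h1, h2⟩, h3⟩, h4⟩, h5⟩, h6⟩ := h
  have h1 := Nat.le_of_ble_eq_true h1
  have h2 : 0 < bgn (g + 1) := Nat.le_of_ble_eq_true h2
  have h3 : 0 < bgn g := Nat.le_of_ble_eq_true h3
  have h4 : 0 < bgn 54 := Nat.le_of_ble_eq_true h4
  have h5 : 64 < fT g := Nat.le_of_ble_eq_true h5
  have h6 : 0 < fT (g + 1) := Nat.le_of_ble_eq_true h6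
  have hF : (F41 g) = FPc (fl 8192 g) (fl 8192 (g + 1)) := rfl
  have hlt := fl_lt54 hg
  have hge : 8192 ≤ fl 8192 g := by have := fl8_ge g; omega
  have hthr := FPc_thr (l1 := fl 8192 (g + 1)) hge
  rw [← hF] at hthr
  have eS : (F41 g).S = 2048 / ((fl 8192 g - 24 : ℕ) : ℝ) ^ 3 := by
    show th ((2048 : ℕ) : ℝ) (fl 8192 g - (if fl 8192 g < 40000 then 24 else 64)) = _
    rw [if_pos hlt]
    unfold th
    norm_num
  have eA : (F41 g).AR = 24 / (5 * ((zrd (fl 8192 g) : ℕ) : ℝ)) *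
      (2048 / (fl 8192 (g + 1) : ℝ) ^ 3) := by
    show 24 / (5 * ((zrd (fl 8192 g) : ℕ) : ℝ)) * th ((2048 : ℕ) : ℝ) (fl 8192 (g + 1)) = _
    unfold th
    norm_num
  have erd : (bif Nat.blt (fT g) 24500 then 16 else bif Nat.blt (fT g) 32500 then
      24 else bif Nat.blt (fT g) 37000 then 40 else 75) = zrd (fT g) := by
    unfold zrd
    have hb : ∀ (m n u v : ℕ), (bif Nat.blt m n then u else v) = if m < n then u else v := by
      intro m n u v
      by_cases h : m < n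
      · rw [if_pos h, show Nat.blt m n = true from Nat.ble_eq_true_of_le h]
        rfl
      · rw [if_neg h]
        have : Nat.blt m n = false := by
          rw [← Bool.not_eq_true]
          intro h'
          exact h (Nat.le_of_ble_eq_true h')
        rw [this]
        rfl
    rw [hb, hb, hb]
  rw [erd] at h1
  rw [fT_eq g (by omega), fT_eq (g + 1) (by omega), ← bgc_bgn (g := g + 1) (by omega),
    ← bgc_bgn (g := g) (by omega), ← bgc_bgn (g := 54) (by omega)] at h1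
  rw [← bgc_bgn (g := g + 1) (by omega)] at h2
  rw [← bgc_bgn (g := g) (by omega)] at h3
  rw [← bgc_bgn (g := 54) (by omega)] at h4
  rw [fT_eq g (by omega)] at h5
  rw [fT_eq (g + 1) (by omega)] at h6
  rw [eS, eA]
  have hrd : 0 < zrd (fl 8192 g) := by
    unfold zrd
    split_ifs <;> norm_num
  obtain ⟨V, hV⟩ : ∃ V : ℕ, V = 2 ^ 120 := ⟨_, rfl⟩
  rw [← hV] at h1
  have hV0 : 0 < V := by rw [hV]; positivity
  obtain ⟨W, hW⟩ : ∃ W : ℝ, W = (V : ℝ) := ⟨_, rfl⟩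
  have hW0 : 0 < W := by rw [hW]; exact_mod_cast hV0
  clear hV
  generalize zrd (fl 8192 g) = rd at *
  generalize fl 8192 g = l at *
  generalize fl 8192 (g + 1) = l1 at *
  generalize bgc (g + 1) = b1 at *
  generalize bgc g = b0 at *
  generalize bgc 54 = b54 at *
  generalize (F41 g).thr = t at *
  have r1 : (0 : ℝ) < b1 := by exact_mod_cast h2
  have r0 : (0 : ℝ) < b0 := by exact_mod_cast h3
  have r5 : (0 : ℝ) < b54 := by exact_mod_cast h4
  have rl1 : (0 : ℝ) < l1 := by exact_mod_cast h6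
  have rrd : (0 : ℝ) < rd := by exact_mod_cast hrd
  have hp64 : 0 < (l - 64 : ℕ) := by omega
  have hp24 : 0 < (l - 24 : ℕ) := by omega
  have r64 : (0 : ℝ) < (l - 64 : ℕ) := by exact_mod_cast hp64
  have r24 : (0 : ℝ) < (l - 24 : ℕ) := by exact_mod_cast hp24
  obtain ⟨m64, hm64⟩ : ∃ m, m = l - 64 := ⟨_, rfl⟩
  obtain ⟨m24, hm24⟩ : ∃ m, m = l - 24 := ⟨_, rfl⟩
  obtain ⟨tt, htt⟩ : ∃ m, m = 20 * l ^ 2 / 2217 + l / 64 + 2 := ⟨_, rfl⟩
  rw [← hm64] at r64 hp64 h1 ⊢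
  rw [← hm24] at r24 hp24 h1 ⊢
  rw [← htt] at h1
  have d1 := div_lt_add (17 * V) (30 * b1) (by positivity)
  have d2 := div_lt_add (37 * V) (120 * b54) (by positivity)
  have d3 := div_lt_add (V) (20 * b0) (by positivity)
  have d4 := div_lt_add (19 * 2048 * V) (10000 * m64 ^ 3) (by positivity)
  have d5 := div_lt_add (24 * 2048 * V) (5 * rd * l1 ^ 3) (by positivity)
  have d6 := div_lt_add (tt * 2048 ^ 2 * V) (20 * m24 ^ 6) (by positivity)
  have d7 : ((2 * V / (2 * b1 + 1) : ℕ) : ℝ) ≤ ((2 * V : ℕ) : ℝ) / ((2 * b1 + 1 : ℕ) : ℝ) :=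
    Nat.cast_div_le
  have ht : (t : ℝ) ≤ (tt : ℝ) := by
    rw [htt]
    have e1 := div_lt_add (20 * l ^ 2) 2217 (by norm_num)
    have e2 := div_lt_add l 64 (by norm_num)
    push_cast at e1 e2 ⊢
    linarith
  have h1' : (((17 * V / (30 * b1) : ℕ) : ℝ) + ((37 * V / (120 * b54) : ℕ) : ℝ) +
    ((V / (20 * b0) : ℕ) : ℝ) + ((19 * 2048 * V / (10000 * m64 ^ 3) : ℕ) : ℝ) +
    ((24 * 2048 * V / (5 * rd * l1 ^ 3) : ℕ) : ℝ) +
    ((tt * 2048 ^ 2 * V / (20 * m24 ^ 6) : ℕ) : ℝ) + 6) ≤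
    ((2 * V / (2 * b1 + 1) : ℕ) : ℝ) := by exact_mod_cast h1
  have D1 : W * (17 / 30 * (1 / (b1 : ℝ))) ≤ ((17 * V / (30 * b1) : ℕ) : ℝ) + 1 := by
    refine le_trans (le_of_eq ?_) d1
    rw [hW]
    push_cast
    field_simp
  have D2 : W * (37 / 120 * (1 / (b54 : ℝ))) ≤ ((37 * V / (120 * b54) : ℕ) : ℝ) + 1 := by
    refine le_trans (le_of_eq ?_) d2
    rw [hW]
    push_cast
    field_simp
  have D3 : W * (1 / 20 * (1 / (b0 : ℝ))) ≤ ((V / (20 * b0) : ℕ) : ℝ) + 1 := by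
    refine le_trans (le_of_eq ?_) d3
    rw [hW]
    push_cast
    field_simp
  have D4 : W * (2048 / (m64 : ℝ) ^ 3 * (19 / 10000)) ≤ ((19 * 2048 * V / (10000 * m64 ^ 3) : ℕ) : ℝ) + 1 := by
    refine le_trans (le_of_eq ?_) d4
    rw [hW]
    push_cast
    field_simp
    norm_num
  have D5 : W * (24 / (5 * (rd : ℝ)) * (2048 / (l1 : ℝ) ^ 3)) ≤ ((24 * 2048 * V / (5 * rd * l1 ^ 3) : ℕ) : ℝ) + 1 := by
    refine le_trans (le_of_eq ?_) d5
    rw [hW]
    push_cast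
    field_simp
    norm_num
  have D6 : W * (1 / 20 * ((tt : ℝ) * (2048 / (m24 : ℝ) ^ 3) ^ 2)) ≤ ((tt * 2048 ^ 2 * V / (20 * m24 ^ 6) : ℕ) : ℝ) + 1 := by
    refine le_trans (le_of_eq ?_) d6
    rw [hW]
    push_cast
    field_simp
    norm_num
  have D7 : ((2 * V / (2 * b1 + 1) : ℕ) : ℝ) ≤ W * sd b1 := by
    refine d7.trans (le_of_eq ?_)
    unfold sd
    rw [hW]
    push_cast
    field_simp
  have eth : th 2048 m64 = 2048 / (m64 : ℝ) ^ 3 := rfl
  rw [eth]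
  have E4 : W * (2048 / (m64 : ℝ) ^ 3 * J) ≤ W * (2048 / (m64 : ℝ) ^ 3 * (19 / 10000)) :=
    mul_le_mul_of_nonneg_left (mul_le_mul_of_nonneg_left hJ (by positivity)) hW0.le
  have E6 : W * (1 / 20 * ((t : ℝ) * (2048 / (m24 : ℝ) ^ 3) ^ 2)) ≤
      W * (1 / 20 * ((tt : ℝ) * (2048 / (m24 : ℝ) ^ 3) ^ 2)) :=
    mul_le_mul_of_nonneg_left (mul_le_mul_of_nonneg_left
      (mul_le_mul_of_nonneg_right ht (by positivity)) (by norm_num)) hW0.le
  refine le_of_mul_le_mul_left ?_ hW0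
  linarith

/-- the area conditions hold -/
theorem arOk_D41 (h1 : (D41 T a lam mJ0 Sp).Ok1) (hm : mJ0 ≤ 1 / 5000) :
    ArOk (D41 T a lam mJ0 Sp) aBc (fun _ => 1 / 36) where
  B := {
    nn := aBc_nn
    d0 := fun _ => by norm_num
    thin := fun g => TD.srcs_thin h1 g
    st := fun g => by
      rw [bgc_eq, bgc_eq]
      exact aBc_st g }
  ar := fun g => by
    rw [bgc_eq, bgc_eq, D41_q]
    show aBc (g + 1) + th 2048 (fl 8192 g - 64) * (17 / 10000 + mJ0) + (F41 g).AR +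
      1 / 20 * ((F41 g).thr * (F41 g).S ^ 2 + (1 / (bgc g : ℝ) - 1 / (bgc (g + 1) : ℝ))) ≤
      sd (bgc (g + 1))
    have hJ : 17 / 10000 + mJ0 ≤ 19 / 10000 := by linarith
    rcases Nat.lt_or_ge g 54 with h | h
    · rw [aBc_le (by omega)]
      exact ar_first h hJ
    · have hl := fl_ge54 h
      have hge : 8192 ≤ fl 8192 g := by omega
      have hthr := FPc_thr (l1 := fl 8192 (g + 1)) hge
      have hup := fl8_upper g
      have hle := fl8_mono (Nat.le_succ g)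
      have eS : (F41 g).S = 2048 / ((fl 8192 g : ℝ) - 64) ^ 3 := by
        show th ((2048 : ℕ) : ℝ) (fl 8192 g - (if fl 8192 g < 40000 then 24 else 64)) = _
        rw [if_neg (by omega)]
        unfold th
        rw [Nat.cast_sub (by omega)]
        norm_num
      have eth : th 2048 (fl 8192 g - 64) = 2048 / ((fl 8192 g : ℝ) - 64) ^ 3 := by
        unfold th
        rw [Nat.cast_sub (by omega)]
        norm_num
      have eA : (F41 g).AR = 24 / 375 * (2048 / (fl 8192 (g + 1) : ℝ) ^ 3) := by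
        show 24 / (5 * ((zrd (fl 8192 g) : ℕ) : ℝ)) * th ((2048 : ℕ) : ℝ) (fl 8192 (g + 1)) = _
        unfold zrd th
        rw [if_neg (by omega), if_neg (by omega), if_neg (by omega)]
        norm_num
      rw [aBc_ge (by omega), eS, eth, eA, bgc_real (by omega), bgc_real (by omega)]
      have key := ar_real2 (l := (fl 8192 g : ℝ)) (l1 := (fl 8192 (g + 1) : ℝ))
        (t := ((F41 g).thr : ℝ)) (J := 17 / 10000 + mJ0) (by exact_mod_cast hl)
        (by exact_mod_cast hle) (by exact_mod_cast hup) hthr hJ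
      have e1 : ∀ x : ℝ, 1 / (x ^ 3 / 2048) = 2048 / x ^ 3 := fun x => by rw [one_div_div]
      rw [e1, e1]
      have e2 : sd (bgc (g + 1)) = 2 / (2 * ((fl 8192 (g + 1) : ℝ) ^ 3 / 2048) + 1) := by
        unfold sd
        rw [bgc_real (by omega)]
        have : (0 : ℝ) ≤ (fl 8192 (g + 1) : ℝ) ^ 3 / 2048 := by positivity
        rw [div_eq_div_iff (by linarith) (by linarith)]
        ring
      rw [e2]
      exact key

end

end Pool.Agent.LibMoserT
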