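import Pool.Agent.LibMoser5.Defs
import Mathlib.Analysis.Normed.Affine.MazurUlam
import Mathlib.MeasureTheory.Measure.Haar.InnerProductSpace
import Mathlib.NumberTheory.ZetaValues
set_option autoImplicit false
/-!
# From a perfect packing of the squares of side `1/(n+1/2)` to Moser's problem
-/
namespace Pool.Agent.LibMoserT.Final
open Pool.Agent.LibMoser5 MeasureTheory

noncomputable section

/-- the plane -/
abbrev Pl := EuclideanSpace ℝ (Fin 2)

/-- the closed rectangle `[0,W] × [0,H]` -/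
def Rect (W H : ℝ) : Set Pl := {x | 0 ≤ x 0 ∧ x 0 ≤ W ∧ 0 ≤ x 1 ∧ x 1 ≤ H}

/-- the closed square of side `1/(2n+1)` -/
def Sq (n : ℕ) : Set Pl := Rect (1 / (2 * (n : ℝ) + 1)) (1 / (2 * (n : ℝ) + 1))

/-- a packing of the squares `Sq n`, `n ≥ 1`: isometric copies with disjoint interiors in the
rectangle -/
def Packs (W H : ℝ) : Prop := ∃ f : ℕ → Pl ≃ᵢ Pl,
  (∀ n, 1 ≤ n → f n '' Sq n ⊆ Rect W H) ∧
  ∀ m n, 1 ≤ m → 1 ≤ n → m ≠ n → Disjoint (interior (f m '' Sq m)) (interior (f n '' Sq n))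

theorem hasSum_odd : HasSum (fun n : ℕ => (1 / (2 * ((n + 1 : ℕ) : ℝ) + 1)) ^ 2)
    (Real.pi ^ 2 / 8 - 1) := by
  have h1 := hasSum_zeta_two
  have he : HasSum (fun k : ℕ => (1 : ℝ) / ((2 * k : ℕ) : ℝ) ^ 2) (1 / 4 * (Real.pi ^ 2 / 6)) := by
    have h2 := h1.mul_left (1 / 4 : ℝ)
    refine h2.congr_fun ?_ |> fun h => h
    intro k
    push_cast
    by_cases hk : (k : ℝ) = 0
    · rw [hk]; norm_num
    · field_simp
      norm_num
  have hs : Summable (fun k : ℕ => (1 : ℝ) / ((2 * k + 1 : ℕ) : ℝ) ^ 2) := by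
    have h3 : Summable (fun n : ℕ => (1 : ℝ) / (n : ℝ) ^ 2) := h1.summable
    exact h3.comp_injective (i := fun k : ℕ => 2 * k + 1) (fun a b h => by
      simp only at h
      omega)
  obtain ⟨o, ho⟩ := hs
  have h4 := HasSum.even_add_odd (f := fun n : ℕ => (1 : ℝ) / (n : ℝ) ^ 2) he ho
  have h5 := h4.unique h1
  have h6 : o = Real.pi ^ 2 / 8 := by linarith
  rw [h6] at ho
  have h7 := (hasSum_nat_add_iff' 1).2 ho
  simp only [Finset.range_one, Finset.sum_singleton] at h7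
  have e1 : (fun n : ℕ => (1 : ℝ) / ((2 * (n + 1) + 1 : ℕ) : ℝ) ^ 2) =
      fun n : ℕ => (1 / (2 * ((n + 1 : ℕ) : ℝ) + 1)) ^ 2 := by
    funext n
    push_cast
    rw [div_pow, one_pow]
  rw [e1] at h7
  have e2 : Real.pi ^ 2 / 8 - 1 / ((2 * 0 + 1 : ℕ) : ℝ) ^ 2 = Real.pi ^ 2 / 8 - 1 := by norm_num
  rw [e2] at h7
  exact h7

theorem volume_rect {W H : ℝ} (hW : 0 ≤ W) :
    volume (Rect W H) = ENNReal.ofReal (W * H) := by
  have h1 := (PiLp.volume_preserving_ofLp (Fin 2)).measure_preimage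
    (measurableSet_Icc (a := ![0, 0]) (b := ![W, H])).nullMeasurableSet
  have h2 : (WithLp.ofLp : Pl → (Fin 2 → ℝ)) ⁻¹' Set.Icc ![0, 0] ![W, H] = Rect W H := by
    ext x
    simp only [Rect, Set.mem_preimage, Set.mem_Icc, Set.mem_ofPred_eq, Pi.le_def, Fin.forall_fin_two]
    simp
    tauto
  rw [h2] at h1
  rw [h1, Real.volume_Icc_pi, Fin.prod_univ_two]
  simp only [Matrix.cons_val_zero, Matrix.cons_val_one, sub_zero]
  rw [ENNReal.ofReal_mul hW]

/-- the open rectangle -/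
def ORect (W H : ℝ) : Set Pl := {x | 0 < x 0 ∧ x 0 < W ∧ 0 < x 1 ∧ x 1 < H}

theorem volume_orect {W H : ℝ} (hW : 0 ≤ W) :
    volume (ORect W H) = ENNReal.ofReal (W * H) := by
  have h1 := (PiLp.volume_preserving_ofLp (Fin 2)).measure_preimage
    (MeasurableSet.univ_pi (fun i : Fin 2 => measurableSet_Ioo (a := (![0, 0] : Fin 2 → ℝ) i)
      (b := (![W, H] : Fin 2 → ℝ) i))).nullMeasurableSet
  have h2 : (WithLp.ofLp : Pl → (Fin 2 → ℝ)) ⁻¹' (Set.univ.pi fun i : Fin 2 =>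
      Set.Ioo ((![0, 0] : Fin 2 → ℝ) i) ((![W, H] : Fin 2 → ℝ) i)) = ORect W H := by
    ext x
    simp only [ORect, Set.mem_preimage, Set.mem_pi, Set.mem_univ, true_implies, Set.mem_Ioo,
      Set.mem_ofPred_eq, Fin.forall_fin_two]
    simp
    tauto
  rw [h2] at h1
  rw [h1, Real.volume_pi_Ioo, Fin.prod_univ_two]
  simp only [Matrix.cons_val_zero, Matrix.cons_val_one, sub_zero]
  rw [ENNReal.ofReal_mul hW]

theorem isOpen_orect (W H : ℝ) : IsOpen (ORect W H) := by
  have h0 : Continuous (fun x : Pl => x 0) := by fun_prop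
  have h1 : Continuous (fun x : Pl => x 1) := by fun_prop
  unfold ORect
  exact (isOpen_lt continuous_const h0).inter ((isOpen_lt h0 continuous_const).inter
    ((isOpen_lt continuous_const h1).inter (isOpen_lt h1 continuous_const)))

theorem volume_image (f : Pl ≃ᵢ Pl) (S : Set Pl) : volume (f '' S) = volume S := by
  have h1 : ∀ x, f x = f.toRealLinearIsometryEquiv x + f 0 := by
    intro x
    rw [IsometryEquiv.toRealLinearIsometryEquiv_apply]
    simp
  have h2 : f '' S = (fun x => x + f 0) '' (f.toRealLinearIsometryEquiv '' S) := by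
    rw [Set.image_image]
    apply Set.image_congr
    intro x _
    exact h1 x
  rw [h2, Set.image_add_right, measure_preimage_add_right]
  have h4 : f.toRealLinearIsometryEquiv '' S = f.toRealLinearIsometryEquiv.symm ⁻¹' S :=
    f.toRealLinearIsometryEquiv.toEquiv.image_eq_preimage_symm S
  rw [h4]
  have h5 : MeasurePreserving (f.toRealLinearIsometryEquiv.symm.toHomeomorph.toMeasurableEquiv) :=
    f.toRealLinearIsometryEquiv.symm.measurePreserving
  exact h5.measure_preimage_equiv S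

theorem volume_interior_sq (f : Pl ≃ᵢ Pl) (n : ℕ) :
    ENNReal.ofReal ((1 / (2 * (n : ℝ) + 1)) ^ 2) ≤ volume (interior (f '' Sq n)) := by
  have hs : (0 : ℝ) ≤ 1 / (2 * (n : ℝ) + 1) := by positivity
  have h1 : f '' ORect (1 / (2 * (n : ℝ) + 1)) (1 / (2 * (n : ℝ) + 1)) ⊆ interior (f '' Sq n) := by
    apply interior_maximal
    · apply Set.image_mono
      intro x hx
      exact ⟨hx.1.le, hx.2.1.le, hx.2.2.1.le, hx.2.2.2.le⟩
    · exact f.toHomeomorph.isOpenMap _ (isOpen_orect _ _)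
  refine le_trans (le_of_eq ?_) (measure_mono h1)
  rw [volume_image, volume_orect hs, pow_two]

/-- the area of the rectangle is at least the total area -/
theorem area_ge {W H : ℝ} (hW : 0 < W) (hH : 0 < H) (h : Packs W H) :
    Real.pi ^ 2 / 8 - 1 ≤ W * H := by
  obtain ⟨f, f1, f2⟩ := h
  refine hasSum_le_of_sum_le hasSum_odd (fun s => ?_)
  have h1 : ENNReal.ofReal (∑ i ∈ s, (1 / (2 * ((i + 1 : ℕ) : ℝ) + 1)) ^ 2) ≤
      ENNReal.ofReal (W * H) := by
    rw [ENNReal.ofReal_sum_of_nonneg (fun i _ => by positivity)]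
    calc ∑ i ∈ s, ENNReal.ofReal ((1 / (2 * ((i + 1 : ℕ) : ℝ) + 1)) ^ 2) ≤
        ∑ i ∈ s, volume (interior (f (i + 1) '' Sq (i + 1))) :=
          Finset.sum_le_sum (fun i _ => volume_interior_sq _ _)
      _ = volume (⋃ i ∈ s, interior (f (i + 1) '' Sq (i + 1))) := by
          rw [measure_biUnion_finset]
          · intro i _ j _ hij
            exact f2 (i + 1) (j + 1) (by omega) (by omega) (by omega)
          · intro i _
            exact isOpen_interior.measurableSet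
      _ ≤ volume (Rect W H) := by
          apply measure_mono
          apply Set.iUnion₂_subset
          intro i _
          exact interior_subset.trans (f1 (i + 1) (by omega))
      _ = ENNReal.ofReal (W * H) := volume_rect hW.le
  exact (ENNReal.ofReal_le_ofReal_iff (mul_pos hW hH).le).1 h1

/-- a perfect packing of the scaled family gives a perfect packing of Moser's family -/
theorem packs_of {W H : ℝ} (p : ℕ → ℝ × ℝ)
    (h1 : ∀ n, 1 ≤ n → (LibMoser5.sq n (p n)).Inside W H)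
    (h2 : ∀ m n, 1 ≤ m → 1 ≤ n → m ≠ n → (LibMoser5.sq m (p m)).Sep (LibMoser5.sq n (p n))) :
    ∃ v : ℕ → Pl, (∀ n, 1 ≤ n → (fun x => v n + x) '' Sq n ⊆ Rect (W / 2) (H / 2)) ∧
      ∀ m n, 1 ≤ m → 1 ≤ n → m ≠ n → Disjoint (interior ((fun x => v m + x) '' Sq m))
        (interior ((fun x => v n + x) '' Sq n)) := by
  have hsd : ∀ n : ℕ, sd n = 2 * (1 / (2 * (n : ℝ) + 1)) := by
    intro n
    have : (0 : ℝ) < 2 * (n : ℝ) + 1 := by positivity
    unfold sd
    field_simp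
  have hc0 : ∀ a b : ℝ, (WithLp.toLp 2 ![a, b] : Pl) 0 = a := fun a b => rfl
  have hc1 : ∀ a b : ℝ, (WithLp.toLp 2 ![a, b] : Pl) 1 = b := fun a b => rfl
  -- interior of a translated square
  have hint : ∀ (n : ℕ) (v y : Pl), y ∈ interior ((fun x => v + x) '' Sq n) →
      v 0 < y 0 ∧ y 0 < v 0 + 1 / (2 * (n : ℝ) + 1) ∧ v 1 < y 1 ∧
        y 1 < v 1 + 1 / (2 * (n : ℝ) + 1) := by
    intro n v y hy
    rw [mem_interior_iff_mem_nhds, Metric.mem_nhds_iff] at hy
    obtain ⟨ε, hε, hball⟩ := hy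
    have hmem : ∀ a b : ℝ, a ^ 2 + b ^ 2 < ε ^ 2 →
        (v 0 ≤ y 0 + a ∧ y 0 + a ≤ v 0 + 1 / (2 * (n : ℝ) + 1)) ∧
        (v 1 ≤ y 1 + b ∧ y 1 + b ≤ v 1 + 1 / (2 * (n : ℝ) + 1)) := by
      intro a b hab
      have h3 : y + (WithLp.toLp 2 ![a, b] : Pl) ∈ Metric.ball y ε := by
        rw [Metric.mem_ball, dist_eq_norm, add_sub_cancel_left, EuclideanSpace.norm_eq,
          Fin.sum_univ_two, hc0, hc1, Real.norm_eq_abs, Real.norm_eq_abs, sq_abs, sq_abs]
        exact (Real.sqrt_lt' hε).2 hab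
      obtain ⟨x, hx, hxy⟩ := hball h3
      have e0 : y 0 + a = v 0 + x 0 := by
        have := congrArg (fun z : Pl => z 0) hxy
        simp only [PiLp.add_apply, Matrix.cons_val_zero] at this
        linarith
      have e1 : y 1 + b = v 1 + x 1 := by
        have := congrArg (fun z : Pl => z 1) hxy
        simp only [PiLp.add_apply, Matrix.cons_val_one, Matrix.cons_val_fin_one] at this
        linarith
      obtain ⟨x1, x2, x3, x4⟩ := hx
      exact ⟨⟨by linarith, by linarith⟩, by linarith, by linarith⟩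
    have a1 := (hmem (-(ε / 2)) 0 (by nlinarith)).1.1
    have a2 := (hmem (ε / 2) 0 (by nlinarith)).1.2
    have a3 := (hmem 0 (-(ε / 2)) (by nlinarith)).2.1
    have a4 := (hmem 0 (ε / 2) (by nlinarith)).2.2
    exact ⟨by linarith, by linarith, by linarith, by linarith⟩
  refine ⟨fun n => WithLp.toLp 2 ![(p n).1 / 2, (p n).2 / 2], fun n hn => ?_,
    fun m n hm hn hmn => ?_⟩
  · rintro y ⟨x, ⟨x1, x2, x3, x4⟩, rfl⟩
    obtain ⟨_, _, i3, i4, i5, i6⟩ := h1 n hn
    simp only [LibMoser5.sq, hsd] at i3 i4 i5 i6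
    refine ⟨?_, ?_, ?_, ?_⟩ <;>
      simp only [PiLp.add_apply, Matrix.cons_val_zero, Matrix.cons_val_one] <;> linarith
  · have h := h2 m n hm hn hmn
    rw [Set.disjoint_left]
    intro y hy hy'
    have b := hint m _ y hy
    have b' := hint n _ y hy'
    simp only [Matrix.cons_val_zero, Matrix.cons_val_one] at b b'
    simp only [Box.Sep, LibMoser5.sq, hsd] at h
    rcases h with h | h | h | h <;> linarith [b.1, b.2.1, b.2.2.1, b.2.2.2, b'.1, b'.2.1, b'.2.2.1,
      b'.2.2.2]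

/-- total area of the scaled family -/
theorem tsum_sd : ∑' n : ℕ, sd (n + 1) ^ 2 = Real.pi ^ 2 / 2 - 4 := by
  have h1 := hasSum_odd.mul_left 4
  have h2 : (fun n : ℕ => 4 * (1 / (2 * ((n + 1 : ℕ) : ℝ) + 1)) ^ 2) = fun n : ℕ => sd (n + 1) ^ 2 := by
    funext n
    have : (0 : ℝ) < 2 * ((n : ℝ) + 1) + 1 := by positivity
    unfold sd
    push_cast
    field_simp
    ring
  rw [h2] at h1
  rw [h1.tsum_eq]
  ring

/-- **Moser's problem from a perfect packing of the scaled family** -/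
theorem final {W H : ℝ} (hW : 0 < W) (hH : 0 < H) (hWH : W * H = Real.pi ^ 2 / 2 - 4)
    (h : ∃ p : ℕ → ℝ × ℝ, (∀ n, 1 ≤ n → (LibMoser5.sq n (p n)).Inside W H) ∧
      (∀ m n, 1 ≤ m → 1 ≤ n → m ≠ n → (LibMoser5.sq m (p m)).Sep (LibMoser5.sq n (p n)))) :
    IsLeast {a : ℝ | ∃ W H : ℝ, 0 < W ∧ 0 < H ∧ W * H = a ∧ Packs W H} (Real.pi ^ 2 / 8 - 1) := by
  obtain ⟨p, h1, h2⟩ := h
  obtain ⟨v, v1, v2⟩ := packs_of p h1 h2
  refine ⟨⟨W / 2, H / 2, by linarith, by linarith, by nlinarith, ?_⟩, ?_⟩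
  · exact ⟨fun n => IsometryEquiv.addLeft (v n), v1, v2⟩
  · rintro a ⟨W', H', hW', hH', rfl, hp⟩
    exact area_ge hW' hH' hp

end

end Pool.Agent.LibMoserT.Final
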