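import Pool.Agent.LibMoserT.Step
set_option autoImplicit false
/-!
# The state at the start of the tail, and the final theorem of the tail
-/
namespace Pool.Agent.LibMoserT
open Pool.Agent.LibMoser5 Pool.Agent.LibMoserF Classical

noncomputable section

variable {D : TD} {W H : ℝ} {OL : ℕ → List (ℝ × ℝ)}

/-- what the certificate must give: a perfect packing of the squares `1 ≤ n < N1` with the free
rectangles `FL` (fat), `O0` (rows with a table, given cell by cell), `J0` (dust) -/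
structure Start (D : TD) (OL : ℕ → List (ℝ × ℝ)) (W H : ℝ) (FL J0 : List (ℝ × ℝ)) : Prop where
  pt : PT W H (FL ++ ((List.range D.nO).flatMap OL ++ J0)) (Finset.Ico 1 D.N1)
  fat : Fat (26 / 25) D.NF FL
  Ot : ∀ c, c < D.nO → ∀ x ∈ OL c, D.pmn c < x.1 ∧ x.1 ≤ D.pmx c ∧ 6 / 5 * x.1 ≤ x.2
  Om : ∀ c, c < D.nO → msum (OL c) ≤ D.MO c
  Jt : ∀ x ∈ J0, 0 < x.1 ∧ x.1 ≤ th D.q (D.l0 - 64) ∧ 6 / 5 * x.1 ≤ x.2
  Jm : msum J0 ≤ D.mJ0
  Sp : (((List.range D.nO).flatMap OL).map Prod.fst).sum + (J0.map Prod.fst).sum ≤ D.Sp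

theorem Start.OT {FL J0 : List (ℝ × ℝ)} (hs : Start D OL W H FL J0) : D.OT OL :=
  ⟨hs.Ot, hs.Om⟩

theorem init_inv (h1 : D.Ok1) {FL J0 : List (ℝ × ℝ)} (hs : Start D OL W H FL J0) :
    Inv D OL W H 0 ⟨FL, [], [], J0, Finset.Ico 1 D.N1, ∅⟩ := by
  have hq : 0 < D.q := TD.q_pos h1
  have hfl := TD.fl_ge h1 0
  have hcut : ∀ lo hi : ℝ, msum (cutL lo hi ([] : List (ℝ × ℝ))) = 0 := by
    intro lo hi
    simp [msum, cutL]
  have hbg : D.bg 0 = D.N1 := rfl
  have hOw : D.Ow OL 0 = (List.range D.nO).flatMap OL := by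
    unfold TD.Ow
    rw [h1.fc0, Nat.sub_zero, List.range_eq_range']
  refine ⟨?_, by simp, ?_, Pend.empty _ _ _ _, hs.fat, ?_, ?_, ?_, ?_, ?_⟩
  · rw [hOw]
    simpa using hs.pt
  · rw [hbg]; simp
  · refine ⟨fun _ => rfl, fun _ => rfl, by simp, ?_, by simp, ?_⟩
    · intro k hk
      rw [hcut]
      exact mul_nonneg (h1.A0 k) (om_nonneg hq (by omega))
    · intro h' _ _ i _ _
      rw [hcut]
      exact h1.MG0 h' i
  · exact hs.Jt
  · simpa using hs.Jm
  · intro α β _ _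
    rw [hcut]
    simp
  · intro j hj
    have hO0 : ∀ x ∈ (List.range D.nO).flatMap OL, 0 < x.1 := by
      intro x hx
      rw [← hOw] at hx
      exact (TD.Ow_t h1 hs.OT hx).1
    have h2 := PC_le hq (j := j) ((List.range D.nO).flatMap OL ++ J0) (by
      intro x hx
      rcases List.mem_append.1 hx with hx | hx
      · exact (hO0 x hx).le
      · exact (hs.Jt x hx).1.le)
    have h3 := hs.Sp
    have h4 := hs.Jm
    have hC := chC_pos
    rw [List.map_append, List.sum_append] at h2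
    have h6 := mul_le_mul_of_nonneg_left h3 hC.le
    show Phi D.q j [] (D.Ow OL 0) [] J0 ≤ _
    rw [hOw]
    unfold Phi TD.Phi0
    simp only [List.nil_append, Finset.range_zero, Finset.sum_empty, add_zero]
    have h5 : P D.q j [] = 0 := rfl
    rw [h5]
    linarith

/-- the tail with its start -/
theorem tail_start (h1 : D.Ok1) (hL : D.Ledger) {aB δ : ℕ → ℝ} (ha : ArOk D aB δ)
    (hW : 0 < W) (hH : 0 < H)
    (hWH : W * H = ∑' n : ℕ, sd (n + 1) ^ 2) {FL J0 : List (ℝ × ℝ)}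
    (hs : Start D OL W H FL J0) :
    ∃ p : ℕ → ℝ × ℝ, (∀ n, 1 ≤ n → (LibMoser5.sq n (p n)).Inside W H) ∧
      (∀ m n, 1 ≤ m → 1 ≤ n → m ≠ n → (LibMoser5.sq m (p m)).Sep (LibMoser5.sq n (p n))) :=
  tail h1 hL ha hs.OT hW hH hWH (init_inv h1 hs)

end

end Pool.Agent.LibMoserT
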