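import Pool.Agent.LibMoserT.LedFin
import Pool.Agent.LibMoserT.ArC
import Pool.Agent.LibMoserT.Init
import Pool.Agent.LibMoserT.Final
set_option autoImplicit false
/-!
# Gluing: certificate + ledger = perfect packing
-/
namespace Pool.Agent.LibMoserT
open Pool.Agent.LibMoser5 Pool.Agent.LibMoserF Classical

noncomputable section

/-- what is left: the kernel checks `T.Chk Z`, `L.Chk T Z` and the start state of the certificate -/
theorem glue {T : OTab} {L : LTab} {Z : ℕ} {mJ0 Sp : ℝ} (hT : T.Chk Z) (hL : L.Chk T Z)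
    (hm : 0 ≤ mJ0) (hm' : mJ0 ≤ 1 / 5000) (hP : 5 * Sp + 6 * mJ0 ≤ (L.P0 : ℝ) / 2 ^ 40)
    (hJ : 13 * (17 / 10000 + mJ0) ≤ (L.JJ : ℝ) / 2 ^ 20) {OL : ℕ → List (ℝ × ℝ)}
    {FL J0 : List (ℝ × ℝ)}
    (hs : Start (D41 T L.ar lamR mJ0 Sp) OL (2 / 3) (3 / 4 * Real.pi ^ 2 - 6) FL J0) :
    IsLeast {a : ℝ | ∃ W H : ℝ, 0 < W ∧ 0 < H ∧ W * H = a ∧ Final.Packs W H}
      (Real.pi ^ 2 / 8 - 1) := by
  have hpi : (9 : ℝ) < Real.pi ^ 2 := by
    have := Real.pi_gt_three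
    nlinarith
  have hH : 0 < 3 / 4 * Real.pi ^ 2 - 6 := by linarith
  have hA : (2 / 3 : ℝ) * (3 / 4 * Real.pi ^ 2 - 6) = Real.pi ^ 2 / 2 - 4 := by ring
  refine Final.final (W := 2 / 3) (H := 3 / 4 * Real.pi ^ 2 - 6) (by norm_num) hH hA ?_
  exact tail_start (LTab.ok1 hL hT hm) (LTab.ledger hL hT hP hJ)
    (arOk_D41 (LTab.ok1 hL hT hm) hm') (by norm_num) hH
    (by rw [hA, Final.tsum_sd]) hs

end

end Pool.Agent.LibMoserT
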