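import Pool.Agent.LibMoserT.LedOU
set_option autoImplicit false
/-!
# Comparison of the masses of the certificate with the masses in the records
-/
namespace Pool.Agent.LibMoserT
namespace OTab
variable (T : OTab)

/-- 32 cells: the digits of `p` (36 bits) are at most the masses in the records `r` (68 bits) -/
def cmpK (p r : ℕ) : Bool :=
  allF (fun i => Nat.ble (dig p 36 i) (rM (dig r 68 i))) 5 0 32

/-- `32 m` cells -/
def cmpG (m p r : ℕ) : Bool :=
  allF (fun b => cmpK ((p >>> (36 * (32 * b))) % 2 ^ (36 * 32))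
    ((r >>> (68 * (32 * b))) % 2 ^ (68 * 32))) 6 0 m

/-- frame `g`; `P` = packed masses, 36 bits per cell -/
def cmpF (P g : ℕ) : Bool :=
  cmpG ((T.fc (g + 1) - T.fc g + 31) / 32)
    ((P >>> (36 * T.fc g)) % 2 ^ (36 * (T.fc (g + 1) - T.fc g))) (T.RB g)

/-- all cells -/
def cmpT (P : ℕ) : Bool := allF (fun g => T.cmpF P g) 10 0 T.GO

variable {T} {Z : ℕ}

theorem cmpG_spec {m p r : ℕ} (hm : m ≤ 64) (h : cmpG m p r = true) :
    ∀ i < 32 * m, dig p 36 i ≤ rM (dig r 68 i) := by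
  intro i hi
  unfold cmpG at h
  have h1 := allF_spec _ _ _ _ (by norm_num; omega) h (i / 32) (Nat.zero_le _) (by omega)
  unfold cmpK at h1
  have h2 := allF_spec _ _ _ _ (by norm_num) h1 (i % 32) (Nat.zero_le _)
    (by have := Nat.mod_lt i (show 0 < 32 by norm_num); omega)
  have h3 := Nat.le_of_ble_eq_true h2
  have hm := Nat.mod_lt i (show 0 < 32 by norm_num)
  rw [dig_part p 36 _ 32 _ hm, dig_part r 68 _ 32 _ hm] at h3
  have e : 32 * (i / 32) + i % 32 = i := Nat.div_add_mod i 32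
  rw [e] at h3
  exact h3

theorem cmpT_spec (hT : T.Chk Z) {P : ℕ} (h : T.cmpT P = true) : ∀ c < T.nO,
    P / 2 ^ (36 * c) % 2 ^ 36 ≤ rM (T.rc c) := by
  intro c hc
  obtain ⟨g, hg, h1, h2⟩ := hT.ex_frame hc
  have h3 := allF_spec _ _ _ _ (by have := hT.GO2; omega) h g (Nat.zero_le _) (by omega)
  have h4 := hT.fc1024 g
  unfold cmpF at h3
  have h6 := cmpG_spec (by omega) h3 (c - T.fc g) (by omega)
  rw [dig_part P 36 _ _ _ (by omega)] at h6
  have e1 : T.fc g + (c - T.fc g) = c := by omega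
  have e2 : dig (T.RB g) 68 (c - T.fc g) = T.rc c := by
    have h7 := hT.dig_RB (g := g) (i := c - T.fc g) (by omega)
    rw [e1] at h7
    exact h7
  rw [e1, e2] at h6
  have e3 : dig P 36 c = P / 2 ^ (36 * c) % 2 ^ 36 := by
    unfold dig
    rw [Nat.shiftRight_eq_div_pow]
  rw [e3] at h6
  exact h6

end OTab
end Pool.Agent.LibMoserT
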