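import Pool.Agent.LibMoserT.FatK
set_option autoImplicit false
/-!
# Cutting a nearly square rectangle into `n × n` equal ones
-/
namespace Pool.Agent.LibMoserT
open Pool.Agent.LibMoser5 Pool.Agent.LibMoserF Classical

noncomputable section

section
variable {W H : ℝ} {P : Finset ℕ}

theorem cut_n {a c : ℝ} (hc : 0 ≤ c) (n : ℕ) {F : List (ℝ × ℝ)}
    (h : PT W H ((a, n * c) :: F) P) : PT W H (List.replicate n (a, c) ++ F) P := by
  induction n generalizing F with
  | zero =>
    have : PT W H F P := h.drop (by simp)
    simpa using this
  | succ n ih =>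
    have hn : (0 : ℝ) ≤ n := Nat.cast_nonneg _
    have h1 := h.cut (b₁ := c) hc (by push_cast; nlinarith)
    have e : ((n + 1 : ℕ) : ℝ) * c - c = n * c := by push_cast; ring
    rw [e] at h1
    have h2 : PT W H ((a, n * c) :: ((a, c) :: F)) P := h1.perm (List.Perm.swap _ _ _)
    have h3 := ih h2
    refine h3.perm ?_
    rw [List.replicate_succ, List.cons_append]
    exact List.perm_middle

theorem cut_all_n {a c : ℝ} (ha : 0 ≤ a) (n : ℕ) (hn : 0 < n) (k : ℕ) {F : List (ℝ × ℝ)}
    (h : PT W H (List.replicate k (a, c) ++ F) P) :
    PT W H (List.replicate (k * n) (c, a / n) ++ F) P := by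
  induction k generalizing F with
  | zero => simpa using h
  | succ k ih =>
    rw [List.replicate_succ, List.cons_append] at h
    have h1 : PT W H ((c, n * (a / n)) :: (List.replicate k (a, c) ++ F)) P := by
      have : (n : ℝ) * (a / n) = a := by
        have : (n : ℝ) ≠ 0 := by exact_mod_cast hn.ne'
        field_simp
      rw [this]
      exact h.swap
    have h2 := cut_n (div_nonneg ha (Nat.cast_nonneg n)) n h1
    have h3 : PT W H (List.replicate k (a, c) ++ (List.replicate n (c, a / n) ++ F)) P := by
      refine h2.perm ?_
      rw [← List.append_assoc, ← List.append_assoc]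
      exact List.Perm.append_right _ List.perm_append_comm
    have h4 := ih h3
    refine h4.perm ?_
    rw [← List.append_assoc, Nat.add_mul, one_mul, List.replicate_add]

/-- **The start of the fat lane**: a nearly square rectangle cut into `n²` equal ones. -/
theorem fat_split {κ a b : ℝ} (ha : 0 < a) (hab : a ≤ b) (hb : b ≤ κ * a) (n : ℕ) (hn : 0 < n)
    {F : List (ℝ × ℝ)} (h : PT W H ((a, b) :: F) P) :
    ∃ FL : List (ℝ × ℝ), Fat κ (n * n) FL ∧ PT W H (FL ++ F) P ∧ ar FL = a * b := by
  have hnR : (0 : ℝ) < n := by exact_mod_cast hn
  have hκ : 1 ≤ κ := by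
    by_contra hcon
    push Not at hcon
    have := mul_lt_mul_of_pos_right hcon ha
    linarith
  refine ⟨List.replicate (n * n) (a / n, b / n), ⟨?_, ?_, ?_⟩, ?_, ?_⟩
  · simp
  · intro x hx
    rw [List.eq_of_mem_replicate hx]
    simp only
    refine ⟨by positivity, div_le_div_of_nonneg_right hab hnR.le, ?_⟩
    rw [← mul_div_assoc]
    exact div_le_div_of_nonneg_right hb hnR.le
  · intro x hx y hy
    rw [List.eq_of_mem_replicate hx, List.eq_of_mem_replicate hy]
    simp only
    have : 0 ≤ a / n * (b / n) := mul_nonneg (by positivity) (div_nonneg (by linarith) hnR.le)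
    nlinarith
  · have h1 : PT W H ((a, n * (b / n)) :: F) P := by
      have : (n : ℝ) * (b / n) = b := by field_simp
      rw [this]
      exact h
    have h2 := cut_n (div_nonneg (by linarith) hnR.le) n h1
    have h3 := cut_all_n ha.le n hn n h2
    -- orientation
    have h5 : ∀ (k : ℕ) (G : List (ℝ × ℝ)), PT W H (List.replicate k (b / n, a / n) ++ G) P →
        PT W H (List.replicate k (a / n, b / n) ++ G) P := by
      intro k
      induction k with
      | zero => intro G h; simpa using h
      | succ k ih =>
        intro G h
        rw [List.replicate_succ, List.cons_append] at h ⊢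
        have h6 := h.swap
        have h7 : PT W H (List.replicate k (b / n, a / n) ++ ((a / n, b / n) :: G)) P :=
          h6.perm List.perm_middle.symm
        exact (ih _ h7).perm List.perm_middle
    exact h5 _ _ h3
  · have : ∀ k : ℕ, ar (List.replicate k (a / (n : ℝ), b / (n : ℝ))) = k * (a / n * (b / n)) := by
      intro k
      induction k with
      | zero => simp [ar]
      | succ k ih =>
        rw [List.replicate_succ, ar_cons, ih]
        push_cast
        ring
    rw [this]
    push_cast
    field_simp

end

end

end Pool.Agent.LibMoserT
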