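import Pool.Agent.LibMoserT.LedDefs
set_option autoImplicit false
/-!
# Frames, classes and their sources

`l0` = label of the first frame (`8192 ≤ l0`, `32 ∣ l0`), `1 ≤ q ≤ 8192`.
-/
namespace Pool.Agent.LibMoserT
open Pool.Agent.LibMoser5 Pool.Agent.LibMoserF Classical

noncomputable section

theorem fl_dvd {l0 : ℕ} (h : 32 ∣ l0) (g : ℕ) : 32 ∣ fl l0 g := by
  induction g with
  | zero => exact h
  | succ g ih =>
    show 32 ∣ fl l0 g + 32 * (fl l0 g / 1024)
    exact Dvd.dvd.add ih (Dvd.intro _ rfl)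

theorem fl_ge {l0 : ℕ} (h : 8192 ≤ l0) (g : ℕ) : 8192 ≤ fl l0 g := by
  induction g with
  | zero => exact h
  | succ g ih =>
    show 8192 ≤ fl l0 g + 32 * (fl l0 g / 1024)
    omega

theorem fl_lower {l0 : ℕ} (h : 8192 ≤ l0) (g : ℕ) : 37 * fl l0 g ≤ 36 * fl l0 (g + 1) := by
  have h1 := fl_ge h g
  show 37 * fl l0 g ≤ 36 * (fl l0 g + 32 * (fl l0 g / 1024))
  omega

theorem fl_upper (l0 : ℕ) (g : ℕ) : 32 * fl l0 (g + 1) ≤ 33 * fl l0 g := by
  show 32 * (fl l0 g + 32 * (fl l0 g / 1024)) ≤ 33 * fl l0 g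
  omega

theorem fl_mono {l0 : ℕ} {g g' : ℕ} (h : g ≤ g') : fl l0 g ≤ fl l0 g' := by
  induction g', h using Nat.le_induction with
  | base => exact le_refl _
  | succ n _ ih =>
    refine ih.trans ?_
    show fl l0 n ≤ fl l0 n + 32 * (fl l0 n / 1024)
    omega

theorem fl_unbounded {l0 : ℕ} (h : 8192 ≤ l0) (M : ℕ) : ∃ g, M ≤ fl l0 g := by
  have h1 : ∀ g, 8192 + g ≤ fl l0 g := by
    intro g
    induction g with
    | zero => exact h
    | succ g ih =>
      show 8192 + (g + 1) ≤ fl l0 g + 32 * (fl l0 g / 1024)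
      omega
  exact ⟨M, by have := h1 M; omega⟩

theorem pool_nonempty {q : ℝ} (hq0 : 0 < q) (hq' : q ≤ 8192) {a b : ℕ} (ha : 8192 ≤ a)
    (hab : a < b) : (pool q a b).Nonempty := by
  rw [← Finset.card_pos]
  have ha' : (8192 : ℝ) ≤ a := by exact_mod_cast ha
  have hb' : (a : ℝ) + 1 ≤ b := by exact_mod_cast hab
  have h1 : 1 ≤ (a : ℝ) ^ 3 / q := by
    rw [le_div_iff₀ hq0]
    have : (8192 : ℝ) ^ 3 ≤ (a : ℝ) ^ 3 := pow_le_pow_left₀ (by norm_num) ha' 3
    linarith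
  have h2 := card_pool_ge hq0 hab.le h1
  have h3 : 1 < ((b : ℝ) ^ 3 - (a : ℝ) ^ 3) / q := by
    rw [lt_div_iff₀ hq0]
    have h4 : ((a : ℝ) + 1) ^ 3 ≤ (b : ℝ) ^ 3 := pow_le_pow_left₀ (by positivity) hb' 3
    have h5 : ((a : ℝ) + 1) ^ 3 = (a : ℝ) ^ 3 + 3 * (a : ℝ) ^ 2 + 3 * a + 1 := by ring
    nlinarith
  have h4 : (0 : ℝ) < ((pool q a b).card : ℝ) := by linarith
  exact_mod_cast h4

theorem pool_subset {q : ℝ} (hq0 : 0 < q) {a b c d : ℕ} (hac : c ≤ a) (hbd : b ≤ d) :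
    pool q a b ⊆ pool q c d := by
  unfold pool
  exact Finset.Ico_subset_Ico (ix_mono hq0 hac) (ix_mono hq0 hbd)

/-- `σ |Q|` for the pool of a whole frame -/
theorem frame_mass {q : ℝ} (hq0 : 0 < q) (hq' : q ≤ 8192) {l l1 : ℕ} (hl : 8192 ≤ l)
    (h1 : 37 * l ≤ 36 * l1) : 1 / 13 ≤ th q l1 * (pool q l l1).card := by
  have hl' : (8192 : ℝ) ≤ l := by exact_mod_cast hl
  have hl1 : (37 : ℝ) * l ≤ 36 * l1 := by exact_mod_cast h1
  have hll : (l : ℝ) ≤ l1 := by linarith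
  have hq1 : 1 ≤ (l : ℝ) ^ 3 / q := by
    rw [le_div_iff₀ hq0]
    have : (8192 : ℝ) ^ 3 ≤ (l : ℝ) ^ 3 := pow_le_pow_left₀ (by norm_num) hl' 3
    linarith
  have h2 := card_pool_ge hq0 (by omega : l ≤ l1) hq1
  have hl13 : (0 : ℝ) < (l1 : ℝ) ^ 3 := by
    have : (0 : ℝ) < l1 := by linarith
    positivity
  have h3 : (l : ℝ) ^ 3 ≤ (36 / 37) ^ 3 * (l1 : ℝ) ^ 3 := by
    rw [← mul_pow]
    exact pow_le_pow_left₀ (by positivity) (by linarith) 3
  have h4 : (8192 : ℝ) ^ 3 ≤ (l1 : ℝ) ^ 3 := pow_le_pow_left₀ (by norm_num) (by linarith) 3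
  have h5 : th q l1 * (((l1 : ℝ) ^ 3 - (l : ℝ) ^ 3) / q - 1) ≤ th q l1 * (pool q l l1).card :=
    mul_le_mul_of_nonneg_left h2 (th_nonneg hq0.le _)
  refine le_trans ?_ h5
  have h6 : th q l1 * (((l1 : ℝ) ^ 3 - (l : ℝ) ^ 3) / q - 1) =
      (((l1 : ℝ) ^ 3 - (l : ℝ) ^ 3) - q) / (l1 : ℝ) ^ 3 := by
    unfold th
    field_simp
  rw [h6, le_div_iff₀ hl13]
  norm_num at h3 h4 ⊢
  linarith

theorem om_nonneg {q : ℝ} (hq : 0 < q) {k : ℕ} (hk : 1 ≤ k) : 0 ≤ om q k := by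
  unfold om
  have h1 := th_pos hq (Nat.succ_pos k)
  have h2 := th_anti hq (by omega : 0 < k) (Nat.le_succ k)
  exact div_nonneg (by linarith) h1.le

theorem srcR_ok {q A : ℝ} (hq : 1 ≤ q) (hq' : q ≤ 8192) (hA : 0 ≤ A) {l l1 k : ℕ}
    (hl : 8192 ≤ l) (hd : 32 ∣ l) (hd1 : 32 ∣ l1) (h1 : l - 20 ≤ k) (h2 : k < l1 - 20) :
    (srcR q A k).Ok (pool q l l1) := by
  have hq0 : 0 < q := by linarith
  have hK1 : l ≤ kpR k := by
    unfold kpR
    omega
  have hK2 : kpR k + 16 ≤ l1 := by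
    unfold kpR
    omega
  have hK3 : k + 5 ≤ kpR k := by
    unfold kpR
    omega
  refine ⟨mul_nonneg hA (om_nonneg hq0 (by omega)), th_pos hq0 (by omega), ?_, ?_, ?_, ?_, ?_⟩
  · exact pool_nonempty hq0 hq' (by omega) (by omega)
  · exact pool_subset hq0 hK1 hK2
  · intro n hn
    have h := (mem_pool hq0 (by omega) (by omega)).1 hn
    exact ⟨h.1.le, h.2⟩
  · exact th_anti hq0 (by omega) (by omega)
  · exact th_lt hq0 (by omega) (by omega)

/-- arithmetic of the groups of class G -/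
theorem kG_facts {u l l1 i : ℕ} (hu : u ∣ 32) (hd : 32 ∣ l) (hd1 : 32 ∣ l1) (h1 : l / u ≤ i)
    (h2 : i < l1 / u) :
    l ≤ kG u i ∧ kG u i + 32 ≤ l1 ∧ u * (i + 1) - 36 ≤ kG u i ∧ l ≤ u * i ∧ kG u i ≤ u * i ∧
      u * (i + 1) ≤ l1 ∧ u * (i + 1) ≤ kG u i + 32 ∧ 1 ≤ u := by
  have hu1 : 1 ≤ u := Nat.pos_of_dvd_of_pos hu (by norm_num)
  have a1 : l ≤ u * i := by
    have h3 : u * (l / u) = l := Nat.mul_div_cancel' (hu.trans hd)
    calc l = u * (l / u) := h3.symm
      _ ≤ u * i := Nat.mul_le_mul_left _ h1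
  have a2 : u * (i + 1) ≤ l1 := by
    have h3 : u * (l1 / u) = l1 := Nat.mul_div_cancel' (hu.trans hd1)
    calc u * (i + 1) ≤ u * (l1 / u) := Nat.mul_le_mul_left _ h2
      _ = l1 := h3
  have a3 : u * (i + 1) = u * i + u := Nat.mul_succ u i
  have a4 : u * i + u ≤ 32 * (u * i / 32) + 32 := by
    obtain ⟨v, hv⟩ := hu
    have hv1 : 1 ≤ v := by
      rcases Nat.eq_zero_or_pos v with h0 | h0
      · rw [h0] at hv; omega
      · exact h0
    have h3 : u * i / 32 = i / v := by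
      rw [hv]
      exact Nat.mul_div_mul_left i v hu1
    have h4 : i + 1 ≤ v * (i / v) + v := by
      have := Nat.lt_div_mul_add hv1 (a := i)
      rw [Nat.mul_comm (i / v) v] at this
      exact this
    rw [h3]
    calc u * i + u = u * (i + 1) := a3.symm
      _ ≤ u * (v * (i / v) + v) := Nat.mul_le_mul_left _ h4
      _ = (u * v) * (i / v) + u * v := by ring
      _ = 32 * (i / v) + 32 := by rw [← hv]
  unfold kG
  refine ⟨?_, ?_, ?_, a1, ?_, a2, ?_, hu1⟩ <;> omega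

theorem srcG_ok {q M : ℝ} (hq : 1 ≤ q) (hq' : q ≤ 8192) (hM : 0 ≤ M) {l l1 u i : ℕ}
    (hl : 8192 ≤ l) (hd : 32 ∣ l) (hd1 : 32 ∣ l1) (hu : u ∣ 32) (h1 : l / u ≤ i)
    (h2 : i < l1 / u) : (srcG q M u i).Ok (pool q l l1) := by
  have hq0 : 0 < q := by linarith
  obtain ⟨f1, f2, f3, f4, f5, f6, f7, f8⟩ := kG_facts hu hd hd1 h1 h2
  have f9 : u * (i + 1) = u * i + u := Nat.mul_succ u i
  refine ⟨hM, th_pos hq0 (by omega), ?_, ?_, ?_, ?_, ?_⟩
  · exact pool_nonempty hq0 hq' (by omega) (by omega)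
  · exact pool_subset hq0 f1 f2
  · intro n hn
    have h := (mem_pool hq0 (by omega) (by omega)).1 hn
    exact ⟨h.1.le, h.2⟩
  · exact th_anti hq0 (by omega) (by omega)
  · exact th_lt hq0 (by omega) (by omega)

theorem srcJ_ok {q M : ℝ} (hq : 1 ≤ q) (hq' : q ≤ 8192) (hM : 0 ≤ M) {lm l l1 : ℕ}
    (hl : 8192 ≤ lm) (h0 : 37 * lm ≤ 36 * l) (h1 : 37 * l ≤ 36 * l1) :
    (srcJ q M lm l l1).Ok (pool q l l1) := by
  have hq0 : 0 < q := by linarith
  refine ⟨hM, th_pos hq0 (by omega), ?_, ?_, ?_, ?_, ?_⟩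
  · exact pool_nonempty hq0 hq' (by omega) (by omega)
  · exact Finset.Subset.refl _
  · intro n hn
    have h := (mem_pool hq0 (by omega) (by omega)).1 hn
    exact ⟨h.1.le, h.2⟩
  · exact th_anti hq0 (by omega) (by omega)
  · exact th_lt hq0 (by omega) (by omega)

/-- largest thickness of the J rows -/
theorem srcJ_pmax {q : ℝ} (hq : 1 ≤ q) {lm l l1 : ℕ}
    (hl : 8192 ≤ lm) (h0 : lm ≤ l) (h0' : 32 * l ≤ 33 * lm)
    (h1 : l ≤ l1) (h1' : 32 * l1 ≤ 33 * l) : th q (lm - 64) ≤ 1232 / 1000 * th q l1 := by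
  have hq0 : 0 < q := by linarith
  have hl' : (8192 : ℝ) ≤ lm := by exact_mod_cast hl
  have hu0 : (32 : ℝ) * l ≤ 33 * lm := by exact_mod_cast h0'
  have hu1 : (32 : ℝ) * l1 ≤ 33 * l := by exact_mod_cast h1'
  have hll : (8192 : ℝ) ≤ l1 := by
    have : lm ≤ l1 := by omega
    have : (lm : ℝ) ≤ l1 := by exact_mod_cast this
    linarith
  have hlm2 : ((lm - 64 : ℕ) : ℝ) = (lm : ℝ) - 64 := by
    rw [Nat.cast_sub (by omega)]
    norm_num
  unfold th
  rw [hlm2, mul_div_assoc', div_le_div_iff₀ (by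
    have : (0 : ℝ) < (lm : ℝ) - 64 := by linarith
    positivity) (by
    have : (0 : ℝ) < (l1 : ℝ) := by linarith
    positivity)]
  have h3 : (l1 : ℝ) ≤ 1089 / 1024 * (8192 / 8128) * ((lm : ℝ) - 64) := by
    have h4 : (lm : ℝ) ≤ 8192 / 8128 * ((lm : ℝ) - 64) := by linarith
    have h5 : (l1 : ℝ) ≤ 1089 / 1024 * lm := by linarith
    linarith
  have h4 : (l1 : ℝ) ^ 3 ≤ (1089 / 1024 * (8192 / 8128) * ((lm : ℝ) - 64)) ^ 3 :=
    pow_le_pow_left₀ (by linarith) h3 3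
  have h5 : (1089 / 1024 * (8192 / 8128) * ((lm : ℝ) - 64)) ^ 3 ≤
      1232 / 1000 * ((lm : ℝ) - 64) ^ 3 := by
    rw [mul_pow]
    apply mul_le_mul_of_nonneg_right _ (by
      have : (0 : ℝ) ≤ (lm : ℝ) - 64 := by linarith
      positivity)
    norm_num
  calc q * (l1 : ℝ) ^ 3 ≤ q * (1232 / 1000 * ((lm : ℝ) - 64) ^ 3) :=
        mul_le_mul_of_nonneg_left (h4.trans h5) hq0.le
    _ = 1232 / 1000 * q * ((lm : ℝ) - 64) ^ 3 := by ring

/-- the J rows cost at most `6` times their mass -/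
theorem srcJ_cost8 {q M : ℝ} (hq : 1 ≤ q) (hq' : q ≤ 8192) (hM : 0 ≤ M) {lm l l1 j : ℕ}
    (hl : 8192 ≤ lm) (h0 : 37 * lm ≤ 36 * l) (h0' : 32 * l ≤ 33 * lm) (h1 : 37 * l ≤ 36 * l1)
    (h1' : 32 * l1 ≤ 33 * l) (hj : l ≤ j) :
    (srcJ q M lm l l1).D q j (th q l1) + 8 * (srcJ q M lm l l1).T ≤ 6 * M := by
  have hq0 : 0 < q := by linarith
  have hfm := frame_mass hq0 hq' (by omega : 8192 ≤ l) h1
  have hl' : (8192 : ℝ) ≤ lm := by exact_mod_cast hl
  have hll : (8192 : ℝ) ≤ l := by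
    have : lm ≤ l := by omega
    have : (lm : ℝ) ≤ l := by exact_mod_cast this
    linarith
  have hu0 : (32 : ℝ) * l ≤ 33 * lm := by exact_mod_cast h0'
  have hu1 : (32 : ℝ) * l1 ≤ 33 * l := by exact_mod_cast h1'
  have hl1l : (l : ℝ) ≤ l1 := by
    have : l ≤ l1 := by omega
    exact_mod_cast this
  have hjl : (l : ℝ) ≤ j := by exact_mod_cast hj
  have hσ : 0 < th q l1 := th_pos hq0 (by omega)
  set σ := th q l1 with hσd
  set c : ℝ := ((pool q l l1).card : ℝ) with hc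
  have hc0 : 0 < c := by
    by_contra hcon
    have : σ * c ≤ 0 := mul_nonpos_of_nonneg_of_nonpos hσ.le (not_lt.1 hcon)
    linarith
  -- sizes
  have hp1 : th q (lm - 64) ≤ 1232 / 1000 * σ :=
    srcJ_pmax hq hl (by omega) h0' (by omega) h1'
  have hu : (srcJ q M lm l l1).u = M / (σ * c) := rfl
  have hu2 : (srcJ q M lm l l1).u ≤ 13 * M := by
    rw [hu, div_le_iff₀ (by linarith)]
    nlinarith
  have hu3 : 0 ≤ (srcJ q M lm l l1).u := by
    rw [hu]
    positivity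
  -- births
  have hT : (srcJ q M lm l l1).T ≤ 232 / 1000 * M := by
    show (srcJ q M lm l l1).u * ∑ n ∈ pool q l l1, (th q (lm - 64) - sd n) ≤ _
    have h3 : ∑ n ∈ pool q l l1, (th q (lm - 64) - sd n) ≤ c * (232 / 1000 * σ) := by
      rw [hc, ← nsmul_eq_mul]
      apply Finset.sum_le_card_nsmul
      intro n hn
      have h4 := ((mem_pool hq0 (by omega) (by omega)).1 hn).1
      linarith
    calc (srcJ q M lm l l1).u * ∑ n ∈ pool q l l1, (th q (lm - 64) - sd n) ≤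
          (srcJ q M lm l l1).u * (c * (232 / 1000 * σ)) := mul_le_mul_of_nonneg_left h3 hu3
      _ = 232 / 1000 * M := by
          rw [hu]
          field_simp
  -- children
  have hD : (srcJ q M lm l l1).D q j σ ≤ 13 * M * ((232 / 1000 + 1 / 100) * (1 + 4 / 5 * (1 / 4))) := by
    unfold Src.D
    split_ifs with hr
    · obtain ⟨hr1, hr2⟩ := hr
      have hr1' : th q (j + 1) < th q (lm - 64) - σ := hr1
      have hr2' : th q (l - 2) - th q l < th q j := by
        have h3 : th q (l - 64) - th q l < th q j := hr2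
        have h4 : th q (l - 2) ≤ th q (l - 64) := th_anti hq0 (by omega) (by omega)
        linarith
      have hj0 : (0 : ℝ) < j := by linarith
      have e1 : th q (j + 1) / σ ≤ 232 / 1000 := by
        rw [div_le_iff₀ hσ]
        linarith
      have e2 : th q j / σ ≤ 1 / 4 := by
        rw [div_le_iff₀ hσ]
        have h3 : th q j ≤ (1 + 1 / 1000) * th q (j + 1) := th_ratio hq0 (by omega)
        linarith
      have e3 : th q l * (th q (j + 1) / (th q j - th q (j + 1))) ≤ 1 / 100 := by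
        have h3 := th_width hq0 (j := j) (by omega)
        have h4 : 6 * (j : ℝ) ^ 3 ≤ (l : ℝ) ^ 4 := by
          unfold th at hr2'
          have hl2 : ((l - 2 : ℕ) : ℝ) = (l : ℝ) - 2 := by
            rw [Nat.cast_sub (by omega)]
            norm_num
          rw [hl2] at hr2'
          have hx : (0 : ℝ) < (l : ℝ) - 2 := by linarith
          have h5 : q / ((l : ℝ) - 2) ^ 3 - q / (l : ℝ) ^ 3 =
              q * (((l : ℝ) ^ 3 - ((l : ℝ) - 2) ^ 3) / (((l : ℝ) - 2) ^ 3 * (l : ℝ) ^ 3)) := by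
            have : (0 : ℝ) < l := by linarith
            field_simp
          have h6 : q / (j : ℝ) ^ 3 = q * (1 / (j : ℝ) ^ 3) := by ring
          rw [h5, h6] at hr2'
          have h7 := lt_of_mul_lt_mul_left hr2' hq0.le
          have hl0 : (0 : ℝ) < l := by linarith
          rw [div_lt_div_iff₀ (by positivity) (by positivity), one_mul] at h7
          have h8 : (l : ℝ) ^ 3 - ((l : ℝ) - 2) ^ 3 = 6 * (l : ℝ) ^ 2 - 12 * l + 8 := by ring
          rw [h8] at h7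
          have h9 : 6 * ((l : ℝ) - 2) ^ 3 ≤ l * (6 * (l : ℝ) ^ 2 - 12 * l + 8) := by nlinarith
          have h10 : 0 < 6 * (l : ℝ) ^ 2 - 12 * l + 8 := by nlinarith
          have h11 : 6 * ((6 * (l : ℝ) ^ 2 - 12 * l + 8) * (j : ℝ) ^ 3) ≤
              (6 * (l : ℝ) ^ 2 - 12 * l + 8) * (l : ℝ) ^ 4 := by
            calc 6 * ((6 * (l : ℝ) ^ 2 - 12 * l + 8) * (j : ℝ) ^ 3) ≤
                6 * (((l : ℝ) - 2) ^ 3 * (l : ℝ) ^ 3) := by linarith
              _ = (6 * ((l : ℝ) - 2) ^ 3) * (l : ℝ) ^ 3 := by ring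
              _ ≤ (l * (6 * (l : ℝ) ^ 2 - 12 * l + 8)) * (l : ℝ) ^ 3 :=
                mul_le_mul_of_nonneg_right h9 (by positivity)
              _ = (6 * (l : ℝ) ^ 2 - 12 * l + 8) * (l : ℝ) ^ 4 := by ring
          have h12 : (6 * (l : ℝ) ^ 2 - 12 * l + 8) * (6 * (j : ℝ) ^ 3) ≤
              (6 * (l : ℝ) ^ 2 - 12 * l + 8) * (l : ℝ) ^ 4 := by linarith
          exact le_of_mul_le_mul_left h12 h10
        have hl0 : (0 : ℝ) < l := by linarith
        have h5 : th q l * (th q (j + 1) / (th q j - th q (j + 1))) ≤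
            th q l * (((j : ℝ) + 1) / 3) := mul_le_mul_of_nonneg_left h3 (th_nonneg hq0.le _)
        refine h5.trans ?_
        unfold th
        rw [div_mul_div_comm, div_le_iff₀ (by positivity)]
        have h6 : (q * ((j : ℝ) + 1)) ^ 3 ≤ (3 / 100 * (l : ℝ) ^ 3) ^ 3 := by
          have h7 : ((j : ℝ) + 1) ^ 3 ≤ (2 * (j : ℝ)) ^ 3 := pow_le_pow_left₀ (by positivity) (by linarith) 3
          have h8 : q ^ 3 ≤ 8192 ^ 3 := pow_le_pow_left₀ hq0.le hq' 3
          have h9 : (8192 : ℝ) ^ 5 ≤ (l : ℝ) ^ 5 := pow_le_pow_left₀ (by norm_num) hll 5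
          calc (q * ((j : ℝ) + 1)) ^ 3 = q ^ 3 * ((j : ℝ) + 1) ^ 3 := by ring
            _ ≤ 8192 ^ 3 * (2 * (j : ℝ)) ^ 3 := mul_le_mul h8 h7 (by positivity) (by norm_num)
            _ = 8192 ^ 3 * 8 / 6 * (6 * (j : ℝ) ^ 3) := by ring
            _ ≤ 8192 ^ 3 * 8 / 6 * (l : ℝ) ^ 4 := mul_le_mul_of_nonneg_left h4 (by norm_num)
            _ ≤ (3 / 100) ^ 3 * 8192 ^ 5 * (l : ℝ) ^ 4 := by
                apply mul_le_mul_of_nonneg_right _ (by positivity)
                norm_num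
            _ ≤ (3 / 100) ^ 3 * (l : ℝ) ^ 5 * (l : ℝ) ^ 4 := by
                apply mul_le_mul_of_nonneg_right _ (by positivity)
                linarith
            _ = (3 / 100 * (l : ℝ) ^ 3) ^ 3 := by ring
        have h7 := le_of_pow_le_pow_left₀ (by norm_num) (by positivity) h6
        linarith
      have e4 : 0 ≤ th q (j + 1) / σ := div_nonneg (th_nonneg hq0.le _) hσ.le
      have e5 : 0 ≤ th q j / σ := div_nonneg (th_nonneg hq0.le _) hσ.le
      have e6 : 0 ≤ th q l * (th q (j + 1) / (th q j - th q (j + 1))) := by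
        have := th_lt hq0 (by omega : 0 < j) (Nat.lt_succ_self j)
        exact mul_nonneg (th_nonneg hq0.le _) (div_nonneg (th_nonneg hq0.le _) (by linarith))
      refine mul_le_mul hu2 ?_ (by
        show 0 ≤ (th q (j + 1) / σ + th q l * (th q (j + 1) / (th q j - th q (j + 1)))) *
          (1 + 4 / 5 * (th q j / σ))
        positivity) (by positivity)
      show (th q (j + 1) / σ + th q l * (th q (j + 1) / (th q j - th q (j + 1)))) *
          (1 + 4 / 5 * (th q j / σ)) ≤ _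
      exact mul_le_mul (by linarith) (by linarith) (by positivity) (by norm_num)
    · positivity
  linarith

/-- the J rows cost at most `6` times their mass and a rounding error -/
theorem srcJ_cost {q M : ℝ} (hq : 1 ≤ q) (hq' : q ≤ 8192) (hM : 0 ≤ M) {lm l l1 j : ℕ}
    (hl : 8192 ≤ lm) (h0 : 37 * lm ≤ 36 * l) (h0' : 32 * l ≤ 33 * lm) (h1 : 37 * l ≤ 36 * l1)
    (h1' : 32 * l1 ≤ 33 * l) (hj : l ≤ j) :
    (srcJ q M lm l l1).D q j (th q l1) + (srcJ q M lm l l1).B q j ≤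
      6 * M + 43 * chC * (th q l1 / 4) := by
  have hq0 : 0 < q := by linarith
  have h2 := srcJ_cost8 hq hq' hM hl h0 h0' h1 h1' hj
  have h3 : (srcJ q M lm l l1).Ok (pool q l l1) := srcJ_ok hq hq' hM hl h0 h1
  have h4 : 0 ≤ (srcJ q M lm l l1).T := by
    unfold Src.T
    apply mul_nonneg (Src.u_nonneg h3)
    apply Finset.sum_nonneg
    intro n hn
    have := (h3.Qs n hn).2
    linarith [h3.Sp, h3.pp]
  have h5 : chC ≤ 8 := by unfold chC; norm_num
  have h6 : 0 ≤ chC := by unfold chC; norm_num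
  have h7 := srcJ_pmax hq hl (by omega : lm ≤ l) h0' (by omega : l ≤ l1) h1'
  have h8 : 0 < th q l1 := th_pos hq0 (by omega)
  have h9 : (srcJ q M lm l l1).pmax - (srcJ q M lm l l1).σ ≤ th q l1 / 4 := by
    show th q (lm - 64) - th q l1 ≤ th q l1 / 4
    linarith
  have h10 : chC * (srcJ q M lm l l1).T ≤ 8 * (srcJ q M lm l l1).T :=
    mul_le_mul_of_nonneg_right h5 h4
  have h11 : 43 * chC * ((srcJ q M lm l l1).pmax - (srcJ q M lm l l1).σ) ≤
      43 * chC * (th q l1 / 4) := mul_le_mul_of_nonneg_left h9 (by linarith)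
  have h12 : (srcJ q M lm l l1).B q j ≤
      8 * (srcJ q M lm l l1).T + 43 * chC * (th q l1 / 4) := by
    unfold Src.B
    split_ifs with hc
    · rw [mul_add]
      have h13 : chC * (43 * ((srcJ q M lm l l1).pmax - (srcJ q M lm l l1).σ)) =
          43 * chC * ((srcJ q M lm l l1).pmax - (srcJ q M lm l l1).σ) := by ring
      rw [h13]
      linarith
    · positivity
  linarith

/-- load of the J rows -/
theorem srcJ_u {q M : ℝ} (hq : 1 ≤ q) (hq' : q ≤ 8192) (hM : 0 ≤ M) {lm l l1 : ℕ}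
    (hl : 8192 ≤ lm) (h0 : lm ≤ l) (h1 : 37 * l ≤ 36 * l1) : (srcJ q M lm l l1).u ≤ 13 * M := by
  have hq0 : 0 < q := by linarith
  have h2 := frame_mass hq0 hq' (by omega : 8192 ≤ l) h1
  show M / (th q l1 * (pool q l l1).card) ≤ 13 * M
  rw [div_le_iff₀ (by linarith)]
  nlinarith

/-- a list is split according to decreasing thresholds `t a ≥ t (a + 1) ≥ ... ≥ t b` -/
theorem split_thr (t : ℕ → ℝ) {a b : ℕ} (hab : a ≤ b)
    (ht : ∀ i, a ≤ i → i < b → t (i + 1) ≤ t i) (L : List (ℝ × ℝ)) (hL : ∀ x ∈ L, x.1 ≤ t a) :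
    L.Perm ((List.range' a (b - a)).flatMap
      (fun i => L.filter (fun x => decide (t (i + 1) < x.1 ∧ x.1 ≤ t i))) ++
      L.filter (fun x => decide (x.1 ≤ t b))) := by
  obtain ⟨n, rfl⟩ : ∃ n, b = a + n := ⟨b - a, by omega⟩
  clear hab
  rw [Nat.add_sub_cancel_left]
  induction n with
  | zero =>
    simp only [List.range'_zero, List.flatMap_nil, List.nil_append, Nat.add_zero]
    rw [List.filter_eq_self.2]
    intro x hx
    exact decide_eq_true (hL x hx)
  | succ n ih =>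
    have ih' := ih (fun i h1 h2 => ht i h1 (by omega))
    refine ih'.trans ?_
    rw [List.range'_concat, List.flatMap_append, List.append_assoc]
    refine List.Perm.append_left _ ?_
    simp only [List.flatMap_cons, List.flatMap_nil, List.append_nil, Nat.one_mul]
    have ht' := ht (a + n) (by omega) (by omega)
    have e1 : L.filter (fun x => decide (t (a + n + 1) < x.1 ∧ x.1 ≤ t (a + n))) =
        (L.filter (fun x => decide (x.1 ≤ t (a + n)))).filter
          (fun x => decide (t (a + n + 1) < x.1)) := by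
      rw [List.filter_filter]
      apply List.filter_congr
      intro x _
      by_cases h1 : t (a + n + 1) < x.1 <;> by_cases h2 : x.1 ≤ t (a + n) <;> simp [h1, h2]
    have e2 : L.filter (fun x => decide (x.1 ≤ t (a + (n + 1)))) =
        (L.filter (fun x => decide (x.1 ≤ t (a + n)))).filter
          (fun x => !decide (t (a + n + 1) < x.1)) := by
      rw [List.filter_filter]
      apply List.filter_congr
      intro x _
      have e3 : a + (n + 1) = a + n + 1 := rfl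
      rw [e3]
      by_cases h1 : t (a + n + 1) < x.1
      · have h2 : ¬ x.1 ≤ t (a + n + 1) := not_le.2 h1
        simp [h1, h2]
      · have h2 : x.1 ≤ t (a + n + 1) := not_lt.1 h1
        have h3 : x.1 ≤ t (a + n) := h2.trans ht'
        simp [h1, h2, h3]
    rw [e1, e2]
    exact (List.filter_append_perm _ _).symm

end

end Pool.Agent.LibMoserT
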