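import Pool.Agent.LibMoserT.LedKR
import Pool.Agent.LibMoserT.Cls
set_option autoImplicit false
/-!
# Ledger: class R with the window bounds `A` (helper41)
-/
namespace Pool.Agent.LibMoserT
open Pool.Agent.LibMoser5 Pool.Agent.LibMoserF Classical

noncomputable section

/-- the windows which reach `j` -/
theorem kr_range {q : ℝ} (hq : 0 < q) {k j : ℕ} (hk : 8172 ≤ k) (hj : 1 ≤ j)
    (h : Reach q k j) : 12 * j ^ 3 < (k + 20) ^ 4 ∧ k ^ 4 < 108 * (j + 1) ^ 3 := by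
  obtain ⟨h5, h20⟩ := kpR_spec k
  obtain ⟨hr1, hr2⟩ := h
  obtain ⟨i, hi⟩ : ∃ i, kpR k = k + i := ⟨kpR k - k, by omega⟩
  rw [hi] at hr1 hr2 h5 h20
  have hk0 : (8172 : ℝ) ≤ k := by exact_mod_cast hk
  have hi5 : (5 : ℝ) ≤ i := by
    have : 5 ≤ i := by omega
    exact_mod_cast this
  have hi20 : (i : ℝ) ≤ 20 := by
    have : i ≤ 20 := by omega
    exact_mod_cast this
  have h1 := kr_lo (a := (k : ℝ) + 1) (b := (k : ℝ) + i) hq (by linarith) (by linarith) hj (by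
    unfold th at hr2
    push_cast at hr2
    exact hr2)
  have h2 := kr_hi (a := (k : ℝ)) (b := (k : ℝ) + i + 16) hq (by linarith) (by linarith) (by
    unfold th at hr1
    push_cast at hr1
    exact hr1)
  have hj3 : (0 : ℝ) ≤ (j : ℝ) ^ 3 := by positivity
  have hj13 : (0 : ℝ) ≤ ((j : ℝ) + 1) ^ 3 := by positivity
  have h3 : 12 * (j : ℝ) ^ 3 < ((k : ℝ) + 20) ^ 4 := by
    have e1 : ((k : ℝ) + i) ^ 4 ≤ ((k : ℝ) + 20) ^ 4 := pow_le_pow_left₀ (by linarith) (by linarith) 4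
    nlinarith
  have h4 : (k : ℝ) ^ 4 < 108 * ((j : ℝ) + 1) ^ 3 := by nlinarith
  constructor
  · exact_mod_cast h3
  · exact_mod_cast h4

/-- contribution of window `k` to window `j` per unit of `A k` -/
def wR (q : ℝ) (k j : ℕ) : ℝ := if Reach q k j then wgt q k j else 0

theorem wgt_nonneg {q : ℝ} (hq : 0 < q) {k j : ℕ} (hk : 1 ≤ k) (hj : 1 ≤ j) :
    0 ≤ wgt q k j := by
  have hth : ∀ n : ℕ, 1 ≤ n → 0 < th q n := by
    intro n hn
    have : (0 : ℝ) < n := by exact_mod_cast hn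
    unfold th; positivity
  have hmono : ∀ n : ℕ, 1 ≤ n → th q (n + 1) < th q n := by
    intro n hn
    have : (0 : ℝ) < n := by exact_mod_cast hn
    unfold th
    push_cast
    apply div_lt_div_of_pos_left hq (by positivity)
    exact pow_lt_pow_left₀ (by linarith) this.le (by norm_num)
  obtain ⟨h5, h20⟩ := kpR_spec k
  have a1 := hth k hk
  have a2 := hmono k hk
  have a3 := hth (k + 1) (by omega)
  have a4 := hth (kpR k + 16) (by omega)
  have a5 := hth (kpR k) (by omega)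
  have a6 := hth j hj
  have a7 := hth (j + 1) (by omega)
  have a8 := hmono j hj
  have a9 : 0 < th q j - th q (j + 1) := by linarith
  have a10 : 0 < th q k - th q (k + 1) := by linarith
  have a11 := hth (33 * (k + 20) / 32) (by omega)
  unfold wgt om
  positivity

theorem wR_nonneg {q : ℝ} (hq : 0 < q) {k j : ℕ} (hk : 1 ≤ k) (hj : 1 ≤ j) : 0 ≤ wR q k j := by
  unfold wR
  split_ifs
  · exact wgt_nonneg hq hk hj
  · exact le_rfl

/-- **R part of the ledger** -/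
theorem R_sum {q : ℝ} (hq : 0 < q) (hq4 : q ≤ 4096) {j : ℕ} (hj : 34000 ≤ j) {X Y c : ℝ}
    (hX0 : 0 < X) (hX : X ^ 4 ≤ 63 * (j : ℝ) ^ 3) (hY0 : 8192 ≤ Y)
    (hY : ∀ K : ℕ, 8177 ≤ K → 12 * (j : ℝ) ^ 3 < (K : ℝ) ^ 4 → 16 ∣ K → Y ≤ K)
    (hc : q * j ≤ 96 * c * (Y - 16) ^ 2) (A : ℕ → ℝ) (M : ℝ) (hM : 0 ≤ M)
    (hA : ∀ k, 8172 ≤ k → 12 * j ^ 3 < (k + 20) ^ 4 → k ^ 4 < 108 * (j + 1) ^ 3 → A k ≤ M)
    (N : ℕ) :
    ∑ k ∈ Finset.Ico 8172 N, A k * wR q k j ≤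
      M * ((1 + 54 / Y) * (1 + 100 / Y) *
        (3 * (456 * (1 + 52 / X) ^ 4 - 184 * (1 - 3 / (j : ℝ))) / 1024 + c)) := by
  have h1 := KR_sum hq hq4 hj hX0 hX hY0 hY hc N
  refine le_trans ?_ (mul_le_mul_of_nonneg_left h1 hM)
  rw [Finset.mul_sum, Finset.sum_filter]
  refine Finset.sum_le_sum fun k hk => ?_
  rw [Finset.mem_Ico] at hk
  unfold wR
  split_ifs with hr
  · obtain ⟨r1, r2⟩ := kr_range hq hk.1 (by omega) hr
    exact mul_le_mul_of_nonneg_right (hA k hk.1 r1 r2) (wgt_nonneg hq (by omega) (by omega))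
  · simp

/-- for `j < 34569` nothing reaches `j` -/
theorem R_none {q : ℝ} (hq : 0 < q) {j : ℕ} (hj0 : 1 ≤ j) (hj : j ≤ 34560) (A : ℕ → ℝ) (N : ℕ) :
    ∑ k ∈ Finset.Ico 8172 N, A k * wR q k j = 0 := by
  refine Finset.sum_eq_zero fun k hk => ?_
  rw [Finset.mem_Ico] at hk
  unfold wR
  split_ifs with hr
  · exfalso
    obtain ⟨_, r2⟩ := kr_range hq hk.1 hj0 hr
    have h1 : 8172 ^ 4 ≤ k ^ 4 := Nat.pow_le_pow_left hk.1 4
    have h2 : 108 * (j + 1) ^ 3 ≤ 108 * 34561 ^ 3 :=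
      Nat.mul_le_mul_left _ (Nat.pow_le_pow_left (by omega) 3)
    omega
  · simp

/-- births of window `k` per unit of `A k`: `ms/σ * (delay + half of the pool)` -/
def bR (q : ℝ) (k : ℕ) : ℝ :=
  om q k / th q (kpR k + 16) *
    (th q k - th q (kpR k) +
      (th q (kpR k)) ^ 2 * (((pool q (kpR k) (kpR k + 16)).card : ℝ) + 1) / 2)

theorem kr_birth {q : ℝ} (hq : 0 < q) (hq4 : q ≤ 4096) {k : ℕ} (hk : 8172 ≤ k) :
    bR q k ≤ 9 * (((kpR k - k : ℕ) : ℝ) + 8) / (k : ℝ) ^ 2 * (1 + 130 / (k : ℝ)) := by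
  obtain ⟨h5, h20⟩ := kpR_spec k
  unfold bR
  set K := kpR k with hK
  obtain ⟨i, hi⟩ : ∃ i, K = k + i := ⟨K - k, by omega⟩
  have hi5 : (5 : ℝ) ≤ i := by
    have : 5 ≤ i := by omega
    exact_mod_cast this
  have hi20 : (i : ℝ) ≤ 20 := by
    have : i ≤ 20 := by omega
    exact_mod_cast this
  have hKi : K - k = i := by omega
  rw [hKi]
  have hk0 : (8172 : ℝ) ≤ k := by exact_mod_cast hk
  have hkp : (0 : ℝ) < k := by linarith
  have hKr : (K : ℝ) = k + i := by rw [hi]; push_cast; rfl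
  have hKp : (0 : ℝ) < K := by linarith
  have e1 : ((K + 16 : ℕ) : ℝ) = (K : ℝ) + 16 := by push_cast; rfl
  have hcard : ((pool q K (K + 16)).card : ℝ) ≤ (((K + 16 : ℕ) : ℝ) ^ 3 - (K : ℝ) ^ 3) / q + 1 := by
    refine card_pool_le hq (by omega) ?_
    rw [le_div_iff₀ hq]
    nlinarith [pow_le_pow_left₀ (by norm_num) (by linarith : (8000 : ℝ) ≤ K) 3]
  rw [e1] at hcard
  -- delay
  have hd1 : th q k - th q K ≤ 3 * q * i / (k : ℝ) ^ 4 := by
    unfold th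
    rw [div_sub_div _ _ (by positivity) (by positivity), div_le_div_iff₀ (by positivity)
      (by positivity)]
    rw [hKr]
    have hi0 : (0 : ℝ) ≤ i := by linarith
    have e : 3 * q * (i : ℝ) * ((k : ℝ) ^ 3 * ((k : ℝ) + i) ^ 3) -
        (q * ((k : ℝ) + i) ^ 3 - (k : ℝ) ^ 3 * q) * (k : ℝ) ^ 4 =
        q * (k : ℝ) ^ 3 * (i : ℝ) ^ 2 * (6 * (k : ℝ) ^ 2 + 8 * k * i + 3 * (i : ℝ) ^ 2) := by ring
    have : 0 ≤ q * (k : ℝ) ^ 3 * (i : ℝ) ^ 2 * (6 * (k : ℝ) ^ 2 + 8 * k * i + 3 * (i : ℝ) ^ 2) := by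
      positivity
    linarith
  -- half of the pool
  have hd2 : (th q K) ^ 2 * (((pool q K (K + 16)).card : ℝ) + 1) / 2 ≤
      24 * q / (k : ℝ) ^ 4 * (1 + 17 / (k : ℝ)) := by
    have h1 : (th q K) ^ 2 * (((pool q K (K + 16)).card : ℝ) + 1) / 2 ≤
        (th q K) ^ 2 * ((((K : ℝ) + 16) ^ 3 - (K : ℝ) ^ 3) / q + 2) / 2 := by
      have : 0 ≤ (th q K) ^ 2 := by positivity
      nlinarith
    refine h1.trans ?_
    have e2 : (th q K) ^ 2 * ((((K : ℝ) + 16) ^ 3 - (K : ℝ) ^ 3) / q + 2) / 2 =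
        q * (24 * (K : ℝ) ^ 2 + 384 * K + 2048 + q) / (K : ℝ) ^ 6 := by
      unfold th
      field_simp
      ring
    rw [e2]
    have h2 : q * (24 * (K : ℝ) ^ 2 + 384 * K + 2048 + q) / (K : ℝ) ^ 6 ≤
        q * (24 * (k : ℝ) ^ 2 + 384 * k + 6144) / (k : ℝ) ^ 6 := by
      have h3 : q * (24 * (K : ℝ) ^ 2 + 384 * K + 2048 + q) / (K : ℝ) ^ 6 =
          q * (24 / (K : ℝ) ^ 4 + 384 / (K : ℝ) ^ 5 + (2048 + q) / (K : ℝ) ^ 6) := by
        field_simp
        ring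
      have h4 : q * (24 * (k : ℝ) ^ 2 + 384 * k + 6144) / (k : ℝ) ^ 6 =
          q * (24 / (k : ℝ) ^ 4 + 384 / (k : ℝ) ^ 5 + 6144 / (k : ℝ) ^ 6) := by
        field_simp
      rw [h3, h4]
      have hkK : (k : ℝ) ≤ K := by linarith
      have a4 : 24 / (K : ℝ) ^ 4 ≤ 24 / (k : ℝ) ^ 4 :=
        div_le_div_of_nonneg_left (by norm_num) (by positivity) (pow_le_pow_left₀ hkp.le hkK 4)
      have a5 : 384 / (K : ℝ) ^ 5 ≤ 384 / (k : ℝ) ^ 5 :=
        div_le_div_of_nonneg_left (by norm_num) (by positivity) (pow_le_pow_left₀ hkp.le hkK 5)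
      have a6 : (2048 + q) / (K : ℝ) ^ 6 ≤ 6144 / (k : ℝ) ^ 6 :=
        div_le_div₀ (by norm_num) (by linarith) (by positivity) (pow_le_pow_left₀ hkp.le hkK 6)
      exact mul_le_mul_of_nonneg_left (by linarith) hq.le
    refine h2.trans ?_
    have h5 : 24 * q / (k : ℝ) ^ 4 * (1 + 17 / (k : ℝ)) = q * (24 * (k : ℝ) ^ 2 + 408 * k) / (k : ℝ) ^ 6 := by
      field_simp
      ring
    rw [h5]
    apply div_le_div_of_nonneg_right _ (by positivity)
    apply mul_le_mul_of_nonneg_left _ hq.le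
    nlinarith
  have hsum : th q k - th q K + (th q K) ^ 2 * (((pool q K (K + 16)).card : ℝ) + 1) / 2 ≤
      3 * q / (k : ℝ) ^ 4 * ((i : ℝ) + 8) * (1 + 17 / (k : ℝ)) := by
    have h17 : 0 ≤ 17 / (k : ℝ) := by positivity
    have h1 : 3 * q * i / (k : ℝ) ^ 4 ≤ 3 * q * i / (k : ℝ) ^ 4 * (1 + 17 / (k : ℝ)) := by
      have : 0 ≤ 3 * q * i / (k : ℝ) ^ 4 := by positivity
      nlinarith
    have e : 3 * q / (k : ℝ) ^ 4 * ((i : ℝ) + 8) * (1 + 17 / (k : ℝ)) =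
        3 * q * i / (k : ℝ) ^ 4 * (1 + 17 / (k : ℝ)) + 24 * q / (k : ℝ) ^ 4 * (1 + 17 / (k : ℝ)) := by
      ring
    rw [e]
    linarith
  have hom : om q k / th q (K + 16) = (3 * (k : ℝ) ^ 2 + 3 * k + 1) * ((K : ℝ) + 16) ^ 3 /
      (q * (k : ℝ) ^ 3) := by
    unfold om th
    push_cast
    field_simp
    ring
  rw [hom]
  have hn : 0 ≤ (3 * (k : ℝ) ^ 2 + 3 * k + 1) * ((K : ℝ) + 16) ^ 3 / (q * (k : ℝ) ^ 3) := by
    positivity
  refine (mul_le_mul_of_nonneg_left hsum hn).trans ?_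
  have hfin : (3 * (k : ℝ) ^ 2 + 3 * k + 1) * ((K : ℝ) + 16) ^ 3 * ((k : ℝ) + 17) ≤
      3 * (k : ℝ) ^ 5 * ((k : ℝ) + 130) := by
    have h1 : ((K : ℝ) + 16) ^ 3 ≤ ((k : ℝ) + 36) ^ 3 := pow_le_pow_left₀ (by positivity) (by linarith) 3
    have h2 : (3 * (k : ℝ) ^ 2 + 3 * k + 1) * ((K : ℝ) + 16) ^ 3 * ((k : ℝ) + 17) ≤
        (3 * (k : ℝ) ^ 2 + 3 * k + 1) * ((k : ℝ) + 36) ^ 3 * ((k : ℝ) + 17) := by
      apply mul_le_mul_of_nonneg_right _ (by positivity)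
      exact mul_le_mul_of_nonneg_left h1 (by positivity)
    refine h2.trans ?_
    have e : 3 * (k : ℝ) ^ 5 * ((k : ℝ) + 130) -
        (3 * (k : ℝ) ^ 2 + 3 * k + 1) * ((k : ℝ) + 36) ^ 3 * ((k : ℝ) + 17) =
        (k : ℝ) ^ 4 * (12 * k - 17548) - 355553 * (k : ℝ) ^ 3 - 2723436 * (k : ℝ) ^ 2 -
          2492208 * k - 793152 := by ring
    have b1 : (k : ℝ) ^ 4 * 80000 ≤ (k : ℝ) ^ 4 * (12 * k - 17548) :=
      mul_le_mul_of_nonneg_left (by linarith) (by positivity)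
    have b2 : (0 : ℝ) ≤ (k : ℝ) ^ 3 * (k - 8172) := mul_nonneg (by positivity) (by linarith)
    have b3 : (0 : ℝ) ≤ (k : ℝ) ^ 2 * (k - 8172) := mul_nonneg (by positivity) (by linarith)
    have b4 : (0 : ℝ) ≤ (k : ℝ) * (k - 8172) := mul_nonneg (by positivity) (by linarith)
    nlinarith
  have e3 : (3 * (k : ℝ) ^ 2 + 3 * k + 1) * ((K : ℝ) + 16) ^ 3 / (q * (k : ℝ) ^ 3) *
      (3 * q / (k : ℝ) ^ 4 * ((i : ℝ) + 8) * (1 + 17 / (k : ℝ))) =
      3 * ((i : ℝ) + 8) * ((3 * (k : ℝ) ^ 2 + 3 * k + 1) * ((K : ℝ) + 16) ^ 3 * ((k : ℝ) + 17)) /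
        (k : ℝ) ^ 8 := by
    field_simp
  have e4 : 9 * ((i : ℝ) + 8) / (k : ℝ) ^ 2 * (1 + 130 / (k : ℝ)) =
      3 * ((i : ℝ) + 8) * (3 * (k : ℝ) ^ 5 * ((k : ℝ) + 130)) / (k : ℝ) ^ 8 := by
    field_simp
    ring
  rw [e3, e4]
  apply div_le_div_of_nonneg_right _ (by positivity)
  exact mul_le_mul_of_nonneg_left hfin (by positivity)

theorem bR_nonneg {q : ℝ} (hq : 0 < q) {k : ℕ} (hk : 1 ≤ k) : 0 ≤ bR q k := by
  obtain ⟨h5, h20⟩ := kpR_spec k
  have hkp : (0 : ℝ) < k := by exact_mod_cast hk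
  have hkK : (k : ℝ) ≤ (kpR k : ℝ) := by exact_mod_cast (by omega : k ≤ kpR k)
  have a1 : 0 ≤ th q k - th q (kpR k) := by
    unfold th
    rw [sub_nonneg]
    exact div_le_div_of_nonneg_left hq.le (by positivity) (pow_le_pow_left₀ hkp.le hkK 3)
  have a2 : 0 ≤ om q k := by
    unfold om th
    push_cast
    apply div_nonneg _ (by positivity)
    rw [sub_nonneg]
    exact div_le_div_of_nonneg_left hq.le (by positivity) (pow_le_pow_left₀ hkp.le (by linarith) 3)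
  have a3 : 0 ≤ th q (kpR k + 16) := by unfold th; positivity
  unfold bR
  positivity

/-- births of one group -/
theorem bR_group {q : ℝ} (hq : 0 < q) (hq4 : q ≤ 4096) {x : ℕ} (hx : 8172 ≤ x)
    (hx16 : 16 ∣ x + 20) :
    ∑ k ∈ Finset.Ico x (x + 16), bR q k ≤
      9 * 328 / (x : ℝ) ^ 2 * (1 + 130 / (x : ℝ)) := by
  have hx0 : (8172 : ℝ) ≤ x := by exact_mod_cast hx
  have hxp : (0 : ℝ) < x := by linarith
  have hb : ∀ k ∈ Finset.Ico x (x + 16), bR q k ≤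
      9 / (x : ℝ) ^ 2 * (1 + 130 / (x : ℝ)) * ((28 + (x : ℝ)) - k) := by
    intro k hk
    rw [Finset.mem_Ico] at hk
    have hkx : (x : ℝ) ≤ k := by exact_mod_cast hk.1
    have hkx2 : (k : ℝ) ≤ x + 16 := by exact_mod_cast hk.2.le
    have hkp : (0 : ℝ) < k := by linarith
    have hK : kpR k = x + 20 := by
      unfold kpR
      obtain ⟨c, hc⟩ := hx16
      omega
    refine (kr_birth hq hq4 (by omega)).trans ?_
    have hi : ((kpR k - k : ℕ) : ℝ) = x + 20 - k := by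
      rw [hK, Nat.cast_sub (by omega)]
      push_cast
      ring
    rw [hi]
    have h1 : (1 : ℝ) / (k : ℝ) ^ 2 ≤ 1 / (x : ℝ) ^ 2 :=
      div_le_div_of_nonneg_left (by norm_num) (by positivity) (pow_le_pow_left₀ hxp.le hkx 2)
    have h2 : 1 + 130 / (k : ℝ) ≤ 1 + 130 / (x : ℝ) := by
      have : 130 / (k : ℝ) ≤ 130 / (x : ℝ) := div_le_div_of_nonneg_left (by norm_num) hxp hkx
      linarith
    have h3 : 0 ≤ (x : ℝ) + 20 - k + 8 := by linarith
    have e1 : 9 * ((x : ℝ) + 20 - k + 8) / (k : ℝ) ^ 2 * (1 + 130 / (k : ℝ)) =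
        9 * ((x : ℝ) + 20 - k + 8) * ((1 / (k : ℝ) ^ 2) * (1 + 130 / (k : ℝ))) := by ring
    have e2 : 9 / (x : ℝ) ^ 2 * (1 + 130 / (x : ℝ)) * ((28 + (x : ℝ)) - k) =
        9 * ((x : ℝ) + 20 - k + 8) * ((1 / (x : ℝ) ^ 2) * (1 + 130 / (x : ℝ))) := by ring
    rw [e1, e2]
    apply mul_le_mul_of_nonneg_left _ (by positivity)
    exact mul_le_mul h1 h2 (by positivity) (by positivity)
  refine (Finset.sum_le_sum hb).trans (le_of_eq ?_)
  rw [← Finset.mul_sum]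
  have e : ∑ k ∈ Finset.Ico x (x + 16), ((28 + (x : ℝ)) - (k : ℝ)) = 328 := by
    rw [Finset.sum_Ico_eq_sum_range]
    simp only [add_tsub_cancel_left]
    norm_num [Finset.sum_range_succ]
    ring
  rw [e]
  ring

/-- births of a zone -/
theorem bR_zone {q : ℝ} (hq : 0 < q) (hq4 : q ≤ 4096) {a : ℕ} (ha : 8172 ≤ a)
    (ha16 : 16 ∣ a + 20) (n : ℕ) :
    ∑ k ∈ Finset.Ico a (a + 16 * n), bR q k ≤
      (369 / 2) * (1 + 130 / (a : ℝ)) * (1 / ((a : ℝ) - 16) - 1 / ((a : ℝ) + 16 * n - 16)) := by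
  have ha0 : (8172 : ℝ) ≤ a := by exact_mod_cast ha
  induction n with
  | zero => simp
  | succ n ih =>
    rw [← Finset.sum_Ico_consecutive _ (by omega : a ≤ a + 16 * n)
      (by omega : a + 16 * n ≤ a + 16 * (n + 1))]
    have h1 := bR_group hq hq4 (x := a + 16 * n) (by omega) (by
      obtain ⟨c, hc⟩ := ha16
      exact ⟨c + n, by omega⟩)
    have e : a + 16 * (n + 1) = a + 16 * n + 16 := by ring
    rw [e]
    have hn0 : (0 : ℝ) ≤ n := Nat.cast_nonneg _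
    have hx : ((a + 16 * n : ℕ) : ℝ) = (a : ℝ) + 16 * n := by push_cast; rfl
    rw [hx] at h1
    set x : ℝ := (a : ℝ) + 16 * n with hxdef
    have hx0 : (8172 : ℝ) ≤ x := by linarith
    have hxa : (a : ℝ) ≤ x := by linarith
    have h2 : 9 * 328 / x ^ 2 * (1 + 130 / x) ≤
        (369 / 2) * (1 + 130 / (a : ℝ)) * (1 / (x - 16) - 1 / x) := by
      have h3 : 130 / x ≤ 130 / (a : ℝ) := div_le_div_of_nonneg_left (by norm_num) (by linarith) hxa
      have h4 : 9 * 328 / x ^ 2 ≤ (369 / 2) * (1 / (x - 16) - 1 / x) := by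
        rw [div_sub_div _ _ (by linarith) (by linarith), mul_div_assoc',
          div_le_div_iff₀ (by positivity) (mul_pos (by linarith) (by linarith))]
        nlinarith
      have h5 : 0 ≤ 9 * 328 / x ^ 2 := by positivity
      calc 9 * 328 / x ^ 2 * (1 + 130 / x) ≤
          ((369 / 2) * (1 / (x - 16) - 1 / x)) * (1 + 130 / (a : ℝ)) :=
            mul_le_mul h4 (by linarith) (by positivity) (h5.trans h4)
        _ = _ := by ring
    have e2 : (a : ℝ) + 16 * ((n + 1 : ℕ) : ℝ) - 16 = x := by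
      push_cast
      rw [hxdef]
      ring
    rw [e2]
    have e3 : (369 / 2 : ℝ) * (1 + 130 / (a : ℝ)) * (1 / ((a : ℝ) - 16) - 1 / x) =
        (369 / 2) * (1 + 130 / (a : ℝ)) * (1 / ((a : ℝ) - 16) - 1 / (x - 16)) +
        (369 / 2) * (1 + 130 / (a : ℝ)) * (1 / (x - 16) - 1 / x) := by ring
    rw [e3]
    have ih' := ih
    linarith

/-- contribution of the rows of window `k` to window `j` -/
theorem srcR_D {q A : ℝ} (hq : 0 < q) (hA : 0 ≤ A) {k j : ℕ} (hk : 1 ≤ k) (hj : 1 ≤ j) {σm : ℝ}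
    (hσ : th q (33 * (k + 20) / 32) ≤ σm) : (srcR q A k).D q j σm ≤ A * wR q k j := by
  have hσ0 := th_pos hq (k := 33 * (k + 20) / 32) (by omega)
  obtain ⟨h5, h20⟩ := kpR_spec k
  have a4 := th_pos hq (k := kpR k + 16) (by omega)
  have a5 := th_pos hq (k := kpR k) (by omega)
  have a6 := th_pos hq (k := j) hj
  have a7 := th_pos hq (k := j + 1) (by omega)
  have a8 : th q (j + 1) ≤ th q j := th_anti hq hj (by omega)
  have a9 : 0 ≤ om q k := om_nonneg hq hk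
  unfold Src.D wR Src.reach Reach
  have e1 : (srcR q A k).pmax = th q k := rfl
  have e2 : (srcR q A k).σ = th q (kpR k + 16) := rfl
  have e3 : (srcR q A k).pmin = th q (k + 1) := rfl
  have e4 : (srcR q A k).S = th q (kpR k) := rfl
  have e5 : (srcR q A k).u = A * (om q k / (th q (kpR k + 16) *
      ((pool q (kpR k) (kpR k + 16)).card : ℝ))) := by
    have : (srcR q A k).u = A * om q k / (th q (kpR k + 16) *
      ((pool q (kpR k) (kpR k + 16)).card : ℝ)) := rfl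
    rw [this, mul_div_assoc]
  rw [e1, e2, e3, e4, e5]
  split_ifs
  · unfold wgt
    have h1 : th q j / σm ≤ th q j / th q (33 * (k + 20) / 32) :=
      div_le_div_of_nonneg_left a6.le hσ0 hσ
    have h2 : 0 ≤ th q (j + 1) / th q (kpR k + 16) +
        th q (kpR k) * (th q (j + 1) / (th q j - th q (j + 1))) :=
      add_nonneg (div_nonneg a7.le a4.le)
        (mul_nonneg a5.le (div_nonneg a7.le (by linarith)))
    have h3 : 0 ≤ om q k / (th q (kpR k + 16) * ((pool q (kpR k) (kpR k + 16)).card : ℝ)) :=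
      div_nonneg a9 (mul_nonneg a4.le (Nat.cast_nonneg _))
    rw [mul_assoc]
    apply mul_le_mul_of_nonneg_left _ hA
    apply mul_le_mul_of_nonneg_left _ h3
    apply mul_le_mul_of_nonneg_left _ h2
    linarith
  · simp

/-- births of window `k` -/
theorem srcR_T {q A : ℝ} (hq : 0 < q) (hA : 0 ≤ A) {k : ℕ} (hk : 1 ≤ k)
    (hne : (pool q (kpR k) (kpR k + 16)).Nonempty) : (srcR q A k).T ≤ A * bR q k := by
  obtain ⟨h5, h20⟩ := kpR_spec k
  have a4 := th_pos hq (k := kpR k + 16) (by omega)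
  have hc : (0 : ℝ) < (pool q (kpR k) (kpR k + 16)).card := by exact_mod_cast hne.card_pos
  have h1 := births_le hq (a := kpR k) (b := kpR k + 16) (by omega) (by omega) hne (th q k)
  have a9 : 0 ≤ om q k := om_nonneg hq hk
  unfold Src.T bR
  have e5 : (srcR q A k).u = A * (om q k / (th q (kpR k + 16) *
      ((pool q (kpR k) (kpR k + 16)).card : ℝ))) := by
    have : (srcR q A k).u = A * om q k / (th q (kpR k + 16) *
      ((pool q (kpR k) (kpR k + 16)).card : ℝ)) := rfl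
    rw [this, mul_div_assoc]
  have e6 : (srcR q A k).Q = pool q (kpR k) (kpR k + 16) := rfl
  have e7 : (srcR q A k).pmax = th q k := rfl
  rw [e5, e6, e7, mul_assoc]
  apply mul_le_mul_of_nonneg_left _ hA
  have h3 : 0 ≤ om q k / (th q (kpR k + 16) * ((pool q (kpR k) (kpR k + 16)).card : ℝ)) :=
      div_nonneg a9 (mul_nonneg a4.le (Nat.cast_nonneg _))
  refine (mul_le_mul_of_nonneg_left h1 h3).trans (le_of_eq ?_)
  field_simp

end

end Pool.Agent.LibMoserT
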