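import Pool.Agent.LibMoserT.LedG
import Pool.Agent.LibMoserT.LedR
set_option autoImplicit false
/-!
# Capacity of the classes R, G; error terms (helper8)
-/
namespace Pool.Agent.LibMoserT
open Pool.Agent.LibMoser5 Pool.Agent.LibMoserF Classical

noncomputable section

/-- a square lies in at most one of two disjoint pools -/
theorem pool_unique {q : ℝ} (hq : 0 < q) {n a b m : ℕ} (ha : 1 ≤ a) (hb : 1 ≤ b)
    (h1 : n ∈ pool q a (a + m)) (h2 : n ∈ pool q b (b + m)) : a < b + m ∧ b < a + m := by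
  rw [mem_pool hq ha (by omega)] at h1
  rw [mem_pool hq hb (by omega)] at h2
  constructor
  · by_contra hc
    have h3 : th q a ≤ th q (b + m) := th_anti hq (by omega) (by omega)
    linarith [h1.2, h2.1]
  · by_contra hc
    have h3 : th q b ≤ th q (a + m) := th_anti hq (by omega) (by omega)
    linarith [h2.2, h1.1]

/-- load of one window per unit of `A`: at most `(1 + 60/K)/16` -/
theorem srcR_u_le {a : ℝ} (ha : 0 ≤ a) {k : ℕ} (hk : 8172 ≤ k) :
    (srcR 2048 a k).u ≤ a * ((1 + 60 / (kpR k : ℝ)) / 16) := by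
  obtain ⟨h5, h20⟩ := kpR_spec k
  set K := kpR k with hK
  have hk0 : (8172 : ℝ) ≤ k := by exact_mod_cast hk
  have hK0 : (8177 : ℝ) ≤ K := by exact_mod_cast (by omega : 8177 ≤ K)
  have hKp : (0 : ℝ) < K := by linarith
  have hkK : (K : ℝ) ≤ k + 20 := by exact_mod_cast h20
  have hkK' : (k : ℝ) + 5 ≤ K := by exact_mod_cast h5
  have hcard : (((K + 16 : ℕ) : ℝ) ^ 3 - (K : ℝ) ^ 3) / 2048 - 1 ≤
      ((pool 2048 K (K + 16)).card : ℝ) := by
    refine card_pool_ge (by norm_num) (by omega) ?_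
    rw [le_div_iff₀ (by norm_num)]
    nlinarith [pow_le_pow_left₀ (by norm_num) hK0 3]
  have hc0 : 0 < (48 * (K : ℝ) ^ 2 + 768 * K + 2048) / 2048 := by positivity
  have hcard' : (48 * (K : ℝ) ^ 2 + 768 * K + 2048) / 2048 ≤
      ((pool 2048 K (K + 16)).card : ℝ) := by
    refine le_trans (le_of_eq ?_) hcard
    push_cast
    ring
  have hth : th 2048 (K + 16) = 2048 / ((K : ℝ) + 16) ^ 3 := by
    unfold th
    push_cast
    ring
  have hu : (srcR 2048 a k).u = a * om 2048 k / (th 2048 (K + 16) *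
      ((pool 2048 K (K + 16)).card : ℝ)) := rfl
  have hom : om 2048 k = (3 * (k : ℝ) ^ 2 + 3 * k + 1) / (k : ℝ) ^ 3 := by
    unfold om th
    push_cast
    have hkp : (0 : ℝ) < k := by linarith
    field_simp
    ring
  have hkp : (0 : ℝ) < k := by linarith
  -- bound of om
  have hom' : om 2048 k ≤ 3 / K * (1 + 22 / K) := by
    rw [hom]
    have h1 : (3 * (k : ℝ) ^ 2 + 3 * k + 1) / (k : ℝ) ^ 3 ≤ 3 / k + 3 / (k : ℝ) ^ 2 + 1 / (k : ℝ) ^ 3 := by
      apply le_of_eq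
      field_simp
    refine h1.trans ?_
    have h2 : (K : ℝ) - 20 ≤ k := by linarith
    have h3 : (0 : ℝ) < (K : ℝ) - 20 := by linarith
    have h4 : 3 / (k : ℝ) ≤ 3 / ((K : ℝ) - 20) := div_le_div_of_nonneg_left (by norm_num) h3 h2
    have h5 : 3 / (k : ℝ) ^ 2 ≤ 3 / ((K : ℝ) - 20) ^ 2 :=
      div_le_div_of_nonneg_left (by norm_num) (by positivity) (pow_le_pow_left₀ h3.le h2 2)
    have h6 : 1 / (k : ℝ) ^ 3 ≤ 1 / ((K : ℝ) - 20) ^ 3 :=
      div_le_div_of_nonneg_left (by norm_num) (by positivity) (pow_le_pow_left₀ h3.le h2 3)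
    have h7 : 3 / ((K : ℝ) - 20) + 3 / ((K : ℝ) - 20) ^ 2 + 1 / ((K : ℝ) - 20) ^ 3 ≤
        3 / K * (1 + 22 / K) := by
      have e1 : 3 / ((K : ℝ) - 20) + 3 / ((K : ℝ) - 20) ^ 2 + 1 / ((K : ℝ) - 20) ^ 3 =
          (3 * ((K : ℝ) - 20) ^ 2 + 3 * ((K : ℝ) - 20) + 1) / ((K : ℝ) - 20) ^ 3 := by
        field_simp
      have e2 : 3 / (K : ℝ) * (1 + 22 / K) = (3 * K + 66) / (K : ℝ) ^ 2 := by
        field_simp
        ring
      rw [e1, e2, div_le_div_iff₀ (by positivity) (by positivity)]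
      have e3 : (3 * (K : ℝ) + 66) * ((K : ℝ) - 20) ^ 3 -
          (3 * ((K : ℝ) - 20) ^ 2 + 3 * ((K : ℝ) - 20) + 1) * (K : ℝ) ^ 2 =
          3 * (K : ℝ) ^ 3 - 1501 * (K : ℝ) ^ 2 + 55200 * K - 528000 := by ring
      have h8 : 0 ≤ 3 * (K : ℝ) ^ 3 - 1501 * (K : ℝ) ^ 2 := by
        have : 0 ≤ (K : ℝ) ^ 2 * (3 * K - 1501) := mul_nonneg (by positivity) (by linarith)
        linarith
      linarith
    linarith
  have hden : 3 / (K : ℝ) * 16 * (1 - 32 / K) ≤ th 2048 (K + 16) * ((pool 2048 K (K + 16)).card : ℝ) := by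
    have h1 : 2048 / ((K : ℝ) + 16) ^ 3 * ((48 * (K : ℝ) ^ 2 + 768 * K + 2048) / 2048) ≤
        th 2048 (K + 16) * ((pool 2048 K (K + 16)).card : ℝ) := by
      rw [hth]
      exact mul_le_mul_of_nonneg_left hcard' (by positivity)
    refine le_trans ?_ h1
    have e1 : 2048 / ((K : ℝ) + 16) ^ 3 * ((48 * (K : ℝ) ^ 2 + 768 * K + 2048) / 2048) =
        (48 * (K : ℝ) ^ 2 + 768 * K + 2048) / ((K : ℝ) + 16) ^ 3 := by
      field_simp
    have e2 : 3 / (K : ℝ) * 16 * (1 - 32 / K) = (48 * K - 1536) / (K : ℝ) ^ 2 := by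
      field_simp
      ring
    rw [e1, e2, div_le_div_iff₀ (by positivity) (by positivity)]
    have e3 : (48 * (K : ℝ) ^ 2 + 768 * K + 2048) * (K : ℝ) ^ 2 -
        (48 * (K : ℝ) - 1536) * ((K : ℝ) + 16) ^ 3 =
        38912 * (K : ℝ) ^ 2 + 983040 * K + 6291456 := by ring
    have : 0 ≤ 38912 * (K : ℝ) ^ 2 + 983040 * K + 6291456 := by positivity
    linarith
  have hden0 : 0 < 3 / (K : ℝ) * 16 * (1 - 32 / K) := by
    have : 32 / (K : ℝ) < 1 := by
      rw [div_lt_one hKp]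
      linarith
    have h2 : (0 : ℝ) < 1 - 32 / K := by linarith
    positivity
  rw [hu, mul_div_assoc]
  apply mul_le_mul_of_nonneg_left _ ha
  have h1 : om 2048 k / (th 2048 (K + 16) * ((pool 2048 K (K + 16)).card : ℝ)) ≤
      (3 / K * (1 + 22 / K)) / (3 / (K : ℝ) * 16 * (1 - 32 / K)) :=
    div_le_div₀ (by positivity) hom' hden0 hden
  refine h1.trans ?_
  rw [div_le_div_iff₀ hden0 (by norm_num)]
  have h2 : (1 + 22 / (K : ℝ)) ≤ (1 + 60 / K) * (1 - 32 / K) := by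
    have e : (1 + 60 / (K : ℝ)) * (1 - 32 / K) - (1 + 22 / K) = (6 * K - 1920) / (K : ℝ) ^ 2 := by
      field_simp
      ring
    have : 0 ≤ (6 * (K : ℝ) - 1920) / (K : ℝ) ^ 2 := div_nonneg (by linarith) (by positivity)
    linarith
  have h3 : 0 ≤ 3 / (K : ℝ) * 16 := by positivity
  have h4 := mul_le_mul_of_nonneg_left h2 h3
  calc 3 / (K : ℝ) * (1 + 22 / K) * 16 = 3 / (K : ℝ) * 16 * (1 + 22 / K) := by ring
    _ ≤ 3 / (K : ℝ) * 16 * ((1 + 60 / K) * (1 - 32 / K)) := h4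
    _ = (1 + 60 / (K : ℝ)) * (3 / (K : ℝ) * 16 * (1 - 32 / K)) := by ring

/-- load of class R (every square lies in the pool of 16 windows) -/
theorem cap_R {D : TD} {a lam : ℕ → ℝ} (hD : Std41 D a lam) {g n : ℕ} (hg : 1 ≤ g) :
    ((D.wR g).map (fun k => if n ∈ (srcR D.q (D.A k) k).Q then (srcR D.q (D.A k) k).u else 0)).sum ≤
      a g * (1 + 60 / (fl 8192 g : ℝ)) := by
  have ha := hD.a0 g
  have hl := fl_ge (le_refl 8192) g
  have hlr : (8192 : ℝ) ≤ fl 8192 g := by exact_mod_cast hl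
  have hm : fl 8192 g ≤ fl 8192 (g + 1) := fl_mono (Nat.le_succ g)
  unfold TD.wR
  rw [std_q hD, std_fl hD, std_fl hD, sum_range']
  have e : fl 8192 g - 20 + (fl 8192 (g + 1) - fl 8192 g) = fl 8192 (g + 1) - 20 := by omega
  rw [e]
  set c : ℝ := a g * ((1 + 60 / (fl 8192 g : ℝ)) / 16) with hc
  have hc0 : 0 ≤ c := by rw [hc]; positivity
  by_cases hex : ∃ k ∈ Finset.Ico (fl 8192 g - 20) (fl 8192 (g + 1) - 20),
      n ∈ (srcR 2048 (D.A k) k).Q
  · obtain ⟨k0, hk0, hn0⟩ := hex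
    rw [Finset.mem_Ico] at hk0
    obtain ⟨s5, s20⟩ := kpR_spec k0
    have hn0' : n ∈ pool 2048 (kpR k0) (kpR k0 + 16) := hn0
    have h1 : ∀ k ∈ Finset.Ico (fl 8192 g - 20) (fl 8192 (g + 1) - 20),
        (if n ∈ (srcR 2048 (D.A k) k).Q then (srcR 2048 (D.A k) k).u else 0) ≤
          if k ∈ Finset.Ico (kpR k0 - 20) (kpR k0 - 4) then c else 0 := by
      intro k hk
      rw [Finset.mem_Ico] at hk
      split_ifs with h2 h3
      · rw [hD.A g k hg hk.1 hk.2]
        refine (srcR_u_le ha (by omega)).trans ?_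
        rw [hc]
        apply mul_le_mul_of_nonneg_left _ ha
        have h4 : (fl 8192 g : ℝ) ≤ kpR k := by
          have : fl 8192 g ≤ kpR k := by
            unfold kpR
            have := fl_dvd (l0 := 8192) (by norm_num) g
            omega
          exact_mod_cast this
        have h5 : 60 / (kpR k : ℝ) ≤ 60 / (fl 8192 g : ℝ) :=
          div_le_div_of_nonneg_left (by norm_num) (by linarith) h4
        linarith
      · exfalso
        apply h3
        have h2' : n ∈ pool 2048 (kpR k) (kpR k + 16) := h2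
        obtain ⟨t5, t20⟩ := kpR_spec k
        obtain ⟨u1, u2⟩ := pool_unique (q := 2048) (by norm_num) (by omega) (by omega) hn0' h2'
        rw [Finset.mem_Ico]
        unfold kpR at u1 u2 ⊢
        omega
      · exact hc0
      · exact le_rfl
    refine (Finset.sum_le_sum h1).trans ?_
    rw [← Finset.sum_filter]
    have h2 : ((Finset.Ico (fl 8192 g - 20) (fl 8192 (g + 1) - 20)).filter
        (fun k => k ∈ Finset.Ico (kpR k0 - 20) (kpR k0 - 4))).card ≤ 16 := by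
      have h3 : (Finset.Ico (fl 8192 g - 20) (fl 8192 (g + 1) - 20)).filter
          (fun k => k ∈ Finset.Ico (kpR k0 - 20) (kpR k0 - 4)) ⊆
            Finset.Ico (kpR k0 - 20) (kpR k0 - 4) := by
        intro k hk
        exact (Finset.mem_filter.1 hk).2
      refine (Finset.card_le_card h3).trans ?_
      rw [Nat.card_Ico]
      omega
    rw [Finset.sum_const, nsmul_eq_mul]
    have h3 : (((Finset.Ico (fl 8192 g - 20) (fl 8192 (g + 1) - 20)).filter
        (fun k => k ∈ Finset.Ico (kpR k0 - 20) (kpR k0 - 4))).card : ℝ) ≤ 16 := by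
      exact_mod_cast h2
    refine (mul_le_mul_of_nonneg_right h3 hc0).trans (le_of_eq ?_)
    rw [hc]
    ring
  · push Not at hex
    rw [Finset.sum_eq_zero]
    · positivity
    · intro k hk
      rw [if_neg (hex k hk)]

/-- load of class G (every square lies in one pool) -/
theorem cap_G {D : TD} {a lam : ℕ → ℝ} (hD : Std41 D a lam) {g n : ℕ} (hg : 1 ≤ g) :
    ((D.wG g).map (fun i => if n ∈ (srcG D.q (D.MG g i) (D.ug g) i).Q then
      (srcG D.q (D.MG g i) (D.ug g) i).u else 0)).sum ≤ lam g := by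
  have _ := hg
  have hlam := hD.lam0 g
  have hl := fl_ge (le_refl 8192) g
  rw [std_wG hD, std_q hD, hD.ug g]
  by_cases hex : ∃ i ∈ Finset.Ico (fl 8192 g / 32) (fl 8192 (g + 1) / 32),
      n ∈ (srcG 2048 (D.MG g i) 32 i).Q
  · obtain ⟨i0, hi0, hn0⟩ := hex
    rw [Finset.sum_eq_single_of_mem i0 hi0]
    · rw [if_pos hn0, hD.MG g i0]
      rw [Finset.mem_Ico] at hi0
      rw [srcG_u (by omega)]
    · intro i hi hne
      rw [if_neg]
      intro h2
      rw [Finset.mem_Ico] at hi hi0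
      have h3 : n ∈ pool 2048 (kG 32 i) (kG 32 i + 32) := h2
      have h4 : n ∈ pool 2048 (kG 32 i0) (kG 32 i0 + 32) := hn0
      rw [kG32] at h3 h4
      obtain ⟨u1, u2⟩ := pool_unique (q := 2048) (by norm_num) (by omega) (by omega) h3 h4
      omega
  · push Not at hex
    rw [Finset.sum_eq_zero]
    · exact hlam
    · intro k hk
      rw [if_neg (hex k hk)]

/-! ### sum of the cutting errors -/

theorem fl_vals : fl 8192 0 = 8192 ∧ fl 8192 1 = 8448 ∧ fl 8192 2 = 8704 ∧ fl 8192 3 = 8960 ∧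
    fl 8192 4 = 9216 ∧ fl 8192 5 = 9504 ∧ fl 8192 6 = 9792 ∧ fl 8192 7 = 10080 ∧
    fl 8192 8 = 10368 ∧ fl 8192 9 = 10688 ∧ fl 8192 10 = 11008 ∧ fl 8192 11 = 11328 ∧
    fl 8192 12 = 11680 ∧ fl 8192 13 = 12032 ∧ fl 8192 14 = 12384 ∧ fl 8192 15 = 12768 ∧
    fl 8192 16 = 13152 ∧ fl 8192 17 = 13536 ∧ fl 8192 18 = 13952 ∧ fl 8192 19 = 14368 ∧
    fl 8192 20 = 14816 ∧ fl 8192 21 = 15264 := by
  refine ⟨rfl, rfl, rfl, rfl, rfl, rfl, rfl, rfl, rfl, rfl, rfl, rfl, rfl, rfl, rfl, rfl, rfl, rfl,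
    rfl, rfl, rfl, rfl⟩

/-- error term of frame `h` -/
def errE (h : ℕ) : ℝ :=
  16 * 2048 / (((if h = 0 then 8192 else fl 8192 (h - 1) - 64 : ℕ) : ℕ) : ℝ) ^ 2 +
    43 * 5 * (2048 / (fl 8192 (h + 1) : ℝ) ^ 3 / 4)

theorem errE_nonneg (h : ℕ) : 0 ≤ errE h := by unfold errE; positivity

/-- potential for the tail -/
def psiE (g : ℕ) : ℝ := 615000 / ((fl 8192 (g - 1) : ℝ) - 64) ^ 2

theorem errE_step {g : ℕ} (hg : 1 ≤ g) : errE g + psiE (g + 1) ≤ psiE g := by
  obtain ⟨f, rfl⟩ : ∃ f, g = f + 1 := ⟨g - 1, by omega⟩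
  have h0 := fl_ge (le_refl 8192) f
  have h1 := fl_lower (le_refl 8192) f
  have h2 : fl 8192 f ≤ fl 8192 (f + 1 + 1) :=
    fl_mono (by omega)
  unfold errE psiE
  rw [if_neg (by omega)]
  simp only [Nat.add_sub_cancel]
  have e1 : ((fl 8192 f - 64 : ℕ) : ℝ) = (fl 8192 f : ℝ) - 64 := by
    rw [Nat.cast_sub (by omega)]; norm_num
  rw [e1]
  have h0r : (8192 : ℝ) ≤ fl 8192 f := by exact_mod_cast h0
  have h1r : 37 * (fl 8192 f : ℝ) ≤ 36 * fl 8192 (f + 1) := by exact_mod_cast h1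
  have h2r : (fl 8192 f : ℝ) ≤ fl 8192 (f + 1 + 1) := by exact_mod_cast h2
  set x : ℝ := (fl 8192 f : ℝ) - 64 with hx
  have hx0 : 8128 ≤ x := by rw [hx]; linarith
  have hxp : 0 < x := by linarith
  have h3 : 37 / 36 * x ≤ (fl 8192 (f + 1) : ℝ) - 64 := by rw [hx]; linarith
  have h4 : 615000 / ((fl 8192 (f + 1) : ℝ) - 64) ^ 2 ≤ 615000 / (37 / 36 * x) ^ 2 :=
    div_le_div_of_nonneg_left (by norm_num) (by positivity) (pow_le_pow_left₀ (by positivity) h3 2)
  have h5 : 2048 / (fl 8192 (f + 1 + 1) : ℝ) ^ 3 ≤ 2048 / (8128 * x ^ 2) := by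
    apply div_le_div_of_nonneg_left (by norm_num) (by positivity)
    have h6 : x ≤ (fl 8192 (f + 1 + 1) : ℝ) := by rw [hx]; linarith
    have h7 : x ^ 3 ≤ (fl 8192 (f + 1 + 1) : ℝ) ^ 3 := pow_le_pow_left₀ hxp.le h6 3
    have h8 : 8128 * x ^ 2 ≤ x ^ 3 := by
      have := mul_le_mul_of_nonneg_right hx0 (sq_nonneg x)
      nlinarith
    linarith
  have e2 : 615000 / (37 / 36 * x) ^ 2 = (615000 * 1296 / 1369) / x ^ 2 := by
    field_simp
    norm_num
  have e3 : 2048 / (8128 * x ^ 2) = (2048 / 8128) / x ^ 2 := by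
    field_simp
  have e4 : (16 * 2048 : ℝ) / x ^ 2 + 43 * 5 * ((2048 / 8128) / x ^ 2 / 4) +
      (615000 * 1296 / 1369) / x ^ 2 =
      (16 * 2048 + 43 * 5 * (2048 / 8128) / 4 + 615000 * 1296 / 1369) / x ^ 2 := by ring
  have h9 : (16 * 2048 + 43 * 5 * (2048 / 8128) / 4 + 615000 * 1296 / 1369 : ℝ) / x ^ 2 ≤
      615000 / x ^ 2 := by
    apply div_le_div_of_nonneg_right _ (by positivity)
    norm_num
  linarith

theorem errE_base : ∑ h ∈ Finset.range 21, errE h + psiE 21 ≤ 95 / 10000 := by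
  obtain ⟨v0, v1, v2, v3, v4, v5, v6, v7, v8, v9, v10, v11, v12, v13, v14, v15, v16, v17, v18, v19,
    v20, v21⟩ := fl_vals
  simp only [Finset.sum_range_succ, Finset.sum_range_zero, errE, psiE]
  norm_num [v0, v1, v2, v3, v4, v5, v6, v7, v8, v9, v10, v11, v12, v13, v14, v15, v16, v17, v18,
    v19, v20, v21]

theorem errE_sum (g : ℕ) : ∑ h ∈ Finset.range g, errE h ≤ 95 / 10000 := by
  have key : ∀ g : ℕ, 21 ≤ g → ∑ h ∈ Finset.range g, errE h + psiE g ≤ 95 / 10000 := by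
    intro g hg
    induction g, hg using Nat.le_induction with
    | base => exact errE_base
    | succ n hn ih =>
      rw [Finset.sum_range_succ]
      have := errE_step (g := n) (by omega)
      linarith
  have h1 : ∑ h ∈ Finset.range g, errE h ≤ ∑ h ∈ Finset.range (max g 21), errE h := by
    refine Finset.sum_le_sum_of_subset_of_nonneg ?_ (fun h _ _ => errE_nonneg h)
    intro h hh
    rw [Finset.mem_range] at hh ⊢
    exact lt_of_lt_of_le hh (le_max_left _ _)
  have h2 := key (max g 21) (le_max_right _ _)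
  have h3 : 0 ≤ psiE (max g 21) := by unfold psiE; positivity
  linarith

/-- sum of the cutting errors -/
theorem E_sum {D : TD} {a lam : ℕ → ℝ} (hD : Std41 D a lam) (g : ℕ) :
    ∑ h ∈ Finset.range g, (16 * D.q / (D.k0 h : ℝ) ^ 2 + 43 * chC * D.y0 h) ≤ 95 / 10000 := by
  refine le_trans (le_of_eq ?_) (errE_sum g)
  refine Finset.sum_congr rfl (fun h _ => ?_)
  unfold errE TD.y0 TD.k0 chC th
  rw [std_q hD, std_fl hD, std_fl hD, hD.k00]

/-! ### sum of the rounding errors -/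

/-- rounding error of one frame -/
theorem KE_le {g h j : ℕ} (hj : fl 8192 g - 20 ≤ j) (hh : h < g) :
    KE 2048 j (th 2048 (fl 8192 h)) (th 2048 (fl 8192 (h + 1))) ≤
      (4215 / 1000 * j) * th 2048 (fl 8192 h) := by
  have h0 := fl_ge (le_refl 8192) h
  have h1 : fl 8192 (h + 1) ≤ fl 8192 g := fl_mono hh
  have h2 : fl 8192 h ≤ fl 8192 (h + 1) := fl_mono (Nat.le_succ h)
  have hj0 : (8172 : ℝ) ≤ j := by exact_mod_cast (by omega : 8172 ≤ j)
  have hjp : (0 : ℝ) < j := by linarith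
  have h3 : (fl 8192 (h + 1) : ℝ) ≤ (j : ℝ) + 20 := by
    exact_mod_cast (by omega : fl 8192 (h + 1) ≤ j + 20)
  have h4 : (8192 : ℝ) ≤ fl 8192 (h + 1) := by exact_mod_cast (by omega : 8192 ≤ fl 8192 (h + 1))
  have ej : ((j + 1 : ℕ) : ℝ) = (j : ℝ) + 1 := by push_cast; rfl
  have hs : 0 < th 2048 (fl 8192 h) := th_pos (by norm_num) (by omega)
  unfold KE
  have e2 : th 2048 (j + 1) / (th 2048 j - th 2048 (j + 1)) ≤ j / 3 := by
    have e3 : th 2048 (j + 1) / (th 2048 j - th 2048 (j + 1)) =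
        (j : ℝ) ^ 3 / (3 * (j : ℝ) ^ 2 + 3 * j + 1) := by
      unfold th
      rw [ej]
      have : ((2048 : ℝ) / (j : ℝ) ^ 3 - 2048 / ((j : ℝ) + 1) ^ 3) =
          2048 * (3 * (j : ℝ) ^ 2 + 3 * j + 1) / ((j : ℝ) ^ 3 * ((j : ℝ) + 1) ^ 3) := by
        field_simp
        ring
      rw [this]
      have : (0 : ℝ) < 3 * (j : ℝ) ^ 2 + 3 * j + 1 := by positivity
      field_simp
    rw [e3, div_le_div_iff₀ (by positivity) (by norm_num)]
    nlinarith [mul_pos hjp hjp]
  have e2' : 0 ≤ th 2048 (j + 1) / (th 2048 j - th 2048 (j + 1)) := by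
    have b1 : th 2048 (j + 1) < th 2048 j := th_lt (by norm_num) (by omega : 0 < j) (Nat.lt_succ_self j)
    have b2 : 0 < th 2048 (j + 1) := th_pos (by norm_num) (by omega)
    exact div_nonneg b2.le (by linarith)
  have e5 : 1 + 4 / 5 * (th 2048 j / th 2048 (fl 8192 (h + 1))) ≤ 18061 / 10000 := by
    have e6 : th 2048 j / th 2048 (fl 8192 (h + 1)) = ((fl 8192 (h + 1) : ℝ) / j) ^ 3 := by
      unfold th
      have : (0 : ℝ) < fl 8192 (h + 1) := by linarith
      field_simp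
    rw [e6]
    have e7 : (fl 8192 (h + 1) : ℝ) / j ≤ 8192 / 8172 := by
      rw [div_le_div_iff₀ hjp (by norm_num)]
      linarith
    have e8 : ((fl 8192 (h + 1) : ℝ) / j) ^ 3 ≤ (8192 / 8172) ^ 3 :=
      pow_le_pow_left₀ (by positivity) e7 3
    have e9 : ((8192 : ℝ) / 8172) ^ 3 ≤ 10074 / 10000 := by norm_num
    linarith
  have e5' : 0 ≤ 1 + 4 / 5 * (th 2048 j / th 2048 (fl 8192 (h + 1))) := by
    have : 0 < th 2048 j := th_pos (by norm_num) (by omega)
    have : 0 < th 2048 (fl 8192 (h + 1)) := th_pos (by norm_num) (by omega)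
    positivity
  calc 7 * th 2048 (fl 8192 h) * (th 2048 (j + 1) / (th 2048 j - th 2048 (j + 1))) *
        (1 + 4 / 5 * (th 2048 j / th 2048 (fl 8192 (h + 1))))
      ≤ 7 * th 2048 (fl 8192 h) * (j / 3) * (18061 / 10000) := by
        apply mul_le_mul _ e5 e5' (by positivity)
        exact mul_le_mul_of_nonneg_left e2 (by positivity)
    _ = (7 / 3 * (18061 / 10000) * j) * th 2048 (fl 8192 h) := by ring
    _ ≤ (4215 / 1000 * j) * th 2048 (fl 8192 h) := by
        apply mul_le_mul_of_nonneg_right _ hs.le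
        apply mul_le_mul_of_nonneg_right _ hjp.le
        norm_num

/-- geometric sum of the frame edges -/
theorem th_geo {f0 g : ℕ} (h : f0 ≤ g) :
    ∑ h ∈ Finset.Ico f0 g, th 2048 (fl 8192 h) ≤
      (50653 / 3997) * (th 2048 (fl 8192 f0) - th 2048 (fl 8192 g)) := by
  induction g, h using Nat.le_induction with
  | base => simp
  | succ n hn ih =>
    rw [Finset.sum_Ico_succ_top hn]
    have h0 := fl_ge (le_refl 8192) n
    have h1 := fl_lower (le_refl 8192) n
    have h0r : (8192 : ℝ) ≤ fl 8192 n := by exact_mod_cast h0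
    have h1r : 37 * (fl 8192 n : ℝ) ≤ 36 * fl 8192 (n + 1) := by exact_mod_cast h1
    have h2 : th 2048 (fl 8192 (n + 1)) ≤ 46656 / 50653 * th 2048 (fl 8192 n) := by
      unfold th
      have h3 : 37 / 36 * (fl 8192 n : ℝ) ≤ fl 8192 (n + 1) := by linarith
      have h4 : (2048 : ℝ) / (fl 8192 (n + 1) : ℝ) ^ 3 ≤ 2048 / (37 / 36 * (fl 8192 n : ℝ)) ^ 3 :=
        div_le_div_of_nonneg_left (by norm_num) (by positivity)
          (pow_le_pow_left₀ (by positivity) h3 3)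
      refine h4.trans (le_of_eq ?_)
      have : (0 : ℝ) < fl 8192 n := by linarith
      field_simp
      norm_num
    linarith

/-- a frame before `f0` has no source which reaches window `j` -/
theorem KEE_zero {D : TD} {a lam : ℕ → ℝ} (hD : Std41 D a lam) {h j f0 : ℕ} (hj : 8172 ≤ j)
    (hh : h < f0) (hR : (fl 8192 f0 : ℝ) ^ 4 ≤ 12 * (j : ℝ) ^ 3)
    (hO : ∀ c, D.fc h ≤ c → c < D.fc (h + 1) → th D.q j ≤ D.pmn c - sd (D.qa c)) :
    D.KEE h j = 0 := by
  have h0 := fl_ge (le_refl 8192) h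
  have h1 : fl 8192 (h + 1) ≤ fl 8192 f0 := fl_mono hh
  have h2 : fl 8192 h ≤ fl 8192 (h + 1) := fl_mono (Nat.le_succ h)
  have hfr : ∀ K : ℕ, K ≤ fl 8192 f0 → ¬ (12 * (j : ℝ) ^ 3 < (K : ℝ) ^ 4) := by
    intro K hK hlt
    have hK' : (K : ℝ) ≤ fl 8192 f0 := by exact_mod_cast hK
    have h3 : (K : ℝ) ^ 4 ≤ (fl 8192 f0 : ℝ) ^ 4 := pow_le_pow_left₀ (Nat.cast_nonneg _) hK' 4
    linarith
  -- the difference `th (K - 4) - th K`
  have hfour : ∀ K p : ℕ, 8192 ≤ K → K ≤ fl 8192 f0 → p + 4 ≤ K → 1 ≤ p →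
      ¬ (th 2048 p - th 2048 K < th 2048 j) := by
    intro K p hK hK' hp hp1 hlt
    have hpr : (0 : ℝ) < p := by exact_mod_cast hp1
    have hpK : (p : ℝ) + 4 ≤ K := by exact_mod_cast hp
    have h3 := kr_lo (q := 2048) (a := (p : ℝ)) (b := (K : ℝ)) (by norm_num) hpr (by linarith)
      (by omega : 1 ≤ j) hlt
    apply hfr K hK'
    have h4 : 12 * (j : ℝ) ^ 3 ≤ 3 * ((K : ℝ) - p) * (j : ℝ) ^ 3 := by
      apply mul_le_mul_of_nonneg_right _ (by positivity)
      linarith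
    linarith
  unfold TD.KEE
  rw [if_neg]
  rintro (⟨z, hz, hr⟩ | ⟨hne, hr⟩)
  · unfold TD.srcs at hz
    rcases List.mem_append.1 hz with hz | hz
    · unfold TD.srcs1 at hz
      split_ifs at hz with hh0
      · simp at hz
      · rcases List.mem_append.1 hz with hz | hz
        · obtain ⟨k, hk, rfl⟩ := List.mem_map.1 hz
          unfold TD.wR at hk
          rw [List.mem_range'_1, std_fl hD, std_fl hD] at hk
          have hq := std_q hD
          rw [hq] at hr
          have hr' : Reach 2048 k j := hr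
          obtain ⟨r1, _⟩ := kr_range (q := 2048) (by norm_num) (by omega) (by omega) hr'
          apply hfr (k + 20) (by omega)
          exact_mod_cast r1
        · obtain ⟨i, hi, rfl⟩ := List.mem_map.1 hz
          unfold TD.wG at hi
          rw [List.mem_range'_1, std_fl hD, std_fl hD, hD.ug h] at hi
          rw [std_q hD, hD.ug h] at hr
          obtain ⟨_, r2⟩ := hr
          have e1 : (srcG 2048 (D.MG h i) 32 i).pmin = th 2048 (32 * (i + 1) - 36) := rfl
          have e2 : (srcG 2048 (D.MG h i) 32 i).S = th 2048 (kG 32 i) := rfl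
          rw [e1, e2, kG32] at r2
          exact hfour (32 * i) (32 * (i + 1) - 36) (by omega) (by omega) (by omega) (by omega) r2
    · obtain ⟨c, hc, rfl⟩ := List.mem_map.1 hz
      unfold TD.wO at hc
      rw [List.mem_range'_1] at hc
      have h3 := hO c hc.1 (by omega)
      obtain ⟨_, r2⟩ := hr
      have e1 : (D.srcO c).pmin = D.pmn c := rfl
      have e2 : (D.srcO c).S = sd (D.qa c) := rfl
      rw [e1, e2] at r2
      linarith
  · simp only [std_q hD, std_fl hD] at hr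
    obtain ⟨_, r2⟩ := hr
    have e1 : (srcJ 2048 0 (fl 8192 (h - 1)) (fl 8192 h) (fl 8192 (h + 1))).pmin =
      th 2048 (fl 8192 h - 64) := rfl
    have e2 : (srcJ 2048 0 (fl 8192 (h - 1)) (fl 8192 h) (fl 8192 (h + 1))).S =
      th 2048 (fl 8192 h) := rfl
    rw [e1, e2] at r2
    exact hfour (fl 8192 h) (fl 8192 h - 64) h0 (by omega) (by omega) (by omega) r2

/-- sum of the rounding errors; the frames before `f0` have no source which reaches window `j` -/
theorem KEE_sum {D : TD} {a lam : ℕ → ℝ} (hD : Std41 D a lam) {g j f0 : ℕ} (hg : 1 ≤ g)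
    (hj : fl 8192 g - 20 ≤ j) (hf0 : f0 ≤ g)
    (hR : f0 = 0 ∨ (fl 8192 f0 : ℝ) ^ 4 ≤ 12 * (j : ℝ) ^ 3)
    (hO : ∀ h, h < f0 → ∀ c, D.fc h ≤ c → c < D.fc (h + 1) →
      th D.q j ≤ D.pmn c - sd (D.qa c)) :
    ∑ h ∈ Finset.range g, D.KEE h j ≤ 56 * ((j : ℝ) + 1) * th 2048 (fl 8192 f0) := by
  have _ := hg
  have hgl := fl_ge (le_refl 8192) g
  have hj0 : 8172 ≤ j := by omega
  have hjr : (8172 : ℝ) ≤ j := by exact_mod_cast hj0
  have hfl0 := fl_ge (le_refl 8192) f0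
  have ht0 : 0 < th 2048 (fl 8192 f0) := th_pos (by norm_num) (by omega)
  have htg : 0 < th 2048 (fl 8192 g) := th_pos (by norm_num) (by omega)
  have h1 : ∀ h ∈ Finset.range f0, D.KEE h j = 0 := by
    intro h hh
    rw [Finset.mem_range] at hh
    rcases hR with hR | hR
    · omega
    · exact KEE_zero hD hj0 hh hR (hO h hh)
  rw [Finset.range_eq_Ico, ← Finset.sum_Ico_consecutive _ (Nat.zero_le f0) hf0,
    ← Finset.range_eq_Ico, Finset.sum_eq_zero h1, zero_add]
  have h2 : ∀ h ∈ Finset.Ico f0 g, D.KEE h j ≤ (4215 / 1000 * j) * th 2048 (fl 8192 h) := by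
    intro h hh
    rw [Finset.mem_Ico] at hh
    have h3 := KE_le hj hh.2
    have h4 : 0 < th 2048 (fl 8192 h) := th_pos (by norm_num) (by
      have := fl_ge (le_refl 8192) h
      omega)
    unfold TD.KEE TD.s0 TD.σm
    simp only [std_q hD, std_fl hD]
    split_ifs
    · exact h3
    · positivity
  refine (Finset.sum_le_sum h2).trans ?_
  rw [← Finset.mul_sum]
  have h3 := th_geo hf0
  have h4 : ∑ h ∈ Finset.Ico f0 g, th 2048 (fl 8192 h) ≤ (50653 / 3997) * th 2048 (fl 8192 f0) := by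
    linarith
  refine (mul_le_mul_of_nonneg_left h4 (by positivity)).trans ?_
  have e : 4215 / 1000 * (j : ℝ) * (50653 / 3997 * th 2048 (fl 8192 f0)) =
      (4215 / 1000 * (50653 / 3997) * j) * th 2048 (fl 8192 f0) := by ring
  rw [e]
  apply mul_le_mul_of_nonneg_right _ ht0.le
  have h5 : (4215 / 1000 * (50653 / 3997) : ℝ) ≤ 56 := by norm_num
  nlinarith

end

end Pool.Agent.LibMoserT
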