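import Pool.Agent.LibMoserT.LedDefs
set_option autoImplicit false
/-!
# Ledger: kernel sum of class R (helper41)

`m = 16`, `d = 4`.  Window `k` is served in the pool of the blocks `[K, K+16)`,
`K = kpR k`, `5 ≤ K - k ≤ 20`.
-/
namespace Pool.Agent.LibMoserT
open Pool.Agent.LibMoser5 Pool.Agent.LibMoserF Classical

noncomputable section

/-- weight of window `k` for the target window `j` (sides of the frame `≥ th q (33 (k + 20)/32)`) -/
def wgt (q : ℝ) (k j : ℕ) : ℝ :=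
  om q k / (th q (kpR k + 16) * ((pool q (kpR k) (kpR k + 16)).card : ℝ)) *
    ((th q (j + 1) / th q (kpR k + 16) +
      th q (kpR k) * (th q (j + 1) / (th q j - th q (j + 1)))) *
    (1 + 4 / 5 * (th q j / th q (33 * (k + 20) / 32))))

/-- window `k` can have children in window `j` -/
def Reach (q : ℝ) (k j : ℕ) : Prop :=
  th q (j + 1) < th q k - th q (kpR k + 16) ∧ th q (k + 1) - th q (kpR k) < th q j

theorem kpR_spec (k : ℕ) : k + 5 ≤ kpR k ∧ kpR k ≤ k + 20 := by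
  unfold kpR; omega

theorem kr_tele1 (J1 J2 : ℕ) (h : J1 ≤ J2) :
    ∑ J ∈ Finset.Icc J1 J2, (16 * (J : ℝ) + 16) ^ 3 ≤
      ((16 * (J2 : ℝ) + 32) ^ 4 - (16 * (J1 : ℝ) + 16) ^ 4) / 64 := by
  induction J2, h using Nat.le_induction with
  | base =>
    rw [Finset.Icc_self, Finset.sum_singleton]
    have : (0 : ℝ) ≤ J1 := Nat.cast_nonneg _
    nlinarith [mul_nonneg this this, mul_nonneg this (mul_nonneg this this)]
  | succ n hn ih =>
    rw [Finset.sum_Icc_succ_top (by omega)]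
    have h0 : (0 : ℝ) ≤ n := Nat.cast_nonneg _
    push_cast
    have : (16 * ((n : ℝ) + 1) + 16) ^ 3 ≤
        ((16 * ((n : ℝ) + 1) + 32) ^ 4 - (16 * (n : ℝ) + 32) ^ 4) / 64 := by
      nlinarith [mul_nonneg h0 h0, mul_nonneg h0 (mul_nonneg h0 h0)]
    linarith

theorem kr_tele2 (J1 J2 : ℕ) (h1 : 2 ≤ J1) (h : J1 ≤ J2) :
    ∑ J ∈ Finset.Icc J1 J2, 1 / (16 * (J : ℝ)) ^ 3 ≤
      (1 / (16 * (J1 : ℝ) - 16) ^ 2 - 1 / (16 * (J2 : ℝ)) ^ 2) / 32 := by
  have key : ∀ x : ℝ, 32 ≤ x → 1 / x ^ 3 ≤ (1 / (x - 16) ^ 2 - 1 / x ^ 2) / 32 := by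
    intro x hx
    have h1 : 0 < x - 16 := by linarith
    have h2 : 0 < x := by linarith
    rw [div_sub_div _ _ (by positivity) (by positivity), div_div, div_le_div_iff₀ (by positivity)
      (by positivity)]
    nlinarith [mul_pos h2 h2, mul_pos (mul_pos h2 h2) h2, mul_pos (mul_pos h2 h2) (mul_pos h2 h2),
      mul_nonneg (mul_nonneg h2.le h2.le) (mul_nonneg h2.le (by linarith : (0 : ℝ) ≤ x - 32))]
  induction J2, h using Nat.le_induction with
  | base =>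
    rw [Finset.Icc_self, Finset.sum_singleton]
    have : (2 : ℝ) ≤ J1 := by exact_mod_cast h1
    exact key _ (by linarith)
  | succ n hn ih =>
    rw [Finset.sum_Icc_succ_top (by omega)]
    have h0 : (2 : ℝ) ≤ n := by exact_mod_cast h1.trans hn
    have := key (16 * ((n + 1 : ℕ) : ℝ)) (by push_cast; linarith)
    have e : (16 * ((n + 1 : ℕ) : ℝ) - 16) = 16 * (n : ℝ) := by push_cast; ring
    rw [e] at this
    linarith

theorem kr_sub1 (T : Finset ℕ) (J1 J2 : ℕ) (h : ∀ J ∈ T, J1 ≤ J ∧ J ≤ J2) (h12 : J1 ≤ J2) :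
    ∑ J ∈ T, (16 * (J : ℝ) + 16) ^ 3 ≤
      ((16 * (J2 : ℝ) + 32) ^ 4 - (16 * (J1 : ℝ) + 16) ^ 4) / 64 := by
  refine le_trans ?_ (kr_tele1 J1 J2 h12)
  refine Finset.sum_le_sum_of_subset_of_nonneg ?_ (fun J _ _ => by positivity)
  intro J hJ
  exact Finset.mem_Icc.2 (h J hJ)

theorem kr_sub2 (T : Finset ℕ) (J1 J2 : ℕ) (h1 : 2 ≤ J1) (h : ∀ J ∈ T, J1 ≤ J ∧ J ≤ J2)
    (h12 : J1 ≤ J2) :
    ∑ J ∈ T, 1 / (16 * (J : ℝ)) ^ 3 ≤ 1 / (32 * (16 * (J1 : ℝ) - 16) ^ 2) := by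
  have h3 := kr_tele2 J1 J2 h1 h12
  have h4 : (0 : ℝ) ≤ 1 / (16 * (J2 : ℝ)) ^ 2 := by positivity
  have h5 : ∑ J ∈ T, 1 / (16 * (J : ℝ)) ^ 3 ≤ ∑ J ∈ Finset.Icc J1 J2, 1 / (16 * (J : ℝ)) ^ 3 := by
    refine Finset.sum_le_sum_of_subset_of_nonneg ?_ (fun J _ _ => by positivity)
    intro J hJ
    exact Finset.mem_Icc.2 (h J hJ)
  have e : 1 / (32 * (16 * (J1 : ℝ) - 16) ^ 2) = 1 / (16 * (J1 : ℝ) - 16) ^ 2 / 32 := by
    rw [div_div, mul_comm]
  rw [e]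
  linarith

/-- lower end of the range of `K` -/
theorem kr_lo {q : ℝ} (hq : 0 < q) {a b : ℝ} (ha : 0 < a) (hab : a ≤ b) {j : ℕ} (hj : 1 ≤ j)
    (h : q / a ^ 3 - q / b ^ 3 < q / (j : ℝ) ^ 3) : 3 * (b - a) * (j : ℝ) ^ 3 < b ^ 4 := by
  have hj0 : (0 : ℝ) < j := by exact_mod_cast hj
  have hb : 0 < b := lt_of_lt_of_le ha hab
  have h1 : q * (3 * (b - a)) / b ^ 4 ≤ q / a ^ 3 - q / b ^ 3 := by
    rw [div_sub_div _ _ (by positivity) (by positivity), div_le_div_iff₀ (by positivity)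
      (by positivity)]
    have h2 : 3 * (b - a) * a ^ 3 ≤ (b ^ 3 - a ^ 3) * b := by
      have h3 : 0 ≤ b - a := by linarith
      have e : (b ^ 3 - a ^ 3) * b - 3 * (b - a) * a ^ 3 =
          (b - a) * ((b ^ 2 + a * b + a ^ 2) * b - 3 * a ^ 3) := by ring
      have h4 : 0 ≤ (b ^ 2 + a * b + a ^ 2) * b - 3 * a ^ 3 := by
        have h5 : a ^ 3 ≤ a ^ 2 * b := by nlinarith [mul_pos ha ha]
        have h6 : a ^ 2 * b ≤ a * b * b := by nlinarith [mul_pos ha hb]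
        have h7 : a * b * b ≤ b ^ 2 * b := by nlinarith [mul_pos hb hb]
        nlinarith
      nlinarith [mul_nonneg h3 h4]
    have : q * (3 * (b - a)) * (a ^ 3 * b ^ 3) = q * b ^ 3 * (3 * (b - a) * a ^ 3) := by ring
    rw [this]
    have e2 : (q * b ^ 3 - a ^ 3 * q) * b ^ 4 = q * b ^ 3 * ((b ^ 3 - a ^ 3) * b) := by ring
    rw [e2]
    exact mul_le_mul_of_nonneg_left h2 (by positivity)
  have h2 := lt_of_le_of_lt h1 h
  rw [div_lt_div_iff₀ (by positivity) (by positivity)] at h2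
  have h3 : q * (3 * (b - a) * (j : ℝ) ^ 3) < q * b ^ 4 := by linarith
  exact lt_of_mul_lt_mul_left h3 hq.le

/-- upper end of the range of `k` -/
theorem kr_hi {q : ℝ} (hq : 0 < q) {a b : ℝ} (ha : 0 < a) (hab : a ≤ b) {j : ℕ}
    (h : q / ((j : ℝ) + 1) ^ 3 < q / a ^ 3 - q / b ^ 3) :
    a ^ 4 < 3 * (b - a) * ((j : ℝ) + 1) ^ 3 := by
  have hj0 : (0 : ℝ) < (j : ℝ) + 1 := by positivity
  have hb : 0 < b := lt_of_lt_of_le ha hab
  have h1 : q / a ^ 3 - q / b ^ 3 ≤ q * (3 * (b - a)) / a ^ 4 := by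
    rw [div_sub_div _ _ (by positivity) (by positivity), div_le_div_iff₀ (by positivity)
      (by positivity)]
    have h2 : (b ^ 3 - a ^ 3) * a ≤ 3 * (b - a) * b ^ 3 := by
      have h3 : 0 ≤ b - a := by linarith
      have h4 : 0 ≤ 3 * b ^ 3 - (b ^ 2 + a * b + a ^ 2) * a := by
        have h5 : a ^ 3 ≤ a ^ 2 * b := by nlinarith [mul_pos ha ha]
        have h6 : a ^ 2 * b ≤ a * b * b := by nlinarith [mul_pos ha hb]
        have h7 : a * b * b ≤ b ^ 2 * b := by nlinarith [mul_pos hb hb]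
        nlinarith
      nlinarith [mul_nonneg h3 h4]
    have e1 : (q * b ^ 3 - a ^ 3 * q) * a ^ 4 = q * a ^ 3 * ((b ^ 3 - a ^ 3) * a) := by ring
    have e2 : q * (3 * (b - a)) * (a ^ 3 * b ^ 3) = q * a ^ 3 * (3 * (b - a) * b ^ 3) := by ring
    rw [e1, e2]
    exact mul_le_mul_of_nonneg_left h2 (by positivity)
  have h2 := lt_of_lt_of_le h h1
  rw [div_lt_div_iff₀ (by positivity) (by positivity)] at h2
  have h3 : q * a ^ 4 < q * (3 * (b - a) * ((j : ℝ) + 1) ^ 3) := by linarith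
  exact lt_of_mul_lt_mul_left h3 hq.le

/-- the load part of the weight -/
theorem kr_om {q : ℝ} (hq : 0 < q) (hq4 : q ≤ 4096) {k K : ℕ} (h1 : k + 5 ≤ K) (h2 : K ≤ k + 20)
    (hk : 8100 ≤ k) :
    om q k / (th q (K + 16) * ((pool q K (K + 16)).card : ℝ)) ≤
      1 / 16 * (1 + 54 / ((K : ℝ) + 16)) := by
  have hk0 : (8100 : ℝ) ≤ k := by exact_mod_cast hk
  have hKk : (K : ℝ) ≤ k + 20 := by exact_mod_cast h2
  have hkK : (k : ℝ) + 5 ≤ K := by exact_mod_cast h1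
  have hkp : (0 : ℝ) < k := by linarith
  have hKp : (0 : ℝ) < K := by linarith
  set L : ℝ := (K : ℝ) + 16 with hL
  have hLp : 0 < L := by linarith
  have hcard : (((K + 16 : ℕ) : ℝ) ^ 3 - (K : ℝ) ^ 3) / q - 1 ≤ ((pool q K (K + 16)).card : ℝ) := by
    refine card_pool_ge hq (by omega) ?_
    rw [le_div_iff₀ hq]
    nlinarith [pow_le_pow_left₀ (by norm_num) (by linarith : (8000 : ℝ) ≤ K) 3]
  have e1 : ((K + 16 : ℕ) : ℝ) = L := by push_cast; rfl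
  rw [e1] at hcard
  have hKL : (K : ℝ) = L - 16 := by rw [hL]; ring
  have hden : (48 * L ^ 2 - 768 * L) / L ^ 3 ≤ th q (K + 16) * ((pool q K (K + 16)).card : ℝ) := by
    have e2 : th q (K + 16) = q / L ^ 3 := by unfold th; rw [e1]
    rw [e2, div_mul_eq_mul_div, div_le_div_iff_of_pos_right (by positivity)]
    have h3 : q * (((L ^ 3 - (K : ℝ) ^ 3) / q - 1)) ≤ q * ((pool q K (K + 16)).card : ℝ) :=
      mul_le_mul_of_nonneg_left hcard hq.le
    have e3 : q * (((L ^ 3 - (K : ℝ) ^ 3) / q - 1)) = L ^ 3 - (K : ℝ) ^ 3 - q := by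
      field_simp
    rw [e3, hKL] at h3
    nlinarith
  have hLk : L ≤ k + 36 := by linarith
  have hkL : (k : ℝ) ≤ L := by linarith
  have hdpos : 0 < (48 * L ^ 2 - 768 * L) / L ^ 3 := by
    apply div_pos _ (by positivity)
    nlinarith
  have hom : om q k = (3 * (k : ℝ) ^ 2 + 3 * k + 1) / (k : ℝ) ^ 3 := by
    unfold om th
    push_cast
    field_simp
    ring
  rw [hom]
  have hn : 0 ≤ (3 * (k : ℝ) ^ 2 + 3 * k + 1) / (k : ℝ) ^ 3 := by positivity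
  refine (div_le_div_of_nonneg_left hn hdpos hden).trans ?_
  rw [div_div_eq_mul_div, div_mul_eq_mul_div, div_div, div_le_iff₀ (by
    have : 0 < 48 * L ^ 2 - 768 * L := by nlinarith
    positivity)]
  -- the polynomial inequality
  obtain ⟨t, ht⟩ : ∃ t : ℝ, L = k + t := ⟨L - k, by ring⟩
  have ht0 : 0 ≤ t := by linarith
  have ht1 : t ≤ 36 := by linarith
  have hpoly : ((k : ℝ) ^ 2 + k + 1) * L ^ 3 ≤ (L - 16) * (L + 54) * (k : ℝ) ^ 3 := by
    rw [ht]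
    have e : ((k : ℝ) + t - 16) * ((k : ℝ) + t + 54) * (k : ℝ) ^ 3 -
        ((k : ℝ) ^ 2 + k + 1) * ((k : ℝ) + t) ^ 3 =
        (k : ℝ) ^ 4 * (37 - t) + (k : ℝ) ^ 3 * (-2 * t ^ 2 + 35 * t - 865) -
          (k : ℝ) ^ 2 * (t ^ 3 + 3 * t ^ 2 + 3 * t) - k * (t ^ 3 + 3 * t ^ 2) - t ^ 3 := by ring
    have a1 : (k : ℝ) ^ 4 * 1 ≤ (k : ℝ) ^ 4 * (37 - t) :=
      mul_le_mul_of_nonneg_left (by linarith) (by positivity)
    have a2 : (k : ℝ) ^ 3 * (-2197) ≤ (k : ℝ) ^ 3 * (-2 * t ^ 2 + 35 * t - 865) :=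
      mul_le_mul_of_nonneg_left (by nlinarith) (by positivity)
    have t2 : t ^ 2 ≤ 1296 := by nlinarith
    have t3 : t ^ 3 ≤ 46656 := by nlinarith
    have a3 : (k : ℝ) ^ 2 * (t ^ 3 + 3 * t ^ 2 + 3 * t) ≤ (k : ℝ) ^ 2 * 50700 :=
      mul_le_mul_of_nonneg_left (by linarith) (by positivity)
    have a4 : (k : ℝ) * (t ^ 3 + 3 * t ^ 2) ≤ k * 50700 :=
      mul_le_mul_of_nonneg_left (by linarith) (by positivity)
    have b1 : (0 : ℝ) ≤ (k : ℝ) ^ 3 * (k - 8100) := mul_nonneg (by positivity) (by linarith)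
    have b2 : (0 : ℝ) ≤ (k : ℝ) ^ 2 * (k - 8100) := mul_nonneg (by positivity) (by linarith)
    have b3 : (0 : ℝ) ≤ (k : ℝ) * (k - 8100) := mul_nonneg (by positivity) (by linarith)
    nlinarith
  have hk3 : 0 < (k : ℝ) ^ 3 := by positivity
  have e5 : 1 / 16 * (1 + 54 / L) * ((k : ℝ) ^ 3 * (48 * L ^ 2 - 768 * L)) =
      3 * ((L - 16) * (L + 54) * (k : ℝ) ^ 3) := by
    field_simp
    ring
  rw [e5]
  nlinarith [pow_pos hLp 3]

/-- sum over one residue class, cubes -/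
theorem kr_fib1 (S : Finset ℕ) (j i : ℕ) (X : ℝ) (hi5 : 5 ≤ i) (hi20 : i ≤ 20) (hX0 : 0 < X)
    (hX : X ^ 4 ≤ 63 * (j : ℝ) ^ 3) (hk : ∀ k ∈ S, 16 * ((k + 20) / 16) = k + i)
    (hlo : ∀ k ∈ S, 3 * ((i : ℝ) - 1) * (j : ℝ) ^ 3 < ((k : ℝ) + i) ^ 4)
    (hhi : ∀ k ∈ S, (k : ℝ) ^ 4 < 3 * ((i : ℝ) + 16) * ((j : ℝ) + 1) ^ 3) :
    ∑ k ∈ S, (((k : ℝ) + i) + 16) ^ 3 ≤
      (3 * ((i : ℝ) + 16) * (1 + 52 / X) ^ 4 * ((j : ℝ) + 1) ^ 3 -
        3 * ((i : ℝ) - 1) * (j : ℝ) ^ 3) / 64 := by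
  have hi5' : (5 : ℝ) ≤ i := by exact_mod_cast hi5
  have hi20' : (i : ℝ) ≤ 20 := by exact_mod_cast hi20
  have hj0 : (0 : ℝ) ≤ j := Nat.cast_nonneg _
  have hj3 : (j : ℝ) ^ 3 ≤ ((j : ℝ) + 1) ^ 3 := pow_le_pow_left₀ hj0 (by linarith) 3
  have hX1 : 1 ≤ (1 + 52 / X) ^ 4 := one_le_pow₀ (by
    have : 0 < 52 / X := by positivity
    linarith)
  rcases S.eq_empty_or_nonempty with rfl | hne
  · rw [Finset.sum_empty]
    have h1 : 3 * ((i : ℝ) - 1) * (j : ℝ) ^ 3 ≤ 3 * ((i : ℝ) + 16) * 1 * ((j : ℝ) + 1) ^ 3 := by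
      rw [mul_one]
      exact mul_le_mul (by linarith) hj3 (by positivity) (by linarith)
    have h2 : 3 * ((i : ℝ) + 16) * 1 * ((j : ℝ) + 1) ^ 3 ≤
        3 * ((i : ℝ) + 16) * (1 + 52 / X) ^ 4 * ((j : ℝ) + 1) ^ 3 := by
      apply mul_le_mul_of_nonneg_right _ (by positivity)
      exact mul_le_mul_of_nonneg_left hX1 (by linarith)
    linarith
  · set f : ℕ → ℕ := fun k => (k + 20) / 16 with hf
    have hinj : Set.InjOn f S := by
      intro a ha b hb hab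
      have h1 := hk a ha
      have h2 := hk b hb
      simp only [hf] at hab
      omega
    have hsum : ∑ k ∈ S, (((k : ℝ) + i) + 16) ^ 3 = ∑ J ∈ S.image f, (16 * (J : ℝ) + 16) ^ 3 := by
      rw [Finset.sum_image hinj]
      refine Finset.sum_congr rfl fun k hk' => ?_
      have h1 := hk k hk'
      have h2 : (16 : ℝ) * ((f k : ℕ) : ℝ) = (k : ℝ) + i := by exact_mod_cast h1
      rw [h2]
    rw [hsum]
    have hneT : (S.image f).Nonempty := hne.image f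
    set J1 := (S.image f).min' hneT with hJ1
    set J2 := (S.image f).max' hneT with hJ2
    have h1 : J1 ∈ S.image f := Finset.min'_mem _ _
    have h2 : J2 ∈ S.image f := Finset.max'_mem _ _
    obtain ⟨k1, hk1, hk1'⟩ := Finset.mem_image.1 h1
    obtain ⟨k2, hk2, hk2'⟩ := Finset.mem_image.1 h2
    have hb := kr_sub1 (S.image f) J1 J2
      (fun J hJ => ⟨Finset.min'_le _ _ hJ, Finset.le_max' _ _ hJ⟩)
      (Finset.min'_le _ _ h2)
    have e1 : (16 : ℝ) * (J1 : ℝ) = (k1 : ℝ) + i := by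
      have := hk k1 hk1
      rw [← hk1']
      exact_mod_cast this
    have e2 : (16 : ℝ) * (J2 : ℝ) = (k2 : ℝ) + i := by
      have := hk k2 hk2
      rw [← hk2']
      exact_mod_cast this
    rw [e1, e2] at hb
    have hk10 : (0 : ℝ) ≤ k1 := Nat.cast_nonneg _
    have hk20 : (0 : ℝ) ≤ k2 := Nat.cast_nonneg _
    have hlow : 3 * ((i : ℝ) - 1) * (j : ℝ) ^ 3 ≤ ((k1 : ℝ) + i + 16) ^ 4 :=
      (hlo k1 hk1).le.trans (pow_le_pow_left₀ (by positivity) (by linarith) 4)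
    have hhigh : ((k2 : ℝ) + i + 32) ^ 4 ≤
        3 * ((i : ℝ) + 16) * (1 + 52 / X) ^ 4 * ((j : ℝ) + 1) ^ 3 := by
      refine (pow_le_pow_left₀ (by positivity) (by linarith : (k2 : ℝ) + i + 32 ≤ k2 + 52) 4).trans ?_
      rcases le_total X k2 with hc | hc
      · have hkp : 0 < (k2 : ℝ) := lt_of_lt_of_le hX0 hc
        have h5 : (k2 : ℝ) + 52 ≤ k2 * (1 + 52 / X) := by
          have : 52 ≤ (k2 : ℝ) * (52 / X) := by
            rw [mul_div_assoc', le_div_iff₀ hX0]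
            nlinarith
          linarith
        refine (pow_le_pow_left₀ (by positivity) h5 4).trans ?_
        rw [mul_pow]
        have h6 := (hhi k2 hk2).le
        have h7 : (0 : ℝ) ≤ (1 + 52 / X) ^ 4 := by positivity
        nlinarith [mul_le_mul_of_nonneg_right h6 h7]
      · have h5 : (k2 : ℝ) + 52 ≤ X * (1 + 52 / X) := by
          have : X * (1 + 52 / X) = X + 52 := by field_simp
          linarith
        refine (pow_le_pow_left₀ (by positivity) h5 4).trans ?_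
        rw [mul_pow]
        have h7 : (0 : ℝ) ≤ (1 + 52 / X) ^ 4 := by positivity
        have h8 : X ^ 4 ≤ 3 * ((i : ℝ) + 16) * ((j : ℝ) + 1) ^ 3 := by
          refine hX.trans ?_
          exact mul_le_mul (by linarith) hj3 (by positivity) (by positivity)
        nlinarith [mul_le_mul_of_nonneg_right h8 h7]
    linarith

/-- sum over one residue class, inverse cubes -/
theorem kr_fib2 (S : Finset ℕ) (i : ℕ) (Y : ℝ) (hY : 8192 ≤ Y)
    (hk : ∀ k ∈ S, 16 * ((k + 20) / 16) = k + i)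
    (hlo : ∀ k ∈ S, Y ≤ (k : ℝ) + i) :
    ∑ k ∈ S, 1 / ((k : ℝ) + i) ^ 3 ≤ 1 / (32 * (Y - 16) ^ 2) := by
  rcases S.eq_empty_or_nonempty with rfl | hne
  · rw [Finset.sum_empty]
    positivity
  · set f : ℕ → ℕ := fun k => (k + 20) / 16 with hf
    have hinj : Set.InjOn f S := by
      intro a ha b hb hab
      have h1 := hk a ha
      have h2 := hk b hb
      simp only [hf] at hab
      omega
    have hsum : ∑ k ∈ S, 1 / ((k : ℝ) + i) ^ 3 = ∑ J ∈ S.image f, 1 / (16 * (J : ℝ)) ^ 3 := by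
      rw [Finset.sum_image hinj]
      refine Finset.sum_congr rfl fun k hk' => ?_
      have h1 := hk k hk'
      have h2 : (16 : ℝ) * ((f k : ℕ) : ℝ) = (k : ℝ) + i := by exact_mod_cast h1
      rw [h2]
    rw [hsum]
    have hneT : (S.image f).Nonempty := hne.image f
    set J1 := (S.image f).min' hneT with hJ1
    set J2 := (S.image f).max' hneT with hJ2
    have h1 : J1 ∈ S.image f := Finset.min'_mem _ _
    have h2 : J2 ∈ S.image f := Finset.max'_mem _ _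
    obtain ⟨k1, hk1, hk1'⟩ := Finset.mem_image.1 h1
    have e1 : (16 : ℝ) * (J1 : ℝ) = (k1 : ℝ) + i := by
      have := hk k1 hk1
      rw [← hk1']
      exact_mod_cast this
    have hY1 := hlo k1 hk1
    have hJ2' : 2 ≤ J1 := by
      have : (32 : ℝ) ≤ 16 * (J1 : ℝ) := by rw [e1]; linarith
      have : (2 : ℝ) ≤ J1 := by linarith
      exact_mod_cast this
    have hb := kr_sub2 (S.image f) J1 J2 hJ2'
      (fun J hJ => ⟨Finset.min'_le _ _ hJ, Finset.le_max' _ _ hJ⟩)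
      (Finset.min'_le _ _ h2)
    refine hb.trans ?_
    rw [e1]
    apply div_le_div_of_nonneg_left zero_le_one (by nlinarith)
    have : Y - 16 ≤ (k1 : ℝ) + i - 16 := by linarith
    nlinarith [mul_self_nonneg (Y - 16)]

/-- pointwise bound of the weight of a window which reaches `j` -/
theorem kr_wgt {q : ℝ} (hq : 0 < q) (hq4 : q ≤ 4096) {k j : ℕ} (hk : 8172 ≤ k) (hj : 34000 ≤ j)
    (hr : Reach q k j) {Y : ℝ} (hY0 : 8192 ≤ Y) (hY : Y ≤ (kpR k : ℝ)) :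
    wgt q k j ≤ 1 / 16 * (1 + 54 / Y) * (1 + 100 / Y) *
      (((kpR k : ℝ) + 16) ^ 3 / ((j : ℝ) + 1) ^ 3 + q * j / 3 * (1 / (kpR k : ℝ) ^ 3)) := by
  obtain ⟨h5, h20⟩ := kpR_spec k
  obtain ⟨hr1, hr2⟩ := hr
  set K := kpR k with hK
  have hom := kr_om hq hq4 h5 h20 (by omega : 8100 ≤ k)
  have hk0 : (8172 : ℝ) ≤ k := by exact_mod_cast hk
  have hKk : (K : ℝ) ≤ k + 20 := by exact_mod_cast h20
  have hkK : (k : ℝ) + 5 ≤ K := by exact_mod_cast h5
  have hkp : (0 : ℝ) < k := by linarith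
  have hKp : (0 : ℝ) < K := by linarith
  have hYp : (0 : ℝ) < Y := by linarith
  have hj0 : (34000 : ℝ) ≤ j := by exact_mod_cast hj
  have hjp : (0 : ℝ) < j := by linarith
  have e1 : ((K + 16 : ℕ) : ℝ) = (K : ℝ) + 16 := by push_cast; rfl
  have ej : ((j + 1 : ℕ) : ℝ) = (j : ℝ) + 1 := by push_cast; rfl
  set L : ℝ := (K : ℝ) + 16 with hL
  have hLp : 0 < L := by linarith
  -- reach
  have hreach : (k : ℝ) ^ 4 < 3 * (L - k) * ((j : ℝ) + 1) ^ 3 := by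
    apply kr_hi hq hkp (by linarith)
    have := hr1
    unfold th at this
    rw [ej, e1] at this
    exact this
  obtain ⟨κ, hκ⟩ : ∃ κ : ℕ, κ = 33 * (k + 20) / 32 := ⟨_, rfl⟩
  have hκ1 : (κ : ℝ) ≤ 33 / 32 * ((k : ℝ) + 20) := by
    have h1 : 32 * κ ≤ 33 * (k + 20) := by omega
    have h2 : (32 : ℝ) * κ ≤ 33 * ((k : ℝ) + 20) := by exact_mod_cast h1
    linarith
  have hκ2 : (k : ℝ) + 20 ≤ κ := by
    have h1 : k + 20 ≤ κ := by omega
    exact_mod_cast h1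
  have hκp : (0 : ℝ) < κ := by linarith
  have hκ4 : (κ : ℝ) ^ 4 ≤ 124 * (j : ℝ) ^ 3 := by
    have h1 : (κ : ℝ) ≤ k * (33 / 32 * (1 + 20 / 8172)) := by
      have : (20 : ℝ) ≤ k * (20 / 8172) := by linarith
      nlinarith
    have h2 : (κ : ℝ) ^ 4 ≤ (k * (33 / 32 * (1 + 20 / 8172))) ^ 4 := pow_le_pow_left₀ hκp.le h1 4
    have h3 : (k : ℝ) ^ 4 ≤ 108 * ((j : ℝ) + 1) ^ 3 := by
      refine hreach.le.trans ?_
      apply mul_le_mul_of_nonneg_right (by linarith) (by positivity)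
    have h4 : ((j : ℝ) + 1) ^ 3 ≤ 1.0001 * (j : ℝ) ^ 3 := by
      have e : 1.0001 * (j : ℝ) ^ 3 - ((j : ℝ) + 1) ^ 3 =
        (j : ℝ) ^ 2 * (0.0001 * j - 3) - 3 * j - 1 := by ring
      have : (0.4 : ℝ) ≤ 0.0001 * j - 3 := by linarith
      nlinarith [mul_le_mul_of_nonneg_left this (by positivity : (0 : ℝ) ≤ (j : ℝ) ^ 2)]
    rw [mul_pow] at h2
    have h5 : ((33 : ℝ) / 32 * (1 + 20 / 8172)) ^ 4 ≤ 1.1422 := by norm_num
    have h6 : (k : ℝ) ^ 4 * (33 / 32 * (1 + 20 / 8172)) ^ 4 ≤ 108 * ((j : ℝ) + 1) ^ 3 * 1.1422 :=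
      mul_le_mul h3 h5 (by positivity) (by positivity)
    have h7 : (0 : ℝ) ≤ (j : ℝ) ^ 3 := by positivity
    nlinarith
  have hLj : (κ : ℝ) ^ 3 / (j : ℝ) ^ 3 ≤ 124 / Y := by
    rw [div_le_div_iff₀ (by positivity) hYp]
    have : (κ : ℝ) ^ 3 * Y ≤ (κ : ℝ) ^ 3 * κ :=
      mul_le_mul_of_nonneg_left (by linarith) (by positivity)
    nlinarith
  -- the parts
  have p1 : th q (j + 1) / th q (K + 16) = L ^ 3 / ((j : ℝ) + 1) ^ 3 := by
    unfold th
    rw [ej, e1]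
    field_simp
  have p2 : th q K * (th q (j + 1) / (th q j - th q (j + 1))) ≤ q * j / 3 * (1 / (K : ℝ) ^ 3) := by
    have e2 : th q (j + 1) / (th q j - th q (j + 1)) = (j : ℝ) ^ 3 / (3 * (j : ℝ) ^ 2 + 3 * j + 1) := by
      unfold th
      rw [ej]
      have : (q / (j : ℝ) ^ 3 - q / ((j : ℝ) + 1) ^ 3) =
          q * (3 * (j : ℝ) ^ 2 + 3 * j + 1) / ((j : ℝ) ^ 3 * ((j : ℝ) + 1) ^ 3) := by
        field_simp
        ring
      rw [this]
      have : (0 : ℝ) < 3 * (j : ℝ) ^ 2 + 3 * j + 1 := by positivity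
      field_simp
    have e3 : (j : ℝ) ^ 3 / (3 * (j : ℝ) ^ 2 + 3 * j + 1) ≤ j / 3 := by
      rw [div_le_div_iff₀ (by positivity) (by norm_num)]
      nlinarith [mul_pos hjp hjp]
    rw [e2]
    have e4 : q * j / 3 * (1 / (K : ℝ) ^ 3) = th q K * (j / 3) := by
      unfold th
      ring
    rw [e4]
    exact mul_le_mul_of_nonneg_left e3 (by unfold th; positivity)
  have p3 : th q j / th q (33 * (k + 20) / 32) = (κ : ℝ) ^ 3 / (j : ℝ) ^ 3 := by
    rw [← hκ]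
    unfold th
    field_simp
  unfold wgt
  rw [← hK, p1, p3]
  have a1 : 1 / 16 * (1 + 54 / L) ≤ 1 / 16 * (1 + 54 / Y) := by
    have : 54 / L ≤ 54 / Y := div_le_div_of_nonneg_left (by norm_num) hYp (by linarith)
    linarith
  have a2 : 1 + 4 / 5 * ((κ : ℝ) ^ 3 / (j : ℝ) ^ 3) ≤ 1 + 100 / Y := by
    have h1 : 4 / 5 * (124 / Y) ≤ 100 / Y := by
      rw [mul_div_assoc', div_le_div_iff_of_pos_right hYp]
      norm_num
    linarith
  have hnn : 0 ≤ th q K * (th q (j + 1) / (th q j - th q (j + 1))) := by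
    have e2 : 0 < th q j - th q (j + 1) := by
      unfold th
      rw [ej, sub_pos]
      apply div_lt_div_of_pos_left hq (by positivity)
      exact pow_lt_pow_left₀ (by linarith) hjp.le (by norm_num)
    have : 0 < th q (j + 1) := by unfold th; positivity
    have : 0 < th q K := by unfold th; positivity
    positivity
  have hsumnn : 0 ≤ L ^ 3 / ((j : ℝ) + 1) ^ 3 + q * j / 3 * (1 / (K : ℝ) ^ 3) := by positivity
  have hb2 : 0 ≤ 1 + 4 / 5 * ((κ : ℝ) ^ 3 / (j : ℝ) ^ 3) := by positivity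
  have hA2 : 0 ≤ 1 / 16 * (1 + 54 / Y) := by positivity
  have hadd := add_le_add_left p2 (L ^ 3 / ((j : ℝ) + 1) ^ 3)
  have hL0 : 0 ≤ L ^ 3 / ((j : ℝ) + 1) ^ 3 := by positivity
  have hom2 := hom.trans a1
  generalize om q k / (th q (K + 16) * ((pool q K (K + 16)).card : ℝ)) = o1 at hom2 ⊢
  generalize th q K * (th q (j + 1) / (th q j - th q (j + 1))) = o2 at p2 hnn hadd ⊢
  generalize 1 + 4 / 5 * ((κ : ℝ) ^ 3 / (j : ℝ) ^ 3) = o3 at a2 hb2 ⊢
  generalize L ^ 3 / ((j : ℝ) + 1) ^ 3 = o4 at hsumnn hL0 hadd ⊢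
  generalize q * j / 3 * (1 / (K : ℝ) ^ 3) = o5 at p2 hsumnn hadd ⊢
  have h1 : (o4 + o2) * o3 ≤ (o4 + o5) * (1 + 100 / Y) :=
    mul_le_mul (by linarith) a2 hb2 hsumnn
  have h2 : o1 * ((o4 + o2) * o3) ≤ (1 / 16 * (1 + 54 / Y)) * ((o4 + o5) * (1 + 100 / Y)) :=
    mul_le_mul hom2 h1 (mul_nonneg (by linarith) hb2) hA2
  linarith

/-- **KERNEL SUM**, class R -/
theorem KR_sum {q : ℝ} (hq : 0 < q) (hq4 : q ≤ 4096) {j : ℕ} (hj : 34000 ≤ j) {X Y c : ℝ}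
    (hX0 : 0 < X) (hX : X ^ 4 ≤ 63 * (j : ℝ) ^ 3) (hY0 : 8192 ≤ Y)
    (hY : ∀ K : ℕ, 8177 ≤ K → 12 * (j : ℝ) ^ 3 < (K : ℝ) ^ 4 → 16 ∣ K → Y ≤ K)
    (hc : q * j ≤ 96 * c * (Y - 16) ^ 2) (N : ℕ) :
    ∑ k ∈ (Finset.Ico 8172 N).filter (fun k => Reach q k j), wgt q k j ≤
      (1 + 54 / Y) * (1 + 100 / Y) *
        (3 * (456 * (1 + 52 / X) ^ 4 - 184 * (1 - 3 / (j : ℝ))) / 1024 + c) := by
  have hj0 : (34000 : ℝ) ≤ j := by exact_mod_cast hj
  have hjp : (0 : ℝ) < j := by linarith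
  have hYp : (0 : ℝ) < Y := by linarith
  have ej : ((j + 1 : ℕ) : ℝ) = (j : ℝ) + 1 := by push_cast; rfl
  set S := (Finset.Ico 8172 N).filter (fun k => Reach q k j) with hS
  -- data of the members
  have hmem : ∀ k ∈ S, 8172 ≤ k ∧ Reach q k j := by
    intro k hk
    rw [hS, Finset.mem_filter, Finset.mem_Ico] at hk
    exact ⟨hk.1.1, hk.2⟩
  have hdat : ∀ k ∈ S, ∀ i : ℕ, kpR k = k + i →
      3 * ((i : ℝ) - 1) * (j : ℝ) ^ 3 < ((k : ℝ) + i) ^ 4 ∧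
      (k : ℝ) ^ 4 < 3 * ((i : ℝ) + 16) * ((j : ℝ) + 1) ^ 3 := by
    intro k hk i hi
    obtain ⟨hk1, hr1, hr2⟩ := hmem k hk
    obtain ⟨h5, h20⟩ := kpR_spec k
    rw [hi] at hr1 hr2 h5 h20
    have hk0 : (8172 : ℝ) ≤ k := by exact_mod_cast hk1
    have hi5 : (5 : ℝ) ≤ i := by
      have : 5 ≤ i := by omega
      exact_mod_cast this
    constructor
    · have h := kr_lo (a := (k : ℝ) + 1) (b := (k : ℝ) + i) hq (by linarith) (by linarith)
        (by omega : 1 ≤ j) (by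
          unfold th at hr2
          push_cast at hr2
          exact hr2)
      have e : (k : ℝ) + i - (k + 1) = i - 1 := by ring
      rw [e] at h
      exact h
    · have h := kr_hi (a := (k : ℝ)) (b := (k : ℝ) + i + 16) hq (by linarith) (by linarith) (by
          unfold th at hr1
          push_cast at hr1
          exact hr1)
      have e : (k : ℝ) + i + 16 - k = i + 16 := by ring
      rw [e] at h
      exact h
  have hYk : ∀ k ∈ S, Y ≤ (kpR k : ℝ) := by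
    intro k hk
    obtain ⟨h5, h20⟩ := kpR_spec k
    obtain ⟨i, hi⟩ : ∃ i, kpR k = k + i := ⟨kpR k - k, by omega⟩
    obtain ⟨d1, d2⟩ := hdat k hk i hi
    have hk1 := (hmem k hk).1
    refine hY _ (by omega) ?_ ⟨(k + 20) / 16, rfl⟩
    have h1 : 12 * (j : ℝ) ^ 3 ≤ 3 * ((i : ℝ) - 1) * (j : ℝ) ^ 3 := by
      apply mul_le_mul_of_nonneg_right _ (by positivity)
      have : (5 : ℝ) ≤ i := by
        have : 5 ≤ i := by omega
        exact_mod_cast this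
      linarith
    have h2 : ((kpR k : ℕ) : ℝ) = (k : ℝ) + i := by rw [hi]; push_cast; rfl
    rw [h2]
    linarith
  have hpt : ∀ k ∈ S, wgt q k j ≤ 1 / 16 * (1 + 54 / Y) * (1 + 100 / Y) *
      (((kpR k : ℝ) + 16) ^ 3 / ((j : ℝ) + 1) ^ 3 + q * j / 3 * (1 / (kpR k : ℝ) ^ 3)) :=
    fun k hk => kr_wgt hq hq4 (hmem k hk).1 hj (hmem k hk).2 hY0 (hYk k hk)
  refine (Finset.sum_le_sum hpt).trans ?_
  rw [← Finset.mul_sum, Finset.sum_add_distrib, ← Finset.sum_div, ← Finset.mul_sum]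
  -- split into residue classes
  have hmaps : ∀ k ∈ S, (kpR k - k) ∈ Finset.Icc 5 20 := by
    intro k _
    obtain ⟨h5, h20⟩ := kpR_spec k
    rw [Finset.mem_Icc]
    omega
  have hs1 : ∑ k ∈ S, ((kpR k : ℝ) + 16) ^ 3 ≤
      (3 * 456 * (1 + 52 / X) ^ 4 * ((j : ℝ) + 1) ^ 3 - 3 * 184 * (j : ℝ) ^ 3) / 64 := by
    rw [← Finset.sum_fiberwise_of_maps_to hmaps]
    have hb : ∀ i ∈ Finset.Icc 5 20,
        ∑ k ∈ S.filter (fun k => kpR k - k = i), ((kpR k : ℝ) + 16) ^ 3 ≤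
        (3 * ((i : ℝ) + 16) * (1 + 52 / X) ^ 4 * ((j : ℝ) + 1) ^ 3 -
          3 * ((i : ℝ) - 1) * (j : ℝ) ^ 3) / 64 := by
      intro i hi
      rw [Finset.mem_Icc] at hi
      have hKi : ∀ k ∈ S.filter (fun k => kpR k - k = i), kpR k = k + i := by
        intro k hk
        rw [Finset.mem_filter] at hk
        obtain ⟨h5, h20⟩ := kpR_spec k
        omega
      have := kr_fib1 (S.filter (fun k => kpR k - k = i)) j i X hi.1 hi.2 hX0 hX hKi
        (fun k hk => (hdat k (Finset.mem_filter.1 hk).1 i (hKi k hk)).1)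
        (fun k hk => (hdat k (Finset.mem_filter.1 hk).1 i (hKi k hk)).2)
      refine le_trans (le_of_eq ?_) this
      refine Finset.sum_congr rfl fun k hk => ?_
      rw [hKi k hk]
      push_cast
      rfl
    refine (Finset.sum_le_sum hb).trans (le_of_eq ?_)
    rw [← Finset.sum_div]
    have e1 : ∑ i ∈ Finset.Icc (5 : ℕ) 20, (3 * ((i : ℝ) + 16) * (1 + 52 / X) ^ 4 * ((j : ℝ) + 1) ^ 3 -
          3 * ((i : ℝ) - 1) * (j : ℝ) ^ 3) =
        (∑ i ∈ Finset.Icc (5 : ℕ) 20, ((i : ℝ) + 16)) * (3 * (1 + 52 / X) ^ 4 * ((j : ℝ) + 1) ^ 3) -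
        (∑ i ∈ Finset.Icc (5 : ℕ) 20, ((i : ℝ) - 1)) * (3 * (j : ℝ) ^ 3) := by
      rw [Finset.sum_mul, Finset.sum_mul, ← Finset.sum_sub_distrib]
      refine Finset.sum_congr rfl fun i _ => by ring
    have e2 : ∑ i ∈ Finset.Icc (5 : ℕ) 20, ((i : ℝ) + 16) = 456 := by
      norm_num [Finset.sum_Icc_succ_top]
    have e3 : ∑ i ∈ Finset.Icc (5 : ℕ) 20, ((i : ℝ) - 1) = 184 := by
      norm_num [Finset.sum_Icc_succ_top]
    rw [e1, e2, e3]
    ring
  have hs2 : ∑ k ∈ S, 1 / (kpR k : ℝ) ^ 3 ≤ 16 / (32 * (Y - 16) ^ 2) := by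
    rw [← Finset.sum_fiberwise_of_maps_to hmaps]
    have hb : ∀ i ∈ Finset.Icc 5 20,
        ∑ k ∈ S.filter (fun k => kpR k - k = i), 1 / (kpR k : ℝ) ^ 3 ≤
        1 / (32 * (Y - 16) ^ 2) := by
      intro i hi
      have hKi : ∀ k ∈ S.filter (fun k => kpR k - k = i), kpR k = k + i := by
        intro k hk
        rw [Finset.mem_filter] at hk
        obtain ⟨h5, h20⟩ := kpR_spec k
        omega
      have := kr_fib2 (S.filter (fun k => kpR k - k = i)) i Y hY0 hKi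
        (fun k hk => by
          have h1 := hYk k (Finset.mem_filter.1 hk).1
          rw [hKi k hk] at h1
          push_cast at h1
          exact h1)
      refine le_trans (le_of_eq ?_) this
      refine Finset.sum_congr rfl fun k hk => ?_
      rw [hKi k hk]
      push_cast
      rfl
    refine (Finset.sum_le_sum hb).trans (le_of_eq ?_)
    rw [Finset.sum_const, Nat.card_Icc]
    simp only [Nat.reduceAdd, Nat.reduceSub, nsmul_eq_mul]
    push_cast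
    ring
  have hj1p : (0 : ℝ) < ((j : ℝ) + 1) ^ 3 := by positivity
  have hY16 : (0 : ℝ) < (Y - 16) ^ 2 := by
    have : 0 < Y - 16 := by linarith
    positivity
  have t1 : (∑ k ∈ S, ((kpR k : ℝ) + 16) ^ 3) / ((j : ℝ) + 1) ^ 3 ≤
      3 * (456 * (1 + 52 / X) ^ 4 - 184 * (1 - 3 / (j : ℝ))) / 64 := by
    rw [div_le_iff₀ hj1p]
    refine hs1.trans ?_
    have h1 : (1 - 3 / (j : ℝ)) * ((j : ℝ) + 1) ^ 3 ≤ (j : ℝ) ^ 3 := by
      have e : (1 - 3 / (j : ℝ)) * ((j : ℝ) + 1) ^ 3 =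
          (j : ℝ) ^ 3 - (6 * j + 8 + 3 / (j : ℝ)) := by
        field_simp
        ring
      rw [e]
      have : 0 ≤ 3 / (j : ℝ) := by positivity
      linarith
    nlinarith
  have t2 : q * j / 3 * ∑ k ∈ S, 1 / (kpR k : ℝ) ^ 3 ≤ 16 * c := by
    have hqj : 0 ≤ q * j / 3 := by positivity
    refine (mul_le_mul_of_nonneg_left hs2 hqj).trans ?_
    rw [div_mul_div_comm, div_le_iff₀ (by positivity)]
    nlinarith
  have hfac : 0 ≤ 1 / 16 * (1 + 54 / Y) * (1 + 100 / Y) := by positivity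
  refine (mul_le_mul_of_nonneg_left (add_le_add t1 t2) hfac).trans (le_of_eq ?_)
  ring

end

end Pool.Agent.LibMoserT
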