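import Pool.Agent.LibMoserT.LedP
import Pool.Agent.LibMoserT.LedKR
import Pool.Agent.LibMoserT.Cls
set_option autoImplicit false
/-!
# Ledger: class G (children and births)
-/
namespace Pool.Agent.LibMoserT
open Pool.Agent.LibMoser5 Pool.Agent.LibMoserF

noncomputable section

/-- the group with lower block `K` can have children in window `j` -/
def RG (q : ℝ) (K j : ℕ) : Prop :=
  th q (j + 1) < th q (K - 36) - th q (K + 32) ∧ th q (K - 4) - th q K < th q j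

theorem kg_tele1 (J1 J2 : ℕ) (h : J1 ≤ J2) :
    ∑ J ∈ Finset.Icc J1 J2, (32 * (J : ℝ) + 32) ^ 3 ≤
      ((32 * (J2 : ℝ) + 48) ^ 4 - (32 * (J1 : ℝ) + 16) ^ 4) / 128 := by
  have key : ∀ x : ℝ, 0 ≤ x → (32 * x + 32) ^ 3 ≤ ((32 * x + 48) ^ 4 - (32 * x + 16) ^ 4) / 128 := by
    intro x hx
    have e : ((32 * x + 48) ^ 4 - (32 * x + 16) ^ 4) / 128 = (32 * x + 32) ^ 3 + 256 * (32 * x + 32) := by
      ring
    rw [e]
    linarith
  induction J2, h using Nat.le_induction with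
  | base =>
    rw [Finset.Icc_self, Finset.sum_singleton]
    exact key _ (Nat.cast_nonneg _)
  | succ n hn ih =>
    rw [Finset.sum_Icc_succ_top (by omega)]
    have h0 : (0 : ℝ) ≤ n := Nat.cast_nonneg _
    have h1 := key ((n + 1 : ℕ) : ℝ) (Nat.cast_nonneg _)
    have e : (32 * ((n + 1 : ℕ) : ℝ) + 16) = 32 * (n : ℝ) + 48 := by push_cast; ring
    rw [e] at h1
    linarith

theorem kg_tele2 (J1 J2 : ℕ) (h1 : 2 ≤ J1) (h : J1 ≤ J2) :
    ∑ J ∈ Finset.Icc J1 J2, 1 / (32 * (J : ℝ)) ^ 3 ≤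
      (1 / (32 * (J1 : ℝ) - 32) ^ 2 - 1 / (32 * (J2 : ℝ)) ^ 2) / 64 := by
  have key : ∀ x : ℝ, 64 ≤ x → 1 / x ^ 3 ≤ (1 / (x - 32) ^ 2 - 1 / x ^ 2) / 64 := by
    intro x hx
    have h1 : 0 < x - 32 := by linarith
    have h2 : 0 < x := by linarith
    rw [div_sub_div _ _ (by positivity) (by positivity), div_div, div_le_div_iff₀ (by positivity)
      (by positivity)]
    have e : (1 * x ^ 2 - (x - 32) ^ 2 * 1) * x ^ 3 - 1 * ((x - 32) ^ 2 * x ^ 2 * 64) =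
        x ^ 2 * (64 * (48 * x - 1024)) := by ring
    have : 0 ≤ x ^ 2 * (64 * (48 * x - 1024)) := mul_nonneg (by positivity) (by linarith)
    linarith
  induction J2, h using Nat.le_induction with
  | base =>
    rw [Finset.Icc_self, Finset.sum_singleton]
    have : (2 : ℝ) ≤ J1 := by exact_mod_cast h1
    exact key _ (by linarith)
  | succ n hn ih =>
    rw [Finset.sum_Icc_succ_top (by omega)]
    have h0 : (2 : ℝ) ≤ n := by exact_mod_cast h1.trans hn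
    have := key (32 * ((n + 1 : ℕ) : ℝ)) (by push_cast; linarith)
    have e : (32 * ((n + 1 : ℕ) : ℝ) - 32) = 32 * (n : ℝ) := by push_cast; ring
    rw [e] at this
    linarith

/-- range of the groups which reach window `j` -/
theorem kg_dat {q : ℝ} (hq : 0 < q) {K j : ℕ} (hK : 8192 ≤ K) (hj : 1 ≤ j) (h : RG q K j) :
    12 * (j : ℝ) ^ 3 < (K : ℝ) ^ 4 ∧ ((K : ℝ) - 36) ^ 4 < 204 * ((j : ℝ) + 1) ^ 3 := by
  obtain ⟨h1, h2⟩ := h
  have hK0 : (8192 : ℝ) ≤ K := by exact_mod_cast hK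
  have e36 : ((K - 36 : ℕ) : ℝ) = (K : ℝ) - 36 := by
    rw [Nat.cast_sub (by omega)]; norm_num
  have e4 : ((K - 4 : ℕ) : ℝ) = (K : ℝ) - 4 := by
    rw [Nat.cast_sub (by omega)]; norm_num
  constructor
  · have h3 := kr_lo (a := (K : ℝ) - 4) (b := (K : ℝ)) hq (by linarith) (by linarith) hj (by
      unfold th at h2
      rw [e4] at h2
      exact h2)
    have e : 3 * ((K : ℝ) - (K - 4)) = 12 := by ring
    rw [e] at h3
    exact h3
  · have h3 := kr_hi (a := (K : ℝ) - 36) (b := (K : ℝ) + 32) (j := j) hq (by linarith)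
      (by linarith) (by
        unfold th at h1
        push_cast at h1
        rw [e36] at h1
        exact h1)
    have e : 3 * ((K : ℝ) + 32 - (K - 36)) = 204 := by ring
    rw [e] at h3
    exact h3

/-- pointwise bound -/
theorem kg_wgt {q : ℝ} (hq : 0 < q) {K L1 j : ℕ} (hK : 8192 ≤ K) (hj : 8192 ≤ j)
    (hr : RG q K j) {Y : ℝ} (hY0 : 8192 ≤ Y) (hY : Y ≤ (K : ℝ)) (hL0 : 1 ≤ L1)
    (hL : 32 * L1 ≤ 33 * K) :
    (th q (j + 1) / th q (K + 32) + th q K * (th q (j + 1) / (th q j - th q (j + 1)))) *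
      (1 + 4 / 5 * (th q j / th q L1)) ≤
      (1 + 183 / Y) * (((K : ℝ) + 32) ^ 3 / ((j : ℝ) + 1) ^ 3 + q * j / 3 * (1 / (K : ℝ) ^ 3)) := by
  obtain ⟨-, hhi⟩ := kg_dat hq hK (by omega) hr
  have hK0 : (8192 : ℝ) ≤ K := by exact_mod_cast hK
  have hKp : (0 : ℝ) < K := by linarith
  have hj0 : (8192 : ℝ) ≤ j := by exact_mod_cast hj
  have hjp : (0 : ℝ) < j := by linarith
  have hYp : (0 : ℝ) < Y := by linarith
  have hL1 : (32 : ℝ) * L1 ≤ 33 * K := by exact_mod_cast hL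
  have hL1p : (0 : ℝ) < L1 := by exact_mod_cast hL0
  have ej : ((j + 1 : ℕ) : ℝ) = (j : ℝ) + 1 := by push_cast; rfl
  have eK : ((K + 32 : ℕ) : ℝ) = (K : ℝ) + 32 := by push_cast; rfl
  have p1 : th q (j + 1) / th q (K + 32) = ((K : ℝ) + 32) ^ 3 / ((j : ℝ) + 1) ^ 3 := by
    unfold th
    rw [ej, eK]
    field_simp
  have p2 : th q K * (th q (j + 1) / (th q j - th q (j + 1))) ≤ q * j / 3 * (1 / (K : ℝ) ^ 3) := by
    have e2 : th q (j + 1) / (th q j - th q (j + 1)) = (j : ℝ) ^ 3 / (3 * (j : ℝ) ^ 2 + 3 * j + 1) := by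
      unfold th
      rw [ej]
      have : (q / (j : ℝ) ^ 3 - q / ((j : ℝ) + 1) ^ 3) =
          q * (3 * (j : ℝ) ^ 2 + 3 * j + 1) / ((j : ℝ) ^ 3 * ((j : ℝ) + 1) ^ 3) := by
        field_simp
        ring
      rw [this]
      have : (0 : ℝ) < 3 * (j : ℝ) ^ 2 + 3 * j + 1 := by positivity
      field_simp
    have e3 : (j : ℝ) ^ 3 / (3 * (j : ℝ) ^ 2 + 3 * j + 1) ≤ j / 3 := by
      rw [div_le_div_iff₀ (by positivity) (by norm_num)]
      nlinarith [mul_pos hjp hjp]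
    rw [e2]
    have e4 : q * j / 3 * (1 / (K : ℝ) ^ 3) = th q K * (j / 3) := by
      unfold th
      ring
    rw [e4]
    exact mul_le_mul_of_nonneg_left e3 (by unfold th; positivity)
  have p3 : th q j / th q L1 = (L1 : ℝ) ^ 3 / (j : ℝ) ^ 3 := by
    unfold th
    field_simp
  have hK4 : (K : ℝ) ^ 4 ≤ 2078 / 10 * (j : ℝ) ^ 3 := by
    have h1 : (K : ℝ) ≤ ((K : ℝ) - 36) * (8192 / 8156) := by linarith
    have h2 : (K : ℝ) ^ 4 ≤ (((K : ℝ) - 36) * (8192 / 8156)) ^ 4 := pow_le_pow_left₀ hKp.le h1 4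
    rw [mul_pow] at h2
    have h3 : ((8192 : ℝ) / 8156) ^ 4 ≤ 10178 / 10000 := by norm_num
    have h4 : ((j : ℝ) + 1) ^ 3 ≤ 10004 / 10000 * (j : ℝ) ^ 3 := by
      have h5 : (j : ℝ) + 1 ≤ 8193 / 8192 * j := by linarith
      have h6 := pow_le_pow_left₀ (by linarith) h5 3
      rw [mul_pow] at h6
      have h7 : ((8193 : ℝ) / 8192) ^ 3 ≤ 10004 / 10000 := by norm_num
      exact h6.trans (mul_le_mul_of_nonneg_right h7 (by positivity))
    have h5 : ((K : ℝ) - 36) ^ 4 * (8192 / 8156) ^ 4 ≤ 204 * ((j : ℝ) + 1) ^ 3 * (10178 / 10000) :=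
      mul_le_mul hhi.le h3 (by positivity) (by positivity)
    have h6 : (0 : ℝ) ≤ (j : ℝ) ^ 3 := by positivity
    linarith
  have p4 : (L1 : ℝ) ^ 3 / (j : ℝ) ^ 3 ≤ 228 / Y := by
    rw [div_le_div_iff₀ (by positivity) hYp]
    have h1 : (L1 : ℝ) ≤ 33 / 32 * K := by linarith
    have h2 : (L1 : ℝ) ^ 3 ≤ (33 / 32 * (K : ℝ)) ^ 3 := pow_le_pow_left₀ hL1p.le h1 3
    rw [mul_pow] at h2
    have h3 : (K : ℝ) ^ 3 * Y ≤ (K : ℝ) ^ 3 * K := mul_le_mul_of_nonneg_left hY (by positivity)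
    calc (L1 : ℝ) ^ 3 * Y ≤ (33 / 32) ^ 3 * (K : ℝ) ^ 3 * Y := mul_le_mul_of_nonneg_right h2 hYp.le
      _ = (33 / 32) ^ 3 * ((K : ℝ) ^ 3 * Y) := by ring
      _ ≤ (33 / 32) ^ 3 * ((K : ℝ) ^ 3 * K) := mul_le_mul_of_nonneg_left h3 (by positivity)
      _ = (33 / 32) ^ 3 * (K : ℝ) ^ 4 := by ring
      _ ≤ (33 / 32) ^ 3 * (2078 / 10 * (j : ℝ) ^ 3) := mul_le_mul_of_nonneg_left hK4 (by positivity)
      _ ≤ 228 * (j : ℝ) ^ 3 := by
          have : (0 : ℝ) ≤ (j : ℝ) ^ 3 := by positivity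
          nlinarith
  rw [p1, p3]
  have a2 : 1 + 4 / 5 * ((L1 : ℝ) ^ 3 / (j : ℝ) ^ 3) ≤ 1 + 183 / Y := by
    have h1 : 4 / 5 * (228 / Y) ≤ 183 / Y := by
      rw [mul_div_assoc', div_le_div_iff_of_pos_right hYp]
      norm_num
    linarith
  have hnn : 0 ≤ th q K * (th q (j + 1) / (th q j - th q (j + 1))) := by
    have e2 : 0 < th q j - th q (j + 1) := by
      have := th_lt hq (by omega : 0 < j) (Nat.lt_succ_self j)
      linarith
    have : 0 < th q (j + 1) := th_pos hq (by omega)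
    have : 0 < th q K := th_pos hq (by omega)
    positivity
  rw [mul_comm (1 + 183 / Y)]
  apply mul_le_mul
  · linarith
  · exact a2
  · positivity
  · positivity

/-- first sum over the groups which reach window `j` -/
theorem kg_S1 (S : Finset ℕ) {j : ℕ} {Y : ℝ} (hY0 : 8192 ≤ Y)
    (hlo : ∀ i ∈ S, 12 * (j : ℝ) ^ 3 < (32 * (i : ℝ)) ^ 4)
    (hhi : ∀ i ∈ S, (32 * (i : ℝ) - 36) ^ 4 < 204 * ((j : ℝ) + 1) ^ 3)
    (hYi : ∀ i ∈ S, Y ≤ 32 * (i : ℝ)) :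
    ∑ i ∈ S, (32 * (i : ℝ) + 32) ^ 3 ≤
      (204 * (1 + 343 / Y) * ((j : ℝ) + 1) ^ 3 - 12 * (j : ℝ) ^ 3) / 128 := by
  have hYp : (0 : ℝ) < Y := by linarith
  have hj0 : (0 : ℝ) ≤ j := Nat.cast_nonneg _
  have hj3 : (j : ℝ) ^ 3 ≤ ((j : ℝ) + 1) ^ 3 := pow_le_pow_left₀ hj0 (by linarith) 3
  have hj3' : (0 : ℝ) ≤ (j : ℝ) ^ 3 := by positivity
  rcases S.eq_empty_or_nonempty with rfl | hne
  · rw [Finset.sum_empty]
    have h1 : 0 ≤ 343 / Y * ((j : ℝ) + 1) ^ 3 := by positivity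
    have h2 : 204 * (1 + 343 / Y) * ((j : ℝ) + 1) ^ 3 =
        204 * ((j : ℝ) + 1) ^ 3 + 204 * (343 / Y * ((j : ℝ) + 1) ^ 3) := by ring
    rw [h2]
    linarith
  · set i1 := S.min' hne with hi1
    set i2 := S.max' hne with hi2
    have h1 : i1 ∈ S := Finset.min'_mem _ _
    have h2 : i2 ∈ S := Finset.max'_mem _ _
    have h12 : i1 ≤ i2 := Finset.min'_le _ _ h2
    have hs : ∑ i ∈ S, (32 * (i : ℝ) + 32) ^ 3 ≤ ∑ i ∈ Finset.Icc i1 i2, (32 * (i : ℝ) + 32) ^ 3 := by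
      refine Finset.sum_le_sum_of_subset_of_nonneg ?_ (fun J _ _ => by positivity)
      intro J hJ
      exact Finset.mem_Icc.2 ⟨Finset.min'_le _ _ hJ, Finset.le_max' _ _ hJ⟩
    refine hs.trans ((kg_tele1 i1 i2 h12).trans ?_)
    have a1 : 12 * (j : ℝ) ^ 3 ≤ (32 * (i1 : ℝ) + 16) ^ 4 :=
      (hlo i1 h1).le.trans (pow_le_pow_left₀ (by positivity) (by linarith) 4)
    have a2 : (32 * (i2 : ℝ) + 48) ^ 4 ≤ 204 * (1 + 343 / Y) * ((j : ℝ) + 1) ^ 3 := by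
      have b0 := hYi i2 h2
      have b1 : 32 * (i2 : ℝ) + 48 ≤ (32 * (i2 : ℝ) - 36) * (1 + 844 / 10 / Y) := by
        have c1 : 84 ≤ (32 * (i2 : ℝ) - 36) * (844 / 10 / Y) := by
          rw [mul_div_assoc', le_div_iff₀ hYp]
          nlinarith
        linarith
      have b2 : (32 * (i2 : ℝ) + 48) ^ 4 ≤ ((32 * (i2 : ℝ) - 36) * (1 + 844 / 10 / Y)) ^ 4 :=
        pow_le_pow_left₀ (by positivity) b1 4
      rw [mul_pow] at b2
      have b3 : (1 + 844 / 10 / Y) ^ 4 ≤ 1 + 343 / Y := by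
        obtain ⟨w, hw⟩ : ∃ w : ℝ, w = 1 / Y := ⟨_, rfl⟩
        have hw0 : 0 ≤ w := by rw [hw]; positivity
        have hw1 : w ≤ 1 / 8192 := by
          rw [hw]
          exact one_div_le_one_div_of_le (by norm_num) hY0
        have e1 : 844 / 10 / Y = 844 / 10 * w := by rw [hw]; ring
        have e2 : 343 / Y = 343 * w := by rw [hw]; ring
        rw [e1, e2]
        have e3 : (1 + 844 / 10 * w) ^ 4 = 1 + w * (4 * (844 / 10) + 6 * (844 / 10) ^ 2 * w +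
            4 * (844 / 10) ^ 3 * w ^ 2 + (844 / 10) ^ 4 * w ^ 3) := by ring
        rw [e3]
        have w2 : w ^ 2 ≤ (1 / 8192) ^ 2 := pow_le_pow_left₀ hw0 hw1 2
        have w3 : w ^ 3 ≤ (1 / 8192) ^ 3 := pow_le_pow_left₀ hw0 hw1 3
        have e4 : 4 * (844 / 10) + 6 * (844 / 10) ^ 2 * w +
            4 * (844 / 10) ^ 3 * w ^ 2 + (844 / 10) ^ 4 * w ^ 3 ≤ 343 := by
          norm_num at w2 w3 hw1 ⊢
          linarith
        have := mul_le_mul_of_nonneg_left e4 hw0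
        linarith
      have b4 : (32 * (i2 : ℝ) - 36) ^ 4 * (1 + 844 / 10 / Y) ^ 4 ≤
          204 * ((j : ℝ) + 1) ^ 3 * (1 + 343 / Y) :=
        mul_le_mul (hhi i2 h2).le b3 (by positivity) (by positivity)
      linarith
    linarith

/-- second sum over the groups which reach window `j` -/
theorem kg_S2 (S : Finset ℕ) {Y : ℝ} (hY0 : 8192 ≤ Y) (hYi : ∀ i ∈ S, Y ≤ 32 * (i : ℝ)) :
    ∑ i ∈ S, 1 / (32 * (i : ℝ)) ^ 3 ≤ 1 / (64 * (Y - 32) ^ 2) := by
  rcases S.eq_empty_or_nonempty with rfl | hne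
  · rw [Finset.sum_empty]
    positivity
  · set i1 := S.min' hne with hi1
    set i2 := S.max' hne with hi2
    have h1 : i1 ∈ S := Finset.min'_mem _ _
    have h2 : i2 ∈ S := Finset.max'_mem _ _
    have h12 : i1 ≤ i2 := Finset.min'_le _ _ h2
    have hY1 := hYi i1 h1
    have hi2' : 2 ≤ i1 := by
      have : (2 : ℝ) ≤ i1 := by linarith
      exact_mod_cast this
    have hs : ∑ i ∈ S, 1 / (32 * (i : ℝ)) ^ 3 ≤ ∑ i ∈ Finset.Icc i1 i2, 1 / (32 * (i : ℝ)) ^ 3 := by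
      refine Finset.sum_le_sum_of_subset_of_nonneg ?_ (fun J _ _ => by positivity)
      intro J hJ
      exact Finset.mem_Icc.2 ⟨Finset.min'_le _ _ hJ, Finset.le_max' _ _ hJ⟩
    refine hs.trans ((kg_tele2 i1 i2 hi2' h12).trans ?_)
    have h3 : (0 : ℝ) ≤ 1 / (32 * (i2 : ℝ)) ^ 2 := by positivity
    have h4 : 1 / (32 * (i1 : ℝ) - 32) ^ 2 ≤ 1 / (Y - 32) ^ 2 := by
      apply one_div_le_one_div_of_le
      · have : 0 < Y - 32 := by linarith
        positivity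
      · exact pow_le_pow_left₀ (by linarith) (by linarith) 2
    have e : 1 / (64 * (Y - 32) ^ 2) = 1 / (Y - 32) ^ 2 / 64 := by
      rw [div_div, mul_comm]
    rw [e]
    linarith

theorem kG32 (i : ℕ) : kG 32 i = 32 * i := by
  unfold kG
  rw [Nat.mul_div_cancel_left _ (by norm_num)]

theorem srcG_reach {q M : ℝ} {i j : ℕ} : (srcG q M 32 i).reach q j ↔ RG q (32 * i) j := by
  have e : 32 * (i + 1) - 36 = 32 * i - 4 := by omega
  unfold Src.reach RG srcG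
  simp only [kG32, e]

theorem std_q {D : TD} {a lam : ℕ → ℝ} (hD : Std41 D a lam) : D.q = 2048 := by
  unfold TD.q
  rw [hD.qn]
  norm_num

theorem std_fl {D : TD} {a lam : ℕ → ℝ} (hD : Std41 D a lam) (g : ℕ) : D.fl g = fl 8192 g := by
  unfold TD.fl
  rw [hD.l0]

/-- the load of a group is `lam` -/
theorem srcG_u {lam : ℝ} {i : ℕ} (hi : 8192 ≤ 32 * i) :
    (srcG 2048 (MGl lam i) 32 i).u = lam := by
  unfold Src.u srcG MGl
  simp only [kG32]
  have h1 := pool_nonempty (q := 2048) (by norm_num) (by norm_num) hi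
    (by omega : 32 * i < 32 * i + 32)
  have h2 : (0 : ℝ) < ((pool 2048 (32 * i) (32 * i + 32)).card : ℝ) := by
    exact_mod_cast h1.card_pos
  have h3 : 0 < th 2048 (32 * i + 32) := th_pos (by norm_num) (by omega)
  field_simp

theorem srcG_D {lam : ℝ} {i j : ℕ} (hi : 8192 ≤ 32 * i) (σm : ℝ) (hr : RG 2048 (32 * i) j) :
    (srcG 2048 (MGl lam i) 32 i).D 2048 j σm =
      lam * ((th 2048 (j + 1) / th 2048 (32 * i + 32) +
        th 2048 (32 * i) * (th 2048 (j + 1) / (th 2048 j - th 2048 (j + 1)))) *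
        (1 + 4 / 5 * (th 2048 j / σm))) := by
  unfold Src.D
  rw [if_pos (srcG_reach.2 hr), srcG_u hi]
  unfold srcG
  simp only [kG32]

theorem srcG_D0 {M : ℝ} {i j : ℕ} (σm : ℝ) (hr : ¬ RG 2048 (32 * i) j) :
    (srcG 2048 M 32 i).D 2048 j σm = 0 := by
  unfold Src.D
  rw [if_neg (fun h => hr (srcG_reach.1 h))]

theorem sum_range' (F : ℕ → ℝ) (a n : ℕ) :
    ((List.range' a n).map F).sum = ∑ i ∈ Finset.Ico a (a + n), F i := by
  induction n with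
  | zero => simp
  | succ n ih =>
    rw [List.range'_concat, List.map_append, List.sum_append, ih, ← add_assoc,
      Finset.sum_Ico_succ_top (by omega)]
    simp

/-- the groups of the frames as one sum -/
theorem std_wG {D : TD} {a lam : ℕ → ℝ} (hD : Std41 D a lam) (f : ℕ) (F : ℕ → ℝ) :
    ((D.wG f).map F).sum = ∑ i ∈ Finset.Ico (fl 8192 f / 32) (fl 8192 (f + 1) / 32), F i := by
  unfold TD.wG
  rw [std_fl hD, std_fl hD, hD.ug f, sum_range']
  have h1 : fl 8192 f ≤ fl 8192 (f + 1) := fl_mono (Nat.le_succ f)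
  have h2 : fl 8192 f / 32 + (fl 8192 (f + 1) / 32 - fl 8192 f / 32) = fl 8192 (f + 1) / 32 := by
    have := Nat.div_le_div_right (c := 32) h1
    omega
  rw [h2]

theorem fl32 (f : ℕ) : 32 * (fl 8192 f / 32) = fl 8192 f :=
  Nat.mul_div_cancel' (fl_dvd (by norm_num) f)

theorem sum_frames (G : ℕ → ℝ) {s g : ℕ} (h : s ≤ g) :
    ∑ f ∈ Finset.Ico s g, ∑ i ∈ Finset.Ico (fl 8192 f / 32) (fl 8192 (f + 1) / 32), G i =
      ∑ i ∈ Finset.Ico (fl 8192 s / 32) (fl 8192 g / 32), G i := by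
  induction g, h using Nat.le_induction with
  | base => simp
  | succ n hn ih =>
    rw [Finset.sum_Ico_succ_top hn, ih]
    exact Finset.sum_Ico_consecutive _ (Nat.div_le_div_right (fl_mono hn))
      (Nat.div_le_div_right (fl_mono (Nat.le_succ n)))

/-- facts on a group of frame `f` -/
theorem grp_facts {f i : ℕ} (hi : i ∈ Finset.Ico (fl 8192 f / 32) (fl 8192 (f + 1) / 32)) :
    8192 ≤ 32 * i ∧ fl 8192 f ≤ 32 * i ∧ 32 * i + 32 ≤ fl 8192 (f + 1) ∧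
      32 * fl 8192 (f + 1) ≤ 33 * (32 * i) := by
  rw [Finset.mem_Ico] at hi
  obtain ⟨h1, h2⟩ := hi
  have h3 := fl32 f
  have h4 := fl32 (f + 1)
  have h5 := fl_ge (le_refl 8192) f
  have h6 := fl_upper 8192 f
  have a1 : fl 8192 f ≤ 32 * i := by omega
  exact ⟨by omega, a1, by omega, by omega⟩

/-- **children of class G in window `j`**, strong form -/
theorem KG_sum' {D : TD} {a lam : ℕ → ℝ} (hD : Std41 D a lam) {g j : ℕ} (hg : 1 ≤ g)
    (hj : fl 8192 g - 20 ≤ j) {Y L : ℝ} (hY0 : 8192 ≤ Y) (hY : Y ^ 4 ≤ 12 * (j : ℝ) ^ 3 ∨ Y = 8192)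
    (hL0 : 0 ≤ L)
    (hL : ∀ f, 1 ≤ f → f < g → 12 * (j : ℝ) ^ 3 < (fl 8192 (f + 1) : ℝ) ^ 4 →
      ((fl 8192 f : ℝ) - 36) ^ 4 < 204 * ((j : ℝ) + 1) ^ 3 → lam f ≤ L) :
    ∑ f ∈ Finset.Ico 1 g,
      ((D.wG f).map (fun i => (srcG D.q (D.MG f i) (D.ug f) i).D D.q j (D.σm f))).sum ≤
      L * ((1 + 560 / Y) * (3 / 2) + 11 / 10 * 2048 * (j : ℝ) / Y ^ 2 / 192) := by
  classical
  have hYp : (0 : ℝ) < Y := by linarith
  have hj8 : 8192 ≤ j := by
    have h1 : fl 8192 1 ≤ fl 8192 g := fl_mono hg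
    have h2 : fl 8192 1 = 8192 + 32 * (8192 / 1024) := rfl
    omega
  have hj0 : (8192 : ℝ) ≤ j := by exact_mod_cast hj8
  have hjp : (0 : ℝ) < j := by linarith
  have hYj : Y ≤ j := by
    rcases hY with h | h
    · by_contra hc
      push_neg at hc
      have h1 : (j : ℝ) ^ 3 ≤ Y ^ 3 := pow_le_pow_left₀ hjp.le hc.le 3
      have h2 : 0 < Y ^ 3 := by positivity
      have h3 : Y ^ 4 = Y * Y ^ 3 := by ring
      rw [h3] at h
      nlinarith
    · rw [h]; exact hj0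
  -- the common bound
  set W : ℕ → ℝ := fun i => (32 * (i : ℝ) + 32) ^ 3 / ((j : ℝ) + 1) ^ 3 +
    2048 * (j : ℝ) / 3 * (1 / (32 * (i : ℝ)) ^ 3) with hW
  set G : ℕ → ℝ := fun i => if RG 2048 (32 * i) j then L * ((1 + 183 / Y) * W i) else 0 with hG
  have hstep : ∀ f ∈ Finset.Ico 1 g,
      ((D.wG f).map (fun i => (srcG D.q (D.MG f i) (D.ug f) i).D D.q j (D.σm f))).sum ≤
      ∑ i ∈ Finset.Ico (fl 8192 f / 32) (fl 8192 (f + 1) / 32), G i := by
    intro f hf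
    rw [Finset.mem_Ico] at hf
    rw [std_wG hD]
    refine Finset.sum_le_sum fun i hi => ?_
    obtain ⟨f1, f2, f3, f4⟩ := grp_facts hi
    rw [hD.ug f, hD.MG f i, std_q hD]
    by_cases hr : RG 2048 (32 * i) j
    · rw [srcG_D f1 _ hr]
      simp only [hG]
      rw [if_pos hr]
      obtain ⟨d1, d2⟩ := kg_dat (by norm_num) f1 (by omega) hr
      have hKc : ((32 * i : ℕ) : ℝ) = 32 * (i : ℝ) := by push_cast; ring
      have hYK : Y ≤ ((32 * i : ℕ) : ℝ) := by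
        rcases hY with h | h
        · exact (lt_of_pow_lt_pow_left₀ 4 (Nat.cast_nonneg _) (lt_of_le_of_lt h d1)).le
        · rw [h]; exact_mod_cast f1
      have hlam : lam f ≤ L := by
        apply hL f hf.1 hf.2
        · refine lt_of_lt_of_le d1 (pow_le_pow_left₀ (Nat.cast_nonneg _) ?_ 4)
          exact_mod_cast (by omega : 32 * i ≤ fl 8192 (f + 1))
        · refine lt_of_le_of_lt (pow_le_pow_left₀ ?_ ?_ 4) d2
          · have : (8192 : ℝ) ≤ (fl 8192 f : ℝ) := by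
              exact_mod_cast fl_ge (le_refl 8192) f
            linarith
          · have : ((fl 8192 f : ℕ) : ℝ) ≤ ((32 * i : ℕ) : ℝ) := by exact_mod_cast f2
            linarith
      have hw := kg_wgt (q := 2048) (by norm_num) (L1 := fl 8192 (f + 1)) f1 hj8 hr hY0 hYK
        (by omega) f4
      have hσ : D.σm f = th 2048 (fl 8192 (f + 1)) := by
        unfold TD.σm
        rw [std_q hD, std_fl hD]
      rw [hσ]
      have hnn : 0 ≤ (th 2048 (j + 1) / th 2048 (32 * i + 32) +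
          th 2048 (32 * i) * (th 2048 (j + 1) / (th 2048 j - th 2048 (j + 1)))) *
          (1 + 4 / 5 * (th 2048 j / th 2048 (fl 8192 (f + 1)))) := by
        have e2 : 0 < th 2048 j - th 2048 (j + 1) := by
          have := th_lt (q := 2048) (by norm_num) (by omega : 0 < j) (Nat.lt_succ_self j)
          linarith
        have t1 : 0 < th 2048 (j + 1) := th_pos (by norm_num) (by omega)
        have t2 : 0 < th 2048 (32 * i) := th_pos (by norm_num) (by omega)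
        have t3 : 0 < th 2048 (32 * i + 32) := th_pos (by norm_num) (by omega)
        have t4 : 0 < th 2048 j := th_pos (by norm_num) (by omega)
        have t5 : 0 < th 2048 (fl 8192 (f + 1)) := th_pos (by norm_num) (by omega)
        positivity
      refine mul_le_mul hlam ?_ hnn hL0
      simp only [hW]
      rw [hKc] at hw
      exact hw
    · rw [srcG_D0 _ hr]
      simp only [hG]
      rw [if_neg hr]
  refine (Finset.sum_le_sum hstep).trans ?_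
  rw [sum_frames G hg]
  simp only [hG]
  rw [← Finset.sum_filter, ← Finset.mul_sum]
  apply mul_le_mul_of_nonneg_left _ hL0
  rw [← Finset.mul_sum]
  simp only [hW]
  rw [Finset.sum_add_distrib, ← Finset.sum_div, ← Finset.mul_sum]
  set S := (Finset.Ico (fl 8192 1 / 32) (fl 8192 g / 32)).filter (fun i => RG 2048 (32 * i) j) with hS
  have hmem : ∀ i ∈ S, 8192 ≤ 32 * i ∧ RG 2048 (32 * i) j := by
    intro i hi
    rw [hS, Finset.mem_filter, Finset.mem_Ico] at hi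
    refine ⟨?_, hi.2⟩
    have h2 : fl 8192 1 = 8192 + 32 * (8192 / 1024) := rfl
    omega
  have hd : ∀ i ∈ S, 12 * (j : ℝ) ^ 3 < (32 * (i : ℝ)) ^ 4 ∧
      (32 * (i : ℝ) - 36) ^ 4 < 204 * ((j : ℝ) + 1) ^ 3 ∧ Y ≤ 32 * (i : ℝ) := by
    intro i hi
    obtain ⟨h1, h2⟩ := hmem i hi
    obtain ⟨d1, d2⟩ := kg_dat (by norm_num) h1 (by omega) h2
    have hKc : ((32 * i : ℕ) : ℝ) = 32 * (i : ℝ) := by push_cast; ring
    have hYK : Y ≤ ((32 * i : ℕ) : ℝ) := by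
      rcases hY with h | h
      · exact (lt_of_pow_lt_pow_left₀ 4 (Nat.cast_nonneg _) (lt_of_le_of_lt h d1)).le
      · rw [h]; exact_mod_cast h1
    rw [hKc] at d1 d2 hYK
    exact ⟨d1, d2, hYK⟩
  have s1 := kg_S1 S hY0 (fun i hi => (hd i hi).1) (fun i hi => (hd i hi).2.1)
    (fun i hi => (hd i hi).2.2)
  have s2 := kg_S2 S hY0 (fun i hi => (hd i hi).2.2)
  obtain ⟨w, hw⟩ : ∃ w : ℝ, w = 1 / Y := ⟨_, rfl⟩
  have hw0 : 0 < w := by rw [hw]; positivity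
  have hw1 : w ≤ 1 / 8192 := by
    rw [hw]
    exact one_div_le_one_div_of_le (by norm_num) hY0
  have t1 : (∑ i ∈ S, (32 * (i : ℝ) + 32) ^ 3) / ((j : ℝ) + 1) ^ 3 ≤ 3 / 2 * (1 + 365 / Y) := by
    have hj1p : (0 : ℝ) < ((j : ℝ) + 1) ^ 3 := by positivity
    rw [div_le_iff₀ hj1p]
    refine s1.trans ?_
    have h1 : (1 - 3 / Y) * ((j : ℝ) + 1) ^ 3 ≤ (j : ℝ) ^ 3 := by
      have h0 : 3 / (j : ℝ) ≤ 3 / Y := div_le_div_of_nonneg_left (by norm_num) hYp hYj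
      have e : (1 - 3 / (j : ℝ)) * ((j : ℝ) + 1) ^ 3 =
          (j : ℝ) ^ 3 - (6 * j + 8 + 3 / (j : ℝ)) := by
        field_simp
        ring
      have h2 : (1 - 3 / Y) * ((j : ℝ) + 1) ^ 3 ≤ (1 - 3 / (j : ℝ)) * ((j : ℝ) + 1) ^ 3 :=
        mul_le_mul_of_nonneg_right (by linarith) hj1p.le
      have h3 : 0 ≤ 3 / (j : ℝ) := by positivity
      linarith
    have e1 : 343 / Y = 343 * w := by rw [hw]; ring
    have e2 : 365 / Y = 365 * w := by rw [hw]; ring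
    have e3 : 3 / Y = 3 * w := by rw [hw]; ring
    rw [e3] at h1
    rw [e1, e2]
    nlinarith
  have t2 : 2048 * (j : ℝ) / 3 * ∑ i ∈ S, 1 / (32 * (i : ℝ)) ^ 3 ≤
      101 / 100 * 2048 * (j : ℝ) / Y ^ 2 / 192 := by
    refine (mul_le_mul_of_nonneg_left s2 (by positivity)).trans ?_
    have h1 : 1 / (64 * (Y - 32) ^ 2) ≤ 101 / 100 / Y ^ 2 / 64 := by
      rw [div_div, div_div, div_le_div_iff₀ (by
        have : 0 < Y - 32 := by linarith
        positivity) (by positivity)]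
      have h2 : Y ≤ 8192 / 8160 * (Y - 32) := by linarith
      have h3 : Y ^ 2 ≤ (8192 / 8160 * (Y - 32)) ^ 2 := pow_le_pow_left₀ hYp.le h2 2
      have h4 : (0 : ℝ) ≤ (Y - 32) ^ 2 := sq_nonneg _
      rw [mul_pow] at h3
      nlinarith
    calc 2048 * (j : ℝ) / 3 * (1 / (64 * (Y - 32) ^ 2)) ≤
          2048 * (j : ℝ) / 3 * (101 / 100 / Y ^ 2 / 64) :=
          mul_le_mul_of_nonneg_left h1 (by positivity)
      _ = 101 / 100 * 2048 * (j : ℝ) / Y ^ 2 / 192 := by ring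
  have hz : 0 ≤ 2048 * (j : ℝ) / Y ^ 2 / 192 := by positivity
  obtain ⟨z, hz'⟩ : ∃ z : ℝ, z = 2048 * (j : ℝ) / Y ^ 2 / 192 := ⟨_, rfl⟩
  have e5 : 101 / 100 * 2048 * (j : ℝ) / Y ^ 2 / 192 = 101 / 100 * z := by rw [hz']; ring
  have e6 : 11 / 10 * 2048 * (j : ℝ) / Y ^ 2 / 192 = 11 / 10 * z := by rw [hz']; ring
  rw [e5] at t2
  rw [e6]
  rw [← hz'] at hz
  have e7 : 183 / Y = 183 * w := by rw [hw]; ring
  have e8 : 365 / Y = 365 * w := by rw [hw]; ring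
  have e9 : 560 / Y = 560 * w := by rw [hw]; ring
  rw [e8] at t1
  rw [e7, e9]
  have h5 : 0 ≤ 1 + 183 * w := by positivity
  refine (mul_le_mul_of_nonneg_left (add_le_add t1 t2) h5).trans ?_
  have h6 : w * w ≤ w * (1 / 8192) := mul_le_mul_of_nonneg_left hw1 hw0.le
  have h7 : w * z ≤ 1 / 8192 * z := mul_le_mul_of_nonneg_right hw1 hz
  nlinarith

/-- **children of class G in window `j`** -/
theorem KG_sum {D : TD} {a lam : ℕ → ℝ} (hD : Std41 D a lam) {g j : ℕ} (hg : 1 ≤ g)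
    (hj : fl 8192 g - 20 ≤ j) {Y L : ℝ} (hY0 : 8192 ≤ Y) (hY : Y ^ 4 ≤ 12 * (j : ℝ) ^ 3 ∨ Y = 8192)
    (hL0 : 0 ≤ L)
    (hL : ∀ f, 1 ≤ f → f < g → 12 * (j : ℝ) ^ 3 < (fl 8192 (f + 1) : ℝ) ^ 4 →
      ((fl 8192 f : ℝ) - 36) ^ 4 < 204 * ((j : ℝ) + 1) ^ 3 → lam f ≤ L) :
    ∑ f ∈ Finset.Ico 1 g,
      ((D.wG f).map (fun i => (srcG D.q (D.MG f i) (D.ug f) i).D D.q j (D.σm f))).sum ≤
      L * ((1 + 560 / Y) * (3 / 2) + 8 * 2048 * (j : ℝ) / Y ^ 2 / 192) := by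
  refine (KG_sum' hD hg hj hY0 hY hL0 hL).trans (mul_le_mul_of_nonneg_left ?_ hL0)
  have hz : 0 ≤ 2048 * (j : ℝ) / Y ^ 2 / 192 := by
    have : 0 < Y := by linarith
    positivity
  have e5 : 8 * 2048 * (j : ℝ) / Y ^ 2 / 192 = 8 * (2048 * (j : ℝ) / Y ^ 2 / 192) := by ring
  have e6 : 11 / 10 * 2048 * (j : ℝ) / Y ^ 2 / 192 = 11 / 10 * (2048 * (j : ℝ) / Y ^ 2 / 192) := by
    ring
  rw [e5, e6]
  linarith

/-- no children of class G in the first windows -/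
theorem KG_none {D : TD} {a lam : ℕ → ℝ} (hD : Std41 D a lam) {f j : ℕ} (hf : 1 ≤ f)
    (hj : 204 * ((j : ℝ) + 1) ^ 3 ≤ ((fl 8192 f : ℝ) - 36) ^ 4) :
    ((D.wG f).map (fun i => (srcG D.q (D.MG f i) (D.ug f) i).D D.q j (D.σm f) +
      (srcG D.q (D.MG f i) (D.ug f) i).B D.q j)).sum = 0 := by
  rw [std_wG hD]
  refine Finset.sum_eq_zero fun i hi => ?_
  obtain ⟨f1, f2, f3, f4⟩ := grp_facts hi
  rw [hD.ug f, hD.MG f i, std_q hD]
  have hno : ¬ th 2048 (j + 1) < th 2048 (32 * i - 36) - th 2048 (32 * i + 32) := by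
    intro h1
    have e36 : ((32 * i - 36 : ℕ) : ℝ) = ((32 * i : ℕ) : ℝ) - 36 := by
      rw [Nat.cast_sub (by omega)]; norm_num
    have hK0 : (8192 : ℝ) ≤ ((32 * i : ℕ) : ℝ) := by exact_mod_cast f1
    have h3 := kr_hi (q := 2048) (a := ((32 * i : ℕ) : ℝ) - 36) (b := ((32 * i : ℕ) : ℝ) + 32)
      (j := j) (by norm_num) (by linarith) (by linarith) (by
        unfold th at h1
        rw [e36] at h1
        have e32 : ((32 * i + 32 : ℕ) : ℝ) = ((32 * i : ℕ) : ℝ) + 32 := by push_cast; ring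
        have ej : ((j + 1 : ℕ) : ℝ) = (j : ℝ) + 1 := by push_cast; rfl
        rw [e32, ej] at h1
        exact h1)
    have e : 3 * (((32 * i : ℕ) : ℝ) + 32 - (((32 * i : ℕ) : ℝ) - 36)) = 204 := by ring
    rw [e] at h3
    have h4 : ((fl 8192 f : ℝ) - 36) ^ 4 ≤ (((32 * i : ℕ) : ℝ) - 36) ^ 4 := by
      apply pow_le_pow_left₀
      · have : (8192 : ℝ) ≤ (fl 8192 f : ℝ) := by
          exact_mod_cast fl_ge (le_refl 8192) f
        linarith
      · have : ((fl 8192 f : ℕ) : ℝ) ≤ ((32 * i : ℕ) : ℝ) := by exact_mod_cast f2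
        linarith
    linarith
  have hB : (srcG 2048 (MGl (lam f) i) 32 i).B 2048 j = 0 := by
    unfold Src.B
    rw [if_neg]
    intro h
    apply hno
    unfold srcG at h
    simp only [kG32] at h
    exact h
  rw [hB, srcG_D0 _ (fun hr => hno hr.1), add_zero]

/-- total thickness of the children of a group -/
theorem bg_T {K : ℕ} (hK : 8192 ≤ K) :
    ∑ n ∈ pool 2048 K (K + 32), (th 2048 (K - 36) - sd n) ≤
      468 * (1 + 400 / (K : ℝ)) * (1 / (K : ℝ) - 1 / ((K : ℝ) + 32)) := by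
  have hK0 : (8192 : ℝ) ≤ K := by exact_mod_cast hK
  have hKp : (0 : ℝ) < K := by linarith
  set m1 := ix 2048 K with hm1
  set m2 := ix 2048 (K + 32) with hm2
  have hK3 : (8192 : ℝ) ^ 3 ≤ (K : ℝ) ^ 3 := pow_le_pow_left₀ (by norm_num) hK0 3
  have hm12 : m1 ≤ m2 := ix_mono (by norm_num) (by omega)
  have u1 : (m1 : ℝ) ≤ (K : ℝ) ^ 3 / 2048 + 1 / 2 := by
    have h0 : (0 : ℝ) ≤ (K : ℝ) ^ 3 / 2048 - 1 / 2 := by norm_num at hK3; linarith
    have h1 : ((ix 2048 K : ℕ) : ℝ) < (K : ℝ) ^ 3 / 2048 - 1 / 2 + 1 := Nat.ceil_lt_add_one h0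
    rw [← hm1] at h1
    linarith
  have u2 : (m2 : ℝ) ≤ ((K : ℝ) + 32) ^ 3 / 2048 + 1 / 2 := by
    have h0 : (0 : ℝ) ≤ ((K + 32 : ℕ) : ℝ) ^ 3 / 2048 - 1 / 2 := by
      have : (K : ℝ) ^ 3 ≤ ((K + 32 : ℕ) : ℝ) ^ 3 :=
        pow_le_pow_left₀ hKp.le (by push_cast; linarith) 3
      norm_num at hK3
      linarith
    have h1 : ((ix 2048 (K + 32) : ℕ) : ℝ) < ((K + 32 : ℕ) : ℝ) ^ 3 / 2048 - 1 / 2 + 1 :=
      Nat.ceil_lt_add_one h0
    rw [← hm2] at h1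
    push_cast at h1
    linarith
  have hcard := card_pool_le (q := 2048) (by norm_num) (by omega : K ≤ K + 32) (by
    rw [le_div_iff₀ (by norm_num)]
    norm_num at hK3
    linarith)
  have hcard0 : ((pool 2048 K (K + 32)).card : ℝ) = (m2 : ℝ) - m1 := by
    unfold pool
    rw [Nat.card_Ico, Nat.cast_sub hm12]
  set N : ℝ := ((pool 2048 K (K + 32)).card : ℝ) with hN
  have hNn : 0 ≤ N := Nat.cast_nonneg _
  -- arithmetic-harmonic
  have hah : N * (2 / ((m1 : ℝ) + m2)) ≤ ∑ n ∈ pool 2048 K (K + 32), sd n := by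
    have hm1p : (1 : ℝ) ≤ m1 := by
      have h2 : (K : ℝ) ^ 3 / 2048 - 1 / 2 ≤ ((ix 2048 K : ℕ) : ℝ) := Nat.le_ceil _
      rw [← hm1] at h2
      norm_num at hK3
      linarith
    have hm2p : (1 : ℝ) ≤ m2 := hm1p.trans (by exact_mod_cast hm12)
    obtain ⟨s, hs⟩ : ∃ s : ℝ, s = (m1 : ℝ) + m2 := ⟨_, rfl⟩
    have hsp : 0 < s := by rw [hs]; linarith
    have hpt : ∀ n : ℕ, 4 / s - 4 / s ^ 2 * ((n : ℝ) + 1 / 2) ≤ sd n := by
      intro n
      unfold sd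
      have hn : (0 : ℝ) < (n : ℝ) + 1 / 2 := by positivity
      rw [le_div_iff₀ hn]
      have e : (4 / s - 4 / s ^ 2 * ((n : ℝ) + 1 / 2)) * ((n : ℝ) + 1 / 2) =
          1 - (2 * ((n : ℝ) + 1 / 2) / s - 1) ^ 2 := by
        field_simp
        ring
      rw [e]
      nlinarith [sq_nonneg (2 * ((n : ℝ) + 1 / 2) / s - 1)]
    have hsum : ∑ n ∈ pool 2048 K (K + 32), (4 / s - 4 / s ^ 2 * ((n : ℝ) + 1 / 2)) =
        N * (2 / s) := by
      rw [Finset.sum_sub_distrib, ← Finset.mul_sum, Finset.sum_const, nsmul_eq_mul]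
      have e1 : ∑ n ∈ pool 2048 K (K + 32), ((n : ℝ) + 1 / 2) = ((m2 : ℝ) ^ 2 - (m1 : ℝ) ^ 2) / 2 := by
        unfold pool
        rw [← hm1, ← hm2]
        have : ∀ b : ℕ, m1 ≤ b → ∑ n ∈ Finset.Ico m1 b, ((n : ℝ) + 1 / 2) =
            ((b : ℝ) ^ 2 - (m1 : ℝ) ^ 2) / 2 := by
          intro b hb
          induction b, hb using Nat.le_induction with
          | base => simp
          | succ n hn ih =>
            rw [Finset.sum_Ico_succ_top hn, ih]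
            push_cast
            ring
        exact this m2 hm12
      rw [e1, ← hN, hcard0]
      have e2 : (m2 : ℝ) ^ 2 - (m1 : ℝ) ^ 2 = ((m2 : ℝ) - m1) * s := by rw [hs]; ring
      rw [e2]
      field_simp
      ring
    rw [← hs, ← hsum]
    exact Finset.sum_le_sum fun n _ => hpt n
  -- the estimate
  rw [Finset.sum_sub_distrib, Finset.sum_const, nsmul_eq_mul, ← hN]
  have e36 : ((K - 36 : ℕ) : ℝ) = (K : ℝ) - 36 := by
    rw [Nat.cast_sub (by omega)]; norm_num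
  have hc : th 2048 (K - 36) = 2048 / ((K : ℝ) - 36) ^ 3 := by
    unfold th
    rw [e36]
  have hm12s : (m1 : ℝ) + m2 ≤ ((K : ℝ) ^ 3 + ((K : ℝ) + 32) ^ 3 + 2048) / 2048 := by linarith
  have hm12p : (0 : ℝ) < (m1 : ℝ) + m2 := by
    have h2 : (K : ℝ) ^ 3 / 2048 - 1 / 2 ≤ ((ix 2048 K : ℕ) : ℝ) := Nat.le_ceil _
    rw [← hm1] at h2
    norm_num at hK3
    have : (0 : ℝ) ≤ m2 := Nat.cast_nonneg _
    linarith
  have h2 : 4096 / ((K : ℝ) ^ 3 + ((K : ℝ) + 32) ^ 3 + 2048) ≤ 2 / ((m1 : ℝ) + m2) := by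
    rw [div_le_div_iff₀ (by positivity) hm12p]
    linarith
  have hA : th 2048 (K - 36) - 2 / ((m1 : ℝ) + m2) ≤ 2048 * (156 * (1 + 52 / (K : ℝ))) / (K : ℝ) ^ 4 := by
    have h3 : th 2048 (K - 36) - 2 / ((m1 : ℝ) + m2) ≤
        2048 / ((K : ℝ) - 36) ^ 3 - 4096 / ((K : ℝ) ^ 3 + ((K : ℝ) + 32) ^ 3 + 2048) := by
      rw [hc]; linarith
    refine h3.trans ?_
    have hx : (0 : ℝ) < (K : ℝ) - 36 := by linarith
    have hz : (0 : ℝ) < (K : ℝ) ^ 3 + ((K : ℝ) + 32) ^ 3 + 2048 := by positivity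
    rw [div_sub_div _ _ (by positivity) (by positivity), div_le_div_iff₀ (by positivity)
      (by positivity)]
    have e4 : 2048 * (156 * (1 + 52 / (K : ℝ))) = 2048 * 156 * ((K : ℝ) + 52) / K := by
      field_simp
    rw [e4, div_mul_eq_mul_div, le_div_iff₀ hKp]
    obtain ⟨x, hx'⟩ : ∃ x : ℝ, (K : ℝ) = x := ⟨_, rfl⟩
    rw [hx'] at hK0 ⊢
    nlinarith [pow_nonneg (by linarith : (0 : ℝ) ≤ x - 8192) 2, pow_nonneg (by linarith : (0 : ℝ) ≤ x - 8192) 3, pow_nonneg (by linarith : (0 : ℝ) ≤ x - 8192) 4]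
  have hNle : N ≤ (96 * (K : ℝ) ^ 2 + 3072 * K + 34816) / 2048 := by
    refine hcard.trans (le_of_eq ?_)
    push_cast
    ring
  have hA0 : 0 ≤ 2048 * (156 * (1 + 52 / (K : ℝ))) / (K : ℝ) ^ 4 := by positivity
  have h5 : N * th 2048 (K - 36) - ∑ n ∈ pool 2048 K (K + 32), sd n ≤
      (96 * (K : ℝ) ^ 2 + 3072 * K + 34816) / 2048 *
        (2048 * (156 * (1 + 52 / (K : ℝ))) / (K : ℝ) ^ 4) := by
    calc N * th 2048 (K - 36) - ∑ n ∈ pool 2048 K (K + 32), sd n ≤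
          N * th 2048 (K - 36) - N * (2 / ((m1 : ℝ) + m2)) := by linarith
      _ = N * (th 2048 (K - 36) - 2 / ((m1 : ℝ) + m2)) := by ring
      _ ≤ N * (2048 * (156 * (1 + 52 / (K : ℝ))) / (K : ℝ) ^ 4) :=
          mul_le_mul_of_nonneg_left hA hNn
      _ ≤ _ := mul_le_mul_of_nonneg_right hNle hA0
  refine h5.trans ?_
  have e1 : (96 * (K : ℝ) ^ 2 + 3072 * K + 34816) / 2048 *
        (2048 * (156 * (1 + 52 / (K : ℝ))) / (K : ℝ) ^ 4) =
      (96 * (K : ℝ) ^ 2 + 3072 * K + 34816) * (156 * ((K : ℝ) + 52)) / (K : ℝ) ^ 5 := by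
    field_simp
  have e2 : 468 * (1 + 400 / (K : ℝ)) * (1 / (K : ℝ) - 1 / ((K : ℝ) + 32)) =
      14976 * ((K : ℝ) + 400) / ((K : ℝ) ^ 2 * ((K : ℝ) + 32)) := by
    field_simp
    ring
  rw [e1, e2, div_le_div_iff₀ (by positivity) (by positivity)]
  have e3 : (96 * (K : ℝ) ^ 2 + 3072 * K + 34816) * (156 * ((K : ℝ) + 52)) *
      ((K : ℝ) ^ 2 * ((K : ℝ) + 32)) =
      (K : ℝ) ^ 2 * ((96 * (K : ℝ) ^ 2 + 3072 * K + 34816) * (156 * ((K : ℝ) + 52)) *
        ((K : ℝ) + 32)) := by ring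
  have e4 : 14976 * ((K : ℝ) + 400) * (K : ℝ) ^ 5 =
      (K : ℝ) ^ 2 * (14976 * ((K : ℝ) + 400) * (K : ℝ) ^ 3) := by ring
  rw [e3, e4]
  apply mul_le_mul_of_nonneg_left _ (by positivity)
  have k2 : (0 : ℝ) ≤ (K : ℝ) ^ 2 * (K - 8192) := mul_nonneg (by positivity) (by linarith)
  have k1 : (0 : ℝ) ≤ (K : ℝ) * (K - 8192) := mul_nonneg (by positivity) (by linarith)
  nlinarith

/-- births of one group -/
theorem bg_one {lam : ℝ} (hlam : 0 ≤ lam) {i j : ℕ} (hi : 8192 ≤ 32 * i) {l : ℝ} (hl : 0 < l)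
    (hli : l ≤ ((32 * i : ℕ) : ℝ)) :
    (srcG 2048 (MGl lam i) 32 i).B 2048 j ≤
      chC * (lam * (468 * (1 + 400 / l)) + 1 / 50) *
        (1 / ((32 * i : ℕ) : ℝ) - 1 / (((32 * i : ℕ) : ℝ) + 32)) := by
  obtain ⟨K, hK⟩ : ∃ K : ℕ, K = 32 * i := ⟨_, rfl⟩
  have hK8 : 8192 ≤ K := by omega
  have hK0 : (8192 : ℝ) ≤ K := by exact_mod_cast hK8
  have hKp : (0 : ℝ) < K := by linarith
  have hd : 0 ≤ 1 / (K : ℝ) - 1 / ((K : ℝ) + 32) := by
    have := one_div_le_one_div_of_le hKp (by linarith : (K : ℝ) ≤ K + 32)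
    linarith
  have hC : 0 ≤ chC := by unfold chC; norm_num
  have hT : (srcG 2048 (MGl lam i) 32 i).T ≤
      lam * (468 * (1 + 400 / l)) * (1 / (K : ℝ) - 1 / ((K : ℝ) + 32)) := by
    unfold Src.T
    rw [srcG_u hi]
    unfold srcG
    simp only [kG32]
    rw [← hK] at hli ⊢
    have h1 := bg_T hK8
    have h2 : 468 * (1 + 400 / (K : ℝ)) * (1 / (K : ℝ) - 1 / ((K : ℝ) + 32)) ≤
        468 * (1 + 400 / l) * (1 / (K : ℝ) - 1 / ((K : ℝ) + 32)) := by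
      apply mul_le_mul_of_nonneg_right _ hd
      have : 400 / (K : ℝ) ≤ 400 / l := div_le_div_of_nonneg_left (by norm_num) hl hli
      linarith
    calc lam * ∑ n ∈ pool 2048 K (K + 32), (th 2048 (K - 36) - sd n) ≤
          lam * (468 * (1 + 400 / l) * (1 / (K : ℝ) - 1 / ((K : ℝ) + 32))) :=
          mul_le_mul_of_nonneg_left (h1.trans h2) hlam
      _ = _ := by ring
  have hP : 43 * ((srcG 2048 (MGl lam i) 32 i).pmax - (srcG 2048 (MGl lam i) 32 i).σ) ≤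
      1 / 50 * (1 / (K : ℝ) - 1 / ((K : ℝ) + 32)) := by
    unfold srcG
    simp only [kG32]
    rw [← hK]
    have e36 : ((K - 36 : ℕ) : ℝ) = (K : ℝ) - 36 := by
      rw [Nat.cast_sub (by omega)]; norm_num
    have e32 : ((K + 32 : ℕ) : ℝ) = (K : ℝ) + 32 := by push_cast; ring
    have e1 : 1 / (K : ℝ) - 1 / ((K : ℝ) + 32) = 32 / ((K : ℝ) * ((K : ℝ) + 32)) := by
      field_simp
      ring
    unfold th
    rw [e36, e32, e1]
    have hx : (0 : ℝ) < (K : ℝ) - 36 := by linarith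
    rw [div_sub_div _ _ (by positivity) (by positivity), mul_div_assoc', mul_div_assoc',
      div_le_div_iff₀ (by positivity) (by positivity)]
    -- 43 * 2048 * ((K+32)^3 - (K-36)^3) * K (K+32) ≤ 32/50 (K-36)^3 (K+32)^3
    have h3 : (K : ℝ) ≤ 8192 / 8156 * ((K : ℝ) - 36) := by linarith
    have h4 : (K : ℝ) + 32 ≤ 8224 / 8156 * ((K : ℝ) - 36) := by linarith
    obtain ⟨y, hy⟩ : ∃ y : ℝ, y = (K : ℝ) - 36 := ⟨_, rfl⟩
    have hy0 : 8156 ≤ y := by rw [hy]; linarith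
    have hKy : (K : ℝ) = y + 36 := by rw [hy]; ring
    rw [hKy]
    have e2 : y + 36 + 32 = y + 68 := by ring
    have e3 : y + 36 - 36 = y := by ring
    rw [e2, e3]
    have e4 : 43 * (2048 * (y + 68) ^ 3 - y ^ 3 * 2048) * ((y + 36) * (y + 68)) =
        (y + 68) * (43 * 2048 * (204 * y ^ 2 + 13872 * y + 314432) * (y + 36)) := by ring
    have e5 : 1 / 50 * 32 * (y ^ 3 * (y + 68) ^ 3) =
        (y + 68) * (32 / 50 * y ^ 3 * (y + 68) ^ 2) := by ring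
    rw [e4, e5]
    apply mul_le_mul_of_nonneg_left _ (by linarith)
    have y1 : (y + 68) ^ 2 = y ^ 2 + 136 * y + 4624 := by ring
    have y2 : 8156 ^ 2 ≤ y ^ 2 := pow_le_pow_left₀ (by norm_num) hy0 2
    have y3 : 43 * 2048 * (204 * y ^ 2 + 13872 * y + 314432) * (y + 36) ≤
        43 * 2048 * (208 * y ^ 2) * (1006 / 1000 * y) := by
      apply mul_le_mul
      · nlinarith
      · linarith
      · linarith
      · positivity
    refine y3.trans ?_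
    have y4 : 32 / 50 * y ^ 3 * y ^ 2 ≤ 32 / 50 * y ^ 3 * (y + 68) ^ 2 := by
      apply mul_le_mul_of_nonneg_left _ (by positivity)
      rw [y1]; nlinarith
    refine le_trans ?_ y4
    have y5 : 43 * 2048 * (208 * y ^ 2) * (1006 / 1000 * y) =
        (43 * 2048 * 208 * (1006 / 1000)) * y ^ 3 := by ring
    have y6 : 32 / 50 * y ^ 3 * y ^ 2 = 32 / 50 * y ^ 2 * y ^ 3 := by ring
    rw [y5, y6]
    apply mul_le_mul_of_nonneg_right _ (by positivity)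
    norm_num at y2 ⊢
    linarith
  rw [← hK]
  unfold Src.B
  split_ifs with hc
  · calc chC * ((srcG 2048 (MGl lam i) 32 i).T +
          43 * ((srcG 2048 (MGl lam i) 32 i).pmax - (srcG 2048 (MGl lam i) 32 i).σ)) ≤
          chC * (lam * (468 * (1 + 400 / l)) * (1 / (K : ℝ) - 1 / ((K : ℝ) + 32)) +
            1 / 50 * (1 / (K : ℝ) - 1 / ((K : ℝ) + 32))) :=
          mul_le_mul_of_nonneg_left (add_le_add hT hP) hC
      _ = _ := by ring
  · have : 0 ≤ lam * (468 * (1 + 400 / l)) := by positivity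
    exact mul_nonneg (mul_nonneg hC (by linarith)) hd

/-- **births of class G in one frame** -/
theorem BG_frame {D : TD} {a lam : ℕ → ℝ} (hD : Std41 D a lam) {f j : ℕ} (hf : 1 ≤ f) :
    ((D.wG f).map (fun i => (srcG D.q (D.MG f i) (D.ug f) i).B D.q j)).sum ≤
      chC * (lam f * (468 * (1 + 400 / (fl 8192 f : ℝ))) + 1 / 50) *
        (1 / (fl 8192 f : ℝ) - 1 / (fl 8192 (f + 1) : ℝ)) := by
  rw [std_wG hD]
  have h0 : (8192 : ℝ) ≤ (fl 8192 f : ℝ) := by exact_mod_cast fl_ge (le_refl 8192) f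
  have hstep : ∀ i ∈ Finset.Ico (fl 8192 f / 32) (fl 8192 (f + 1) / 32),
      (srcG D.q (D.MG f i) (D.ug f) i).B D.q j ≤
      chC * (lam f * (468 * (1 + 400 / (fl 8192 f : ℝ))) + 1 / 50) *
        (1 / (32 * (i : ℝ)) - 1 / (32 * ((i : ℝ) + 1))) := by
    intro i hi
    obtain ⟨f1, f2, f3, f4⟩ := grp_facts hi
    rw [hD.ug f, hD.MG f i, std_q hD]
    have h1 := bg_one (hD.lam0 f) (j := j) f1 (l := (fl 8192 f : ℝ)) (by linarith)
      (by exact_mod_cast f2)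
    refine h1.trans (le_of_eq ?_)
    push_cast
    ring_nf
  refine (Finset.sum_le_sum hstep).trans (le_of_eq ?_)
  rw [← Finset.mul_sum]
  congr 1
  have htel : ∀ a b : ℕ, a ≤ b → ∑ i ∈ Finset.Ico a b, (1 / (32 * (i : ℝ)) - 1 / (32 * ((i : ℝ) + 1))) =
      1 / (32 * (a : ℝ)) - 1 / (32 * (b : ℝ)) := by
    intro a b hab
    induction b, hab using Nat.le_induction with
    | base => simp
    | succ n hn ih =>
      rw [Finset.sum_Ico_succ_top hn, ih]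
      push_cast
      ring
  rw [htel _ _ (Nat.div_le_div_right (fl_mono (Nat.le_succ f)))]
  have e1 : (32 : ℝ) * ((fl 8192 f / 32 : ℕ) : ℝ) = (fl 8192 f : ℝ) := by
    exact_mod_cast fl32 f
  have e2 : (32 : ℝ) * ((fl 8192 (f + 1) / 32 : ℕ) : ℝ) = (fl 8192 (f + 1) : ℝ) := by
    exact_mod_cast fl32 (f + 1)
  rw [e1, e2]

end

end Pool.Agent.LibMoserT
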