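import Pool.Agent.LibMoserT.LedFinD
import Pool.Agent.LibMoserT.LedG
import Pool.Agent.LibMoserT.LedE
set_option autoImplicit false
/-!
# Final assembly of the ledger (helper68)
-/
namespace Pool.Agent.LibMoserT
open Pool.Agent.LibMoser5 Pool.Agent.LibMoserF Classical

noncomputable section

theorem div_le_floor1 (x y : ℕ) (hy : 0 < y) : (x : ℝ) / y ≤ (x / y : ℕ) + 1 := by
  have h := Nat.lt_mul_div_succ x hy
  have hy' : (0 : ℝ) < y := by exact_mod_cast hy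
  rw [div_le_iff₀ hy']
  have h2 : (x : ℝ) < (y : ℝ) * (((x / y : ℕ) : ℝ) + 1) := by exact_mod_cast h
  linarith

/-- the sums of one frame -/
def RDs (D : TD) (f j : ℕ) : ℝ :=
  ((D.wR f).map (fun k => (srcR D.q (D.A k) k).D D.q j (D.σm f))).sum
def RBs (D : TD) (f j : ℕ) : ℝ := ((D.wR f).map (fun k => (srcR D.q (D.A k) k).B D.q j)).sum
def GDs (D : TD) (f j : ℕ) : ℝ :=
  ((D.wG f).map (fun i => (srcG D.q (D.MG f i) (D.ug f) i).D D.q j (D.σm f))).sum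
def GBs (D : TD) (f j : ℕ) : ℝ :=
  ((D.wG f).map (fun i => (srcG D.q (D.MG f i) (D.ug f) i).B D.q j)).sum
def ODs (D : TD) (f j : ℕ) : ℝ := ((D.wO f).map (fun c => (D.srcO c).D D.q j (D.σm f))).sum
def OBs (D : TD) (f j : ℕ) : ℝ := ((D.wO f).map (fun c => (D.srcO c).B D.q j)).sum
def Es (D : TD) (f : ℕ) : ℝ := 16 * D.q / (D.k0 f : ℝ) ^ 2 + 43 * chC * D.y0 f

theorem inc_frame (D : TD) (f j : ℕ) :
    D.inc f j = (if f = 0 then 0 else RDs D f j + RBs D f j + GDs D f j + GBs D f j) +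
      ODs D f j + OBs D f j + D.KEE f j + Es D f + D.FAT f := by
  unfold TD.inc TD.inc1 TD.srcs TD.srcs1 RDs RBs GDs GBs ODs OBs Es
  by_cases hf : f = 0
  · rw [if_pos hf, if_pos hf]
    simp only [List.nil_append, List.map_map, Function.comp_def]
    rw [List.sum_map_add]
    ring
  · rw [if_neg hf, if_neg hf]
    simp only [List.map_append, List.sum_append, List.map_map, Function.comp_def]
    rw [List.sum_map_add, List.sum_map_add, List.sum_map_add]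
    ring

theorem inc_split (D : TD) {g : ℕ} (hg : 1 ≤ g) (j : ℕ) :
    ∑ f ∈ Finset.range g, D.inc f j =
      ∑ f ∈ Finset.Ico 1 g, RDs D f j + ∑ f ∈ Finset.Ico 1 g, RBs D f j +
      ∑ f ∈ Finset.Ico 1 g, GDs D f j + ∑ f ∈ Finset.Ico 1 g, GBs D f j +
      ∑ f ∈ Finset.range g, ODs D f j + ∑ f ∈ Finset.range g, OBs D f j +
      ∑ f ∈ Finset.range g, D.KEE f j + ∑ f ∈ Finset.range g, Es D f +
      ∑ f ∈ Finset.range g, D.FAT f := by
  have h1 : ∑ f ∈ Finset.range g, (if f = 0 then 0 else RDs D f j + RBs D f j + GDs D f j +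
      GBs D f j) = ∑ f ∈ Finset.Ico 1 g, (RDs D f j + RBs D f j + GDs D f j + GBs D f j) := by
    rw [Finset.range_eq_Ico, Finset.sum_eq_sum_Ico_succ_bot (by omega), if_pos rfl, zero_add]
    apply Finset.sum_congr rfl
    intro f hf
    rw [Finset.mem_Ico] at hf
    rw [if_neg (by omega)]
  rw [Finset.sum_congr rfl (fun f _ => inc_frame D f j)]
  simp only [Finset.sum_add_distrib] at h1 ⊢
  rw [h1]

/-! ## births -/

theorem incR_real {l l' aF : ℕ} (h1 : 8192 ≤ l) (h2 : l ≤ l') :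
    chC * ((aF : ℝ) / 2 ^ 20 * (369 / 2 * (1 + 130 / ((l : ℝ) - 20))) + 1 / 5) *
      (1 / ((l : ℝ) - 36) - 1 / ((l' : ℝ) - 36)) ≤ (LTab.incR l l' aF : ℝ) / 2 ^ 40 := by
  have hl : (8192 : ℝ) ≤ l := by exact_mod_cast h1
  have hl' : (l : ℝ) ≤ l' := by exact_mod_cast h2
  have e20 : ((l - 20 : ℕ) : ℝ) = (l : ℝ) - 20 := by rw [Nat.cast_sub (by omega)]; norm_num
  have e36 : ((l - 36 : ℕ) : ℝ) = (l : ℝ) - 36 := by rw [Nat.cast_sub (by omega)]; norm_num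
  have e36' : ((l' - 36 : ℕ) : ℝ) = (l' : ℝ) - 36 := by rw [Nat.cast_sub (by omega)]; norm_num
  have e3 : ((l' - l : ℕ) : ℝ) = (l' : ℝ) - l := by rw [Nat.cast_sub h2]
  have hpos : 0 < (l - 20) * (l - 36) * (l' - 36) := by
    have a1 : 0 < l - 20 := by omega
    have a2 : 0 < l - 36 := by omega
    have a3 : 0 < l' - 36 := by omega
    positivity
  have h := div_le_floor1 ((1845 * aF * (l + 110) + 2 ^ 21 * (l - 20)) * (l' - l) * 2 ^ 19)
    ((l - 20) * (l - 36) * (l' - 36)) hpos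
  rw [le_div_iff₀ (by positivity)]
  unfold LTab.incR
  push_cast [e20, e36, e36', e3] at h ⊢
  refine le_trans (le_of_eq ?_) h
  have b1 : (l : ℝ) - 20 ≠ 0 := by linarith
  have b2 : (l : ℝ) - 36 ≠ 0 := by linarith
  have b3 : (l' : ℝ) - 36 ≠ 0 := by linarith
  unfold chC
  field_simp
  ring

theorem incG_real {l l' lF : ℕ} (h1 : 8192 ≤ l) (h2 : l ≤ l') :
    chC * ((lF : ℝ) / 2 ^ 20 * (468 * (1 + 400 / (l : ℝ))) + 1 / 50) *
      (1 / (l : ℝ) - 1 / (l' : ℝ)) ≤ (LTab.incG l l' lF : ℝ) / 2 ^ 40 := by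
  have hl : (8192 : ℝ) ≤ l := by exact_mod_cast h1
  have hl' : (l : ℝ) ≤ l' := by exact_mod_cast h2
  have e3 : ((l' - l : ℕ) : ℝ) = (l' : ℝ) - l := by rw [Nat.cast_sub h2]
  have hpos : 0 < 10 * l * l * l' := by
    have a1 : 0 < l := by omega
    have a3 : 0 < l' := by omega
    positivity
  have h := div_le_floor1 ((23400 * lF * (l + 400) + 2 ^ 20 * l) * (l' - l) * 2 ^ 20)
    (10 * l * l * l') hpos
  rw [le_div_iff₀ (by positivity)]
  unfold LTab.incG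
  push_cast [e3] at h ⊢
  refine le_trans (le_of_eq ?_) h
  have b1 : (l : ℝ) ≠ 0 := by linarith
  have b3 : (l' : ℝ) ≠ 0 := by linarith
  unfold chC
  field_simp
  ring

variable {T : OTab} {Z : ℕ} {L : LTab} {mJ0 Sp : ℝ}

theorem br_sum (h : ∀ F, 1 ≤ F → F < G1 → L.okB F = true) : ∀ n, 1 ≤ n → n ≤ G1 →
    ∑ F ∈ Finset.Ico 1 n, (LTab.incR (fT F) (fT (F + 1)) (L.a F) : ℝ) ≤ L.br n := by
  intro n hn
  induction n, hn using Nat.le_induction with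
  | base => intro _; simp
  | succ n hn ih =>
    intro h2
    rw [Finset.sum_Ico_succ_top hn]
    have h3 := h n hn (by omega)
    unfold LTab.okB at h3
    rw [Bool.and_eq_true] at h3
    have h4 := Nat.le_of_ble_eq_true h3.1
    have h5 : (L.br n : ℝ) + LTab.incR (fT n) (fT (n + 1)) (L.a n) ≤ L.br (n + 1) := by
      exact_mod_cast h4
    linarith [ih (by omega)]

theorem bg_sum (h : ∀ F, 1 ≤ F → F < G1 → L.okB F = true) : ∀ n, 1 ≤ n → n ≤ G1 →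
    ∑ F ∈ Finset.Ico 1 n, (LTab.incG (fT F) (fT (F + 1)) (lamT F) : ℝ) ≤ L.bg n := by
  intro n hn
  induction n, hn using Nat.le_induction with
  | base => intro _; simp
  | succ n hn ih =>
    intro h2
    rw [Finset.sum_Ico_succ_top hn]
    have h3 := h n hn (by omega)
    unfold LTab.okB at h3
    rw [Bool.and_eq_true] at h3
    have h4 := Nat.le_of_ble_eq_true h3.2
    have h5 : (L.bg n : ℝ) + LTab.incG (fT n) (fT (n + 1)) (lamT n) ≤ L.bg (n + 1) := by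
      exact_mod_cast h4
    linarith [ih (by omega)]

/-! ## the concrete data -/

/-- real potentials -/
def LTab.ar (L : LTab) (g : ℕ) : ℝ := (L.a g : ℝ) / 2 ^ 20
/-- real loads of class G -/
def lamR (g : ℕ) : ℝ := (lamT g : ℝ) / 2 ^ 20

theorem lamT_lt (g : ℕ) : lamT g < 2 ^ 20 := Nat.mod_lt _ (by norm_num)

theorem lamR0 (g : ℕ) : 0 ≤ lamR g := by unfold lamR; positivity
theorem lamR1 (g : ℕ) : lamR g ≤ 1 := by
  unfold lamR
  rw [div_le_one (by norm_num)]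
  exact_mod_cast (lamT_lt g).le

theorem ar0 (L : LTab) (g : ℕ) : 0 ≤ L.ar g := by unfold LTab.ar; positivity

theorem a_le (h : L.Chk T Z) (g : ℕ) : L.a g ≤ 2 ^ 20 := by
  unfold LTab.a
  by_cases hg : Nat.blt g G1 = true
  · rw [hg]; exact (dig_lt _ _ _).le
  · rw [Bool.not_eq_true] at hg
    rw [hg]
    have h3 := h.e
    unfold LTab.okE at h3
    simp only [Bool.and_eq_true] at h3
    obtain ⟨⟨⟨⟨⟨⟨⟨⟨⟨⟨h1, h2⟩, h3⟩, h4⟩, h5⟩, h6⟩, h6'⟩, h7⟩, h8⟩, h9⟩, h10⟩ := h3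
    exact Nat.le_of_ble_eq_true h3

theorem ar1 (h : L.Chk T Z) (g : ℕ) : L.ar g ≤ 1 := by
  unfold LTab.ar
  rw [div_le_one (by norm_num)]
  exact_mod_cast a_le h g

theorem LTab.std (h : L.Chk T Z) (mJ0 Sp : ℝ) :
    Std41 (D41 T L.ar lamR mJ0 Sp) L.ar lamR :=
  D41_std T mJ0 Sp (ar0 L) (ar1 h) lamR0 lamR1

theorem fT_le {g : ℕ} (hg : g ≤ 567) : (fT g : ℝ) = fl 8192 g := by rw [fT_eq g hg]

theorem fl8 (g : ℕ) : 8192 ≤ fl 8192 g := fl_ge (le_refl 8192) g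

/-- births of class R -/
theorem RBs_le (h : L.Chk T Z) {n : ℕ} (hn : 1 ≤ n) (hn' : n ≤ G1) (j : ℕ) :
    ∑ f ∈ Finset.Ico 1 n, RBs (D41 T L.ar lamR mJ0 Sp) f j ≤ (L.br n : ℝ) / 2 ^ 40 := by
  have h1 := br_sum h.b n hn hn'
  have h2 : ∀ f ∈ Finset.Ico 1 n, RBs (D41 T L.ar lamR mJ0 Sp) f j ≤
      (LTab.incR (fT f) (fT (f + 1)) (L.a f) : ℝ) / 2 ^ 40 := by
    intro f hf
    rw [Finset.mem_Ico] at hf
    unfold G1 at hn'
    rw [fT_eq f (by omega), fT_eq (f + 1) (by omega)]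
    exact (BR_frame (LTab.std h mJ0 Sp) hf.1).trans
      (incR_real (fl8 f) (fl_mono (by omega)))
  refine (Finset.sum_le_sum h2).trans ?_
  rw [← Finset.sum_div]
  exact div_le_div_of_nonneg_right h1 (by norm_num)

/-- births of class G -/
theorem GBs_le (h : L.Chk T Z) {n : ℕ} (hn : 1 ≤ n) (hn' : n ≤ G1) (j : ℕ) :
    ∑ f ∈ Finset.Ico 1 n, GBs (D41 T L.ar lamR mJ0 Sp) f j ≤ (L.bg n : ℝ) / 2 ^ 40 := by
  have h1 := bg_sum h.b n hn hn'
  have h2 : ∀ f ∈ Finset.Ico 1 n, GBs (D41 T L.ar lamR mJ0 Sp) f j ≤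
      (LTab.incG (fT f) (fT (f + 1)) (lamT f) : ℝ) / 2 ^ 40 := by
    intro f hf
    rw [Finset.mem_Ico] at hf
    unfold G1 at hn'
    rw [fT_eq f (by omega), fT_eq (f + 1) (by omega)]
    exact (BG_frame (LTab.std h mJ0 Sp) hf.1).trans
      (incG_real (fl8 f) (fl_mono (by omega)))
  refine (Finset.sum_le_sum h2).trans ?_
  rw [← Finset.sum_div]
  exact div_le_div_of_nonneg_right h1 (by norm_num)

theorem Src.D_nn {q : ℝ} {j : ℕ} {σm : ℝ} {z : Src} (hq : 0 < q) (hj : 1 ≤ j) (hM : 0 ≤ z.M)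
    (hσ : 0 ≤ z.σ) (hS : 0 ≤ z.S) (hσm : 0 ≤ σm) : 0 ≤ z.D q j σm := by
  have hth : ∀ n : ℕ, 0 ≤ th q n := by
    intro n
    unfold th
    positivity
  have h1 : th q (j + 1) < th q j := th_lt hq hj (Nat.lt_succ_self j)
  have h2 : 0 ≤ z.u := div_nonneg hM (mul_nonneg hσ (Nat.cast_nonneg _))
  unfold Src.D
  split_ifs
  · have h3 := hth (j + 1)
    have h4 := hth j
    have h5 : 0 ≤ th q (j + 1) / (th q j - th q (j + 1)) := div_nonneg h3 (by linarith)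
    have h6 : 0 ≤ th q (j + 1) / z.σ := div_nonneg h3 hσ
    have h7 : 0 ≤ th q j / σm := div_nonneg h4 hσm
    positivity
  · exact le_rfl

theorem RDs_nn (h : L.Chk T Z) (f : ℕ) {j : ℕ} (hj : 1 ≤ j) :
    0 ≤ RDs (D41 T L.ar lamR mJ0 Sp) f j := by
  unfold RDs
  apply List.sum_nonneg
  intro x hx
  rw [List.mem_map] at hx
  obtain ⟨k, hk, rfl⟩ := hx
  have hD := LTab.std h mJ0 Sp
  have hth : ∀ n : ℕ, 0 ≤ th 2048 n := by
    intro n
    unfold th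
    positivity
  unfold TD.wR at hk
  rw [List.mem_range'_1, std_fl hD] at hk
  have h8 := fl8 f
  rw [std_q hD]
  refine Src.D_nn (by norm_num) hj ?_ (hth _) (hth _) ?_
  · exact mul_nonneg (ar0 L _) (om_nonneg (by norm_num) (by omega))
  · unfold TD.σm
    rw [std_q hD]
    exact hth _

theorem GDs_nn (h : L.Chk T Z) (f : ℕ) {j : ℕ} (hj : 1 ≤ j) :
    0 ≤ GDs (D41 T L.ar lamR mJ0 Sp) f j := by
  unfold GDs
  apply List.sum_nonneg
  intro x hx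
  rw [List.mem_map] at hx
  obtain ⟨k, hk, rfl⟩ := hx
  have hD := LTab.std h mJ0 Sp
  have hth : ∀ n : ℕ, 0 ≤ th 2048 n := by
    intro n
    unfold th
    positivity
  rw [std_q hD, hD.MG]
  refine Src.D_nn (by norm_num) hj ?_ (hth _) (hth _) ?_
  · exact mul_nonneg (lamR0 _) (mul_nonneg (hth _) (Nat.cast_nonneg _))
  · unfold TD.σm
    rw [std_q hD]
    exact hth _

/-- what `okH` says -/
structure HOk (L : LTab) (T : OTab) (g : ℕ) : Prop where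
  f0g : L.f0 g ≤ g
  f0 : L.f0 g = 0 ∨ (fT (L.f0 g) ^ 4 ≤ 12 * (fT g - 20) ^ 3 ∧
    T.mt (min (L.f0 g - 1) T.GO) ≤ g)
  fb1 : 1 ≤ L.fb g
  fbg : L.fb g ≤ g
  fb : L.fb g = g ∨ 108 * (fT (g + 1) - 20) ^ 3 ≤ (fT (L.fb g) - 20) ^ 4
  gb1 : 1 ≤ L.gb g
  gbg : L.gb g ≤ g
  gb : L.gb g = g ∨ 204 * (fT (g + 1) - 20) ^ 3 ≤ (fT (L.gb g) - 36) ^ 4
  gm1 : 1 ≤ L.gm g
  gmg : L.gm g ≤ g
  gm : L.gm g = 1 ∨ fT (L.gm g) ^ 4 ≤ 12 * (fT g - 20) ^ 3
  Y8 : 8192 ≤ L.Y g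
  Y : L.Y g = 8192 ∨ L.Y g ^ 4 ≤ 12 * (fT g - 20) ^ 3
  lam : ∀ f, L.gm g ≤ f → f < L.gb g → lamT f ≤ L.gL g

theorem beq_or {a b : ℕ} {c : Bool} {P : Prop} (h : (Nat.beq a b || c) = true)
    (hc : c = true → P) : a = b ∨ P := by
  rw [Bool.or_eq_true] at h
  rcases h with h | h
  · exact Or.inl (Nat.eq_of_beq_eq_true h)
  · exact Or.inr (hc h)

theorem okH_spec {g : ℕ} (h : L.okH T g = true) : HOk L T g := by
  unfold LTab.okH LTab.okH' at h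
  simp only [Bool.and_eq_true] at h
  obtain ⟨⟨⟨⟨⟨⟨⟨⟨⟨⟨⟨⟨⟨⟨h1, h2⟩, h3⟩, h4⟩, h5⟩, h6⟩, h7⟩, h8⟩, h9⟩, h9'⟩, h10⟩, h11⟩, h12⟩,
    h13⟩, h14⟩ := h
  refine ⟨Nat.le_of_ble_eq_true h1, beq_or h2 ?_, Nat.le_of_ble_eq_true h3,
    Nat.le_of_ble_eq_true h4, beq_or h5 (fun h => Nat.le_of_ble_eq_true h),
    Nat.le_of_ble_eq_true h6, Nat.le_of_ble_eq_true h7,
    beq_or h8 (fun h => Nat.le_of_ble_eq_true h), Nat.le_of_ble_eq_true h9,
    Nat.le_of_ble_eq_true h9', beq_or h10 (fun h => Nat.le_of_ble_eq_true h), Nat.le_of_ble_eq_true h12,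
    beq_or h13 (fun h => Nat.le_of_ble_eq_true h), ?_⟩
  · intro h
    rw [Bool.and_eq_true] at h
    exact ⟨Nat.le_of_ble_eq_true h.1, Nat.le_of_ble_eq_true h.2⟩
  · intro f hf1 hf2
    have h11' := Nat.le_of_ble_eq_true h11
    have := allF_spec _ _ _ _ (by omega) h14 f hf1 (by omega)
    exact Nat.le_of_ble_eq_true this

theorem RBs_none (h : L.Chk T Z) {f j : ℕ} (hf : 1 ≤ f) (hj1 : 1 ≤ j)
    (hj : 108 * ((j : ℝ) + 1) ^ 3 ≤ ((fl 8192 f : ℝ) - 20) ^ 4) :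
    RBs (D41 T L.ar lamR mJ0 Sp) f j ≤ 0 := by
  have h1 := BR_none (LTab.std h mJ0 Sp) hf hj
  rw [List.sum_map_add] at h1
  have h2 := RDs_nn (mJ0 := mJ0) (Sp := Sp) h f hj1
  unfold RDs at h2
  unfold RBs
  linarith

theorem GBs_none (h : L.Chk T Z) {f j : ℕ} (hf : 1 ≤ f) (hj1 : 1 ≤ j)
    (hj : 204 * ((j : ℝ) + 1) ^ 3 ≤ ((fl 8192 f : ℝ) - 36) ^ 4) :
    GBs (D41 T L.ar lamR mJ0 Sp) f j ≤ 0 := by
  have h1 := KG_none (LTab.std h mJ0 Sp) hf hj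
  rw [List.sum_map_add] at h1
  have h2 := GDs_nn (mJ0 := mJ0) (Sp := Sp) h f hj1
  unfold GDs at h2
  unfold GBs
  linarith

theorem RBs_led (h : L.Chk T Z) {g j : ℕ} (hg : 1 ≤ g) (hg' : g < G1)
    (hj : fl 8192 g - 20 ≤ j) (hj' : j < fl 8192 (g + 1) - 20) :
    ∑ f ∈ Finset.Ico 1 g, RBs (D41 T L.ar lamR mJ0 Sp) f j ≤ (L.br (L.fb g) : ℝ) / 2 ^ 40 := by
  have hh := okH_spec (h.h g hg hg')
  have h8 := fl8 g
  rw [← Finset.sum_Ico_consecutive _ hh.fb1 hh.fbg]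
  have h1 := RBs_le (mJ0 := mJ0) (Sp := Sp) h hh.fb1 (hh.fbg.trans hg'.le) j
  have h2 : ∑ f ∈ Finset.Ico (L.fb g) g, RBs (D41 T L.ar lamR mJ0 Sp) f j ≤ 0 := by
    apply Finset.sum_nonpos
    intro f hf
    rw [Finset.mem_Ico] at hf
    apply RBs_none h (hh.fb1.trans hf.1) (by omega)
    rcases hh.fb with h3 | h3
    · omega
    · unfold G1 at hg'
      rw [fT_eq _ (by omega), fT_eq _ (by omega)] at h3
      have h4 : 108 * (j + 1) ^ 3 ≤ (fl 8192 f - 20) ^ 4 := by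
        have h5 : (j + 1) ^ 3 ≤ (fl 8192 (g + 1) - 20) ^ 3 := Nat.pow_le_pow_left (by omega) 3
        have h6 : (fl 8192 (L.fb g) - 20) ^ 4 ≤ (fl 8192 f - 20) ^ 4 :=
          Nat.pow_le_pow_left (Nat.sub_le_sub_right (fl_mono hf.1) 20) 4
        omega
      have h7 := fl8 f
      have e20 : ((fl 8192 f - 20 : ℕ) : ℝ) = (fl 8192 f : ℝ) - 20 := by
        rw [Nat.cast_sub (by omega)]; norm_num
      rw [← e20]
      exact_mod_cast h4
  linarith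

theorem GBs_led (h : L.Chk T Z) {g j : ℕ} (hg : 1 ≤ g) (hg' : g < G1)
    (hj : fl 8192 g - 20 ≤ j) (hj' : j < fl 8192 (g + 1) - 20) :
    ∑ f ∈ Finset.Ico 1 g, GBs (D41 T L.ar lamR mJ0 Sp) f j ≤ (L.bg (L.gb g) : ℝ) / 2 ^ 40 := by
  have hh := okH_spec (h.h g hg hg')
  have h8 := fl8 g
  rw [← Finset.sum_Ico_consecutive _ hh.gb1 hh.gbg]
  have h1 := GBs_le (mJ0 := mJ0) (Sp := Sp) h hh.gb1 (hh.gbg.trans hg'.le) j
  have h2 : ∑ f ∈ Finset.Ico (L.gb g) g, GBs (D41 T L.ar lamR mJ0 Sp) f j ≤ 0 := by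
    apply Finset.sum_nonpos
    intro f hf
    rw [Finset.mem_Ico] at hf
    apply GBs_none h (hh.gb1.trans hf.1) (by omega)
    rcases hh.gb with h3 | h3
    · omega
    · unfold G1 at hg'
      rw [fT_eq _ (by omega), fT_eq _ (by omega)] at h3
      have h4 : 204 * (j + 1) ^ 3 ≤ (fl 8192 f - 36) ^ 4 := by
        have h5 : (j + 1) ^ 3 ≤ (fl 8192 (g + 1) - 20) ^ 3 := Nat.pow_le_pow_left (by omega) 3
        have h6 : (fl 8192 (L.gb g) - 36) ^ 4 ≤ (fl 8192 f - 36) ^ 4 :=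
          Nat.pow_le_pow_left (Nat.sub_le_sub_right (fl_mono hf.1) 36) 4
        omega
      have h7 := fl8 f
      have e20 : ((fl 8192 f - 36 : ℕ) : ℝ) = (fl 8192 f : ℝ) - 36 := by
        rw [Nat.cast_sub (by omega)]; norm_num
      rw [← e20]
      exact_mod_cast h4
  linarith

/-- children of class R -/
theorem RDs_led (h : L.Chk T Z) {g j : ℕ} (hg : 1 ≤ g) (hg' : g < G1)
    (hj : fl 8192 g - 20 ≤ j) (hj' : j < fl 8192 (g + 1) - 20) :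
    ∑ f ∈ Finset.Ico 1 g, RDs (D41 T L.ar lamR mJ0 Sp) f j ≤ (L.r g : ℝ) / 2 ^ 20 := by
  have h0 : L.a 0 = 0 := by
    have h3 := h.e
    unfold LTab.okE at h3
    simp only [Bool.and_eq_true] at h3
    obtain ⟨⟨⟨⟨⟨⟨⟨⟨⟨⟨h1, h2⟩, h3⟩, h4⟩, h5⟩, h6⟩, h6'⟩, h7⟩, h8⟩, h9⟩, h10⟩ := h3
    exact Nat.eq_of_beq_eq_true h1
  unfold G1 at hg'
  exact R_zone (LTab.std h mJ0 Sp) hg (fun f hf => fT_eq f (by omega)) h0
    (fun f _ _ => le_rfl) (h.r g hg (by unfold G1; omega)) hj hj'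

/-- children of class G -/
theorem GDs_led (h : L.Chk T Z) {g j : ℕ} (hg : 1 ≤ g) (hg' : g < G1)
    (hj : fl 8192 g - 20 ≤ j) (hj' : j < fl 8192 (g + 1) - 20) :
    ∑ f ∈ Finset.Ico 1 g, GDs (D41 T L.ar lamR mJ0 Sp) f j ≤
      (LTab.tG (L.gL g) (L.Y g) (fT (g + 1) - 21) : ℝ) / 2 ^ 40 := by
  have hh := okH_spec (h.h g hg hg')
  have h8 := fl8 g
  have h8' := fl8 (g + 1)
  unfold G1 at hg'
  have hj3 : (fl 8192 g - 20) ^ 3 ≤ j ^ 3 := Nat.pow_le_pow_left hj 3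
  have hY8 := hh.Y8
  have hY0 : (8192 : ℝ) ≤ (L.Y g : ℝ) := by exact_mod_cast hY8
  have hYp : (0 : ℝ) < (L.Y g : ℝ) := by linarith
  have h1 := KG_sum' (LTab.std h mJ0 Sp) hg hj (Y := (L.Y g : ℝ)) (L := (L.gL g : ℝ) / 2 ^ 20)
    hY0 (by
      rcases hh.Y with h3 | h3
      · right; rw [h3]; norm_num
      · left
        rw [fT_eq _ (by omega)] at h3
        have h4 : L.Y g ^ 4 ≤ 12 * j ^ 3 := by omega
        exact_mod_cast h4) (by positivity) (by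
      intro f hf1 hf2 hf3 hf4
      have g1 : L.gm g ≤ f := by
        rcases hh.gm with h3 | h3
        · omega
        · by_contra hc
          rw [not_le] at hc
          have h4 : fl 8192 (f + 1) ≤ fl 8192 (L.gm g) := fl_mono hc
          have h5 : 12 * j ^ 3 < (fl 8192 (f + 1)) ^ 4 := by exact_mod_cast hf3
          have hgm : L.gm g ≤ 567 := by
            have := hh.gmg
            omega
          rw [fT_eq _ hgm, fT_eq _ (by omega)] at h3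
          have h6 : fl 8192 (f + 1) ^ 4 ≤ fl 8192 (L.gm g) ^ 4 := Nat.pow_le_pow_left h4 4
          omega
      have g2 : f < L.gb g := by
        rcases hh.gb with h3 | h3
        · omega
        · by_contra hc
          rw [not_lt] at hc
          have h9 := hh.gbg
          rw [fT_eq _ (by omega), fT_eq _ (by omega)] at h3
          have h5 : (j + 1) ^ 3 ≤ (fl 8192 (g + 1) - 20) ^ 3 := Nat.pow_le_pow_left (by omega) 3
          have h6 : (fl 8192 (L.gb g) - 36) ^ 4 ≤ (fl 8192 f - 36) ^ 4 :=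
            Nat.pow_le_pow_left (Nat.sub_le_sub_right (fl_mono hc) 36) 4
          have h7 := fl8 f
          have e20 : ((fl 8192 f - 36 : ℕ) : ℝ) = (fl 8192 f : ℝ) - 36 := by
            rw [Nat.cast_sub (by omega)]; norm_num
          rw [← e20] at hf4
          have h10 : (fl 8192 f - 36) ^ 4 < 204 * (j + 1) ^ 3 := by exact_mod_cast hf4
          omega
      have h5 := hh.lam f g1 g2
      have h6 : (lamT f : ℝ) ≤ L.gL g := by exact_mod_cast h5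
      unfold lamR
      exact div_le_div_of_nonneg_right h6 (by norm_num))
  refine h1.trans ?_
  rw [fT_eq _ (by omega)]
  have hjr : (j : ℝ) ≤ ((fl 8192 (g + 1) - 21 : ℕ) : ℝ) := by
    have : j ≤ fl 8192 (g + 1) - 21 := by omega
    exact_mod_cast this
  have h2 := div_le_floor1 (L.gL g * ((L.Y g + 560) * 2880 * L.Y g +
    22528 * (fl 8192 (g + 1) - 21)) * 2 ^ 20) (1920 * L.Y g ^ 2)
    (by have : 0 < L.Y g := by omega
        positivity)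
  rw [le_div_iff₀ (by positivity)]
  unfold LTab.tG
  push_cast at h2 ⊢
  refine le_trans ?_ h2
  have h3 : (L.gL g : ℝ) / 2 ^ 20 * ((1 + 560 / (L.Y g : ℝ)) * (3 / 2) +
      11 / 10 * 2048 * (j : ℝ) / (L.Y g : ℝ) ^ 2 / 192) * 2 ^ 40 ≤
      (L.gL g : ℝ) / 2 ^ 20 * ((1 + 560 / (L.Y g : ℝ)) * (3 / 2) +
      11 / 10 * 2048 * ((fl 8192 (g + 1) - 21 : ℕ) : ℝ) / (L.Y g : ℝ) ^ 2 / 192) * 2 ^ 40 := by
    gcongr
  refine h3.trans (le_of_eq ?_)
  field_simp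
  ring

/-- class O -/
theorem Os_led (hT : T.Chk Z) {g j : ℕ} (hg : 1 ≤ g) (hg' : g < G1)
    (hj : fl 8192 g - 20 ≤ j) (hj' : j < fl 8192 (g + 1) - 20) :
    ∑ f ∈ Finset.range g, ODs (D41 T L.ar lamR mJ0 Sp) f j +
      ∑ f ∈ Finset.range g, OBs (D41 T L.ar lamR mJ0 Sp) f j ≤
      (LTab.tO (T.zV Z g) (T.zU Z g) (T.zB Z g) (fT g) (fT (g + 1)) : ℝ) / 2 ^ 40 := by
  have h1 := O_D (a := L.ar) (lam := lamR) (mJ0 := mJ0) (Sp := Sp) hT hg hj hj'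
  have h2 := O_B (a := L.ar) (lam := lamR) (mJ0 := mJ0) (Sp := Sp) hT hg hj hj'
  have h8 := fl8 g
  have h8' := fl8 (g + 1)
  unfold G1 at hg'
  rw [fT_eq _ (by omega), fT_eq _ (by omega)]
  have e19 : ((fl 8192 g - 19 : ℕ) : ℝ) = (fl 8192 g : ℝ) - 19 := by
    rw [Nat.cast_sub (by omega)]; norm_num
  have e21 : ((fl 8192 (g + 1) - 21 : ℕ) : ℝ) = (fl 8192 (g + 1) : ℝ) - 21 := by
    rw [Nat.cast_sub (by omega)]; norm_num
  have d1 := div_le_floor1 (T.zV Z g * 2048 * 2 ^ 40) ((fl 8192 g - 19) ^ 3)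
    (by have : 0 < fl 8192 g - 19 := by omega
        positivity)
  have d2 := div_le_floor1 (T.zU Z g * (fl 8192 (g + 1) - 21)) (3 * 2 ^ 24) (by norm_num)
  have d3 := div_le_floor1 (5 * T.zB Z g) (2 ^ 24) (by norm_num)
  have hp : (0 : ℝ) < (fl 8192 g : ℝ) - 19 := by
    have : (8192 : ℝ) ≤ fl 8192 g := by exact_mod_cast h8
    linarith
  push_cast [e19, e21] at d1 d2 d3
  rw [le_div_iff₀ (by positivity)]
  unfold LTab.tO
  push_cast
  unfold ODs OBs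
  unfold chC at h2
  have e1 : (T.zV Z g : ℝ) * (2048 / ((fl 8192 g : ℝ) - 19) ^ 3) * 2 ^ 40 =
      (T.zV Z g : ℝ) * 2048 * 2 ^ 40 / ((fl 8192 g : ℝ) - 19) ^ 3 := by ring
  have e2 : (T.zU Z g : ℝ) / 2 ^ 64 * (((fl 8192 (g + 1) : ℝ) - 21) / 3) * 2 ^ 40 =
      (T.zU Z g : ℝ) * ((fl 8192 (g + 1) : ℝ) - 21) / (3 * 2 ^ 24) := by ring
  have e3 : 5 * ((T.zB Z g : ℝ) / 2 ^ 64) * 2 ^ 40 = 5 * (T.zB Z g : ℝ) / 2 ^ 24 := by ring
  have h3 := mul_le_mul_of_nonneg_right h1 (by positivity : (0 : ℝ) ≤ 2 ^ 40)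
  have h4 := mul_le_mul_of_nonneg_right h2 (by positivity : (0 : ℝ) ≤ 2 ^ 40)
  rw [add_mul, e1, e2] at h3
  rw [e3] at h4
  linarith

/-- rounding errors -/
theorem KEE_led (h : L.Chk T Z) (hT : T.Chk Z) {g j : ℕ} (hg : 1 ≤ g) (hg' : g < G1)
    (hj : fl 8192 g - 20 ≤ j) (hj' : j < fl 8192 (g + 1) - 20) :
    ∑ f ∈ Finset.range g, (D41 T L.ar lamR mJ0 Sp).KEE f j ≤
      (LTab.tK (fT (g + 1) - 21) (fT (L.f0 g)) : ℝ) / 2 ^ 40 := by
  have hh := okH_spec (h.h g hg hg')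
  have h8 := fl8 g
  have h8' := fl8 (g + 1)
  have h80 := fl8 (L.f0 g)
  have hf0g := hh.f0g
  unfold G1 at hg'
  have hj3 : (fl 8192 g - 20) ^ 3 ≤ j ^ 3 := Nat.pow_le_pow_left hj 3
  have h1 := KEE_sum (LTab.std h mJ0 Sp) hg hj (f0 := L.f0 g) hh.f0g (by
      rcases hh.f0 with h3 | ⟨h3, -⟩
      · exact Or.inl h3
      · right
        rw [fT_eq _ (by omega), fT_eq _ (by omega)] at h3
        have h4 : fl 8192 (L.f0 g) ^ 4 ≤ 12 * j ^ 3 := by omega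
        exact_mod_cast h4)
    (O_gap hT hj (hh.f0.imp id (fun h => h.2)))
  refine h1.trans ?_
  rw [fT_eq _ (by omega), fT_eq _ (by omega)]
  have d1 := div_le_floor1 (56 * (fl 8192 (g + 1) - 21 + 1) * 2048 * 2 ^ 40)
    (fl 8192 (L.f0 g) ^ 3) (by have : 0 < fl 8192 (L.f0 g) := by omega
                               positivity)
  have hjr : (j : ℝ) ≤ ((fl 8192 (g + 1) - 21 : ℕ) : ℝ) := by
    have : j ≤ fl 8192 (g + 1) - 21 := by omega
    exact_mod_cast this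
  have hp : (0 : ℝ) < (fl 8192 (L.f0 g) : ℝ) := by
    have : (8192 : ℝ) ≤ fl 8192 (L.f0 g) := by exact_mod_cast h80
    linarith
  rw [le_div_iff₀ (by positivity)]
  unfold LTab.tK
  push_cast at d1 ⊢
  refine le_trans ?_ d1
  unfold th
  have h3 : 56 * ((j : ℝ) + 1) * (2048 / (fl 8192 (L.f0 g) : ℝ) ^ 3) * 2 ^ 40 ≤
      56 * (((fl 8192 (g + 1) - 21 : ℕ) : ℝ) + 1) * (2048 / (fl 8192 (L.f0 g) : ℝ) ^ 3) * 2 ^ 40 := by
    gcongr
  refine h3.trans (le_of_eq ?_)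
  ring

/-- **the ledger inequality for the frames of the table** -/
theorem led1 (h : L.Chk T Z) (hT : T.Chk Z) (hP : 5 * Sp + 6 * mJ0 ≤ (L.P0 : ℝ) / 2 ^ 40)
    {g j : ℕ} (hg : 1 ≤ g) (hg' : g < G1)
    (hj : fl 8192 g - 20 ≤ j) (hj' : j < fl 8192 (g + 1) - 20) :
    (D41 T L.ar lamR mJ0 Sp).Phi0 + ∑ f ∈ Finset.range g, (D41 T L.ar lamR mJ0 Sp).inc f j ≤
      L.ar g := by
  rw [inc_split _ hg]
  have h1 := RDs_led (mJ0 := mJ0) (Sp := Sp) h hg hg' hj hj'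
  have h2 := RBs_led (mJ0 := mJ0) (Sp := Sp) h hg hg' hj hj'
  have h3 := GDs_led (mJ0 := mJ0) (Sp := Sp) h hg hg' hj hj'
  have h4 := GBs_led (mJ0 := mJ0) (Sp := Sp) h hg hg' hj hj'
  have h5 := Os_led (L := L) (mJ0 := mJ0) (Sp := Sp) hT hg hg' hj hj'
  have h6 := KEE_led (mJ0 := mJ0) (Sp := Sp) h hT hg hg' hj hj'
  have h7 : ∑ f ∈ Finset.range g, Es (D41 T L.ar lamR mJ0 Sp) f ≤ 95 / 10000 :=
    E_sum (LTab.std h mJ0 Sp) g
  have h8 : ∑ f ∈ Finset.range g, (D41 T L.ar lamR mJ0 Sp).FAT f ≤ (fatT g : ℝ) / 2 ^ 20 :=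
    F41_FAT g
  have h9 := Nat.le_of_ble_eq_true (h.l g hg hg')
  have h10 : ((L.tC + L.r g * 2 ^ 20 + L.br (L.fb g) + L.bg (L.gb g) +
    LTab.tG (L.gL g) (L.Y g) (fT (g + 1) - 21) +
    LTab.tO (T.zV Z g) (T.zU Z g) (T.zB Z g) (fT g) (fT (g + 1)) +
    LTab.tK (fT (g + 1) - 21) (fT (L.f0 g)) + fatT g * 2 ^ 20 : ℕ) : ℝ) ≤
      ((L.a g * 2 ^ 20 : ℕ) : ℝ) := by exact_mod_cast h9
  have h11 : (L.P0 : ℝ) + 95 / 10000 * 2 ^ 40 ≤ (L.tC : ℝ) := by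
    unfold LTab.tC
    push_cast
    norm_num
    linarith
  have h12 : (D41 T L.ar lamR mJ0 Sp).Phi0 ≤ (L.P0 : ℝ) / 2 ^ 40 := by
    change chC * Sp + 6 * mJ0 ≤ _
    unfold chC
    linarith
  push_cast at h10
  have h13 : (L.a g : ℝ) / 2 ^ 20 = L.ar g := rfl
  rw [← h13]
  linarith

/-! ## the tail -/

/-- what `okE` says -/
structure EOk (L : LTab) (T : OTab) (Z : ℕ) : Prop where
  a0 : L.a 0 = 0
  lo0 : T.lo 0 + L.JJ ≤ 629145
  aE : L.aE ≤ 2 ^ 20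
  aL : L.aE ≤ L.aL
  lL : lamT G1 ≤ L.lL
  fL : L.fL ≤ G1
  mt : T.mt T.GO ≤ G1
  fL4 : fT L.fL ^ 4 ≤ 12 * (fT G1 - 20) ^ 3
  al : ∀ f, L.fL ≤ f → f < G1 → L.a f ≤ L.aL ∧ lamT f ≤ L.lL
  led : L.tC + (798 * L.aL * 2 ^ 20 / 1000 + 1) + (151 * L.lL * 2 ^ 20 / 100 + 1) +
    L.br G1 + L.bg G1 + (5 * T.zB Z G1 / 2 ^ 24 + 1) + fatT G1 * 2 ^ 20 + 2 ^ 24 ≤
    L.aE * 2 ^ 20
  cap : L.aE + lamT G1 + L.JJ + 2 ≤ 943718

theorem okE_spec (h : L.okE T Z = true) : EOk L T Z := by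
  unfold LTab.okE at h
  simp only [Bool.and_eq_true] at h
  obtain ⟨⟨⟨⟨⟨⟨⟨⟨⟨⟨h1, h2⟩, h3⟩, h4⟩, h5⟩, h6⟩, h6'⟩, h7⟩, h8⟩, h9⟩, h10⟩ := h
  refine ⟨Nat.eq_of_beq_eq_true h1, Nat.le_of_ble_eq_true h2, Nat.le_of_ble_eq_true h3,
    Nat.le_of_ble_eq_true h4, Nat.le_of_ble_eq_true h5, Nat.le_of_ble_eq_true h6,
    Nat.le_of_ble_eq_true h6', Nat.le_of_ble_eq_true h7, ?_, Nat.le_of_ble_eq_true h9,
    Nat.le_of_ble_eq_true h10⟩
  intro f hf1 hf2
  have := allF_spec _ _ _ _ (by unfold G1; omega) h8 f hf1 (by omega)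
  rw [Bool.and_eq_true] at this
  exact ⟨Nat.le_of_ble_eq_true this.1, Nat.le_of_ble_eq_true this.2⟩

theorem flG1 : 2 ^ 38 ≤ fl 8192 G1 := by
  rw [← fT_eq G1 (by unfold G1; norm_num)]
  decide +kernel

theorem fl_step256 (g : ℕ) : fl 8192 g + 256 ≤ fl 8192 (g + 1) := by
  have := fl8 g
  change _ ≤ fl 8192 g + 32 * (fl 8192 g / 1024)
  omega

theorem a_tail {g : ℕ} (hg : G1 ≤ g) : L.a g = L.aE := by
  unfold LTab.a
  have : Nat.blt g G1 = false := by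
    rw [← Bool.not_eq_true]
    intro h
    have := Nat.le_of_ble_eq_true h
    omega
  rw [this]
  rfl

theorem lamT_tail {g : ℕ} (hg : G1 ≤ g) : lamT g = lamT G1 := by
  unfold lamT
  rw [min_eq_right hg, min_self]

theorem fatT_tail {g : ℕ} (hg : G1 ≤ g) : fatT g = fatT G1 := by
  unfold fatT
  rw [min_eq_right hg, min_self]

/-- frames which reach the tail -/
theorem reach_tail (h : EOk L T Z) {g f j : ℕ} (hg : G1 ≤ g) (hj : fl 8192 g - 20 ≤ j)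
    (hf : 12 * (j : ℝ) ^ 3 < (fl 8192 (f + 1) : ℝ) ^ 4) :
    L.a f ≤ L.aL ∧ lamT f ≤ L.lL := by
  have h1 : L.fL ≤ f := by
    by_contra hc
    rw [not_le] at hc
    have h4 : fl 8192 (f + 1) ≤ fl 8192 L.fL := fl_mono hc
    have h5 : 12 * j ^ 3 < (fl 8192 (f + 1)) ^ 4 := by exact_mod_cast hf
    have h3 := h.fL4
    have hfL := h.fL
    rw [fT_eq _ (by unfold G1 at *; omega), fT_eq G1 (by unfold G1; omega)] at h3
    have h6 : fl 8192 (f + 1) ^ 4 ≤ fl 8192 L.fL ^ 4 := Nat.pow_le_pow_left h4 4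
    have h7 : fl 8192 G1 ≤ fl 8192 g := fl_mono hg
    have h8 : (fl 8192 G1 - 20) ^ 3 ≤ j ^ 3 := Nat.pow_le_pow_left (by omega) 3
    omega
  by_cases h2 : f < G1
  · exact h.al f h1 h2
  · rw [not_lt] at h2
    rw [a_tail h2, lamT_tail h2]
    exact ⟨h.aL, h.lL⟩

theorem tele {F : ℕ → ℝ} {a b : ℕ} (hab : a ≤ b) :
    ∑ f ∈ Finset.Ico a b, (F f - F (f + 1)) = F a - F b := by
  induction b, hab using Nat.le_induction with
  | base => simp
  | succ n hn ih =>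
    rw [Finset.sum_Ico_succ_top hn, ih]
    ring

theorem RBs_tail (h : L.Chk T Z) {g : ℕ} (hg : G1 ≤ g) (j : ℕ) :
    ∑ f ∈ Finset.Ico 1 g, RBs (D41 T L.ar lamR mJ0 Sp) f j ≤
      (L.br G1 : ℝ) / 2 ^ 40 + 1 / 10 ^ 7 := by
  rw [← Finset.sum_Ico_consecutive _ (by unfold G1; norm_num : 1 ≤ G1) hg]
  have h1 := RBs_le (mJ0 := mJ0) (Sp := Sp) h (by unfold G1; norm_num : 1 ≤ G1) le_rfl j
  have h2 : ∀ f ∈ Finset.Ico G1 g, RBs (D41 T L.ar lamR mJ0 Sp) f j ≤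
      926 * (1 / ((fl 8192 f : ℝ) - 36)) - 926 * (1 / ((fl 8192 (f + 1) : ℝ) - 36)) := by
    intro f hf
    rw [Finset.mem_Ico] at hf
    have g1 : 1 ≤ f := by unfold G1 at hf; omega
    refine (BR_frame (LTab.std h mJ0 Sp) g1).trans ?_
    have h3 : fl 8192 G1 ≤ fl 8192 f := fl_mono hf.1
    have h4 := flG1
    have h5 : (2 : ℝ) ^ 38 ≤ (fl 8192 f : ℝ) := by exact_mod_cast h4.trans h3
    have h6 : (fl 8192 f : ℝ) ≤ (fl 8192 (f + 1) : ℝ) := by exact_mod_cast fl_mono (Nat.le_succ f)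
    have h7 : 0 ≤ 1 / ((fl 8192 f : ℝ) - 36) - 1 / ((fl 8192 (f + 1) : ℝ) - 36) := by
      rw [sub_nonneg]
      apply one_div_le_one_div_of_le (by linarith) (by linarith)
    have h8 : 130 / ((fl 8192 f : ℝ) - 20) ≤ 1 / 1000 := by
      rw [div_le_iff₀ (by linarith)]
      linarith
    have h9 := ar0 L f
    have h10 := ar1 h f
    have h11 : 0 ≤ 130 / ((fl 8192 f : ℝ) - 20) := div_nonneg (by norm_num) (by linarith)
    have h12 : L.ar f * (369 / 2 * (1 + 130 / ((fl 8192 f : ℝ) - 20))) ≤ 1 * 185 := by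
      apply mul_le_mul h10 (by linarith) (by linarith) (by norm_num)
    have h13 : chC * (L.ar f * (369 / 2 * (1 + 130 / ((fl 8192 f : ℝ) - 20))) + 1 / 5) ≤ 926 := by
      unfold chC
      linarith
    have h14 := mul_le_mul_of_nonneg_right h13 h7
    linarith
  have h3 := Finset.sum_le_sum h2
  rw [tele (F := fun f => 926 * (1 / ((fl 8192 f : ℝ) - 36))) hg] at h3
  have h4 := flG1
  have h5 : (2 : ℝ) ^ 38 ≤ (fl 8192 G1 : ℝ) := by exact_mod_cast h4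
  have h6 : (fl 8192 G1 : ℝ) ≤ (fl 8192 g : ℝ) := by exact_mod_cast fl_mono hg
  have h7 : 0 ≤ 926 * (1 / ((fl 8192 g : ℝ) - 36)) := by
    have : 0 < (fl 8192 g : ℝ) - 36 := by linarith
    exact mul_nonneg (by norm_num) (one_div_pos.mpr this).le
  have h8 : 926 * (1 / ((fl 8192 G1 : ℝ) - 36)) ≤ 1 / 10 ^ 7 := by
    rw [mul_one_div, div_le_iff₀ (by linarith)]
    linarith
  linarith

theorem GBs_tail (h : L.Chk T Z) {g : ℕ} (hg : G1 ≤ g) (j : ℕ) :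
    ∑ f ∈ Finset.Ico 1 g, GBs (D41 T L.ar lamR mJ0 Sp) f j ≤
      (L.bg G1 : ℝ) / 2 ^ 40 + 1 / 10 ^ 7 := by
  rw [← Finset.sum_Ico_consecutive _ (by unfold G1; norm_num : 1 ≤ G1) hg]
  have h1 := GBs_le (mJ0 := mJ0) (Sp := Sp) h (by unfold G1; norm_num : 1 ≤ G1) le_rfl j
  have h2 : ∀ f ∈ Finset.Ico G1 g, GBs (D41 T L.ar lamR mJ0 Sp) f j ≤
      2346 * (1 / (fl 8192 f : ℝ)) - 2346 * (1 / (fl 8192 (f + 1) : ℝ)) := by
    intro f hf
    rw [Finset.mem_Ico] at hf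
    have g1 : 1 ≤ f := by unfold G1 at hf; omega
    refine (BG_frame (LTab.std h mJ0 Sp) g1).trans ?_
    have h3 : fl 8192 G1 ≤ fl 8192 f := fl_mono hf.1
    have h4 := flG1
    have h5 : (2 : ℝ) ^ 38 ≤ (fl 8192 f : ℝ) := by exact_mod_cast h4.trans h3
    have h6 : (fl 8192 f : ℝ) ≤ (fl 8192 (f + 1) : ℝ) := by exact_mod_cast fl_mono (Nat.le_succ f)
    have h7 : 0 ≤ 1 / (fl 8192 f : ℝ) - 1 / (fl 8192 (f + 1) : ℝ) := by
      rw [sub_nonneg]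
      apply one_div_le_one_div_of_le (by linarith) (by linarith)
    have h8 : 400 / (fl 8192 f : ℝ) ≤ 1 / 1000 := by
      rw [div_le_iff₀ (by linarith)]
      linarith
    have h9 := lamR0 f
    have h10 := lamR1 f
    have h11 : 0 ≤ 400 / (fl 8192 f : ℝ) := div_nonneg (by norm_num) (by linarith)
    have h12 : lamR f * (468 * (1 + 400 / (fl 8192 f : ℝ))) ≤ 1 * 469 := by
      apply mul_le_mul h10 (by linarith) (by linarith) (by norm_num)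
    have h13 : chC * (lamR f * (468 * (1 + 400 / (fl 8192 f : ℝ))) + 1 / 50) ≤ 2346 := by
      unfold chC
      linarith
    have h14 := mul_le_mul_of_nonneg_right h13 h7
    linarith
  have h3 := Finset.sum_le_sum h2
  rw [tele (F := fun f => 2346 * (1 / (fl 8192 f : ℝ))) hg] at h3
  have h4 := flG1
  have h5 : (2 : ℝ) ^ 38 ≤ (fl 8192 G1 : ℝ) := by exact_mod_cast h4
  have h6 : (fl 8192 G1 : ℝ) ≤ (fl 8192 g : ℝ) := by exact_mod_cast fl_mono hg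
  have h7 : 0 ≤ 2346 * (1 / (fl 8192 g : ℝ)) := by
    have : 0 < (fl 8192 g : ℝ) := by linarith
    exact mul_nonneg (by norm_num) (one_div_pos.mpr this).le
  have h8 : 2346 * (1 / (fl 8192 G1 : ℝ)) ≤ 1 / 10 ^ 7 := by
    rw [mul_one_div, div_le_iff₀ (by linarith)]
    linarith
  linarith

theorem j_tail {g j : ℕ} (hg : G1 ≤ g) (hj : fl 8192 g - 20 ≤ j) : (2 : ℝ) ^ 38 - 20 ≤ (j : ℝ) := by
  have h4 := flG1
  have h5 : fl 8192 G1 ≤ fl 8192 g := fl_mono hg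
  have h6 : 2 ^ 38 ≤ j + 20 := by omega
  have h7 : (2 : ℝ) ^ 38 ≤ (j : ℝ) + 20 := by exact_mod_cast h6
  linarith

theorem GDs_tail (h : L.Chk T Z) {g j : ℕ} (hg : G1 ≤ g) (hj : fl 8192 g - 20 ≤ j) :
    ∑ f ∈ Finset.Ico 1 g, GDs (D41 T L.ar lamR mJ0 Sp) f j ≤
      151 / 100 * ((L.lL : ℝ) / 2 ^ 20) := by
  have he := okE_spec h.e
  have hjr := j_tail hg hj
  obtain ⟨Y, hYd⟩ : ∃ Y : ℝ, Y = Real.sqrt (Real.sqrt (12 * (j : ℝ) ^ 3)) := ⟨_, rfl⟩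
  have hj0 : (0 : ℝ) ≤ 12 * (j : ℝ) ^ 3 := by
    have : (0 : ℝ) ≤ (j : ℝ) := Nat.cast_nonneg _
    exact mul_nonneg (by norm_num) (pow_nonneg this 3)
  have hY2 : Y ^ 2 = Real.sqrt (12 * (j : ℝ) ^ 3) := by
    rw [hYd]; exact Real.sq_sqrt (Real.sqrt_nonneg _)
  have hY4 : Y ^ 4 = 12 * (j : ℝ) ^ 3 := by
    have : Y ^ 4 = (Y ^ 2) ^ 2 := by ring
    rw [this, hY2]; exact Real.sq_sqrt hj0
  have hY0 : 0 ≤ Y := by rw [hYd]; exact Real.sqrt_nonneg _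
  have hj1 : (10 : ℝ) ^ 11 ≤ (j : ℝ) := by linarith
  have hj33 : (10 : ℝ) ^ 33 ≤ (j : ℝ) ^ 3 := by
    calc (10 : ℝ) ^ 33 = ((10 : ℝ) ^ 11) ^ 3 := by norm_num
      _ ≤ _ := pow_le_pow_left₀ (by norm_num) hj1 3
  have hY7 : (10 : ℝ) ^ 7 ≤ Y := by
    by_contra hc
    rw [not_le] at hc
    have h1 : Y ^ 4 < ((10 : ℝ) ^ 7) ^ 4 := pow_lt_pow_left₀ hc hY0 (by norm_num)
    rw [hY4] at h1
    linarith
  have h1 := KG_sum' (LTab.std h mJ0 Sp) (by unfold G1 at hg; omega : 1 ≤ g) hj (Y := Y)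
    (L := (L.lL : ℝ) / 2 ^ 20) (by linarith) (Or.inl hY4.le)
    (div_nonneg (Nat.cast_nonneg _) (by norm_num)) (by
      intro f hf1 hf2 hf3 hf4
      have h6 : (lamT f : ℝ) ≤ L.lL := by exact_mod_cast (reach_tail he hg hj hf3).2
      unfold lamR
      exact div_le_div_of_nonneg_right h6 (by norm_num))
  refine h1.trans ?_
  rw [mul_comm (151 / 100 : ℝ)]
  apply mul_le_mul_of_nonneg_left _ (div_nonneg (Nat.cast_nonneg _) (by norm_num))
  have hYp : 0 < Y := by linarith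
  have h2 : 560 / Y ≤ 1 / 1000 := by
    rw [div_le_iff₀ hYp]
    linarith
  have h3 : (j : ℝ) / Y ^ 2 ≤ 1 / 10 ^ 5 := by
    rw [div_le_iff₀ (by positivity)]
    by_contra hc
    rw [not_le] at hc
    have h4 : (1 / 10 ^ 5 * Y ^ 2) ^ 2 < (j : ℝ) ^ 2 :=
      pow_lt_pow_left₀ hc (by positivity) (by norm_num)
    have h5 : (1 / 10 ^ 5 * Y ^ 2) ^ 2 = 1 / 10 ^ 10 * (12 * (j : ℝ) ^ 3) := by
      rw [← hY4]; ring
    rw [h5] at h4
    have h6 : (0 : ℝ) < (j : ℝ) ^ 2 := by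
      have : (0 : ℝ) < (j : ℝ) := by linarith
      positivity
    have h7 : (j : ℝ) ^ 3 = (j : ℝ) ^ 2 * j := by ring
    rw [h7] at h4
    nlinarith
  have e1 : 11 / 10 * 2048 * (j : ℝ) / Y ^ 2 / 192 = 22528 / 1920 * ((j : ℝ) / Y ^ 2) := by ring
  rw [e1]
  linarith

theorem RDs_tail (h : L.Chk T Z) {g j : ℕ} (hg : G1 ≤ g) (hj : fl 8192 g - 20 ≤ j) :
    ∑ f ∈ Finset.Ico 1 g, RDs (D41 T L.ar lamR mJ0 Sp) f j ≤
      798 / 1000 * ((L.aL : ℝ) / 2 ^ 20) := by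
  have he := okE_spec h.e
  apply R_tail (LTab.std h mJ0 Sp) hg (div_nonneg (Nat.cast_nonneg _) (by norm_num)) _ hj
  intro f hf1 hf2 hf3
  have h6 : (L.a f : ℝ) ≤ L.aL := by exact_mod_cast (reach_tail he hg hj hf3).1
  unfold LTab.ar
  exact div_le_div_of_nonneg_right h6 (by norm_num)

theorem Os_tail (hT : T.Chk Z) {g j : ℕ} (hg : G1 ≤ g)
    (hj : fl 8192 g - 20 ≤ j) (hj' : j < fl 8192 (g + 1) - 20) :
    ∑ f ∈ Finset.range g, ODs (D41 T L.ar lamR mJ0 Sp) f j +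
      ∑ f ∈ Finset.range g, OBs (D41 T L.ar lamR mJ0 Sp) f j ≤
      5 * ((T.zB Z G1 : ℝ) / 2 ^ 64) := by
  have hg1 : 1 ≤ g := by unfold G1 at hg; omega
  have h1 := O_D (a := L.ar) (lam := lamR) (mJ0 := mJ0) (Sp := Sp) hT hg1 hj hj'
  have h2 := O_B (a := L.ar) (lam := lamR) (mJ0 := mJ0) (Sp := Sp) hT hg1 hj hj'
  have hNZ := hT.NZ2
  have hb : Nat.blt g T.NZ = false := by
    rw [← Bool.not_eq_true]
    intro h
    have := Nat.le_of_ble_eq_true h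
    unfold G1 at hg
    omega
  have e1 : T.zV Z g = 0 := by unfold OTab.zV; rw [hb]; rfl
  have e2 : T.zU Z g = 0 := by unfold OTab.zU; rw [hb]; rfl
  have e3 : T.zB Z g = T.zB Z G1 := by
    unfold OTab.zB
    rw [min_eq_right (by unfold G1 at hg; omega), min_eq_right (by unfold G1; omega)]
  rw [e1, e2] at h1
  rw [e3] at h2
  simp only [Nat.cast_zero, zero_mul, zero_div, add_zero] at h1
  unfold ODs OBs
  unfold chC at h2
  linarith

theorem KEE_tail (h : L.Chk T Z) (hT : T.Chk Z) {g j : ℕ} (hg : G1 ≤ g)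
    (hj : fl 8192 g - 20 ≤ j) (hj' : j < fl 8192 (g + 1) - 20) :
    ∑ f ∈ Finset.range g, (D41 T L.ar lamR mJ0 Sp).KEE f j ≤ 1 / 10 ^ 6 := by
  have he := okE_spec h.e
  have hjr := j_tail hg hj
  have hg1 : 1 ≤ g := by unfold G1 at hg; omega
  have hP0 : fl 8192 0 ^ 4 ≤ 12 * j ^ 3 := by
    have h1 : 8192 ≤ j := by
      have : (8192 : ℝ) ≤ j := by linarith
      exact_mod_cast this
    have h2 : 8192 ^ 3 ≤ j ^ 3 := Nat.pow_le_pow_left h1 3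
    have h3 : fl 8192 0 = 8192 := rfl
    have h4 : 8192 * 8192 ^ 3 ≤ 12 * j ^ 3 ∨ j ^ 3 < 2 ^ 60 := by
      by_contra hc
      push Not at hc
      omega
    rw [h3]
    have h5 : 2 ^ 60 ≤ j ^ 3 := by
      have h6 : 2 ^ 20 ≤ j := by
        have : ((2 ^ 20 : ℕ) : ℝ) ≤ j := by push_cast; linarith
        exact_mod_cast this
      calc 2 ^ 60 = (2 ^ 20) ^ 3 := by norm_num
        _ ≤ _ := Nat.pow_le_pow_left h6 3
    omega
  obtain ⟨f0, hf0⟩ : ∃ f0, f0 = Nat.findGreatest (fun f => fl 8192 f ^ 4 ≤ 12 * j ^ 3) g := ⟨_, rfl⟩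
  have hf0g : f0 ≤ g := by rw [hf0]; exact Nat.findGreatest_le _
  have hf0P : fl 8192 f0 ^ 4 ≤ 12 * j ^ 3 := by
    rw [hf0]
    exact Nat.findGreatest_spec (P := fun f => fl 8192 f ^ 4 ≤ 12 * j ^ 3) (Nat.zero_le g) hP0
  have hup : 32 * fl 8192 (g + 1) ≤ 33 * fl 8192 g := fl_upper 8192 g
  have hf0lt : f0 < g := by
    rcases hf0g.lt_or_eq with h1 | h1
    · exact h1
    · exfalso
      rw [h1] at hf0P
      have h2 : 32 * j ≤ 33 * fl 8192 g := by omega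
      have h3 : (32 * j) ^ 3 ≤ (33 * fl 8192 g) ^ 3 := Nat.pow_le_pow_left h2 3
      rw [mul_pow, mul_pow] at h3
      have h4 : fl 8192 g ^ 4 = fl 8192 g * fl 8192 g ^ 3 := by ring
      have h8 := fl8 g
      have h5 : 8192 * fl 8192 g ^ 3 ≤ fl 8192 g * fl 8192 g ^ 3 := Nat.mul_le_mul_right _ h8
      have h6 : 0 < fl 8192 g ^ 3 := by
        apply pow_pos
        omega
      omega
  have hf0N : 12 * j ^ 3 < fl 8192 (f0 + 1) ^ 4 := by
    have h1 : ¬ (fl 8192 (f0 + 1) ^ 4 ≤ 12 * j ^ 3) := by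
      apply Nat.findGreatest_is_greatest (P := fun f => fl 8192 f ^ 4 ≤ 12 * j ^ 3) (n := g)
      · rw [← hf0]; exact Nat.lt_succ_self _
      · exact hf0lt
    omega
  have h1 := KEE_sum (LTab.std h mJ0 Sp) hg1 hj (f0 := f0) hf0g
    (Or.inr (by exact_mod_cast hf0P)) (O_gap hT hj (Or.inr (((hT.mt_mono (min_le_right _ _) le_rfl).trans he.mt).trans hg)))
  refine h1.trans ?_
  have hup0 : 32 * fl 8192 (f0 + 1) ≤ 33 * fl 8192 f0 := fl_upper 8192 f0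
  have hst := fl_step256 f0
  have hmo : fl 8192 (f0 + 1) ≤ fl 8192 g := fl_mono hf0lt
  have hxj : fl 8192 f0 ≤ j := by omega
  obtain ⟨x, hx⟩ : ∃ x : ℝ, x = (fl 8192 f0 : ℝ) := ⟨_, rfl⟩
  have hx8 : (8192 : ℝ) ≤ x := by rw [hx]; exact_mod_cast fl8 f0
  have hxj' : x ≤ j := by rw [hx]; exact_mod_cast hxj
  have hN : 12 * (j : ℝ) ^ 3 < (fl 8192 (f0 + 1) : ℝ) ^ 4 := by exact_mod_cast hf0N
  have hu : (fl 8192 (f0 + 1) : ℝ) ≤ 33 / 32 * x := by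
    have : (32 : ℝ) * fl 8192 (f0 + 1) ≤ 33 * fl 8192 f0 := by exact_mod_cast hup0
    rw [hx]
    linarith
  have h2 : (fl 8192 (f0 + 1) : ℝ) ^ 4 ≤ (33 / 32 * x) ^ 4 :=
    pow_le_pow_left₀ (Nat.cast_nonneg _) hu 4
  have h3 : 10 * (j : ℝ) ^ 3 ≤ x ^ 4 := by
    rw [mul_pow] at h2
    have : (33 / 32 : ℝ) ^ 4 ≤ 12 / 10 := by norm_num
    have h4 : (33 / 32 : ℝ) ^ 4 * x ^ 4 ≤ 12 / 10 * x ^ 4 :=
      mul_le_mul_of_nonneg_right this (by positivity)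
    linarith
  have hjp : (0 : ℝ) < j := by linarith
  have h4 : 10 * (j : ℝ) ^ 2 ≤ x ^ 3 := by
    have h5 : x ^ 4 ≤ (j : ℝ) * x ^ 3 := by
      have : x ^ 4 = x * x ^ 3 := by ring
      rw [this]
      exact mul_le_mul_of_nonneg_right hxj' (by positivity)
    have h6 : (j : ℝ) * (10 * (j : ℝ) ^ 2) ≤ (j : ℝ) * x ^ 3 := by
      have : (j : ℝ) * (10 * (j : ℝ) ^ 2) = 10 * (j : ℝ) ^ 3 := by ring
      rw [this]
      exact h3.trans h5
    exact le_of_mul_le_mul_left h6 hjp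
  unfold th
  rw [← hx, mul_div_assoc']
  rw [div_le_iff₀ (by positivity)]
  nlinarith

/-- **the ledger inequality beyond the table** -/
theorem led2 (h : L.Chk T Z) (hT : T.Chk Z) (hP : 5 * Sp + 6 * mJ0 ≤ (L.P0 : ℝ) / 2 ^ 40)
    {g j : ℕ} (hg : G1 ≤ g)
    (hj : fl 8192 g - 20 ≤ j) (hj' : j < fl 8192 (g + 1) - 20) :
    (D41 T L.ar lamR mJ0 Sp).Phi0 + ∑ f ∈ Finset.range g, (D41 T L.ar lamR mJ0 Sp).inc f j ≤
      L.ar g := by
  have hg1 : 1 ≤ g := by unfold G1 at hg; omega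
  have he := okE_spec h.e
  rw [inc_split _ hg1]
  have h1 := RDs_tail (mJ0 := mJ0) (Sp := Sp) h hg hj
  have h2 := RBs_tail (mJ0 := mJ0) (Sp := Sp) h hg j
  have h3 := GDs_tail (mJ0 := mJ0) (Sp := Sp) h hg hj
  have h4 := GBs_tail (mJ0 := mJ0) (Sp := Sp) h hg j
  have h5 := Os_tail (L := L) (mJ0 := mJ0) (Sp := Sp) hT hg hj hj'
  have h6 := KEE_tail (mJ0 := mJ0) (Sp := Sp) h hT hg hj hj'
  have h7 : ∑ f ∈ Finset.range g, Es (D41 T L.ar lamR mJ0 Sp) f ≤ 95 / 10000 :=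
    E_sum (LTab.std h mJ0 Sp) g
  have h8 : ∑ f ∈ Finset.range g, (D41 T L.ar lamR mJ0 Sp).FAT f ≤ (fatT g : ℝ) / 2 ^ 20 :=
    F41_FAT g
  rw [fatT_tail hg] at h8
  have h9 := he.led
  have h10 : ((L.tC + (798 * L.aL * 2 ^ 20 / 1000 + 1) + (151 * L.lL * 2 ^ 20 / 100 + 1) +
    L.br G1 + L.bg G1 + (5 * T.zB Z G1 / 2 ^ 24 + 1) + fatT G1 * 2 ^ 20 + 2 ^ 24 : ℕ) : ℝ) ≤
      ((L.aE * 2 ^ 20 : ℕ) : ℝ) := by exact_mod_cast h9
  have d1 := div_le_floor1 (798 * L.aL * 2 ^ 20) 1000 (by norm_num)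
  have d2 := div_le_floor1 (151 * L.lL * 2 ^ 20) 100 (by norm_num)
  have d3 := div_le_floor1 (5 * T.zB Z G1) (2 ^ 24) (by norm_num)
  have h11 : (L.P0 : ℝ) + 95 / 10000 * 2 ^ 40 ≤ (L.tC : ℝ) := by
    unfold LTab.tC
    push_cast
    norm_num
    linarith
  have h12 : (D41 T L.ar lamR mJ0 Sp).Phi0 ≤ (L.P0 : ℝ) / 2 ^ 40 := by
    change chC * Sp + 6 * mJ0 ≤ _
    unfold chC
    linarith
  push_cast at h10 d1 d2 d3
  have h13 : (L.a g : ℝ) / 2 ^ 20 = L.ar g := rfl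
  rw [← h13, a_tail hg]
  linarith

/-! ## capacity -/

theorem load_frame (D : TD) (g n : ℕ) : D.load g n =
    (if g = 0 then 0 else
      ((D.wR g).map (fun k => if n ∈ (srcR D.q (D.A k) k).Q then
        (srcR D.q (D.A k) k).u else 0)).sum +
      ((D.wG g).map (fun i => if n ∈ (srcG D.q (D.MG g i) (D.ug g) i).Q then
        (srcG D.q (D.MG g i) (D.ug g) i).u else 0)).sum) +
    ((D.wO g).map (fun c => if n ∈ (D.srcO c).Q then (D.srcO c).u else 0)).sum := by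
  unfold TD.load TD.srcs TD.srcs1
  by_cases hg : g = 0
  · rw [if_pos hg, if_pos hg]
    simp only [List.nil_append, List.map_map, Function.comp_def, zero_add]
  · rw [if_neg hg, if_neg hg]
    simp only [List.map_append, List.sum_append, List.map_map, Function.comp_def]

theorem F41_sv (g : ℕ) : (F41 g).s = if fl 8192 g < 40000 then 2 / 5 else 1 / 10 := rfl

theorem cap1 (h : L.Chk T Z) (hT : T.Chk Z)
    (hJ : 13 * (17 / 10000 + mJ0) ≤ (L.JJ : ℝ) / 2 ^ 20) {g n : ℕ}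
    (hn : n ∈ (D41 T L.ar lamR mJ0 Sp).Frm g) :
    (D41 T L.ar lamR mJ0 Sp).load g n + 13 * (D41 T L.ar lamR mJ0 Sp).JT ≤
      1 - (D41 T L.ar lamR mJ0 Sp).sm g := by
  have he := okE_spec h.e
  have hO := O_load (a := L.ar) (lam := lamR) (mJ0 := mJ0) (Sp := Sp) hT hn
  have hJT : (D41 T L.ar lamR mJ0 Sp).JT = 17 / 10000 + mJ0 := rfl
  have hsm : (D41 T L.ar lamR mJ0 Sp).sm g = if fl 8192 g < 40000 then 2 / 5 else 1 / 10 :=
    F41_sv g
  rw [load_frame, hJT, hsm]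
  by_cases hg : g = 0
  · rw [if_pos hg]
    have e0 : fl 8192 g = 8192 := by rw [hg]; rfl
    rw [e0, if_pos (by norm_num)]
    have h1 := he.lo0
    have h2 : (T.lo g : ℝ) + L.JJ ≤ 629145 := by rw [hg]; exact_mod_cast h1
    have h3 : ((T.lo g : ℝ) + L.JJ) / 2 ^ 20 ≤ 629145 / 2 ^ 20 :=
      div_le_div_of_nonneg_right h2 (by norm_num)
    rw [add_div] at h3
    norm_num at h3 hO hJ ⊢
    linarith
  · rw [if_neg hg]
    have hg1 : 1 ≤ g := by omega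
    have hR := cap_R (LTab.std h mJ0 Sp) (n := n) hg1
    have hG := cap_G (LTab.std h mJ0 Sp) (n := n) hg1
    have h8 := fl8 g
    by_cases hg2 : g < G1
    · have h1 := Nat.le_of_ble_eq_true (h.c g hg1 hg2)
      unfold G1 at hg2
      rw [fT_eq g (by omega)] at h1
      have hb : ((bif Nat.blt (fl 8192 g) 40000 then 629145 else 943718 : ℕ) : ℝ) / 2 ^ 20 ≤
          1 - (if fl 8192 g < 40000 then (2 / 5 : ℝ) else 1 / 10) := by
        by_cases h2 : fl 8192 g < 40000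
        · have h3 : Nat.blt (fl 8192 g) 40000 = true := Nat.ble_eq_true_of_le h2
          rw [if_pos h2, h3]
          norm_num
        · have h3 : Nat.blt (fl 8192 g) 40000 = false := by
            rw [← Bool.not_eq_true]
            intro h
            exact h2 (Nat.le_of_ble_eq_true h)
          rw [if_neg h2, h3]
          norm_num
      obtain ⟨B, hB⟩ : ∃ B : ℕ, B = (bif Nat.blt (fl 8192 g) 40000 then 629145 else 943718 : ℕ) :=
        ⟨_, rfl⟩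
      rw [← hB] at h1 hb
      have h2 : ((T.lo g + L.a g + (L.a g * 60 / fl 8192 g + 1) + lamT g + L.JJ : ℕ) : ℝ) ≤
          (B : ℝ) := by exact_mod_cast h1
      have d1 := div_le_floor1 (L.a g * 60) (fl 8192 g) (by omega)
      push_cast at h2 d1
      have e1 : L.ar g * (1 + 60 / (fl 8192 g : ℝ)) =
          ((L.a g : ℝ) + (L.a g : ℝ) * 60 / (fl 8192 g : ℝ)) / 2 ^ 20 := by
        unfold LTab.ar
        ring
      have e2 : lamR g = (lamT g : ℝ) / 2 ^ 20 := rfl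
      rw [e1] at hR
      rw [e2] at hG
      have h3 : ((L.a g : ℝ) + (L.a g : ℝ) * 60 / (fl 8192 g : ℝ)) / 2 ^ 20 +
          (lamT g : ℝ) / 2 ^ 20 + (T.lo g : ℝ) / 2 ^ 20 + (L.JJ : ℝ) / 2 ^ 20 ≤ (B : ℝ) / 2 ^ 20 := by
        rw [← add_div, ← add_div, ← add_div]
        apply div_le_div_of_nonneg_right _ (by norm_num)
        linarith
      linarith
    · rw [not_lt] at hg2
      have h1 := he.cap
      have hlo : T.lo g = 0 := by
        unfold OTab.lo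
        have : Nat.blt g T.GO = false := by
          rw [← Bool.not_eq_true]
          intro h
          have h3 := Nat.le_of_ble_eq_true h
          have h4 := hT.GO2
          unfold G1 at hg2
          omega
        rw [this]
        rfl
      have h38 := flG1
      have hm : fl 8192 G1 ≤ fl 8192 g := fl_mono hg2
      rw [if_neg (by omega)]
      rw [hlo] at hO
      have e1 : L.ar g = (L.aE : ℝ) / 2 ^ 20 := by unfold LTab.ar; rw [a_tail hg2]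
      have e2 : lamR g = (lamT G1 : ℝ) / 2 ^ 20 := by unfold lamR; rw [lamT_tail hg2]
      rw [e1] at hR
      rw [e2] at hG
      have h2 : (L.aE : ℝ) + lamT G1 + L.JJ + 2 ≤ 943718 := by exact_mod_cast h1
      have h5 : (2 : ℝ) ^ 38 ≤ (fl 8192 g : ℝ) := by exact_mod_cast h38.trans hm
      have h6 : 60 / (fl 8192 g : ℝ) ≤ 1 / 2 ^ 20 := by
        rw [div_le_iff₀ (by linarith)]
        linarith
      have h7 : (L.aE : ℝ) / 2 ^ 20 ≤ 1 := by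
        rw [div_le_one (by norm_num)]
        exact_mod_cast he.aE
      have h7' : 0 ≤ (L.aE : ℝ) / 2 ^ 20 := div_nonneg (Nat.cast_nonneg _) (by norm_num)
      have h8 : (L.aE : ℝ) / 2 ^ 20 * (60 / (fl 8192 g : ℝ)) ≤ 1 * (1 / 2 ^ 20) :=
        mul_le_mul h7 h6 (div_nonneg (by norm_num) (Nat.cast_nonneg _)) (by norm_num)
      have h9 : ((L.aE : ℝ) + lamT G1 + L.JJ + 2) / 2 ^ 20 ≤ 943718 / 2 ^ 20 :=
        div_le_div_of_nonneg_right h2 (by norm_num)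
      rw [add_div, add_div, add_div] at h9
      norm_num at h9 h8 hO hR hG hJ ⊢
      linarith

/-! ## final theorems -/

/-- **the ledger** -/
theorem LTab.ledger (h : L.Chk T Z) (hT : T.Chk Z) (hP : 5 * Sp + 6 * mJ0 ≤ (L.P0 : ℝ) / 2 ^ 40)
    (hJ : 13 * (17 / 10000 + mJ0) ≤ (L.JJ : ℝ) / 2 ^ 20) : (D41 T L.ar lamR mJ0 Sp).Ledger where
  led := by
    intro g j hg hj hj'
    have hD := LTab.std h mJ0 Sp
    rw [std_fl hD] at hj hj'
    rw [hD.A g j hg hj hj']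
    by_cases hg2 : g < G1
    · exact led1 h hT hP hg hg2 hj hj'
    · exact led2 h hT hP (not_lt.mp hg2) hj hj'
  cap := fun g n hn => cap1 h hT hJ hn
  JT := by
    intro g
    have h1 := F41_JT g
    change mJ0 + ∑ g' ∈ Finset.range g, (F41 g').mJ ≤ 17 / 10000 + mJ0
    linarith
  MG := by
    intro g i hg hi hi'
    have hD := LTab.std h mJ0 Sp
    rw [std_fl hD, hD.ug] at hi
    rw [std_fl hD, hD.ug] at hi'
    rw [std_q hD, hD.ug, hD.MG]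
    exact F41_MG g i hg hi hi'

/-- **the elementary conditions** -/
theorem LTab.ok1 (h : L.Chk T Z) (hT : T.Chk Z) (hmJ0 : 0 ≤ mJ0) :
    (D41 T L.ar lamR mJ0 Sp).Ok1 where
  q1 := by norm_num [D41]
  q2 := by norm_num [D41]
  l1 := le_rfl
  l2 := by norm_num [D41]
  n1 := by
    rw [std_q (LTab.std h mJ0 Sp)]
    change ix 2048 8192 ≤ N41
    unfold ix N41
    rw [Nat.ceil_le]
    norm_num
  n2 := by
    have h1 := F41_n2 (N1 := N41) (by norm_num [N41])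
    rw [std_q (LTab.std h mJ0 Sp), std_fl (LTab.std h mJ0 Sp)]
    exact h1
  A0 := fun k => ar0 L _
  MG0 := fun g i => mul_nonneg (lamR0 _) (mul_nonneg (by unfold th; positivity)
    (Nat.cast_nonneg _))
  ug := fun g => dvd_rfl
  fc0 := hT.fc0
  fcm := O_fcm hT
  fcn := O_fcn hT
  fce := ⟨T.GO, rfl⟩
  oOk := fun g c h1 h2 => O_ok hT g c h1 h2
  oth := fun g c h1 h2 => O_oth hT g c h1 h2
  ork := fun c hc => O_ork hT c hc
  ok0 := fun c hc => O_ok0 hT c hc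
  k0a := by norm_num [D41]
  k0b := le_rfl
  Fok := F41_ok
  Fq := fun _ => rfl
  FN := fun _ => rfl
  Fl := fun _ => rfl
  Fl1 := fun _ => rfl
  Fs := F41_s
  Fs1 := by
    intro g
    change (F41 g).s ≤ 1
    rw [F41_sv]
    split_ifs <;> norm_num
  Ft := F41_thr
  Fx := F41_x
  Fy := by
    intro g
    rw [std_q (LTab.std h mJ0 Sp), std_fl (LTab.std h mJ0 Sp)]
    exact F41_y g
  mJ00 := hmJ0

end

end Pool.Agent.LibMoserT
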