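import Pool.Agent.LibMoserF.BF
set_option autoImplicit false
namespace Pool.Agent.Mos41
open Classical

/-- **Group Beck–Fiala rounding**, weights of both signs. -/
theorem beckFialaS {ι γ κ : Type} [Fintype ι] [Fintype κ] (g : ι → γ)
    (a : κ → ι → ℝ) (b e : κ → ℝ) (hb : ∀ k, 0 < b k)
    (hab : ∀ k (S : Finset ι), e k < ∑ v ∈ S, |a k v| → b k ≤ ∑ v ∈ S, |a k v|)
    (hw : ∀ v, ∑ k, |a k v| / b k < 1 / 2)
    (x : ι → ℝ) (hx : ∀ v, 0 ≤ x v ∧ x v ≤ 1)
    (hg : ∀ c : γ, ∃ z : ℤ, ∑ v ∈ Finset.univ.filter (fun v => g v = c), x v = z) :
    ∃ x' : ι → ℝ, (∀ v, x' v = 0 ∨ x' v = 1) ∧ (∀ v, v ∉ flo x → x' v = x v) ∧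
      (∀ c : γ, ∑ v ∈ Finset.univ.filter (fun v => g v = c), x' v =
        ∑ v ∈ Finset.univ.filter (fun v => g v = c), x v) ∧
      (∀ k, |∑ v, a k v * (x' v - x v)| ≤ max (e k) 0) := by
  -- induction on the number of floating variables
  induction hn : (flo x).card using Nat.strong_induction_on generalizing x with
  | _ n ih =>
  rcases (flo x).eq_empty_or_nonempty with hemp | hne
  · refine ⟨x, ?_, fun _ _ => rfl, fun _ => rfl, ?_⟩
    · intro v
      by_contra h
      push Not at h
      have : v ∈ flo x := mem_flo.2 ⟨lt_of_le_of_ne (hx v).1 (Ne.symm h.1), lt_of_le_of_ne (hx v).2 h.2⟩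
      rw [hemp] at this
      exact absurd this (Finset.notMem_empty v)
    · intro k
      simp
  · -- the equations
    let S := flo x
    let Gs : Finset γ := S.image g
    let Ks : Finset κ := Finset.univ.filter (fun k => e k < ∑ v ∈ S, |a k v|)
    have hGcard : 2 * Gs.card ≤ S.card := by
      have h1 : S.card = ∑ c ∈ Gs, (S.filter (fun v => g v = c)).card := by
        exact Finset.card_eq_sum_card_image g S
      rw [h1, mul_comm, ← smul_eq_mul, ← Finset.sum_const]
      apply Finset.sum_le_sum
      intro c hc
      obtain ⟨v, hv, hvc⟩ := Finset.mem_image.1 hc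
      obtain ⟨z, hz⟩ := hg c
      have e1 : Finset.univ.filter (fun v => g v = c) ∩ flo x = S.filter (fun v => g v = c) := by
        ext u; simp only [Finset.mem_inter, Finset.mem_filter, Finset.mem_univ, true_and, S]
        tauto
      have := bf_two x hx _ z hz (by
        rw [e1]
        exact ⟨v, Finset.mem_filter.2 ⟨hv, hvc⟩⟩)
      rwa [e1] at this
    have hKcard : (Ks.card : ℝ) < S.card / 2 := by
      have h1 : (Ks.card : ℝ) ≤ ∑ k ∈ Ks, ∑ v ∈ S, |a k v| / b k := by
        rw [Finset.card_eq_sum_ones, Nat.cast_sum]
        apply Finset.sum_le_sum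
        intro k hk
        have hk' := (Finset.mem_filter.1 hk).2
        have := hab k S hk'
        rw [← Finset.sum_div, Nat.cast_one, one_le_div (hb k)]
        exact this
      have h2 : ∑ k ∈ Ks, ∑ v ∈ S, |a k v| / b k ≤ ∑ v ∈ S, ∑ k, |a k v| / b k := by
        rw [Finset.sum_comm]
        apply Finset.sum_le_sum
        intro v _
        apply Finset.sum_le_sum_of_subset_of_nonneg (Finset.subset_univ _)
        intro k _ _
        exact div_nonneg (abs_nonneg _) (hb k).le
      have h3 : ∑ v ∈ S, ∑ k, |a k v| / b k < ∑ v ∈ S, (1 / 2 : ℝ) :=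
        Finset.sum_lt_sum_of_nonempty hne (fun v _ => hw v)
      have h4 : ∑ v ∈ S, (1 / 2 : ℝ) = S.card / 2 := by
        rw [Finset.sum_const, nsmul_eq_mul]; ring
      linarith
    have hcount : Gs.card + Ks.card < S.card := by
      have h5 : (2 : ℝ) * Gs.card ≤ S.card := by exact_mod_cast hGcard
      have : (Gs.card : ℝ) + Ks.card < S.card := by linarith
      exact_mod_cast this
    let f : (S → ℝ) →ₗ[ℝ] ((Gs ⊕ Ks) → ℝ) :=
      { toFun := fun y q => match q with
          | Sum.inl c => ∑ v : S, if g v = c then y v else 0
          | Sum.inr k => ∑ v : S, a k v * y v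
        map_add' := by
          intro y y'
          funext q
          rcases q with c | k
          · simp only [Pi.add_apply]
            rw [← Finset.sum_add_distrib]
            apply Finset.sum_congr rfl
            intro v _
            split_ifs <;> simp
          · simp only [Pi.add_apply]
            rw [← Finset.sum_add_distrib]
            apply Finset.sum_congr rfl
            intro v _
            ring
        map_smul' := by
          intro t y
          funext q
          rcases q with c | k
          · simp only [Pi.smul_apply, smul_eq_mul, RingHom.id_apply]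
            rw [Finset.mul_sum]
            apply Finset.sum_congr rfl
            intro v _
            split_ifs <;> simp
          · simp only [Pi.smul_apply, smul_eq_mul, RingHom.id_apply]
            rw [Finset.mul_sum]
            apply Finset.sum_congr rfl
            intro v _
            ring }
    have hker : LinearMap.ker f ≠ ⊥ := by
      apply LinearMap.ker_ne_bot_of_finrank_lt
      rw [Module.finrank_fintype_fun_eq_card, Module.finrank_fintype_fun_eq_card]
      simp only [Fintype.card_sum, Fintype.card_coe]
      exact hcount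
    obtain ⟨y0, hy0, hy0ne⟩ := Submodule.exists_mem_ne_zero_of_ne_bot hker
    let y : ι → ℝ := fun v => if h : v ∈ S then y0 ⟨v, h⟩ else 0
    have hyS : ∀ v, v ∉ flo x → y v = 0 := by
      intro v hv
      simp only [y]
      rw [dif_neg hv]
    have hyne : ∃ v, y v ≠ 0 := by
      by_contra hall
      push Not at hall
      apply hy0ne
      funext v
      have := hall v
      simp only [y] at this
      rw [dif_pos v.2] at this
      simpa using this
    have hf := LinearMap.mem_ker.1 hy0
    have hsumS : ∀ F : ι → ℝ, ∑ v, F v * y v = ∑ v : S, F v * y0 v := by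
      intro F
      have h1 : ∑ v, F v * y v = ∑ v ∈ S, F v * y v := by
        symm
        apply Finset.sum_subset (Finset.subset_univ _)
        intro v _ hv
        rw [hyS v hv, mul_zero]
      rw [h1, ← Finset.sum_coe_sort S]
      apply Finset.sum_congr rfl
      intro v _
      simp only [y]
      rw [dif_pos v.2]
    have hgy : ∀ c, ∑ v ∈ Finset.univ.filter (fun v => g v = c), y v = 0 := by
      intro c
      have h1 : ∑ v ∈ Finset.univ.filter (fun v => g v = c), y v =
          ∑ v, (if g v = c then 1 else 0) * y v := by
        rw [Finset.sum_filter]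
        apply Finset.sum_congr rfl
        intro v _
        split_ifs <;> simp
      rw [h1, hsumS]
      by_cases hc : c ∈ Gs
      · have := congrFun hf (Sum.inl ⟨c, hc⟩)
        simp only [f, LinearMap.coe_mk, AddHom.coe_mk, Pi.zero_apply] at this
        refine Eq.trans ?_ this
        apply Finset.sum_congr rfl
        intro v _
        by_cases hv : g v = c
        · rw [if_pos hv, if_pos hv, one_mul]
        · rw [if_neg hv, if_neg hv, zero_mul]
      · apply Finset.sum_eq_zero
        intro v _
        have : g v ≠ c := by
          intro h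
          exact hc (Finset.mem_image.2 ⟨v, v.2, h⟩)
        rw [if_neg this, zero_mul]
    have hky : ∀ k, e k < ∑ v ∈ S, |a k v| → ∑ v, a k v * y v = 0 := by
      intro k hk
      rw [hsumS]
      have hk' : k ∈ Ks := Finset.mem_filter.2 ⟨Finset.mem_univ _, hk⟩
      have := congrFun hf (Sum.inr ⟨k, hk'⟩)
      simpa only [f, LinearMap.coe_mk, AddHom.coe_mk, Pi.zero_apply] using this
    obtain ⟨t, ht, hsub⟩ := bf_move x y hx hyS hyne
    let x1 : ι → ℝ := fun v => x v + t * y v
    have hx1out : ∀ v, v ∉ flo x → x1 v = x v := by
      intro v hv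
      simp only [x1]
      rw [hyS v hv, mul_zero, add_zero]
    have hg1 : ∀ c, ∑ v ∈ Finset.univ.filter (fun v => g v = c), x1 v =
        ∑ v ∈ Finset.univ.filter (fun v => g v = c), x v := by
      intro c
      simp only [x1]
      rw [Finset.sum_add_distrib, ← Finset.mul_sum, hgy c, mul_zero, add_zero]
    obtain ⟨x', h1, h2, h3, h4⟩ := ih (flo x1).card (by
        rw [← hn]
        exact Finset.card_lt_card hsub) x1 ht (by
        intro c
        obtain ⟨z, hz⟩ := hg c
        exact ⟨z, by rw [hg1 c]; exact hz⟩) rfl
    have hout : ∀ v, v ∉ flo x → x' v = x v := by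
      intro v hv
      rw [h2 v (fun h => hv (hsub.1 h)), hx1out v hv]
    refine ⟨x', h1, hout, fun c => (h3 c).trans (hg1 c), ?_⟩
    intro k
    by_cases hk : e k < ∑ v ∈ S, |a k v|
    · have e1 : ∑ v, a k v * (x' v - x v) = ∑ v, a k v * (x' v - x1 v) := by
        have : ∑ v, a k v * (x' v - x v) = ∑ v, a k v * (x' v - x1 v) + t * ∑ v, a k v * y v := by
          rw [Finset.mul_sum, ← Finset.sum_add_distrib]
          apply Finset.sum_congr rfl
          intro v _
          simp only [x1]
          ring
        rw [this, hky k hk, mul_zero, add_zero]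
      rw [e1]
      exact h4 k
    · push Not at hk
      have e1 : ∑ v, a k v * (x' v - x v) = ∑ v ∈ S, a k v * (x' v - x v) := by
        symm
        apply Finset.sum_subset (Finset.subset_univ _)
        intro v _ hv
        rw [hout v hv, sub_self, mul_zero]
      rw [e1]
      calc |∑ v ∈ S, a k v * (x' v - x v)| ≤ ∑ v ∈ S, |a k v * (x' v - x v)| :=
            Finset.abs_sum_le_sum_abs _ _
        _ ≤ ∑ v ∈ S, |a k v| := by
            apply Finset.sum_le_sum
            intro v _
            rw [abs_mul]
            have : |x' v - x v| ≤ 1 := by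
              rw [abs_le]
              rcases h1 v with h | h <;> rw [h] <;> constructor <;> linarith [(hx v).1, (hx v).2]
            calc |a k v| * |x' v - x v| ≤ |a k v| * 1 := mul_le_mul_of_nonneg_left this (abs_nonneg _)
              _ = |a k v| := mul_one _
        _ ≤ e k := hk
        _ ≤ max (e k) 0 := le_max_left _ _

end Pool.Agent.Mos41
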