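import Pool.Agent.LibMoserT.N4
import Pool.Agent.LibMoserT.BFs
set_option autoImplicit false
/-!
# The chain inequality in the windows, and cutting all end pieces
-/
namespace Pool.Agent.LibMoserT
open Pool.Agent.LibMoser5 Pool.Agent.LibMoserF Classical

noncomputable section

theorem fch_nonneg {θ' t : ℝ} (h : 0 ≤ θ') : 0 ≤ fch θ' t := by
  unfold fch
  split_ifs with h1
  · linarith
  · exact le_rfl

theorem fch_le {θ' t : ℝ} (h : 0 ≤ θ') (ht : 0 ≤ t) : fch θ' t ≤ chC * t := by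
  unfold fch chC
  split_ifs <;> linarith

theorem fhit_nonneg {θ' p r : ℝ} (h : 0 ≤ θ') : 0 ≤ fhit θ' p r := by
  unfold fhit
  split_ifs with h1
  · exact fch_nonneg h
  · exact le_rfl

theorem fhit_le {θ' p r : ℝ} (h : 0 ≤ θ') : fhit θ' p r ≤ fch θ' p := by
  unfold fhit
  split_ifs with h1
  · exact le_rfl
  · exact fch_nonneg h

theorem rel_nonneg {θ' : ℝ} {x : EP} (h : 0 ≤ θ') : 0 ≤ rel θ' x := by
  unfold rel
  split_ifs with h1
  · exact fch_nonneg h
  · exact le_rfl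

theorem rel_le {θ' : ℝ} {x : EP} (h : 0 ≤ θ') : rel θ' x ≤ fch θ' x.t := by
  unfold rel
  split_ifs with h1
  · exact le_rfl
  · exact fch_nonneg h

/-- ROW RULE: a row `p × r` filled with `n` squares of total side `s`, sides in `[197/200 p, p]`, with rest
`r - s ≤ 6/5 p`, releases its potential. -/
theorem rel_le_fhit {θ' p r s : ℝ} {n : ℕ} {x : EP} (hθ : 0 ≤ θ') (ht : x.t = p)
    (ha : x.a ≤ r - s) (h1 : (n : ℝ) * (197 / 200 * p) ≤ s) (h2 : s ≤ n * p)
    (h3 : r - s ≤ 6 / 5 * p) : rel θ' x ≤ fhit θ' p r := by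
  unfold rel
  split_ifs with h
  · have hh : hitR (5 / 4 * θ') p r := ⟨n, by linarith, by linarith⟩
    unfold fhit
    rw [if_pos hh, ht]
  · exact fhit_nonneg hθ

theorem hitR_of_le {h p r : ℝ} (hp : 0 < p) (hr : p ≤ r) (hh : h ≤ p / 5) : hitR h p r := by
  refine ⟨⌈r / p - 6 / 5⌉₊, ?_, ?_⟩
  · have h1 : r / p - 6 / 5 ≤ ((⌈r / p - 6 / 5⌉₊ : ℕ) : ℝ) := Nat.le_ceil _
    have h2 : r = r / p * p := by field_simp
    calc r = r / p * p := h2
      _ ≤ (((⌈r / p - 6 / 5⌉₊ : ℕ) : ℝ) + 6 / 5) * p := mul_le_mul_of_nonneg_right (by linarith) hp.le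
  · rcases le_or_gt (r / p - 6 / 5) 0 with h1 | h1
    · rw [Nat.ceil_eq_zero.2 h1]
      push_cast
      linarith
    · have h2 : ((⌈r / p - 6 / 5⌉₊ : ℕ) : ℝ) < r / p - 6 / 5 + 1 := Nat.ceil_lt_add_one h1.le
      have h3 : ((⌈r / p - 6 / 5⌉₊ : ℕ) : ℝ) * p ≤ (r / p - 1 / 5) * p :=
        mul_le_mul_of_nonneg_right (by linarith) hp.le
      have h4 : (r / p - 1 / 5) * p = r - p / 5 := by field_simp
      have h5 : 0 ≤ ((⌈r / p - 6 / 5⌉₊ : ℕ) : ℝ) * p := by positivity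
      linarith

theorem pot_le_norm {θ' θ s b : ℝ} (hθ' : 0 < θ') (hθ : θ' < θ) (hb : 0 ≤ b) :
    pot θ' θ (s, b) ≤
      θ' * (nm ((θ - θ') / θ') (b / θ') (s / θ') + nF (s / θ') (b / θ')) := by
  have hw : 0 < (θ - θ') / θ' := div_pos (by linarith) hθ'
  have h0 : 0 ≤ nm ((θ - θ') / θ') (b / θ') (s / θ') := nm_nonneg hw (by positivity)
  have h0' : 0 ≤ nF (s / θ') (b / θ') := nF_nonneg _ _
  unfold pot
  dsimp only
  split_ifs with h1 h2
  · positivity
  · have h3 : nm ((θ - θ') / θ') (b / θ') (s / θ') = ms (s, b) / (θ - θ') := by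
      unfold nm ms
      rw [if_pos]
      · have : θ - θ' ≠ 0 := by linarith
        field_simp
      · constructor
        · rw [lt_div_iff₀ hθ']; push Not at h1; linarith
        · rw [div_le_iff₀ hθ']
          have : (1 + (θ - θ') / θ') * θ' = θ := by field_simp; ring
          rw [this]; exact h2
    rw [h3]
    have h4 : ms (s, b) * θ' / (θ - θ') = θ' * (ms (s, b) / (θ - θ')) := by ring
    rw [h4]
    nlinarith
  · have h3 : fhit θ' s b ≤ θ' * nF (s / θ') (b / θ') := by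
      unfold fhit
      split_ifs with h4
      · unfold fch
        split_ifs with h5
        · have h6 : hitR (5 / 4) (s / θ') (b / θ') := by
            obtain ⟨n, hn1, hn2⟩ := h4
            refine ⟨n, ?_, ?_⟩
            · rw [div_le_iff₀ hθ']
              have : ((n : ℝ) + 6 / 5) * (s / θ') * θ' = ((n : ℝ) + 6 / 5) * s := by field_simp
              rw [this]; exact hn1
            · have e : b / θ' - n * (197 / 200 * (s / θ')) = (b - n * (197 / 200 * s)) / θ' := by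
                field_simp
              rw [e, le_div_iff₀ hθ']
              exact hn2
          have h7 : 5 / 4 ≤ s / θ' := by rw [le_div_iff₀ hθ']; exact h5
          unfold nF
          rw [if_pos h6, if_pos h7]
          apply le_of_eq
          field_simp
        · exact mul_nonneg hθ'.le h0'
      · exact mul_nonneg hθ'.le h0'
    have h5 : 0 ≤ θ' * nm ((θ - θ') / θ') (b / θ') (s / θ') := by positivity
    linarith

theorem EP.Ok.pos {x : EP} (hx : x.Ok) (ht : 0 < x.t) : 0 < x.a ∧ 0 < x.b := by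
  obtain ⟨h1, h2, h3, h4⟩ := hx
  constructor <;> linarith

/-- CHAIN INEQUALITY: average over the cuts. -/
theorem chain_avg (θ' θ : ℝ) (M : ℕ) (x : EP) (hx : x.Ok) (ht : 0 < x.t) (hθ' : 0 < θ')
    (hθ : θ' < θ) (hθθ : θ ≤ (1 + 1 / 1000) * θ') (hM : 1000 * x.a ≤ M * (θ - θ')) :
    ∑ m ∈ Finset.range M, ((x.strips (phi M m)).map (pot θ' θ)).sum ≤ M * rel θ' x := by
  obtain ⟨ha, hb⟩ := hx.pos ht
  obtain ⟨h1, h2, h3, h4⟩ := hx
  have e0 : ∀ m, ((x.strips (phi M m)).map (pot θ' θ)).sum =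
      pot θ' θ (phi M m * x.a, x.b) + pot θ' θ ((1 - phi M m) * x.a, x.b) := by
    intro m
    simp only [EP.strips, List.map_cons, List.map_nil, List.sum_cons, List.sum_nil, add_zero]
  simp only [e0]
  unfold rel
  split_ifs with h5
  · obtain ⟨w, hwd⟩ : ∃ w, w = (θ - θ') / θ' := ⟨_, rfl⟩
    have hw : 0 < w := by rw [hwd]; exact div_pos (by linarith) hθ'
    have hw' : w ≤ 1 / 1000 := by
      rw [hwd, div_le_iff₀ hθ']; linarith
    have h6 : ∑ m ∈ Finset.range M, (pot θ' θ (phi M m * x.a, x.b) +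
        pot θ' θ ((1 - phi M m) * x.a, x.b)) ≤
        ∑ m ∈ Finset.range M, (θ' * (nm w (x.b / θ') (phi M m * (x.a / θ')) +
            nF (phi M m * (x.a / θ')) (x.b / θ')) +
          θ' * (nm w (x.b / θ') ((1 - phi M m) * (x.a / θ')) +
            nF ((1 - phi M m) * (x.a / θ')) (x.b / θ'))) := by
      apply Finset.sum_le_sum
      intro m hm
      have h7 := pot_le_norm (s := phi M m * x.a) hθ' hθ hb.le
      have h8 := pot_le_norm (s := (1 - phi M m) * x.a) hθ' hθ hb.le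
      rw [← hwd, mul_div_assoc] at h7 h8
      exact add_le_add h7 h8
    refine h6.trans ?_
    rw [Finset.sum_add_distrib,
      sum_reflect_phi M (fun y => θ' * (nm w (x.b / θ') (y * (x.a / θ')) +
        nF (y * (x.a / θ')) (x.b / θ'))), ← Finset.mul_sum]
    have h9 := n4_one (N := M) (w := w) (a := x.a / θ') (b := x.b / θ') (t := x.t / θ') hw hw'
      (by rw [le_div_iff₀ hθ']; exact h5)
      (div_le_div_of_nonneg_right h2 hθ'.le)
      (by rw [mul_div_assoc']; exact div_le_div_of_nonneg_right (by linarith) hθ'.le)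
      (div_le_div_of_nonneg_right h3 hθ'.le)
      (by rw [mul_div_assoc']; exact div_le_div_of_nonneg_right h4 hθ'.le)
      (by
        rw [hwd, mul_div_assoc', mul_div_assoc']
        exact div_le_div_of_nonneg_right hM hθ'.le)
    have h10 := mul_le_mul_of_nonneg_left h9 hθ'.le
    have h11 : θ' * ((M : ℝ) * (5 * (x.t / θ') - 1 / 20)) = M * fch θ' x.t := by
      unfold fch
      rw [if_pos (by linarith)]
      field_simp
    rw [h11] at h10
    linarith
  · rw [mul_zero]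
    refine le_of_eq (Finset.sum_eq_zero (fun m hm => ?_))
    obtain ⟨h6, h7⟩ := phi_mem (Finset.mem_range.1 hm)
    have h8 : phi M m * x.a ≤ 4 / 5 * x.a := mul_le_mul_of_nonneg_right h7 ha.le
    have h9 : (1 - phi M m) * x.a ≤ 4 / 5 * x.a := mul_le_mul_of_nonneg_right (by linarith) ha.le
    have h10 : phi M m * x.a ≤ θ' := by linarith
    have h11 : (1 - phi M m) * x.a ≤ θ' := by linarith
    unfold pot
    dsimp only
    rw [if_pos h10, if_pos h11, add_zero]

theorem pot_far {θ' θ s b : ℝ} (hθ' : 0 < θ') (hθ : θ' < θ) (h : 5 / 4 * θ < s) :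
    pot θ' θ (s, b) ≤ 5 * s - 1 / 20 * θ' ∧ 0 ≤ pot θ' θ (s, b) ∧
      (hitR (5 / 4 * θ') s b → pot θ' θ (s, b) = 5 * s - 1 / 20 * θ') := by
  have h1 : ¬ s ≤ θ' := by push Not; linarith
  have h2 : ¬ s ≤ θ := by push Not; linarith
  have h3 : 5 / 4 * θ' ≤ s := by linarith
  have e : pot θ' θ (s, b) = fhit θ' s b := by
    simp only [pot, h1, h2, if_false]
  have e2 : fch θ' s = 5 * s - 1 / 20 * θ' := by
    unfold fch
    rw [if_pos h3]
  rw [e]
  refine ⟨?_, fhit_nonneg hθ'.le, ?_⟩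
  · rw [← e2]
    exact fhit_le hθ'.le
  · intro hh
    unfold fhit
    rw [if_pos hh, e2]

theorem strips_sum (f : ℝ × ℝ → ℝ) (x : EP) (φ : ℝ) :
    ((x.strips φ).map f).sum = f (φ * x.a, x.b) + f ((1 - φ) * x.a, x.b) := by
  simp only [EP.strips, List.map_cons, List.map_nil, List.sum_cons, List.sum_nil, add_zero]

/-- far windows: exact, no condition on `M` (here `5/4 θ < a/5`). -/
theorem chain_far (θ' θ φ : ℝ) (x : EP) (hx : x.Ok) (ht : 0 < x.t) (hθ' : 0 < θ') (hθ : θ' < θ)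
    (hφ : 1 / 5 ≤ φ) (hφ' : φ ≤ 4 / 5) (hfar : 5 / 4 * θ < x.a / 5) :
    ((x.strips φ).map (pot θ' θ)).sum ≤ rel θ' x := by
  obtain ⟨ha, hb⟩ := hx.pos ht
  obtain ⟨h1, h2, h3, h4⟩ := hx
  have h5 : 5 / 4 * θ < φ * x.a := by nlinarith
  have h6 : 5 / 4 * θ < (1 - φ) * x.a := by nlinarith
  have h7 := (pot_far (b := x.b) hθ' hθ h5).1
  have h8 := (pot_far (b := x.b) hθ' hθ h6).1
  rw [strips_sum]
  unfold rel fch
  rw [if_pos (by linarith), if_pos (by linarith)]
  linarith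

/-! ### the windows -/

theorem th_pos {q : ℝ} (hq : 0 < q) {k : ℕ} (hk : 0 < k) : 0 < th q k := by
  unfold th
  have : (0 : ℝ) < k := by exact_mod_cast hk
  positivity

theorem th_anti {q : ℝ} (hq : 0 < q) {k l : ℕ} (hk : 0 < k) (h : k ≤ l) : th q l ≤ th q k := by
  unfold th
  have h1 : (0 : ℝ) < k := by exact_mod_cast hk
  have h2 : (k : ℝ) ≤ l := by exact_mod_cast h
  apply div_le_div_of_nonneg_left hq.le (by positivity)
  exact pow_le_pow_left₀ h1.le h2 3

theorem th_lt {q : ℝ} (hq : 0 < q) {k l : ℕ} (hk : 0 < k) (h : k < l) : th q l < th q k := by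
  unfold th
  have h1 : (0 : ℝ) < k := by exact_mod_cast hk
  have h2 : (k : ℝ) < l := by exact_mod_cast h
  apply div_lt_div_of_pos_left hq (by positivity)
  exact pow_lt_pow_left₀ h2 h1.le (by norm_num)

/-- `θ_j ≤ 1.001 θ_{j+1}` -/
theorem th_ratio {q : ℝ} (hq : 0 < q) {j : ℕ} (hj : 4000 ≤ j) :
    th q j ≤ (1 + 1 / 1000) * th q (j + 1) := by
  unfold th
  have h1 : (4000 : ℝ) ≤ j := by exact_mod_cast hj
  push_cast
  rw [mul_div_assoc', div_le_div_iff₀ (by positivity) (by positivity)]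
  have h2 : ((j : ℝ) + 1) ^ 3 ≤ (1 + 1 / 1000) * (j : ℝ) ^ 3 := by
    have h3 : 3 * (j : ℝ) ^ 2 ≤ 3 / 4000 * (j : ℝ) ^ 3 := by nlinarith [sq_nonneg (j : ℝ)]
    have h4 : 3 * (j : ℝ) + 1 ≤ 1 / 1000 * (j : ℝ) ^ 2 := by nlinarith
    have h5 : (j : ℝ) ^ 2 ≤ 1 / 4000 * (j : ℝ) ^ 3 := by nlinarith [sq_nonneg (j : ℝ)]
    nlinarith
  nlinarith

/-- `θ'/(θ - θ') ≤ (j+1)/3` -/
theorem th_width {q : ℝ} (hq : 0 < q) {j : ℕ} (hj : 0 < j) :
    th q (j + 1) / (th q j - th q (j + 1)) ≤ ((j : ℝ) + 1) / 3 := by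
  have h1 : (0 : ℝ) < j := by exact_mod_cast hj
  have h0 : 0 < th q j - th q (j + 1) := by linarith [th_lt hq hj (Nat.lt_succ_self j)]
  rw [div_le_iff₀ h0]
  have h2 : th q j - th q (j + 1) = q * (((j : ℝ) + 1) ^ 3 - (j : ℝ) ^ 3) / ((j : ℝ) ^ 3 * ((j : ℝ) + 1) ^ 3) := by
    unfold th
    push_cast
    field_simp
  have h3 : th q (j + 1) = q * (j : ℝ) ^ 3 / ((j : ℝ) ^ 3 * ((j : ℝ) + 1) ^ 3) := by
    unfold th
    push_cast
    field_simp
  rw [h2, h3, mul_div_assoc']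
  apply div_le_div_of_nonneg_right _ (by positivity)
  have h4 : (j : ℝ) ^ 3 ≤ (j + 1) / 3 * (((j : ℝ) + 1) ^ 3 - (j : ℝ) ^ 3) := by nlinarith [sq_nonneg (j : ℝ)]
  nlinarith

/-! ### the weights of the second Beck–Fiala -/

/-- the part of the weight which does not depend on the cut -/
def cst (θ' θ a : ℝ) : ℝ := if 5 / 4 * θ < a / 5 then 5 * a - 1 / 10 * θ' else 0

/-- direct part for a strip of thickness `s` -/
def dpart (θ' θ b s : ℝ) : ℝ := if θ' < s ∧ s ≤ θ then (b + 4 / 5 * s) * θ' / (θ - θ') else 0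

/-- a near window of the piece -/
def gpart (θ' θ a : ℝ) : ℝ := if 4 / 25 * a ≤ θ ∧ θ' ≤ 16 / 25 * a then 5 * a else 0

/-- a middle window of the piece -/
def mpart (θ' θ a s : ℝ) : ℝ := if 4 / 25 * s ≤ θ' ∧ θ ≤ 4 / 25 * a then 5 * s else 0

theorem dpart_nonneg {θ' θ b s : ℝ} (hθ' : 0 < θ') (hθ : θ' < θ) (hb : 0 < b) (hs : 0 < s) :
    0 ≤ dpart θ' θ b s := by
  have hw : 0 < θ - θ' := by linarith
  unfold dpart
  split_ifs
  · positivity
  · exact le_rfl

theorem gpart_nonneg {θ' θ a : ℝ} (ha : 0 < a) : 0 ≤ gpart θ' θ a := by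
  unfold gpart
  split_ifs
  · positivity
  · exact le_rfl

theorem mpart_nonneg {θ' θ a s : ℝ} (hs : 0 < s) : 0 ≤ mpart θ' θ a s := by
  unfold mpart
  split_ifs
  · positivity
  · exact le_rfl

theorem weight_split {θ' θ φ : ℝ} {x : EP} (hx : x.Ok) (ht : 0 < x.t) (hθ' : 0 < θ') (hθ : θ' < θ)
    (hφ : 1 / 5 ≤ φ) (hφ' : φ ≤ 4 / 5) :
    |((x.strips φ).map (pot θ' θ)).sum - cst θ' θ x.a| ≤
      dpart θ' θ x.b (φ * x.a) + dpart θ' θ x.b ((1 - φ) * x.a) + gpart θ' θ x.a +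
        (mpart θ' θ x.a (φ * x.a) + mpart θ' θ x.a ((1 - φ) * x.a)) := by
  obtain ⟨ha, hb⟩ := hx.pos ht
  obtain ⟨h1, h2, h3, h4⟩ := hx
  have hw : 0 < θ - θ' := by linarith
  have hs1 : 1 / 5 * x.a ≤ φ * x.a := mul_le_mul_of_nonneg_right hφ ha.le
  have hs2 : φ * x.a ≤ 4 / 5 * x.a := mul_le_mul_of_nonneg_right hφ' ha.le
  have hs3 : (1 - φ) * x.a = x.a - φ * x.a := by ring
  obtain ⟨s, hs⟩ : ∃ s, s = φ * x.a := ⟨_, rfl⟩
  obtain ⟨r, hr⟩ : ∃ r, r = (1 - φ) * x.a := ⟨_, rfl⟩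
  rw [strips_sum, ← hs, ← hr]
  rw [← hs] at hs1 hs2 hs3
  rw [← hr] at hs3
  have hd1 := dpart_nonneg (s := s) hθ' hθ hb (by linarith)
  have hd2 := dpart_nonneg (s := r) hθ' hθ hb (by linarith)
  have hg := gpart_nonneg (θ' := θ') (θ := θ) ha
  have hm1 := mpart_nonneg (θ' := θ') (θ := θ) (a := x.a) (s := s) (by linarith)
  have hm2 := mpart_nonneg (θ' := θ') (θ := θ) (a := x.a) (s := r) (by linarith)
  by_cases hfar : 5 / 4 * θ < x.a / 5
  · have e1 : cst θ' θ x.a = 5 * x.a - 1 / 10 * θ' := by unfold cst; rw [if_pos hfar]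
    have key : ∀ y, 1 / 5 * x.a ≤ y → y ≤ 4 / 5 * x.a →
        pot θ' θ (y, x.b) ≤ 5 * y - 1 / 20 * θ' ∧
        5 * y - 1 / 20 * θ' - mpart θ' θ x.a y ≤ pot θ' θ (y, x.b) := by
      intro y hy hy'
      obtain ⟨p1, p2, p3⟩ := pot_far (θ' := θ') (θ := θ) (s := y) (b := x.b) hθ' hθ (by linarith)
      refine ⟨p1, ?_⟩
      by_cases hh : 5 / 4 * θ' ≤ y / 5
      · have h5 := p3 (hitR_of_le (by linarith) (by linarith) hh)
        have h6 := mpart_nonneg (θ' := θ') (θ := θ) (a := x.a) (s := y) (by linarith)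
        linarith
      · have h6 : mpart θ' θ x.a y = 5 * y := by
          unfold mpart
          rw [if_pos]
          constructor
          · push Not at hh
            linarith
          · linarith
        rw [h6]
        linarith
    obtain ⟨k1, k2⟩ := key s hs1 hs2
    obtain ⟨k3, k4⟩ := key r (by linarith) (by linarith)
    rw [e1, abs_le]
    constructor <;> linarith
  · have e1 : cst θ' θ x.a = 0 := by unfold cst; rw [if_neg hfar]
    rw [e1, sub_zero]
    have hnear : 4 / 25 * x.a ≤ θ := by push Not at hfar; linarith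
    have hp : ∀ y, 0 < y → 0 ≤ pot θ' θ (y, x.b) := by
      intro y hy
      unfold pot ms
      dsimp only
      split_ifs
      · exact le_rfl
      · positivity
      · exact fhit_nonneg hθ'.le
    have hp1 := hp s (by linarith)
    have hp2 := hp r (by linarith)
    rw [abs_of_nonneg (by linarith)]
    -- each potential is direct part or chain part
    have hsplit : ∀ y, 0 < y → pot θ' θ (y, x.b) ≤ dpart θ' θ x.b y ∨
        (5 / 4 * θ' ≤ y ∧ pot θ' θ (y, x.b) ≤ 5 * y) := by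
      intro y hy
      have hd := dpart_nonneg (s := y) hθ' hθ hb hy
      by_cases h5 : y ≤ θ'
      · left
        have : pot θ' θ (y, x.b) = 0 := by simp only [pot, h5, if_true]
        rw [this]
        exact hd
      by_cases h6 : y ≤ θ
      · left
        have : pot θ' θ (y, x.b) = dpart θ' θ x.b y := by
          have h7 : θ' < y ∧ y ≤ θ := ⟨by push Not at h5; exact h5, h6⟩
          simp only [pot, dpart, h5, h6, h7, ms, if_true, if_false, and_self]
        rw [this]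
      have e2 : pot θ' θ (y, x.b) = fhit θ' y x.b := by simp only [pot, h5, h6, if_false]
      have e3 := fhit_le (θ' := θ') (p := y) (r := x.b) hθ'.le
      by_cases h7 : 5 / 4 * θ' ≤ y
      · right
        refine ⟨h7, ?_⟩
        have : fch θ' y = 5 * y - 1 / 20 * θ' := by unfold fch; rw [if_pos h7]
        linarith
      · left
        have : fch θ' y = 0 := by unfold fch; rw [if_neg h7]
        linarith
    have hgv : θ' ≤ 16 / 25 * x.a → gpart θ' θ x.a = 5 * x.a := by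
      intro h5
      unfold gpart
      rw [if_pos ⟨hnear, h5⟩]
    rcases hsplit s (by linarith) with h5 | ⟨h5, h5'⟩ <;>
      rcases hsplit r (by linarith) with h6 | ⟨h6, h6'⟩
    · linarith
    · have := hgv (by linarith)
      linarith
    · have := hgv (by linarith)
      linarith
    · have := hgv (by linarith)
      linarith

theorem win_unique {q s : ℝ} (hq : 0 < q) {i j : ℕ} (hi : 0 < i) (hj : 0 < j)
    (h1 : th q (i + 1) < s) (h2 : s ≤ th q i) (h3 : th q (j + 1) < s) (h4 : s ≤ th q j) : i = j := by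
  rcases lt_trichotomy i j with h | h | h
  · have := th_anti hq (Nat.succ_pos i) (Nat.succ_le_of_lt h)
    linarith
  · exact h
  · have := th_anti hq (Nat.succ_pos j) (Nat.succ_le_of_lt h)
    linarith

theorem dpart_sum {q b s C : ℝ} (hq : 0 < q) (hs : 0 < s) (hb : 0 ≤ b) (hC : 0 ≤ C) (J : Finset ℕ)
    (hJ : ∀ j ∈ J, 0 < j)
    (h : ∀ j : ℕ, 0 < j → (j : ℝ) ^ 3 * s ≤ q → (b + 4 / 5 * s) * (((j : ℝ) + 1) / 3) ≤ C) :
    ∑ j ∈ J, dpart (th q (j + 1)) (th q j) b s ≤ C := by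
  by_cases h1 : ∃ j ∈ J, th q (j + 1) < s ∧ s ≤ th q j
  · obtain ⟨j, hj, h2, h3⟩ := h1
    have hj0 := hJ j hj
    rw [Finset.sum_eq_single j]
    · unfold dpart
      rw [if_pos ⟨h2, h3⟩]
      have h4 := th_width hq hj0
      have h5 : (j : ℝ) ^ 3 * s ≤ q := by
        unfold th at h3
        have : (0 : ℝ) < (j : ℝ) ^ 3 := by
          have : (0 : ℝ) < j := by exact_mod_cast hj0
          positivity
        rw [le_div_iff₀ this] at h3
        linarith
      refine le_trans ?_ (h j hj0 h5)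
      rw [mul_div_assoc]
      exact mul_le_mul_of_nonneg_left h4 (by positivity)
    · intro i hi hij
      unfold dpart
      rw [if_neg]
      rintro ⟨h4, h5⟩
      exact hij (win_unique hq (hJ i hi) hj0 h4 h5 h2 h3)
    · intro h4
      exact absurd hj h4
  · rw [Finset.sum_eq_zero]
    · exact hC
    · intro j hj
      unfold dpart
      rw [if_neg]
      intro h2
      exact h1 ⟨j, hj, h2⟩

theorem gpart_sum {q a κ : ℝ} (hq : 0 < q) (ha : 0 < a) (hκ : 0 < κ) (hκq : κ ^ 3 * a = q) (J : Finset ℕ)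
    (hJ : ∀ j ∈ J, 0 < j) :
    ∑ j ∈ J, gpart (th q (j + 1)) (th q j) a ≤ 5 * a * (3409 / 5000 * κ + 2) := by
  unfold gpart
  rw [← Finset.sum_filter, Finset.sum_const, nsmul_eq_mul, mul_comm]
  apply mul_le_mul_of_nonneg_left _ (by positivity)
  obtain ⟨N, hN⟩ : ∃ N : ℕ, ∀ j ∈ J, j < N := ⟨J.sup id + 1, fun j hj =>
    Nat.lt_succ_of_le (Finset.le_sup (f := id) hj)⟩
  have hcard : (J.filter (fun j => 4 / 25 * a ≤ th q j ∧ th q (j + 1) ≤ 16 / 25 * a)).card ≤
      ((Finset.range N).filter (fun m : ℕ => 11603 / 10000 * κ - 1 < (m : ℝ) ∧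
        (m : ℝ) ≤ 18421 / 10000 * κ)).card := by
    apply Finset.card_le_card
    intro j hj
    rw [Finset.mem_filter] at hj ⊢
    obtain ⟨hj1, hj2, hj3⟩ := hj
    have hj0 : (0 : ℝ) < j := by exact_mod_cast hJ j hj1
    refine ⟨Finset.mem_range.2 (hN j hj1), ?_, ?_⟩
    · have h1 : κ ^ 3 ≤ 16 / 25 * ((j : ℝ) + 1) ^ 3 := by
        unfold th at hj3
        push_cast at hj3
        rw [div_le_iff₀ (by positivity), ← hκq] at hj3
        have h2 : κ ^ 3 * a ≤ 16 / 25 * ((j : ℝ) + 1) ^ 3 * a := by linarith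
        exact le_of_mul_le_mul_right h2 ha
      have h3 : (11603 / 10000 * κ) ^ 3 < ((j : ℝ) + 1) ^ 3 := by
        have : 0 < κ ^ 3 := by positivity
        nlinarith
      have := lt_of_pow_lt_pow_left₀ 3 (by positivity) h3
      linarith
    · have h1 : (j : ℝ) ^ 3 ≤ 25 / 4 * κ ^ 3 := by
        unfold th at hj2
        rw [le_div_iff₀ (by positivity), ← hκq] at hj2
        have h2 : (j : ℝ) ^ 3 * a ≤ 25 / 4 * κ ^ 3 * a := by linarith
        exact le_of_mul_le_mul_right h2 ha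
      have h3 : (j : ℝ) ^ 3 ≤ (18421 / 10000 * κ) ^ 3 := by
        have : 0 < κ ^ 3 := by positivity
        nlinarith
      exact le_of_pow_le_pow_left₀ (by norm_num) (by positivity) h3
  have h1 := card_interval N (11603 / 10000 * κ - 1) (18421 / 10000 * κ) (by linarith)
  have h2 : ((J.filter (fun j => 4 / 25 * a ≤ th q j ∧ th q (j + 1) ≤ 16 / 25 * a)).card : ℝ) ≤
      (((Finset.range N).filter (fun m : ℕ => 11603 / 10000 * κ - 1 < (m : ℝ) ∧
        (m : ℝ) ≤ 18421 / 10000 * κ)).card : ℝ) := by exact_mod_cast hcard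
  linarith


theorem mpart_sum {q a s κ κs : ℝ} (hq : 0 < q) (ha : 0 < a) (hκ : 0 < κ) (hκq : κ ^ 3 * a = q)
    (hs : 0 < s) (hκs : 0 < κs) (hκsq : κs ^ 3 * s = q) (hsa : s ≤ 4 / 5 * a) (hκ4 : 4000 ≤ κ)
    (J : Finset ℕ) (hJ : ∀ j ∈ J, 0 < j) :
    ∑ j ∈ J, mpart (th q (j + 1)) (th q j) a s ≤ 1366 / 1000 * (a * κ) := by
  -- comparison of the two cube roots
  have hκκ : 107 / 100 * κ ≤ κs := by
    have h1 : (107 / 100 * κ) ^ 3 * s ≤ κs ^ 3 * s := by
      rw [hκsq, ← hκq]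
      have h2 : 0 < κ ^ 3 := by positivity
      have h3 : κ ^ 3 * s ≤ κ ^ 3 * (4 / 5 * a) := mul_le_mul_of_nonneg_left hsa h2.le
      have h4 : 0 < κ ^ 3 * a := by positivity
      calc (107 / 100 * κ) ^ 3 * s = (107 / 100) ^ 3 * (κ ^ 3 * s) := by ring
        _ ≤ (107 / 100) ^ 3 * (κ ^ 3 * (4 / 5 * a)) := mul_le_mul_of_nonneg_left h3 (by norm_num)
        _ = ((107 / 100) ^ 3 * (4 / 5)) * (κ ^ 3 * a) := by ring
        _ ≤ 1 * (κ ^ 3 * a) := mul_le_mul_of_nonneg_right (by norm_num) h4.le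
        _ = κ ^ 3 * a := one_mul _
    exact le_of_pow_le_pow_left₀ (by norm_num) hκs.le (le_of_mul_le_mul_right h1 hs)
  have hcount : ∑ j ∈ J, mpart (th q (j + 1)) (th q j) a s ≤
      5 * s * (18421 / 10000 * κs - 1842 / 1000 * κ) := by
    unfold mpart
    rw [← Finset.sum_filter, Finset.sum_const, nsmul_eq_mul, mul_comm]
    apply mul_le_mul_of_nonneg_left _ (by positivity)
    obtain ⟨N, hN⟩ : ∃ N : ℕ, ∀ j ∈ J, j < N := ⟨J.sup id + 1, fun j hj =>
      Nat.lt_succ_of_le (Finset.le_sup (f := id) hj)⟩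
    have hcard : (J.filter (fun j => 4 / 25 * s ≤ th q (j + 1) ∧ th q j ≤ 4 / 25 * a)).card ≤
        ((Finset.range N).filter (fun m : ℕ => 1842 / 1000 * κ < (m : ℝ) ∧
          (m : ℝ) ≤ 18421 / 10000 * κs - 1)).card := by
      apply Finset.card_le_card
      intro j hj
      rw [Finset.mem_filter] at hj ⊢
      obtain ⟨hj1, hj2, hj3⟩ := hj
      have hj0 : (0 : ℝ) < j := by exact_mod_cast hJ j hj1
      refine ⟨Finset.mem_range.2 (hN j hj1), ?_, ?_⟩
      · have h1 : 25 / 4 * κ ^ 3 ≤ (j : ℝ) ^ 3 := by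
          unfold th at hj3
          rw [div_le_iff₀ (by positivity), ← hκq] at hj3
          have h2 : 25 / 4 * κ ^ 3 * a ≤ (j : ℝ) ^ 3 * a := by linarith
          exact le_of_mul_le_mul_right h2 ha
        have h3 : (1842 / 1000 * κ) ^ 3 < (j : ℝ) ^ 3 := by
          have : 0 < κ ^ 3 := by positivity
          nlinarith
        exact lt_of_pow_lt_pow_left₀ 3 (by positivity) h3
      · have h1 : ((j : ℝ) + 1) ^ 3 ≤ 25 / 4 * κs ^ 3 := by
          unfold th at hj2
          push_cast at hj2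
          rw [le_div_iff₀ (by positivity), ← hκsq] at hj2
          have h2 : ((j : ℝ) + 1) ^ 3 * s ≤ 25 / 4 * κs ^ 3 * s := by linarith
          exact le_of_mul_le_mul_right h2 hs
        have h3 : ((j : ℝ) + 1) ^ 3 ≤ (18421 / 10000 * κs) ^ 3 := by
          have : 0 < κs ^ 3 := by positivity
          nlinarith
        have := le_of_pow_le_pow_left₀ (by norm_num) (by positivity) h3
        linarith
    have h1 := card_interval N (1842 / 1000 * κ) (18421 / 10000 * κs - 1) (by linarith)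
    have h2 : ((J.filter (fun j => 4 / 25 * s ≤ th q (j + 1) ∧ th q j ≤ 4 / 25 * a)).card : ℝ) ≤
        (((Finset.range N).filter (fun m : ℕ => 1842 / 1000 * κ < (m : ℝ) ∧
          (m : ℝ) ≤ 18421 / 10000 * κs - 1)).card : ℝ) := by exact_mod_cast hcard
    linarith
  refine hcount.trans ?_
  -- s (κs - κ) ≤ 4/27 a κ
  obtain ⟨y, hy⟩ : ∃ y, y = κ / κs := ⟨_, rfl⟩
  have hy0 : 0 < y := by rw [hy]; positivity
  have hκy : κ = y * κs := by rw [hy]; field_simp
  have hsy : s = a * y ^ 3 := by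
    have h1 : κs ^ 3 * s = κs ^ 3 * (a * y ^ 3) := by
      rw [hκsq, ← hκq, hκy]
      ring
    exact mul_left_cancel₀ (by positivity) h1
  have h1 : s * κs = a * κ * y ^ 2 := by
    rw [hsy, hκy]
    ring
  have h2 : s * κ = a * κ * y ^ 3 := by
    rw [hsy]
    ring
  have h3 : y ^ 2 - y ^ 3 ≤ 4 / 27 := by
    nlinarith [mul_nonneg (sq_nonneg (y - 2 / 3)) (by linarith : (0 : ℝ) ≤ y + 1 / 3)]
  have hy1 : y ≤ 1 := by
    rw [hy, div_le_one hκs]
    linarith
  have h4 : y ^ 2 ≤ 1 := pow_le_one₀ hy0.le hy1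
  have h5 : 0 < a * κ := by positivity
  calc 5 * s * (18421 / 10000 * κs - 1842 / 1000 * κ) =
      (a * κ) * (921 / 100 * (y ^ 2 - y ^ 3) + 5 / 10000 * y ^ 2) := by
        have e : 5 * s * (18421 / 10000 * κs - 1842 / 1000 * κ) =
          18421 / 2000 * (s * κs) - 921 / 100 * (s * κ) := by ring
        rw [e, h1, h2]
        ring
    _ ≤ (a * κ) * (1366 / 1000) := mul_le_mul_of_nonneg_left (by linarith) h5.le
    _ = 1366 / 1000 * (a * κ) := by ring

/-- one strip, general -/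
theorem strip_dir' {q a κ b s ρ c σ : ℝ} (ha : 0 < a) (hκ : 0 < κ) (hκq : κ ^ 3 * a = q)
    (hb0 : 0 ≤ b) (hρ : 0 < ρ) (hs : ρ * a ≤ s) (hs' : s ≤ σ * a) (hc : 0 ≤ c)
    (hcub : 1 ≤ c ^ 3 * ρ) (j : ℕ) (hj : 0 < j) (hjs : (j : ℝ) ^ 3 * s ≤ q) :
    (b + 4 / 5 * s) * (((j : ℝ) + 1) / 3) ≤ (b + 4 / 5 * (σ * a)) * ((c * κ + 1) / 3) := by
  have hj0 : (0 : ℝ) < j := by exact_mod_cast hj
  have hs0 : 0 < s := lt_of_lt_of_le (by positivity) hs
  have h1 : (j : ℝ) ≤ c * κ := by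
    have h2 : (j : ℝ) ^ 3 * ρ ≤ κ ^ 3 := by
      have h3 : (j : ℝ) ^ 3 * ρ * a ≤ κ ^ 3 * a := by
        rw [hκq]
        calc (j : ℝ) ^ 3 * ρ * a = (j : ℝ) ^ 3 * (ρ * a) := by ring
          _ ≤ (j : ℝ) ^ 3 * s := mul_le_mul_of_nonneg_left hs (by positivity)
          _ ≤ q := hjs
      exact le_of_mul_le_mul_right h3 ha
    have h3 : (j : ℝ) ^ 3 ≤ (c * κ) ^ 3 := by
      calc (j : ℝ) ^ 3 = (j : ℝ) ^ 3 * 1 := by ring
        _ ≤ (j : ℝ) ^ 3 * (c ^ 3 * ρ) := mul_le_mul_of_nonneg_left hcub (by positivity)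
        _ = c ^ 3 * ((j : ℝ) ^ 3 * ρ) := by ring
        _ ≤ c ^ 3 * κ ^ 3 := mul_le_mul_of_nonneg_left h2 (by positivity)
        _ = (c * κ) ^ 3 := by ring
    exact le_of_pow_le_pow_left₀ (by norm_num) (by positivity) h3
  have h2 : b + 4 / 5 * s ≤ b + 4 / 5 * (σ * a) := by linarith
  exact mul_le_mul h2 (by linarith) (by positivity) (by linarith)

/-- total weight of one cut -/
theorem weight_total {q φ C : ℝ} (hq : 0 < q) {x : EP} (hx : x.Ok) (ht : 0 < x.t)
    (ha4 : x.a * 4000 ^ 3 ≤ q) (hC : 0 < C) (hCx : (x.b + 67 / 10 * x.a) ^ 3 * q ≤ C ^ 3 * x.a)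
    (hφ : 1 / 5 ≤ φ) (hφ' : φ ≤ 4 / 5) (J : Finset ℕ) (hJ : ∀ j ∈ J, 4000 ≤ j) :
    ∑ j ∈ J, |((x.strips φ).map (pot (th q (j + 1)) (th q j))).sum -
      cst (th q (j + 1)) (th q j) x.a| < C := by
  obtain ⟨ha, hb⟩ := hx.pos ht
  have hJ0 : ∀ j ∈ J, 0 < j := fun j hj => lt_of_lt_of_le (by norm_num) (hJ j hj)
  have hroot : ∀ y : ℝ, 0 < y → ∃ κ : ℝ, 0 < κ ∧ κ ^ 3 * y = q := by
    intro y hy
    refine ⟨(q / y) ^ ((1 : ℝ) / 3), by positivity, ?_⟩
    rw [← Real.rpow_natCast, ← Real.rpow_mul (by positivity)]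
    norm_num
    field_simp
  obtain ⟨κ, hκ, hκq⟩ := hroot x.a ha
  have hκ4 : 4000 ≤ κ := by
    have h1 : (4000 : ℝ) ^ 3 * x.a ≤ κ ^ 3 * x.a := by rw [hκq]; linarith
    exact le_of_pow_le_pow_left₀ (by norm_num) hκ.le (le_of_mul_le_mul_right h1 ha)
  have hsum : ∑ j ∈ J, |((x.strips φ).map (pot (th q (j + 1)) (th q j))).sum -
      cst (th q (j + 1)) (th q j) x.a| ≤
      ∑ j ∈ J, (dpart (th q (j + 1)) (th q j) x.b (φ * x.a) +
        dpart (th q (j + 1)) (th q j) x.b ((1 - φ) * x.a) + gpart (th q (j + 1)) (th q j) x.a +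
        (mpart (th q (j + 1)) (th q j) x.a (φ * x.a) +
          mpart (th q (j + 1)) (th q j) x.a ((1 - φ) * x.a))) := by
    apply Finset.sum_le_sum
    intro j hj
    exact weight_split hx ht (th_pos hq (Nat.succ_pos j)) (th_lt hq (hJ0 j hj) (Nat.lt_succ_self j))
      hφ hφ'
  refine lt_of_le_of_lt hsum ?_
  rw [Finset.sum_add_distrib, Finset.sum_add_distrib, Finset.sum_add_distrib,
    Finset.sum_add_distrib]
  have hs1 : 1 / 5 * x.a ≤ φ * x.a := mul_le_mul_of_nonneg_right hφ ha.le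
  have hs2 : φ * x.a ≤ 4 / 5 * x.a := mul_le_mul_of_nonneg_right hφ' ha.le
  have hs3 : (1 - φ) * x.a = x.a - φ * x.a := by ring
  have hsmall : ∀ s, 1 / 5 * x.a ≤ s → s ≤ 1 / 2 * x.a →
      ∑ j ∈ J, dpart (th q (j + 1)) (th q j) x.b s ≤
        (x.b + 4 / 5 * (1 / 2 * x.a)) * ((171 / 100 * κ + 1) / 3) := by
    intro s hs hs'
    refine dpart_sum hq (by linarith) hb.le (by positivity) J hJ0 (fun j hj hjs => ?_)
    exact strip_dir' ha hκ hκq hb.le (by norm_num) hs hs' (by norm_num) (by norm_num) j hj hjs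
  have hlarge : ∀ s, 1 / 2 * x.a ≤ s → s ≤ 4 / 5 * x.a →
      ∑ j ∈ J, dpart (th q (j + 1)) (th q j) x.b s ≤
        (x.b + 4 / 5 * (4 / 5 * x.a)) * ((126 / 100 * κ + 1) / 3) := by
    intro s hs hs'
    refine dpart_sum hq (by linarith) hb.le (by positivity) J hJ0 (fun j hj hjs => ?_)
    exact strip_dir' ha hκ hκq hb.le (by norm_num) hs hs' (by norm_num) (by norm_num) j hj hjs
  have hd : ∑ j ∈ J, dpart (th q (j + 1)) (th q j) x.b (φ * x.a) +
      ∑ j ∈ J, dpart (th q (j + 1)) (th q j) x.b ((1 - φ) * x.a) ≤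
      (x.b + 4 / 5 * (1 / 2 * x.a)) * ((171 / 100 * κ + 1) / 3) +
      (x.b + 4 / 5 * (4 / 5 * x.a)) * ((126 / 100 * κ + 1) / 3) := by
    rcases le_total φ (1 / 2) with h | h
    · have h0 : φ * x.a ≤ 1 / 2 * x.a := mul_le_mul_of_nonneg_right h ha.le
      have h5 := hsmall (φ * x.a) (by linarith) h0
      have h6 := hlarge ((1 - φ) * x.a) (by linarith) (by linarith)
      linarith
    · have h0 : 1 / 2 * x.a ≤ φ * x.a := mul_le_mul_of_nonneg_right h ha.le
      have h5 := hsmall ((1 - φ) * x.a) (by linarith) (by linarith)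
      have h6 := hlarge (φ * x.a) h0 (by linarith)
      linarith
  have hg := gpart_sum hq ha hκ hκq J hJ0
  have hm : ∀ s, 1 / 5 * x.a ≤ s → s ≤ 4 / 5 * x.a →
      ∑ j ∈ J, mpart (th q (j + 1)) (th q j) x.a s ≤ 1366 / 1000 * (x.a * κ) := by
    intro s hs hs'
    obtain ⟨κs, hκs, hκsq⟩ := hroot s (by linarith)
    exact mpart_sum hq ha hκ hκq (by linarith) hκs hκsq hs' hκ4 J hJ0
  have hm1 := hm (φ * x.a) hs1 hs2
  have hm2 := hm ((1 - φ) * x.a) (by linarith) (by linarith)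
  have hCκ : (x.b + 67 / 10 * x.a) * κ ≤ C := by
    have h1 : ((x.b + 67 / 10 * x.a) * κ) ^ 3 * x.a ≤ C ^ 3 * x.a := by
      calc ((x.b + 67 / 10 * x.a) * κ) ^ 3 * x.a = (x.b + 67 / 10 * x.a) ^ 3 * (κ ^ 3 * x.a) := by ring
        _ ≤ C ^ 3 * x.a := by rw [hκq]; exact hCx
    exact le_of_pow_le_pow_left₀ (by norm_num) hC.le (le_of_mul_le_mul_right h1 ha)
  have h7 : x.a * 4000 ≤ x.a * κ := mul_le_mul_of_nonneg_left hκ4 ha.le
  have h8 : x.b * 4000 ≤ x.b * κ := mul_le_mul_of_nonneg_left hκ4 hb.le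
  have h9 : 0 < x.b * κ := mul_pos hb hκ
  have h10 : 0 < x.a * κ := mul_pos ha hκ
  nlinarith

theorem P_flatMap {α : Type} (q : ℝ) (j : ℕ) (l : List α) (f : α → List (ℝ × ℝ)) :
    P q j (l.flatMap f) = (l.map (fun z => ((f z).map (pot (th q (j + 1)) (th q j))).sum)).sum := by
  unfold P
  induction l with
  | nil => rfl
  | cons a l ih => rw [List.flatMap_cons, List.map_append, List.sum_append, ih, List.map_cons, List.sum_cons]

theorem zip_ofFn {α β : Type} (L : List α) (φ : Fin L.length → β) :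
    L.zip (List.ofFn φ) = List.ofFn (fun i : Fin L.length => (L.get i, φ i)) := by
  apply List.ext_getElem
  · simp
  · intro i h1 h2
    simp

theorem sum_get {α : Type} (L : List α) (f : α → ℝ) :
    (L.map f).sum = ∑ i : Fin L.length, f (L.get i) := by
  rw [← List.sum_ofFn]
  congr 1
  apply List.ext_getElem
  · simp
  · intro i h1 h2
    simp

theorem exists_far {q : ℝ} (hq : 0 < q) (L : List EP) (hL : ∀ x ∈ L, 0 < x.a) :
    ∃ N : ℕ, ∀ x ∈ L, ∀ j, N ≤ j → 5 / 4 * th q j < x.a / 5 := by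
  induction L with
  | nil => exact ⟨0, fun x hx => absurd hx (by simp)⟩
  | cons y L ih =>
    obtain ⟨N, hN⟩ := ih (fun x hx => hL x (List.mem_cons_of_mem _ hx))
    have hy := hL y (by simp)
    obtain ⟨N', hN'⟩ := exists_nat_gt (25 / 4 * q / y.a)
    refine ⟨max N (N' + 1), fun x hx j hj => ?_⟩
    rcases List.mem_cons.1 hx with rfl | hx
    · have h1 : (N' : ℝ) + 1 ≤ j := by
        have := (le_max_right N (N' + 1)).trans hj
        exact_mod_cast this
      have hj0 : (0 : ℝ) < j := by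
        have : (0 : ℝ) ≤ (N' : ℝ) := Nat.cast_nonneg _
        linarith
      have hj1 : (1 : ℝ) ≤ j := by
        have : (0 : ℝ) ≤ (N' : ℝ) := Nat.cast_nonneg _
        linarith
      have h2 : 25 / 4 * q / x.a < j := by linarith
      rw [div_lt_iff₀ hy] at h2
      have h3 : (j : ℝ) ≤ (j : ℝ) ^ 3 := by
        have h4 : (0 : ℝ) ≤ (j : ℝ) * ((j : ℝ) - 1) * ((j : ℝ) + 1) :=
          mul_nonneg (mul_nonneg hj0.le (by linarith)) (by linarith)
        nlinarith
      unfold th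
      rw [mul_div_assoc', div_lt_div_iff₀ (by positivity) (by norm_num)]
      have h5 : (j : ℝ) * x.a ≤ (j : ℝ) ^ 3 * x.a := mul_le_mul_of_nonneg_right h3 hy.le
      linarith
    · exact hN x hx j ((le_max_left _ _).trans hj)

/-- CUTTING END PIECES, general form -/
theorem cut_gen (q : ℝ) (hq : 0 < q) (k1 : ℕ) (hk1 : 4000 ≤ k1) (C : ℝ) (hC : 0 < C)
    (L : List EP) (hL : ∀ x ∈ L, x.Ok ∧ 0 < x.t ∧ x.a * 4000 ^ 3 ≤ q ∧
      (x.b + 67 / 10 * x.a) ^ 3 * q ≤ C ^ 3 * x.a) :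
    ∃ φ : List ℝ, φ.length = L.length ∧ (∀ y ∈ φ, 1 / 5 ≤ y ∧ y ≤ 4 / 5) ∧
      ∀ j, k1 ≤ j → P q j ((L.zip φ).flatMap (fun z => z.1.strips z.2)) ≤
        (L.map (fun x => rel (th q (j + 1)) x)).sum + 2 * C := by
  obtain ⟨NF, hNF⟩ := exists_far hq L (fun x hx => ((hL x hx).1.pos (hL x hx).2.1).1)
  obtain ⟨J, hJd⟩ : ∃ J : Finset ℕ, J = Finset.Ico k1 (max k1 NF) := ⟨_, rfl⟩
  have hJ : ∀ j ∈ J, 4000 ≤ j := by
    intro j hj
    rw [hJd, Finset.mem_Ico] at hj
    omega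
  have hJ0 : ∀ j ∈ J, 0 < j := fun j hj => lt_of_lt_of_le (by norm_num) (hJ j hj)
  have hd : ∀ j, 0 < j → 0 < th q j - th q (j + 1) := by
    intro j hj
    linarith [th_lt hq hj (Nat.lt_succ_self j)]
  have hane : ∀ i : Fin L.length, (L.get i).a ≤ ∑ i : Fin L.length, (L.get i).a := fun i =>
    Finset.single_le_sum (f := fun i : Fin L.length => (L.get i).a)
      (fun i _ => ((hL _ (List.get_mem L i)).1.pos (hL _ (List.get_mem L i)).2.1).1.le) (Finset.mem_univ i)
  obtain ⟨A0, hA0, hA1⟩ : ∃ A0 : ℝ, 0 ≤ A0 ∧ ∀ i : Fin L.length, (L.get i).a ≤ A0 :=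
    ⟨_, Finset.sum_nonneg (fun i _ => ((hL _ (List.get_mem L i)).1.pos (hL _ (List.get_mem L i)).2.1).1.le), hane⟩
  -- number of cuts
  obtain ⟨M, hM0, hM⟩ : ∃ M : ℕ, 0 < M ∧ ∀ j ∈ J, 1000 * A0 ≤ M * (th q j - th q (j + 1)) := by
    obtain ⟨M, hM⟩ := exists_nat_ge (∑ j ∈ J, 1000 * A0 / (th q j - th q (j + 1)))
    refine ⟨M + 1, Nat.succ_pos M, fun j hj => ?_⟩
    have h0 : ∀ i ∈ J, 0 ≤ 1000 * A0 / (th q i - th q (i + 1)) := by
      intro i hi
      have h1 := hd i (hJ0 i hi)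
      positivity
    have h1 := Finset.single_le_sum h0 hj
    have h2 : 1000 * A0 / (th q j - th q (j + 1)) ≤ ((M + 1 : ℕ) : ℝ) := by
      push_cast
      linarith
    rwa [div_le_iff₀ (hd j (hJ0 j hj))] at h2
  have hMr : (0 : ℝ) < M := by exact_mod_cast hM0
  have hLi := fun i : Fin L.length => hL _ (List.get_mem L i)
  -- the weights
  obtain ⟨A, hA⟩ : ∃ A : ℕ → Fin L.length → ℕ → ℝ, A = fun j i m =>
    (((L.get i).strips (phi M m)).map (pot (th q (j + 1)) (th q j))).sum := ⟨_, rfl⟩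
  obtain ⟨c, hc⟩ : ∃ c : ℕ → Fin L.length → ℝ, c = fun j i =>
    cst (th q (j + 1)) (th q j) (L.get i).a := ⟨_, rfl⟩
  have htot : ∀ i, ∀ m < M, ∑ j ∈ J, |A j i m - c j i| < C := by
    intro i m hm
    obtain ⟨h1, h2⟩ := phi_mem hm
    rw [hA, hc]
    exact weight_total hq (hLi i).1 (hLi i).2.1 (hLi i).2.2.1 hC (hLi i).2.2.2 h1 h2 J hJ
  obtain ⟨x', hx1, -, hx2, hx3⟩ := Mos41.beckFialaS (ι := Fin L.length × Fin M) (γ := Fin L.length)
    (κ := {j // j ∈ J}) (fun v => v.1) (fun j v => A j.1 v.1 v.2 - c j.1 v.1) (fun _ => 2 * C)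
    (fun _ => 2 * C) (fun _ => by positivity)
    (fun _ _ h => h.le)
    (by
      intro v
      rw [← Finset.sum_div, Finset.sum_coe_sort J (fun j => |A j v.1 v.2 - c j v.1|),
        div_lt_div_iff₀ (by positivity) (by norm_num)]
      have := htot v.1 v.2 v.2.2
      linarith)
    (fun _ => 1 / (M : ℝ))
    (by
      intro v
      refine ⟨by positivity, ?_⟩
      rw [div_le_one hMr]
      exact_mod_cast hM0)
    (by
      intro i
      refine ⟨1, ?_⟩
      rw [Finset.sum_filter, Fintype.sum_prod_type, Finset.sum_eq_single i]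
      · simp only [if_true, Finset.sum_const, Finset.card_univ, Fintype.card_fin, nsmul_eq_mul]
        push_cast
        field_simp
      · intro i' _ hi'
        simp only [hi', if_false, Finset.sum_const_zero]
      · intro h
        exact absurd (Finset.mem_univ i) h)
  -- the chosen cut of each piece
  have hgrp : ∀ i : Fin L.length, ∑ m : Fin M, x' (i, m) = 1 := by
    intro i
    have h1 := hx2 i
    rw [Finset.sum_filter, Fintype.sum_prod_type, Finset.sum_eq_single i] at h1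
    · rw [Finset.sum_filter, Fintype.sum_prod_type, Finset.sum_eq_single i] at h1
      · simp only [if_true, Finset.sum_const, Finset.card_univ, Fintype.card_fin, nsmul_eq_mul] at h1
        rw [h1]
        field_simp
      · intro i' _ hi'
        simp only [hi', if_false, Finset.sum_const_zero]
      · intro h
        exact absurd (Finset.mem_univ i) h
    · intro i' _ hi'
      simp only [hi', if_false, Finset.sum_const_zero]
    · intro h
      exact absurd (Finset.mem_univ i) h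
  have hch : ∀ i : Fin L.length, ∃ m : Fin M, ∀ F : Fin M → ℝ, ∑ m', F m' * x' (i, m') = F m := by
    intro i
    have h1 : ∃ m : Fin M, x' (i, m) = 1 := by
      by_contra hcon
      push Not at hcon
      have h2 : ∀ m : Fin M, x' (i, m) = 0 := fun m => (hx1 (i, m)).resolve_right (hcon m)
      have h3 := hgrp i
      rw [Finset.sum_eq_zero (fun m _ => h2 m)] at h3
      exact zero_ne_one h3
    obtain ⟨m, hm⟩ := h1
    have hz : ∀ m' : Fin M, m' ≠ m → x' (i, m') = 0 := by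
      intro m' hm'
      rcases hx1 (i, m') with h | h
      · exact h
      · exfalso
        have h2 : x' (i, m) + x' (i, m') ≤ ∑ m'' : Fin M, x' (i, m'') := by
          have h3 : ∑ m'' ∈ ({m, m'} : Finset (Fin M)), x' (i, m'') ≤ ∑ m'' : Fin M, x' (i, m'') := by
            apply Finset.sum_le_sum_of_subset_of_nonneg (Finset.subset_univ _)
            intro m'' _ _
            rcases hx1 (i, m'') with h | h <;> rw [h] <;> norm_num
          rwa [Finset.sum_pair hm'.symm] at h3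
        rw [hgrp i, hm, h] at h2
        norm_num at h2
    refine ⟨m, fun F => ?_⟩
    rw [Finset.sum_eq_single m]
    · rw [hm, mul_one]
    · intro m' _ hm'
      rw [hz m' hm', mul_zero]
    · intro h
      exact absurd (Finset.mem_univ m) h
  choose μ hμ using hch
  refine ⟨List.ofFn (fun i => phi M (μ i)), by simp, ?_, ?_⟩
  · intro y hy
    rw [List.mem_ofFn] at hy
    obtain ⟨i, rfl⟩ := hy
    exact phi_mem (μ i).2
  · intro j hj
    have hlist : P q j ((L.zip (List.ofFn (fun i => phi M (μ i)))).flatMap (fun z => z.1.strips z.2)) =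
        ∑ i, A j i (μ i) := by
      rw [zip_ofFn, P_flatMap, List.map_ofFn, List.sum_ofFn, hA]
      rfl
    rw [hlist, sum_get]
    by_cases hjJ : j ∈ J
    · -- near windows
      have h1 : ∑ i, A j i (μ i) = ∑ i, c j i + ∑ v : Fin L.length × Fin M, (A j v.1 v.2 - c j v.1) * x' v := by
        rw [Fintype.sum_prod_type, ← Finset.sum_add_distrib]
        refine Finset.sum_congr rfl (fun i _ => ?_)
        rw [hμ i (fun m => A j i m - c j i)]
        ring
      have h2 := hx3 ⟨j, hjJ⟩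
      rw [max_eq_left (by positivity)] at h2
      have h3 := (abs_le.1 h2).2
      have h4 : ∑ v : Fin L.length × Fin M, (A j v.1 v.2 - c j v.1) * x' v =
          ∑ v : Fin L.length × Fin M, (A j v.1 v.2 - c j v.1) * (x' v - 1 / M) +
          ∑ v : Fin L.length × Fin M, (A j v.1 v.2 - c j v.1) * (1 / M) := by
        rw [← Finset.sum_add_distrib]
        refine Finset.sum_congr rfl (fun v _ => ?_)
        ring
      have h5 : ∑ v : Fin L.length × Fin M, (A j v.1 v.2 - c j v.1) * (1 / M) + ∑ i, c j i ≤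
          ∑ i : Fin L.length, rel (th q (j + 1)) (L.get i) := by
        rw [Fintype.sum_prod_type, ← Finset.sum_add_distrib]
        apply Finset.sum_le_sum
        intro i _
        have h6 := chain_avg (th q (j + 1)) (th q j) M (L.get i) (hLi i).1 (hLi i).2.1
          (th_pos hq (Nat.succ_pos j))
          (th_lt hq (hJ0 j hjJ) (Nat.lt_succ_self j)) (th_ratio hq (hJ j hjJ))
          (by
            refine le_trans ?_ (hM j hjJ)
            have h7 := hA1 i
            linarith)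
        have h7 : ∑ m : Fin M, A j i m = ∑ m ∈ Finset.range M,
            (((L.get i).strips (phi M m)).map (pot (th q (j + 1)) (th q j))).sum := by
          rw [hA, Finset.sum_range]
        rw [← h7] at h6
        have h8 : ∑ m : Fin M, (A j i m - c j i) * (1 / M) + c j i = (∑ m : Fin M, A j i m) / M := by
          rw [← Finset.sum_mul, Finset.sum_sub_distrib]
          simp only [Finset.sum_const, Finset.card_univ, Fintype.card_fin, nsmul_eq_mul]
          field_simp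
          ring
        have h9 : (∑ m : Fin M, A j i m) / M ≤ rel (th q (j + 1)) (L.get i) := by
          rw [div_le_iff₀ hMr]
          linarith
        calc ∑ m : Fin M, (A j i m - c j i) * (1 / M) + c j i = (∑ m : Fin M, A j i m) / M := h8
          _ ≤ _ := h9
      have h6 : ∑ v : Fin L.length × Fin M, (A j v.1 v.2 - c j v.1) * (x' v - 1 / M) ≤ 2 * C := h3
      linarith
    · -- far windows
      have hj4 : NF ≤ j := by
        rw [hJd, Finset.mem_Ico] at hjJ
        have h1 : max k1 NF ≤ j := by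
          by_contra hcon
          exact hjJ ⟨hj, not_le.1 hcon⟩
        exact (le_max_right _ _).trans h1
      have h1 : ∑ i, A j i (μ i) ≤ ∑ i : Fin L.length, rel (th q (j + 1)) (L.get i) := by
        apply Finset.sum_le_sum
        intro i _
        obtain ⟨h2, h3⟩ := phi_mem (μ i).2
        rw [hA]
        exact chain_far (th q (j + 1)) (th q j) (phi M (μ i)) (L.get i) (hLi i).1 (hLi i).2.1
          (th_pos hq (Nat.succ_pos j)) (th_lt hq (by omega) (Nat.lt_succ_self j)) h2 h3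
          (hNF _ (List.get_mem L i) j hj4)
      linarith

/-- thin end pieces -/
theorem EP.Ok.weight {q : ℝ} (hq : 0 < q) {k0 : ℕ} (hk0 : 4000 ≤ k0) {x : EP} (h : x.Ok)
    (ht : 0 < x.t) (htk : x.t ≤ th q k0) :
    x.a * 4000 ^ 3 ≤ q ∧ (x.b + 67 / 10 * x.a) ^ 3 * q ≤ (8 * q / (k0 : ℝ) ^ 2) ^ 3 * x.a := by
  obtain ⟨h1, h2, h3, h4⟩ := h
  have hk0' : (4000 : ℝ) ≤ k0 := by exact_mod_cast hk0
  have hk3 : (0 : ℝ) < (k0 : ℝ) ^ 3 := by positivity
  have ht3 : x.t * (k0 : ℝ) ^ 3 ≤ q := by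
    unfold th at htk
    rwa [le_div_iff₀ hk3] at htk
  have ha : 0 < x.a := by linarith
  constructor
  · calc x.a * 4000 ^ 3 ≤ x.t * 4000 ^ 3 := mul_le_mul_of_nonneg_right h2 (by norm_num)
      _ ≤ x.t * (k0 : ℝ) ^ 3 := mul_le_mul_of_nonneg_left
        (pow_le_pow_left₀ (by norm_num) hk0' 3) ht.le
      _ ≤ q := ht3
  · have h5 : (x.b + 67 / 10 * x.a) ^ 3 ≤ 512 * (x.t ^ 2 * x.a) := by
      have h6 : x.b + 67 / 10 * x.a ≤ 6 / 5 * x.t + 67 / 10 * x.a := by linarith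
      have h7 : (x.b + 67 / 10 * x.a) ^ 3 ≤ (6 / 5 * x.t + 67 / 10 * x.a) ^ 3 :=
        pow_le_pow_left₀ (by linarith) h6 3
      refine h7.trans ?_
      have e0 : 0 ≤ x.t - x.a := by linarith
      have e1 : 0 ≤ 5 * x.a - x.t := by linarith
      nlinarith [mul_nonneg e0 e1, mul_nonneg (mul_nonneg e0 e1) ht.le, mul_nonneg (mul_nonneg e0 e1) ha.le,
        mul_nonneg (mul_nonneg e0 e0) ht.le, mul_nonneg (mul_nonneg e0 e0) ha.le,
        mul_nonneg (mul_nonneg e1 e1) ht.le, mul_nonneg (mul_nonneg e1 e1) ha.le]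
    have h8 : x.t ^ 2 * ((k0 : ℝ) ^ 2) ^ 3 ≤ q ^ 2 := by
      calc x.t ^ 2 * ((k0 : ℝ) ^ 2) ^ 3 = (x.t * (k0 : ℝ) ^ 3) ^ 2 := by ring
        _ ≤ q ^ 2 := pow_le_pow_left₀ (by positivity) ht3 2
    have hk6 : (0 : ℝ) < ((k0 : ℝ) ^ 2) ^ 3 := by positivity
    have e2 : (8 * q / (k0 : ℝ) ^ 2) ^ 3 * x.a = (8 * q) ^ 3 * x.a / ((k0 : ℝ) ^ 2) ^ 3 := by
      rw [div_pow]
      ring
    rw [e2, le_div_iff₀ hk6]
    calc (x.b + 67 / 10 * x.a) ^ 3 * q * ((k0 : ℝ) ^ 2) ^ 3
        ≤ 512 * (x.t ^ 2 * x.a) * q * ((k0 : ℝ) ^ 2) ^ 3 := by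
          apply mul_le_mul_of_nonneg_right _ hk6.le
          exact mul_le_mul_of_nonneg_right h5 hq.le
      _ = 512 * x.a * q * (x.t ^ 2 * ((k0 : ℝ) ^ 2) ^ 3) := by ring
      _ ≤ 512 * x.a * q * q ^ 2 := mul_le_mul_of_nonneg_left h8 (by positivity)
      _ = (8 * q) ^ 3 * x.a := by ring

/-- CUTTING ALL END PIECES OF A FRAME (second Beck–Fiala). -/
theorem cut_all (q : ℝ) (hq : 0 < q) (k0 k1 : ℕ) (hk0 : 4000 ≤ k0) (hk : k0 ≤ k1)
    (L : List EP) (hL : ∀ x ∈ L, x.Ok ∧ 0 < x.t ∧ x.t ≤ th q k0) :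
    ∃ φ : List ℝ, φ.length = L.length ∧ (∀ y ∈ φ, 1 / 5 ≤ y ∧ y ≤ 4 / 5) ∧
      ∀ j, k1 ≤ j → P q j ((L.zip φ).flatMap (fun z => z.1.strips z.2)) ≤
        (L.map (fun x => rel (th q (j + 1)) x)).sum + 16 * q / (k0 : ℝ) ^ 2 := by
  have hk0' : (4000 : ℝ) ≤ k0 := by exact_mod_cast hk0
  obtain ⟨φ, h1, h2, h3⟩ := cut_gen q hq k1 (hk0.trans hk) (8 * q / (k0 : ℝ) ^ 2) (by positivity) L
    (fun x hx => ⟨(hL x hx).1, (hL x hx).2.1, (hL x hx).1.weight hq hk0 (hL x hx).2.1 (hL x hx).2.2⟩)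
  refine ⟨φ, h1, h2, fun j hj => (h3 j hj).trans (le_of_eq ?_)⟩
  ring

end

end Pool.Agent.LibMoserT
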