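import Pool.Agent.LibMoserT.Defs
set_option autoImplicit false
namespace Pool.Agent.LibMoserT
open Pool.Agent.LibMoser5 Pool.Agent.LibMoserF Classical

noncomputable section

/-! The chain inequality in normalised form (lower window edge `1`). -/

/-- the grid of cuts -/
def phi (M m : ℕ) : ℝ := 1 / 5 + 3 / 5 * ((m : ℝ) + 1 / 2) / M

/-- normalised mass -/
def nm (w b t : ℝ) : ℝ := if 1 < t ∧ t ≤ 1 + w then (b + 4 / 5 * t) / w else 0

theorem nm_nonneg {w b t : ℝ} (hw : 0 < w) (hb : 0 ≤ b) : 0 ≤ nm w b t := by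
  unfold nm
  split_ifs with h
  · apply div_nonneg _ hw.le
    linarith [h.1]
  · exact le_rfl

theorem phi_mem {N m : ℕ} (hm : m < N) : 1 / 5 ≤ phi N m ∧ phi N m ≤ 4 / 5 := by
  have hN : (0 : ℝ) < N := by exact_mod_cast lt_of_le_of_lt (Nat.zero_le m) hm
  have h1 : (m : ℝ) + 1 ≤ N := by exact_mod_cast hm
  have h2 : ((m : ℝ) + 1 / 2) / N ≤ 1 := by
    rw [div_le_one hN]; linarith
  have h3 : 0 ≤ ((m : ℝ) + 1 / 2) / N := by positivity
  unfold phi
  rw [mul_div_assoc]
  constructor <;> linarith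

theorem phi_reflect {N m : ℕ} (hm : m < N) : phi N (N - 1 - m) = 1 - phi N m := by
  have hN : (0 : ℝ) < N := by exact_mod_cast lt_of_le_of_lt (Nat.zero_le m) hm
  have h1 : ((N - 1 - m : ℕ) : ℝ) = (N : ℝ) - 1 - m := by
    rw [Nat.cast_sub (by omega), Nat.cast_sub (by omega)]
    simp
  unfold phi
  rw [h1]
  field_simp
  ring

theorem sum_reflect_phi (N : ℕ) (F : ℝ → ℝ) :
    ∑ m ∈ Finset.range N, F (1 - phi N m) = ∑ m ∈ Finset.range N, F (phi N m) := by
  rw [← Finset.sum_range_reflect]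
  refine Finset.sum_congr rfl (fun m hm => ?_)
  rw [phi_reflect (Finset.mem_range.1 hm), sub_sub_cancel]

/-- the number of natural numbers `m < N` in a half-open interval -/
theorem card_interval (N : ℕ) (A B : ℝ) (hAB : A ≤ B) :
    (((Finset.range N).filter (fun m : ℕ => A < (m : ℝ) ∧ (m : ℝ) ≤ B)).card : ℝ) ≤ B - A + 1 := by
  have h1 : ((Finset.range N).filter (fun m : ℕ => A < (m : ℝ) ∧ (m : ℝ) ≤ B)).card ≤
      (Finset.Ioc ⌊A⌋ ⌊B⌋).card := by
    refine Finset.card_le_card_of_injOn (fun m : ℕ => (m : ℤ)) ?_ ?_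
    · intro m hm
      rw [Finset.mem_coe, Finset.mem_filter] at hm
      rw [Finset.mem_coe, Finset.mem_Ioc]
      refine ⟨?_, ?_⟩
      · rw [Int.floor_lt]
        exact_mod_cast hm.2.1
      · rw [Int.le_floor]
        exact_mod_cast hm.2.2
    · intro m _ m' _ h
      simpa using h
  have h2 : ((Finset.Ioc ⌊A⌋ ⌊B⌋).card : ℝ) ≤ B - A + 1 := by
    rw [Int.card_Ioc]
    have h3 : ⌊A⌋ ≤ ⌊B⌋ := Int.floor_le_floor hAB
    have h4 : (((⌊B⌋ - ⌊A⌋).toNat : ℕ) : ℝ) = (⌊B⌋ : ℝ) - ⌊A⌋ := by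
      have : (((⌊B⌋ - ⌊A⌋).toNat : ℕ) : ℤ) = ⌊B⌋ - ⌊A⌋ := Int.toNat_of_nonneg (by omega)
      have h5 : (((⌊B⌋ - ⌊A⌋).toNat : ℕ) : ℝ) = (((⌊B⌋ - ⌊A⌋).toNat : ℤ) : ℝ) := by norm_cast
      rw [h5, this]
      push_cast
      ring
    rw [h4]
    have h6 := Int.floor_le B
    have h7 := Int.lt_floor_add_one A
    linarith
  exact le_trans (by exact_mod_cast h1) h2

/-- direct mass (normalised: `θ = 1`) -/
theorem sum_nm_le {w a b : ℝ} {N : ℕ} (hw : 0 < w) (ha : 0 < a) (hb : 0 ≤ b) (hN : 0 < N) :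
    ∑ m ∈ Finset.range N, nm w b (phi N m * a) ≤
      (N * w * (5 / (3 * a)) + 1) * ((b + 4 / 5 * (1 + w)) / w) := by
  have hN' : (0 : ℝ) < N := by exact_mod_cast hN
  have hc : 0 ≤ (b + 4 / 5 * (1 + w)) / w := by positivity
  have h1 : ∀ m ∈ Finset.range N, nm w b (phi N m * a) ≤
      if (N * (1 / a - 1 / 5) * (5 / 3) - 1 / 2 < (m : ℝ) ∧
        (m : ℝ) ≤ N * ((1 + w) / a - 1 / 5) * (5 / 3) - 1 / 2) then (b + 4 / 5 * (1 + w)) / w else 0 := by
    intro m _
    unfold nm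
    by_cases h : 1 < phi N m * a ∧ phi N m * a ≤ 1 + w
    · rw [if_pos h, if_pos]
      · apply div_le_div_of_nonneg_right _ hw.le
        linarith [h.2]
      · obtain ⟨h2, h3⟩ := h
        have e1 : (1 : ℝ) / a < phi N m := by rwa [div_lt_iff₀ ha]
        have e2 : phi N m ≤ (1 + w) / a := by rw [le_div_iff₀ ha]; linarith
        have e3 : phi N m * N = N * (1 / 5) + 3 / 5 * ((m : ℝ) + 1 / 2) := by
          unfold phi
          field_simp
        constructor
        · have : 1 / a * N < phi N m * N := mul_lt_mul_of_pos_right e1 hN'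
          rw [e3] at this
          linarith
        · have : phi N m * N ≤ (1 + w) / a * N := mul_le_mul_of_nonneg_right e2 hN'.le
          rw [e3] at this
          linarith
    · rw [if_neg h]
      split_ifs
      · exact hc
      · exact le_rfl
  refine (Finset.sum_le_sum h1).trans ?_
  rw [← Finset.sum_filter, Finset.sum_const, nsmul_eq_mul]
  apply mul_le_mul_of_nonneg_right _ hc
  refine (card_interval N _ _ ?_).trans (le_of_eq ?_)
  · have : (1 : ℝ) / a ≤ (1 + w) / a := div_le_div_of_nonneg_right (by linarith) ha.le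
    nlinarith
  · field_simp
    ring

end

end Pool.Agent.LibMoserT
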