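import Pool.Agent.LibMoserT.FrameSrc
set_option autoImplicit false
/-!
# Facts on the potentials
-/
namespace Pool.Agent.LibMoserT
open Pool.Agent.LibMoser5 Pool.Agent.LibMoserF Classical

noncomputable section

theorem chC_pos : 0 < chC := by unfold chC; norm_num

theorem pot_nonneg {θ' θ : ℝ} (h : 0 < θ') (h' : θ' < θ) {x : ℝ × ℝ} (h1 : 0 ≤ x.1)
    (h2 : 6 / 5 * x.1 ≤ x.2) : 0 ≤ pot θ' θ x := by
  unfold pot ms
  have h3 : 0 < θ - θ' := by linarith
  have h4 : 0 ≤ x.2 := by linarith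
  split_ifs
  · exact le_rfl
  · positivity
  · exact fhit_nonneg h.le

theorem potC_nonneg {θ' θ : ℝ} {x : ℝ × ℝ} (h : 0 ≤ θ') : 0 ≤ potC θ' θ x := by
  unfold potC
  split_ifs
  · exact le_rfl
  · exact fch_nonneg h

/-- the mass of the rows of window `k` from the potential -/
theorem mass_win {q : ℝ} (hq : 0 < q) {k : ℕ} (hk : 1 ≤ k) (L : List (ℝ × ℝ))
    (hL : ∀ x ∈ L, 0 ≤ x.1 ∧ 6 / 5 * x.1 ≤ x.2) :
    ((L.filter (fun x => decide (th q (k + 1) < x.1 ∧ x.1 ≤ th q k))).map ms).sum ≤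
      P q k L * om q k := by
  have h0 : 0 < th q (k + 1) := th_pos hq (Nat.succ_pos k)
  have h1 : th q (k + 1) < th q k := th_lt hq (by omega) (Nat.lt_succ_self k)
  have h2 : 0 < th q k - th q (k + 1) := by linarith
  unfold P om
  rw [← sum_map_ite L (fun x => th q (k + 1) < x.1 ∧ x.1 ≤ th q k) ms, ← List.sum_map_mul_right]
  refine List.sum_le_sum (fun x hx => ?_)
  obtain ⟨hx1, hx2⟩ := hL x hx
  have hp := pot_nonneg (θ' := th q (k + 1)) (θ := th q k) h0 h1 hx1 hx2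
  split_ifs with h3
  · have h4 : pot (th q (k + 1)) (th q k) x =
        ms x * th q (k + 1) / (th q k - th q (k + 1)) := by
      unfold pot
      rw [if_neg (not_le.2 h3.1), if_pos h3.2]
    rw [h4]
    apply le_of_eq
    field_simp
  · exact mul_nonneg hp (div_nonneg h2.le h0.le)

/-- for a row thicker than the window the controlled potential is the smaller one -/
theorem pot_le_potC {θ' θ : ℝ} (h0 : 0 ≤ θ') (h : θ' ≤ θ) {x : ℝ × ℝ} (h1 : θ < x.1) :
    pot θ' θ x ≤ potC θ' θ x := by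
  unfold pot potC
  have h2 : ¬ x.1 ≤ θ' := not_le.2 (lt_of_le_of_lt h h1)
  have h3 : ¬ x.1 ≤ θ := not_le.2 h1
  rw [if_neg h2, if_neg h3, if_neg h3]
  exact fhit_le h0

/-- new rows of class O, G, J -/
theorem PC_le {q : ℝ} (hq : 0 < q) {j : ℕ} (L : List (ℝ × ℝ)) (hL : ∀ x ∈ L, 0 ≤ x.1) :
    PC q j L ≤ chC * (L.map Prod.fst).sum := by
  unfold PC
  rw [← List.sum_map_mul_left]
  refine List.sum_le_sum (fun x hx => ?_)
  have h1 := hL x hx
  unfold potC
  split_ifs
  · exact mul_nonneg chC_pos.le h1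
  · exact fch_le (th_pos hq (Nat.succ_pos j)).le h1

end

end Pool.Agent.LibMoserT
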