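import Pool.Agent.LibMoserF.SLane
set_option autoImplicit false
/-!
# The S lane: rounding a fractional assignment of squares to rows

`x n i` = fraction of the square `n` given to the row `i`.  The rounding keeps, for every row, the
number of squares up to 2; for every cell of children, the number of pieces up to 6; for every index
block, the number of unused squares up to 2; for every class of rows, the total weight up to 43.
-/
namespace Pool.Agent.LibMoserT
open Classical Pool.Agent.Mos41 Pool.Agent.LibMoserF

noncomputable section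

variable {ρ κ β τ : Type} [Fintype ρ] [Fintype κ] [Fintype β] [Fintype τ]

/-- weight of a class -/
def slC (g : ℕ → ρ → ℝ) (cls : ρ → τ) (t : τ) : ℕ → ρ → ℝ := fun n i => if cls i = t then g n i else 0

/-- weights of the constraints -/
def slA2 (F : Finset ℕ) (w : ℕ → ℝ) (g : ℕ → ρ → ℝ) (cls : ρ → τ) (cell : ℕ → ρ → Option κ)
    (blk : ℕ → β) : (ρ ⊕ κ ⊕ β ⊕ τ) → (F × Option ρ) → ℝ
  | Sum.inl i, v => if v.2 = some i then 1 else 0
  | Sum.inr (Sum.inl c), v => if ∃ i, v.2 = some i ∧ cell v.1 i = some c then w v.1 else 0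
  | Sum.inr (Sum.inr (Sum.inl b)), v => if v.2 = none ∧ blk v.1 = b then 1 else 0
  | Sum.inr (Sum.inr (Sum.inr t)), v => slG (slC g cls t) v.1 v.2

def slB2 : (ρ ⊕ κ ⊕ β ⊕ τ) → ℝ
  | Sum.inl _ => 3
  | Sum.inr (Sum.inl _) => 7
  | Sum.inr (Sum.inr (Sum.inl _)) => 3
  | Sum.inr (Sum.inr (Sum.inr _)) => 43

def slE2 : (ρ ⊕ κ ⊕ β ⊕ τ) → ℝ
  | Sum.inl _ => 2
  | Sum.inr (Sum.inl _) => 7
  | Sum.inr (Sum.inr (Sum.inl _)) => 2
  | Sum.inr (Sum.inr (Sum.inr _)) => 43

theorem slane2 (F : Finset ℕ) (x : ℕ → ρ → ℝ) (hx : ∀ n i, 0 ≤ x n i)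
    (hcap : ∀ n ∈ F, ∑ i, x n i ≤ 1) (w : ℕ → ℝ) (hw : ∀ n, 0 ≤ w n ∧ w n ≤ 1)
    (g : ℕ → ρ → ℝ) (hg : ∀ n i, 0 ≤ g n i ∧ g n i ≤ 1)
    (cls : ρ → τ) (cell : ℕ → ρ → Option κ) (blk : ℕ → β) :
    ∃ a : ℕ → Option ρ,
      (∀ n ∈ F, ∀ i, a n = some i → 0 < x n i) ∧
      (∀ i, |((F.filter (fun n => a n = some i)).card : ℝ) - ∑ n ∈ F, x n i| ≤ 2) ∧
      (∀ c, |∑ n ∈ F.filter (fun n => ∃ i, a n = some i ∧ cell n i = some c), w n -
        ∑ n ∈ F, ∑ i, (if cell n i = some c then w n * x n i else 0)| ≤ 7) ∧
      (∀ b, |((F.filter (fun n => a n = none ∧ blk n = b)).card : ℝ) -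
        ∑ n ∈ F.filter (fun n => blk n = b), (1 - ∑ i, x n i)| ≤ 2) ∧
      (∀ t, ∑ n ∈ F, slG (slC g cls t) n (a n) ≤ ∑ n ∈ F, ∑ i, slC g cls t n i * x n i + 43) := by
  have hx1 : ∀ n ∈ F, ∀ i, x n i ≤ 1 := by
    intro n hn i
    exact (Finset.single_le_sum (fun j _ => hx n j) (Finset.mem_univ i)).trans (hcap n hn)
  obtain ⟨y, hy01, hyout, hyg, hyk⟩ := beckFiala (ι := F × Option ρ) (γ := F) (κ := ρ ⊕ κ ⊕ β ⊕ τ)
    Prod.fst (slA2 F w g cls cell blk) slB2 slE2
    (by
      intro k v
      rcases k with i | c | b | u
      · simp only [slA2]; split_ifs <;> norm_num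
      · simp only [slA2]; split_ifs <;> first | exact (hw _).1 | norm_num
      · simp only [slA2]; split_ifs <;> norm_num
      · simp only [slA2]
        rcases v.2 with _ | i
        · exact le_rfl
        · simp only [slG, slC]
          split_ifs
          · exact (hg _ _).1
          · exact le_rfl)
    (by
      intro k
      rcases k with i | c | b | u <;> simp [slB2])
    (by
      intro k S h
      rcases k with i | c | b | u
      · have h' : ((2 : ℕ) : ℝ) < ∑ v ∈ S, slA2 F w g cls cell blk (Sum.inl i) v :=
          lt_of_eq_of_lt (by norm_num [slE2]) h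
        have := sl_int S (fun v : F × Option ρ => v.2 = some i) 2 h'
        exact le_trans (by norm_num [slB2] : slB2 (κ := κ) (β := β) (τ := τ) (Sum.inl i) ≤ ((2 : ℕ) : ℝ) + 1) this
      · exact h.le
      · have h' : ((2 : ℕ) : ℝ) < ∑ v ∈ S, slA2 F w g cls cell blk (Sum.inr (Sum.inr (Sum.inl b))) v :=
          lt_of_eq_of_lt (by norm_num [slE2]) h
        have := sl_int S (fun v : F × Option ρ => v.2 = none ∧ blk v.1 = b) 2 h'
        exact le_trans (by norm_num [slB2] : slB2 (Sum.inr (Sum.inr (Sum.inl b))) ≤ ((2 : ℕ) : ℝ) + 1) this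
      · exact h.le)
    (by
      rintro ⟨n, o⟩
      rw [Fintype.sum_sum_type, Fintype.sum_sum_type, Fintype.sum_sum_type]
      have e9 : ∀ o : Option ρ, ∑ u : τ, slA2 F w g cls cell blk (Sum.inr (Sum.inr (Sum.inr u))) (n, o) /
          slB2 (ρ := ρ) (κ := κ) (β := β) (Sum.inr (Sum.inr (Sum.inr u))) ≤ 1 / 43 := by
        intro o
        rcases o with _ | i
        · simp only [slA2, slB2, slG]
          simp
        · rw [Finset.sum_eq_single (cls i)]
          · simp only [slA2, slB2, slG, slC, if_true]
            have := (hg n i).2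
            linarith
          · intro u _ hu
            have h8 : ¬ (cls i = u) := fun h => hu h.symm
            simp [slA2, slG, slC, h8]
          · intro h; exact absurd (Finset.mem_univ _) h
      have e10 := e9 none
      rcases o with _ | i
      · have e1 : ∑ j : ρ, slA2 F w g cls cell blk (Sum.inl j) (n, none) / slB2 (κ := κ) (β := β) (τ := τ) (Sum.inl j) = 0 := by
          apply Finset.sum_eq_zero
          intro j _
          simp [slA2]
        have e2 : ∑ c : κ, slA2 F w g cls cell blk (Sum.inr (Sum.inl c)) (n, none) /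
            slB2 (ρ := ρ) (β := β) (τ := τ) (Sum.inr (Sum.inl c)) = 0 := by
          apply Finset.sum_eq_zero
          intro j _
          simp [slA2]
        have e3 : ∑ b : β, slA2 F w g cls cell blk (Sum.inr (Sum.inr (Sum.inl b))) (n, none) /
            slB2 (ρ := ρ) (κ := κ) (τ := τ) (Sum.inr (Sum.inr (Sum.inl b))) = 1 / 3 := by
          rw [Finset.sum_eq_single (blk n)]
          · simp [slA2, slB2]
          · intro b _ hb
            have : ¬ (blk (n : ℕ) = b) := fun h => hb h.symm
            simp [slA2, this]
          · intro h; exact absurd (Finset.mem_univ _) h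
        rw [e1, e2, e3]
        linarith
      · have e11 := e9 (some i)
        have e1 : ∑ j : ρ, slA2 F w g cls cell blk (Sum.inl j) (n, some i) / slB2 (κ := κ) (β := β) (τ := τ) (Sum.inl j)
            = 1 / 3 := by
          rw [Finset.sum_eq_single i]
          · simp [slA2, slB2]
          · intro b _ hb
            have : ¬ (i = b) := fun h => hb h.symm
            simp [slA2, this]
          · intro h; exact absurd (Finset.mem_univ _) h
        have e2 : ∑ c : κ, slA2 F w g cls cell blk (Sum.inr (Sum.inl c)) (n, some i) /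
            slB2 (ρ := ρ) (β := β) (τ := τ) (Sum.inr (Sum.inl c)) ≤ 1 / 7 := by
          rcases hc : cell n i with _ | c0
          · have : ∑ c : κ, slA2 F w g cls cell blk (Sum.inr (Sum.inl c)) (n, some i) /
                slB2 (ρ := ρ) (β := β) (τ := τ) (Sum.inr (Sum.inl c)) = 0 := by
              apply Finset.sum_eq_zero
              intro c _
              simp [slA2, hc]
            rw [this]
            norm_num
          · rw [Finset.sum_eq_single c0]
            · have e5 : slA2 F w g cls cell blk (Sum.inr (Sum.inl c0)) (n, some i) = w n := by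
                simp [slA2, hc]
              rw [e5]
              simp only [slB2]
              have := (hw n).2
              linarith
            · intro c _ hb
              have : ¬ (c0 = c) := fun h => hb h.symm
              simp [slA2, hc, this]
            · intro h; exact absurd (Finset.mem_univ _) h
        have e3 : ∑ b : β, slA2 F w g cls cell blk (Sum.inr (Sum.inr (Sum.inl b))) (n, some i) /
            slB2 (ρ := ρ) (κ := κ) (τ := τ) (Sum.inr (Sum.inr (Sum.inl b))) = 0 := by
          apply Finset.sum_eq_zero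
          intro b _
          simp [slA2]
        rw [e1, e3]
        linarith)
    (slX F x)
    (by
      rintro ⟨n, o⟩
      rcases o with _ | i
      · simp only [slX]
        have h1 := hcap n n.2
        have h2 : 0 ≤ ∑ i, x n i := Finset.sum_nonneg (fun i _ => hx n i)
        constructor <;> linarith
      · exact ⟨hx _ _, hx1 _ n.2 _⟩)
    (by
      intro c
      refine ⟨1, ?_⟩
      rw [sl_fst]
      simp only [slX]
      push_cast
      ring)
  -- the assignment
  have hex : ∀ n : F, ∃ o : Option ρ, y (n, o) = 1 := by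
    intro n
    by_contra hno
    push Not at hno
    have h1 := hyg n
    have h2 : ∀ o, y (n, o) = 0 := by
      intro o
      rcases hy01 (n, o) with h | h
      · exact h
      · exact absurd h (hno o)
    rw [sl_fst, sl_fst] at h1
    simp only [slX, h2] at h1
    simp at h1
  have huniq : ∀ (n : F) (o o' : Option ρ), y (n, o) = 1 → y (n, o') = 1 → o = o' := by
    intro n o o' h1 h2
    by_contra hne
    have h3 := hyg n
    rw [sl_fst, sl_fst, ← Fintype.sum_option (f := fun o => y (n, o)),
      ← Fintype.sum_option (f := fun o => slX F x (n, o))] at h3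
    have h4 : ∑ o : Option ρ, slX F x (n, o) = 1 := by
      rw [Fintype.sum_option]
      simp only [slX]
      ring
    rw [h4] at h3
    have h5 : ∑ q ∈ ({o, o'} : Finset (Option ρ)), y (n, q) ≤ ∑ q, y (n, q) :=
      Finset.sum_le_sum_of_subset_of_nonneg (Finset.subset_univ _) (by
        intro q _ _
        rcases hy01 (n, q) with h | h <;> rw [h]
        norm_num)
    rw [Finset.sum_pair hne, h1, h2, h3] at h5
    norm_num at h5
  choose f hf using hex
  let a : ℕ → Option ρ := fun n => if h : n ∈ F then f ⟨n, h⟩ else none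
  have ha : ∀ n (h : n ∈ F) (o : Option ρ), a n = o ↔ y (⟨n, h⟩, o) = 1 := by
    intro n h o
    simp only [a, dif_pos h]
    constructor
    · rintro rfl; exact hf _
    · intro h2; exact huniq _ _ _ (hf _) h2
  have hy0 : ∀ n (h : n ∈ F) (o : Option ρ), a n ≠ o → y (⟨n, h⟩, o) = 0 := by
    intro n h o hne
    rcases hy01 (⟨n, h⟩, o) with h1 | h1
    · exact h1
    · exact absurd ((ha n h o).2 h1) hne
  have hpair : ∀ G : F × Option ρ → ℝ, ∑ v, G v * y v = ∑ n : F, G (n, a n) := by
    intro G
    rw [Fintype.sum_prod_type]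
    apply Finset.sum_congr rfl
    rintro ⟨n, hn⟩ _
    rw [Finset.sum_eq_single (a n)]
    · rw [(ha n hn (a n)).1 rfl, mul_one]
    · intro o _ ho
      rw [hy0 n hn o (Ne.symm ho), mul_zero]
    · intro h; exact absurd (Finset.mem_univ _) h
  have hsumF : ∀ g : ℕ → ℝ, ∑ n : F, g n = ∑ n ∈ F, g n := fun g => Finset.sum_coe_sort F g
  refine ⟨a, ?_, ?_, ?_, ?_, ?_⟩
  · intro n hn i hni
    have h1 := (ha n hn (some i)).1 hni
    by_contra h2
    have h3 : x n i = 0 := le_antisymm (not_lt.1 h2) (hx n i)
    have h4 := hyout (⟨n, hn⟩, some i) (by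
      rw [mem_flo]
      simp only [slX]
      rw [h3]
      rintro ⟨h5, _⟩
      exact lt_irrefl _ h5)
    rw [h1] at h4
    simp only [slX] at h4
    rw [h3] at h4
    norm_num at h4
  · intro i
    have h := hyk (Sum.inl i)
    simp only [slE2] at h
    rw [max_eq_left (by norm_num)] at h
    have e1 : ∑ v, slA2 F w g cls cell blk (Sum.inl i) v * (y v - slX F x v) =
        ((F.filter (fun n => a n = some i)).card : ℝ) - ∑ n ∈ F, x n i := by
      have : ∀ v, slA2 F w g cls cell blk (Sum.inl i) v * (y v - slX F x v) =
          slA2 F w g cls cell blk (Sum.inl i) v * y v - slA2 F w g cls cell blk (Sum.inl i) v * slX F x v :=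
        fun v => by ring
      rw [Finset.sum_congr rfl (fun v _ => this v), Finset.sum_sub_distrib, hpair]
      congr 1
      · simp only [slA2]
        rw [hsumF (fun n => if a n = some i then (1 : ℝ) else 0), Finset.sum_boole]
      · rw [Fintype.sum_prod_type, ← hsumF]
        apply Finset.sum_congr rfl
        intro n _
        rw [Finset.sum_eq_single (some i)]
        · simp [slA2, slX]
        · intro o _ ho
          simp [slA2, ho]
        · intro h; exact absurd (Finset.mem_univ _) h
    rw [e1] at h
    exact h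
  · intro c
    have h := hyk (Sum.inr (Sum.inl c))
    simp only [slE2] at h
    rw [max_eq_left (by norm_num)] at h
    have e1 : ∑ v, slA2 F w g cls cell blk (Sum.inr (Sum.inl c)) v * (y v - slX F x v) =
        ∑ n ∈ F.filter (fun n => ∃ i, a n = some i ∧ cell n i = some c), w n -
        ∑ n ∈ F, ∑ i, (if cell n i = some c then w n * x n i else 0) := by
      have : ∀ v, slA2 F w g cls cell blk (Sum.inr (Sum.inl c)) v * (y v - slX F x v) =
          slA2 F w g cls cell blk (Sum.inr (Sum.inl c)) v * y v -
            slA2 F w g cls cell blk (Sum.inr (Sum.inl c)) v * slX F x v := fun v => by ring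
      rw [Finset.sum_congr rfl (fun v _ => this v), Finset.sum_sub_distrib, hpair]
      congr 1
      · simp only [slA2]
        rw [hsumF (fun n => if ∃ i, a n = some i ∧ cell n i = some c then w n else 0),
          Finset.sum_filter]
      · rw [Fintype.sum_prod_type, ← hsumF]
        apply Finset.sum_congr rfl
        intro n _
        rw [Fintype.sum_option]
        simp only [slA2, slX]
        simp
    rw [e1] at h
    exact h
  · intro b
    have h := hyk (Sum.inr (Sum.inr (Sum.inl b)))
    simp only [slE2] at h
    rw [max_eq_left (by norm_num)] at h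
    have e1 : ∑ v, slA2 F w g cls cell blk (Sum.inr (Sum.inr (Sum.inl b))) v * (y v - slX F x v) =
        ((F.filter (fun n => a n = none ∧ blk n = b)).card : ℝ) -
        ∑ n ∈ F.filter (fun n => blk n = b), (1 - ∑ i, x n i) := by
      have : ∀ v, slA2 F w g cls cell blk (Sum.inr (Sum.inr (Sum.inl b))) v * (y v - slX F x v) =
          slA2 F w g cls cell blk (Sum.inr (Sum.inr (Sum.inl b))) v * y v -
            slA2 F w g cls cell blk (Sum.inr (Sum.inr (Sum.inl b))) v * slX F x v := fun v => by ring
      rw [Finset.sum_congr rfl (fun v _ => this v), Finset.sum_sub_distrib, hpair]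
      congr 1
      · simp only [slA2]
        rw [hsumF (fun n => if a n = none ∧ blk n = b then (1 : ℝ) else 0), Finset.sum_boole]
      · rw [Fintype.sum_prod_type, Finset.sum_filter, ← hsumF]
        apply Finset.sum_congr rfl
        intro n _
        rw [Fintype.sum_option]
        simp only [slA2, slX]
        simp
    rw [e1] at h
    exact h
  · intro t
    have h := (abs_le.1 (hyk (Sum.inr (Sum.inr (Sum.inr t))))).2
    simp only [slE2] at h
    rw [max_eq_left (by norm_num)] at h
    have e1 : ∑ v, slA2 F w g cls cell blk (Sum.inr (Sum.inr (Sum.inr t))) v * (y v - slX F x v) =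
        ∑ n ∈ F, slG (slC g cls t) n (a n) - ∑ n ∈ F, ∑ i, slC g cls t n i * x n i := by
      have : ∀ v, slA2 F w g cls cell blk (Sum.inr (Sum.inr (Sum.inr t))) v * (y v - slX F x v) =
          slA2 F w g cls cell blk (Sum.inr (Sum.inr (Sum.inr t))) v * y v -
            slA2 F w g cls cell blk (Sum.inr (Sum.inr (Sum.inr t))) v * slX F x v := fun v => by ring
      rw [Finset.sum_congr rfl (fun v _ => this v), Finset.sum_sub_distrib, hpair]
      congr 1
      · simp only [slA2]
        rw [hsumF (fun n => slG (slC g cls t) n (a n))]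
      · rw [Fintype.sum_prod_type, ← hsumF]
        apply Finset.sum_congr rfl
        intro n _
        rw [Fintype.sum_option]
        simp only [slA2, slX, slG]
        simp
    rw [e1] at h
    linarith

end

end Pool.Agent.LibMoserT
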