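import Pool.Agent.LibMoserT.Chain
import Pool.Agent.LibMoserT.SLane2
set_option autoImplicit false
/-!
# All rows of a frame

`N` rows `R i = (p, r)`, each with a pool `Q i` of squares of the frame `Fr` (sides in `[σ i, p)`).
The load of the square `n` is the sum of `X i / |Q i|` over the rows whose pool contains `n`.
If all loads are at most 1, the rows can be filled.
-/
namespace Pool.Agent.LibMoserT
open Pool.Agent.LibMoser5 Pool.Agent.LibMoserF Classical

noncomputable section

theorem th_nonneg {q : ℝ} (hq : 0 ≤ q) (k : ℕ) : 0 ≤ th q k := by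
  unfold th; positivity

theorem InWin.pos {q : ℝ} (hq : 0 < q) {k : ℕ} {p : ℝ} (h : InWin q k p) : 0 < p :=
  lt_of_le_of_lt (th_nonneg hq.le _) h.1

theorem InWin.uniq {q : ℝ} (hq : 0 < q) {k l : ℕ} {p : ℝ} (h : InWin q k p) (h' : InWin q l p) :
    k = l := by
  rcases lt_trichotomy k l with hh | hh | hh
  · exfalso
    have := th_anti hq (by omega : 1 ≤ k + 1) (by omega : k + 1 ≤ l)
    have h1 := h.1
    have h2 := h'.2
    linarith
  · exact hh
  · exfalso
    have := th_anti hq (by omega : 1 ≤ l + 1) (by omega : l + 1 ≤ k)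
    have h1 := h'.1
    have h2 := h.2
    linarith

/-- only finitely many windows can contain a positive number -/
theorem InWin.bdd {q : ℝ} (hq : 0 < q) (p : ℝ) : ∃ J : ℕ, ∀ j, InWin q j p → j < J := by
  rcases le_or_gt p 0 with hp | hp
  · exact ⟨0, fun j h => absurd (h.pos hq) (not_lt.2 hp)⟩
  · obtain ⟨J, hJ⟩ := exists_nat_gt (q / p)
    have hJ0 : (0 : ℝ) < J := lt_trans (by positivity) hJ
    refine ⟨J, fun j h => ?_⟩
    by_contra hcon
    push Not at hcon
    have h1 : (J : ℝ) ≤ j := by exact_mod_cast hcon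
    have h2 := h.2
    have hj0 : (0 : ℝ) < j := lt_of_lt_of_le hJ0 h1
    unfold th at h2
    rw [le_div_iff₀ (by positivity)] at h2
    rw [div_lt_iff₀ hp] at hJ
    have hj1 : (1 : ℝ) ≤ j := by
      have : 0 < j := by exact_mod_cast hj0
      exact_mod_cast this
    have h3 : (j : ℝ) ≤ (j : ℝ) ^ 3 := by
      have h4 : (0 : ℝ) ≤ (j : ℝ) * ((j : ℝ) - 1) * ((j : ℝ) + 1) :=
        mul_nonneg (mul_nonneg hj0.le (by linarith)) (by linarith)
      nlinarith
    nlinarith

/-- number of squares which the row `x` asks for -/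
def XX (x : ℝ × ℝ) (σ : ℝ) : ℝ := (x.2 - 6 / 5 * x.1) / σ + 2

variable {N : ℕ}

/-- fractional assignment -/
def xf (R : Fin N → ℝ × ℝ) (Q : Fin N → Finset ℕ) (σ : Fin N → ℝ) (n : ℕ) (i : Fin N) : ℝ :=
  if n ∈ Q i then XX (R i) (σ i) / (Q i).card else 0

def cellf (q : ℝ) (J : ℕ) (R : Fin N → ℝ × ℝ) (n : ℕ) (i : Fin N) : Option (Fin J) :=
  if h : ∃ j : Fin J, InWin q j ((R i).1 - sd n) then some h.choose else none

theorem cellf_iff {q : ℝ} (hq : 0 < q) {J : ℕ} {R : Fin N → ℝ × ℝ} {n : ℕ} {i : Fin N}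
    {c : Fin J} : cellf q J R n i = some c ↔ InWin q c ((R i).1 - sd n) := by
  unfold cellf
  split_ifs with h
  · constructor
    · intro e
      have : h.choose = c := Option.some.inj e
      rw [← this]
      exact h.choose_spec
    · intro e
      congr 1
      exact Fin.ext (InWin.uniq hq h.choose_spec e)
  · constructor
    · intro e; exact absurd e (by simp)
    · intro e; exact absurd ⟨c, e⟩ h

/-- weights of the cell constraints -/
def ww (s0 : ℝ) (n : ℕ) : ℝ := min (sd n / s0) 1

theorem ww_mem {s0 : ℝ} (h : 0 < s0) (n : ℕ) : 0 ≤ ww s0 n ∧ ww s0 n ≤ 1 :=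
  ⟨le_min (div_nonneg (LibMoser5.Fill_sd_pos n).le h.le) zero_le_one, min_le_right _ _⟩

theorem ww_eq {s0 : ℝ} (h : 0 < s0) {n : ℕ} (hn : sd n ≤ s0) : s0 * ww s0 n = sd n := by
  unfold ww
  rw [min_eq_left ((div_le_one h).2 hn)]
  field_simp

/-- weights of the class constraints: the thicknesses of the children -/
def gg {τ : Type} (yc : τ → ℝ) (cls : Fin N → τ) (R : Fin N → ℝ × ℝ) (n : ℕ) (i : Fin N) : ℝ :=
  max 0 (min (((R i).1 - sd n) / yc (cls i)) 1)

theorem gg_mem {τ : Type} {yc : τ → ℝ} {cls : Fin N → τ} {R : Fin N → ℝ × ℝ} (n : ℕ) (i : Fin N) :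
    0 ≤ gg yc cls R n i ∧ gg yc cls R n i ≤ 1 :=
  ⟨le_max_left _ _, max_le zero_le_one (min_le_right _ _)⟩

theorem gg_eq {τ : Type} {yc : τ → ℝ} {cls : Fin N → τ} {R : Fin N → ℝ × ℝ} {n : ℕ} {i : Fin N}
    (h : 0 < yc (cls i)) (h1 : sd n < (R i).1) (h2 : (R i).1 - sd n ≤ yc (cls i)) :
    yc (cls i) * gg yc cls R n i = (R i).1 - sd n := by
  unfold gg
  rw [min_eq_left ((div_le_one h).2 h2), max_eq_right (div_nonneg (by linarith) h.le)]
  field_simp

/-- what is known about the end piece `e` of the row `x` with pool `Q` -/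
structure EPrest (x : ℝ × ℝ) (Q : Finset ℕ) (e : EP) : Prop where
  ok : e.Ok
  t : e.t = x.1
  w : (∀ n ∈ Q, 197 / 200 * x.1 ≤ sd n) → ∀ θ' : ℝ, 0 ≤ θ' → rel θ' e ≤ fhit θ' x.1 x.2

theorem frame_rows {W H : ℝ} (R : Fin N → ℝ × ℝ) (F0 : List (ℝ × ℝ)) (P Fr : Finset ℕ)
    (Q : Fin N → Finset ℕ) (σ : Fin N → ℝ)
    (h : PT W H ((List.finRange N).map R ++ F0) P) (hd : ∀ n ∈ Fr, n ∉ P)
    (hQ : ∀ i, Q i ⊆ Fr) (hne : ∀ i, (Q i).Nonempty)
    (hσ : ∀ i, 0 < σ i) (hσQ : ∀ i, ∀ n ∈ Q i, σ i ≤ sd n ∧ sd n < (R i).1)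
    (hr : ∀ i, 6 / 5 * (R i).1 ≤ (R i).2)
    (hcap : ∀ n ∈ Fr, ∑ i, xf R Q σ n i ≤ 1)
    {q : ℝ} (hq : 0 < q) {s0 : ℝ} (hs0 : 0 < s0) (hs : ∀ n ∈ Fr, sd n ≤ s0)
    {τ : Type} [Fintype τ] (cls : Fin N → τ) (yc : τ → ℝ) (hyc : ∀ t, 0 < yc t)
    (hy : ∀ i, ∀ n ∈ Q i, (R i).1 - sd n ≤ yc (cls i))
    {β : Type} [Fintype β] (bl : ℕ → β) :
    ∃ (C : List (ℕ × Fin N)) (E : Fin N → EP),
      PT W H (C.map (fun z => ((R z.2).1 - sd z.1, sd z.1)) ++
        (((List.finRange N).map E).map (fun x => (x.a, x.b)) ++ F0))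
        (P ∪ (C.map Prod.fst).toFinset) ∧
      (C.map Prod.fst).Nodup ∧
      (∀ z ∈ C, z.1 ∈ Q z.2) ∧
      (∀ i, EPrest (R i) (Q i) (E i)) ∧
      (∀ j : ℕ, ((C.filter (fun z => InWin q j ((R z.2).1 - sd z.1))).map (fun z => sd z.1)).sum ≤
        ∑ i, XX (R i) (σ i) / (Q i).card *
          ∑ n ∈ (Q i).filter (fun n => InWin q j ((R i).1 - sd n)), sd n + 7 * s0) ∧
      (∀ b, ∑ n ∈ Fr.filter (fun n => bl n = b), (1 - ∑ i, xf R Q σ n i) - 2 ≤
        ((Fr.filter (fun n => n ∉ (C.map Prod.fst) ∧ bl n = b)).card : ℝ)) ∧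
      (∀ t, ((C.filter (fun z => cls z.2 = t)).map (fun z => (R z.2).1 - sd z.1)).sum ≤
        ∑ i, (if cls i = t then XX (R i) (σ i) / (Q i).card * ∑ n ∈ Q i, ((R i).1 - sd n) else 0) +
          43 * yc t) := by
  have hp0 : ∀ i, 0 < (R i).1 := by
    intro i
    obtain ⟨n, hn⟩ := hne i
    exact lt_trans (LibMoser5.Fill_sd_pos n) (hσQ i n hn).2
  have hX0 : ∀ i, 0 < XX (R i) (σ i) := by
    intro i
    have h1 : 0 ≤ ((R i).2 - 6 / 5 * (R i).1) / σ i := div_nonneg (by linarith [hr i]) (hσ i).le
    unfold XX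
    linarith
  have hc0 : ∀ i, (0 : ℝ) < (Q i).card := fun i => by exact_mod_cast (hne i).card_pos
  have hx0 : ∀ n i, 0 ≤ xf R Q σ n i := by
    intro n i
    unfold xf
    split_ifs
    · exact div_nonneg (hX0 i).le (hc0 i).le
    · exact le_rfl
  -- bound for the windows
  obtain ⟨J, hJ⟩ : ∃ J : ℕ, ∀ n ∈ Fr, ∀ i : Fin N, ∀ j, InWin q j ((R i).1 - sd n) → j < J := by
    have h1 : ∀ z : ℕ × Fin N, ∃ J : ℕ, ∀ j, InWin q j ((R z.2).1 - sd z.1) → j < J :=
      fun z => InWin.bdd hq _
    choose g hg using h1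
    refine ⟨(Fr ×ˢ (Finset.univ : Finset (Fin N))).sup g, fun n hn i j hj => ?_⟩
    have h2 := hg (n, i) j hj
    have h3 : g (n, i) ≤ (Fr ×ˢ (Finset.univ : Finset (Fin N))).sup g :=
      Finset.le_sup (f := g) (Finset.mem_product.2 ⟨hn, Finset.mem_univ _⟩)
    omega
  obtain ⟨a, a1, a2, a3, a4, a5⟩ : ∃ a : ℕ → Option (Fin N),
      (∀ n ∈ Fr, ∀ i, a n = some i → 0 < xf R Q σ n i) ∧
      (∀ i, |((Fr.filter (fun n => a n = some i)).card : ℝ) - ∑ n ∈ Fr, xf R Q σ n i| ≤ 2) ∧
      (∀ c : Fin J, |∑ n ∈ Fr.filter (fun n => ∃ i, a n = some i ∧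
          cellf q J R n i = some c), ww s0 n -
        ∑ n ∈ Fr, ∑ i, (if cellf q J R n i = some c then ww s0 n * xf R Q σ n i else 0)| ≤ 7) ∧
      (∀ b, |((Fr.filter (fun n => a n = none ∧ bl n = b)).card : ℝ) -
        ∑ n ∈ Fr.filter (fun n => bl n = b), (1 - ∑ i, xf R Q σ n i)| ≤ 2) ∧
      (∀ t, ∑ n ∈ Fr, slG (slC (gg yc cls R) cls t) n (a n) ≤
        ∑ n ∈ Fr, ∑ i, slC (gg yc cls R) cls t n i * xf R Q σ n i + 43) := by
    obtain ⟨a, a1, a2, a3, a4, a5⟩ := slane2 (κ := Fin J) Fr (xf R Q σ) hx0 hcap (ww s0)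
      (ww_mem hs0) (gg yc cls R) gg_mem cls (cellf q J R) bl
    refine ⟨a, a1, fun i => ?_, fun c => ?_, fun b => ?_, a5⟩
    · convert a2 i
    · convert a3 c
    · convert a4 b
  have hSQ : ∀ i, ∀ n ∈ Fr, a n = some i → n ∈ Q i := by
    intro i n hn hai
    have h1 := a1 n hn i hai
    by_contra hcon
    unfold xf at h1
    rw [if_neg hcon] at h1
    exact lt_irrefl _ h1
  have hsum : ∀ i, ∑ n ∈ Fr, xf R Q σ n i = XX (R i) (σ i) := by
    intro i
    unfold xf
    rw [← Finset.sum_filter, Finset.filter_mem_eq_inter, Finset.inter_eq_right.2 (hQ i),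
      Finset.sum_const, nsmul_eq_mul]
    have := (hc0 i).ne'
    field_simp
  -- the squares placed into row i
  have hrow : ∀ i, ∃ u : List ℕ, (∀ n ∈ u, n ∈ Fr ∧ a n = some i) ∧ u.Nodup ∧
      1 / 5 * (R i).1 ≤ (R i).2 - (u.map sd).sum ∧
      (R i).2 - (u.map sd).sum ≤ (1 + 1 / 5) * (R i).1 := by
    intro i
    obtain ⟨u, u1, u2, u3, u4⟩ := row_rule (p := (R i).1) (r := (R i).2) (β := 1 / 5) (σ := σ i)
      (Fr.filter (fun n => a n = some i)) (hσ i)
      (by
        intro n hn
        rw [Finset.mem_filter] at hn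
        exact (hσQ i n (hSQ i n hn.1 hn.2)).2.le)
      (by
        intro n hn
        rw [Finset.mem_filter] at hn
        exact (hσQ i n (hSQ i n hn.1 hn.2)).1)
      (by linarith [hr i, hp0 i])
      (by
        have h1 := (abs_le.1 (a2 i)).1
        rw [hsum i] at h1
        unfold XX at h1
        have e : (1 + 1 / 5 : ℝ) = 6 / 5 := by norm_num
        rw [e]
        linarith)
    exact ⟨u, fun n hn => by simpa using u1 n hn, u2, u3, u4⟩
  choose u u1 u2 u3 u4 using hrow
  let L : List FJob := (List.finRange N).map (fun i => ⟨(R i).1, (R i).2, u i⟩)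
  let C : List (ℕ × Fin N) := (List.finRange N).flatMap (fun i => (u i).map (fun n => (n, i)))
  let E : Fin N → EP := fun i =>
    ⟨min (R i).1 ((R i).2 - ((u i).map sd).sum), max (R i).1 ((R i).2 - ((u i).map sd).sum),
      (R i).1⟩
  have hL1 : L.map (fun x => (x.τ, x.len)) = (List.finRange N).map R := by
    simp only [L, List.map_map]
    rfl
  have hLu : L.flatMap FJob.u = C.map Prod.fst := by
    simp only [L, C, List.flatMap_map, List.map_flatMap, List.map_map]
    congr 1
    funext i
    simp [Function.comp_def]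
  have hnd : (C.map Prod.fst).Nodup := by
    rw [← hLu]
    simp only [L, List.flatMap_map]
    rw [List.nodup_flatMap]
    refine ⟨fun i _ => u2 i, ?_⟩
    have := List.nodup_finRange N
    refine this.imp ?_
    intro i i' hii n hn hn'
    have h1 := (u1 i n hn).2
    have h2 := (u1 i' n hn').2
    rw [h1] at h2
    exact hii (Option.some.inj h2)
  have hCm : ∀ z ∈ C, z.1 ∈ u z.2 := by
    intro z hz
    simp only [C, List.mem_flatMap, List.mem_map] at hz
    obtain ⟨i, _, n, hn, rfl⟩ := hz
    exact hn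
  have hCa : ∀ z ∈ C, z.1 ∈ Fr ∧ a z.1 = some z.2 := fun z hz => u1 z.2 z.1 (hCm z hz)
  have hCmem : ∀ n, n ∈ C.map Prod.fst → n ∈ Fr ∧ ∃ i, a n = some i ∧ n ∈ u i := by
    intro n hn
    obtain ⟨z, hz, rfl⟩ := List.mem_map.1 hn
    exact ⟨(hCa z hz).1, z.2, (hCa z hz).2, hCm z hz⟩
  have hPT := h
  rw [← hL1] at hPT
  have hfill := PT.fill L hPT
    (by
      intro x hx
      simp only [L, List.mem_map] at hx
      obtain ⟨i, _, rfl⟩ := hx
      refine ⟨?_, ?_⟩
      · intro n hn
        have := u1 i n hn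
        exact (hσQ i n (hSQ i n this.1 this.2)).2.le
      · have := u3 i
        have := hp0 i
        simp only
        linarith)
    (by rw [hLu]; exact hnd)
    (by
      rw [hLu]
      intro n hn
      exact hd n (hCmem n hn).1)
  rw [hLu] at hfill
  have hS : newS L = C.map (fun z => ((R z.2).1 - sd z.1, sd z.1)) := by
    simp only [newS, L, C, List.flatMap_map, List.map_flatMap, List.map_map]
    rfl
  have hE : (newE L).map mm = ((List.finRange N).map E).map (fun x => (x.a, x.b)) := by
    simp only [newE, L, E, List.map_map]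
    rfl
  refine ⟨C, E, ?_, hnd, ?_, ?_, ?_, ?_, ?_⟩
  · have h1 : PT W H (newE L ++ (newS L ++ F0)) (P ∪ (C.map Prod.fst).toFinset) := by
      refine hfill.perm ?_
      rw [← List.append_assoc]
      exact List.Perm.append_right _ List.perm_append_comm
    have h2 := h1.map_mm
    rw [hE, hS] at h2
    refine h2.perm ?_
    rw [← List.append_assoc, ← List.append_assoc]
    exact List.Perm.append_right _ List.perm_append_comm
  · intro z hz
    exact hSQ z.2 z.1 (hCa z hz).1 (hCa z hz).2
  · intro i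
    have h3 := u3 i
    have h4 := u4 i
    have h5 := hp0 i
    have hsdp : ∀ m ∈ u i, sd m ≤ (R i).1 := fun m hm =>
      (hσQ i m (hSQ i m (u1 i m hm).1 (u1 i m hm).2)).2.le
    refine ⟨⟨?_, ?_, ?_, ?_⟩, rfl, ?_⟩
    · show (R i).1 / 5 ≤ min (R i).1 ((R i).2 - ((u i).map sd).sum)
      exact le_min (by linarith) (by linarith)
    · exact min_le_left _ _
    · exact le_max_left _ _
    · show max (R i).1 ((R i).2 - ((u i).map sd).sum) ≤ 6 / 5 * (R i).1
      exact max_le (by linarith) (by linarith)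
    · intro hQd θ' hθ'
      refine rel_le_fhit (s := ((u i).map sd).sum) (n := (u i).length) hθ' rfl ?_ ?_ ?_ ?_
      · exact min_le_right _ _
      · have h6 : ∀ v : List ℕ, (∀ m ∈ v, m ∈ u i) →
            (v.length : ℝ) * (197 / 200 * (R i).1) ≤ (v.map sd).sum := by
          intro v
          induction v with
          | nil => intro _; simp
          | cons m v ih =>
            intro hv
            have h7 := ih (fun m' hm' => hv m' (List.mem_cons_of_mem _ hm'))
            have h8 := hv m List.mem_cons_self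
            have h9 := hQd m (hSQ i m (u1 i m h8).1 (u1 i m h8).2)
            rw [List.length_cons, List.map_cons, List.sum_cons]
            push_cast
            linarith
        exact h6 (u i) (fun m hm => hm)
      · have h6 : ∀ v : List ℕ, (∀ m ∈ v, m ∈ u i) →
            (v.map sd).sum ≤ (v.length : ℝ) * (R i).1 := by
          intro v
          induction v with
          | nil => intro _; simp
          | cons m v ih =>
            intro hv
            have h7 := ih (fun m' hm' => hv m' (List.mem_cons_of_mem _ hm'))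
            have h8 := hsdp m (hv m List.mem_cons_self)
            rw [List.length_cons, List.map_cons, List.sum_cons]
            push_cast
            linarith
        exact h6 (u i) (fun m hm => hm)
      · linarith
  · intro j
    have hCnd : ((C.filter (fun z => decide (InWin q j ((R z.2).1 - sd z.1)))).map
        Prod.fst).Nodup := hnd.sublist (List.Sublist.map _ List.filter_sublist)
    have hsub : ((C.filter (fun z => decide (InWin q j ((R z.2).1 - sd z.1)))).map
        Prod.fst).toFinset ⊆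
        Fr.filter (fun n => ∃ i, a n = some i ∧ InWin q j ((R i).1 - sd n)) := by
      intro n hn
      rw [List.mem_toFinset, List.mem_map] at hn
      obtain ⟨z, hz, rfl⟩ := hn
      rw [List.mem_filter] at hz
      obtain ⟨hzC, hzw⟩ := hz
      rw [Finset.mem_filter]
      exact ⟨(hCa z hzC).1, z.2, (hCa z hzC).2, by simpa using hzw⟩
    have hcount : ((C.filter (fun z => decide (InWin q j ((R z.2).1 - sd z.1)))).map
        (fun z => sd z.1)).sum ≤
        ∑ n ∈ Fr.filter (fun n => ∃ i, a n = some i ∧ InWin q j ((R i).1 - sd n)), sd n := by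
      have e0 : ((C.filter (fun z => decide (InWin q j ((R z.2).1 - sd z.1)))).map
          (fun z => sd z.1)) =
          (((C.filter (fun z => decide (InWin q j ((R z.2).1 - sd z.1)))).map Prod.fst).map
            sd) := by
        rw [List.map_map]
        rfl
      rw [e0, ← List.sum_toFinset sd hCnd]
      exact Finset.sum_le_sum_of_subset_of_nonneg hsub
        (fun n _ _ => (LibMoser5.Fill_sd_pos n).le)
    rcases lt_or_ge j J with hj | hj
    · have h3 := (abs_le.1 (a3 ⟨j, hj⟩)).2
      have e1 : (Fr.filter (fun n => ∃ i, a n = some i ∧ InWin q j ((R i).1 - sd n))) =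
          Fr.filter (fun n => ∃ i, a n = some i ∧ cellf q J R n i = some ⟨j, hj⟩) := by
        apply Finset.filter_congr
        intro n _
        constructor
        · rintro ⟨i, h1, h2⟩; exact ⟨i, h1, (cellf_iff hq).2 h2⟩
        · rintro ⟨i, h1, h2⟩; exact ⟨i, h1, (cellf_iff hq).1 h2⟩
      rw [e1] at hcount
      have e2 : s0 * ∑ n ∈ Fr, ∑ i,
            (if cellf q J R n i = some ⟨j, hj⟩ then ww s0 n * xf R Q σ n i else 0) =
          ∑ i, XX (R i) (σ i) / (Q i).card *
          ∑ n ∈ (Q i).filter (fun n => InWin q j ((R i).1 - sd n)), sd n := by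
        rw [Finset.sum_comm, Finset.mul_sum]
        apply Finset.sum_congr rfl
        intro i _
        rw [Finset.mul_sum, Finset.mul_sum]
        have e3 : ∀ n ∈ Fr, s0 * (if cellf q J R n i = some ⟨j, hj⟩ then
              ww s0 n * xf R Q σ n i else 0) =
            if n ∈ (Q i).filter (fun n => InWin q j ((R i).1 - sd n)) then
              XX (R i) (σ i) / (Q i).card * sd n else 0 := by
          intro n hn
          by_cases h1 : InWin q j ((R i).1 - sd n)
          · rw [if_pos ((cellf_iff hq (c := ⟨j, hj⟩)).2 h1)]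
            unfold xf
            by_cases h2 : n ∈ Q i
            · rw [if_pos h2, if_pos (Finset.mem_filter.2 ⟨h2, h1⟩), ← ww_eq hs0 (hs n hn)]
              ring
            · rw [if_neg h2, if_neg (fun h => h2 (Finset.mem_filter.1 h).1)]
              ring
          · have h2 : n ∉ (Q i).filter (fun n => InWin q j ((R i).1 - sd n)) := by
              intro h
              exact h1 (Finset.mem_filter.1 h).2
            rw [if_neg (fun h => h1 ((cellf_iff hq (c := ⟨j, hj⟩)).1 h)), if_neg h2, mul_zero]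
        rw [Finset.sum_congr rfl e3, ← Finset.sum_filter, Finset.filter_mem_eq_inter,
          Finset.inter_eq_right.2 ((Finset.filter_subset _ _).trans (hQ i))]
      have e4 : s0 * ∑ n ∈ Fr.filter (fun n => ∃ i, a n = some i ∧
          cellf q J R n i = some ⟨j, hj⟩), ww s0 n =
          ∑ n ∈ Fr.filter (fun n => ∃ i, a n = some i ∧
          cellf q J R n i = some ⟨j, hj⟩), sd n := by
        rw [Finset.mul_sum]
        apply Finset.sum_congr rfl
        intro n hn
        exact ww_eq hs0 (hs n (Finset.mem_filter.1 hn).1)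
      have h5 := mul_le_mul_of_nonneg_left h3 hs0.le
      rw [mul_sub, e2, e4] at h5
      linarith
    · have h1 : Fr.filter (fun n => ∃ i, a n = some i ∧ InWin q j ((R i).1 - sd n)) = ∅ := by
        rw [Finset.filter_eq_empty_iff]
        rintro n hn ⟨i, _, h2⟩
        have := hJ n hn i j h2
        omega
      rw [h1, Finset.sum_empty] at hcount
      have h2 : 0 ≤ ∑ i, XX (R i) (σ i) / (Q i).card *
          (∑ n ∈ (Q i).filter (fun n => InWin q j ((R i).1 - sd n)), sd n) := by
        apply Finset.sum_nonneg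
        intro i _
        exact mul_nonneg (div_nonneg (hX0 i).le (hc0 i).le)
          (Finset.sum_nonneg (fun n _ => (LibMoser5.Fill_sd_pos n).le))
      linarith
  · intro b
    have h3 := (abs_le.1 (a4 b)).1
    have h4 : ((Fr.filter (fun n => a n = none ∧ bl n = b)).card : ℝ) ≤
        ((Fr.filter (fun n => n ∉ (C.map Prod.fst) ∧ bl n = b)).card : ℝ) := by
      have : (Fr.filter (fun n => a n = none ∧ bl n = b)) ⊆
          (Fr.filter (fun n => n ∉ (C.map Prod.fst) ∧ bl n = b)) := by
        intro n hn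
        rw [Finset.mem_filter] at hn ⊢
        refine ⟨hn.1, ?_, hn.2.2⟩
        intro hmem
        obtain ⟨_, i, h5, _⟩ := hCmem n hmem
        rw [hn.2.1] at h5
        exact absurd h5 (by simp)
      exact_mod_cast Finset.card_le_card this
    linarith
  · -- the thicknesses of the children of a class
    intro t
    have e1 : yc t * ∑ n ∈ Fr, ∑ i, slC (gg yc cls R) cls t n i * xf R Q σ n i =
        ∑ i, (if cls i = t then XX (R i) (σ i) / (Q i).card * ∑ n ∈ Q i, ((R i).1 - sd n)
          else 0) := by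
      rw [Finset.sum_comm, Finset.mul_sum]
      apply Finset.sum_congr rfl
      intro i _
      by_cases hc : cls i = t
      · rw [if_pos hc, Finset.mul_sum, Finset.mul_sum]
        have e3 : ∀ n ∈ Fr, yc t * (slC (gg yc cls R) cls t n i * xf R Q σ n i) =
            if n ∈ Q i then XX (R i) (σ i) / (Q i).card * ((R i).1 - sd n) else 0 := by
          intro n _
          unfold xf slC
          rw [if_pos hc]
          by_cases h2 : n ∈ Q i
          · rw [if_pos h2, if_pos h2, ← gg_eq (hyc (cls i)) (hσQ i n h2).2 (hy i n h2), hc]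
            ring
          · rw [if_neg h2, if_neg h2, mul_zero, mul_zero]
        rw [Finset.sum_congr rfl e3, ← Finset.sum_filter, Finset.filter_mem_eq_inter,
          Finset.inter_eq_right.2 (hQ i)]
      · rw [if_neg hc, Finset.sum_eq_zero, mul_zero]
        intro n _
        unfold slC
        rw [if_neg hc, zero_mul]
    have h5 := mul_le_mul_of_nonneg_left (a5 t) (hyc t).le
    rw [mul_add, e1, mul_comm (yc t) 43] at h5
    have h6 : ((C.filter (fun z => decide (cls z.2 = t))).map
        (fun z => (R z.2).1 - sd z.1)).sum ≤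
        yc t * ∑ n ∈ Fr, slG (slC (gg yc cls R) cls t) n (a n) := by
      have hCnd : ((C.filter (fun z => decide (cls z.2 = t))).map Prod.fst).Nodup :=
        hnd.sublist (List.Sublist.map _ List.filter_sublist)
      have e4 : ((C.filter (fun z => decide (cls z.2 = t))).map
            (fun z => (R z.2).1 - sd z.1)).sum =
          (((C.filter (fun z => decide (cls z.2 = t))).map Prod.fst).map
            (fun n => yc t * slG (slC (gg yc cls R) cls t) n (a n))).sum := by
        congr 1
        rw [List.map_map]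
        apply List.map_congr_left
        intro z hz
        rw [List.mem_filter] at hz
        obtain ⟨hzC, hzt⟩ := hz
        have hzt' : cls z.2 = t := by simpa using hzt
        obtain ⟨h7, h8⟩ := hCa z hzC
        have h9 := hSQ z.2 z.1 h7 h8
        simp only [Function.comp_apply]
        rw [h8]
        simp only [slG, slC]
        rw [if_pos hzt', ← gg_eq (hyc (cls z.2)) (hσQ z.2 z.1 h9).2 (hy z.2 z.1 h9), hzt']
      rw [e4, ← List.sum_toFinset _ hCnd, ← Finset.mul_sum]
      apply mul_le_mul_of_nonneg_left _ (hyc t).le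
      apply Finset.sum_le_sum_of_subset_of_nonneg
      · intro n hn
        rw [List.mem_toFinset] at hn
        obtain ⟨z, hz, rfl⟩ := List.mem_map.1 hn
        exact (hCa z (List.mem_filter.1 hz).1).1
      · intro n _ _
        rcases a n with _ | i
        · exact le_rfl
        · simp only [slG, slC]
          split_ifs
          · exact (gg_mem n i).1
          · exact le_rfl
    refine le_trans (le_of_eq ?_) (h6.trans h5)
    congr

end

end Pool.Agent.LibMoserT
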