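import Pool.Agent.LibMoserT.Chain
import Pool.Agent.LibMoserT.FrameRows
import Pool.Agent.LibMoser5.Compact
import Pool.Agent.LibMoser5.Tail
set_option autoImplicit false
/-!
# Blocks and pools (task for helper68)

`ix q l` = first index `n` with `sd n ≤ th q l`; the pool of the blocks `a ≤ l < b` is
`Ico (ix q a) (ix q b)`.
-/
namespace Pool.Agent.LibMoserT
open Pool.Agent.LibMoser5 Pool.Agent.LibMoserF Classical

noncomputable section

def ix (q : ℝ) (l : ℕ) : ℕ := ⌈(l : ℝ) ^ 3 / q - 1 / 2⌉₊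

def pool (q : ℝ) (a b : ℕ) : Finset ℕ := Finset.Ico (ix q a) (ix q b)

theorem ix_le_iff {q : ℝ} (hq : 0 < q) {l n : ℕ} (hl : 1 ≤ l) : ix q l ≤ n ↔ sd n ≤ th q l := by
  unfold ix sd th
  rw [Nat.ceil_le]
  have hl0 : (0 : ℝ) < (l : ℝ) ^ 3 := by
    have : (0 : ℝ) < (l : ℝ) := by exact_mod_cast hl
    positivity
  have hn0 : (0 : ℝ) < (n : ℝ) + 1 / 2 := by positivity
  rw [div_le_div_iff₀ hn0 hl0, sub_le_iff_le_add, div_le_iff₀ hq]
  constructor
  · intro h
    linarith
  · intro h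
    linarith

theorem ix_mono {q : ℝ} (hq : 0 < q) {k l : ℕ} (h : k ≤ l) : ix q k ≤ ix q l := by
  unfold ix
  apply Nat.ceil_mono
  have h1 : ((k : ℕ) : ℝ) ≤ l := by exact_mod_cast h
  have h2 : ((k : ℕ) : ℝ) ^ 3 ≤ (l : ℝ) ^ 3 := pow_le_pow_left₀ (Nat.cast_nonneg _) h1 3
  have := div_le_div_of_nonneg_right h2 hq.le
  linarith

theorem mem_pool {q : ℝ} (hq : 0 < q) {a b n : ℕ} (ha : 1 ≤ a) (hb : 1 ≤ b) :
    n ∈ pool q a b ↔ th q b < sd n ∧ sd n ≤ th q a := by
  unfold pool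
  rw [Finset.mem_Ico, ix_le_iff hq ha, ← not_le, ix_le_iff hq hb, not_le]
  exact and_comm

theorem card_pool_ge {q : ℝ} (hq : 0 < q) {a b : ℕ} (hab : a ≤ b) (ha : 1 ≤ (a : ℝ) ^ 3 / q) :
    ((b : ℝ) ^ 3 - (a : ℝ) ^ 3) / q - 1 ≤ ((pool q a b).card : ℝ) := by
  have h0 : (0 : ℝ) ≤ (a : ℝ) ^ 3 / q - 1 / 2 := by linarith
  have h1 : ((ix q a : ℕ) : ℝ) < (a : ℝ) ^ 3 / q - 1 / 2 + 1 := Nat.ceil_lt_add_one h0
  have h2 : (b : ℝ) ^ 3 / q - 1 / 2 ≤ ((ix q b : ℕ) : ℝ) := Nat.le_ceil _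
  have h3 : ix q a ≤ ix q b := ix_mono hq hab
  unfold pool
  rw [Nat.card_Ico, Nat.cast_sub h3, sub_div]
  linarith

theorem card_pool_le {q : ℝ} (hq : 0 < q) {a b : ℕ} (hab : a ≤ b) (ha : 1 ≤ (a : ℝ) ^ 3 / q) :
    ((pool q a b).card : ℝ) ≤ ((b : ℝ) ^ 3 - (a : ℝ) ^ 3) / q + 1 := by
  have h0 : (0 : ℝ) ≤ (b : ℝ) ^ 3 / q - 1 / 2 := by
    have h1 : ((a : ℕ) : ℝ) ≤ b := by exact_mod_cast hab
    have h2 : ((a : ℕ) : ℝ) ^ 3 ≤ (b : ℝ) ^ 3 := pow_le_pow_left₀ (Nat.cast_nonneg _) h1 3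
    have := div_le_div_of_nonneg_right h2 hq.le
    linarith
  have h1 : ((ix q b : ℕ) : ℝ) < (b : ℝ) ^ 3 / q - 1 / 2 + 1 := Nat.ceil_lt_add_one h0
  have h2 : (a : ℝ) ^ 3 / q - 1 / 2 ≤ ((ix q a : ℕ) : ℝ) := Nat.le_ceil _
  have h3 : ix q a ≤ ix q b := ix_mono hq hab
  unfold pool
  rw [Nat.card_Ico, Nat.cast_sub h3, sub_div]
  linarith

/-- sum of the sides of squares with side in `[α, β]` -/
theorem sum_sd_Icc (S : Finset ℕ) {α β : ℝ} (hα : 0 < α) (hαβ : α ≤ β)
    (h : ∀ n ∈ S, α ≤ sd n ∧ sd n ≤ β) : ∑ n ∈ S, sd n ≤ (β - α) / α + β := by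
  rcases S.eq_empty_or_nonempty with rfl | hne
  · simp only [Finset.sum_empty]
    have : 0 ≤ (β - α) / α := div_nonneg (by linarith) hα.le
    linarith
  · have hle : S.min' hne ≤ S.max' hne := S.min'_le _ (S.max'_mem hne)
    have hm := h _ (S.min'_mem hne)
    have hM := h _ (S.max'_mem hne)
    have hsub : S ⊆ Finset.Icc (S.min' hne) (S.max' hne) := by
      intro n hn
      exact Finset.mem_Icc.2 ⟨S.min'_le n hn, S.le_max' n hn⟩
    have hc := Finset.card_le_card hsub
    rw [Nat.card_Icc] at hc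
    have hmin : ∀ n ∈ S, S.min' hne ≤ n := fun n hn => S.min'_le n hn
    generalize S.max' hne = M at *
    generalize S.min' hne = m at *
    have h2 : ((M + 1 - m : ℕ) : ℝ) = (M : ℝ) + 1 - m := by
      rw [Nat.cast_sub (by omega)]
      push_cast
      ring
    have h3 : (S.card : ℝ) ≤ ((M + 1 - m : ℕ) : ℝ) := by exact_mod_cast hc
    rw [h2] at h3
    have hs0 : 0 < sd m := LibMoser5.Fill_sd_pos m
    have h4 : ∑ n ∈ S, sd n ≤ (S.card : ℝ) * sd m := by
      rw [← nsmul_eq_mul]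
      exact Finset.sum_le_card_nsmul _ _ _ (fun n hn => LibMoserF.sd_anti (hmin n hn))
    have h5 : sd m = ((M : ℝ) - m + (m + 1 / 2)) / ((m : ℝ) + 1 / 2) * sd M := by
      unfold sd
      have : (M : ℝ) - m + (m + 1 / 2) = M + 1 / 2 := by ring
      rw [this]
      field_simp
    have h6 : ((M : ℝ) - m) * sd m = sd m / sd M - 1 := by
      unfold sd
      field_simp
      ring
    have h7 : sd m / sd M ≤ β / α :=
      div_le_div₀ (by linarith) hm.2 hα hM.1
    have h8 : (β - α) / α = β / α - 1 := by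
      field_simp
    rw [h8]
    have h9 : (S.card : ℝ) * sd m ≤ ((M : ℝ) + 1 - m) * sd m :=
      mul_le_mul_of_nonneg_right h3 hs0.le
    have h10 : ((M : ℝ) + 1 - m) * sd m = ((M : ℝ) - m) * sd m + sd m := by ring
    linarith [hm.2]

/-- children of a row of thickness `p` in window `j`, pool `[a,b)` -/
theorem child_le {q : ℝ} (hq : 0 < q) {a b j : ℕ} (ha : 1 ≤ a) (hab : a ≤ b) (hj : 1 ≤ j) (p : ℝ) :
    ∑ n ∈ (pool q a b).filter (fun n => InWin q j (p - sd n)), sd n ≤
      (th q j - th q (j + 1)) / th q b + th q a := by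
  set S := (pool q a b).filter (fun n => InWin q j (p - sd n)) with hS
  have hb : 1 ≤ b := ha.trans hab
  have htb : 0 < th q b := th_pos hq (by omega)
  have hta : 0 < th q a := th_pos hq (by omega)
  have htj : th q (j + 1) ≤ th q j := th_anti hq (by omega) (by omega)
  rcases S.eq_empty_or_nonempty with he | hne
  · rw [he, Finset.sum_empty]
    have : 0 ≤ (th q j - th q (j + 1)) / th q b := div_nonneg (by linarith) htb.le
    linarith
  · have hmem : ∀ n ∈ S, (th q b < sd n ∧ sd n ≤ th q a) ∧ InWin q j (p - sd n) := by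
      intro n hn
      rw [hS, Finset.mem_filter, mem_pool hq ha hb] at hn
      exact hn
    have hm := hmem _ (S.min'_mem hne)
    have hM := hmem _ (S.max'_mem hne)
    have hmin : ∀ n ∈ S, S.min' hne ≤ n := fun n hn => S.min'_le n hn
    have hmax : ∀ n ∈ S, n ≤ S.max' hne := fun n hn => S.le_max' n hn
    have hle : S.min' hne ≤ S.max' hne := S.min'_le _ (S.max'_mem hne)
    generalize S.max' hne = M at *
    generalize S.min' hne = m at *
    have h1 := sum_sd_Icc S (LibMoser5.Fill_sd_pos M) (LibMoserF.sd_anti hle)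
      (fun n hn => ⟨LibMoserF.sd_anti (hmax n hn), LibMoserF.sd_anti (hmin n hn)⟩)
    refine h1.trans (add_le_add ?_ hm.1.2)
    refine div_le_div₀ (by linarith) ?_ htb hM.1.1.le
    have h2 := hm.2.1
    have h3 := hM.2.2
    linarith

theorem child_zero {q : ℝ} (hq : 0 < q) {a b j : ℕ} (ha : 1 ≤ a) (hab : a ≤ b) (p : ℝ)
    (h : p - th q b ≤ th q (j + 1) ∨ th q j < p - th q a) :
    ∑ n ∈ (pool q a b).filter (fun n => InWin q j (p - sd n)), sd n = 0 := by
  have hb : 1 ≤ b := ha.trans hab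
  have he : (pool q a b).filter (fun n => InWin q j (p - sd n)) = ∅ := by
    rw [Finset.filter_eq_empty_iff]
    intro n hn hw
    rw [mem_pool hq ha hb] at hn
    have h1 := hw.1
    have h2 := hw.2
    rcases h with h | h
    · linarith [hn.1]
    · linarith [hn.2]
  rw [he, Finset.sum_empty]

/-- mean thickness of the children of a row: delay to the start of the pool plus half of the pool -/
theorem births_le {q : ℝ} (hq : 0 < q) {a b : ℕ} (ha : 1 ≤ a) (hab : a < b)
    (hne : (pool q a b).Nonempty) (p : ℝ) :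
    ∑ n ∈ pool q a b, (p - sd n) ≤
      (pool q a b).card * (p - th q a + (th q a) ^ 2 * ((pool q a b).card + 1) / 2) := by
  set t := th q a with ht
  have ht0 : 0 < t := th_pos hq (by omega)
  have hqa : (a : ℝ) ^ 3 / q = 1 / t := by
    rw [ht]
    unfold th
    rw [one_div_div]
  have hA : ((ix q a : ℕ) : ℝ) < 1 / t + 1 / 2 := by
    rw [← hqa]
    unfold ix
    have hpos : 0 < (a : ℝ) ^ 3 / q := by
      rw [hqa]
      positivity
    rcases le_or_gt 0 ((a : ℝ) ^ 3 / q - 1 / 2) with h | h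
    · have := Nat.ceil_lt_add_one h
      linarith
    · rw [Nat.ceil_eq_zero.2 h.le]
      push_cast
      linarith
  have hle : ix q a ≤ ix q b := ix_mono hq hab.le
  have hterm : ∀ d : ℕ, p - sd (ix q a + d) ≤ p - t + t ^ 2 * ((d : ℝ) + 1) := by
    intro d
    have h1 : sd (ix q a + d) ≥ t - t ^ 2 * ((d : ℝ) + 1) := by
      unfold sd
      push_cast
      have hx0 : (0 : ℝ) < ((ix q a : ℕ) : ℝ) + d + 1 / 2 := by positivity
      have hx1 : ((ix q a : ℕ) : ℝ) + d + 1 / 2 < 1 / t + (d + 1) := by linarith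
      have hd0 : (0 : ℝ) < (d : ℝ) + 1 := by positivity
      have h2 : 1 / (1 / t + (d + 1)) ≤ 1 / (((ix q a : ℕ) : ℝ) + d + 1 / 2) :=
        one_div_le_one_div_of_le hx0 hx1.le
      have h3 : t - t ^ 2 * ((d : ℝ) + 1) ≤ 1 / (1 / t + (d + 1)) := by
        rw [le_div_iff₀ (by positivity)]
        have h4 : (t - t ^ 2 * ((d : ℝ) + 1)) * (1 / t + (d + 1)) =
            1 - (t * (d + 1)) ^ 2 := by
          field_simp
          ring
        rw [h4]
        have : 0 ≤ (t * ((d : ℝ) + 1)) ^ 2 := sq_nonneg _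
        linarith
      linarith
    linarith
  have hcard : (pool q a b).card = ix q b - ix q a := by
    unfold pool
    rw [Nat.card_Ico]
  unfold pool
  rw [Finset.sum_Ico_eq_sum_range, Nat.card_Ico]
  generalize ix q b - ix q a = n
  clear hcard
  calc ∑ k ∈ Finset.range n, (p - sd (ix q a + k)) ≤
      ∑ k ∈ Finset.range n, (p - t + t ^ 2 * ((k : ℝ) + 1)) :=
        Finset.sum_le_sum (fun k _ => hterm k)
    _ = (n : ℝ) * (p - t + t ^ 2 * ((n : ℝ) + 1) / 2) := by
        induction n with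
        | zero => simp
        | succ n ih =>
          rw [Finset.sum_range_succ, ih]
          push_cast
          ring

/-- all end pieces of a list are cut -/
theorem PT.cut_eps {W H : ℝ} {F : List (ℝ × ℝ)} {P : Finset ℕ} (L : List EP) (φ : List ℝ)
    (h : PT W H (L.map (fun x => (x.a, x.b)) ++ F) P) (hl : φ.length = L.length)
    (hφ : ∀ y ∈ φ, 0 ≤ y ∧ y ≤ 1) (hL : ∀ x ∈ L, 0 ≤ x.a) :
    PT W H ((L.zip φ).flatMap (fun z => z.1.strips z.2) ++ F) P := by
  induction L generalizing F φ with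
  | nil =>
    simpa using h
  | cons x L ih =>
    rcases φ with _ | ⟨y, φ⟩
    · simp at hl
    · rw [List.map_cons, List.cons_append] at h
      have hy := hφ y (by simp)
      have hx := hL x (by simp)
      have h1 : PT W H ((x.b, x.a) :: (L.map (fun x => (x.a, x.b)) ++ F)) P := h.swap
      have h2 := h1.cut (b₁ := y * x.a) (mul_nonneg hy.1 hx)
        (by nlinarith [mul_nonneg (sub_nonneg.2 hy.2) hx])
      have h3 := h2.swap
      have h4 : PT W H ((x.b, x.a - y * x.a) :: (y * x.a, x.b) ::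
          (L.map (fun x => (x.a, x.b)) ++ F)) P := h3.perm (List.Perm.swap _ _ _)
      have h5 := h4.swap
      have h6 : PT W H (L.map (fun x => (x.a, x.b)) ++
          ((y * x.a, x.b) :: ((1 - y) * x.a, x.b) :: F)) P := by
        have e : x.a - y * x.a = (1 - y) * x.a := by ring
        rw [e] at h5
        refine h5.perm ?_
        refine (List.Perm.swap _ _ _).trans ?_
        refine (List.Perm.cons _ List.perm_middle.symm).trans ?_
        exact List.perm_middle.symm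
      have h7 := ih φ h6 (by simpa using hl) (fun z hz => hφ z (by simp [hz]))
        (fun z hz => hL z (by simp [hz]))
      rw [List.zip_cons_cons, List.flatMap_cons]
      refine h7.perm ?_
      unfold EP.strips
      simp only [List.cons_append, List.nil_append]
      refine List.perm_middle.trans (List.Perm.cons _ ?_)
      exact List.perm_middle

/-- last step: if all finite sets of squares `[1, M)` are packed, everything is packed perfectly -/
theorem assemble {W H : ℝ} (hW : 0 < W) (hH : 0 < H)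
    (h : ∀ M : ℕ, ∃ F P, PT W H F P ∧ ∀ n, 1 ≤ n → n < M → n ∈ P) :
    ∃ p : ℕ → ℝ × ℝ, (∀ n, 1 ≤ n → (LibMoser5.sq n (p n)).Inside W H) ∧
      (∀ m n, 1 ≤ m → 1 ≤ n → m ≠ n → (LibMoser5.sq m (p m)).Sep (LibMoser5.sq n (p n))) := by
  refine compact_pack W H hW.le hH.le 1 (fun M => ?_)
  obtain ⟨F, P, hPT, hP⟩ := h M
  obtain ⟨p, hp1, hp2⟩ := hPT.pack
  exact ⟨p, fun n h1 h2 => hp1 n (hP n h1 h2), fun m n h1 h2 h3 h4 h5 =>
    hp2 m (hP m h1 h2) n (hP n h3 h4) h5⟩

/-- free area = area of the squares not yet placed (for a packing of all squares `n ≥ 1` of total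
area `W H`) -/
theorem area_free {W H : ℝ} {F : List (ℝ × ℝ)} {P : Finset ℕ} (h : PT W H F P)
    (hWH : W * H = ∑' n : ℕ, sd (n + 1) ^ 2) (hP : ∀ n ∈ P, 1 ≤ n) :
    ar F = ∑' n : ℕ, (if n + 1 ∈ P then 0 else sd (n + 1) ^ 2) := by
  have h2 := h.2
  have hs : Summable (fun n : ℕ => sd (n + 1) ^ 2) := by
    have := sd_summable_shift 1
    simpa [add_comm] using this
  have hg : ∀ n, n ∉ P.image (fun k => k - 1) → (if n + 1 ∈ P then sd (n + 1) ^ 2 else 0) = 0 := by
    intro n hn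
    rw [if_neg]
    intro hmem
    exact hn (Finset.mem_image.2 ⟨n + 1, hmem, by simp⟩)
  have h3 : ∑' n : ℕ, (if n + 1 ∈ P then sd (n + 1) ^ 2 else 0) = ∑ n ∈ P, sd n ^ 2 := by
    rw [tsum_eq_sum hg, Finset.sum_image]
    · refine Finset.sum_congr rfl (fun n hn => ?_)
      have h1 : n - 1 + 1 = n := Nat.sub_add_cancel (hP n hn)
      rw [h1, if_pos hn]
    · intro m hm n hn hmn
      have h1 := hP m hm
      have h2 := hP n hn
      simp only at hmn
      omega
  have hs2 : Summable (fun n : ℕ => if n + 1 ∈ P then sd (n + 1) ^ 2 else 0) :=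
    summable_of_ne_finset_zero (s := P.image (fun k => k - 1)) hg
  have h4 : ∑' n : ℕ, (if n + 1 ∈ P then 0 else sd (n + 1) ^ 2) =
      ∑' n : ℕ, sd (n + 1) ^ 2 - ∑' n : ℕ, (if n + 1 ∈ P then sd (n + 1) ^ 2 else 0) := by
    rw [← hs.tsum_sub hs2]
    refine tsum_congr (fun n => ?_)
    split_ifs <;> simp
  rw [h4, h3, ← hWH]
  linarith

end

end Pool.Agent.LibMoserT
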