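import Pool.Agent.LibMoserT.FatK
import Pool.Agent.LibMoserT.Win
set_option autoImplicit false
/-!
# The fat lane: data of a frame

A frame = the squares `Ico x0 x1` (sides in `[th q l1, th q l]`).  The `NF` fat rectangles are
filled with strips of `μ` columns.
-/
namespace Pool.Agent.LibMoserT
open Pool.Agent.LibMoser5 Pool.Agent.LibMoserF Classical

noncomputable section

/-- parameters of a frame of the fat lane: labels `l < l1`, `x` = labels of the pending squares,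
`rd` = area reserve (`24/(5 rd)` of the squares behind the frame), `μ` columns, `s` = density of the
squares for the fat lane, `NF` rectangles -/
structure FatP where
  qn : ℕ
  NF : ℕ
  l : ℕ
  l1 : ℕ
  x : ℕ
  rd : ℕ
  μ : ℕ
  s : ℝ

namespace FatP
variable (f : FatP)

/-- bound for the number of rows of a strip -/
def K : ℕ := Nat.sqrt (4 * f.l ^ 3 / (3 * (f.qn * f.NF))) + 1
def thr : ℕ := f.μ * (f.K + 1)
/-- largest number of indices spanned by `thr` squares -/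
def w : ℝ := f.thr / (f.s - 1 / 2048) + 16384
/-- largest side, smallest side -/
def S : ℝ := th f.qn (f.l - f.x)
def σ : ℝ := th f.qn f.l1
def D : ℝ := f.S - f.σ
/-- largest thickness of a sliver -/
def y : ℝ := f.μ * f.w * f.S ^ 2
/-- lower bound for the number of rows of a strip -/
def ρ : ℕ := Nat.sqrt (4 * f.l ^ 3 / (f.qn * f.rd * f.NF))
/-- bound for the number of strips -/
def N : ℝ := (((f.l1 : ℝ) ^ 3 - (f.l : ℝ) ^ 3) / f.qn + 1 + f.thr) / (f.μ * ((f.ρ : ℝ) - 1))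
/-- mass of the slivers with thickness in `(α, β]` -/
def NG (α β : ℝ) : ℝ :=
  if α ≤ f.y ∧ (f.μ : ℝ) ^ 2 * f.σ ^ 2 ≤ β then
    min f.N (f.μ * f.D / α) * ((β - α) / ((f.μ : ℝ) ^ 2 * f.σ ^ 2) + 1) * (f.S + 4 / 5 * β)
  else 0
/-- thickness of the slivers -/
def tG : ℝ := f.μ * f.K * f.D
/-- mass of the new rows of class J -/
def mJ : ℝ := 3 / 2 * (((f.μ : ℝ) ^ 2 + f.K) * f.D + f.N * f.μ * f.S) +
  f.N * (f.μ * f.S + 4 / 5 * f.S)
/-- thickness of the new rows of class J -/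
def tJ : ℝ := ((f.μ : ℝ) ^ 2 + f.K) * f.D + f.N * f.S
/-- area which must be left in the fat rectangles after the frame -/
def AR : ℝ := 24 / (5 * f.rd) * f.σ

/-- numerical conditions -/
structure Ok : Prop where
  q1 : 1 ≤ f.qn
  q2 : f.qn ≤ 8192
  l0 : 8192 ≤ f.l
  lx : f.l + f.x ≤ f.l1
  l1 : 32 * f.l1 ≤ 33 * f.l
  x1 : 1 ≤ f.x
  x64 : f.x ≤ 64
  μ2 : 2 ≤ f.μ
  s0 : 1 / 10 ≤ f.s
  rd0 : 1 ≤ f.rd
  NF0 : 1 ≤ f.NF
  rdq : f.qn * f.rd * f.NF * 10 ^ 6 ≤ 4 * f.l ^ 3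
  rdμ : 175 * f.NF * f.rd * f.μ ^ 2 * f.qn ≤ f.l ^ 3
  hw : f.w ≤ ((f.l : ℝ) ^ 3 - ((f.l - f.x : ℕ) : ℝ) ^ 3) / f.qn - 1
  hy : 6 / 5 * f.y ≤ f.σ

end FatP

/-- thickness edges of the groups of class G: group `i` is served by the blocks
`32 i ≤ · < 32 (i + 1)` -/
def gEdge (q : ℝ) (i : ℕ) : ℝ := th q (32 * i - 36)

/-- `U` is dense in the frame `Ico x0 x1`: every block of 4096 squares contains at least
`4096 s - 2` of its squares -/
def Dens (s : ℝ) (x0 x1 : ℕ) (U : Finset ℕ) : Prop :=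
  ∀ i, x0 + (i + 1) * 4096 ≤ x1 →
    s * 4096 - 2 ≤ ((U.filter (fun n => x0 + i * 4096 ≤ n ∧ n < x0 + (i + 1) * 4096)).card : ℝ)

/-- `U` = pending squares of the fat lane before the frame which starts at `x0` -/
structure Pend (s : ℝ) (thr : ℕ) (S : ℝ) (x0 : ℕ) (U : Finset ℕ) : Prop where
  lt : ∀ n ∈ U, n < x0
  card : U.card ≤ thr
  side : ∀ n ∈ U, sd n ≤ S
  dens : ∀ n ∈ U, (x0 : ℝ) - n ≤
    (U.filter (fun m => n ≤ m)).card / (s - 1 / 2048) + 8192

theorem Pend.mono {s s' : ℝ} {thr thr' : ℕ} {S S' : ℝ} {x0 : ℕ} {U : Finset ℕ}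
    (h : Pend s thr S x0 U) (hs : s' ≤ s) (hs' : 1 / 2048 < s') (ht : thr ≤ thr') (hS : S ≤ S') :
    Pend s' thr' S' x0 U where
  lt := h.lt
  card := h.card.trans ht
  side := fun n hn => (h.side n hn).trans hS
  dens := by
    intro n hn
    refine (h.dens n hn).trans ?_
    have h1 : (0 : ℝ) ≤ (U.filter (fun m => n ≤ m)).card := Nat.cast_nonneg _
    have := div_le_div_of_nonneg_left h1 (by linarith : 0 < s' - 1 / 2048)
      (by linarith : s' - 1 / 2048 ≤ s - 1 / 2048)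
    linarith

theorem Pend.empty (s : ℝ) (thr : ℕ) (S : ℝ) (x0 : ℕ) : Pend s thr S x0 ∅ :=
  ⟨by simp, by simp, by simp, by simp⟩

end

end Pool.Agent.LibMoserT
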