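import Pool.Agent.LibMoserT.FatDefs
set_option autoImplicit false
/-!
# Enumeration of the squares for the fat lane, span lemma
-/
namespace Pool.Agent.LibMoserT
open Pool.Agent.LibMoser5 Pool.Agent.LibMoserF Classical

noncomputable section

/-- increasing enumeration of a finite set -/
theorem exists_enum (U : Finset ℕ) : ∃ u : ℕ → ℕ,
    (∀ k l, k < l → l < U.card → u k < u l) ∧ (∀ n, n ∈ U ↔ ∃ k < U.card, u k = n) := by
  refine ⟨fun k => if h : k < U.card then U.orderEmbOfFin rfl ⟨k, h⟩ else 0, ?_, ?_⟩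
  · intro k l hkl hl
    have hk : k < U.card := hkl.trans hl
    simp only [hk, hl, dif_pos]
    exact (U.orderEmbOfFin rfl).strictMono (by simpa using hkl)
  · intro n
    constructor
    · intro hn
      have : n ∈ Set.range (U.orderEmbOfFin rfl) := by
        rw [Finset.range_orderEmbOfFin]
        exact hn
      obtain ⟨k, hk⟩ := this
      refine ⟨k.1, k.2, ?_⟩
      simp only [k.2, dif_pos]
      exact hk
    · rintro ⟨k, hk, rfl⟩
      simp only [hk, dif_pos]
      exact U.orderEmbOfFin_mem rfl _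

set_option maxRecDepth 20000 in
/-- the squares in `[a, b)` of a dense set -/
theorem Dens.span {s : ℝ} {x0 x1 : ℕ} {U : Finset ℕ} (hs : 1 / 2048 < s)
    (hd : Dens s x0 x1 U) {a b : ℕ} (h0 : x0 ≤ a) (h1 : a ≤ b) (h2 : b ≤ x1) :
    (b : ℝ) - a ≤ (U.filter (fun n => a ≤ n ∧ n < b)).card / (s - 1 / 2048) + 8192 := by
  have hs' : 0 < s - 1 / 2048 := by linarith
  -- first block after `a`
  obtain ⟨i0, hi0⟩ : ∃ i0, i0 = (a - x0 + 4095) / 4096 := ⟨_, rfl⟩
  have e1 : a ≤ x0 + i0 * 4096 := by omega
  have e2 : x0 + i0 * 4096 < a + 4096 := by omega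
  have key : ∀ k, x0 + (i0 + k) * 4096 ≤ b → (k : ℝ) * (s * 4096 - 2) ≤
      ((U.filter (fun n => a ≤ n ∧ n < x0 + (i0 + k) * 4096)).card : ℝ) := by
    intro k
    induction k with
    | zero =>
      intro _
      simp
    | succ k ih =>
      intro hk
      have h3 := ih (by omega)
      have h4 := hd (i0 + k) (by omega)
      have h5 : (U.filter (fun n => a ≤ n ∧ n < x0 + (i0 + k) * 4096)).card +
          (U.filter (fun n => x0 + (i0 + k) * 4096 ≤ n ∧ n < x0 + (i0 + k + 1) * 4096)).card ≤
          (U.filter (fun n => a ≤ n ∧ n < x0 + (i0 + (k + 1)) * 4096)).card := by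
        rw [← Finset.card_union_of_disjoint]
        · apply Finset.card_le_card
          intro n hn
          rw [Finset.mem_union, Finset.mem_filter, Finset.mem_filter] at hn
          rw [Finset.mem_filter]
          rcases hn with ⟨h6, h7, h8⟩ | ⟨h6, h7, h8⟩
          · exact ⟨h6, h7, by omega⟩
          · exact ⟨h6, by omega, by omega⟩
        · rw [Finset.disjoint_left]
          intro n hn hn'
          rw [Finset.mem_filter] at hn hn'
          omega
      have h6 : ((U.filter (fun n => a ≤ n ∧ n < x0 + (i0 + k) * 4096)).card : ℝ) +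
          (U.filter (fun n => x0 + (i0 + k) * 4096 ≤ n ∧ n < x0 + (i0 + k + 1) * 4096)).card ≤
          (U.filter (fun n => a ≤ n ∧ n < x0 + (i0 + (k + 1)) * 4096)).card := by
        exact_mod_cast h5
      push_cast
      linarith
  have hc0 : (0 : ℝ) ≤ ((U.filter (fun n => a ≤ n ∧ n < b)).card : ℝ) / (s - 1 / 2048) := by
    positivity
  rcases Nat.lt_or_ge b (x0 + i0 * 4096) with h3 | h3
  · have : (b : ℝ) < (a : ℝ) + 4096 := by exact_mod_cast (by omega : b < a + 4096)
    linarith
  · obtain ⟨k, hk⟩ : ∃ k, k = (b - (x0 + i0 * 4096)) / 4096 := ⟨_, rfl⟩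
    have e3 : x0 + (i0 + k) * 4096 ≤ b := by omega
    have e4 : b < x0 + (i0 + k) * 4096 + 4096 := by omega
    have h4 := key k e3
    have h5 : ((U.filter (fun n => a ≤ n ∧ n < x0 + (i0 + k) * 4096)).card : ℝ) ≤
        ((U.filter (fun n => a ≤ n ∧ n < b)).card : ℝ) := by
      have : (U.filter (fun n => a ≤ n ∧ n < x0 + (i0 + k) * 4096)).card ≤
          (U.filter (fun n => a ≤ n ∧ n < b)).card := by
        apply Finset.card_le_card
        intro n hn
        rw [Finset.mem_filter] at hn ⊢
        exact ⟨hn.1, hn.2.1, by omega⟩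
      exact_mod_cast this
    have h6 : (k : ℝ) * 4096 ≤
        ((U.filter (fun n => a ≤ n ∧ n < b)).card : ℝ) / (s - 1 / 2048) := by
      rw [le_div_iff₀ hs']
      have : (k : ℝ) * 4096 * (s - 1 / 2048) = (k : ℝ) * (s * 4096 - 2) := by ring
      rw [this]
      linarith
    have h7 : (b : ℝ) < (a : ℝ) + 4096 + k * 4096 + 4096 := by
      have : b < a + 4096 + k * 4096 + 4096 := by omega
      exact_mod_cast this
    linarith

/-- number of elements of the enumerated set in `[u i, u j)` -/
theorem enum_card {U : Finset ℕ} {u : ℕ → ℕ} (hu : ∀ k l, k < l → l < U.card → u k < u l)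
    (hU : ∀ n, n ∈ U ↔ ∃ k < U.card, u k = n) {i j : ℕ} (hij : i ≤ j) (hj : j < U.card) :
    (U.filter (fun n => u i ≤ n ∧ n < u j)).card = j - i := by
  have : U.filter (fun n => u i ≤ n ∧ n < u j) = (Finset.Ico i j).image u := by
    ext n
    rw [Finset.mem_filter, Finset.mem_image]
    constructor
    · rintro ⟨hn, h1, h2⟩
      obtain ⟨k, hk, rfl⟩ := (hU n).1 hn
      refine ⟨k, ?_, rfl⟩
      rw [Finset.mem_Ico]
      constructor
      · by_contra hcon
        have := hu k i (by omega) (by omega)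
        omega
      · by_contra hcon
        rcases Nat.lt_or_ge j k with h3 | h3
        · have := hu j k h3 hk
          omega
        · have : j = k := by omega
          subst this
          omega
    · rintro ⟨k, hk, rfl⟩
      rw [Finset.mem_Ico] at hk
      refine ⟨(hU _).2 ⟨k, by omega, rfl⟩, ?_, hu k j hk.2 hj⟩
      rcases Nat.lt_or_ge i k with h3 | h3
      · exact (hu i k h3 (by omega)).le
      · have : i = k := by omega
        rw [this]
  rw [this, Finset.card_image_of_injOn, Nat.card_Ico]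
  intro a ha b hb hab
  simp only [Finset.coe_Ico, Set.mem_Ico] at ha hb
  rcases lt_trichotomy a b with h | h | h
  · exact absurd hab (ne_of_lt (hu a b h (by omega)))
  · exact h
  · exact absurd hab.symm (ne_of_lt (hu b a h (by omega)))

/-- **span lemma**: `thr` consecutive elements of `Up ∪ Uf` span at most
`thr/(s - 1/2048) + 16384` indices -/
theorem enum_span {s : ℝ} {thr : ℕ} {S : ℝ} {x0 x1 : ℕ} {Up Uf : Finset ℕ} {u : ℕ → ℕ}
    (hs : 1 / 2048 < s)
    (hUf : ∀ n ∈ Uf, x0 ≤ n ∧ n < x1) (hd : Dens s x0 x1 Uf) (hp : Pend s thr S x0 Up)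
    (hu : ∀ k l, k < l → l < (Up ∪ Uf).card → u k < u l)
    (hU : ∀ n, n ∈ Up ∪ Uf ↔ ∃ k < (Up ∪ Uf).card, u k = n)
    {i j : ℕ} (hij : i ≤ j) (hj : j < (Up ∪ Uf).card) (hthr : j ≤ i + thr) :
    (u j : ℝ) - u i ≤ thr / (s - 1 / 2048) + 16384 := by
  have hs' : 0 < s - 1 / 2048 := by linarith
  have hc := enum_card hu hU hij hj
  have huij : u i ≤ u j := by
    rcases Nat.lt_or_ge i j with h | h
    · exact (hu i j h hj).le
    · have : i = j := by omega
      rw [this]
  have hjm : u j ∈ Up ∪ Uf := (hU _).2 ⟨j, hj, rfl⟩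
  have him : u i ∈ Up ∪ Uf := (hU _).2 ⟨i, by omega, rfl⟩
  have hdiv : ∀ c : ℕ, c ≤ thr → (c : ℝ) / (s - 1 / 2048) ≤ thr / (s - 1 / 2048) := by
    intro c hc
    exact div_le_div_of_nonneg_right (by exact_mod_cast hc) hs'.le
  rcases Finset.mem_union.1 him with hi | hi
  · rcases Finset.mem_union.1 hjm with hj' | hj'
    · -- both pending
      have h1 := hp.dens _ hi
      have h2 : (Up.filter (fun m => u i ≤ m)).card ≤ thr :=
        (Finset.card_le_card (Finset.filter_subset _ _)).trans hp.card
      have h3 := hdiv _ h2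
      have h4 : (u j : ℝ) ≤ x0 := by exact_mod_cast (hp.lt _ hj').le
      linarith
    · -- first pending, last in the frame
      have h1 := hp.dens _ hi
      have h2 := hUf _ hj'
      have h3 := hd.span hs le_rfl h2.1 h2.2.le
      have h4 : (Up.filter (fun m => u i ≤ m)).card +
          (Uf.filter (fun n => x0 ≤ n ∧ n < u j)).card ≤
          ((Up ∪ Uf).filter (fun n => u i ≤ n ∧ n < u j)).card := by
        rw [← Finset.card_union_of_disjoint]
        · apply Finset.card_le_card
          intro n hn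
          rw [Finset.mem_union, Finset.mem_filter, Finset.mem_filter] at hn
          rw [Finset.mem_filter, Finset.mem_union]
          rcases hn with ⟨h6, h7⟩ | ⟨h6, h7, h8⟩
          · have := hp.lt _ h6
            exact ⟨Or.inl h6, h7, by omega⟩
          · have := hp.lt _ hi
            exact ⟨Or.inr h6, by omega, h8⟩
        · rw [Finset.disjoint_left]
          intro n hn hn'
          rw [Finset.mem_filter] at hn hn'
          have := hp.lt _ hn.1
          omega
      rw [hc] at h4
      have h5 := hdiv _ (by omega : (Up.filter (fun m => u i ≤ m)).card +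
          (Uf.filter (fun n => x0 ≤ n ∧ n < u j)).card ≤ thr)
      push_cast at h5
      rw [add_div] at h5
      linarith
  · rcases Finset.mem_union.1 hjm with hj' | hj'
    · have h1 := hUf _ hi
      have h2 := hp.lt _ hj'
      omega
    · have h1 := hUf _ hi
      have h2 := hUf _ hj'
      have h3 := hd.span hs h1.1 huij h2.2.le
      have h4 : (Uf.filter (fun n => u i ≤ n ∧ n < u j)).card ≤
          ((Up ∪ Uf).filter (fun n => u i ≤ n ∧ n < u j)).card := by
        apply Finset.card_le_card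
        intro n hn
        rw [Finset.mem_filter] at hn ⊢
        exact ⟨Finset.mem_union_right _ hn.1, hn.2⟩
      rw [hc] at h4
      have h5 := hdiv _ (by omega : (Uf.filter (fun n => u i ≤ n ∧ n < u j)).card ≤ thr)
      linarith

/-- number of squares in a long frame -/
theorem Dens.card_ge {s : ℝ} {x0 x1 : ℕ} {U : Finset ℕ} (hs : 1 / 2048 < s)
    (hd : Dens s x0 x1 U) {thr : ℕ} (h : (x0 : ℝ) + (thr / (s - 1 / 2048) + 16384) ≤ x1) :
    thr ≤ U.card := by
  have hs' : 0 < s - 1 / 2048 := by linarith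
  have h0 : (0 : ℝ) ≤ thr / (s - 1 / 2048) := by positivity
  have h1 : x0 ≤ x1 := by
    have : (x0 : ℝ) ≤ x1 := by linarith
    exact_mod_cast this
  have h2 := hd.span hs le_rfl h1 le_rfl
  have h3 : ((U.filter (fun n => x0 ≤ n ∧ n < x1)).card : ℝ) / (s - 1 / 2048) ≤
      U.card / (s - 1 / 2048) := by
    apply div_le_div_of_nonneg_right _ hs'.le
    exact_mod_cast Finset.card_le_card (Finset.filter_subset _ _)
  have h4 : (thr : ℝ) / (s - 1 / 2048) ≤ U.card / (s - 1 / 2048) := by linarith
  have h5 := (div_le_div_iff_of_pos_right hs').1 h4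
  exact_mod_cast h5

/-- the last squares are pending -/
theorem pend_new {s : ℝ} {thr : ℕ} {S S' : ℝ} {x0 x1 : ℕ} {Up Uf : Finset ℕ} {u : ℕ → ℕ}
    (hs : 1 / 2048 < s)
    (hUf : ∀ n ∈ Uf, x0 ≤ n ∧ n < x1) (hd : Dens s x0 x1 Uf) (hp : Pend s thr S x0 Up)
    (hu : ∀ k l, k < l → l < (Up ∪ Uf).card → u k < u l)
    (hU : ∀ n, n ∈ Up ∪ Uf ↔ ∃ k < (Up ∪ Uf).card, u k = n)
    (hbig : (x0 : ℝ) + (thr / (s - 1 / 2048) + 16384) ≤ x1) {o' : ℕ}
    (ho : (Up ∪ Uf).card < o' + thr)
    (hS : ∀ n : ℕ, (x1 : ℝ) - n ≤ thr / (s - 1 / 2048) + 16384 → sd n ≤ S') :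
    (Finset.Ico o' (Up ∪ Uf).card).image u ⊆ Uf ∧
      Pend s thr S' x1 ((Finset.Ico o' (Up ∪ Uf).card).image u) := by
  have hs' : 0 < s - 1 / 2048 := by linarith
  have hge := hd.card_ge hs hbig
  have hinj : ∀ k l, k < (Up ∪ Uf).card → l < (Up ∪ Uf).card → u k = u l → k = l := by
    intro k l hk hl e
    rcases lt_trichotomy k l with h | h | h
    · exact absurd e (ne_of_lt (hu _ _ h hl))
    · exact h
    · exact absurd e.symm (ne_of_lt (hu _ _ h hk))
  have hmono : ∀ k l, k < (Up ∪ Uf).card → l < (Up ∪ Uf).card → u k < u l → k < l := by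
    intro k l hk hl e
    rcases lt_trichotomy k l with h | h | h
    · exact h
    · rw [h] at e; omega
    · have := hu _ _ h hk
      omega
  have hsub : (Finset.Ico o' (Up ∪ Uf).card).image u ⊆ Uf := by
    intro n hn
    obtain ⟨k, hk, rfl⟩ := Finset.mem_image.1 hn
    rw [Finset.mem_Ico] at hk
    have hm : u k ∈ Up ∪ Uf := (hU _).2 ⟨k, hk.2, rfl⟩
    rcases Finset.mem_union.1 hm with h1 | h1
    · exfalso
      -- all squares of the frame come later
      have h2 : Uf ⊆ (Finset.Ioo k (Up ∪ Uf).card).image u := by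
        intro m hmf
        obtain ⟨l, hl, rfl⟩ := (hU m).1 (Finset.mem_union_right _ hmf)
        rw [Finset.mem_image]
        refine ⟨l, ?_, rfl⟩
        rw [Finset.mem_Ioo]
        have h3 := hp.lt _ h1
        have h4 := (hUf _ hmf).1
        exact ⟨hmono _ _ hk.2 hl (by omega), hl⟩
      have h3 := (Finset.card_le_card h2).trans Finset.card_image_le
      rw [Nat.card_Ioo] at h3
      omega
    · exact h1
  refine ⟨hsub, ?_, ?_, ?_, ?_⟩
  · intro n hn
    exact (hUf _ (hsub hn)).2
  · refine Finset.card_image_le.trans ?_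
    rw [Nat.card_Ico]
    omega
  · intro n hn
    apply hS
    have h0 := hsub hn
    have h1 := hUf _ h0
    have h2 := hd.span hs h1.1 h1.2.le le_rfl
    obtain ⟨k, hk, rfl⟩ := Finset.mem_image.1 hn
    rw [Finset.mem_Ico] at hk
    have h3 : (Uf.filter (fun m => u k ≤ m ∧ m < x1)).card ≤ thr := by
      have h4 : Uf.filter (fun m => u k ≤ m ∧ m < x1) ⊆
          (Finset.Ico k (Up ∪ Uf).card).image u := by
        intro m hm
        rw [Finset.mem_filter] at hm
        obtain ⟨l, hl, rfl⟩ := (hU m).1 (Finset.mem_union_right _ hm.1)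
        rw [Finset.mem_image]
        refine ⟨l, ?_, rfl⟩
        rw [Finset.mem_Ico]
        refine ⟨?_, hl⟩
        by_contra hcon
        have := hu l k (by omega) hk.2
        omega
      have h5 := (Finset.card_le_card h4).trans Finset.card_image_le
      rw [Nat.card_Ico] at h5
      omega
    have h4 : ((Uf.filter (fun m => u k ≤ m ∧ m < x1)).card : ℝ) / (s - 1 / 2048) ≤
        thr / (s - 1 / 2048) :=
      div_le_div_of_nonneg_right (by exact_mod_cast h3) hs'.le
    linarith
  · intro n hn
    have h0 := hsub hn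
    have h1 := hUf _ h0
    have h2 := hd.span hs h1.1 h1.2.le le_rfl
    have h3 : Uf.filter (fun m => n ≤ m ∧ m < x1) ⊆
        ((Finset.Ico o' (Up ∪ Uf).card).image u).filter (fun m => n ≤ m) := by
      obtain ⟨k, hk, rfl⟩ := Finset.mem_image.1 hn
      rw [Finset.mem_Ico] at hk
      intro m hm
      rw [Finset.mem_filter] at hm ⊢
      refine ⟨?_, hm.2.1⟩
      obtain ⟨l, hl, rfl⟩ := (hU m).1 (Finset.mem_union_right _ hm.1)
      rw [Finset.mem_image]
      refine ⟨l, ?_, rfl⟩
      rw [Finset.mem_Ico]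
      refine ⟨?_, hl⟩
      by_contra hcon
      have := hu l k (by omega) hk.2
      omega
    have h4 : ((Uf.filter (fun m => n ≤ m ∧ m < x1)).card : ℝ) / (s - 1 / 2048) ≤
        (((Finset.Ico o' (Up ∪ Uf).card).image u).filter (fun m => n ≤ m)).card /
          (s - 1 / 2048) :=
      div_le_div_of_nonneg_right (by exact_mod_cast Finset.card_le_card h3) hs'.le
    linarith

end

end Pool.Agent.LibMoserT
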