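import Pool.Agent.LibMoserF.StripStep
set_option autoImplicit false
/-!
# Filling a list of fat rectangles with strips

Every strip goes to the rectangle of the largest area, so the areas stay balanced.
-/
namespace Pool.Agent.LibMoserT
open Pool.Agent.LibMoser5 Pool.Agent.LibMoserF Classical

noncomputable section

/-- a rectangle of the largest area in a nonempty list -/
theorem exists_argmax (L : List (ℝ × ℝ)) (h : L ≠ []) :
    ∃ x ∈ L, ∀ y ∈ L, y.1 * y.2 ≤ x.1 * x.2 := by
  have hne : L.toFinset.Nonempty := by
    obtain ⟨a, ha⟩ := List.exists_mem_of_ne_nil L h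
    exact ⟨a, List.mem_toFinset.2 ha⟩
  obtain ⟨x, hx, hmax⟩ := Finset.exists_max_image L.toFinset (fun y => y.1 * y.2) hne
  exact ⟨x, List.mem_toFinset.1 hx, fun y hy => hmax y (List.mem_toFinset.2 hy)⟩

/-- the area of a list is at most the number of rectangles times the largest area -/
theorem ar_le_length {L : List (ℝ × ℝ)} {A : ℝ} (h : ∀ y ∈ L, y.1 * y.2 ≤ A) :
    ar L ≤ L.length * A := by
  induction L with
  | nil => simp [ar]
  | cons a L ih =>
    rw [ar_cons, List.length_cons]
    push_cast
    have h1 := h a List.mem_cons_self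
    have h2 := ih (fun y hy => h y (List.mem_cons_of_mem _ hy))
    linarith

/-- a list of `NF` nearly square rectangles of nearly equal area -/
structure Fat (κ : ℝ) (NF : ℕ) (FL : List (ℝ × ℝ)) : Prop where
  len : FL.length = NF
  sq : ∀ x ∈ FL, 0 < x.1 ∧ x.1 ≤ x.2 ∧ x.2 ≤ κ * x.1
  bal : ∀ x ∈ FL, ∀ y ∈ FL, x.1 * x.2 ≤ κ * (y.1 * y.2)

theorem Fat.perm {κ : ℝ} {NF : ℕ} {FL FL' : List (ℝ × ℝ)} (h : Fat κ NF FL)
    (hp : FL.Perm FL') : Fat κ NF FL' :=
  ⟨by rw [← hp.length_eq]; exact h.len, fun x hx => h.sq x (hp.symm.subset hx),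
    fun x hx y hy => h.bal x (hp.symm.subset hx) y (hp.symm.subset hy)⟩

/-- the largest rectangle of a balanced list -/
theorem Fat.top {κ : ℝ} {NF : ℕ} {FL : List (ℝ × ℝ)} (h : Fat κ NF FL) {x : ℝ × ℝ}
    (hx : x ∈ FL) : NF * (x.1 * x.2) ≤ κ * ar FL := by
  have h1 : ∀ L : List (ℝ × ℝ), (∀ y ∈ L, x.1 * x.2 ≤ κ * (y.1 * y.2)) →
      (L.length : ℝ) * (x.1 * x.2) ≤ κ * ar L := by
    intro L hL
    induction L with
    | nil => simp [ar]
    | cons a L ih =>
      rw [ar_cons, List.length_cons]
      push_cast
      have h2 := hL a List.mem_cons_self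
      have h3 := ih (fun y hy => hL y (List.mem_cons_of_mem _ hy))
      linarith
  have := h1 FL (fun y hy => h.bal x hx y hy)
  rw [h.len] at this
  exact this

/-- **Filling the fat rectangles with strips.**  `step` chooses the next strip. -/
theorem fat_fillK {W H κ A0 A1 c : ℝ} {u : ℕ → ℕ} {L thr NF : ℕ} {Q : StripD → Prop}
    (hκ : 1 ≤ κ) (hthr : 0 < thr) (hNF : 0 < NF)
    (hu : ∀ k l, k < l → l < L → u k < u l)
    (step : ∀ (o : ℕ) (a b : ℝ), 0 < a → a ≤ b → b ≤ κ * a → A0 ≤ a * b →
      NF * (a * b) ≤ κ * A1 →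
      o + thr ≤ L →
      ∃ s : StripD, s.o = o ∧ o + s.n ≤ L ∧ hH s.M s.R (shu u o) ≤ a ∧
        a - hH s.M s.R (shu u o) ≤ sd (u o) ∧
        hW s.M (shu u o) * a ≤ c * ∑ k ∈ Finset.range s.n, sd (shu u o k) ^ 2 ∧
        hW s.M (shu u o) * κ ≤ a * (κ - 1) ∧ Q s) :
    ∀ (d o : ℕ) (FL F : List (ℝ × ℝ)) (P : Finset ℕ), L - o ≤ d → o ≤ L →
      PT W H (FL ++ F) P → Fat κ NF FL → ar FL ≤ A1 →
      NF * A0 + c * ∑ k ∈ Finset.Ico o L, sd (u k) ^ 2 ≤ ar FL → 0 ≤ c →
      (∀ k, o ≤ k → k < L → u k ∉ P) →
      ∃ (S : List StripD) (E FL' : List (ℝ × ℝ)) (o' : ℕ),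
        Chain o S o' ∧ o' ≤ L ∧ L < o' + thr ∧ (∀ s ∈ S, Q s) ∧
        List.Forall₂ (fun s e => 0 ≤ e.1 ∧ e.1 ≤ sd (u s.o) ∧ e.2 = hW s.M (shu u s.o)) S E ∧
        Fat κ NF FL' ∧
        NF * A0 + c * ∑ k ∈ Finset.Ico o' L, sd (u k) ^ 2 ≤ ar FL' ∧ ar FL' ≤ ar FL ∧
        PT W H (FL' ++ (S.flatMap (StripD.right u) ++ (S.flatMap (StripD.unc u) ++ (E ++ F))))
          (P ∪ (Finset.Ico o o').image u) := by
  intro d
  induction d with
  | zero =>
    intro o FL F P hd ho h hF hA1 hA hc hP
    refine ⟨[], [], FL, o, rfl, ho, by omega, by simp, List.Forall₂.nil, hF, hA, le_rfl, ?_⟩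
    simpa using h
  | succ d ih =>
    intro o FL F P hd ho h hF hA1 hA hc hP
    rcases Nat.lt_or_ge L (o + thr) with hlt | hge
    · refine ⟨[], [], FL, o, rfl, ho, hlt, by simp, List.Forall₂.nil, hF, hA, le_rfl, ?_⟩
      simpa using h
    · have hne : FL ≠ [] := by
        intro h0
        have := hF.len
        rw [h0] at this
        simp at this
        omega
      obtain ⟨x, hx, hmax⟩ := exists_argmax FL hne
      obtain ⟨a, b⟩ := x
      have hperm : FL.Perm ((a, b) :: FL.erase (a, b)) := List.perm_cons_erase hx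
      obtain ⟨ha, hab, hba⟩ := hF.sq _ hx
      simp only at ha hab hba hmax
      have hsum0 : 0 ≤ c * ∑ k ∈ Finset.Ico o L, sd (u k) ^ 2 :=
        mul_nonneg hc (Finset.sum_nonneg (fun k _ => sq_nonneg _))
      have hA0 : A0 ≤ a * b := by
        have h1 := ar_le_length hmax
        rw [hF.len] at h1
        have h2 : (NF : ℝ) * A0 ≤ NF * (a * b) := by linarith
        exact le_of_mul_le_mul_left h2 (by exact_mod_cast hNF)
      have hκ0' : 0 ≤ κ := by linarith
      obtain ⟨s, so, sL, sH, sH', sA, sW, sQ⟩ := step o a b ha hab hba hA0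
        ((hF.top hx).trans (mul_le_mul_of_nonneg_left hA1 hκ0')) hge
      set F0 := FL.erase (a, b) with hF0
      set w := hW s.M (shu u o) with hw
      set hh := hH s.M s.R (shu u o) with hhh
      have hn : 0 < s.n := by unfold StripD.n; positivity
      have hw0 : 0 ≤ w := Finset.sum_nonneg (fun k _ => (sd_pos _).le)
      have hκ0 : 0 < κ := by linarith
      have hwa : w < a := by
        have h1 : w * κ < a * κ := by nlinarith
        exact lt_of_mul_lt_mul_right h1 hκ0.le
      have hvu : ∀ k l, k < l → l < (s.M + 1) * (s.R + 1) → shu u o k < shu u o l := by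
        intro k l hkl hl
        have : s.n = (s.M + 1) * (s.R + 1) := rfl
        exact hu _ _ (by omega) (by omega)
      have h0 : PT W H ((a, b) :: (F0 ++ F)) P := by
        refine h.perm ?_
        rw [← List.cons_append]
        exact List.Perm.append_right _ hperm
      have h1 := h0.strip (M := s.M) (R := s.R) (u := shu u o) hvu
        (by
          intro k hk
          have : s.n = (s.M + 1) * (s.R + 1) := rfl
          exact hP (o + k) (by omega) (by omega))
        (by linarith) sH
      rw [image_shu] at h1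
      have hnn : (s.M + 1) * (s.R + 1) = s.n := rfl
      rw [hnn] at h1
      -- the new rectangle
      obtain ⟨a1, b1, ha1, hab1, hba1, hprod, h2⟩ : ∃ a1 b1 : ℝ, 0 < a1 ∧ a1 ≤ b1 ∧ b1 ≤ κ * a1 ∧
          a1 * b1 = a * b - w * a ∧
          PT W H ((a1, b1) :: ((a - hh, w) :: (stripList s.M s.R (shu u o) ++ (F0 ++ F))))
            (P ∪ (Finset.Ico o (o + s.n)).image u) := by
        rcases le_or_gt a (b - w) with hc1 | hc1
        · exact ⟨a, b - w, ha, hc1, by linarith, by ring, h1⟩
        · refine ⟨b - w, a, by linarith, hc1.le, ?_, by ring, h1.swap⟩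
          nlinarith
      have hsum : ∑ k ∈ Finset.Ico o L, sd (u k) ^ 2 =
          ∑ k ∈ Finset.range s.n, sd (shu u o k) ^ 2 +
            ∑ k ∈ Finset.Ico (o + s.n) L, sd (u k) ^ 2 := by
        rw [sum_shu, Finset.sum_Ico_consecutive _ (by omega) (by omega)]
      have hF1 : Fat κ NF ((a, b) :: F0) := hF.perm hperm
      have hwa0 : 0 ≤ w * a := mul_nonneg hw0 ha.le
      -- the cut is at most the fraction `1 - 1/κ` of the rectangle
      have hcut : a * b ≤ κ * (a * b - w * a) := by
        have h5 : w * κ * a ≤ a * (κ - 1) * a := mul_le_mul_of_nonneg_right sW ha.le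
        have h6 : a * (κ - 1) * a ≤ a * (κ - 1) * b :=
          mul_le_mul_of_nonneg_left hab (mul_nonneg ha.le (by linarith))
        nlinarith
      have hF2 : Fat κ NF ((a1, b1) :: F0) := by
        refine ⟨?_, ?_, ?_⟩
        · have := hF1.len
          simpa using this
        · intro y hy
          rcases List.mem_cons.1 hy with rfl | hy
          · exact ⟨ha1, hab1, hba1⟩
          · exact hF1.sq y (List.mem_cons_of_mem _ hy)
        · have hm : ∀ y ∈ F0, y.1 * y.2 ≤ a * b := fun y hy =>
            hmax y (hperm.symm.subset (List.mem_cons_of_mem _ hy))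
          have hpos1 : 0 < a1 * b1 := mul_pos ha1 (lt_of_lt_of_le ha1 hab1)
          intro y hy z hz
          rcases List.mem_cons.1 hy with rfl | hy
          · rcases List.mem_cons.1 hz with rfl | hz
            · simp only
              nlinarith
            · have h5 := hF1.bal (a, b) List.mem_cons_self z (List.mem_cons_of_mem _ hz)
              simp only at h5 ⊢
              rw [hprod]
              linarith
          · rcases List.mem_cons.1 hz with rfl | hz
            · have h5 := hm y hy
              simp only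
              rw [hprod]
              linarith
            · exact hF1.bal y (List.mem_cons_of_mem _ hy) z (List.mem_cons_of_mem _ hz)
      have harFL : ar FL = a * b + ar F0 := by
        rw [ar_perm hperm, ar_cons]
      have har1 : ar ((a1, b1) :: F0) = ar FL - w * a := by
        rw [ar_cons, harFL]
        simp only
        rw [hprod]
        ring
      have h3 : PT W H (((a1, b1) :: F0) ++ ((a - hh, w) :: (stripList s.M s.R (shu u o) ++ F)))
          (P ∪ (Finset.Ico o (o + s.n)).image u) := by
        refine h2.perm ?_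
        rw [List.cons_append]
        refine List.Perm.cons _ ?_
        set e := (a - hh, w)
        set X := stripList s.M s.R (shu u o)
        rw [← Multiset.coe_eq_coe]
        simp only [← Multiset.coe_add, ← Multiset.cons_coe, ← Multiset.singleton_add]
        abel
      obtain ⟨S, E, FL', o', c1, c2, c3, c4, c5, c6, c9, c10, c11⟩ :=
        ih (o + s.n) ((a1, b1) :: F0) ((a - hh, w) :: (stripList s.M s.R (shu u o) ++ F))
          (P ∪ (Finset.Ico o (o + s.n)).image u) (by omega) sL h3 hF2
          (by rw [har1]; linarith)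
          (by rw [har1]; rw [hsum] at hA; linarith) hc
          (by
            intro k hk hkL hmem
            rcases Finset.mem_union.1 hmem with hm | hm
            · exact hP k (by omega) hkL hm
            · obtain ⟨l, hl, e⟩ := Finset.mem_image.1 hm
              rw [Finset.mem_Ico] at hl
              have := hu l k (by omega) hkL
              omega)
      refine ⟨s :: S, (a - hh, w) :: E, FL', o', ⟨so, c1⟩, c2, c3, ?_, ?_, c6, c9, ?_, ?_⟩
      · intro t ht
        rcases List.mem_cons.1 ht with rfl | ht
        · exact sQ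
        · exact c4 t ht
      · refine List.Forall₂.cons ?_ c5
        rw [so]
        exact ⟨by simp only; linarith, sH', rfl⟩
      · rw [har1] at c10
        linarith
      · have e1 : P ∪ (Finset.Ico o (o + s.n)).image u ∪ (Finset.Ico (o + s.n) o').image u =
            P ∪ (Finset.Ico o o').image u := by
          rw [Finset.union_assoc, ← Finset.image_union, Finset.Ico_union_Ico_eq_Ico (by omega) c1.le]
        rw [e1] at c11
        refine c11.perm (List.Perm.append_left _ ?_)
        rw [List.flatMap_cons, List.flatMap_cons]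
        have e2 : StripD.right u s = stripRight s.M s.R (shu u o) := by
          unfold StripD.right; rw [so]
        have e3 : StripD.unc u s = stripU s.M s.R (shu u o) := by
          unfold StripD.unc; rw [so]
        rw [e2, e3]
        set A := S.flatMap (StripD.right u)
        set B := S.flatMap (StripD.unc u)
        set X := stripRight s.M s.R (shu u o)
        set Y := stripU s.M s.R (shu u o)
        have p1 : (stripList s.M s.R (shu u o)).Perm (X ++ Y) := stripList_perm
        set e := (a - hh, w)
        have q1 : (A ++ (B ++ (E ++ e :: (stripList s.M s.R (shu u o) ++ F)))).Perm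
            (A ++ (B ++ (E ++ e :: ((X ++ Y) ++ F)))) :=
          List.Perm.append_left _ (List.Perm.append_left _ (List.Perm.append_left _
            (List.Perm.cons _ (List.Perm.append_right _ p1))))
        refine q1.trans ?_
        rw [← Multiset.coe_eq_coe]
        simp only [← Multiset.coe_add, ← Multiset.cons_coe, ← Multiset.singleton_add]
        abel

end

end Pool.Agent.LibMoserT
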