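import Pool.Agent.LibMoserT.FatRows
set_option autoImplicit false
/-! Loads of the frames `395 ≤ g < 459` (generated) -/
namespace Pool.Agent.LibMoserT

theorem loads3 : chkS (rowsT.take 395).reverse 64 (rowsT.drop 395) = true := by
  decide +kernel

end Pool.Agent.LibMoserT
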