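import Pool.Agent.LibMoserT.FatRows
set_option autoImplicit false
/-! Loads of the frames `459 ≤ g < 516` (generated) -/
namespace Pool.Agent.LibMoserT

theorem loads4 : chkS (rowsT.take 459).reverse 57 (rowsT.drop 459) = true := by
  decide +kernel

end Pool.Agent.LibMoserT
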