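import Pool.Agent.LibMoserT.FatRowsA
import Pool.Agent.LibMoserT.FatRowsB
set_option autoImplicit false
/-! Table of the frames `g < 566` (generated) -/
namespace Pool.Agent.LibMoserT

def rowsT : List Row :=
  rowsT0 ++ (rowsT1 ++ (rowsT2 ++ (rowsT3 ++ (rowsT4 ++ (rowsT5 ++ (rowsT6 ++ (rowsT7 ++ (rowsT8 ++ (rowsT9 ++ (rowsT10 ++ (rowsT11 ++ (rowsT12 ++ (rowsT13 ++ (rowsT14 ++ (rowsT15 ++ (rowsT16 ++ (rowsT17 ++ (rowsT18 ++ (rowsT19 ++ (rowsT20 ++ (rowsT21 ++ (rowsT22 ++ (rowsT23 ++ (rowsT24 ++ (rowsT25 ++ (rowsT26 ++ (rowsT27 ++ (rowsT28 ++ (rowsT29 ++ (rowsT30 ++ (rowsT31 ++ (rowsT32 ++ (rowsT33 ++ (rowsT34 ++ (rowsT35)))))))))))))))))))))))))))))))))))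

theorem rowsT_ok : chkR 8192 0 0 rowsT = true := by
  decide +kernel

end Pool.Agent.LibMoserT
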