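import Pool.Agent.LibMoserT.FatChoice
set_option autoImplicit false
/-!
# Class G and the cost of the fat lane: kernel-checked table for the frames `g < 566`
-/
namespace Pool.Agent.LibMoserT
open Pool.Agent.LibMoser5 Pool.Agent.LibMoserF

/-- row of the table: data of one frame.  Units: `S1`, `MD`, `Y`, `ab`, `ba`, `aa`: `2^(-160)`;
`V`: `2^(-220)`; `Nn`: `2^(-10)`; `Rk`, `lam`, `fat`: `2^(-20)`; `Cb`: `2^(-60)`;
`cF`, `cJ`: `2^(-160) / 10` -/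
structure Row where
  l : ℕ
  l1 : ℕ
  mu : ℕ
  K : ℕ
  rho : ℕ
  S1 : ℕ
  MD : ℕ
  V : ℕ
  Y : ℕ
  Nn : ℕ
  ab : ℕ
  ba : ℕ
  aa : ℕ
  Rk : ℕ
  Cb : ℕ
  lam : ℕ
  fat : ℕ
  cF : ℕ
  cJ : ℕ

def tx (l : ℕ) : ℕ := bif Nat.ble 40000 l then 64 else 24
def tc (l : ℕ) : ℕ := bif Nat.ble 40000 l then 1019 else 4091
def trd (l : ℕ) : ℕ :=
  bif Nat.ble 37000 l then 75 else bif Nat.ble 32500 l then 40 else
    bif Nat.ble 24500 l then 24 else 16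
def tmn (a b : ℕ) : ℕ := bif Nat.ble a b then a else b

namespace Row

def thr (r : Row) : ℕ := r.mu * (r.K + 1)

def ok (r : Row) : Bool :=
  Nat.beq r.l1 (r.l + 32 * (r.l / 1024)) &&
  (Nat.ble (r.mu ^ 2) (r.l / 2) && (Nat.ble (r.l / 2 + 1) ((r.mu + 1) ^ 2) &&
  (Nat.ble 1 r.mu && Nat.ble 2 r.rho))) &&
  (Nat.ble ((r.K - 1) ^ 2) (4 * r.l ^ 3 / 24576) && (Nat.ble (4 * r.l ^ 3 / 24576 + 1) (r.K ^ 2) &&
  Nat.ble 1 r.K)) &&
  (Nat.ble (r.rho ^ 2) (4 * r.l ^ 3 / (2048 * trd r.l * 4)) &&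
  Nat.ble (4 * r.l ^ 3 / (2048 * trd r.l * 4) + 1) ((r.rho + 1) ^ 2)) &&
  (Nat.ble (2048 * 2 ^ 160) (r.S1 * (r.l - tx r.l) ^ 3) &&
  Nat.ble (2048 * r.mu * 2 ^ 160 * (r.l1 ^ 3 - (r.l - tx r.l) ^ 3))
    (r.MD * ((r.l - tx r.l) ^ 3 * r.l1 ^ 3))) &&
  (Nat.ble (r.V * r.l1 ^ 6) (r.mu ^ 2 * 2048 ^ 2 * 2 ^ 220) && Nat.ble 1 r.V) &&
  Nat.ble (r.mu * (10240 * r.thr + 16384 * tc r.l) * 2048 ^ 2 * 2 ^ 160)
    (r.Y * (tc r.l * (r.l - tx r.l) ^ 6)) &&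
  Nat.ble (1024 * ((r.l1 ^ 3 - r.l ^ 3) + 2048 * (1 + r.thr)))
    (r.Nn * (2048 * r.mu * (r.rho - 1))) &&
  (Nat.ble (r.ab * (r.l1 - 36) ^ 3) (2048 * 2 ^ 160) && (Nat.ble 1 r.ab &&
  (Nat.ble (2048 * 2 ^ 160) (r.ba * (r.l - 36) ^ 3) &&
  Nat.ble (2048 * 2 ^ 160) (r.aa * (r.l - 4) ^ 3)))) &&
  (Nat.ble ((r.l + 140) * 2 ^ 20) (r.Rk * r.l) &&
  (Nat.ble (r.Cb * r.l1 ^ 3) ((r.l1 ^ 3 - (r.l1 - 32) ^ 3 - 2048) * 2 ^ 60) && Nat.ble 1 r.Cb))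

def termG (c4 c5 c1024 c5120 c60 c80 : ℕ) (r h : Row) : ℕ :=
  bif Nat.ble (Nat.succ h.Y) r.ab || Nat.ble (Nat.succ (Nat.mul r.ba c60)) h.V
  then Nat.zero else
    Nat.add
      (Nat.succ (Nat.div (Nat.mul (Nat.mul
          (tmn (Nat.succ (Nat.div (Nat.mul h.Nn r.aa) c1024)) h.MD)
          (Nat.add (Nat.mul c5 h.S1) (Nat.mul c4 r.ba))) r.Rk)
        (Nat.mul (Nat.mul c5 h.V) c80)))
      (Nat.succ (Nat.div (Nat.mul
          (tmn h.Nn (Nat.succ (Nat.div (Nat.mul c1024 h.MD) r.ab)))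
          (Nat.add (Nat.mul c5 h.S1) (Nat.mul c4 r.ba)))
        (Nat.mul (Nat.mul c5120 r.Cb) c60)))

theorem termG_eq (c4 c5 c1024 c5120 c60 c80 : ℕ) (r h : Row) :
    termG c4 c5 c1024 c5120 c60 c80 r h =
    bif Nat.ble (h.Y + 1) r.ab || Nat.ble (r.ba * c60 + 1) h.V then 0 else
      (tmn (h.Nn * r.aa / c1024 + 1) h.MD * (c5 * h.S1 + c4 * r.ba) * r.Rk / (c5 * h.V * c80) + 1) +
      (tmn h.Nn (c1024 * h.MD / r.ab + 1) * (c5 * h.S1 + c4 * r.ba) / (c5120 * r.Cb * c60) + 1) :=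
  rfl

/-- contribution of the frame `h` to the load of class G in the frame `r`, unit `2^(-40)`
(constants: `2 ^ 60`, `2 ^ 80`) -/
def term (r h : Row) : ℕ :=
  termG (nat_lit 4) (nat_lit 5) (nat_lit 1024) (nat_lit 5120) (nat_lit 1152921504606846976)
    (nat_lit 1208925819614629174706176) r h

theorem term_eq0 (r h : Row) : term r h =
  termG 4 5 1024 5120 1152921504606846976 1208925819614629174706176 r h := rfl

def DD (r : Row) : ℕ := (r.mu ^ 2 + r.K) * r.MD / r.mu + 1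
def NS (r : Row) : ℕ := r.Nn * r.S1 / 1024 + 1
/-- mass of the new J rows, unit `2^(-160)/10` -/
def mJn (r : Row) : ℕ := 15 * r.DD + 25 * r.mu * r.NS + 8 * r.NS
/-- cost of the frame, unit `2^(-160)/10` -/
def FATn (r : Row) : ℕ := 50 * (r.K * r.MD + r.DD + r.NS) + 6 * r.mJn

end Row

/-- sum of the terms -/
def sumT (r : Row) (L : List Row) : ℕ :=
  List.rec (motive := fun _ => ℕ) (nat_lit 0) (fun h _ ih => Nat.add (r.term h) ih) L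

/-- the check of the rows: `l` = label of the next frame, `cF`, `cJ` = cumulative costs -/
def chkR : ℕ → ℕ → ℕ → List Row → Bool
  | _, _, _, [] => true
  | l, cF, cJ, r :: rest =>
    (r.ok && (Nat.beq r.l l &&
      (Nat.ble cF r.cF && (Nat.ble cJ r.cJ && Nat.ble (r.cF * 2 ^ 20) (r.fat * (10 * 2 ^ 160)))))) &&
    chkR r.l1 (r.cF + r.FATn) (r.cJ + r.mJn) rest

/-- the check of the loads of the first `n` rows of the list; `prev` = reversed list of the rows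
before -/
def chkS : List Row → ℕ → List Row → Bool
  | _, _, [] => true
  | prev, n, r :: rest =>
    bif Nat.beq n 0 then true else
      Nat.ble (sumT r prev) (r.lam * 2 ^ 20) && chkS (r :: prev) (n - 1) rest

end Pool.Agent.LibMoserT
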