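import Pool.Agent.LibMoserT.FatTab
set_option autoImplicit false
/-!
# Soundness of the table
-/
namespace Pool.Agent.LibMoserT
open Pool.Agent.LibMoser5 Pool.Agent.LibMoserF Classical

noncomputable section

theorem tx_eq (l : ℕ) : tx l = zx l := by
  unfold tx zx
  by_cases h : 40000 ≤ l
  · rw [if_neg (by omega)]
    have : Nat.ble 40000 l = true := Nat.ble_eq_true_of_le h
    rw [this]; rfl
  · rw [if_pos (by omega)]
    have : Nat.ble 40000 l = false := by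
      rw [Bool.eq_false_iff]
      intro hc
      exact h (Nat.le_of_ble_eq_true hc)
    rw [this]; rfl

theorem trd_eq (l : ℕ) : trd l = zrd l := by
  have key : ∀ a b : ℕ, (Nat.ble a b = true ∧ a ≤ b) ∨ (Nat.ble a b = false ∧ b < a) := by
    intro a b
    rcases Nat.lt_or_ge b a with h | h
    · right
      refine ⟨?_, h⟩
      rw [Bool.eq_false_iff]
      intro hc
      have := Nat.le_of_ble_eq_true hc
      omega
    · left
      exact ⟨Nat.ble_eq_true_of_le h, h⟩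
  unfold trd zrd
  rcases key 37000 l with ⟨h1, h1'⟩ | ⟨h1, h1'⟩
  · rw [h1, if_neg (by omega), if_neg (by omega), if_neg (by omega)]; rfl
  · rw [h1]
    rcases key 32500 l with ⟨h2, h2'⟩ | ⟨h2, h2'⟩
    · rw [h2, if_neg (by omega), if_neg (by omega), if_pos (by omega)]; rfl
    · rw [h2]
      rcases key 24500 l with ⟨h3, h3'⟩ | ⟨h3, h3'⟩
      · rw [h3, if_neg (by omega), if_pos (by omega)]; rfl
      · rw [h3, if_pos (by omega)]; rfl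

theorem tc_s (l : ℕ) : zs l - 1 / 2048 = (tc l : ℝ) / 10240 := by
  unfold tc zs
  by_cases h : 40000 ≤ l
  · rw [if_neg (by omega)]
    have : Nat.ble 40000 l = true := Nat.ble_eq_true_of_le h
    rw [this]
    norm_num
  · rw [if_pos (by omega)]
    have : Nat.ble 40000 l = false := by
      rw [Bool.eq_false_iff]
      intro hc
      exact h (Nat.le_of_ble_eq_true hc)
    rw [this]
    norm_num

theorem tc_pos (l : ℕ) : (0 : ℝ) < tc l := by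
  unfold tc
  cases Nat.ble 40000 l <;> norm_num

theorem tmn_eq (a b : ℕ) : tmn a b = min a b := by
  unfold tmn
  rcases Nat.lt_or_ge b a with h | h
  · have : Nat.ble a b = false := by
      rw [Bool.eq_false_iff]
      intro hc
      have := Nat.le_of_ble_eq_true hc
      omega
    rw [this, min_eq_right h.le]; rfl
  · rw [Nat.ble_eq_true_of_le h, min_eq_left h]; rfl

/-- the facts in the check of a row -/
structure Row.Ok (r : Row) : Prop where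
  l1 : r.l1 = r.l + 32 * (r.l / 1024)
  mu1 : r.mu ^ 2 ≤ r.l / 2
  mu2 : r.l / 2 < (r.mu + 1) ^ 2
  mu0 : 1 ≤ r.mu
  rho0 : 2 ≤ r.rho
  K1 : (r.K - 1) ^ 2 ≤ 4 * r.l ^ 3 / 24576
  K2 : 4 * r.l ^ 3 / 24576 < r.K ^ 2
  K0 : 1 ≤ r.K
  rho1 : r.rho ^ 2 ≤ 4 * r.l ^ 3 / (2048 * zrd r.l * 4)
  rho2 : 4 * r.l ^ 3 / (2048 * zrd r.l * 4) < (r.rho + 1) ^ 2
  S1 : 2048 * 2 ^ 160 ≤ r.S1 * (r.l - zx r.l) ^ 3
  MD : 2048 * r.mu * 2 ^ 160 * (r.l1 ^ 3 - (r.l - zx r.l) ^ 3) ≤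
    r.MD * ((r.l - zx r.l) ^ 3 * r.l1 ^ 3)
  V : r.V * r.l1 ^ 6 ≤ r.mu ^ 2 * 2048 ^ 2 * 2 ^ 220
  V0 : 1 ≤ r.V
  Y : r.mu * (10240 * r.thr + 16384 * tc r.l) * 2048 ^ 2 * 2 ^ 160 ≤
    r.Y * (tc r.l * (r.l - zx r.l) ^ 6)
  Nn : 1024 * ((r.l1 ^ 3 - r.l ^ 3) + 2048 * (1 + r.thr)) ≤ r.Nn * (2048 * r.mu * (r.rho - 1))
  ab : r.ab * (r.l1 - 36) ^ 3 ≤ 2048 * 2 ^ 160
  ab0 : 1 ≤ r.ab
  ba : 2048 * 2 ^ 160 ≤ r.ba * (r.l - 36) ^ 3
  aa : 2048 * 2 ^ 160 ≤ r.aa * (r.l - 4) ^ 3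
  Rk : (r.l + 140) * 2 ^ 20 ≤ r.Rk * r.l
  Cb : r.Cb * r.l1 ^ 3 ≤ (r.l1 ^ 3 - (r.l1 - 32) ^ 3 - 2048) * 2 ^ 60
  Cb0 : 1 ≤ r.Cb

theorem Row.ok_spec {r : Row} (h : r.ok = true) : r.Ok := by
  unfold Row.ok at h
  simp only [Bool.and_eq_true, Nat.ble_eq, tx_eq, trd_eq] at h
  obtain ⟨⟨⟨⟨⟨⟨⟨⟨⟨h1, h2, h3, h4, h5⟩, h6, h7, h8⟩, h9, h10⟩, h11, h12⟩, h13, h14⟩, h15⟩, h16⟩,
    h17, h18, h19, h20⟩, h21, h22, h23⟩ := h
  exact ⟨Nat.eq_of_beq_eq_true h1, h2, h3, h4, h5, h6, h7, h8, h9, h10, h11, h12, h13, h14, h15, h16, h17, h18, h19, h20,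
    h21, h22, h23⟩

/-- the parameters of the row -/
def Row.F (r : Row) : FatP := FPc r.l r.l1

theorem sqrt_of {m n : ℕ} (h1 : m ^ 2 ≤ n) (h2 : n < (m + 1) ^ 2) : Nat.sqrt n = m := by
  have h3 : m ≤ Nat.sqrt n := Nat.le_sqrt'.2 h1
  have h4 : Nat.sqrt n < m + 1 := Nat.sqrt_lt'.2 h2
  omega

section
variable {r : Row}

theorem Row.Ok.mu (hr : r.Ok) : (r.F).μ = r.mu := sqrt_of hr.mu1 hr.mu2

theorem Row.Ok.K (hr : r.Ok) : (r.F).K = r.K := by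
  show Nat.sqrt (4 * r.l ^ 3 / (3 * (2048 * 4))) + 1 = r.K
  have h0 := hr.K0
  have h1 : Nat.sqrt (4 * r.l ^ 3 / 24576) = r.K - 1 := by
    apply sqrt_of hr.K1
    have : r.K - 1 + 1 = r.K := by omega
    rw [this]
    exact hr.K2
  have h2 : 3 * (2048 * 4) = 24576 := by norm_num
  rw [h2, h1]
  omega

theorem Row.Ok.thr_eq (hr : r.Ok) : (r.F).thr = r.thr := by
  unfold FatP.thr Row.thr
  rw [hr.mu, hr.K]

theorem Row.Ok.ρ (hr : r.Ok) : (r.F).ρ = r.rho := by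
  show Nat.sqrt (4 * r.l ^ 3 / (2048 * zrd r.l * 4)) = r.rho
  exact sqrt_of hr.rho1 hr.rho2

theorem Row.Ok.m_le (_hr : r.Ok) (hl : 8192 ≤ r.l) : zx r.l ≤ 64 ∧ zx r.l < r.l := by
  have : zx r.l ≤ 64 := by unfold zx; split_ifs <;> norm_num
  exact ⟨this, by omega⟩

theorem Row.Ok.l1_ge (hr : r.Ok) (hl : 8192 ≤ r.l) : r.l + 256 ≤ r.l1 := by
  have := hr.l1
  omega

theorem Row.Ok.S_le (hr : r.Ok) (hl : 8192 ≤ r.l) : (r.F).S * 2 ^ 160 ≤ r.S1 := by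
  show th ((2048 : ℕ) : ℝ) (r.l - zx r.l) * 2 ^ 160 ≤ r.S1
  obtain ⟨h1, h2⟩ := hr.m_le hl
  have h3 : (0 : ℝ) < ((r.l - zx r.l : ℕ) : ℝ) := by exact_mod_cast (by omega : 0 < r.l - zx r.l)
  have h4 : (2048 : ℝ) * 2 ^ 160 ≤ r.S1 * ((r.l - zx r.l : ℕ) : ℝ) ^ 3 := by exact_mod_cast hr.S1
  unfold th
  rw [div_mul_eq_mul_div, div_le_iff₀ (by positivity)]
  push_cast
  linarith

theorem Row.Ok.MD_ge (hr : r.Ok) (hl : 8192 ≤ r.l) : r.mu * (r.F).D * 2 ^ 160 ≤ r.MD := by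
  show r.mu * (th ((2048 : ℕ) : ℝ) (r.l - zx r.l) - th ((2048 : ℕ) : ℝ) r.l1) * 2 ^ 160 ≤ r.MD
  obtain ⟨h1, h2⟩ := hr.m_le hl
  have h5 := hr.l1_ge hl
  have h3 : (0 : ℝ) < ((r.l - zx r.l : ℕ) : ℝ) := by exact_mod_cast (by omega : 0 < r.l - zx r.l)
  have h6 : (0 : ℝ) < (r.l1 : ℝ) := by exact_mod_cast (by omega : 0 < r.l1)
  have h7 : (r.l - zx r.l) ^ 3 ≤ r.l1 ^ 3 := Nat.pow_le_pow_left (by omega) 3
  have h4 : (2048 : ℝ) * r.mu * 2 ^ 160 * ((r.l1 : ℝ) ^ 3 - ((r.l - zx r.l : ℕ) : ℝ) ^ 3) ≤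
      r.MD * (((r.l - zx r.l : ℕ) : ℝ) ^ 3 * (r.l1 : ℝ) ^ 3) := by
    have h8 := hr.MD
    have h9 : ((2048 * r.mu * 2 ^ 160 * (r.l1 ^ 3 - (r.l - zx r.l) ^ 3) : ℕ) : ℝ) ≤
      ((r.MD * ((r.l - zx r.l) ^ 3 * r.l1 ^ 3) : ℕ) : ℝ) := by exact_mod_cast h8
    rw [Nat.cast_mul, Nat.cast_sub h7] at h9
    push_cast at h9
    linarith
  unfold th
  set m := ((r.l - zx r.l : ℕ) : ℝ)
  set L := (r.l1 : ℝ)
  have h8 : (r.mu : ℝ) * (((2048 : ℕ) : ℝ) / m ^ 3 - ((2048 : ℕ) : ℝ) / L ^ 3) * 2 ^ 160 =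
      2048 * r.mu * 2 ^ 160 * (L ^ 3 - m ^ 3) / (m ^ 3 * L ^ 3) := by
    push_cast
    field_simp
  rw [h8, div_le_iff₀ (by positivity)]
  exact h4

theorem Row.Ok.V_le (hr : r.Ok) (hl : 8192 ≤ r.l) :
    (r.V : ℝ) ≤ (r.mu : ℝ) ^ 2 * (r.F).σ ^ 2 * 2 ^ 220 := by
  show (r.V : ℝ) ≤ (r.mu : ℝ) ^ 2 * (th ((2048 : ℕ) : ℝ) r.l1) ^ 2 * 2 ^ 220
  have h5 := hr.l1_ge hl
  have h6 : (0 : ℝ) < (r.l1 : ℝ) := by exact_mod_cast (by omega : 0 < r.l1)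
  have h4 : (r.V : ℝ) * (r.l1 : ℝ) ^ 6 ≤ (r.mu : ℝ) ^ 2 * 2048 ^ 2 * 2 ^ 220 := by
    exact_mod_cast hr.V
  unfold th
  have h8 : (r.mu : ℝ) ^ 2 * (((2048 : ℕ) : ℝ) / (r.l1 : ℝ) ^ 3) ^ 2 * 2 ^ 220 =
      (r.mu : ℝ) ^ 2 * 2048 ^ 2 * 2 ^ 220 / (r.l1 : ℝ) ^ 6 := by
    rw [div_pow]
    push_cast
    ring
  rw [h8, le_div_iff₀ (by positivity)]
  exact h4

theorem Row.Ok.y_le (hr : r.Ok) (hl : 8192 ≤ r.l) : (r.F).y * 2 ^ 160 ≤ r.Y := by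
  obtain ⟨h1, h2⟩ := hr.m_le hl
  have h3 : (0 : ℝ) < ((r.l - zx r.l : ℕ) : ℝ) := by exact_mod_cast (by omega : 0 < r.l - zx r.l)
  have hc := tc_pos r.l
  have h4 : (r.mu : ℝ) * (10240 * r.thr + 16384 * tc r.l) * 2048 ^ 2 * 2 ^ 160 ≤
      r.Y * (tc r.l * ((r.l - zx r.l : ℕ) : ℝ) ^ 6) := by exact_mod_cast hr.Y
  have h5 : (r.F).y = r.mu * ((r.thr : ℝ) / (zs r.l - 1 / 2048) + 16384) *
      th ((2048 : ℕ) : ℝ) (r.l - zx r.l) ^ 2 := by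
    unfold FatP.y FatP.w
    rw [hr.mu, hr.thr_eq]
    rfl
  rw [h5, tc_s]
  unfold th
  set m := ((r.l - zx r.l : ℕ) : ℝ)
  have h6 : (r.mu : ℝ) * ((r.thr : ℝ) / (tc r.l / 10240) + 16384) *
      (((2048 : ℕ) : ℝ) / m ^ 3) ^ 2 * 2 ^ 160 =
      (r.mu : ℝ) * (10240 * r.thr + 16384 * tc r.l) * 2048 ^ 2 * 2 ^ 160 / (tc r.l * m ^ 6) := by
    rw [div_pow]
    push_cast
    field_simp
  rw [h6, div_le_iff₀ (by positivity)]
  exact h4

theorem Row.Ok.N_le (hr : r.Ok) (hl : 8192 ≤ r.l) : 1024 * (r.F).N ≤ r.Nn := by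
  have h5 := hr.l1_ge hl
  have h6 : (0 : ℝ) < (r.mu : ℝ) := by
    have := hr.mu0
    exact_mod_cast (by omega : 0 < r.mu)
  have h7 : (0 : ℝ) < (r.rho : ℝ) - 1 := by
    have h8 : (2 : ℝ) ≤ r.rho := by exact_mod_cast hr.rho0
    linarith
  have h8 : r.l ^ 3 ≤ r.l1 ^ 3 := Nat.pow_le_pow_left (by omega) 3
  have h4 : (1024 : ℝ) * (((r.l1 : ℝ) ^ 3 - (r.l : ℝ) ^ 3) + 2048 * (1 + r.thr)) ≤
      r.Nn * (2048 * r.mu * ((r.rho : ℝ) - 1)) := by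
    have h9 : ((1024 * ((r.l1 ^ 3 - r.l ^ 3) + 2048 * (1 + r.thr)) : ℕ) : ℝ) ≤
      ((r.Nn * (2048 * r.mu * (r.rho - 1)) : ℕ) : ℝ) := by exact_mod_cast hr.Nn
    have h10 : 1 ≤ r.rho := by have := hr.rho0; omega
    push_cast [Nat.cast_sub h8, Nat.cast_sub h10] at h9
    exact h9
  have h5 : (r.F).N = (((r.l1 : ℝ) ^ 3 - (r.l : ℝ) ^ 3) / ((2048 : ℕ) : ℝ) + 1 + r.thr) /
      (r.mu * ((r.rho : ℝ) - 1)) := by
    unfold FatP.N
    rw [hr.mu, hr.thr_eq, hr.ρ]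
    rfl
  rw [h5, ← mul_div_assoc, div_le_iff₀ (by positivity)]
  push_cast
  linarith

end

/-- ratio of a group and its pool -/
theorem ratio_le {k : ℝ} (hk : 8192 ≤ k) :
    ((k - 4) / (k - 36)) ^ 3 - 1 ≤ (1 + 140 / k) * (1 - (k ^ 3 + 2048) / (k + 32) ^ 3) := by
  have h1 : 0 < k - 36 := by linarith
  have h2 : 0 < k := by linarith
  have h3 : 0 < k + 32 := by linarith
  have e1 : ((k - 4) / (k - 36)) ^ 3 - 1 = ((k - 4) ^ 3 - (k - 36) ^ 3) / (k - 36) ^ 3 := by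
    rw [div_pow]
    field_simp
  have e2 : (1 + 140 / k) * (1 - (k ^ 3 + 2048) / (k + 32) ^ 3) =
      (k + 140) * ((k + 32) ^ 3 - k ^ 3 - 2048) / (k * (k + 32) ^ 3) := by
    field_simp
    ring
  rw [e1, e2, div_le_div_iff₀ (by positivity) (by positivity)]
  obtain ⟨t, ht⟩ : ∃ t, t = k - 8192 := ⟨_, rfl⟩
  have ht0 : 0 ≤ t := by linarith
  have hk' : k = 8192 + t := by linarith
  subst hk'
  have key : (8192 + t + 140) * ((8192 + t + 32) ^ 3 - (8192 + t) ^ 3 - 2048) *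
      (8192 + t - 36) ^ 3 -
      ((8192 + t - 4) ^ 3 - (8192 + t - 36) ^ 3) * ((8192 + t) * (8192 + t + 32) ^ 3) =
      24191544884711176798208 + 15269796520153317376 * t + 3851286842105856 * t ^ 2 +
        485198741504 * t ^ 3 + 30535168 * t ^ 4 + 768 * t ^ 5 := by ring
  have : 0 ≤ 24191544884711176798208 + 15269796520153317376 * t + 3851286842105856 * t ^ 2 +
        485198741504 * t ^ 3 + 30535168 * t ^ 4 + 768 * t ^ 5 := by positivity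
  linarith

/-- capacity of the pool of a group, lower bound -/
theorem cap_geT {i : ℕ} (hi : 1 ≤ i) :
    1 - (((32 * i : ℕ) : ℝ) ^ 3 + 2048) / (((32 * i : ℕ) : ℝ) + 32) ^ 3 ≤ MGl 1 i := by
  unfold MGl
  rw [one_mul]
  have hk : (0 : ℝ) < ((32 * i : ℕ) : ℝ) := by exact_mod_cast (by omega : 0 < 32 * i)
  have h1 : ((ix 2048 (32 * i + 32) : ℕ) : ℝ) ≥ ((32 * i + 32 : ℕ) : ℝ) ^ 3 / 2048 - 1 / 2 := by
    unfold ix
    exact Nat.le_ceil _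
  have h2 : ((ix 2048 (32 * i) : ℕ) : ℝ) < ((32 * i : ℕ) : ℝ) ^ 3 / 2048 - 1 / 2 + 1 := by
    unfold ix
    apply Nat.ceil_lt_add_one
    have h3 : (32 : ℝ) ≤ ((32 * i : ℕ) : ℝ) := by exact_mod_cast (by omega : 32 ≤ 32 * i)
    have h4 : (32 : ℝ) ^ 3 ≤ ((32 * i : ℕ) : ℝ) ^ 3 := pow_le_pow_left₀ (by norm_num) h3 3
    norm_num at h4 ⊢
    linarith
  have h3 : (((pool 2048 (32 * i) (32 * i + 32)).card : ℕ) : ℝ) ≥
      (((32 * i : ℕ) : ℝ) + 32) ^ 3 / 2048 - ((32 * i : ℕ) : ℝ) ^ 3 / 2048 - 1 := by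
    unfold pool
    rw [Nat.card_Ico]
    have h4 : ix 2048 (32 * i) ≤ ix 2048 (32 * i + 32) := ix_mono (by norm_num) (by omega)
    rw [Nat.cast_sub h4]
    push_cast at h1 h2 ⊢
    linarith
  have h4 : th 2048 (32 * i + 32) = 2048 / (((32 * i : ℕ) : ℝ) + 32) ^ 3 := by
    unfold th
    push_cast
    ring
  rw [h4]
  set k := ((32 * i : ℕ) : ℝ)
  have h5 : 2048 / (k + 32) ^ 3 * ((k + 32) ^ 3 / 2048 - k ^ 3 / 2048 - 1) ≤
      2048 / (k + 32) ^ 3 * ((pool 2048 (32 * i) (32 * i + 32)).card : ℝ) :=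
    mul_le_mul_of_nonneg_left h3 (by positivity)
  refine le_trans (le_of_eq ?_) h5
  field_simp
  ring

theorem cap_monoT {K L : ℝ} (hK : 8192 ≤ K) (hKL : K ≤ L) :
    ((K - 32) ^ 3 + 2048) / K ^ 3 ≤ ((L - 32) ^ 3 + 2048) / L ^ 3 := by
  have hK0 : 0 < K := by linarith
  have hL0 : 0 < L := by linarith
  rw [div_le_div_iff₀ (by positivity) (by positivity)]
  obtain ⟨a, ha⟩ : ∃ a, a = (K - 32) * L := ⟨_, rfl⟩
  obtain ⟨b, hb⟩ : ∃ b, b = (L - 32) * K := ⟨_, rfl⟩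
  have h1 : b - a = 32 * (L - K) := by rw [ha, hb]; ring
  have h2 : 8 * L ≤ a := by rw [ha]; nlinarith
  have h3 : a ≤ b := by linarith
  have h0 : 0 ≤ L - K := by linarith
  have h4 : 3 * a ^ 2 ≤ b ^ 2 + a * b + a ^ 2 := by nlinarith
  have h5 : 64 * L ^ 2 ≤ a ^ 2 := by nlinarith
  have h6 : L ^ 2 + L * K + K ^ 2 ≤ 3 * L ^ 2 := by nlinarith
  have h7 : 2048 * (L ^ 2 + L * K + K ^ 2) ≤ 32 * (b ^ 2 + a * b + a ^ 2) := by nlinarith
  have h8 := mul_le_mul_of_nonneg_left h7 h0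
  have e1 : (K - 32) ^ 3 * L ^ 3 = a ^ 3 := by rw [ha]; ring
  have e2 : (L - 32) ^ 3 * K ^ 3 = b ^ 3 := by rw [hb]; ring
  have e3 : b ^ 3 - a ^ 3 = 32 * (L - K) * (b ^ 2 + a * b + a ^ 2) := by
    rw [← h1]; ring
  nlinarith

theorem nat_div_lt (a b : ℕ) (hb : 0 < b) : (a : ℝ) / b ≤ ((a / b + 1 : ℕ) : ℝ) := by
  rw [div_le_iff₀ (by exact_mod_cast hb)]
  have h1 : a < (a / b + 1) * b := by
    have := Nat.lt_mul_div_succ a hb
    linarith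
  exact_mod_cast h1.le

theorem pos_of_FatN {f : FatP} (hf : f.Ok) : 0 ≤ f.N := by
  unfold FatP.N
  have h1 := hf.q0
  have h2 := hf.l_le_L1
  have h3 : (f.l : ℝ) ^ 3 ≤ (f.l1 : ℝ) ^ 3 := pow_le_pow_left₀ (Nat.cast_nonneg _) h2 3
  have h4 : (1000 : ℝ) ≤ f.ρ := by exact_mod_cast hf.ρ_ge
  have h5 : (0 : ℝ) ≤ f.thr := Nat.cast_nonneg _
  have h6 : 0 ≤ ((f.l1 : ℝ) ^ 3 - (f.l : ℝ) ^ 3) / f.qn := div_nonneg (by linarith) h1.le
  exact div_nonneg (by linarith) (mul_nonneg (Nat.cast_nonneg _) (by linarith))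

theorem Row.term_eq (r h : Row) : r.term h =
    bif Nat.ble (h.Y + 1) r.ab || Nat.ble (r.ba * 2 ^ 60 + 1) h.V then 0 else
      (tmn (h.Nn * r.aa / 1024 + 1) h.MD * (5 * h.S1 + 4 * r.ba) * r.Rk / (5 * h.V * 2 ^ 80) + 1) +
      (tmn h.Nn (1024 * h.MD / r.ab + 1) * (5 * h.S1 + 4 * r.ba) / (5120 * r.Cb * 2 ^ 60) + 1) := by
  have e60 : (2 : ℕ) ^ 60 = 1152921504606846976 := by norm_num
  have e80 : (2 : ℕ) ^ 80 = 1208925819614629174706176 := by norm_num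
  rw [Row.term_eq0, Row.termG_eq, e60, e80]

/-- **One term.** -/
theorem NG_le_term {r h : Row} (hr : r.Ok) (hh : h.Ok) (hrl : 8192 ≤ r.l) (hhl : 8192 ≤ h.l)
    {i : ℕ} (hi : r.l ≤ 32 * i) (hi' : 32 * i + 32 ≤ r.l1) :
    (h.F).NG (th 2048 (32 * (i + 1) - 36)) (th 2048 (32 * i - 36)) ≤
      MGl 1 i * ((r.term h : ℝ) / 2 ^ 40) := by
  have hF : (h.F).Ok := by
    show (FPc h.l h.l1).Ok
    rw [hh.l1]
    exact FPc_ok hhl
  obtain ⟨k, hk⟩ : ∃ k, k = 32 * i := ⟨_, rfl⟩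
  have e1 : 32 * (i + 1) - 36 = k - 4 := by omega
  have e2 : 32 * i - 36 = k - 36 := by omega
  rw [e1, e2]
  have hk8 : 8192 ≤ k := by omega
  have hkR : (8192 : ℝ) ≤ k := by exact_mod_cast hk8
  have c4 : ((k - 4 : ℕ) : ℝ) = (k : ℝ) - 4 := by
    rw [Nat.cast_sub (by omega)]; norm_num
  have c36 : ((k - 36 : ℕ) : ℝ) = (k : ℝ) - 36 := by
    rw [Nat.cast_sub (by omega)]; norm_num
  obtain ⟨α, hα⟩ : ∃ α, α = th 2048 (k - 4) := ⟨_, rfl⟩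
  obtain ⟨β, hβ⟩ : ∃ β, β = th 2048 (k - 36) := ⟨_, rfl⟩
  have hα' : α = 2048 / ((k : ℝ) - 4) ^ 3 := by rw [hα]; unfold th; rw [c4]
  have hβ' : β = 2048 / ((k : ℝ) - 36) ^ 3 := by rw [hβ]; unfold th; rw [c36]
  rw [← hα, ← hβ]
  have p4 : (0 : ℝ) < (k : ℝ) - 4 := by linarith
  have p36 : (0 : ℝ) < (k : ℝ) - 36 := by linarith
  have hα0 : 0 < α := by rw [hα']; positivity
  have hβ0 : 0 < β := by rw [hβ']; positivity
  have hαβ : α ≤ β := by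
    rw [hα', hβ']
    exact div_le_div_of_nonneg_left (by norm_num) (by positivity)
      (pow_le_pow_left₀ p36.le (by linarith) 3)
  -- the block
  have hlR : (8192 : ℝ) ≤ r.l := by exact_mod_cast hrl
  have hlk : (r.l : ℝ) ≤ k := by rw [hk]; exact_mod_cast hi
  have hkl1 : (k : ℝ) + 32 ≤ r.l1 := by rw [hk]; exact_mod_cast hi'
  have cr1 : ((r.l1 - 36 : ℕ) : ℝ) = (r.l1 : ℝ) - 36 := by
    rw [Nat.cast_sub (by omega)]; norm_num
  have cr36 : ((r.l - 36 : ℕ) : ℝ) = (r.l : ℝ) - 36 := by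
    rw [Nat.cast_sub (by omega)]; norm_num
  have cr4 : ((r.l - 4 : ℕ) : ℝ) = (r.l : ℝ) - 4 := by
    rw [Nat.cast_sub (by omega)]; norm_num
  have hab : (r.ab : ℝ) ≤ α * 2 ^ 160 := by
    have h1 : (r.ab : ℝ) * ((r.l1 : ℝ) - 36) ^ 3 ≤ 2048 * 2 ^ 160 := by
      rw [← cr1]; exact_mod_cast hr.ab
    have h2 : ((k : ℝ) - 4) ^ 3 ≤ ((r.l1 : ℝ) - 36) ^ 3 := pow_le_pow_left₀ p4.le (by linarith) 3
    rw [hα', div_mul_eq_mul_div, le_div_iff₀ (by positivity)]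
    exact (mul_le_mul_of_nonneg_left h2 (Nat.cast_nonneg _)).trans h1
  have hba : β * 2 ^ 160 ≤ r.ba := by
    have h1 : (2048 : ℝ) * 2 ^ 160 ≤ r.ba * ((r.l : ℝ) - 36) ^ 3 := by
      rw [← cr36]; exact_mod_cast hr.ba
    have h2 : ((r.l : ℝ) - 36) ^ 3 ≤ ((k : ℝ) - 36) ^ 3 :=
      pow_le_pow_left₀ (by linarith) (by linarith) 3
    rw [hβ', div_mul_eq_mul_div, div_le_iff₀ (by positivity)]
    exact h1.trans (mul_le_mul_of_nonneg_left h2 (Nat.cast_nonneg _))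
  have haa : α * 2 ^ 160 ≤ r.aa := by
    have h1 : (2048 : ℝ) * 2 ^ 160 ≤ r.aa * ((r.l : ℝ) - 4) ^ 3 := by
      rw [← cr4]; exact_mod_cast hr.aa
    have h2 : ((r.l : ℝ) - 4) ^ 3 ≤ ((k : ℝ) - 4) ^ 3 :=
      pow_le_pow_left₀ (by linarith) (by linarith) 3
    rw [hα', div_mul_eq_mul_div, div_le_iff₀ (by positivity)]
    exact h1.trans (mul_le_mul_of_nonneg_left h2 (Nat.cast_nonneg _))
  -- capacity
  obtain ⟨C, hC⟩ : ∃ C, C = 1 - ((k : ℝ) ^ 3 + 2048) / ((k : ℝ) + 32) ^ 3 := ⟨_, rfl⟩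
  have hcap : C ≤ MGl 1 i := by
    have := cap_geT (i := i) (by omega)
    rw [← hk] at this
    rw [hC]
    exact this
  have hCb : (r.Cb : ℝ) ≤ C * 2 ^ 60 := by
    have h1 : (r.l1 - 32) ^ 3 + 2048 ≤ r.l1 ^ 3 := by
      have h2 : r.l1 = (r.l1 - 32) + 32 := by omega
      obtain ⟨m, hm⟩ : ∃ m, m = r.l1 - 32 := ⟨_, rfl⟩
      rw [← hm] at h2 ⊢
      rw [h2]
      nlinarith
    have h3 : (r.Cb : ℝ) * (r.l1 : ℝ) ^ 3 ≤
        ((r.l1 : ℝ) ^ 3 - ((r.l1 : ℝ) - 32) ^ 3 - 2048) * 2 ^ 60 := by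
      have h4 : ((r.Cb * r.l1 ^ 3 : ℕ) : ℝ) ≤
          (((r.l1 ^ 3 - (r.l1 - 32) ^ 3 - 2048) * 2 ^ 60 : ℕ) : ℝ) := by exact_mod_cast hr.Cb
      rw [Nat.cast_mul (r.l1 ^ 3 - (r.l1 - 32) ^ 3 - 2048), Nat.cast_sub (by omega),
        Nat.cast_sub (by omega)] at h4
      push_cast [Nat.cast_sub (by omega : 32 ≤ r.l1)] at h4
      linarith
    have h5 := cap_monoT (K := (k : ℝ) + 32) (L := r.l1) (by linarith) hkl1
    have h6 : (k : ℝ) + 32 - 32 = k := by ring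
    rw [h6] at h5
    have hL : (0 : ℝ) < r.l1 := by linarith
    have h7 : (1 - (((r.l1 : ℝ) - 32) ^ 3 + 2048) / (r.l1 : ℝ) ^ 3) * 2 ^ 60 ≤ C * 2 ^ 60 := by
      rw [hC]
      apply mul_le_mul_of_nonneg_right _ (by positivity)
      linarith
    refine le_trans ?_ h7
    have h8 : (1 - (((r.l1 : ℝ) - 32) ^ 3 + 2048) / (r.l1 : ℝ) ^ 3) * 2 ^ 60 =
        ((r.l1 : ℝ) ^ 3 - ((r.l1 : ℝ) - 32) ^ 3 - 2048) * 2 ^ 60 / (r.l1 : ℝ) ^ 3 := by
      field_simp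
      ring
    rw [h8, le_div_iff₀ (by positivity)]
    exact h3
  have hCb0 : (0 : ℝ) < r.Cb := by
    have := hr.Cb0
    exact_mod_cast (by omega : 0 < r.Cb)
  have hC0 : 0 < C := by
    have h1 : 0 < C * 2 ^ 60 := lt_of_lt_of_le hCb0 hCb
    have h2 : (0 : ℝ) < 2 ^ 60 := by positivity
    exact (pos_iff_pos_of_mul_pos h1).2 h2
  have hRk : (β - α) ≤ α * ((r.Rk : ℝ) / 2 ^ 20 * C) := by
    have h1 := ratio_le hkR
    have h2 : 1 + 140 / (k : ℝ) ≤ (r.Rk : ℝ) / 2 ^ 20 := by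
      have h3 : ((r.l : ℝ) + 140) * 2 ^ 20 ≤ r.Rk * r.l := by exact_mod_cast hr.Rk
      have h4 : (140 : ℝ) / k ≤ 140 / r.l :=
        div_le_div_of_nonneg_left (by norm_num) (by linarith) hlk
      have h5 : 1 + 140 / (r.l : ℝ) = ((r.l : ℝ) + 140) / r.l := by
        have : (r.l : ℝ) ≠ 0 := by linarith
        field_simp
      have h6 : ((r.l : ℝ) + 140) / r.l ≤ (r.Rk : ℝ) / 2 ^ 20 := by
        rw [div_le_div_iff₀ (by linarith) (by positivity)]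
        exact h3
      linarith
    have h3 : β - α = α * ((((k : ℝ) - 4) / ((k : ℝ) - 36)) ^ 3 - 1) := by
      rw [hα', hβ', div_pow]
      field_simp
    rw [h3]
    apply mul_le_mul_of_nonneg_left _ hα0.le
    refine h1.trans ?_
    rw [← hC]
    exact mul_le_mul_of_nonneg_right h2 hC0.le
  -- the frame
  have hS := hh.S_le hhl
  have hMD := hh.MD_ge hhl
  have hV := hh.V_le hhl
  have hy := hh.y_le hhl
  have hN := hh.N_le hhl
  have hV0 : (0 : ℝ) < h.V := by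
    have := hh.V0
    exact_mod_cast (by omega : 0 < h.V)
  have hab0 : (0 : ℝ) < r.ab := by
    have := hr.ab0
    exact_mod_cast (by omega : 0 < r.ab)
  have hN0 := pos_of_FatN hF
  have hD0 : 0 ≤ (h.F).D := by
    unfold FatP.D
    linarith [hF.σS]
  have hS0 := hF.S0
  have hσ0 := hF.σ0
  have hmu0 : (0 : ℝ) < h.mu := by
    have := hh.mu0
    exact_mod_cast (by omega : 0 < h.mu)
  have hcap0 : 0 ≤ MGl 1 i := hC0.le.trans hcap
  unfold FatP.NG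
  rw [hh.mu]
  split_ifs with hc
  · obtain ⟨hc1, hc2⟩ := hc
    -- the conditions hold in the table
    have n1 : r.ab ≤ h.Y := by
      have : (r.ab : ℝ) ≤ h.Y := by
        have := mul_le_mul_of_nonneg_right hc1 (by positivity : (0 : ℝ) ≤ 2 ^ 160)
        linarith
      exact_mod_cast this
    have n2 : h.V ≤ r.ba * 2 ^ 60 := by
      have h1 : (h.V : ℝ) ≤ β * 2 ^ 220 := by
        have := mul_le_mul_of_nonneg_right hc2 (by positivity : (0 : ℝ) ≤ 2 ^ 220)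
        linarith
      have h2 : β * 2 ^ 220 ≤ r.ba * 2 ^ 60 := by
        have := mul_le_mul_of_nonneg_right hba (by positivity : (0 : ℝ) ≤ 2 ^ 60)
        have e : β * 2 ^ 160 * 2 ^ 60 = β * 2 ^ 220 := by ring
        linarith
      have h3 : (h.V : ℝ) ≤ ((r.ba * 2 ^ 60 : ℕ) : ℝ) := by push_cast; linarith
      exact_mod_cast h3
    obtain ⟨t1, ht1⟩ : ∃ t1, t1 = tmn (h.Nn * r.aa / 1024 + 1) h.MD * (5 * h.S1 + 4 * r.ba) *
      r.Rk / (5 * h.V * 2 ^ 80) + 1 := ⟨_, rfl⟩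
    obtain ⟨t2, ht2⟩ : ∃ t2, t2 = tmn h.Nn (1024 * h.MD / r.ab + 1) * (5 * h.S1 + 4 * r.ba) /
      (5120 * r.Cb * 2 ^ 60) + 1 := ⟨_, rfl⟩
    have hterm : r.term h = t1 + t2 := by
      rw [Row.term_eq]
      have b1 : Nat.ble (h.Y + 1) r.ab = false := by
        rw [Bool.eq_false_iff]
        intro hb
        have := Nat.le_of_ble_eq_true hb
        omega
      have b2 : Nat.ble (r.ba * 2 ^ 60 + 1) h.V = false := by
        rw [Bool.eq_false_iff]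
        intro hb
        have := Nat.le_of_ble_eq_true hb
        omega
      rw [b1, b2, ht1, ht2, Bool.or_self, cond_false]
    rw [tmn_eq] at ht1 ht2
    obtain ⟨X, hX⟩ : ∃ X, X = min (h.F).N ((h.mu : ℝ) * (h.F).D / α) := ⟨_, rfl⟩
    rw [← hX]
    have hX0 : 0 ≤ X := by
      rw [hX]
      exact le_min hN0 (div_nonneg (mul_nonneg hmu0.le hD0) hα0.le)
    obtain ⟨Z, hZ⟩ : ∃ Z, Z = (h.F).S + 4 / 5 * β := ⟨_, rfl⟩
    rw [← hZ]
    have hZ0 : 0 ≤ Z := by rw [hZ]; linarith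
    have hZw : Z * (5 * 2 ^ 160) ≤ ((5 * h.S1 + 4 * r.ba : ℕ) : ℝ) := by
      rw [hZ]
      push_cast
      linarith
    obtain ⟨w, hw⟩ : ∃ w, w = 5 * h.S1 + 4 * r.ba := ⟨_, rfl⟩
    rw [← hw] at ht1 ht2 hZw
    obtain ⟨v, hv⟩ : ∃ v, v = (h.mu : ℝ) ^ 2 * (h.F).σ ^ 2 := ⟨_, rfl⟩
    rw [← hv] at hV ⊢
    have hv0 : 0 < v := by rw [hv]; positivity
    -- first part
    have hXα : X * α * 2 ^ 160 ≤ ((min (h.Nn * r.aa / 1024 + 1) h.MD : ℕ) : ℝ) := by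
      rw [Nat.cast_min]
      apply le_min
      · have h1 : X ≤ (h.F).N := by rw [hX]; exact min_le_left _ _
        have h2 : X * (α * 2 ^ 160) ≤ (h.Nn : ℝ) / 1024 * r.aa := by
          apply mul_le_mul (by linarith) haa (by positivity) (by positivity)
        have h3 := nat_div_lt (h.Nn * r.aa) 1024 (by norm_num)
        push_cast at h3 ⊢
        have h4 : (h.Nn : ℝ) / 1024 * r.aa = (h.Nn : ℝ) * r.aa / 1024 := by ring
        linarith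
      · have h1 : X * α ≤ (h.mu : ℝ) * (h.F).D := by
          have h2 : X ≤ (h.mu : ℝ) * (h.F).D / α := by rw [hX]; exact min_le_right _ _
          rwa [le_div_iff₀ hα0] at h2
        have h2 := mul_le_mul_of_nonneg_right h1 (by positivity : (0 : ℝ) ≤ 2 ^ 160)
        linarith
    obtain ⟨mn1, hmn1⟩ : ∃ m, m = min (h.Nn * r.aa / 1024 + 1) h.MD := ⟨_, rfl⟩
    rw [← hmn1] at ht1 hXα
    have q1 : X * ((β - α) / v) * Z ≤ C * ((t1 : ℝ) / 2 ^ 40) := by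
      have h1 : (mn1 : ℝ) * w * r.Rk / (5 * h.V * 2 ^ 80) ≤ t1 := by
        have := nat_div_lt (mn1 * w * r.Rk) (5 * h.V * 2 ^ 80) (by
          have := hh.V0
          positivity)
        rw [ht1]
        push_cast at this ⊢
        norm_num at this ⊢
        exact this
      have h2 : X * (β - α) ≤ X * α * ((r.Rk : ℝ) / 2 ^ 20 * C) := by
        have := mul_le_mul_of_nonneg_left hRk hX0
        linarith
      -- X (β - α) Z 2^... ≤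
      have h3 : X * (β - α) * Z ≤
          ((mn1 : ℝ) / 2 ^ 160) * ((r.Rk : ℝ) / 2 ^ 20 * C) * ((w : ℝ) / (5 * 2 ^ 160)) := by
        have h4 : X * α ≤ (mn1 : ℝ) / 2 ^ 160 := by
          rw [le_div_iff₀ (by positivity)]
          exact hXα
        have h5 : Z ≤ (w : ℝ) / (5 * 2 ^ 160) := by
          rw [le_div_iff₀ (by positivity)]
          exact hZw
        have h6 : 0 ≤ (r.Rk : ℝ) / 2 ^ 20 * C := by positivity
        have h7 : X * (β - α) ≤ ((mn1 : ℝ) / 2 ^ 160) * ((r.Rk : ℝ) / 2 ^ 20 * C) :=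
          h2.trans (mul_le_mul_of_nonneg_right h4 h6)
        exact mul_le_mul h7 h5 hZ0 (by positivity)
      have h4 : (h.V : ℝ) / 2 ^ 220 ≤ v := by
        rw [div_le_iff₀ (by positivity)]
        exact hV
      have h5 : X * ((β - α) / v) * Z = X * (β - α) * Z / v := by ring
      rw [h5]
      have h6 : 0 ≤ X * (β - α) * Z := mul_nonneg (mul_nonneg hX0 (by linarith)) hZ0
      have h7 : X * (β - α) * Z / v ≤ X * (β - α) * Z / ((h.V : ℝ) / 2 ^ 220) :=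
        div_le_div_of_nonneg_left h6 (by positivity) h4
      refine h7.trans ?_
      have h8 : X * (β - α) * Z / ((h.V : ℝ) / 2 ^ 220) ≤
          (((mn1 : ℝ) / 2 ^ 160) * ((r.Rk : ℝ) / 2 ^ 20 * C) * ((w : ℝ) / (5 * 2 ^ 160))) /
            ((h.V : ℝ) / 2 ^ 220) :=
        div_le_div_of_nonneg_right h3 (by positivity)
      refine h8.trans ?_
      have h9 : (((mn1 : ℝ) / 2 ^ 160) * ((r.Rk : ℝ) / 2 ^ 20 * C) * ((w : ℝ) / (5 * 2 ^ 160))) /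
            ((h.V : ℝ) / 2 ^ 220) =
          C * (((mn1 : ℝ) * w * r.Rk / (5 * h.V * 2 ^ 80)) / 2 ^ 40) := by
        field_simp
      rw [h9]
      apply mul_le_mul_of_nonneg_left _ hC0.le
      exact div_le_div_of_nonneg_right h1 (by positivity)
    have q2 : X * Z ≤ C * ((t2 : ℝ) / 2 ^ 40) := by
      obtain ⟨mn2, hmn2⟩ : ∃ m, m = min h.Nn (1024 * h.MD / r.ab + 1) := ⟨_, rfl⟩
      rw [← hmn2] at ht2
      have h1 : (mn2 : ℝ) * w / (5120 * r.Cb * 2 ^ 60) ≤ t2 := by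
        have := nat_div_lt (mn2 * w) (5120 * r.Cb * 2 ^ 60) (by
          have := hr.Cb0
          positivity)
        rw [ht2]
        push_cast at this ⊢
        norm_num at this ⊢
        exact this
      have h2 : 1024 * X ≤ (mn2 : ℝ) := by
        rw [hmn2, Nat.cast_min]
        apply le_min
        · have h1 : X ≤ (h.F).N := by rw [hX]; exact min_le_left _ _
          linarith
        · have h3 : X ≤ (h.mu : ℝ) * (h.F).D / α := by rw [hX]; exact min_le_right _ _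
          have h4 : (h.mu : ℝ) * (h.F).D / α ≤ (h.MD : ℝ) / r.ab := by
            rw [div_le_div_iff₀ hα0 hab0]
            have h5 : (h.mu : ℝ) * (h.F).D * r.ab ≤ (h.mu : ℝ) * (h.F).D * (α * 2 ^ 160) :=
              mul_le_mul_of_nonneg_left hab (mul_nonneg hmu0.le hD0)
            have h6 : (h.mu : ℝ) * (h.F).D * 2 ^ 160 * α ≤ h.MD * α :=
              mul_le_mul_of_nonneg_right hMD hα0.le
            linarith
          have h5 := nat_div_lt (1024 * h.MD) r.ab (by have := hr.ab0; omega)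
          push_cast at h5 ⊢
          have h6 : 1024 * ((h.MD : ℝ) / r.ab) = 1024 * (h.MD : ℝ) / r.ab := by ring
          linarith
      have h3 : X * Z ≤ ((mn2 : ℝ) / 1024) * ((w : ℝ) / (5 * 2 ^ 160)) := by
        have h5 : Z ≤ (w : ℝ) / (5 * 2 ^ 160) := by
          rw [le_div_iff₀ (by positivity)]
          exact hZw
        exact mul_le_mul (by linarith) h5 hZ0 (by positivity)
      have h4 : ((mn2 : ℝ) / 1024) * ((w : ℝ) / (5 * 2 ^ 160)) =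
          ((r.Cb : ℝ) / 2 ^ 60) * (((mn2 : ℝ) * w / (5120 * r.Cb * 2 ^ 60)) / 2 ^ 40) := by
        field_simp
        ring
      rw [h4] at h3
      have h5 : (r.Cb : ℝ) / 2 ^ 60 ≤ C := by
        rw [div_le_iff₀ (by positivity)]
        exact hCb
      have h6 : ((mn2 : ℝ) * w / (5120 * r.Cb * 2 ^ 60)) / 2 ^ 40 ≤ (t2 : ℝ) / 2 ^ 40 :=
        div_le_div_of_nonneg_right h1 (by positivity)
      exact h3.trans (mul_le_mul h5 h6 (by positivity) hC0.le)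
    rw [hterm]
    have h1 : X * ((β - α) / v + 1) * Z = X * ((β - α) / v) * Z + X * Z := by ring
    rw [h1]
    have h2 : C * ((t1 : ℝ) / 2 ^ 40) + C * ((t2 : ℝ) / 2 ^ 40) =
        C * (((t1 + t2 : ℕ) : ℝ) / 2 ^ 40) := by
      push_cast
      ring
    have h3 : C * (((t1 + t2 : ℕ) : ℝ) / 2 ^ 40) ≤ MGl 1 i * (((t1 + t2 : ℕ) : ℝ) / 2 ^ 40) :=
      mul_le_mul_of_nonneg_right hcap (by positivity)
    linarith
  · positivity

end

end Pool.Agent.LibMoserT
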