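import Pool.Agent.LibMoserT.FatTabS
import Pool.Agent.LibMoserT.FatL0
import Pool.Agent.LibMoserT.FatL1
import Pool.Agent.LibMoserT.FatL2
import Pool.Agent.LibMoserT.FatL3
import Pool.Agent.LibMoserT.FatL4
import Pool.Agent.LibMoserT.FatL5
set_option autoImplicit false
/-!
# The table of the frames `g < 566`: consequences
-/
namespace Pool.Agent.LibMoserT
open Pool.Agent.LibMoser5 Pool.Agent.LibMoserF Classical

noncomputable section

/-- cost of a frame -/
def FATr (f : FatP) : ℝ := chC * (f.tG + f.tJ) + 6 * f.mJ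

theorem Row.Ok.Fok {r : Row} (hr : r.Ok) (hl : 8192 ≤ r.l) : (r.F).Ok := by
  show (FPc r.l r.l1).Ok
  rw [hr.l1]
  exact FPc_ok hl

theorem Row.Ok.costs {r : Row} (hr : r.Ok) (hl : 8192 ≤ r.l) :
    (r.F).mJ * (10 * 2 ^ 160) ≤ r.mJn ∧ FATr r.F * (10 * 2 ^ 160) ≤ r.FATn := by
  have hF := hr.Fok hl
  have hMD := hr.MD_ge hl
  have hS := hr.S_le hl
  have hN := hr.N_le hl
  have hN0 := pos_of_FatN hF
  have hS0 := hF.S0
  have hD0 : 0 ≤ (r.F).D := by
    unfold FatP.D
    linarith [hF.σS]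
  have hmu0 : (0 : ℝ) < r.mu := by
    have := hr.mu0
    exact_mod_cast (by omega : 0 < r.mu)
  have h1 : (((r.mu : ℝ) ^ 2 + r.K) * (r.F).D) * 2 ^ 160 ≤ r.DD := by
    have h2 := nat_div_lt ((r.mu ^ 2 + r.K) * r.MD) r.mu hr.mu0
    have h3 : (((r.mu : ℝ) ^ 2 + r.K) * (r.F).D) * 2 ^ 160 =
        ((r.mu : ℝ) ^ 2 + r.K) * (r.mu * (r.F).D * 2 ^ 160) / r.mu := by
      field_simp
    rw [h3]
    refine le_trans ?_ h2
    push_cast
    apply div_le_div_of_nonneg_right _ hmu0.le
    exact mul_le_mul_of_nonneg_left hMD (by positivity)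
  have h2 : ((r.F).N * (r.F).S) * 2 ^ 160 ≤ r.NS := by
    have h3 := nat_div_lt (r.Nn * r.S1) 1024 (by norm_num)
    have h4 : (r.F).N * ((r.F).S * 2 ^ 160) ≤ (r.Nn : ℝ) / 1024 * r.S1 :=
      mul_le_mul (by linarith) hS (by positivity) (by positivity)
    refine le_trans ?_ h3
    push_cast
    have h5 : (r.Nn : ℝ) / 1024 * r.S1 = (r.Nn : ℝ) * r.S1 / 1024 := by ring
    linarith
  have h3 : ((r.mu : ℝ) * r.K * (r.F).D) * 2 ^ 160 ≤ r.K * r.MD := by
    have := mul_le_mul_of_nonneg_left hMD (Nat.cast_nonneg r.K)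
    linarith
  have e1 : (r.F).mJ = 3 / 2 * ((((r.mu : ℝ) ^ 2 + r.K) * (r.F).D) + (r.F).N * r.mu * (r.F).S) +
      (r.F).N * (r.mu * (r.F).S + 4 / 5 * (r.F).S) := by
    unfold FatP.mJ
    rw [hr.mu, hr.K]
  have e2 : (r.F).tJ = (((r.mu : ℝ) ^ 2 + r.K) * (r.F).D) + (r.F).N * (r.F).S := by
    unfold FatP.tJ
    rw [hr.mu, hr.K]
  have e3 : (r.F).tG = (r.mu : ℝ) * r.K * (r.F).D := by
    unfold FatP.tG
    rw [hr.mu, hr.K]
  have h4 : (r.mu : ℝ) * (((r.F).N * (r.F).S) * 2 ^ 160) ≤ r.mu * r.NS :=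
    mul_le_mul_of_nonneg_left h2 hmu0.le
  have hmJ : (r.F).mJ * (10 * 2 ^ 160) ≤ r.mJn := by
    rw [e1]
    unfold Row.mJn
    push_cast
    linarith
  refine ⟨hmJ, ?_⟩
  unfold FATr
  rw [e2, e3]
  have hc : chC = 5 := rfl
  rw [hc]
  unfold Row.FATn
  push_cast
  linarith

/-- what the table says about frame `g` -/
structure RBase (g : ℕ) (r : Row) : Prop where
  ok : r.Ok
  l : r.l = fl 8192 g
  l1 : r.l1 = fl 8192 (g + 1)
  fat : ∑ h ∈ Finset.range g, FATr (F41 h) ≤ (r.fat : ℝ) / 2 ^ 20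
  cF : (∑ h ∈ Finset.range g, FATr (F41 h)) * (10 * 2 ^ 160) ≤ r.cF
  cJ : (∑ h ∈ Finset.range g, (F41 h).mJ) * (10 * 2 ^ 160) ≤ r.cJ

theorem fl_geT (g : ℕ) : 8192 ≤ fl 8192 g := by
  induction g with
  | zero => exact le_rfl
  | succ g ih =>
    show 8192 ≤ fl 8192 g + 32 * (fl 8192 g / 1024)
    omega

theorem MGl_one (lam : ℝ) (i : ℕ) : MGl lam i = MGl 1 i * lam := by
  unfold MGl
  ring

theorem MGl_nonneg {i : ℕ} : 0 ≤ MGl 1 i := by
  unfold MGl th
  positivity

theorem Row.F_eq {g : ℕ} {r : Row} (h : r.l = fl 8192 g) (h1 : r.l1 = fl 8192 (g + 1)) :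
    r.F = F41 g := by
  show FPc r.l r.l1 = FPc (fl 8192 g) (fl 8192 (g + 1))
  rw [h1, h]

theorem chkR_sound : ∀ (rest : List Row) (g l cF cJ : ℕ),
    chkR l cF cJ rest = true → l = fl 8192 g →
    (∑ h ∈ Finset.range g, FATr (F41 h)) * (10 * 2 ^ 160) ≤ cF →
    (∑ h ∈ Finset.range g, (F41 h).mJ) * (10 * 2 ^ 160) ≤ cJ →
    ∀ j r, rest[j]? = some r → RBase (g + j) r := by
  intro rest
  induction rest with
  | nil =>
    intro g l cF cJ _ _ _ _ j r hj
    simp at hj
  | cons r0 rest ih =>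
    intro g l cF cJ hc hl hF hJ j r hj
    unfold chkR at hc
    simp only [Bool.and_eq_true, Nat.ble_eq] at hc
    obtain ⟨⟨c1, c2, c4, c5, c6⟩, c7⟩ := hc
    have hr0 := Row.ok_spec c1
    have hl0 : r0.l = l := Nat.eq_of_beq_eq_true c2
    have hl8 : 8192 ≤ r0.l := by rw [hl0, hl]; exact fl_geT g
    have hl1 : r0.l1 = fl 8192 (g + 1) := by
      rw [hr0.l1, hl0, hl]
      rfl
    have hcF : (∑ h ∈ Finset.range g, FATr (F41 h)) * (10 * 2 ^ 160) ≤ r0.cF := by
      have : (cF : ℝ) ≤ r0.cF := by exact_mod_cast c4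
      linarith
    have hcJ : (∑ h ∈ Finset.range g, (F41 h).mJ) * (10 * 2 ^ 160) ≤ r0.cJ := by
      have : (cJ : ℝ) ≤ r0.cJ := by exact_mod_cast c5
      linarith
    have hfact : RBase g r0 := by
      refine ⟨hr0, by rw [hl0, hl], hl1, ?_, hcF, hcJ⟩
      have h1 : (r0.cF : ℝ) * 2 ^ 20 ≤ (r0.fat : ℝ) * (10 * 2 ^ 160) := by exact_mod_cast c6
      rw [le_div_iff₀ (by positivity)]
      have h2 := mul_le_mul_of_nonneg_right hcF (by positivity : (0 : ℝ) ≤ 2 ^ 20)
      have h3 : (∑ h ∈ Finset.range g, FATr (F41 h)) * 2 ^ 20 * (10 * 2 ^ 160) ≤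
          (r0.fat : ℝ) * (10 * 2 ^ 160) := by linarith
      exact le_of_mul_le_mul_right h3 (by positivity)
    rcases j with _ | j
    · simp only [List.getElem?_cons_zero, Option.some.injEq] at hj
      rw [← hj, add_zero]
      exact hfact
    · rw [List.getElem?_cons_succ] at hj
      have hFr0 : r0.F = F41 g := Row.F_eq (by rw [hl0, hl]) hl1
      have hcost := hr0.costs hl8
      have := ih (g + 1) r0.l1 (r0.cF + r0.FATn) (r0.cJ + r0.mJn) c7 hl1
        (by
          rw [Finset.sum_range_succ, ← hFr0]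
          push_cast
          linarith [hcost.2])
        (by
          rw [Finset.sum_range_succ, ← hFr0]
          push_cast
          linarith [hcost.1])
        j r hj
      have e : g + (j + 1) = g + 1 + j := by omega
      rw [e]
      exact this

theorem rows_base {g : ℕ} {r : Row} (h : rowsT[g]? = some r) : RBase g r := by
  have := chkR_sound rowsT 0 8192 0 0 rowsT_ok rfl (by simp) (by simp) g r h
  rwa [zero_add] at this

/-! ### the loads -/

theorem sumT_eq (r : Row) (L : List Row) : sumT r L = (L.map r.term).sum := by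
  induction L with
  | nil => rfl
  | cons h t ih =>
    rw [List.map_cons, List.sum_cons, ← ih]
    rfl

theorem chkS_sound : ∀ (rest prev : List Row) (n : ℕ), chkS prev n rest = true →
    ∀ j r, j < n → rest[j]? = some r → sumT r ((rest.take j).reverse ++ prev) ≤ r.lam * 2 ^ 20 := by
  intro rest
  induction rest with
  | nil =>
    intro prev n _ j r _ hj
    simp at hj
  | cons r0 rest ih =>
    intro prev n hc j r hjn hj
    unfold chkS at hc
    have hn : Nat.beq n 0 = false := by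
      rw [Bool.eq_false_iff]
      intro h
      have := Nat.eq_of_beq_eq_true h
      omega
    rw [hn, cond_false, Bool.and_eq_true] at hc
    rcases j with _ | j
    · simp only [List.getElem?_cons_zero, Option.some.injEq] at hj
      rw [← hj, List.take_zero, List.reverse_nil, List.nil_append]
      exact Nat.le_of_ble_eq_true hc.1
    · rw [List.getElem?_cons_succ] at hj
      have h := ih (r0 :: prev) (n - 1) hc.2 j r (by omega) hj
      rw [List.take_succ_cons, List.reverse_cons, List.append_assoc]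
      exact h

theorem loads_of {a n g : ℕ} {r : Row} (h : chkS (rowsT.take a).reverse n (rowsT.drop a) = true)
    (h1 : a ≤ g) (h2 : g < a + n) (hr : rowsT[g]? = some r) :
    sumT r (rowsT.take g).reverse ≤ r.lam * 2 ^ 20 := by
  obtain ⟨j, rfl⟩ := Nat.exists_eq_add_of_le h1
  have h3 : (rowsT.drop a)[j]? = some r := by
    rw [List.getElem?_drop]
    exact hr
  have h4 := chkS_sound _ _ _ h j r (by omega) h3
  have h5 : ((rowsT.drop a).take j).reverse ++ (rowsT.take a).reverse = (rowsT.take (a + j)).reverse := by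
    rw [← List.reverse_append, List.take_add]
  rwa [h5] at h4

theorem rowsT_length : rowsT.length = 566 := by decide +kernel

theorem rows_get {g : ℕ} (hg : g < 566) : ∃ r, rowsT[g]? = some r := by
  have h : g < rowsT.length := by rw [rowsT_length]; exact hg
  exact ⟨rowsT[g], List.getElem?_eq_getElem h⟩

theorem loads_all {g : ℕ} {r : Row} (hr : rowsT[g]? = some r) :
    sumT r (rowsT.take g).reverse ≤ r.lam * 2 ^ 20 := by
  have hg : g < 566 := by
    rw [← rowsT_length]
    by_contra hc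
    rw [not_lt] at hc
    rw [List.getElem?_eq_none hc] at hr
    exact absurd hr (by simp)
  rcases Nat.lt_or_ge g 221 with h | h
  · exact loads_of loads0 (Nat.zero_le _) (by omega) hr
  rcases Nat.lt_or_ge g 319 with h' | h'
  · exact loads_of loads1 h (by omega) hr
  rcases Nat.lt_or_ge g 395 with h'' | h''
  · exact loads_of loads2 h' (by omega) hr
  rcases Nat.lt_or_ge g 459 with h3 | h3
  · exact loads_of loads3 h'' (by omega) hr
  rcases Nat.lt_or_ge g 516 with h4 | h4
  · exact loads_of loads4 h3 (by omega) hr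
  · exact loads_of loads5 h4 (by omega) hr

theorem take_sum (φ : FatP → ℝ) (ψ : Row → ℝ) (g : ℕ) (hg : g ≤ rowsT.length)
    (h : ∀ j r, j < g → rowsT[j]? = some r → φ (F41 j) ≤ ψ r) :
    ∑ j ∈ Finset.range g, φ (F41 j) ≤ ((rowsT.take g).map ψ).sum := by
  induction g with
  | zero => simp
  | succ g ih =>
    have hg' : g < rowsT.length := by omega
    obtain ⟨r, hr⟩ : ∃ r, rowsT[g]? = some r := ⟨rowsT[g], List.getElem?_eq_getElem hg'⟩
    rw [Finset.sum_range_succ, List.take_succ, List.map_append, List.sum_append, hr]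
    have h1 := ih (by omega) (fun j r' hj hr' => h j r' (by omega) hr')
    have h2 := h g r (by omega) hr
    simp only [Option.toList_some, List.map_cons, List.map_nil, List.sum_cons, List.sum_nil,
      add_zero]
    exact add_le_add h1 h2

theorem rows_MG {g : ℕ} {r : Row} (hr : rowsT[g]? = some r) (i : ℕ) (hi : fl 8192 g ≤ 32 * i)
    (hi' : 32 * i + 32 ≤ fl 8192 (g + 1)) :
    ∑ h ∈ Finset.range g, (F41 h).NG (th 2048 (32 * (i + 1) - 36)) (th 2048 (32 * i - 36)) ≤
      MGl ((r.lam : ℝ) / 2 ^ 20) i := by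
  have hb := rows_base hr
  have hgl : g ≤ rowsT.length := by
    by_contra hc
    rw [not_le] at hc
    rw [List.getElem?_eq_none hc.le] at hr
    exact absurd hr (by simp)
  have hl8 : 8192 ≤ r.l := by rw [hb.l]; exact fl_geT g
  have h1 := take_sum (fun f => f.NG (th 2048 (32 * (i + 1) - 36)) (th 2048 (32 * i - 36)))
    (fun h => MGl 1 i * ((r.term h : ℝ) / 2 ^ 40)) g hgl (by
      intro j h _ hh
      have hbh := rows_base hh
      have h2 : 8192 ≤ h.l := by rw [hbh.l]; exact fl_geT j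
      have h3 := NG_le_term hb.ok hbh.ok hl8 h2 (i := i) (by rw [hb.l]; exact hi)
        (by rw [hb.l1]; exact hi')
      rw [Row.F_eq hbh.l hbh.l1] at h3
      exact h3)
  refine h1.trans ?_
  rw [List.sum_map_mul_left, MGl_one (_ / _)]
  apply mul_le_mul_of_nonneg_left _ MGl_nonneg
  have h3 : ∀ L : List Row, (L.map (fun h => (r.term h : ℝ) / 2 ^ 40)).sum =
      (((L.map r.term).sum : ℕ) : ℝ) / 2 ^ 40 := by
    intro L
    induction L with
    | nil => simp
    | cons h t ih =>
      rw [List.map_cons, List.sum_cons, ih, List.map_cons, List.sum_cons]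
      push_cast
      ring
  rw [h3]
  have h4 := loads_all hr
  rw [sumT_eq, List.map_reverse, List.sum_reverse] at h4
  have h5 : (((rowsT.take g).map r.term).sum : ℝ) ≤ (r.lam : ℝ) * 2 ^ 20 := by
    exact_mod_cast h4
  rw [div_le_div_iff₀ (by positivity) (by positivity)]
  have h6 := mul_le_mul_of_nonneg_right h5 (by positivity : (0 : ℝ) ≤ 2 ^ 20)
  have h7 : (r.lam : ℝ) * 2 ^ 20 * 2 ^ 20 = r.lam * 2 ^ 40 := by ring
  linarith

end

end Pool.Agent.LibMoserT
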