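import Pool.Agent.LibMoserT.FatChoice
import Pool.Agent.LibMoserT.Cls
set_option autoImplicit false
/-!
# Class G, tail: load of the slivers for large labels

Universal bounds for the chosen parameters (`q = 2048`, `l ≥ 8192`, `l1 = l + 32 (l / 1024)`).
-/
namespace Pool.Agent.LibMoserT
open Pool.Agent.LibMoser5 Pool.Agent.LibMoserF Classical

noncomputable section

section
variable {l : ℕ}

/-- universal bounds (`l ≥ 8192`, `l1 = l + 32 (l / 1024)`, `S = q/(l-x)³`, `σ = q/l1³`) -/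
theorem u_S (hl : 8192 ≤ l) :
    (FPc l (l + 32 * (l / 1024))).S ≤ 1009 / 1000 * (2048 / (l : ℝ) ^ 3) := by
  have hlR : (8192 : ℝ) ≤ l := by exact_mod_cast hl
  have e : (FPc l (l + 32 * (l / 1024))).S = 2048 / (((l - zx l : ℕ) : ℝ)) ^ 3 := by
    show th ((2048 : ℕ) : ℝ) (l - zx l) = _
    unfold th
    norm_num
  have hx : zx l ≤ 64 := by unfold zx; split_ifs <;> norm_num
  have h1 : 1021 / 1024 * (l : ℝ) ≤ ((l - zx l : ℕ) : ℝ) := by
    rw [Nat.cast_sub (by omega)]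
    unfold zx
    split_ifs with h
    · push_cast
      linarith
    · have : (40000 : ℝ) ≤ l := by exact_mod_cast (not_lt.1 h)
      push_cast
      linarith
  have h2 : (1021 / 1024 * (l : ℝ)) ^ 3 ≤ ((l - zx l : ℕ) : ℝ) ^ 3 :=
    pow_le_pow_left₀ (by positivity) h1 3
  have hp : (0 : ℝ) < (l : ℝ) ^ 3 := by positivity
  rw [mul_pow] at h2
  norm_num at h2
  rw [e, mul_div_assoc', div_le_div_iff₀ (by nlinarith) hp]
  nlinarith

theorem u_σ (hl : 8192 ≤ l) :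
    9118 / 10000 * (2048 / (l : ℝ) ^ 3) ≤ (FPc l (l + 32 * (l / 1024))).σ := by
  have hlR : (8192 : ℝ) ≤ l := by exact_mod_cast hl
  have e : (FPc l (l + 32 * (l / 1024))).σ = 2048 / ((l + 32 * (l / 1024) : ℕ) : ℝ) ^ 3 := by
    show th ((2048 : ℕ) : ℝ) (l + 32 * (l / 1024)) = _
    unfold th
    norm_num
  have hl1R : ((l + 32 * (l / 1024) : ℕ) : ℝ) ≤ 33 / 32 * l := by
    have : 32 * (l + 32 * (l / 1024)) ≤ 33 * l := by omega
    have h : (32 : ℝ) * ((l + 32 * (l / 1024) : ℕ) : ℝ) ≤ 33 * l := by exact_mod_cast this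
    linarith
  have hl1p : (0 : ℝ) < ((l + 32 * (l / 1024) : ℕ) : ℝ) := by
    have : 0 < l + 32 * (l / 1024) := by omega
    exact_mod_cast this
  have h2 : ((l + 32 * (l / 1024) : ℕ) : ℝ) ^ 3 ≤ (33 / 32 * (l : ℝ)) ^ 3 :=
    pow_le_pow_left₀ hl1p.le hl1R 3
  rw [e, mul_div_assoc', div_le_div_iff₀ (by positivity) (by positivity)]
  generalize ((l + 32 * (l / 1024) : ℕ) : ℝ) = L1 at h2
  rw [mul_pow] at h2
  have hp : (0 : ℝ) < (l : ℝ) ^ 3 := by positivity
  norm_num at h2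
  linarith

theorem u_D (hl : 8192 ≤ l) :
    (FPc l (l + 32 * (l / 1024))).D ≤ 972 / 10000 * (2048 / (l : ℝ) ^ 3) := by
  have h1 := u_S hl
  have h2 := u_σ hl
  unfold FatP.D
  linarith

theorem u_μ (hl : 8192 ≤ l) :
    2 * ((FPc l (l + 32 * (l / 1024))).μ : ℝ) ^ 2 ≤ l ∧
      (l : ℝ) ≤ 2 * (65 / 64) ^ 2 * ((FPc l (l + 32 * (l / 1024))).μ : ℝ) ^ 2 := by
  obtain ⟨h1, _, h3⟩ := sqrt_facts hl
  refine ⟨h1, ?_⟩
  show (l : ℝ) ≤ 2 * (65 / 64) ^ 2 * (Nat.sqrt (l / 2) : ℝ) ^ 2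
  have h4 : l / 2 < (Nat.sqrt (l / 2) + 1) ^ 2 := Nat.lt_succ_sqrt' _
  have h5 : l < 2 * (Nat.sqrt (l / 2) + 1) ^ 2 := by omega
  have h6 : (l : ℝ) < 2 * ((Nat.sqrt (l / 2) : ℝ) + 1) ^ 2 := by exact_mod_cast h5
  have h7 : (64 : ℝ) ≤ Nat.sqrt (l / 2) := by exact_mod_cast h3
  nlinarith

/-- from `l = 40000` on `N ≤ .0267 l + ..`; the uniform bound is enough -/
theorem u_N (hl : 8192 ≤ l) :
    (FPc l (l + 32 * (l / 1024))).N ≤ 273 / 10000 * l := by
  have hlR : (8192 : ℝ) ≤ l := by exact_mod_cast hl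
  have hok := FPc_ok hl
  have hρ := hok.ρ_ge
  have hρR : (1000 : ℝ) ≤ (FPc l (l + 32 * (l / 1024))).ρ := by exact_mod_cast hρ
  obtain ⟨m1, m2⟩ := u_μ hl
  have hthr := FPc_thr (l1 := l + 32 * (l / 1024)) hl
  have hL13 := hok.L13
  -- (ρ + 1)^2 ≥ l^3 / 153600
  have hr : (l : ℝ) ^ 3 ≤ 153600 * (((FPc l (l + 32 * (l / 1024))).ρ : ℝ) + 1) ^ 2 := by
    have hrd : zrd l ≤ 75 := by unfold zrd; split_ifs <;> norm_num
    have hrd1 : 1 ≤ zrd l := by unfold zrd; split_ifs <;> norm_num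
    have h1 := FatP.sqrt_succ_gt (4 * l ^ 3) (2048 * zrd l * 4) (by omega)
    have h2 : ((FPc l (l + 32 * (l / 1024))).ρ : ℝ) = (Nat.sqrt (4 * l ^ 3 / (2048 * zrd l * 4)) : ℝ) :=
      rfl
    rw [h2]
    push_cast at h1
    have h3 : (zrd l : ℝ) ≤ 75 := by exact_mod_cast hrd
    have h4 : (0 : ℝ) ≤ ((Nat.sqrt (4 * l ^ 3 / (2048 * zrd l * 4)) : ℝ) + 1) ^ 2 := sq_nonneg _
    have h5 : (zrd l : ℝ) * ((Nat.sqrt (4 * l ^ 3 / (2048 * zrd l * 4)) : ℝ) + 1) ^ 2 ≤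
        75 * ((Nat.sqrt (4 * l ^ 3 / (2048 * zrd l * 4)) : ℝ) + 1) ^ 2 :=
      mul_le_mul_of_nonneg_right h3 h4
    have h6 : 2048 * (zrd l : ℝ) * 4 * ((Nat.sqrt (4 * l ^ 3 / (2048 * zrd l * 4)) : ℝ) + 1) ^ 2 =
        8192 * ((zrd l : ℝ) * ((Nat.sqrt (4 * l ^ 3 / (2048 * zrd l * 4)) : ℝ) + 1) ^ 2) := by ring
    rw [h6] at h1
    linarith
  obtain ⟨ρ, hρ'⟩ : ∃ ρ : ℝ, ρ = (FPc l (l + 32 * (l / 1024))).ρ := ⟨_, rfl⟩
  obtain ⟨μ, hμ'⟩ : ∃ μ : ℝ, μ = (FPc l (l + 32 * (l / 1024))).μ := ⟨_, rfl⟩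
  have hμ0 : 2 ≤ μ := by
    rw [hμ']
    exact hok.μR
  have hN : (FPc l (l + 32 * (l / 1024))).N =
      ((((FPc l (l + 32 * (l / 1024))).l1 : ℝ) ^ 3 - (l : ℝ) ^ 3) / 2048 + 1 +
        (FPc l (l + 32 * (l / 1024))).thr) / (μ * (ρ - 1)) := by
    rw [hρ', hμ']
    unfold FatP.N
    norm_num [FPc]
  have hLL : ((FPc l (l + 32 * (l / 1024))).l1 : ℝ) ^ 3 ≤ 35937 / 32768 * (l : ℝ) ^ 3 := hL13
  rw [hN]
  rw [← hρ'] at hr hρR
  rw [← hμ'] at m1 m2
  have hmr0 : 0 < μ * (ρ - 1) := mul_pos (by linarith) (by linarith)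
  rw [div_le_iff₀ hmr0]
  -- μ (ρ - 1) ≥ l^2 / 564.2
  have hmr : (l : ℝ) ^ 2 ≤ 5642 / 10 * (μ * (ρ - 1)) := by
    apply le_of_sq_le_sq _ (by linarith)
    have h1 : 999 / 1001 * (ρ + 1) ≤ ρ - 1 := by linarith
    have h2 : (999 / 1001 * (ρ + 1)) ^ 2 ≤ (ρ - 1) ^ 2 := pow_le_pow_left₀ (by linarith) h1 2
    have h3 : (l : ℝ) ^ 3 * (999 / 1001) ^ 2 ≤ 153600 * (ρ - 1) ^ 2 := by
      rw [mul_pow] at h2
      nlinarith
    have h4 : (l : ℝ) * ((l : ℝ) ^ 3 * (999 / 1001) ^ 2) ≤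
        (2 * (65 / 64) ^ 2 * μ ^ 2) * (153600 * (ρ - 1) ^ 2) :=
      mul_le_mul m2 h3 (by positivity) (by positivity)
    have h5 : (2 * (65 / 64) ^ 2 * μ ^ 2) * (153600 * (ρ - 1) ^ 2) =
        (2 * (65 / 64) ^ 2 * 153600) * (μ * (ρ - 1)) ^ 2 := by ring
    have h6 : (l : ℝ) * ((l : ℝ) ^ 3 * (999 / 1001) ^ 2) = (999 / 1001) ^ 2 * ((l : ℝ) ^ 2) ^ 2 := by
      ring
    rw [h5, h6] at h4
    have h8 : (5642 / 10 * (μ * (ρ - 1))) ^ 2 = (5642 / 10) ^ 2 * (μ * (ρ - 1)) ^ 2 := by ring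
    rw [h8]
    have h7 : 0 ≤ (μ * (ρ - 1)) ^ 2 := sq_nonneg _
    linarith
  have hl3 : (8192 : ℝ) ^ 3 ≤ (l : ℝ) ^ 3 := pow_le_pow_left₀ (by norm_num) hlR 3
  have hl2 : (8192 : ℝ) * (l : ℝ) ^ 2 ≤ (l : ℝ) ^ 3 := by
    have : (l : ℝ) ^ 3 = l * (l : ℝ) ^ 2 := by ring
    rw [this]
    exact mul_le_mul_of_nonneg_right hlR (sq_nonneg _)
  have hl1 : (8192 : ℝ) ^ 2 * (l : ℝ) ≤ (l : ℝ) ^ 3 := by
    have : (l : ℝ) ^ 3 = (l : ℝ) ^ 2 * l := by ring
    rw [this]
    exact mul_le_mul_of_nonneg_right (pow_le_pow_left₀ (by norm_num) hlR 2) (by linarith)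
  have h8 : 273 / 10000 * (10 / 5642) * (l : ℝ) ^ 3 ≤ 273 / 10000 * (l : ℝ) * (μ * (ρ - 1)) := by
    have e1 : 273 / 10000 * (10 / 5642) * (l : ℝ) ^ 3 =
      273 / 10000 * (l : ℝ) * (10 / 5642 * (l : ℝ) ^ 2) := by ring
    rw [e1]
    apply mul_le_mul_of_nonneg_left _ (by positivity)
    linarith
  norm_num at hl3 hl1
  linarith

end

/-! ### sums over the frames -/

theorem geo_dn (u : ℕ → ℝ) (c : ℕ → Prop) {V C : ℝ} (hV : 0 ≤ V) (hC : 0 ≤ C)
    (hc : ∀ h, c h → c (h + 1)) (h0 : ∀ h, c h → 0 ≤ u h) (h1 : ∀ h, c h → u h ≤ V)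
    (h2 : ∀ h, c h → u h ≤ C * (u h - u (h + 1))) (n : ℕ) :
    ∑ h ∈ Finset.range n, (if c h then u h else 0) ≤ C * V := by
  have key : ∀ n, (c n → ∑ h ∈ Finset.range n, (if c h then u h else 0) ≤ C * (V - u n)) ∧
      (¬ c n → ∑ h ∈ Finset.range n, (if c h then u h else 0) = 0) := by
    intro n
    induction n with
    | zero =>
      refine ⟨fun h => ?_, fun _ => by simp⟩
      rw [Finset.sum_range_zero]
      exact mul_nonneg hC (by linarith [h1 0 h])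
    | succ n ih =>
      rw [Finset.sum_range_succ]
      by_cases h : c n
      · have h3 := ih.1 h
        have h4 := h2 n h
        refine ⟨fun _ => ?_, fun h' => absurd (hc n h) h'⟩
        rw [if_pos h]
        nlinarith
      · rw [if_neg h, ih.2 h, add_zero]
        refine ⟨fun h' => mul_nonneg hC (by linarith [h1 _ h']), fun _ => rfl⟩
  by_cases h : c n
  · refine ((key n).1 h).trans ?_
    exact mul_le_mul_of_nonneg_left (by linarith [h0 n h]) hC
  · rw [(key n).2 h]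
    exact mul_nonneg hC hV

theorem geo_up (u : ℕ → ℝ) {V C : ℝ} (hV : 0 ≤ V) (hC : 0 ≤ C) (h0 : ∀ h, 0 ≤ u h)
    (h2 : ∀ h, (C + 1) * u h ≤ C * u (h + 1)) (n : ℕ) :
    ∑ h ∈ Finset.range n, (if u h ≤ V then u h else 0) ≤ (C + 1) * V := by
  have key : ∀ n, ∑ h ∈ Finset.range n, (if u h ≤ V then u h else 0) ≤ C * u n ∧
      ∑ h ∈ Finset.range n, (if u h ≤ V then u h else 0) ≤ (C + 1) * V := by
    intro n
    induction n with
    | zero =>
      rw [Finset.sum_range_zero]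
      exact ⟨mul_nonneg hC (h0 0), by positivity⟩
    | succ n ih =>
      rw [Finset.sum_range_succ]
      have h3 := h2 n
      have h4 := h0 n
      by_cases h : u n ≤ V
      · rw [if_pos h]
        constructor
        · linarith [ih.1]
        · have := mul_le_mul_of_nonneg_left h (by linarith : 0 ≤ C + 1)
          linarith [ih.1]
      · rw [if_neg h, add_zero]
        exact ⟨by nlinarith [ih.1], ih.2⟩
  exact (key n).2

theorem fl_pos (h : ℕ) : (8192 : ℝ) ≤ fl 8192 h := by exact_mod_cast fl_ge (le_refl 8192) h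

theorem sum_cube (X : ℝ) (hX : 0 ≤ X) (n : ℕ) :
    ∑ h ∈ Finset.range n, (if (fl 8192 h : ℝ) ^ 3 ≤ X then (fl 8192 h : ℝ) ^ 3 else 0) ≤
      1268 / 100 * X := by
  have h := geo_up (fun h => (fl 8192 h : ℝ) ^ 3) (V := X) (C := 1168 / 100) hX (by norm_num)
    (fun h => by positivity) (fun h => by
      have h1 : 37 * fl 8192 h ≤ 36 * fl 8192 (h + 1) := fl_lower (le_refl 8192) h
      have h2 : (37 : ℝ) * fl 8192 h ≤ 36 * fl 8192 (h + 1) := by exact_mod_cast h1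
      have h3 := fl_pos h
      have h4 : (37 * (fl 8192 h : ℝ)) ^ 3 ≤ (36 * (fl 8192 (h + 1) : ℝ)) ^ 3 :=
        pow_le_pow_left₀ (by positivity) h2 3
      rw [mul_pow, mul_pow] at h4
      have h5 : (0 : ℝ) < (fl 8192 h : ℝ) ^ 3 := by positivity
      norm_num at h4
      show (1168 / 100 + 1) * (fl 8192 h : ℝ) ^ 3 ≤ 1168 / 100 * (fl 8192 (h + 1) : ℝ) ^ 3
      linarith) n
  refine h.trans (le_of_eq ?_)
  norm_num

theorem fl_step34 {h : ℕ} (hh : 33792 ≤ fl 8192 h) :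
    (34 : ℝ) * fl 8192 h ≤ 33 * fl 8192 (h + 1) := by
  have h1 : 34 * fl 8192 h ≤ 33 * fl 8192 (h + 1) := by
    show 34 * fl 8192 h ≤ 33 * (fl 8192 h + 32 * (fl 8192 h / 1024))
    omega
  exact_mod_cast h1

theorem sum_sq {Y : ℝ} (hY : 33792 ^ 2 ≤ Y) (n : ℕ) :
    ∑ h ∈ Finset.range n, (if Y ≤ (fl 8192 h : ℝ) ^ 2 then 1 / (fl 8192 h : ℝ) ^ 2 else 0) ≤
      1726 / 100 * (1 / Y) := by
  have hY0 : 0 < Y := lt_of_lt_of_le (by norm_num) hY
  have hst : ∀ h, Y ≤ (fl 8192 h : ℝ) ^ 2 → 33792 ≤ fl 8192 h := by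
    intro h hh
    have h1 : (33792 : ℝ) ^ 2 ≤ (fl 8192 h : ℝ) ^ 2 := hY.trans hh
    have h2 : (33792 : ℝ) ≤ fl 8192 h := le_of_sq_le_sq h1 (Nat.cast_nonneg _)
    exact_mod_cast h2
  apply geo_dn (fun h => 1 / (fl 8192 h : ℝ) ^ 2) (fun h => Y ≤ (fl 8192 h : ℝ) ^ 2)
    (by positivity) (by norm_num)
  · intro h hh
    have h1 : fl 8192 h ≤ fl 8192 (h + 1) := fl_mono (Nat.le_succ h)
    have h2 : (fl 8192 h : ℝ) ≤ fl 8192 (h + 1) := by exact_mod_cast h1
    exact hh.trans (pow_le_pow_left₀ (Nat.cast_nonneg _) h2 2)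
  · intro h _
    positivity
  · intro h hh
    exact one_div_le_one_div_of_le hY0 hh
  · intro h hh
    have h1 := fl_step34 (hst h hh)
    have h3 := fl_pos h
    have h3' := fl_pos (h + 1)
    have h4 : (34 * (fl 8192 h : ℝ)) ^ 2 ≤ (33 * (fl 8192 (h + 1) : ℝ)) ^ 2 :=
      pow_le_pow_left₀ (by positivity) h1 2
    rw [mul_pow, mul_pow] at h4
    norm_num at h4
    have h5 : 1 / (fl 8192 (h + 1) : ℝ) ^ 2 ≤ 1089 / 1156 * (1 / (fl 8192 h : ℝ) ^ 2) := by
      rw [mul_one_div, div_le_div_iff₀ (by positivity) (by positivity)]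
      linarith
    have h6 : 0 < 1 / (fl 8192 h : ℝ) ^ 2 := by positivity
    show 1 / (fl 8192 h : ℝ) ^ 2 ≤ 1726 / 100 * (1 / (fl 8192 h : ℝ) ^ 2 -
      1 / (fl 8192 (h + 1) : ℝ) ^ 2)
    linarith

theorem sum_sqrt {X : ℝ} (hX : 33792 ≤ X) (n : ℕ) :
    ∑ h ∈ Finset.range n, (if X ≤ (fl 8192 h : ℝ) then 1 / Real.sqrt (fl 8192 h) else 0) ≤
      677 / 10 * (1 / Real.sqrt X) := by
  have hX0 : 0 < X := lt_of_lt_of_le (by norm_num) hX
  have hst : ∀ h, X ≤ (fl 8192 h : ℝ) → 33792 ≤ fl 8192 h := by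
    intro h hh
    have h2 : (33792 : ℝ) ≤ fl 8192 h := hX.trans hh
    exact_mod_cast h2
  apply geo_dn (fun h => 1 / Real.sqrt (fl 8192 h)) (fun h => X ≤ (fl 8192 h : ℝ))
    (by positivity) (by norm_num)
  · intro h hh
    have h1 : fl 8192 h ≤ fl 8192 (h + 1) := fl_mono (Nat.le_succ h)
    have h2 : (fl 8192 h : ℝ) ≤ fl 8192 (h + 1) := by exact_mod_cast h1
    exact hh.trans h2
  · intro h _
    positivity
  · intro h hh
    exact one_div_le_one_div_of_le (Real.sqrt_pos.2 hX0) (Real.sqrt_le_sqrt hh)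
  · intro h hh
    have h1 := fl_step34 (hst h hh)
    have h3 := fl_pos h
    have h3' := fl_pos (h + 1)
    have h4 : 203 / 200 * Real.sqrt (fl 8192 h) ≤ Real.sqrt (fl 8192 (h + 1)) := by
      apply Real.le_sqrt_of_sq_le
      rw [mul_pow, Real.sq_sqrt (by positivity)]
      norm_num
      linarith
    have h7 : 0 < Real.sqrt (fl 8192 h) := Real.sqrt_pos.2 (by linarith)
    have h5 : 1 / Real.sqrt (fl 8192 (h + 1)) ≤ 200 / 203 * (1 / Real.sqrt (fl 8192 h)) := by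
      rw [mul_one_div, div_le_div_iff₀ (by linarith) h7]
      linarith
    have h6 : 0 < 1 / Real.sqrt (fl 8192 h) := by positivity
    show 1 / Real.sqrt (fl 8192 h) ≤ 677 / 10 * (1 / Real.sqrt (fl 8192 h) -
      1 / Real.sqrt (fl 8192 (h + 1)))
    linarith

/-! ### one frame -/

section
variable {l : ℕ} {k α β cap : ℝ}

theorem NG_nonneg_min {f : FatP} (hf : f.Ok) {a : ℝ} (ha : 0 < a) : 0 ≤ min f.N (f.μ * f.D / a) := by
  apply le_min
  · unfold FatP.N
    have h1 := hf.ρ_ge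
    have h2 : (1000 : ℝ) ≤ f.ρ := by exact_mod_cast h1
    have h3 := hf.μR
    have h4 : (f.l : ℝ) ^ 3 ≤ (f.l1 : ℝ) ^ 3 :=
      pow_le_pow_left₀ (Nat.cast_nonneg _) hf.l_le_L1 3
    have h5 := hf.q0
    apply div_nonneg
    · have : 0 ≤ ((f.l1 : ℝ) ^ 3 - (f.l : ℝ) ^ 3) / f.qn := div_nonneg (by linarith) h5.le
      have h6 : (0 : ℝ) ≤ f.thr := Nat.cast_nonneg _
      linarith
    · exact mul_nonneg (by linarith) (by linarith)
  · have h3 := hf.μR
    have h4 := hf.σS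
    unfold FatP.D
    exact div_nonneg (mul_nonneg (by linarith) (by linarith)) ha.le

theorem u_M2 (hl : 8192 ≤ l) :
    40299 / 100000 * ((l : ℝ) * (2048 / (l : ℝ) ^ 3) ^ 2) ≤
      ((FPc l (l + 32 * (l / 1024))).μ : ℝ) ^ 2 * (FPc l (l + 32 * (l / 1024))).σ ^ 2 := by
  have hlR : (8192 : ℝ) ≤ l := by exact_mod_cast hl
  obtain ⟨_, m2⟩ := u_μ hl
  have s1 := u_σ hl
  have hT : 0 < 2048 / (l : ℝ) ^ 3 := by positivity
  have s2 : (9118 / 10000 * (2048 / (l : ℝ) ^ 3)) ^ 2 ≤ (FPc l (l + 32 * (l / 1024))).σ ^ 2 :=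
    pow_le_pow_left₀ (by positivity) s1 2
  have h1 : (l : ℝ) / (2 * (65 / 64) ^ 2) ≤ ((FPc l (l + 32 * (l / 1024))).μ : ℝ) ^ 2 := by
    rw [div_le_iff₀ (by norm_num)]
    linarith
  have h2 := mul_le_mul h1 s2 (by positivity) (sq_nonneg _)
  refine le_trans ?_ h2
  have e : (l : ℝ) / (2 * (65 / 64) ^ 2) * (9118 / 10000 * (2048 / (l : ℝ) ^ 3)) ^ 2 =
      (9118 / 10000) ^ 2 / (2 * (65 / 64) ^ 2) * ((l : ℝ) * (2048 / (l : ℝ) ^ 3) ^ 2) := by ring
  rw [e]
  apply mul_le_mul_of_nonneg_right _ (by positivity)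
  norm_num

/-- short labels -/
theorem NG_A (hl : 8192 ≤ l) (hk : 20300000 ≤ k) (hα0 : 0 < α) (hαβ : α ≤ β)
    (hβ : β ≤ 10001 / 10000 * (2048 / k ^ 3)) (hcap0 : 0 < cap)
    (hβα : β - α ≤ 10003 / 10000 * (2048 / k ^ 3) * cap)
    (hcap : 1 ≤ 10002 / 10000 * (k / 96) * cap) (hA : (l : ℝ) ≤ 12 / 100 * k) :
    (FPc l (l + 32 * (l / 1024))).NG α β ≤
      cap * (685 / 10000 * ((l : ℝ) ^ 3 / k ^ 3) +
        if 820 * k ^ 3 ≤ (l : ℝ) ^ 5 then 589 / 1000 * (k / (l : ℝ) ^ 2) else 0) := by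
  have hlR : (8192 : ℝ) ≤ l := by exact_mod_cast hl
  have hl0 : (0 : ℝ) < l := by linarith
  have hk0 : 0 < k := by linarith
  have hok := FPc_ok hl
  have hM2 := u_M2 hl
  have hN := u_N hl
  have hS := u_S hl
  have hmin := NG_nonneg_min hok hα0
  obtain ⟨T, hT⟩ : ∃ T : ℝ, T = 2048 / (l : ℝ) ^ 3 := ⟨_, rfl⟩
  obtain ⟨u, hu⟩ : ∃ u : ℝ, u = 2048 / k ^ 3 := ⟨_, rfl⟩
  rw [← hT] at hM2 hS
  rw [← hu] at hβ hβα
  have hT0 : 0 < T := by rw [hT]; positivity
  have hu0 : 0 < u := by rw [hu]; positivity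
  have huT : u = T * ((l : ℝ) ^ 3 / k ^ 3) := by
    rw [hu, hT]
    field_simp
  have hx3 : (l : ℝ) ^ 3 / k ^ 3 ≤ 1728 / 1000000 := by
    rw [div_le_iff₀ (by positivity)]
    have h1 : (l : ℝ) ^ 3 ≤ (12 / 100 * k) ^ 3 := pow_le_pow_left₀ hl0.le hA 3
    rw [mul_pow] at h1
    norm_num at h1 ⊢
    linarith
  have hr0 : 0 < (l : ℝ) ^ 3 / k ^ 3 := by positivity
  have hif : 0 ≤ (if 820 * k ^ 3 ≤ (l : ℝ) ^ 5 then 589 / 1000 * (k / (l : ℝ) ^ 2) else 0) := by
    split_ifs <;> positivity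
  unfold FatP.NG
  split_ifs with hcond h820
  · -- main case
    have hβT : β ≤ 173 / 100000 * T := by
      have h1 : u ≤ 1728 / 1000000 * T := by
        rw [huT]
        nlinarith
      linarith
    have hSβ : (FPc l (l + 32 * (l / 1024))).S + 4 / 5 * β ≤ 10104 / 10000 * T := by linarith
    have hSβ0 : 0 ≤ (FPc l (l + 32 * (l / 1024))).S + 4 / 5 * β := by
      have := hok.S0
      have : 0 < β := by linarith
      positivity
    have hM0 : 0 < 40299 / 100000 * ((l : ℝ) * T ^ 2) := by positivity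
    have h2 : (β - α) / (((FPc l (l + 32 * (l / 1024))).μ : ℝ) ^ 2 *
        (FPc l (l + 32 * (l / 1024))).σ ^ 2) + 1 ≤
        (β - α) / (40299 / 100000 * ((l : ℝ) * T ^ 2)) + 1 := by
      have := div_le_div_of_nonneg_left (by linarith : 0 ≤ β - α) hM0 hM2
      linarith
    have h20 : 0 ≤ (β - α) / (((FPc l (l + 32 * (l / 1024))).μ : ℝ) ^ 2 *
        (FPc l (l + 32 * (l / 1024))).σ ^ 2) + 1 := by
      have : 0 ≤ (β - α) / (((FPc l (l + 32 * (l / 1024))).μ : ℝ) ^ 2 *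
        (FPc l (l + 32 * (l / 1024))).σ ^ 2) :=
        div_nonneg (by linarith) (by positivity)
      linarith
    have h3 : min (FPc l (l + 32 * (l / 1024))).N
        ((FPc l (l + 32 * (l / 1024))).μ * (FPc l (l + 32 * (l / 1024))).D / α) ≤
        273 / 10000 * l := (min_le_left _ _).trans hN
    have h4 := mul_le_mul (mul_le_mul h3 h2 h20 (by positivity)) hSβ hSβ0 (by
      have : 0 ≤ (β - α) / (40299 / 100000 * ((l : ℝ) * T ^ 2)) :=
        div_nonneg (by linarith) hM0.le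
      positivity)
    refine h4.trans ?_
    have e1 : 273 / 10000 * (l : ℝ) * ((β - α) / (40299 / 100000 * ((l : ℝ) * T ^ 2)) + 1) *
        (10104 / 10000 * T) =
        (273 / 10000 * (10104 / 10000) / (40299 / 100000)) * ((β - α) / T) +
          (273 / 10000 * (10104 / 10000)) * (l * T) := by
      field_simp
    rw [e1, mul_add]
    apply add_le_add
    · have h5 : (β - α) / T ≤ 10003 / 10000 * ((l : ℝ) ^ 3 / k ^ 3) * cap := by
        rw [div_le_iff₀ hT0]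
        refine hβα.trans (le_of_eq ?_)
        rw [huT]
        ring
      have h6 : 0 ≤ ((l : ℝ) ^ 3 / k ^ 3) * cap := by positivity
      calc (273 / 10000 * (10104 / 10000) / (40299 / 100000)) * ((β - α) / T) ≤
          (273 / 10000 * (10104 / 10000) / (40299 / 100000)) *
            (10003 / 10000 * ((l : ℝ) ^ 3 / k ^ 3) * cap) :=
            mul_le_mul_of_nonneg_left h5 (by norm_num)
        _ = (273 / 10000 * (10104 / 10000) / (40299 / 100000) * (10003 / 10000)) *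
            (((l : ℝ) ^ 3 / k ^ 3) * cap) := by ring
        _ ≤ 685 / 10000 * (((l : ℝ) ^ 3 / k ^ 3) * cap) :=
            mul_le_mul_of_nonneg_right (by norm_num) h6
        _ = _ := by ring
    · have h7 : 0 ≤ (l : ℝ) * T := by positivity
      calc (273 / 10000 * (10104 / 10000)) * (l * T) ≤
          (273 / 10000 * (10104 / 10000)) * (l * T) * (10002 / 10000 * (k / 96) * cap) :=
            le_mul_of_one_le_right (by positivity) hcap
        _ = (273 / 10000 * (10104 / 10000) * (10002 / 10000) / 96 * 2048) *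
            (cap * (k / (l : ℝ) ^ 2)) := by
              rw [hT]
              field_simp
        _ ≤ 589 / 1000 * (cap * (k / (l : ℝ) ^ 2)) :=
            mul_le_mul_of_nonneg_right (by norm_num) (by positivity)
        _ = _ := by ring
  · -- the condition contradicts `l^5 < 820 k^3`
    exfalso
    apply h820
    have h5 := hM2.trans hcond.2
    have h6 : 40299 / 100000 * ((l : ℝ) * T ^ 2) ≤ 10001 / 10000 * u := h5.trans hβ
    rw [hT, hu] at h6
    have e2 : 40299 / 100000 * ((l : ℝ) * (2048 / (l : ℝ) ^ 3) ^ 2) =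
        40299 / 100000 * 2048 ^ 2 / (l : ℝ) ^ 5 := by
      field_simp
    rw [e2, mul_div_assoc', div_le_div_iff₀ (by positivity) (by positivity)] at h6
    have h7 : 0 < k ^ 3 := by positivity
    norm_num at h6
    linarith
  · positivity
  · positivity

/-- long labels -/
theorem NG_B (hl : 2420000 ≤ l) (hk : 20300000 ≤ k) (hα : 2048 / k ^ 3 ≤ α) (hαβ : α ≤ β)
    (hβ : β ≤ 10001 / 10000 * (2048 / k ^ 3)) (hcap0 : 0 < cap)
    (hβα : β - α ≤ 10003 / 10000 * (2048 / k ^ 3) * cap)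
    (hcap : 1 ≤ 10002 / 10000 * (k / 96) * cap) (hB : k ^ 4 ≤ 21 / 10000 * (l : ℝ) ^ 5) :
    (FPc l (l + 32 * (l / 1024))).NG α β ≤
      cap * (1 / 5 * (14364 / 10000) * (1 / Real.sqrt l)) := by
  have hl8 : 8192 ≤ l := by omega
  have hlR : (2420000 : ℝ) ≤ l := by exact_mod_cast hl
  have hl0 : (0 : ℝ) < l := by linarith
  have hk0 : 0 < k := by linarith
  have hok := FPc_ok hl8
  have hS := u_S hl8
  have hD := u_D hl8
  have hσ := u_σ hl8
  obtain ⟨m1, m2⟩ := u_μ hl8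
  have hσT : (FPc l (l + 32 * (l / 1024))).σ ≤ 2048 / (l : ℝ) ^ 3 := by
    have h1 : ((FPc l (l + 32 * (l / 1024))).l : ℝ) = l := rfl
    have h2 := hok.l_le_L1
    rw [h1] at h2
    have h3 : (l : ℝ) ^ 3 ≤ ((FPc l (l + 32 * (l / 1024))).l1 : ℝ) ^ 3 :=
      pow_le_pow_left₀ hl0.le h2 3
    rw [hok.σ_eq]
    have h4 : ((FPc l (l + 32 * (l / 1024))).qn : ℝ) = 2048 := by norm_num [FPc]
    rw [h4]
    exact div_le_div_of_nonneg_left (by norm_num) (by positivity) h3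
  obtain ⟨T, hT⟩ : ∃ T : ℝ, T = 2048 / (l : ℝ) ^ 3 := ⟨_, rfl⟩
  obtain ⟨u, hu⟩ : ∃ u : ℝ, u = 2048 / k ^ 3 := ⟨_, rfl⟩
  rw [← hT] at hS hD hσ hσT
  rw [← hu] at hβ hβα hα
  have hT0 : 0 < T := by rw [hT]; positivity
  have hu0 : 0 < u := by rw [hu]; positivity
  have hα0 : 0 < α := lt_of_lt_of_le hu0 hα
  have hmin := NG_nonneg_min hok hα0
  have hσ0 := hok.σ0
  obtain ⟨μ, hμ⟩ : ∃ μ : ℝ, μ = ((FPc l (l + 32 * (l / 1024))).μ : ℝ) := ⟨_, rfl⟩
  have hμ2 : 2 ≤ μ := by rw [hμ]; exact hok.μR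
  have hμ0 : 0 < μ := by linarith
  rw [← hμ] at m1 m2 hmin
  unfold FatP.NG
  rw [← hμ]
  split_ifs with hcond
  · have hy := hok.hy
    have hβσ : β ≤ 8335 / 10000 * T := by
      have h1 : β ≤ 10001 / 10000 * α := by linarith
      have h2 : α ≤ 5 / 6 * T := by linarith [hcond.1]
      linarith
    have hSβ : (FPc l (l + 32 * (l / 1024))).S + 4 / 5 * β ≤ 1676 / 1000 * T := by linarith
    have hSβ0 : 0 ≤ (FPc l (l + 32 * (l / 1024))).S + 4 / 5 * β := by
      have := hok.S0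
      have : 0 < β := by linarith
      positivity
    -- bound of the number
    have hμl : μ * (1 / Real.sqrt l) * 0 = 0 := by ring
    have h3 : min (FPc l (l + 32 * (l / 1024))).N
        (μ * (FPc l (l + 32 * (l / 1024))).D / α) ≤ μ * (972 / 10000 * T) / u := by
      refine (min_le_right _ _).trans ?_
      have h4 : μ * (FPc l (l + 32 * (l / 1024))).D ≤ μ * (972 / 10000 * T) :=
        mul_le_mul_of_nonneg_left hD hμ0.le
      exact div_le_div₀ (by positivity) h4 hu0 hα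
    have hM0 : 0 < μ ^ 2 * (9118 / 10000 * T) ^ 2 := by positivity
    have hM1 : μ ^ 2 * (9118 / 10000 * T) ^ 2 ≤ μ ^ 2 * (FPc l (l + 32 * (l / 1024))).σ ^ 2 := by
      apply mul_le_mul_of_nonneg_left _ (sq_nonneg _)
      exact pow_le_pow_left₀ (by positivity) hσ 2
    have h2 : (β - α) / (μ ^ 2 * (FPc l (l + 32 * (l / 1024))).σ ^ 2) + 1 ≤
        (10003 / 10000 * u * cap) / (μ ^ 2 * (9118 / 10000 * T) ^ 2) + 1 := by
      have := div_le_div₀ (by positivity) hβα hM0 hM1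
      linarith
    have h20 : 0 ≤ (β - α) / (μ ^ 2 * (FPc l (l + 32 * (l / 1024))).σ ^ 2) + 1 := by
      have : 0 ≤ (β - α) / (μ ^ 2 * (FPc l (l + 32 * (l / 1024))).σ ^ 2) :=
        div_nonneg (by linarith) (by positivity)
      linarith
    have h4 := mul_le_mul (mul_le_mul h3 h2 h20 (by positivity)) hSβ hSβ0 (by positivity)
    refine h4.trans ?_
    have e1 : μ * (972 / 10000 * T) / u *
        ((10003 / 10000 * u * cap) / (μ ^ 2 * (9118 / 10000 * T) ^ 2) + 1) * (1676 / 1000 * T) =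
        (972 / 10000 * (10003 / 10000) * (1676 / 1000) / (9118 / 10000) ^ 2) * (cap / μ) +
          (972 / 10000 * (1676 / 1000)) * (μ * T ^ 2 / u) := by
      field_simp
    rw [e1]
    -- the second term
    have h5 : μ * T ^ 2 / u ≤ 10002 / 10000 / 96 * 2048 * (21 / 10000) / 2 * (cap / μ) := by
      have h6 : μ * T ^ 2 / u = (2048 * μ ^ 2 * k ^ 3 / (l : ℝ) ^ 6) / μ := by
        rw [hT, hu]
        field_simp
      have h7 : 2048 * μ ^ 2 * k ^ 3 / (l : ℝ) ^ 6 ≤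
          2048 * μ ^ 2 * k ^ 3 / (l : ℝ) ^ 6 * (10002 / 10000 * (k / 96) * cap) :=
        le_mul_of_one_le_right (by positivity) hcap
      have h8 : 2048 * μ ^ 2 * k ^ 3 / (l : ℝ) ^ 6 * (10002 / 10000 * (k / 96) * cap) =
          10002 / 10000 / 96 * 2048 * cap * (μ ^ 2 * k ^ 4 / (l : ℝ) ^ 6) := by
        field_simp
      have h9 : μ ^ 2 * k ^ 4 / (l : ℝ) ^ 6 ≤ 21 / 10000 / 2 := by
        rw [div_le_iff₀ (by positivity)]
        have h10 : μ ^ 2 * k ^ 4 ≤ (l / 2) * (21 / 10000 * (l : ℝ) ^ 5) :=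
          mul_le_mul (by linarith) hB (by positivity) (by positivity)
        refine h10.trans (le_of_eq ?_)
        ring
      have h11 : 10002 / 10000 / 96 * 2048 * cap * (μ ^ 2 * k ^ 4 / (l : ℝ) ^ 6) ≤
          10002 / 10000 / 96 * 2048 * cap * (21 / 10000 / 2) :=
        mul_le_mul_of_nonneg_left h9 (by positivity)
      rw [h6, div_le_iff₀ hμ0]
      have h12 : 10002 / 10000 / 96 * 2048 * (21 / 10000) / 2 * (cap / μ) * μ =
          10002 / 10000 / 96 * 2048 * cap * (21 / 10000 / 2) := by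
        field_simp
      rw [h12]
      linarith
    have h13 : (972 / 10000 * (10003 / 10000) * (1676 / 1000) / (9118 / 10000) ^ 2) * (cap / μ) +
          (972 / 10000 * (1676 / 1000)) * (μ * T ^ 2 / u) ≤ 1 / 5 * (cap / μ) := by
      have h14 : 0 < cap / μ := by positivity
      have h15 : (972 / 10000 * (1676 / 1000)) * (μ * T ^ 2 / u) ≤ (972 / 10000 * (1676 / 1000)) *
          (10002 / 10000 / 96 * 2048 * (21 / 10000) / 2 * (cap / μ)) :=
        mul_le_mul_of_nonneg_left h5 (by norm_num)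
      have h16 : (972 / 10000 * (1676 / 1000)) *
          (10002 / 10000 / 96 * 2048 * (21 / 10000) / 2 * (cap / μ)) ≤
          37 / 10000 * (cap / μ) := by
        rw [← mul_assoc]
        apply mul_le_mul_of_nonneg_right _ h14.le
        norm_num
      have h17 : (972 / 10000 * (10003 / 10000) * (1676 / 1000) / (9118 / 10000) ^ 2) * (cap / μ) ≤
          1961 / 10000 * (cap / μ) := by
        apply mul_le_mul_of_nonneg_right _ h14.le
        norm_num
      linarith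
    refine h13.trans ?_
    have h18 : 1 / μ ≤ 14364 / 10000 * (1 / Real.sqrt l) := by
      have hs : 0 < Real.sqrt l := Real.sqrt_pos.2 hl0
      rw [mul_one_div, div_le_div_iff₀ hμ0 hs, one_mul]
      rw [Real.sqrt_le_left (by positivity), mul_pow]
      norm_num at m2 ⊢
      linarith
    have h19 : cap / μ = cap * (1 / μ) := by ring
    rw [h19]
    have h21 := mul_le_mul_of_nonneg_left h18 hcap0.le
    calc 1 / 5 * (cap * (1 / μ)) ≤ 1 / 5 * (cap * (14364 / 10000 * (1 / Real.sqrt l))) := by linarith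
      _ = _ := by ring
  · positivity

end

/-! ### the sum -/

theorem MGl_eq (c : ℝ) (i : ℕ) : MGl c i = c * MGl 1 i := by
  unfold MGl
  ring

/-- capacity of a group -/
theorem cap_ge {i : ℕ} (hi : 20300000 ≤ 32 * i) :
    1 ≤ 10001 / 10000 * (((32 * i : ℕ) : ℝ) / 96) * MGl 1 i := by
  have hk : (20300000 : ℝ) ≤ ((32 * i : ℕ) : ℝ) := by exact_mod_cast hi
  have hc := card_pool_ge (q := 2048) (by norm_num) (a := 32 * i) (b := 32 * i + 32) (by omega) (by
    rw [le_div_iff₀ (by norm_num)]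
    have : (20300000 : ℝ) ^ 3 ≤ ((32 * i : ℕ) : ℝ) ^ 3 := pow_le_pow_left₀ (by norm_num) hk 3
    norm_num at this ⊢
    linarith)
  have e : ((32 * i + 32 : ℕ) : ℝ) = ((32 * i : ℕ) : ℝ) + 32 := by push_cast; ring
  unfold MGl
  rw [one_mul]
  have hth : th 2048 (32 * i + 32) = 2048 / (((32 * i : ℕ) : ℝ) + 32) ^ 3 := by
    unfold th
    rw [e]
  rw [hth]
  rw [e] at hc
  generalize ((32 * i : ℕ) : ℝ) = k at hk hc ⊢
  have hk0 : 0 < k := by linarith
  have h1 : 2048 / (k + 32) ^ 3 * (((k + 32) ^ 3 - k ^ 3) / 2048 - 1) ≤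
      2048 / (k + 32) ^ 3 * ((pool 2048 (32 * i) (32 * i + 32)).card : ℝ) :=
    mul_le_mul_of_nonneg_left hc (by positivity)
  refine le_trans ?_ (mul_le_mul_of_nonneg_left h1 (by positivity))
  have e2 : 10001 / 10000 * (k / 96) * (2048 / (k + 32) ^ 3 * (((k + 32) ^ 3 - k ^ 3) / 2048 - 1)) =
      10001 / 960000 * k * ((k + 32) ^ 3 - k ^ 3 - 2048) / (k + 32) ^ 3 := by
    field_simp
    ring
  rw [e2, one_le_div (by positivity)]
  have e3 : (k + 32) ^ 3 = k ^ 3 + 96 * k ^ 2 + 3072 * k + 32768 := by ring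
  rw [e3]
  have h2 : 20300000 * k ^ 2 ≤ k ^ 3 := by nlinarith [sq_nonneg k]
  have h3 : 20300000 * k ≤ k ^ 2 := by nlinarith
  nlinarith

theorem MG_core {g i : ℕ} {B r X0 s0 : ℝ} (hg : 256 ≤ g) (hi : fl 8192 g / 32 ≤ i)
    (hi' : i < fl 8192 (g + 1) / 32) (hB0 : 100 ≤ B)
    (hB : B ^ 5 ≤ 672400 * ((32 * i : ℕ) : ℝ)) (hr0 : 0 < r) (hr1 : r ≤ 12 / 100)
    (hr : 7 ≤ r ^ 7 * ((32 * i : ℕ) : ℝ)) (hX1 : 2420000 ≤ X0)
    (hX : X0 ^ 7 ≤ 7 * ((32 * i : ℕ) : ℝ) ^ 6) (hs0 : 0 < s0) (hs : s0 ^ 2 ≤ X0) :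
    ∑ h ∈ Finset.range g, (F41 h).NG (th 2048 (32 * (i + 1) - 36)) (th 2048 (32 * i - 36)) ≤
      MGl (86858 / 100000 * r ^ 3 + 1016614 / 100000 / B + 1945 / 100 / s0) i := by
  have hfl : 20300000 ≤ fl 8192 g := by
    have h1 : 20300000 ≤ fl 8192 256 := by decide +kernel
    exact h1.trans (fl_mono hg)
  have hd := fl_dvd (l0 := 8192) (by norm_num) g
  have hk : fl 8192 g ≤ 32 * i := by omega
  have hkN : 20300000 ≤ 32 * i := by omega
  have hcap1 := cap_ge hkN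
  have hlk : ∀ h, h < g → (fl 8192 h : ℝ) ≤ ((32 * i : ℕ) : ℝ) := by
    intro h hh
    have h1 : fl 8192 h ≤ fl 8192 g := fl_mono hh.le
    exact_mod_cast h1.trans hk
  have eα : th 2048 (32 * (i + 1) - 36) = 2048 / (((32 * i : ℕ) : ℝ) - 4) ^ 3 := by
    unfold th
    have h1 : 32 * (i + 1) - 36 = 32 * i - 4 := by omega
    rw [h1, Nat.cast_sub (by omega)]
    norm_num
  have eβ : th 2048 (32 * i - 36) = 2048 / (((32 * i : ℕ) : ℝ) - 36) ^ 3 := by
    unfold th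
    rw [Nat.cast_sub (by omega)]
    norm_num
  rw [MGl_eq, eα, eβ]
  have hkR : (20300000 : ℝ) ≤ ((32 * i : ℕ) : ℝ) := by exact_mod_cast hkN
  generalize MGl 1 i = cap at hcap1 ⊢
  generalize ((32 * i : ℕ) : ℝ) = k at hkR hlk hB hr hX hcap1 ⊢
  have hk0 : 0 < k := by linarith
  have hcap0 : 0 < cap := by
    by_contra h
    have : 10001 / 10000 * (k / 96) * cap ≤ 0 :=
      mul_nonpos_of_nonneg_of_nonpos (by positivity) (not_lt.1 h)
    linarith
  obtain ⟨α, hα⟩ : ∃ α, α = 2048 / (k - 4) ^ 3 := ⟨_, rfl⟩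
  obtain ⟨β, hβ⟩ : ∃ β, β = 2048 / (k - 36) ^ 3 := ⟨_, rfl⟩
  rw [← hα, ← hβ]
  have hk36 : 0 < k - 36 := by linarith
  have hk4 : 0 < k - 4 := by linarith
  have hα1 : 2048 / k ^ 3 ≤ α := by
    rw [hα]
    exact div_le_div_of_nonneg_left (by norm_num) (by positivity)
      (pow_le_pow_left₀ hk4.le (by linarith) 3)
  have hα0 : 0 < α := lt_of_lt_of_le (by positivity) hα1
  have hαβ : α ≤ β := by
    rw [hα, hβ]
    exact div_le_div_of_nonneg_left (by norm_num) (by positivity)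
      (pow_le_pow_left₀ hk36.le (by linarith) 3)
  -- powers of k - 36
  have hq1 : 999998 / 1000000 * k ≤ k - 36 := by linarith
  have hq3 : (999998 / 1000000 * k) ^ 3 ≤ (k - 36) ^ 3 := pow_le_pow_left₀ (by positivity) hq1 3
  have hβ1 : β ≤ 10001 / 10000 * (2048 / k ^ 3) := by
    rw [hβ, mul_div_assoc', div_le_div_iff₀ (by positivity) (by positivity)]
    rw [mul_pow] at hq3
    have : 0 < k ^ 3 := by positivity
    norm_num at hq3
    linarith
  have hβα : β - α ≤ 10003 / 10000 * (2048 / k ^ 3) * cap := by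
    have h1 : β - α ≤ 10001 / 10000 * (96 * 2048 / k ^ 4) := by
      have h2 : β - α = 2048 * ((k - 4) ^ 3 - (k - 36) ^ 3) / ((k - 36) ^ 3 * (k - 4) ^ 3) := by
        rw [hα, hβ, div_sub_div _ _ (by positivity) (by positivity)]
        ring
      have h3 : (k - 4) ^ 3 - (k - 36) ^ 3 ≤ 96 * k ^ 2 := by nlinarith
      have h4 : (999998 / 1000000 * k) ^ 3 ≤ (k - 4) ^ 3 :=
        pow_le_pow_left₀ (by positivity) (by linarith) 3
      have h5 : (999998 / 1000000 * k) ^ 3 * (999998 / 1000000 * k) ^ 3 ≤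
          (k - 36) ^ 3 * (k - 4) ^ 3 := mul_le_mul hq3 h4 (by positivity) (by positivity)
      have h30 : 0 ≤ (k - 4) ^ 3 - (k - 36) ^ 3 := by
        have := pow_le_pow_left₀ hk36.le (by linarith : k - 36 ≤ k - 4) 3
        linarith
      rw [h2]
      calc 2048 * ((k - 4) ^ 3 - (k - 36) ^ 3) / ((k - 36) ^ 3 * (k - 4) ^ 3) ≤
          2048 * (96 * k ^ 2) / ((999998 / 1000000 * k) ^ 3 * (999998 / 1000000 * k) ^ 3) :=
            div_le_div₀ (by positivity) (by linarith) (by positivity) h5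
        _ = (1 / (999998 / 1000000) ^ 6) * (96 * 2048 / k ^ 4) := by
            field_simp
        _ ≤ 10001 / 10000 * (96 * 2048 / k ^ 4) :=
            mul_le_mul_of_nonneg_right (by norm_num) (by positivity)
    refine h1.trans ?_
    have h6 : 10001 / 10000 * (96 * 2048 / k ^ 4) ≤
        10001 / 10000 * (96 * 2048 / k ^ 4) * (10001 / 10000 * (k / 96) * cap) :=
      le_mul_of_one_le_right (by positivity) hcap1
    refine h6.trans ?_
    have h7 : 10001 / 10000 * (96 * 2048 / k ^ 4) * (10001 / 10000 * (k / 96) * cap) =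
        (10001 / 10000) ^ 2 * ((2048 / k ^ 3) * cap) := by
      field_simp
    rw [h7, mul_assoc]
    exact mul_le_mul_of_nonneg_right (by norm_num) (by positivity)
  have hcap : 1 ≤ 10002 / 10000 * (k / 96) * cap := by
    have : 0 < (k / 96) * cap := by positivity
    linarith
  -- the pointwise bound
  have hpt : ∀ h ∈ Finset.range g, (F41 h).NG α β ≤
      cap * (685 / 10000 / k ^ 3 *
          (if (fl 8192 h : ℝ) ^ 3 ≤ r ^ 3 * k ^ 3 then (fl 8192 h : ℝ) ^ 3 else 0) +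
        589 / 1000 * k * (if B * k ≤ (fl 8192 h : ℝ) ^ 2 then 1 / (fl 8192 h : ℝ) ^ 2 else 0) +
        1 / 5 * (14364 / 10000) *
          (if X0 ≤ (fl 8192 h : ℝ) then 1 / Real.sqrt (fl 8192 h) else 0)) := by
    intro h hh
    rw [Finset.mem_range] at hh
    have hl8 := fl_ge (le_refl 8192) h
    have hl8R := fl_pos h
    have hle := hlk h hh
    have hF : F41 h = FPc (fl 8192 h) (fl 8192 h + 32 * (fl 8192 h / 1024)) := rfl
    rw [hF]
    obtain ⟨l, hl⟩ : ∃ l, l = fl 8192 h := ⟨_, rfl⟩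
    rw [← hl] at hl8 hl8R hle ⊢
    have hl0 : (0 : ℝ) < l := by linarith
    have p1 : 0 ≤ 685 / 10000 / k ^ 3 *
        (if (l : ℝ) ^ 3 ≤ r ^ 3 * k ^ 3 then (l : ℝ) ^ 3 else 0) := by
      split_ifs <;> positivity
    have p2 : 0 ≤ 589 / 1000 * k * (if B * k ≤ (l : ℝ) ^ 2 then 1 / (l : ℝ) ^ 2 else 0) := by
      split_ifs <;> positivity
    have p3 : 0 ≤ 1 / 5 * (14364 / 10000) *
          (if X0 ≤ (l : ℝ) then 1 / Real.sqrt l else 0) := by
      split_ifs <;> positivity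
    rcases le_or_gt ((l : ℝ) ^ 7) (7 * k ^ 6) with hA | hA
    · -- short labels
      have hlr : (l : ℝ) ≤ r * k := by
        by_contra hc
        rw [not_le] at hc
        have h1 : (r * k) ^ 7 < (l : ℝ) ^ 7 := pow_lt_pow_left₀ hc (by positivity) (by norm_num)
        have h2 : (r * k) ^ 7 = r ^ 7 * k * k ^ 6 := by ring
        have h3 : 7 * k ^ 6 ≤ r ^ 7 * k * k ^ 6 :=
          mul_le_mul_of_nonneg_right hr (by positivity)
        linarith
      have hlA : (l : ℝ) ≤ 12 / 100 * k := hlr.trans (mul_le_mul_of_nonneg_right hr1 hk0.le)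
      refine (NG_A hl8 hkR hα0 hαβ hβ1 hcap0 hβα hcap hlA).trans ?_
      apply mul_le_mul_of_nonneg_left _ hcap0.le
      have hl3 : (l : ℝ) ^ 3 ≤ r ^ 3 * k ^ 3 := by
        have h1 : (l : ℝ) ^ 3 ≤ (r * k) ^ 3 := pow_le_pow_left₀ hl0.le hlr 3
        rwa [mul_pow] at h1
      rw [if_pos hl3]
      have e1 : 685 / 10000 * ((l : ℝ) ^ 3 / k ^ 3) = 685 / 10000 / k ^ 3 * (l : ℝ) ^ 3 := by ring
      rw [e1]
      have h4 : (if 820 * k ^ 3 ≤ (l : ℝ) ^ 5 then 589 / 1000 * (k / (l : ℝ) ^ 2) else 0) ≤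
          589 / 1000 * k * (if B * k ≤ (l : ℝ) ^ 2 then 1 / (l : ℝ) ^ 2 else 0) := by
        by_cases h5 : 820 * k ^ 3 ≤ (l : ℝ) ^ 5
        · rw [if_pos h5]
          have h6 : B * k ≤ (l : ℝ) ^ 2 := by
            by_contra hc
            rw [not_le] at hc
            have h7 : ((l : ℝ) ^ 2) ^ 5 < (B * k) ^ 5 :=
              pow_lt_pow_left₀ hc (by positivity) (by norm_num)
            have h8 : (820 * k ^ 3) ^ 2 ≤ ((l : ℝ) ^ 5) ^ 2 :=
              pow_le_pow_left₀ (by positivity) h5 2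
            have h9 : (B * k) ^ 5 = B ^ 5 * k ^ 5 := by ring
            have h10 : B ^ 5 * k ^ 5 ≤ 672400 * k * k ^ 5 :=
              mul_le_mul_of_nonneg_right hB (by positivity)
            have h11 : (820 * k ^ 3) ^ 2 = 672400 * k * k ^ 5 := by ring
            have h12 : ((l : ℝ) ^ 5) ^ 2 = ((l : ℝ) ^ 2) ^ 5 := by ring
            linarith
          rw [if_pos h6]
          apply le_of_eq
          ring
        · rw [if_neg h5]
          exact p2
      linarith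
    · -- long labels
      have hXl : X0 < (l : ℝ) := by
        by_contra hc
        rw [not_lt] at hc
        have h1 : (l : ℝ) ^ 7 ≤ X0 ^ 7 := pow_le_pow_left₀ hl0.le hc 7
        linarith
      have hX2 : (2420000 : ℝ) ≤ l := by linarith
      have hXN : 2420000 ≤ l := by exact_mod_cast hX2
      have hB4 : k ^ 4 ≤ 21 / 10000 * (l : ℝ) ^ 5 := by
        apply le_of_pow_le_pow_left₀ (n := 3) (by norm_num) (by positivity)
        have h1 : (7 * k ^ 6) ^ 2 ≤ ((l : ℝ) ^ 7) ^ 2 := pow_le_pow_left₀ (by positivity) hA.le 2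
        have h2 : (7 * k ^ 6) ^ 2 = 49 * (k ^ 4) ^ 3 := by ring
        have h3 : ((l : ℝ) ^ 7) ^ 2 = (l : ℝ) ^ 14 := by ring
        have h4 : (21 / 10000 * (l : ℝ) ^ 5) ^ 3 = (21 / 10000) ^ 3 * l * (l : ℝ) ^ 14 := by ring
        have h5 : (l : ℝ) ^ 14 ≤ 49 * ((21 / 10000) ^ 3 * l * (l : ℝ) ^ 14) := by
          have h6 : 49 * ((21 / 10000) ^ 3 * l * (l : ℝ) ^ 14) =
              (49 * (21 / 10000) ^ 3 * l) * (l : ℝ) ^ 14 := by ring
          rw [h6]
          apply le_mul_of_one_le_left (by positivity)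
          norm_num
          linarith
        rw [h4]
        rw [h2, h3] at h1
        linarith
      refine (NG_B hXN hkR hα1 hαβ hβ1 hcap0 hβα hcap hB4).trans ?_
      apply mul_le_mul_of_nonneg_left _ hcap0.le
      rw [if_pos hXl.le] at p3 ⊢
      linarith
  refine (Finset.sum_le_sum hpt).trans ?_
  rw [← Finset.mul_sum, mul_comm _ cap]
  apply mul_le_mul_of_nonneg_left _ hcap0.le
  rw [Finset.sum_add_distrib, Finset.sum_add_distrib, ← Finset.mul_sum, ← Finset.mul_sum,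
    ← Finset.mul_sum]
  have s1 := sum_cube (r ^ 3 * k ^ 3) (by positivity) g
  have s2 := sum_sq (Y := B * k) (by nlinarith) g
  have s3 := sum_sqrt (X := X0) (by linarith) g
  have t1 : 685 / 10000 / k ^ 3 * ∑ h ∈ Finset.range g,
      (if (fl 8192 h : ℝ) ^ 3 ≤ r ^ 3 * k ^ 3 then (fl 8192 h : ℝ) ^ 3 else 0) ≤
      86858 / 100000 * r ^ 3 := by
    refine (mul_le_mul_of_nonneg_left s1 (by positivity)).trans ?_
    have e : 685 / 10000 / k ^ 3 * (1268 / 100 * (r ^ 3 * k ^ 3)) =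
        685 / 10000 * (1268 / 100) * r ^ 3 := by
      field_simp
    rw [e]
    apply mul_le_mul_of_nonneg_right _ (by positivity)
    norm_num
  have t2 : 589 / 1000 * k * ∑ h ∈ Finset.range g,
      (if B * k ≤ (fl 8192 h : ℝ) ^ 2 then 1 / (fl 8192 h : ℝ) ^ 2 else 0) ≤
      1016614 / 100000 / B := by
    refine (mul_le_mul_of_nonneg_left s2 (by positivity)).trans ?_
    have e : 589 / 1000 * k * (1726 / 100 * (1 / (B * k))) = 589 / 1000 * (1726 / 100) / B := by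
      field_simp
    rw [e]
    apply div_le_div_of_nonneg_right _ (by linarith)
    norm_num
  have t3 : 1 / 5 * (14364 / 10000) * ∑ h ∈ Finset.range g,
      (if X0 ≤ (fl 8192 h : ℝ) then 1 / Real.sqrt (fl 8192 h) else 0) ≤ 1945 / 100 / s0 := by
    refine (mul_le_mul_of_nonneg_left s3 (by positivity)).trans ?_
    have hs1 : s0 ≤ Real.sqrt X0 := Real.le_sqrt_of_sq_le hs
    have hs' : 1 / Real.sqrt X0 ≤ 1 / s0 := one_div_le_one_div_of_le hs0 hs1
    calc 1 / 5 * (14364 / 10000) * (677 / 10 * (1 / Real.sqrt X0)) ≤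
        1 / 5 * (14364 / 10000) * (677 / 10 * (1 / s0)) := by
          apply mul_le_mul_of_nonneg_left _ (by norm_num)
          exact mul_le_mul_of_nonneg_left hs' (by norm_num)
      _ = 1 / 5 * (14364 / 10000) * (677 / 10) / s0 := by ring
      _ ≤ 1945 / 100 / s0 := div_le_div_of_nonneg_right (by norm_num) hs0.le
  linarith

/-- **Tail of class G.** -/
theorem MG_tail {g i : ℕ} (hg : 256 ≤ g) (hi : fl 8192 g / 32 ≤ i) (hi' : i < fl 8192 (g + 1) / 32) :
    ∑ h ∈ Finset.range g, (F41 h).NG (th 2048 (32 * (i + 1) - 36)) (th 2048 (32 * i - 36)) ≤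
      MGl (1 / 25) i := by
  have hfl : 20300000 ≤ fl 8192 g := by
    have h1 : 20300000 ≤ fl 8192 256 := by decide +kernel
    exact h1.trans (fl_mono hg)
  have hd := fl_dvd (l0 := 8192) (by norm_num) g
  have hkN : 20300000 ≤ 32 * i := by omega
  have hkR : (20300000 : ℝ) ≤ ((32 * i : ℕ) : ℝ) := by exact_mod_cast hkN
  have h := MG_core (B := 423) (r := 12 / 100) (X0 := 2420000) (s0 := 1555) hg hi hi' (by norm_num)
    (by
      norm_num at hkR ⊢
      linarith) (by norm_num) le_rfl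
    (by
      norm_num at hkR ⊢
      linarith) le_rfl
    (by
      have h2 : (20300000 : ℝ) ^ 6 ≤ ((32 * i : ℕ) : ℝ) ^ 6 :=
        pow_le_pow_left₀ (by norm_num) hkR 6
      have h3 : (2420000 : ℝ) ^ 7 ≤ 7 * 20300000 ^ 6 := by norm_num
      linarith) (by norm_num) (by norm_num)
  refine h.trans ?_
  rw [MGl_eq, MGl_eq (1 / 25)]
  have h1 := cap_ge hkN
  have hcap0 : 0 ≤ MGl 1 i := by
    unfold MGl th
    positivity
  apply mul_le_mul_of_nonneg_right _ hcap0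
  norm_num

theorem MG_tail2 {g i : ℕ} (hg : 566 ≤ g) (hi : fl 8192 g / 32 ≤ i)
    (hi' : i < fl 8192 (g + 1) / 32) :
    ∑ h ∈ Finset.range g, (F41 h).NG (th 2048 (32 * (i + 1) - 36)) (th 2048 (32 * i - 36)) ≤
      MGl (1 / 250) i := by
  have hfl : 270000000000 ≤ fl 8192 g := by
    have h1 : 270000000000 ≤ fl 8192 566 := by decide +kernel
    exact h1.trans (fl_mono hg)
  have hd := fl_dvd (l0 := 8192) (by norm_num) g
  have hkN : 270000000000 ≤ 32 * i := by omega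
  have hkR : (270000000000 : ℝ) ≤ ((32 * i : ℕ) : ℝ) := by exact_mod_cast hkN
  have h := MG_core (B := 2800) (r := 31 / 1000) (X0 := 8000000000) (s0 := 89400) (by omega) hi hi'
    (by norm_num)
    (by
      norm_num at hkR ⊢
      linarith) (by norm_num) (by norm_num)
    (by
      norm_num at hkR ⊢
      linarith) (by norm_num)
    (by
      have h2 : (270000000000 : ℝ) ^ 6 ≤ ((32 * i : ℕ) : ℝ) ^ 6 :=
        pow_le_pow_left₀ (by norm_num) hkR 6
      have h3 : (8000000000 : ℝ) ^ 7 ≤ 7 * 270000000000 ^ 6 := by norm_num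
      linarith) (by norm_num) (by norm_num)
  refine h.trans ?_
  rw [MGl_eq, MGl_eq (1 / 250)]
  have hcap0 : 0 ≤ MGl 1 i := by
    unfold MGl th
    positivity
  apply mul_le_mul_of_nonneg_right _ hcap0
  norm_num

end

end Pool.Agent.LibMoserT
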