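import Pool.Agent.LibMoserT.Src
import Pool.Agent.LibMoserT.FrameRows
set_option autoImplicit false
/-!
# The frame inequality with sources
-/
namespace Pool.Agent.LibMoserT
open Pool.Agent.LibMoser5 Pool.Agent.LibMoserF Classical

noncomputable section

theorem P_append (q : ℝ) (j : ℕ) (L L' : List (ℝ × ℝ)) : P q j (L ++ L') = P q j L + P q j L' := by
  simp [P]

theorem P_perm {q : ℝ} {j : ℕ} {L L' : List (ℝ × ℝ)} (h : L.Perm L') : P q j L = P q j L' :=
  (h.map _).sum_eq

theorem PC_append (q : ℝ) (j : ℕ) (L L' : List (ℝ × ℝ)) :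
    PC q j (L ++ L') = PC q j L + PC q j L' := by
  simp [PC]

theorem PC_perm {q : ℝ} {j : ℕ} {L L' : List (ℝ × ℝ)} (h : L.Perm L') : PC q j L = PC q j L' :=
  (h.map _).sum_eq

theorem pot_child {θ' θ σm y s : ℝ} (hθ' : 0 < θ') (hθ : θ' < θ) (hσ : 0 < σm) (hs : σm ≤ s)
    (hy : 0 ≤ y) :
    pot θ' θ (y, s) ≤ (if θ' < y then chC * y else 0) +
      (if θ' < y ∧ y ≤ θ then s * ((1 + 4 / 5 * (θ / σm)) * (θ' / (θ - θ'))) else 0) := by
  have hU : fhit θ' y s ≤ chC * y := fhit_le hθ'.le |>.trans (fch_le hθ'.le hy)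
  unfold pot
  dsimp only
  have hd : 0 < θ - θ' := by linarith
  have hs0 : 0 < s := lt_of_lt_of_le hσ hs
  have hC : 0 ≤ chC * y := by unfold chC; positivity
  by_cases h1 : y ≤ θ'
  · have a1 : ¬ (θ' < y) := not_lt.2 h1
    rw [if_pos h1, if_neg a1, if_neg (fun h : θ' < y ∧ y ≤ θ => a1 h.1)]
    linarith
  · rw [if_neg h1, if_pos (not_le.1 h1)]
    by_cases h2 : y ≤ θ
    · rw [if_pos h2, if_pos ⟨not_le.1 h1, h2⟩]
      have h3 : y ≤ s * (θ / σm) := by
        have h4 : θ ≤ s * (θ / σm) := by
          rw [mul_div_assoc', le_div_iff₀ hσ]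
          nlinarith
        linarith
      have h5 : ms (y, s) ≤ s * (1 + 4 / 5 * (θ / σm)) := by
        unfold ms
        dsimp only
        nlinarith
      have h6 : 0 ≤ θ' / (θ - θ') := (div_pos hθ' hd).le
      have h7 := mul_le_mul_of_nonneg_right h5 h6
      rw [mul_div_assoc]
      nlinarith
    · have h3 : ¬ (θ' < y ∧ y ≤ θ) := fun h => h2 h.2
      rw [if_neg h2, if_neg h3, add_zero]
      exact hU

theorem sum_map_ite {α : Type} (L : List α) (p : α → Prop) [DecidablePred p] (f : α → ℝ) :
    (L.map (fun x => if p x then f x else 0)).sum = ((L.filter (fun x => decide (p x))).map f).sum := by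
  induction L with
  | nil => simp
  | cons a L ih =>
    rw [List.map_cons, List.sum_cons, List.filter_cons, ih]
    by_cases h : p a
    · simp [h]
    · simp [h]

/-- tagged rows -/
def tagged (sv : List (Src × List (ℝ × ℝ))) : List (Fin sv.length × (ℝ × ℝ)) :=
  (List.finRange sv.length).flatMap (fun t => (sv.get t).2.map (fun x => (t, x)))

theorem sum_flatMap' {α γ : Type} (l : List α) (f : α → List γ) (g : γ → ℝ) :
    ((l.flatMap f).map g).sum = (l.map (fun a => ((f a).map g).sum)).sum := by
  induction l with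
  | nil => simp
  | cons a L ih =>
    rw [List.flatMap_cons, List.map_append, List.sum_append, ih, List.map_cons, List.sum_cons]

theorem sum_finRange' {n : ℕ} (f : Fin n → ℝ) : ((List.finRange n).map f).sum = ∑ t, f t := by
  rw [← List.ofFn_eq_map, List.sum_ofFn]

theorem tagged_sum (sv : List (Src × List (ℝ × ℝ))) (f : Fin sv.length × (ℝ × ℝ) → ℝ) :
    ((tagged sv).map f).sum = ∑ t : Fin sv.length, ((sv.get t).2.map (fun x => f (t, x))).sum := by
  unfold tagged
  rw [sum_flatMap', sum_finRange']
  apply Finset.sum_congr rfl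
  intro t _
  rw [List.map_map]
  rfl

theorem tagged_snd (sv : List (Src × List (ℝ × ℝ))) :
    (tagged sv).map Prod.snd = sv.flatMap Prod.snd := by
  unfold tagged
  rw [List.map_flatMap]
  have e1 : ∀ t : Fin sv.length, ((sv.get t).2.map (fun x => (t, x))).map Prod.snd =
      (sv.get t).2 := by
    intro t
    rw [List.map_map]
    simp [Function.comp_def]
  simp only [e1]
  have e2 : sv.flatMap Prod.snd = ((List.finRange sv.length).map sv.get).flatMap Prod.snd := by
    congr 1
    apply List.ext_getElem
    · simp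
    · intro i h1 h2
      simp
  rw [e2, List.flatMap_map]

theorem mem_tagged {sv : List (Src × List (ℝ × ℝ))} {y : Fin sv.length × (ℝ × ℝ)}
    (h : y ∈ tagged sv) : y.2 ∈ (sv.get y.1).2 := by
  unfold tagged at h
  rw [List.mem_flatMap] at h
  obtain ⟨t, _, hy⟩ := h
  rw [List.mem_map] at hy
  obtain ⟨x, hx, rfl⟩ := hy
  exact hx

theorem sum_get' {α : Type} (L : List α) (f : α → ℝ) :
    ∑ i : Fin L.length, f (L.get i) = (L.map f).sum := (sum_get L f).symm

/-- cost of the end piece of a served row -/
def cost (q : ℝ) (j : ℕ) (z : Src) (x : ℝ × ℝ) : ℝ :=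
  if 197 / 200 * z.pmax ≤ z.σ then pot (th q (j + 1)) (th q j) x
  else potC (th q (j + 1)) (th q j) x

/-- **The frame inequality.** -/
theorem frame_src {W H : ℝ} {q : ℝ} (hq : 0 < q) (Pl Fr : Finset ℕ) (F0 : List (ℝ × ℝ))
    (sv : List (Src × List (ℝ × ℝ)))
    (hsv : ∀ z ∈ sv, z.1.Ok Fr ∧ z.1.Rows z.2)
    (h : PT W H (sv.flatMap Prod.snd ++ F0) Pl) (hd : ∀ n ∈ Fr, n ∉ Pl)
    (hcap : ∀ n ∈ Fr, (sv.map (fun z => if n ∈ z.1.Q then z.1.u else 0)).sum ≤ 1)
    {s0 : ℝ} (hs0 : 0 < s0) (hs : ∀ n ∈ Fr, sd n ≤ s0)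
    {σm : ℝ} (hσm : 0 < σm) (hσ : ∀ z ∈ sv, σm ≤ z.1.σ)
    {k0 k1 : ℕ} (hk0 : 4000 ≤ k0) (hk : k0 ≤ k1)
    (hk1 : ∀ z ∈ sv, th q k1 ≤ z.1.pmin ∧ z.1.pmax ≤ th q k0)
    {β : Type} [Fintype β] (bl : ℕ → β) :
    ∃ (C : List (ℕ × ℝ)) (D : List (ℝ × ℝ)),
      PT W H (C.map (fun z => (z.2 - sd z.1, sd z.1)) ++ (D ++ F0))
        (Pl ∪ (C.map Prod.fst).toFinset) ∧
      (C.map Prod.fst).Nodup ∧
      (∀ c ∈ C, ∃ z ∈ sv, c.1 ∈ z.1.Q ∧ z.1.pmin < c.2 ∧ c.2 ≤ z.1.pmax) ∧
      (∀ d ∈ D, ∃ z ∈ sv, ∃ p, z.1.pmin < p ∧ p ≤ z.1.pmax ∧ p / 25 ≤ d.1 ∧ d.1 ≤ 4 / 5 * p ∧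
        p ≤ d.2 ∧ d.2 ≤ 6 / 5 * p) ∧
      (∀ j, k1 ≤ j → P q j (C.map (fun z => (z.2 - sd z.1, sd z.1)) ++ D) ≤
        (sv.map (fun z => (z.2.map (cost q j z.1)).sum)).sum +
        16 * q / (k0 : ℝ) ^ 2 + (sv.map (fun z => z.1.D q j σm + z.1.B q j)).sum +
        (if ∃ z ∈ sv, z.1.reach q j then KE q j s0 σm else 0)) ∧
      (∀ b, ∑ n ∈ Fr.filter (fun n => bl n = b),
          (1 - (sv.map (fun z => if n ∈ z.1.Q then z.1.u else 0)).sum) - 2 ≤
        ((Fr.filter (fun n => n ∉ (C.map Prod.fst) ∧ bl n = b)).card : ℝ)) := by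
  obtain ⟨L, hL⟩ : ∃ L, L = tagged sv := ⟨_, rfl⟩
  -- source of row i
  let so : Fin L.length → Src := fun i => (sv.get (L.get i).1).1
  have hso : ∀ i, so i = (sv.get (L.get i).1).1 := fun i => rfl
  have hmem : ∀ i : Fin L.length, (sv.get (L.get i).1) ∈ sv ∧
      (L.get i).2 ∈ (sv.get (L.get i).1).2 := by
    intro i
    refine ⟨List.get_mem _ _, ?_⟩
    apply mem_tagged
    rw [← hL]
    exact List.get_mem _ _
  have hOk : ∀ i : Fin L.length, (so i).Ok Fr := fun i => (hsv _ (hmem i).1).1
  have hRow : ∀ i : Fin L.length, (so i).pmin < (L.get i).2.1 ∧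
      (L.get i).2.1 ≤ (so i).pmax ∧ 6 / 5 * (L.get i).2.1 ≤ (L.get i).2.2 :=
    fun i => (hsv _ (hmem i).1).2.1 _ (hmem i).2
  -- sums over the rows
  have hsumL : ∀ f : Src → ℝ × ℝ → ℝ, ∑ i : Fin L.length, f (so i) (L.get i).2 =
      (sv.map (fun z => (z.2.map (f z.1)).sum)).sum := by
    intro f
    have e : ∑ i : Fin L.length, f (so i) (L.get i).2 = ∑ i : Fin L.length,
        (fun y : Fin sv.length × (ℝ × ℝ) => f (sv.get y.1).1 y.2) (L.get i) := rfl
    rw [e, sum_get' L (fun y : Fin sv.length × (ℝ × ℝ) => f (sv.get y.1).1 y.2), hL, tagged_sum]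
    exact sum_get' sv (fun z => (z.2.map (f z.1)).sum)
  have hxf : ∀ n, ∑ i : Fin L.length, xf (fun i => (L.get i).2) (fun i => (so i).Q)
      (fun i => (so i).σ) n i ≤ (sv.map (fun z => if n ∈ z.1.Q then z.1.u else 0)).sum := by
    intro n
    have e : ∑ i : Fin L.length, xf (fun i => (L.get i).2) (fun i => (so i).Q)
      (fun i => (so i).σ) n i = ∑ i : Fin L.length,
        (fun (z : Src) (x : ℝ × ℝ) => if n ∈ z.Q then XX x z.σ / z.Q.card else 0)
          (so i) (L.get i).2 := by
      apply Finset.sum_congr rfl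
      intro i _
      unfold xf
      rfl
    rw [e, hsumL (fun (z : Src) (x : ℝ × ℝ) => if n ∈ z.Q then XX x z.σ / z.Q.card else 0)]
    apply List.sum_le_sum
    intro z hz
    obtain ⟨h1, h2⟩ := hsv z hz
    by_cases hn : n ∈ z.1.Q
    · simp only [hn, if_true]
      have h3 := sum_XX_le h1 h2 (fun _ => 1) zero_le_one (fun _ _ => le_rfl)
        (fun _ _ => zero_le_one)
      simpa using h3
    · simp [hn]
  have hfr : (List.finRange L.length).map (fun i => (L.get i).2) = sv.flatMap Prod.snd := by
    rw [← tagged_snd, ← hL]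
    apply List.ext_getElem
    · simp
    · intro i h1 h2
      simp
  have hw0 : ∀ z ∈ sv, 0 < z.1.pmax - z.1.σ := by
    intro z hz
    have h1 := (hsv z hz).1
    obtain ⟨n, hn⟩ := h1.ne
    have h2 := h1.Qs n hn
    have h3 := h1.Sp
    have h4 := h1.pp
    linarith
  obtain ⟨C, E, c1, c2, c3, c5, c6, c7, c8⟩ := frame_rows (W := W) (H := H)
    (fun i => (L.get i).2) F0 Pl Fr (fun i => (so i).Q) (fun i => (so i).σ)
    (by rw [hfr]; exact h) hd (fun i => (hOk i).sub) (fun i => (hOk i).ne) (fun i => (hOk i).σ0)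
    (fun i n hn => ⟨((hOk i).Qs n hn).1, by
      have h1 := ((hOk i).Qs n hn).2
      have h2 := (hOk i).Sp
      have h3 := (hRow i).1
      linarith⟩)
    (fun i => (hRow i).2.2)
    (fun n hn => (hxf n).trans (hcap n hn)) hq hs0 hs (τ := Fin sv.length)
    (fun i => (L.get i).1) (fun t => (sv.get t).1.pmax - (sv.get t).1.σ)
    (fun t => hw0 _ (List.get_mem _ _))
    (by
      intro i n hn
      have h2 := (hRow i).2.1
      have h3 := ((hOk i).Qs n hn).1
      have h4 := hso i
      rw [← h4]
      linarith) bl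
  have hEok : ∀ x ∈ (List.finRange L.length).map E, x.Ok ∧ ∃ z ∈ sv, z.1.pmin < x.t ∧
      x.t ≤ z.1.pmax := by
    intro x hx
    obtain ⟨i, _, rfl⟩ := List.mem_map.1 hx
    refine ⟨(c5 i).ok, _, (hmem i).1, ?_⟩
    rw [(c5 i).t]
    exact ⟨(hRow i).1, (hRow i).2.1⟩
  have ht0 : ∀ z ∈ sv, 0 < z.1.pmin := by
    intro z hz
    have h1 := (hsv z hz).1
    obtain ⟨n, hn⟩ := h1.ne
    have h2 := h1.Qs n hn
    have h3 := h1.Sp
    have h4 := h1.σ0
    linarith
  obtain ⟨φ, f1, f2, f3⟩ := cut_all q hq k0 k1 hk0 hk ((List.finRange L.length).map E) (by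
    intro x hx
    obtain ⟨h1, z, hz, h2, h3⟩ := hEok x hx
    have := hk1 z hz
    have := ht0 z hz
    exact ⟨h1, by linarith, by linarith⟩)
  obtain ⟨D, hD⟩ : ∃ D, D = (((List.finRange L.length).map E).zip φ).flatMap
    (fun z => z.1.strips z.2) := ⟨_, rfl⟩
  -- the list of the children
  obtain ⟨C', hC'⟩ : ∃ C' : List (ℕ × ℝ), C' = C.map (fun z => (z.1, (L.get z.2).2.1)) := ⟨_, rfl⟩
  have hC1 : C'.map (fun z => (z.2 - sd z.1, sd z.1)) =
      C.map (fun z => ((L.get z.2).2.1 - sd z.1, sd z.1)) := by
    rw [hC', List.map_map]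
    rfl
  have hC2 : C'.map Prod.fst = C.map Prod.fst := by
    rw [hC', List.map_map]
    rfl
  have hPT : PT W H (C'.map (fun z => (z.2 - sd z.1, sd z.1)) ++ (D ++ F0))
      (Pl ∪ (C'.map Prod.fst).toFinset) := by
    rw [hC1, hC2]
    have h1 : PT W H (((List.finRange L.length).map E).map (fun x => (x.a, x.b)) ++
        (C.map (fun z => ((L.get z.2).2.1 - sd z.1, sd z.1)) ++ F0))
        (Pl ∪ (C.map Prod.fst).toFinset) := by
      refine c1.perm ?_
      rw [← List.append_assoc, ← List.append_assoc]
      exact List.Perm.append_right _ List.perm_append_comm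
    have h2 := PT.cut_eps _ φ h1 f1 (fun y hy => ⟨by linarith [(f2 y hy).1], by
      linarith [(f2 y hy).2]⟩) (by
        intro x hx
        obtain ⟨⟨h3, _⟩, z, hz, h4, h5⟩ := hEok x hx
        have := ht0 z hz
        linarith)
    rw [hD]
    refine h2.perm ?_
    rw [← List.append_assoc, ← List.append_assoc]
    exact List.Perm.append_right _ List.perm_append_comm
  have hCm : ∀ c ∈ C, c.1 ∈ (so c.2).Q ∧ (so c.2).pmin < (L.get c.2).2.1 ∧
      (L.get c.2).2.1 ≤ (so c.2).pmax := fun c hc => ⟨c3 c hc, (hRow c.2).1, (hRow c.2).2.1⟩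
  refine ⟨C', D, hPT, by rw [hC2]; exact c2, ?_, ?_, ?_, ?_⟩
  · intro c hc
    rw [hC'] at hc
    obtain ⟨z, hz, rfl⟩ := List.mem_map.1 hc
    exact ⟨_, (hmem z.2).1, hCm z hz⟩
  · intro d hd'
    rw [hD, List.mem_flatMap] at hd'
    obtain ⟨⟨x, y⟩, hxy, hd2⟩ := hd'
    have hx := (List.of_mem_zip hxy).1
    have hy' := (List.of_mem_zip hxy).2
    obtain ⟨⟨g1, g2, g3, g4⟩, z, hz, h4, h5⟩ := hEok x hx
    obtain ⟨g5, g6⟩ := f2 y hy'
    have g7 := ht0 z hz
    refine ⟨z, hz, x.t, h4, h5, ?_⟩
    simp only [EP.strips, List.mem_cons, List.not_mem_nil, or_false] at hd2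
    have ha : 0 < x.a := by linarith
    rcases hd2 with rfl | rfl
    · refine ⟨?_, ?_, g3, g4⟩
      · simp only
        nlinarith
      · simp only
        nlinarith
    · refine ⟨?_, ?_, g3, g4⟩
      · simp only
        nlinarith
      · simp only
        nlinarith
  · intro j hj
    have hj1 : 1 ≤ j := by omega
    have hθ : th q (j + 1) < th q j := th_lt hq hj1 (Nat.lt_succ_self j)
    have hθ' : 0 < th q (j + 1) := th_pos hq (Nat.succ_pos j)
    rw [P_append, hC1]
    have g1 : P q j D ≤ (sv.map (fun z => (z.2.map (cost q j z.1)).sum)).sum +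
        16 * q / (k0 : ℝ) ^ 2 := by
      have h1 := f3 j hj
      rw [← hD] at h1
      refine h1.trans (add_le_add_left ?_ _)
      have e1 : (((List.finRange L.length).map E).map (rel (th q (j + 1)))).sum =
          ∑ i : Fin L.length, rel (th q (j + 1)) (E i) := by
        rw [List.map_map, ← List.ofFn_eq_map, List.sum_ofFn]
        rfl
      have e2 : ∑ i : Fin L.length, rel (th q (j + 1)) (E i) ≤
          ∑ i : Fin L.length, (fun (z : Src) (x : ℝ × ℝ) => cost q j z x) (so i) (L.get i).2 := by
        apply Finset.sum_le_sum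
        intro i _
        have hk1' : th q k1 ≤ (so i).pmin := (hk1 _ (hmem i).1).1
        have hr := hRow i
        have hthj : th q j ≤ th q k1 := th_anti hq (by omega) hj
        have hp : th q j < (L.get i).2.1 := by linarith
        have hok' := hOk i
        unfold cost
        dsimp only
        split_ifs with hc
        · have h2 := (c5 i).w (by
            intro n hn
            have h3 := (hok'.Qs n hn).1
            linarith) (th q (j + 1)) hθ'.le
          refine h2.trans (le_of_eq ?_)
          unfold pot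
          rw [if_neg (not_le.2 (lt_trans hθ hp)), if_neg (not_le.2 hp)]
        · have h2 : rel (th q (j + 1)) (E i) ≤ fch (th q (j + 1)) (E i).t := rel_le hθ'.le
          rw [(c5 i).t] at h2
          refine h2.trans (le_of_eq ?_)
          unfold potC
          rw [if_neg (not_le.2 hp)]
      rw [e1]
      refine e2.trans (le_of_eq ?_)
      rw [hsumL (fun (z : Src) (x : ℝ × ℝ) => cost q j z x)]
    have hK : 0 ≤ (1 + 4 / 5 * (th q j / σm)) * (th q (j + 1) / (th q j - th q (j + 1))) := by
      have h1 : 0 < th q j / σm := div_pos (hθ'.trans hθ) hσm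
      have h2 : 0 < th q (j + 1) / (th q j - th q (j + 1)) := div_pos hθ' (by linarith)
      positivity
    have hy0 : ∀ c ∈ C, sd c.1 < (L.get c.2).2.1 := by
      intro c hc
      obtain ⟨h1, h2, h3⟩ := hCm c hc
      have h5 := (hOk c.2).Qs _ h1
      have h6 := (hOk c.2).Sp
      linarith
    have g2 : P q j (C.map (fun z => ((L.get z.2).2.1 - sd z.1, sd z.1))) ≤
        (C.map (fun z => if th q (j + 1) < (L.get z.2).2.1 - sd z.1 then
          chC * ((L.get z.2).2.1 - sd z.1) else 0)).sum +
        ((C.filter (fun z => decide (InWin q j ((L.get z.2).2.1 - sd z.1)))).map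
          (fun z => sd z.1)).sum *
          ((1 + 4 / 5 * (th q j / σm)) * (th q (j + 1) / (th q j - th q (j + 1)))) := by
      unfold P
      rw [List.map_map, ← List.sum_map_mul_right, ← sum_map_ite, ← List.sum_map_add]
      apply List.sum_le_sum
      intro c hc
      obtain ⟨h1, h2, h3⟩ := hCm c hc
      have h5 := (hOk c.2).Qs _ h1
      have h7 := hσ _ (hmem c.2).1
      have h7' : σm ≤ (so c.2).σ := h7
      have h8 := pot_child (θ' := th q (j + 1)) (θ := th q j) (σm := σm)
        (y := (L.get c.2).2.1 - sd c.1)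
        (s := sd c.1) hθ' hθ hσm (by linarith) (by linarith [hy0 c hc])
      simp only [Function.comp]
      refine h8.trans (le_of_eq ?_)
      by_cases hw : InWin q j ((L.get c.2).2.1 - sd c.1)
      · rw [if_pos hw, if_pos (show th q (j + 1) < (L.get c.2).2.1 - sd c.1 ∧
          (L.get c.2).2.1 - sd c.1 ≤ th q j from hw)]
      · rw [if_neg hw, if_neg (show ¬ (th q (j + 1) < (L.get c.2).2.1 - sd c.1 ∧
          (L.get c.2).2.1 - sd c.1 ≤ th q j) from hw)]
    -- births
    have g4 : (C.map (fun z => if th q (j + 1) < (L.get z.2).2.1 - sd z.1 then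
          chC * ((L.get z.2).2.1 - sd z.1) else 0)).sum ≤
        (sv.map (fun z => z.1.B q j)).sum := by
      have e1 : (C.map (fun z => if th q (j + 1) < (L.get z.2).2.1 - sd z.1 then
          chC * ((L.get z.2).2.1 - sd z.1) else 0)).sum ≤
          (C.map (fun z => ∑ t : Fin sv.length, (if (L.get z.2).1 = t then
            (if th q (j + 1) < (sv.get t).1.pmax - (sv.get t).1.σ then
              chC * ((L.get z.2).2.1 - sd z.1) else 0) else 0))).sum := by
        apply List.sum_le_sum
        intro c hc
        rw [Finset.sum_ite_eq Finset.univ (L.get c.2).1, if_pos (Finset.mem_univ _)]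
        obtain ⟨h1, h2, h3⟩ := hCm c hc
        have h5 := ((hOk c.2).Qs _ h1).1
        have h6 : 0 ≤ chC * ((L.get c.2).2.1 - sd c.1) := by
          have := hy0 c hc
          unfold chC
          nlinarith
        split_ifs with i1 i2
        · exact le_rfl
        · exfalso
          apply i2
          rw [← hso c.2]
          linarith
        · exact h6
        · exact le_rfl
      refine e1.trans ?_
      have e2 : (C.map (fun z => ∑ t : Fin sv.length, (if (L.get z.2).1 = t then
            (if th q (j + 1) < (sv.get t).1.pmax - (sv.get t).1.σ then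
              chC * ((L.get z.2).2.1 - sd z.1) else 0) else 0))).sum =
          ∑ t : Fin sv.length, (if th q (j + 1) < (sv.get t).1.pmax - (sv.get t).1.σ then
            chC * ((C.filter (fun z => decide ((L.get z.2).1 = t))).map
              (fun z => (L.get z.2).2.1 - sd z.1)).sum else 0) := by
        have hcomm : ∀ C0 : List (ℕ × Fin L.length),
          (C0.map (fun z => ∑ t : Fin sv.length, (if (L.get z.2).1 = t then
            (if th q (j + 1) < (sv.get t).1.pmax - (sv.get t).1.σ then
              chC * ((L.get z.2).2.1 - sd z.1) else 0) else 0))).sum =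
          ∑ t : Fin sv.length, (if th q (j + 1) < (sv.get t).1.pmax - (sv.get t).1.σ then
            chC * ((C0.filter (fun z => decide ((L.get z.2).1 = t))).map
              (fun z => (L.get z.2).2.1 - sd z.1)).sum else 0) := by
          intro C0
          induction C0 with
          | nil => simp
          | cons c C0 ih =>
            rw [List.map_cons, List.sum_cons, ih, ← Finset.sum_add_distrib]
            apply Finset.sum_congr rfl
            intro t _
            rw [List.filter_cons]
            by_cases h1 : (L.get c.2).1 = t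
            · by_cases h2 : th q (j + 1) < (sv.get t).1.pmax - (sv.get t).1.σ
              · rw [if_pos h1, if_pos h2, if_pos h2, if_pos h2, if_pos (decide_eq_true h1),
                  List.map_cons, List.sum_cons]
                ring
              · rw [if_pos h1, if_neg h2, if_neg h2, if_neg h2, zero_add]
            · rw [if_neg h1, zero_add,
                if_neg (show ¬ (decide ((L.get c.2).1 = t) = true) by simpa using h1)]
        exact hcomm C
      rw [e2, ← sum_get' sv (fun z => z.1.B q j)]
      apply Finset.sum_le_sum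
      intro t _
      show _ ≤ (sv.get t).1.B q j
      unfold Src.B
      split_ifs with i1
      · apply mul_le_mul_of_nonneg_left _ (by unfold chC; norm_num)
        have h1 := c8 t
        have e3 : ∑ i : Fin L.length, (if (L.get i).1 = t then
            XX (L.get i).2 (so i).σ / (so i).Q.card *
              ∑ n ∈ (so i).Q, ((L.get i).2.1 - sd n) else 0) =
            ((sv.get t).2.map (fun x => XX x (sv.get t).1.σ / (sv.get t).1.Q.card *
              ∑ n ∈ (sv.get t).1.Q, (x.1 - sd n))).sum := by
          have e4 : ∑ i : Fin L.length, (if (L.get i).1 = t then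
              XX (L.get i).2 (so i).σ / (so i).Q.card *
              ∑ n ∈ (so i).Q, ((L.get i).2.1 - sd n) else 0) =
              ∑ i : Fin L.length, (fun y : Fin sv.length × (ℝ × ℝ) => if y.1 = t then
                XX y.2 (sv.get y.1).1.σ / (sv.get y.1).1.Q.card *
                  ∑ n ∈ (sv.get y.1).1.Q, (y.2.1 - sd n) else 0) (L.get i) := rfl
          rw [e4, sum_get' L (fun y : Fin sv.length × (ℝ × ℝ) => if y.1 = t then
                XX y.2 (sv.get y.1).1.σ / (sv.get y.1).1.Q.card *
                  ∑ n ∈ (sv.get y.1).1.Q, (y.2.1 - sd n) else 0), hL, tagged_sum]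
          rw [Finset.sum_eq_single t]
          · simp
          · intro t' _ ht'
            simp [ht']
          · intro h; exact absurd (Finset.mem_univ t) h
        have h2 := hsv _ (List.get_mem sv t)
        have h3 : ((sv.get t).2.map (fun x => XX x (sv.get t).1.σ / (sv.get t).1.Q.card *
              ∑ n ∈ (sv.get t).1.Q, (x.1 - sd n))).sum ≤ (sv.get t).1.T :=
          sum_XX_le h2.1 h2.2 (fun x => ∑ n ∈ (sv.get t).1.Q, (x.1 - sd n))
          (c := ∑ n ∈ (sv.get t).1.Q, ((sv.get t).1.pmax - sd n))
          (Finset.sum_nonneg (fun n hn => by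
            have h4 := (h2.1.Qs n hn).2
            linarith [h2.1.Sp, h2.1.pp]))
          (fun x hx => Finset.sum_le_sum (fun n hn => by linarith [(h2.2.1 x hx).2.1]))
          (fun x hx => Finset.sum_nonneg (fun n hn => by
            have h4 := (h2.1.Qs n hn).2
            linarith [h2.1.Sp, (h2.2.1 x hx).1]))
        refine le_trans (le_of_eq ?_) (h1.trans ?_)
        · congr 3
          funext z
          exact decide_eq_decide.2 Iff.rfl
        · refine add_le_add ?_ le_rfl
          refine le_trans (le_of_eq ?_) h3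
          rw [← e3]
          apply Finset.sum_congr rfl
          intro i _
          congr
      · exact le_rfl
    have g3 : ((C.filter (fun z => decide (InWin q j ((L.get z.2).2.1 - sd z.1)))).map
          (fun z => sd z.1)).sum *
          ((1 + 4 / 5 * (th q j / σm)) * (th q (j + 1) / (th q j - th q (j + 1)))) ≤
        (sv.map (fun z => z.1.D q j σm)).sum +
        (if ∃ z ∈ sv, z.1.reach q j then KE q j s0 σm else 0) := by
      have hDs : 0 ≤ (sv.map (fun z => z.1.D q j σm)).sum := by
        apply List.sum_nonneg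
        intro a ha
        obtain ⟨z, hz, rfl⟩ := List.mem_map.1 ha
        unfold Src.D
        split_ifs with hr
        · have h1 := (hsv z hz).1
          have h2 := Src.u_nonneg h1
          have h3 := h1.σ0
          obtain ⟨n, hn⟩ := h1.ne
          have h4 := h1.Qs n hn
          have h5 : 0 < z.1.S := by linarith
          have h6 : 0 < th q j / σm := div_pos (hθ'.trans hθ) hσm
          have h7 : 0 < th q (j + 1) / (th q j - th q (j + 1)) := div_pos hθ' (by linarith)
          positivity
        · exact le_rfl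
      by_cases hr : ∃ z ∈ sv, z.1.reach q j
      · rw [if_pos hr]
        have h1 := mul_le_mul_of_nonneg_right (c6 j) hK
        refine (le_of_eq ?_).trans (h1.trans ?_)
        · congr
        · rw [add_mul]
          apply add_le_add
          · have e' : ∑ i : Fin L.length, XX (L.get i).2 (so i).σ / (so i).Q.card *
                ∑ n ∈ (so i).Q.filter (fun n => InWin q j ((L.get i).2.1 - sd n)), sd n ≤
              (sv.map (fun z => if z.1.reach q j then z.1.u *
                ((th q j - th q (j + 1)) / z.1.σ + z.1.S) else 0)).sum := by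
              rw [hsumL (fun z x => XX x z.σ / z.Q.card *
                ∑ n ∈ z.Q.filter (fun n => InWin q j (x.1 - sd n)), sd n)]
              apply List.sum_le_sum
              intro z hz
              obtain ⟨h2, h3⟩ := hsv z hz
              obtain ⟨n, hn⟩ := h2.ne
              have h4 := h2.Qs n hn
              have h5 : 0 ≤ (th q j - th q (j + 1)) / z.1.σ := div_nonneg (by linarith) h2.σ0.le
              have h8 := sum_XX_le h2 h3 (fun x => ∑ n ∈ z.1.Q.filter
                (fun n => InWin q j (x.1 - sd n)), sd n)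
                (c := if z.1.reach q j then (th q j - th q (j + 1)) / z.1.σ + z.1.S else 0)
                (by split_ifs <;> linarith [h2.σ0])
                (fun x hx => sum_child hq hj1 h2 (h3.1 x hx).1 (h3.1 x hx).2.1)
                (fun x _ => Finset.sum_nonneg (fun n _ => (LibMoser5.Fill_sd_pos n).le))
              refine h8.trans (le_of_eq ?_)
              split_ifs
              · rfl
              · rw [mul_zero]
            refine (mul_le_mul_of_nonneg_right e' hK).trans (le_of_eq ?_)
            rw [← List.sum_map_mul_right]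
            congr 1
            apply List.map_congr_left
            intro z hz
            unfold Src.D
            split_ifs
            · have h9 : th q j - th q (j + 1) ≠ 0 := by linarith
              have h10 := ((hsv z hz).1).σ0.ne'
              field_simp
            · rw [zero_mul]
          · unfold KE
            apply le_of_eq
            ring
      · rw [if_neg hr, add_zero]
        have e : (C.filter (fun z => decide (InWin q j ((L.get z.2).2.1 - sd z.1)))) = [] := by
          rw [List.filter_eq_nil_iff]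
          intro c hc hcw
          obtain ⟨h1, h2, h3⟩ := hCm c hc
          have h5 := (hOk c.2).Qs _ h1
          have hw : InWin q j ((L.get c.2).2.1 - sd c.1) := by simpa using hcw
          exact hr ⟨_, (hmem c.2).1, by
            obtain ⟨w1, w2⟩ := hw
            have h6 := hso c.2
            unfold Src.reach
            rw [← h6]
            exact ⟨by linarith, by linarith⟩⟩
        rw [e]
        simpa using hDs
    rw [List.sum_map_add]
    linarith
  · intro b
    rw [hC2]
    refine le_trans ?_ (le_trans (c7 b) ?_)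
    · apply sub_le_sub_right
      apply Finset.sum_le_sum
      intro n hn
      have := hxf n
      linarith
    · apply le_of_eq
      congr

end

end Pool.Agent.LibMoserT
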