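import Pool.Agent.LibMoserT.Src
import Pool.Agent.LibMoserT.FatDefs
set_option autoImplicit false
/-!
# Numerical data of the tail and the ledger

`q = qn` (1 ≤ qn ≤ 8192), frames `fl l0 g` (`8192 ≤ l0`, `32 ∣ l0`).
-/
namespace Pool.Agent.LibMoserT
open Pool.Agent.LibMoser5 Pool.Agent.LibMoserF Classical

noncomputable section

/-- labels of the frames -/
def fl (l0 : ℕ) : ℕ → ℕ
  | 0 => l0
  | g + 1 => fl l0 g + 32 * (fl l0 g / 1024)

/-- lower block of the pool of the rows of window `k` of class R -/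
def kpR (k : ℕ) : ℕ := 16 * ((k + 20) / 16)

/-- source of the rows of class R of window `k`, `A` = bound for the potential of the window -/
def srcR (q A : ℝ) (k : ℕ) : Src where
  M := A * om q k
  pmin := th q (k + 1)
  pmax := th q k
  σ := th q (kpR k + 16)
  S := th q (kpR k)
  Q := pool q (kpR k) (kpR k + 16)

/-- lower block of the pool of the group `i` (unit `u`) -/
def kG (u i : ℕ) : ℕ := 32 * (u * i / 32)

/-- source of the `i`-th group of class G with unit `u ∣ 32`: rows of the windows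
`u i - 36 ≤ k < u (i + 1) - 36`, pool = the 32 blocks `kG u i ≤ · < kG u i + 32` -/
def srcG (q M : ℝ) (u i : ℕ) : Src where
  M := M
  pmin := th q (u * (i + 1) - 36)
  pmax := th q (u * i - 36)
  σ := th q (kG u i + 32)
  S := th q (kG u i)
  Q := pool q (kG u i) (kG u i + 32)

/-- source of the rows of class J served in the frame `[l, l1)`; `lm` = label before -/
def srcJ (q M : ℝ) (lm l l1 : ℕ) : Src where
  M := M
  pmin := th q (l - 64)
  pmax := th q (lm - 64)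
  σ := th q l1
  S := th q l
  Q := pool q l l1

structure TD where
  qn : ℕ
  l0 : ℕ
  /-- first square of the tail -/
  N1 : ℕ
  /-- bounds of the potentials -/
  A : ℕ → ℝ
  /-- table of class O: number of cells; the rows of cell `c` have thickness in `(pmn c, pmx c]` and
  mass at most `MO c`; pools `Ico (qa c) (qb c)`; first cell of a frame -/
  nO : ℕ
  pmn : ℕ → ℝ
  pmx : ℕ → ℝ
  MO : ℕ → ℝ
  qa : ℕ → ℕ
  qb : ℕ → ℕ
  fc : ℕ → ℕ
  /-- class G: unit of the groups of frame `g`, mass of the group `i` of frame `g` -/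
  ug : ℕ → ℕ
  MG : ℕ → ℕ → ℝ
  /-- fat lane: number of rectangles, parameters of the frames -/
  NF : ℕ
  F : ℕ → FatP
  /-- mass of the initial J rows, bound for the mass of all J rows -/
  mJ0 : ℝ
  JT : ℝ
  /-- total thickness at the start -/
  Sp : ℝ
  k00 : ℕ

namespace TD
variable (D : TD)

def q : ℝ := D.qn

/-- smallest share of unused squares in frame `g` -/
def sm (g : ℕ) : ℝ := (D.F g).s

def fl (g : ℕ) : ℕ := LibMoserT.fl D.l0 g

/-- first square of frame `g` -/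
def bg (g : ℕ) : ℕ := if g = 0 then D.N1 else ix D.q (D.fl g)

/-- squares of frame `g` -/
def Frm (g : ℕ) : Finset ℕ := Finset.Ico (D.bg g) (D.bg (g + 1))

def srcO (c : ℕ) : Src where
  M := D.MO c
  pmin := D.pmn c
  pmax := D.pmx c
  σ := sd (D.qb c - 1)
  S := sd (D.qa c)
  Q := Finset.Ico (D.qa c) (D.qb c)

/-- windows (R), groups (G), cells (O) served in frame `g` -/
def wR (g : ℕ) : List ℕ := List.range' (D.fl g - 20) (D.fl (g + 1) - D.fl g)
def wG (g : ℕ) : List ℕ :=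
  List.range' (D.fl g / D.ug g) (D.fl (g + 1) / D.ug g - D.fl g / D.ug g)
def wO (g : ℕ) : List ℕ := List.range' (D.fc g) (D.fc (g + 1) - D.fc g)

def srcs1 (g : ℕ) : List Src :=
  if g = 0 then [] else (D.wR g).map (fun k => srcR D.q (D.A k) k) ++
    (D.wG g).map (fun i => srcG D.q (D.MG g i) (D.ug g) i)

/-- the sources of frame `g` (without J) -/
def srcs (g : ℕ) : List Src := D.srcs1 g ++ (D.wO g).map D.srcO

/-- load of the square `n` from the classes R, O, G in frame `g` -/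
def load (g n : ℕ) : ℝ := ((D.srcs g).map (fun z => if n ∈ z.Q then z.u else 0)).sum

/-- smallest side, largest side, child thickness, label for the cuts in frame `g` -/
def σm (g : ℕ) : ℝ := th D.q (D.fl (g + 1))
def s0 (g : ℕ) : ℝ := th D.q (D.fl g)
def y0 (g : ℕ) : ℝ := th D.q (D.fl (g + 1)) / 4
def k0 (g : ℕ) : ℕ := if g = 0 then D.k00 else D.fl (g - 1) - 64

/-- rounding error of frame `g` -/
def KEE (g j : ℕ) : ℝ :=
  if (∃ z ∈ D.srcs g, z.reach D.q j) ∨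
      (g ≠ 0 ∧ (srcJ D.q 0 (D.fl (g - 1)) (D.fl g) (D.fl (g + 1))).reach D.q j) then
    KE D.q j (D.s0 g) (D.σm g) else 0

/-- cost of the fat lane in frame `g` -/
def FAT (g : ℕ) : ℝ := chC * ((D.F g).tG + (D.F g).tJ) + 6 * (D.F g).mJ

/-- part of the increase which comes from serving rows -/
def inc1 (g j : ℕ) : ℝ :=
  ((D.srcs g).map (fun z => z.D D.q j (D.σm g) + z.B D.q j)).sum + D.KEE g j +
    16 * D.q / (D.k0 g : ℝ) ^ 2 + 43 * chC * D.y0 g

/-- increase of the potential of window `j` in frame `g` -/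
def inc (g j : ℕ) : ℝ := D.inc1 g j + D.FAT g

def Phi0 : ℝ := chC * D.Sp + 6 * D.mJ0

/-- the ledger -/
structure Ledger : Prop where
  led : ∀ g j, 1 ≤ g → D.fl g - 20 ≤ j → j < D.fl (g + 1) - 20 →
    D.Phi0 + ∑ g' ∈ Finset.range g, D.inc g' j ≤ D.A j
  cap : ∀ g, ∀ n ∈ D.Frm g, D.load g n + 13 * D.JT ≤ 1 - D.sm g
  JT : ∀ g, D.mJ0 + ∑ g' ∈ Finset.range g, (D.F g').mJ ≤ D.JT
  MG : ∀ g i, 1 ≤ g → D.fl g / D.ug g ≤ i → i < D.fl (g + 1) / D.ug g →
    ∑ h ∈ Finset.range g, (D.F h).NG (th D.q (D.ug g * (i + 1) - 36)) (th D.q (D.ug g * i - 36)) ≤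
      D.MG g i

/-- elementary conditions -/
structure Ok1 : Prop where
  q1 : 1 ≤ D.qn
  q2 : D.qn ≤ 8192
  l1 : 8192 ≤ D.l0
  l2 : 32 ∣ D.l0
  n1 : ix D.q D.l0 ≤ D.N1
  n2 : (D.N1 : ℝ) + (D.F 0).w ≤ ix D.q (D.fl 1)
  A0 : ∀ k, 0 ≤ D.A k
  MG0 : ∀ g i, 0 ≤ D.MG g i
  ug : ∀ g, D.ug g ∣ 32
  fc0 : D.fc 0 = 0
  fcm : ∀ g, D.fc g ≤ D.fc (g + 1)
  fcn : ∀ g, D.fc g ≤ D.nO
  fce : ∃ g, D.fc g = D.nO
  oOk : ∀ g c, D.fc g ≤ c → c < D.fc (g + 1) → (D.srcO c).Ok (D.Frm g)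
  /-- served O rows are thicker than the windows of the next frame -/
  oth : ∀ g c, D.fc g ≤ c → c < D.fc (g + 1) → th D.q (D.fl (g + 1) - 20) ≤ D.pmn c
  /-- `O` rows are at most slightly thicker than the squares -/
  ork : ∀ c, c < D.nO → D.pmx c ≤ (1 + 1 / 36) * sd (D.qb c - 1)
  ok0 : ∀ c, c < D.fc 1 → D.pmx c ≤ th D.q D.k00
  k0a : 4000 ≤ D.k00
  k0b : D.k00 ≤ D.l0
  /-- fat lane -/
  Fok : ∀ g, (D.F g).Ok
  Fq : ∀ g, (D.F g).qn = D.qn
  FN : ∀ g, (D.F g).NF = D.NF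
  Fl : ∀ g, (D.F g).l = D.fl g
  Fl1 : ∀ g, (D.F g).l1 = D.fl (g + 1)
  Fs : ∀ g, (D.F (g + 1)).s ≤ (D.F g).s
  Fs1 : ∀ g, (D.F g).s ≤ 1
  Ft : ∀ g, (D.F g).thr ≤ (D.F (g + 1)).thr
  Fx : ∀ g, (D.F g).x ≤ (D.F (g + 1)).x
  Fy : ∀ g, (D.F g).y ≤ th D.q (D.fl (g + 1) - 36)
  mJ00 : 0 ≤ D.mJ0

end TD

end

end Pool.Agent.LibMoserT
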