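import Pool.Agent.LibMoserT.LedFinD
set_option autoImplicit false
/-!
# From the kernel evaluations to `LTab.Chk` (helper68)
-/
namespace Pool.Agent.LibMoserT

theorem LTab.chk_of {L : LTab} {T : OTab} {Z : ℕ}
    (r : allF (fun g => rCheck fT L.a (L.r g) g) 10 1 565 = true)
    (b : allF (fun g => L.okB g) 10 1 565 = true)
    (h : allF (fun g => L.okH T g) 10 1 565 = true)
    (l : allF (fun g => L.okL T Z g) 10 1 565 = true)
    (c : allF (fun g => L.okC T g) 10 1 565 = true)
    (e : L.okE T Z = true) : L.Chk T Z := by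
  have key : ∀ (p : ℕ → Bool), allF p 10 1 565 = true → ∀ g, 1 ≤ g → g < G1 → p g = true := by
    intro p hp g h1 h2
    unfold G1 at h2
    exact allF_spec p 10 1 565 (by norm_num) hp g h1 (by omega)
  exact ⟨key _ r, key _ b, key _ h, key _ l, key _ c, e⟩

end Pool.Agent.LibMoserT
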