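import Pool.Agent.LibMoserT.LedRc
set_option autoImplicit false
/-!
# Class R in the ledger: the zone bound as a kernel computation
-/
namespace Pool.Agent.LibMoserT
open Pool.Agent.LibMoser5 Pool.Agent.LibMoserF

/-- evaluate `n` before `f` -/
def frc {α : Type} (n : ℕ) (f : ℕ → α) : α :=
  Nat.rec (motive := fun _ => α) (f 0) (fun m _ => f (Nat.succ m)) n

theorem frc_eq {α : Type} (n : ℕ) (f : ℕ → α) : frc n f = f n := by
  cases n <;> rfl

/-- clamp of natural numbers -/
def clN (v u x : ℕ) : ℕ :=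
  bif Nat.ble x v then (bif Nat.ble v u then v else u) else (bif Nat.ble x u then x else u)

/-- maximum of `f i`, `a ≤ i < a + n`, `n ≤ 2 ^ k` -/
def maxF (f : ℕ → ℕ) (k : ℕ) : ℕ → ℕ → ℕ :=
  Nat.rec (motive := fun _ => ℕ → ℕ → ℕ) (fun a n => bif Nat.beq n 0 then 0 else f a)
    (fun _ ih a n => frc (ih a (n / 2)) fun x => frc (ih (a + n / 2) (n - n / 2)) fun y =>
      bif Nat.ble x y then y else x) k

theorem maxF_zero (f : ℕ → ℕ) (a n : ℕ) : maxF f 0 a n = bif Nat.beq n 0 then 0 else f a := rfl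

theorem maxF_succ (f : ℕ → ℕ) (k a n : ℕ) :
    maxF f (k + 1) a n = bif Nat.ble (maxF f k a (n / 2)) (maxF f k (a + n / 2) (n - n / 2)) then
      maxF f k (a + n / 2) (n - n / 2) else maxF f k a (n / 2) := by
  show frc (maxF f k a (n / 2)) (fun x => frc (maxF f k (a + n / 2) (n - n / 2)) fun y =>
      bif Nat.ble x y then y else x) = _
  rw [frc_eq, frc_eq]

theorem maxF_le (f : ℕ → ℕ) (k : ℕ) : ∀ a n, n ≤ 2 ^ k → ∀ i, a ≤ i → i < a + n →
    f i ≤ maxF f k a n := by
  induction k with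
  | zero =>
    intro a n hn i hi1 hi2
    rw [maxF_zero]
    have h' : n = 0 ∨ n = 1 := by
      rw [pow_zero] at hn
      omega
    rcases h' with rfl | rfl
    · omega
    · have : i = a := by omega
      subst this
      exact le_refl _
  | succ k ih =>
    intro a n hn i hi1 hi2
    have h1 : n / 2 ≤ 2 ^ k := by
      rw [pow_succ] at hn
      omega
    have h2 : n - n / 2 ≤ 2 ^ k := by
      rw [pow_succ] at hn
      omega
    rw [maxF_succ]
    by_cases h3 : i < a + n / 2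
    · have h4 := ih a _ h1 i hi1 h3
      cases h5 : Nat.ble (maxF f k a (n / 2)) (maxF f k (a + n / 2) (n - n / 2)) with
      | true =>
        rw [cond_true]
        exact h4.trans (Nat.le_of_ble_eq_true h5)
      | false =>
        rw [cond_false]
        exact h4
    · have h4 := ih (a + n / 2) _ h2 i (by omega) (by omega)
      cases h5 : Nat.ble (maxF f k a (n / 2)) (maxF f k (a + n / 2) (n - n / 2)) with
      | true =>
        rw [cond_true]
        exact h4
      | false =>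
        rw [cond_false]
        have h6 : ¬ maxF f k a (n / 2) ≤ maxF f k (a + n / 2) (n - n / 2) := by
          intro h
          have := Nat.ble_eq_true_of_le h
          rw [h5] at this
          exact Bool.noConfusion this
        omega

/-- `HH` from above, unit `2 ^ 20` -/
def hhU (hU x : ℕ) : ℕ := sumF (fun i => clN (3145728 * (i + 4)) (3 * (i + 21) * hU) x) 4 0 16

/-- `HH` from below, unit `2 ^ 20` -/
def hhL (nL x : ℕ) : ℕ := sumF (fun i => clN (3 * (i + 4) * nL) (3145728 * (i + 21)) x) 4 0 16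

/-- positive and negative Abel terms -/
def posT (fT aT : ℕ → ℕ) (J0 hU f : ℕ) : ℕ :=
  bif Nat.ble (aT f) (aT (f - 1)) then
    (aT (f - 1) - aT f) * frc ((fT f + 8) ^ 4 * 1048576 / J0 + 1) fun x => hhU hU x else 0

def negT (fT aT : ℕ → ℕ) (J1 nL f : ℕ) : ℕ :=
  bif Nat.ble (aT f) (aT (f - 1)) then 0 else
    (aT f - aT (f - 1)) * frc ((fT f + 8) ^ 4 * 1048576 / J1) fun x => hhL nL x

/-- kernel-checkable zone bound -/
def rCore (fT aT : ℕ → ℕ) (rT g j0 j1 X s n : ℕ) : Bool :=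
  frc ((j0 + 1) ^ 3) fun J0 => frc ((j1 + 1) ^ 3) fun J1 =>
  frc (1048576 + 188743680 / X + 1) fun hU => frc (1048576 - 3145728 / (j0 + 1) - 1) fun nL =>
  frc (fT s) fun Y => frc (fT (s + n + 1)) fun Z => frc (maxF aT 5 s (n + 1)) fun M =>
  frc (aT (s + n) * (1368 * hU) + sumF (posT fT aT J0 hU) 5 (s + 1) n) fun P =>
  frc (aT s * (552 * nL) + sumF (negT fT aT J1 nL) 5 (s + 1) n) fun Q =>
    Nat.ble (X ^ 4) (63 * j0 ^ 3) && (Nat.ble 5000 X && (Nat.ble (s + n + 1) g && (Nat.ble n 31 &&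
    ((Nat.beq s 0 || Nat.ble ((Y + 8) ^ 4) (12 * ((j0 - 2) * (j0 + 1) ^ 2))) &&
    (Nat.ble (108 * ((X + 180) * J1)) (X * (Z + 8) ^ 4) &&
    (Nat.ble (108 * J1) ((Z - 20) ^ 4) &&
    Nat.ble (((P - Q) * (96 * (Y - 16) ^ 2) + 2199023255552 * (j1 * M)) * ((Y + 54) * (Y + 100)))
      (rT * (1073741824 * (96 * (Y - 16) ^ 2 * Y ^ 2)))))))))

/-- hints -/
def rX : ℕ := 0x1fd377863e332c6e798fca28ed939dd9d05019538b708e46ed794d6d8a06a51a75e69db3b6b74065115cf8c58627018209066af274c505c27cbb6b41b1f815ffe6d62afed36354076bf8a4394cdd40f44d0273438844c9e7fde95be02a124a6e16a3bf34ae45dcda108889a30d0ad8606a0983bb83fb3ba647c7f5a18f35072b1db86bda3a15adae7184de8cdddbb8e1b197ea834f6706467823890ca4b5b398b5bb60304ad3d45e618d64b874a381687ea672c08a5be560eef9ca8309fb148b49eb28269a0c4e7833ac995bccf12bb837d249c368e478cc8388bd5c9f9114a29c2161c070413d91e47f8110a0f930c0c1e702b5e3b7cca5c7442b518e3375fd1bc10a22363de2406a022b68cf2e0da194e8096317565c060a911a0bce90bf171336e22d18e3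905822ff30ac4077e150a4dca291ed620505d58309d0ff30132f540c257e8ed4494724d88f36540117e3cb22230231042d0ec6082955e00ff356361f2c5af03cec934877117ee0e8b42741c6ca17c378d3c986c9192d0d42ef4c19eaf65832a72da062fead90c178ff217a1e09c2e2fb4905a43e860b0696d2158c62f42a1d10f8524e3430a0daff413a5f0a426665e884b0c307092abbf211ea63b0230381b8446e04b085bcb541055f3b41fed16003e653e2079f1a4c0ee52dc01d1c5dc038e4b0506f30ce80d94ecb41a8b337033e058106562b860c6252781833fc682f4d41705c71faa0b4ac1ac16119c682b216fb0544b1040a4bd7f4141f6aa02753c7804cdc2d4096368d01259276023dbfb404615172088f78c410baf2f020b278c03fe702007ce39240f4145081dd058903a446fc071e04080de8e5181b2f4f603521130067d58bc0caee34818c99fa03071b4005ead8780b909208169a0da02c2c1860565436c0a8b8050149bd3c02846ec804eb75f0099d742012ca980024b9af6047c661c08c465c8112262c0217ca020417217407fe7b600f9f95d01e88ac603bacae4074a04d80e3ee4c01bd7622036698d406a578300cfd4d901962e040319d370060f6e300bd812201725cac02d3d32405869f480accb260151b3e40293f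f140509e0c009d8e670133ec640259cbec0498224808fa9a20118c5260224ba9c04306b88082fe82010002e001f4574803d1da10077715e00e96f8601c83848037b9f7806ce8fe00d4d9ce019ffd50032cff700634e6400c214ca017b4e8402e54e5805a8c9800b0f77c0159dbd402a3efb0052907c00a15c88013b5c34026854b004b48a1009321de011f8d180231fb50044a5220086286c010631c402006cd803e9780007a53e000ef12d401d33d100391285006f8a6000d9fdd801aa09580340a230065b46600c6c4cc018477c802f735e005cbc7800b53db00162364802b443100548efe00a542400142fa200277379004d1a200096afa001267f18023f8e300464d96008965f4010c86f8020ccd500401a86007d484400f4d91801de862003a736c00723c1800df41d001b453c00354bec0068294c00cb91e0018dd9e003098c8005ef9e800b99e68016ac4b002c4fbe005699e400a94030014ac7600286770004ef6ec009a5378012d9c40024d75800480058008cb7a8011303a002197ae0041a6fc00804f1800fac36001ea15a003bdcec0074fe9800e4a6a001bede600369590006aad8800d07d00019776c0031c5600061456000be1a90017388a002d61d80058b19000ad57200152c58002961600050df68009e0e200134e600025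bb400049bdc000901e300119a900022678400433d28008369000100d30001f5ee0003d4f580077d28000ea2d8001c9ab80037e758006d41a000d5872001a15040032f96000639f5000c2b300017c83c002e7ab0005ad68000b18820015af6c002a61900052d42000a1e0c0013c5ec0026a4e0004b867000939ac0012079400233c900044dd90008696c0010709800202130003ecb20007ab8e000efd88001d4bf8003941d0006fe6c000dab2c001ab6b0003435600066090000c76a400185bc0002f9af0005d09e000b5d50001635e8002b68700054d5e000a5cd000144098002794b0004d5b4000972ec0012778000241750004689200089dac0010d6b80020e8c000405160007db38000f5ab0001e0220003aa5e000729ec000e0038001b5cf000357a40006883c000cc4300018f3500030c340005f4d4000ba4180016c050002c77000056e6c000a9d700014bf0000288ba0004f3dc0009ade00012eac00024f8a000484180008d37800113ff00021b6800041e3400080c58000fbad0001ebe20003c154000756c8000e57f0001c08800036c980006b138000d1450001990200031f5c00061a38000bed4000174f20002d8e000059090000ae030001541a000298b4000513200009eb20001362800025e2c0004a0b800090b700011ad8000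228c80004386000083f8000101f00001f81c0003d94000078590000eb380001cbc0000382900006dc40000d6880001a3480003337000064190000c3a600017e640002eb580005b490000b26800015cb00002a980000533f0000a2b600013e0400026d900004bed000094660001220c000236e000045400000875600010888000205100003f2a00007b740000f14c0001d7a8000399f0000709e0000dc200001ae38000348f000066b80000c8d0000188880002ff500005dbc0000b738000166200002bc1000055880000a738000146d800027ee00004e100000989400012a5000024710000473e00008b440001102800021420000410200007f100000f8780001e5d00003b5e000074100000e2e80001bba000000000000000000000000000000000000000000000000000000000000000000000000000000000000000000000000000000000000000000000000000000000000000000000000000000000000000000000000000000000000000000000000000000000000000000000000000000000000000000000000000000000000000000000000000000000000000000000000000000000000000000000000000000000000000000000000000000000000000000000000000000000000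
def rS : ℕ := 0x5cd725c5705c16f5b96d5b56c5ad6a5a9695a16759d665956459163589615856057d5e5795d5715b56d5a5655856157559555555454d52549515414f53d4e5354c5314b529495254851d46519455114350d42505405013f4f93d4f53c4ed3a4e9394e1374dd364d5344d1334c9314c5304bd2e4b92d4b12b4ad2a4a5284a127499254952448d22489214811f47d1e4751c4711b469194651845d16459154511344d12445104410f4390d4350c42d0a429094210741d06415044110340901405003fcfe3f8fd3f0fb3ecfa3e4f83e0f73d8f53d4f43ccf23c8f13c0ef3bcee3b4ec3b0eb3a8e93a4e839ce6398e5390e338ce2384e0380df378dd374dc36cda368d9360d735cd6354d4350d3348d1344d033cce338cd330cb32cca324c8320c7318c5314c430cc2308c1300bf2fcbe2f4bc2f0bb2e8b92e4b82dcb62d8b52d0b32ccb22c4b02c0af2b8ad2b4ac2acaa2a8a92a0a729ca6294a4290a3288a1284a027c9e2789d2709b26c9a2649826097258952549424c92248912408f23c8e2348c2308b228892248821c86218852108320c82204802007f1f87d1f47c1ec7a1e8791e0771dc761d4741d0731c8711c4701bc6e1b86d1b06b1ac6a1a4681a067198651946418c62188611805f17c5e1745c1705b168591645815c56158551505314c52144501404f1384d1344c12c4a128491204711c461144410c4310841100400fc3e0f43d0f03b0e83a0e4380dc370d8350d0340cc320c4310c02f0b82d0b42c0ac2a0a8290a02709c260942409023088210802007c1e0741d0701b0681a0641805c16058150501304c120441003c0f0380d0300c02c0a0240802007018050140400c020040100000000000000000000000000000000000000000000000000000000000000000000000000000000000000000000000000000000000000000000000000000000000000000000000000000000000000000000000000000000000000000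
def rN : ℕ := 0x2539ce539ce539ce539ce539ce539ce539ce539ce539ce539ce539ce539ce539ce539ce539ce539ce539ce539ce539ce539ce539ce539ce539ce539ce539ce539ce539ce539ce539ce539ce539ce539ce539ce539ce539ce539ce539ce539ce539ce539ce539ce539ce539ce539ce539ce539ce539ce539ce539ce539ce539ce539ce539ce539ce539ce539ce539ce539ce539ce539ce539ce539ce539ce539ce539ce539ce539ce539ce539ce539ce539ce539ce539ce539ce539ce539ce539ce539ce539ce539ce539ce539ce539ce539ce539ce539ce539ce539ce539ce539ce539ce539ce539ce539ce539ce529ce529ce529ce529ce529ce529ce729ce729ce729ce729ce729ce729ce729ce739ce739ce739ce739ce739ce739ce739ce739d2739d2739d2939ce939ce949ce949ce74a4e73946107b9ac62d494a0e62948310820000000000000000000000000000000000000000000000000000000000000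

/-- kernel-checkable condition: for the frame `g` the children of class R of the frames `1 .. g - 1`
with potentials `aT f / 2 ^ 20` have at most the potential `rT / 2 ^ 20` in every window of the frame.
`fT` = table of the labels (`fT f = fl 8192 f`). -/
def rCheck (fT aT : ℕ → ℕ) (rT g : ℕ) : Bool :=
  Nat.ble (fT (g + 1)) 34581 ||
    frc (bif Nat.ble 34020 (fT g) then fT g - 20 else 34000) fun j0 =>
    frc (fT (g + 1) - 21) fun j1 => frc (dig rX 31 g) fun X => frc (dig rS 10 g) fun s =>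
    frc (dig rN 5 g) fun n => rCore fT aT rT g j0 j1 X s n

noncomputable section

theorem clN_eq (v u x : ℕ) : clN v u x = min (max x v) u := by
  unfold clN
  have hb : ∀ a b : ℕ, Nat.ble a b = decide (a ≤ b) := by
    intro a b
    by_cases h : a ≤ b
    · rw [decide_eq_true h]
      exact Nat.ble_eq_true_of_le h
    · rw [decide_eq_false h]
      cases h' : Nat.ble a b with
      | true => exact absurd (Nat.le_of_ble_eq_true h') h
      | false => rfl
  rw [hb, hb, hb]
  by_cases h1 : x ≤ v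
  · rw [decide_eq_true h1, cond_true, max_eq_right h1]
    by_cases h2 : v ≤ u
    · rw [decide_eq_true h2, cond_true, min_eq_left h2]
    · rw [decide_eq_false h2, cond_false, min_eq_right (by omega)]
  · rw [decide_eq_false h1, cond_false, max_eq_left (by omega)]
    by_cases h2 : x ≤ u
    · rw [decide_eq_true h2, cond_true, min_eq_left h2]
    · rw [decide_eq_false h2, cond_false, min_eq_right (by omega)]

theorem clN_cast (v u x : ℕ) : (clN v u x : ℝ) = clamp v u x := by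
  rw [clN_eq]
  unfold clamp
  push_cast
  rfl

theorem clamp_mono3 {v v' u u' x x' : ℝ} (hv : v ≤ v') (hu : u ≤ u') (hx : x ≤ x') :
    clamp v u x ≤ clamp v' u' x' := by
  unfold clamp
  exact min_le_min (max_le_max hx hv) hu

theorem clamp_div {c : ℝ} (hc : 0 < c) (v u x : ℝ) : clamp v u x / c = clamp (v / c) (u / c) (x / c) := by
  have h := clamp_scale hc (v / c) (u / c) x
  rw [div_mul_cancel₀ _ hc.ne', div_mul_cancel₀ _ hc.ne'] at h
  rw [h, mul_div_assoc, div_self hc.ne', mul_one]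

theorem HH_range (ν h x : ℝ) :
    HH ν h x = ∑ i ∈ Finset.Ico 0 16, clamp (vz ν (i + 5)) (uz h (i + 5)) x := by
  unfold HH
  have h1 : Finset.Icc (5 : ℕ) 20 = Finset.Ico (0 + 5) (16 + 5) := by decide
  rw [h1, ← Finset.sum_Ico_add']

theorem hhU_ge {ν h x : ℝ} {hU xN : ℕ} (hν : ν ≤ 1) (hh : h ≤ (hU : ℝ) / 1048576)
    (hx : x ≤ (xN : ℝ) / 1048576) : HH ν h x ≤ (hhU hU xN : ℝ) / 1048576 := by
  unfold hhU
  rw [sumF_eq _ 4 0 16 (by norm_num), HH_range, Nat.cast_sum, Finset.sum_div]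
  apply Finset.sum_le_sum
  intro i _
  rw [clN_cast, clamp_div (by norm_num)]
  apply clamp_mono3 _ _ hx
  · unfold vz
    rw [le_div_iff₀ (by norm_num)]
    push_cast
    have : (0 : ℝ) ≤ i := Nat.cast_nonneg _
    nlinarith
  · unfold uz
    rw [le_div_iff₀ (by norm_num)] at hh ⊢
    push_cast
    have : (0 : ℝ) ≤ i := Nat.cast_nonneg _
    nlinarith

theorem hhL_le {ν h x : ℝ} {nL xN : ℕ} (hν : (nL : ℝ) / 1048576 ≤ ν) (hh : 1 ≤ h)
    (hx : (xN : ℝ) / 1048576 ≤ x) : (hhL nL xN : ℝ) / 1048576 ≤ HH ν h x := by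
  unfold hhL
  rw [sumF_eq _ 4 0 16 (by norm_num), HH_range, Nat.cast_sum, Finset.sum_div]
  apply Finset.sum_le_sum
  intro i _
  rw [clN_cast, clamp_div (by norm_num)]
  apply clamp_mono3 _ _ hx
  · unfold vz
    rw [div_le_iff₀ (by norm_num)] at hν ⊢
    push_cast
    have : (0 : ℝ) ≤ i := Nat.cast_nonneg _
    nlinarith
  · unfold uz
    rw [div_le_iff₀ (by norm_num)]
    push_cast
    have : (0 : ℝ) ≤ i := Nat.cast_nonneg _
    nlinarith

theorem ble_cases (a b : ℕ) : (Nat.ble a b = true ∧ a ≤ b) ∨ (Nat.ble a b = false ∧ b < a) := by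
  cases h : Nat.ble a b with
  | true => exact Or.inl ⟨rfl, Nat.le_of_ble_eq_true h⟩
  | false =>
    refine Or.inr ⟨rfl, ?_⟩
    by_contra h'
    have := Nat.ble_eq_true_of_le (not_lt.1 h')
    rw [h] at this
    exact Bool.noConfusion this

/-- one Abel term -/
theorem abt_num {fT aT : ℕ → ℕ} {J0 J1 hU nL f : ℕ} {ν h : ℝ} (hJ0 : 0 < J0) (hJ1 : 0 < J1)
    (hν1 : ν ≤ 1) (hν : (nL : ℝ) / 1048576 ≤ ν) (hh1 : 1 ≤ h) (hh : h ≤ (hU : ℝ) / 1048576) :
    abt ((aT (f - 1) : ℝ) / 1048576 - (aT f : ℝ) / 1048576)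
      (HH ν h (((fT f : ℝ) + 8) ^ 4 / J0)) (HH ν h (((fT f : ℝ) + 8) ^ 4 / J1)) ≤
    (posT fT aT J0 hU f : ℝ) / 1048576 ^ 2 - (negT fT aT J1 nL f : ℝ) / 1048576 ^ 2 := by
  have hJ0R : (0 : ℝ) < J0 := by exact_mod_cast hJ0
  have hJ1R : (0 : ℝ) < J1 := by exact_mod_cast hJ1
  unfold posT negT abt
  rw [frc_eq, frc_eq]
  rcases ble_cases (aT f) (aT (f - 1)) with ⟨h1, h2⟩ | ⟨h1, h2⟩
  · rw [h1, cond_true, cond_true]
    have h2R : (aT f : ℝ) ≤ aT (f - 1) := by exact_mod_cast h2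
    rw [if_pos (by
      rw [sub_nonneg]
      exact div_le_div_of_nonneg_right h2R (by norm_num))]
    have hx : ((fT f : ℝ) + 8) ^ 4 / J0 ≤
        (((fT f + 8) ^ 4 * 1048576 / J0 + 1 : ℕ) : ℝ) / 1048576 := by
      rw [div_le_div_iff₀ hJ0R (by norm_num)]
      have h3 : (fT f + 8) ^ 4 * 1048576 < ((fT f + 8) ^ 4 * 1048576 / J0 + 1) * J0 := by
        have := Nat.lt_div_mul_add (a := (fT f + 8) ^ 4 * 1048576) hJ0
        rw [add_mul, one_mul]
        exact this
      have h4 : (((fT f + 8) ^ 4 * 1048576 : ℕ) : ℝ) ≤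
          ((((fT f + 8) ^ 4 * 1048576 / J0 + 1) * J0 : ℕ) : ℝ) := by exact_mod_cast h3.le
      push_cast at h4 ⊢
      exact h4
    have h3 := hhU_ge (xN := (fT f + 8) ^ 4 * 1048576 / J0 + 1) hν1 hh hx
    have h4 : ((aT (f - 1) - aT f : ℕ) : ℝ) = (aT (f - 1) : ℝ) - aT f := by
      rw [Nat.cast_sub h2]
    have h5 : 0 ≤ (aT (f - 1) : ℝ) - aT f := by linarith
    rw [Nat.cast_mul, h4, Nat.cast_zero, zero_div, sub_zero, ← sub_div]
    calc ((aT (f - 1) : ℝ) - aT f) / 1048576 * HH ν h (((fT f : ℝ) + 8) ^ 4 / J0) ≤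
        ((aT (f - 1) : ℝ) - aT f) / 1048576 *
          ((hhU hU ((fT f + 8) ^ 4 * 1048576 / J0 + 1) : ℝ) / 1048576) :=
            mul_le_mul_of_nonneg_left h3 (div_nonneg h5 (by norm_num))
      _ = _ := by ring
  · rw [h1, cond_false, cond_false]
    have h2R : (aT (f - 1) : ℝ) < aT f := by exact_mod_cast h2
    rw [if_neg (by
      rw [sub_nonneg, not_le]
      exact div_lt_div_of_pos_right h2R (by norm_num))]
    have hx : (((fT f + 8) ^ 4 * 1048576 / J1 : ℕ) : ℝ) / 1048576 ≤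
        ((fT f : ℝ) + 8) ^ 4 / J1 := by
      rw [div_le_div_iff₀ (by norm_num) hJ1R]
      have h3 : ((fT f + 8) ^ 4 * 1048576 / J1) * J1 ≤ (fT f + 8) ^ 4 * 1048576 :=
        Nat.div_mul_le_self _ _
      have h4 : ((((fT f + 8) ^ 4 * 1048576 / J1) * J1 : ℕ) : ℝ) ≤
          (((fT f + 8) ^ 4 * 1048576 : ℕ) : ℝ) := by exact_mod_cast h3
      rw [Nat.cast_mul] at h4
      refine h4.trans (le_of_eq ?_)
      push_cast
      ring
    have h3 := hhL_le (xN := (fT f + 8) ^ 4 * 1048576 / J1) hν hh1 hx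
    have h4 : ((aT f - aT (f - 1) : ℕ) : ℝ) = (aT f : ℝ) - aT (f - 1) := by
      rw [Nat.cast_sub h2.le]
    have h5 : 0 ≤ (aT f : ℝ) - aT (f - 1) := by linarith
    rw [Nat.cast_mul, h4, Nat.cast_zero, zero_div, zero_sub, ← sub_div]
    have h6 := mul_le_mul_of_nonneg_left h3 (div_nonneg h5 (by norm_num : (0 : ℝ) ≤ 1048576))
    calc ((aT (f - 1) : ℝ) - aT f) / 1048576 * HH ν h (((fT f : ℝ) + 8) ^ 4 / J1) =
        -(((aT f : ℝ) - aT (f - 1)) / 1048576 * HH ν h (((fT f : ℝ) + 8) ^ 4 / J1)) := by ring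
      _ ≤ -(((aT f : ℝ) - aT (f - 1)) / 1048576 *
          ((hhL nL ((fT f + 8) ^ 4 * 1048576 / J1) : ℝ) / 1048576)) := neg_le_neg h6
      _ = _ := by ring

theorem wR_small {q : ℝ} (hq : 0 < q) {k j : ℕ} (hk : 8172 ≤ k) (hj0 : 1 ≤ j) (hj : j ≤ 34560) :
    wR q k j = 0 := by
  unfold wR
  split_ifs with hr
  · exfalso
    obtain ⟨_, r2⟩ := kr_range hq hk hj0 hr
    have h1 : 8172 ^ 4 ≤ k ^ 4 := Nat.pow_le_pow_left hk 4
    have h2 : 108 * (j + 1) ^ 3 ≤ 108 * 34561 ^ 3 :=
      Nat.mul_le_mul_left _ (Nat.pow_le_pow_left (by omega) 3)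
    omega
  · rfl

theorem fl_find {k : ℕ} (hk : 8172 ≤ k) :
    ∃ f, fl 8192 f - 20 ≤ k ∧ k < fl 8192 (f + 1) - 20 := by
  obtain ⟨m, hm⟩ := fl_unbounded (le_refl 8192) (k + 21)
  have h : ∀ n, k < fl 8192 n - 20 → ∃ f, fl 8192 f - 20 ≤ k ∧ k < fl 8192 (f + 1) - 20 := by
    intro n
    induction n with
    | zero =>
      intro h
      have : fl 8192 0 = 8192 := rfl
      omega
    | succ n ih =>
      intro h
      by_cases h' : k < fl 8192 n - 20
      · exact ih h'
      · exact ⟨n, by omega, h⟩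
  exact h m (by omega)

/-- the arithmetic of the zone bound -/
theorem zone_num {V Y j1 M rT : ℝ} (hY : 8192 ≤ Y)
    (h : (V * (96 * (Y - 16) ^ 2) + 2199023255552 * (j1 * M)) * ((Y + 54) * (Y + 100)) ≤
      rT * (1073741824 * (96 * (Y - 16) ^ 2 * Y ^ 2))) :
    (1 + 54 / Y) * (1 + 100 / Y) *
      (V / 1048576 ^ 2 / 1024 + 2048 * j1 / (96 * (Y - 16) ^ 2) * (M / 1048576)) ≤
      rT / 1048576 := by
  have hY0 : 0 < Y := by linarith
  have hY16 : 0 < Y - 16 := by linarith
  have e : (1 + 54 / Y) * (1 + 100 / Y) *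
      (V / 1048576 ^ 2 / 1024 + 2048 * j1 / (96 * (Y - 16) ^ 2) * (M / 1048576)) =
      (V * (96 * (Y - 16) ^ 2) + 2199023255552 * (j1 * M)) * ((Y + 54) * (Y + 100)) /
        (1048576 * (1073741824 * (96 * (Y - 16) ^ 2 * Y ^ 2))) := by
    field_simp
    ring
  rw [e, div_le_div_iff₀ (by positivity) (by norm_num)]
  nlinarith

theorem rCore_ok {fT aT : ℕ → ℕ} {rT g j0 j1 X s n : ℕ}
    (hc : rCore fT aT rT g j0 j1 X s n = true) (hf : ∀ f, f ≤ g → fT f = fl 8192 f)
    (ha0 : aT 0 = 0) {j : ℕ} (hj0 : 34000 ≤ j0) (h0 : j0 ≤ j) (h1 : j ≤ j1) (A' : ℕ → ℝ)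
    (hA0 : ∀ k, 0 ≤ A' k)
    (hA : ∀ f k, fl 8192 f - 20 ≤ k → k < fl 8192 (f + 1) - 20 →
      A' k ≤ if f < g then (aT f : ℝ) / 1048576 else 0) :
    ∑ f ∈ Finset.range g, ∑ k ∈ Finset.Ico (fl 8192 f - 20) (fl 8192 (f + 1) - 20),
      A' k * wR 2048 k j ≤ (rT : ℝ) / 1048576 := by
  unfold rCore at hc
  simp only [frc_eq, Bool.and_eq_true, Bool.or_eq_true] at hc
  obtain ⟨c1, c2, c3, c4, c5, c6, c7, c8⟩ := hc
  have c1 := Nat.le_of_ble_eq_true c1
  have c2 := Nat.le_of_ble_eq_true c2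
  have c3 := Nat.le_of_ble_eq_true c3
  have c4 := Nat.le_of_ble_eq_true c4
  have c6 := Nat.le_of_ble_eq_true c6
  have c7 := Nat.le_of_ble_eq_true c7
  have c8 := Nat.le_of_ble_eq_true c8
  have c5 : s = 0 ∨ (fT s + 8) ^ 4 ≤ 12 * ((j0 - 2) * (j0 + 1) ^ 2) := by
    rcases c5 with h | h
    · exact Or.inl (Nat.eq_of_beq_eq_true h)
    · exact Or.inr (Nat.le_of_ble_eq_true h)
  rw [hf s (by omega)] at c5 c8
  rw [hf (s + n + 1) c3] at c6 c7
  have hls := fl_ge (le_refl 8192) s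
  have hlz := fl_ge (le_refl 8192) (s + n + 1)
  obtain ⟨Y, hY⟩ : ∃ Y, Y = fl 8192 s := ⟨_, rfl⟩
  obtain ⟨Z, hZ⟩ : ∃ Z, Z = fl 8192 (s + n + 1) := ⟨_, rfl⟩
  rw [← hY] at c5 c8 hls
  rw [← hZ] at c6 c7 hlz
  have hYR : (8192 : ℝ) ≤ Y := by exact_mod_cast hls
  have hXR : (5000 : ℝ) ≤ X := by exact_mod_cast c2
  have hX0 : (0 : ℝ) < X := by linarith
  have hj0R : (34000 : ℝ) ≤ j0 := by exact_mod_cast hj0
  have h0R : (j0 : ℝ) ≤ j := by exact_mod_cast h0
  have h1R : (j : ℝ) ≤ j1 := by exact_mod_cast h1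
  -- the fourth powers
  have hs4 : s = 0 ∨ ((Y : ℝ) + 8) ^ 4 ≤ 12 * (((j0 : ℝ) - 2) * ((j0 : ℝ) + 1) ^ 2) := by
    rcases c5 with h | h
    · exact Or.inl h
    · right
      have h2 : (((Y + 8) ^ 4 : ℕ) : ℝ) ≤ ((12 * ((j0 - 2) * (j0 + 1) ^ 2) : ℕ) : ℝ) := by
        exact_mod_cast h
      push_cast [Nat.cast_sub (show 2 ≤ j0 by omega)] at h2
      exact h2
  have hs3 : s = 0 ∨ ((Y : ℝ) + 8) ^ 4 ≤ 12 * (j : ℝ) ^ 3 := by
    rcases hs4 with h | h
    · exact Or.inl h
    · right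
      refine h.trans ?_
      have h2 : ((j0 : ℝ) - 2) * ((j0 : ℝ) + 1) ^ 2 ≤ (j0 : ℝ) ^ 3 := by nlinarith
      have h3 : (j0 : ℝ) ^ 3 ≤ (j : ℝ) ^ 3 := pow_le_pow_left₀ (by linarith) h0R 3
      linarith
  have hXj : (X : ℝ) ^ 4 ≤ 63 * (j : ℝ) ^ 3 := by
    have h2 : ((X ^ 4 : ℕ) : ℝ) ≤ ((63 * j0 ^ 3 : ℕ) : ℝ) := by exact_mod_cast c1
    push_cast at h2
    have h3 : (j0 : ℝ) ^ 3 ≤ (j : ℝ) ^ 3 := pow_le_pow_left₀ (by linarith) h0R 3
    linarith
  have hJ1j : ((j : ℝ) + 1) ^ 3 ≤ ((j1 : ℝ) + 1) ^ 3 := pow_le_pow_left₀ (by linarith) (by linarith) 3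
  have hj1p : (0 : ℝ) ≤ j1 := Nat.cast_nonneg _
  have hden : 0 < 96 * ((Y : ℝ) - 16) ^ 2 := by
    have : 0 < (Y : ℝ) - 16 := by linarith
    positivity
  obtain ⟨M, hM⟩ : ∃ M, M = maxF aT 5 s (n + 1) := ⟨_, rfl⟩
  rw [← hM] at c8
  have hMx : ∀ f, s ≤ f → f ≤ s + n → aT f ≤ M := by
    intro f hf1 hf2
    rw [hM]
    exact maxF_le aT 5 s (n + 1) (by norm_num; omega) f hf1 (by omega)
  -- numbers
  obtain ⟨hU, hhU⟩ : ∃ hU, hU = 1048576 + 188743680 / X + 1 := ⟨_, rfl⟩
  obtain ⟨nL, hnL⟩ : ∃ nL, nL = 1048576 - 3145728 / (j0 + 1) - 1 := ⟨_, rfl⟩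
  rw [← hhU, ← hnL] at c8
  have hν : (nL : ℝ) / 1048576 ≤ 1 - 3 / ((j0 : ℝ) + 1) := by
    have hp : (0 : ℝ) < (j0 : ℝ) + 1 := by linarith
    rw [div_le_iff₀ (by norm_num)]
    have h2 : 3145728 < (3145728 / (j0 + 1) + 1) * (j0 + 1) := by
      have := Nat.lt_div_mul_add (a := 3145728) (b := j0 + 1) (by omega)
      rw [add_mul, one_mul]
      exact this
    have h3 : 3145728 / (j0 + 1) ≤ 92 := by
      rw [Nat.div_le_iff_le_mul_add_pred (by omega)]
      omega
    have h4 : nL + (3145728 / (j0 + 1) + 1) = 1048576 := by omega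
    have h5 : (nL : ℝ) + (((3145728 / (j0 + 1) + 1 : ℕ)) : ℝ) = 1048576 := by exact_mod_cast h4
    have h6 : (3145728 : ℝ) < (((3145728 / (j0 + 1) + 1 : ℕ)) : ℝ) * ((j0 : ℝ) + 1) := by
      exact_mod_cast h2
    have h7 : 3145728 / ((j0 : ℝ) + 1) < (((3145728 / (j0 + 1) + 1 : ℕ)) : ℝ) := by
      rw [div_lt_iff₀ hp]
      exact h6
    have h8 : (1 - 3 / ((j0 : ℝ) + 1)) * 1048576 = 1048576 - 3145728 / ((j0 : ℝ) + 1) := by ring
    rw [h8]
    linarith
  have hh : 1 + 180 / (X : ℝ) ≤ (hU : ℝ) / 1048576 := by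
    rw [le_div_iff₀ (by norm_num)]
    have h2 : 188743680 < (188743680 / X + 1) * X := by
      have := Nat.lt_div_mul_add (a := 188743680) (b := X) (by omega)
      rw [add_mul, one_mul]
      exact this
    have h4 : hU = 1048576 + (188743680 / X + 1) := by omega
    have h5 : (hU : ℝ) = 1048576 + (((188743680 / X + 1 : ℕ)) : ℝ) := by exact_mod_cast h4
    have h6 : (188743680 : ℝ) < (((188743680 / X + 1 : ℕ)) : ℝ) * (X : ℝ) := by
      exact_mod_cast h2
    have h7 : 188743680 / (X : ℝ) < (((188743680 / X + 1 : ℕ)) : ℝ) := by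
      rw [div_lt_iff₀ hX0]
      exact h6
    have h8 : (1 + 180 / (X : ℝ)) * 1048576 = 1048576 + 188743680 / (X : ℝ) := by ring
    rw [h8, h5]
    linarith
  have hν0 : (0 : ℝ) ≤ 1 - 3 / ((j0 : ℝ) + 1) := by
    rw [sub_nonneg, div_le_one (by linarith)]
    linarith
  have hν1 : 1 - 3 / ((j0 : ℝ) + 1) ≤ 1 := by
    have : 0 ≤ 3 / ((j0 : ℝ) + 1) := div_nonneg (by norm_num) (by linarith)
    linarith
  have hh1 : 1 ≤ 1 + 180 / (X : ℝ) := by
    have : 0 ≤ 180 / (X : ℝ) := div_nonneg (by norm_num) hX0.le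
    linarith
  have hh44 : (1 + 44 / (X : ℝ)) ^ 4 ≤ 1 + 180 / (X : ℝ) := by
    have hz : (0 : ℝ) < 1 / X := by positivity
    have hz' : 1 / (X : ℝ) ≤ 1 / 5000 := one_div_le_one_div_of_le (by norm_num) hXR
    have e1 : 44 / (X : ℝ) = 44 * (1 / X) := by ring
    have e2 : 180 / (X : ℝ) = 180 * (1 / X) := by ring
    rw [e1, e2]
    obtain ⟨z, hzz⟩ : ∃ z, z = 1 / (X : ℝ) := ⟨_, rfl⟩
    rw [← hzz] at hz hz' ⊢
    have e3 : (1 + 44 * z) ^ 4 = 1 + 176 * z + 11616 * z ^ 2 + 340736 * z ^ 3 + 3748096 * z ^ 4 := by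
      ring
    rw [e3]
    have z2 : z ^ 2 ≤ z * (1 / 5000) := by nlinarith
    have z3 : z ^ 3 ≤ z * (1 / 5000) ^ 2 := by
      have : z ^ 3 = z ^ 2 * z := by ring
      rw [this]
      nlinarith
    have z4 : z ^ 4 ≤ z * (1 / 5000) ^ 3 := by
      have : z ^ 4 = z ^ 3 * z := by ring
      rw [this]
      have z0 : 0 < z ^ 3 := by positivity
      nlinarith
    norm_num at z3 z4
    linarith
  have hνj : (1 - 3 / ((j0 : ℝ) + 1)) * ((j : ℝ) + 1) ^ 3 ≤ (j : ℝ) ^ 3 := by
    have hjp : (0 : ℝ) < (j : ℝ) + 1 := by linarith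
    have h2 : 3 / ((j : ℝ) + 1) ≤ 3 / ((j0 : ℝ) + 1) :=
      div_le_div_of_nonneg_left (by norm_num) (by linarith) (by linarith)
    have h3 : (1 - 3 / ((j0 : ℝ) + 1)) * ((j : ℝ) + 1) ^ 3 ≤
        (1 - 3 / ((j : ℝ) + 1)) * ((j : ℝ) + 1) ^ 3 := by
      apply mul_le_mul_of_nonneg_right _ (by positivity)
      linarith
    refine h3.trans ?_
    have h4 : (1 - 3 / ((j : ℝ) + 1)) * ((j : ℝ) + 1) ^ 3 =
        ((j : ℝ) + 1) ^ 3 - 3 * ((j : ℝ) + 1) ^ 2 := by
      field_simp
    rw [h4]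
    nlinarith
  have hA' := KZ_sum (q := 2048) (by norm_num) (by norm_num) (j := j) (by omega) (X := X) (Y := Y)
    (c := 2048 * (j1 : ℝ) / (96 * ((Y : ℝ) - 16) ^ 2)) hX0 hXj hYR
    (by
      intro K hK1 hK2 hK3
      rcases hs3 with h | h
      · have : 8192 ≤ K := by omega
        have hY0 : Y = 8192 := by rw [hY, h]; rfl
        rw [hY0]
        exact_mod_cast this
      · have h2 := lt_of_le_of_lt h hK2
        have h3 := lt_of_pow_lt_pow_left₀ 4 (Nat.cast_nonneg K) h2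
        linarith)
    (by
      have h2 : 96 * (2048 * (j1 : ℝ) / (96 * ((Y : ℝ) - 16) ^ 2)) * ((Y : ℝ) - 16) ^ 2 =
          2048 * j1 := by
        have : (Y : ℝ) - 16 ≠ 0 := by
          have : 0 < (Y : ℝ) - 16 := by linarith
          exact this.ne'
        field_simp
      rw [h2]
      linarith)
    (fl 8192) (fl_ge (le_refl 8192))
    (fun f => (by norm_num : (16 : ℕ) ∣ 32).trans (fl_dvd (by norm_num) f))
    (fun f => fl_mono (Nat.le_succ f)) A' (fun f => if f < g then (aT f : ℝ) / 1048576 else 0)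
    hA0 (fun f => by
      split_ifs
      · positivity
      · exact le_rfl) hA ((M : ℝ) / 1048576) (by positivity)
    (by
      intro k hk1 hk2 hk3
      obtain ⟨f, hf1, hf2⟩ := fl_find hk1
      refine (hA f k hf1 hf2).trans ?_
      have hfs : s ≤ f := by
        rcases hs3 with h | h
        · omega
        · by_contra h'
          have h2 : fl 8192 (f + 1) ≤ fl 8192 s := fl_mono (by omega)
          have h3 : k + 20 ≤ Y := by omega
          have h4 : (k + 20) ^ 4 ≤ Y ^ 4 := Nat.pow_le_pow_left h3 4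
          have h5 : (12 * (j : ℝ) ^ 3) < (Y : ℝ) ^ 4 := by
            exact_mod_cast lt_of_lt_of_le hk2 h4
          have h6 : (Y : ℝ) ^ 4 ≤ ((Y : ℝ) + 8) ^ 4 :=
            pow_le_pow_left₀ (by linarith) (by linarith) 4
          linarith
      have hfn : f ≤ s + n := by
        by_contra h'
        have h2 : fl 8192 (s + n + 1) ≤ fl 8192 f := fl_mono (by omega)
        have h3 : Z - 20 ≤ k := by omega
        have h4 : (Z - 20) ^ 4 ≤ k ^ 4 := Nat.pow_le_pow_left h3 4
        have h5 : 108 * (j + 1) ^ 3 ≤ 108 * (j1 + 1) ^ 3 :=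
          Nat.mul_le_mul_left _ (Nat.pow_le_pow_left (by omega) 3)
        have h6 := c7.trans h4
        exact absurd (lt_of_lt_of_le hk3 h5) (not_lt.2 h6)
      rw [if_pos (by omega)]
      apply div_le_div_of_nonneg_right _ (by norm_num)
      exact_mod_cast hMx f hfs hfn)
    (ν := 1 - 3 / ((j0 : ℝ) + 1)) (h := 1 + 180 / (X : ℝ)) (J0 := (((j0 + 1) ^ 3 : ℕ) : ℝ))
    (J1 := (((j1 + 1) ^ 3 : ℕ) : ℝ)) hν0 hν1 hνj hh44 (by positivity)
    (by
      push_cast
      exact pow_le_pow_left₀ (by linarith) (by linarith) 3)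
    (by
      push_cast
      exact hJ1j) s n g c3
    (by
      rcases hs4 with h | h
      · left
        refine ⟨h, ?_⟩
        rw [ha0]
        simp
      · right
        rw [← hY]
        refine h.trans (le_of_eq ?_)
        push_cast
        have : (j0 : ℝ) + 1 ≠ 0 := by linarith
        field_simp
        ring)
    (by
      rw [← hZ]
      have h2 : ((108 * ((X + 180) * (j1 + 1) ^ 3) : ℕ) : ℝ) ≤ ((X * (Z + 8) ^ 4 : ℕ) : ℝ) := by
        exact_mod_cast c6
      have h3 : 108 * (1 + 180 / (X : ℝ)) * (((j1 + 1) ^ 3 : ℕ) : ℝ) =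
          ((108 * ((X + 180) * (j1 + 1) ^ 3) : ℕ) : ℝ) / X := by
        push_cast
        field_simp
      rw [h3, div_le_iff₀ hX0]
      refine h2.trans (le_of_eq ?_)
      push_cast
      ring)
  refine hA'.trans ?_
  obtain ⟨P, hP⟩ : ∃ P, P = aT (s + n) * (1368 * hU) +
    sumF (posT fT aT ((j0 + 1) ^ 3) hU) 5 (s + 1) n := ⟨_, rfl⟩
  obtain ⟨Q, hQ⟩ : ∃ Q, Q = aT s * (552 * nL) +
    sumF (negT fT aT ((j1 + 1) ^ 3) nL) 5 (s + 1) n := ⟨_, rfl⟩
  rw [← hP, ← hQ] at c8
  rw [sumF_eq _ 5 _ _ (by norm_num; omega)] at hP hQ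
  -- the Abel sum
  have habs : (if s + n < g then (aT (s + n) : ℝ) / 1048576 else 0) *
        (1368 * (1 + 180 / (X : ℝ))) -
      (if s < g then (aT s : ℝ) / 1048576 else 0) * (552 * (1 - 3 / ((j0 : ℝ) + 1))) +
      ∑ f ∈ Finset.Ico (s + 1) (s + n + 1),
        abt ((if f - 1 < g then (aT (f - 1) : ℝ) / 1048576 else 0) -
            (if f < g then (aT f : ℝ) / 1048576 else 0))
          (HH (1 - 3 / ((j0 : ℝ) + 1)) (1 + 180 / (X : ℝ))
            (((fl 8192 f : ℝ) + 8) ^ 4 / (((j0 + 1) ^ 3 : ℕ) : ℝ)))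
          (HH (1 - 3 / ((j0 : ℝ) + 1)) (1 + 180 / (X : ℝ))
            (((fl 8192 f : ℝ) + 8) ^ 4 / (((j1 + 1) ^ 3 : ℕ) : ℝ))) ≤
      ((P - Q : ℕ) : ℝ) / 1048576 ^ 2 := by
    have h2 : ∑ f ∈ Finset.Ico (s + 1) (s + n + 1),
        abt ((if f - 1 < g then (aT (f - 1) : ℝ) / 1048576 else 0) -
            (if f < g then (aT f : ℝ) / 1048576 else 0))
          (HH (1 - 3 / ((j0 : ℝ) + 1)) (1 + 180 / (X : ℝ))
            (((fl 8192 f : ℝ) + 8) ^ 4 / (((j0 + 1) ^ 3 : ℕ) : ℝ)))
          (HH (1 - 3 / ((j0 : ℝ) + 1)) (1 + 180 / (X : ℝ))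
            (((fl 8192 f : ℝ) + 8) ^ 4 / (((j1 + 1) ^ 3 : ℕ) : ℝ))) ≤
        ∑ f ∈ Finset.Ico (s + 1) (s + 1 + n), ((posT fT aT ((j0 + 1) ^ 3) hU f : ℝ) / 1048576 ^ 2 -
          (negT fT aT ((j1 + 1) ^ 3) nL f : ℝ) / 1048576 ^ 2) := by
      rw [show s + n + 1 = s + 1 + n by ring]
      apply Finset.sum_le_sum
      intro f hf'
      rw [Finset.mem_Ico] at hf'
      rw [if_pos (by omega), if_pos (by omega), ← hf f (by omega)]
      exact abt_num (by positivity) (by positivity) hν1 hν hh1 hh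
    rw [Finset.sum_sub_distrib, ← Finset.sum_div, ← Finset.sum_div] at h2
    rw [if_pos (by omega), if_pos (by omega)]
    have h3 : (aT (s + n) : ℝ) / 1048576 * (1368 * (1 + 180 / (X : ℝ))) ≤
        (aT (s + n) : ℝ) / 1048576 * (1368 * ((hU : ℝ) / 1048576)) := by
      apply mul_le_mul_of_nonneg_left _ (by positivity)
      linarith
    have h4 : (aT s : ℝ) / 1048576 * (552 * ((nL : ℝ) / 1048576)) ≤
        (aT s : ℝ) / 1048576 * (552 * (1 - 3 / ((j0 : ℝ) + 1))) := by
      apply mul_le_mul_of_nonneg_left _ (by positivity)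
      linarith
    have h5 : (P : ℝ) - Q ≤ ((P - Q : ℕ) : ℝ) := by
      have : P ≤ (P - Q) + Q := by omega
      have h6 : (P : ℝ) ≤ (((P - Q) + Q : ℕ) : ℝ) := by exact_mod_cast this
      rw [Nat.cast_add] at h6
      linarith
    have h6 : (P : ℝ) = (aT (s + n) : ℝ) * (1368 * hU) +
        ∑ f ∈ Finset.Ico (s + 1) (s + 1 + n), (posT fT aT ((j0 + 1) ^ 3) hU f : ℝ) := by
      rw [hP]
      push_cast
      rfl
    have h7 : (Q : ℝ) = (aT s : ℝ) * (552 * nL) +
        ∑ f ∈ Finset.Ico (s + 1) (s + 1 + n), (negT fT aT ((j1 + 1) ^ 3) nL f : ℝ) := by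
      rw [hQ]
      push_cast
      rfl
    have h8 : ((P : ℝ) - Q) / 1048576 ^ 2 ≤ ((P - Q : ℕ) : ℝ) / 1048576 ^ 2 :=
      div_le_div_of_nonneg_right h5 (by norm_num)
    refine le_trans ?_ h8
    rw [h6, h7]
    have h9 : ((aT (s + n) : ℝ) * (1368 * hU) +
        ∑ f ∈ Finset.Ico (s + 1) (s + 1 + n), (posT fT aT ((j0 + 1) ^ 3) hU f : ℝ) -
        ((aT s : ℝ) * (552 * nL) +
        ∑ f ∈ Finset.Ico (s + 1) (s + 1 + n), (negT fT aT ((j1 + 1) ^ 3) nL f : ℝ))) / 1048576 ^ 2 =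
        (aT (s + n) : ℝ) / 1048576 * (1368 * ((hU : ℝ) / 1048576)) -
        (aT s : ℝ) / 1048576 * (552 * ((nL : ℝ) / 1048576)) +
        ((∑ f ∈ Finset.Ico (s + 1) (s + 1 + n), (posT fT aT ((j0 + 1) ^ 3) hU f : ℝ)) /
          1048576 ^ 2 -
        (∑ f ∈ Finset.Ico (s + 1) (s + 1 + n), (negT fT aT ((j1 + 1) ^ 3) nL f : ℝ)) /
          1048576 ^ 2) := by
      ring
    rw [h9]
    linarith
  refine le_trans ?_ (zone_num (V := ((P - Q : ℕ) : ℝ)) (M := M) (j1 := j1) hYR ?_)
  · apply mul_le_mul_of_nonneg_left _ (by positivity)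
    apply add_le_add_left
    exact div_le_div_of_nonneg_right habs (by norm_num)
  · have h2 : ((((P - Q) * (96 * (Y - 16) ^ 2) + 2199023255552 * (j1 * M)) *
        ((Y + 54) * (Y + 100)) : ℕ) : ℝ) ≤
        ((rT * (1073741824 * (96 * (Y - 16) ^ 2 * Y ^ 2)) : ℕ) : ℝ) := by exact_mod_cast c8
    have h3 : ((Y - 16 : ℕ) : ℝ) = (Y : ℝ) - 16 := by
      rw [Nat.cast_sub (by omega)]
      norm_num
    rw [Nat.cast_mul, Nat.cast_mul rT] at h2
    rw [Nat.cast_add, Nat.cast_mul (P - Q)] at h2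
    push_cast [h3] at h2
    push_cast
    exact h2

theorem R_zone {D : TD} {a lam : ℕ → ℝ} (hD : Std41 D a lam) {fT aT : ℕ → ℕ} {rT g : ℕ}
    (hg : 1 ≤ g) (hf : ∀ f, f ≤ g + 1 → fT f = fl 8192 f) (ha0 : aT 0 = 0)
    (ha : ∀ f, 1 ≤ f → f < g → a f ≤ (aT f : ℝ) / 2 ^ 20) (hc : rCheck fT aT rT g = true) {j : ℕ}
    (hj : fl 8192 g - 20 ≤ j) (hj' : j < fl 8192 (g + 1) - 20) :
    ∑ f ∈ Finset.Ico 1 g,
      ((D.wR f).map (fun k => (srcR D.q (D.A k) k).D D.q j (D.σm f))).sum ≤ (rT : ℝ) / 2 ^ 20 := by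
  have hlg := fl_ge (le_refl 8192) g
  obtain ⟨A', hA'⟩ : ∃ A' : ℕ → ℝ, A' = fun k =>
      if fl 8192 1 - 20 ≤ k ∧ k < fl 8192 g - 20 then D.A k else 0 := ⟨_, rfl⟩
  have h1 := R_le hD (g := g) (j := j) (by omega) A' (fun f k hf1 hf2 hk1 hk2 => by
    rw [hA']
    have a1 : fl 8192 1 ≤ fl 8192 f := fl_mono hf1
    have a2 : fl 8192 (f + 1) ≤ fl 8192 g := fl_mono hf2
    have a4 : fl 8192 1 - 20 ≤ k := by omega
    have a5 : k < fl 8192 g - 20 := by omega
    exact if_pos ⟨a4, a5⟩)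
  refine h1.trans ?_
  have e20 : (2 : ℝ) ^ 20 = 1048576 := by norm_num
  rw [e20] at ha ⊢
  have hr0 : (0 : ℝ) ≤ (rT : ℝ) / 1048576 := by positivity
  by_cases hj3 : j ≤ 34560
  · have h2 : ∑ f ∈ Finset.Ico 1 g, ∑ k ∈ Finset.Ico (fl 8192 f - 20) (fl 8192 (f + 1) - 20),
        A' k * wR 2048 k j = 0 := by
      apply Finset.sum_eq_zero
      intro f _
      apply Finset.sum_eq_zero
      intro k hk
      rw [Finset.mem_Ico] at hk
      have := fl_ge (le_refl 8192) f
      rw [wR_small (by norm_num) (by omega) (by omega) hj3, mul_zero]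
    rw [h2]
    exact hr0
  · unfold rCheck at hc
    simp only [frc_eq, Bool.or_eq_true] at hc
    have hfg : fT (g + 1) = fl 8192 (g + 1) := hf _ le_rfl
    have hfg0 : fT g = fl 8192 g := hf _ (Nat.le_succ g)
    rw [hfg, hfg0] at hc
    rcases hc with hc | hc
    · have := Nat.le_of_ble_eq_true hc
      omega
    · obtain ⟨j0, hj0⟩ : ∃ j0, j0 = (bif Nat.ble 34020 (fl 8192 g) then fl 8192 g - 20 else 34000) :=
        ⟨_, rfl⟩
      rw [← hj0] at hc
      have hj0' : 34000 ≤ j0 ∧ j0 ≤ j := by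
        rw [hj0]
        rcases ble_cases 34020 (fl 8192 g) with ⟨h3, h4⟩ | ⟨h3, h4⟩
        · rw [h3, cond_true]
          omega
        · rw [h3, cond_false]
          omega
      have hpos : ∀ k, 0 ≤ A' k ∧ ∀ f, fl 8192 f - 20 ≤ k → k < fl 8192 (f + 1) - 20 →
          A' k ≤ if f < g then (aT f : ℝ) / 1048576 else 0 := by
        intro k
        by_cases hk : fl 8192 1 - 20 ≤ k ∧ k < fl 8192 g - 20
        · have hk8 : 8172 ≤ k := by
            have := fl_ge (le_refl 8192) 1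
            omega
          obtain ⟨f, hf1, hf2⟩ := fl_find hk8
          have hf1' : 1 ≤ f := by
            by_contra h
            have : f = 0 := by omega
            subst this
            simp only [zero_add] at hf2
            omega
          have hAk : A' k = a f := by
            rw [hA']
            show (if fl 8192 1 - 20 ≤ k ∧ k < fl 8192 g - 20 then D.A k else 0) = _
            rw [if_pos hk]
            exact hD.A f k hf1' hf1 hf2
          refine ⟨by rw [hAk]; exact hD.a0 f, ?_⟩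
          intro f' hf1'' hf2''
          have hff : f' = f := by
            rcases lt_trichotomy f' f with h | h | h
            · have : fl 8192 (f' + 1) ≤ fl 8192 f := fl_mono h
              omega
            · exact h
            · have : fl 8192 (f + 1) ≤ fl 8192 f' := fl_mono h
              omega
          subst hff
          have hfg' : f' < g := by
            by_contra h
            have : fl 8192 g ≤ fl 8192 f' := fl_mono (by omega)
            omega
          rw [if_pos hfg', hAk]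
          exact ha f' hf1' hfg'
        · have hAk : A' k = 0 := by
            rw [hA']
            show (if fl 8192 1 - 20 ≤ k ∧ k < fl 8192 g - 20 then D.A k else 0) = _
            rw [if_neg hk]
          rw [hAk]
          refine ⟨le_rfl, ?_⟩
          intro f' _ _
          split_ifs
          · positivity
          · exact le_rfl
      have h3 := rCore_ok hc (fun f h => hf f (by omega)) ha0 hj0'.1 hj0'.2 (by omega) A'
        (fun k => (hpos k).1) (fun f k => (hpos k).2 f)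
      refine le_trans (le_of_eq ?_) h3
      rw [Finset.range_eq_Ico, Finset.sum_eq_sum_Ico_succ_bot (by omega : 0 < g)]
      have h4 : ∑ k ∈ Finset.Ico (fl 8192 0 - 20) (fl 8192 (0 + 1) - 20), A' k * wR 2048 k j = 0 := by
        apply Finset.sum_eq_zero
        intro k hk
        rw [Finset.mem_Ico] at hk
        have : A' k = 0 := by
          rw [hA']
          show (if fl 8192 1 - 20 ≤ k ∧ k < fl 8192 g - 20 then D.A k else 0) = _
          rw [if_neg]
          intro h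
          simp only [zero_add] at hk
          omega
        rw [this, zero_mul]
      rw [h4, zero_add]

end

end Pool.Agent.LibMoserT
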