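import Pool.Agent.LibMoserT.FatTabT
import Pool.Agent.LibMoserT.FatTailG
import Pool.Agent.LibMoserT.LedFT
set_option autoImplicit false
/-!
# Task F (helper25): fat lane and masses of class G
-/
namespace Pool.Agent.LibMoserT
open Pool.Agent.LibMoser5 Pool.Agent.LibMoserF Classical

noncomputable section

theorem F41_eq (g : ℕ) : F41 g = FPc (fl 8192 g) (fl 8192 g + 32 * (fl 8192 g / 1024)) := rfl

theorem fl_le_succT (g : ℕ) : fl 8192 g ≤ fl 8192 (g + 1) := Nat.le_add_right _ _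

theorem F41_ok (g : ℕ) : (F41 g).Ok := FPc_ok (fl_geT g)

theorem F41_s (g : ℕ) : (F41 (g + 1)).s ≤ (F41 g).s := zs_anti (fl_le_succT g)

theorem F41_thr (g : ℕ) : (F41 g).thr ≤ (F41 (g + 1)).thr := FPc_thr_mono (fl_le_succT g)

theorem F41_x (g : ℕ) : (F41 g).x ≤ (F41 (g + 1)).x := zx_mono (fl_le_succT g)

theorem F41_y (g : ℕ) : (F41 g).y ≤ th 2048 (fl 8192 (g + 1) - 36) := by
  have h := FPc_y (fl_geT g)
  have e : ((2048 : ℕ) : ℝ) = 2048 := by norm_num
  rw [e] at h
  exact h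

theorem F41_n2 {N1 : ℕ} (h : N1 ≤ 2 ^ 28 + 10 ^ 6) :
    (N1 : ℝ) + (F41 0).w ≤ ix 2048 (fl 8192 1) := by
  have e1 : fl 8192 1 = 8448 := rfl
  have ht : (F41 0).thr = 605504 := by
    have h1 : (F41 0).thr = (Nat.sqrt (8192 / 2)) * (Nat.sqrt (4 * 8192 ^ 3 / (3 * (2048 * 4))) + 1 + 1) :=
      rfl
    rw [h1]
    have h2 : Nat.sqrt (8192 / 2) = 64 := sqrt_of (by norm_num) (by norm_num)
    have h3 : Nat.sqrt (4 * 8192 ^ 3 / (3 * (2048 * 4))) = 9459 :=
      sqrt_of (by norm_num) (by norm_num)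
    rw [h2, h3]
  have hw : (F41 0).w = (605504 : ℝ) / (2 / 5 - 1 / 2048) + 16384 := by
    unfold FatP.w
    rw [ht]
    have : (F41 0).s = 2 / 5 := by
      show (if (8192 : ℕ) < 40000 then (2 / 5 : ℝ) else 1 / 10) = 2 / 5
      norm_num
    rw [this]
    norm_num
  have hi : (294395903 : ℝ) ≤ ix 2048 (fl 8192 1) := by
    rw [e1]
    refine le_trans ?_ (Nat.le_ceil _)
    norm_num
  rw [hw]
  refine le_trans ?_ hi
  have hN2 : (N1 : ℝ) ≤ 269435456 := by
    have h2 : N1 ≤ 269435456 := by norm_num at h; exact h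
    exact_mod_cast h2
  have h3 : (605504 : ℝ) / (2 / 5 - 1 / 2048) + 16384 ≤ 1540000 := by norm_num
  linarith

/-! ### tail of the costs -/

theorem FATr_nonneg {f : FatP} (hf : f.Ok) : 0 ≤ FATr f ∧ 0 ≤ f.mJ := by
  have hN := pos_of_FatN hf
  have hS := hf.S0
  have hD : 0 ≤ f.D := by
    unfold FatP.D
    linarith [hf.σS]
  have h1 : 0 ≤ f.tG := by unfold FatP.tG; positivity
  have h2 : 0 ≤ f.tJ := by unfold FatP.tJ; positivity
  have h3 : 0 ≤ f.mJ := by unfold FatP.mJ; positivity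
  have hc : chC = 5 := rfl
  refine ⟨?_, h3⟩
  unfold FATr
  rw [hc]
  positivity

theorem costs_tail {l : ℕ} (hl : 20361472 ≤ l) :
    (FPc l (l + 32 * (l / 1024))).mJ ≤ 240 / 10000 / l ∧
      FATr (FPc l (l + 32 * (l / 1024))) ≤ 913 / 100 / l := by
  have hl8 : 8192 ≤ l := by omega
  have hf := FPc_ok hl8
  obtain ⟨f, hfd⟩ : ∃ f, f = FPc l (l + 32 * (l / 1024)) := ⟨_, rfl⟩
  have hS := u_S hl8
  have hD := u_D hl8
  obtain ⟨m1, m2⟩ := u_μ hl8
  have hN := u_N hl8
  have hthr := FPc_thr (l1 := l + 32 * (l / 1024)) hl8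
  rw [← hfd] at hf hS hD m1 m2 hN hthr
  rw [← hfd]
  have hN0 := pos_of_FatN hf
  have hS0 := hf.S0
  have hD0 : 0 ≤ f.D := by
    unfold FatP.D
    linarith [hf.σS]
  have hL : (20361472 : ℝ) ≤ l := by exact_mod_cast hl
  have hL0 : (0 : ℝ) < l := by linarith
  obtain ⟨m, hm⟩ : ∃ m : ℝ, m = (f.μ : ℝ) := ⟨_, rfl⟩
  obtain ⟨k, hk⟩ : ∃ k : ℝ, k = (f.K : ℝ) := ⟨_, rfl⟩
  have hk0 : 0 ≤ k := by rw [hk]; exact Nat.cast_nonneg _
  have hm0 : 0 ≤ m := by rw [hm]; exact Nat.cast_nonneg _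
  rw [← hm] at m1 m2
  have hm3 : 3100 ≤ m := by
    by_contra hc
    rw [not_le] at hc
    nlinarith
  have hmk : m * k ≤ 20 / 2217 * (l : ℝ) ^ 2 + 1 / 64 * l := by
    refine le_trans ?_ hthr
    unfold FatP.thr
    rw [hm, hk]
    push_cast
    nlinarith
  obtain ⟨c, hc⟩ : ∃ c : ℝ, c = 2048 / (l : ℝ) ^ 3 := ⟨_, rfl⟩
  rw [← hc] at hS hD
  have hc0 : 0 < c := by rw [hc]; positivity
  have hcl : c * (l : ℝ) ^ 3 = 2048 := by rw [hc]; field_simp
  obtain ⟨z, hz⟩ : ∃ z : ℝ, z = 1 / (l : ℝ) := ⟨_, rfl⟩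
  have hzl : z * l = 1 := by rw [hz]; field_simp
  have hz0 : 0 < z := by rw [hz]; positivity
  have hzs : z ≤ 1 / 20361472 := by
    rw [hz]
    exact one_div_le_one_div_of_le (by norm_num) hL
  have hcz : c = 2048 * z ^ 3 := by
    rw [hc, hz]
    field_simp
  have hcl2 : c * (l : ℝ) ^ 2 = 2048 * z := by
    rw [hcz]
    have : 2048 * z ^ 3 * (l : ℝ) ^ 2 = 2048 * z * (z * l) ^ 2 := by ring
    rw [this, hzl]
    ring
  have hcl1 : c * (l : ℝ) = 2048 * z ^ 2 := by
    rw [hcz]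
    have : 2048 * z ^ 3 * (l : ℝ) = 2048 * z ^ 2 * (z * l) := by ring
    rw [this, hzl]
    ring
  have hz2 : z ^ 2 ≤ 1 / 20361472 * z := by nlinarith
  -- tG
  have hkm : k ≤ (20 / 2217 * (l : ℝ) ^ 2 + 1 / 64 * l) / 3100 := by
    rw [le_div_iff₀ (by norm_num)]
    nlinarith
  have t1 : m * k * f.D ≤ 17961 / 10000 * z := by
    have h1 : m * k * f.D ≤ (20 / 2217 * (l : ℝ) ^ 2 + 1 / 64 * l) * (972 / 10000 * c) :=
      mul_le_mul hmk hD hD0 (by positivity)
    have h2 : (20 / 2217 * (l : ℝ) ^ 2 + 1 / 64 * l) * (972 / 10000 * c) =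
        972 / 10000 * (20 / 2217 * (c * (l : ℝ) ^ 2) + 1 / 64 * (c * l)) := by ring
    rw [h2, hcl2, hcl1] at h1
    nlinarith
  have t2 : (m ^ 2 + k) * f.D ≤ 6 / 10000 * z := by
    have h1 : (m ^ 2 + k) ≤ l / 2 + (20 / 2217 * (l : ℝ) ^ 2 + 1 / 64 * l) / 3100 := by linarith
    have h2 : (m ^ 2 + k) * f.D ≤
        (l / 2 + (20 / 2217 * (l : ℝ) ^ 2 + 1 / 64 * l) / 3100) * (972 / 10000 * c) :=
      mul_le_mul h1 hD hD0 (by positivity)
    have h3 : (l / 2 + (20 / 2217 * (l : ℝ) ^ 2 + 1 / 64 * l) / 3100) * (972 / 10000 * c) =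
        972 / 10000 * (c * l / 2 + (20 / 2217 * (c * (l : ℝ) ^ 2) + 1 / 64 * (c * l)) / 3100) := by
      ring
    rw [h3, hcl2, hcl1] at h2
    nlinarith
  have t3 : f.N * f.S ≤ 3 / 1000000 * z := by
    have h1 : f.N * f.S ≤ (273 / 10000 * l) * (1009 / 1000 * c) :=
      mul_le_mul hN hS hS0.le (by positivity)
    have h2 : (273 / 10000 * (l : ℝ)) * (1009 / 1000 * c) = 273 / 10000 * (1009 / 1000) * (c * l) := by
      ring
    rw [h2, hcl1] at h1
    nlinarith
  have t4 : f.N * m * f.S ≤ 92 / 10000 * z := by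
    have hml : m ≤ l / 6200 := by
      rw [le_div_iff₀ (by norm_num)]
      nlinarith
    have h0 : f.N * m ≤ (273 / 10000 * l) * (l / 6200) := mul_le_mul hN hml hm0 (by positivity)
    have h1 : f.N * m * f.S ≤ (273 / 10000 * l) * (l / 6200) * (1009 / 1000 * c) :=
      mul_le_mul h0 hS hS0.le (by positivity)
    have h2 : (273 / 10000 * (l : ℝ)) * (l / 6200) * (1009 / 1000 * c) =
        273 / 10000 * (1009 / 1000) / 6200 * (c * (l : ℝ) ^ 2) := by
      ring
    rw [h2, hcl2] at h1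
    nlinarith
  have e1 : f.mJ = 3 / 2 * ((m ^ 2 + k) * f.D + f.N * m * f.S) + (f.N * m * f.S + 4 / 5 * (f.N * f.S)) := by
    unfold FatP.mJ
    rw [← hm, ← hk]
    ring
  have e2 : f.tJ = (m ^ 2 + k) * f.D + f.N * f.S := by
    unfold FatP.tJ
    rw [← hm, ← hk]
  have e3 : f.tG = m * k * f.D := by
    unfold FatP.tG
    rw [← hm, ← hk]
  have ez1 : 240 / 10000 / (l : ℝ) = 240 / 10000 * z := by rw [hz]; ring
  have ez2 : 913 / 100 / (l : ℝ) = 913 / 100 * z := by rw [hz]; ring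
  rw [ez1, ez2]
  have hmJ : f.mJ ≤ 240 / 10000 * z := by
    rw [e1]
    linarith
  refine ⟨hmJ, ?_⟩
  unfold FATr
  have hc5 : chC = 5 := rfl
  rw [e2, e3, hc5]
  linarith

/-- label of frame 566 -/
theorem fl_566 : fl 8192 566 = 282896225344 := by
  rw [← fT_eq 566 (by norm_num)]
  decide +kernel

theorem sum_inv_fl (n : ℕ) :
    ∑ h ∈ Finset.Ico 566 (566 + n), 1 / (fl 8192 h : ℝ) ≤
      34 * (1 / (fl 8192 566 : ℝ) - 1 / (fl 8192 (566 + n) : ℝ)) := by
  induction n with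
  | zero => rw [add_zero, Finset.Ico_self, Finset.sum_empty, sub_self, mul_zero]
  | succ n ih =>
    rw [← add_assoc, Finset.sum_Ico_succ_top (by omega)]
    have h0 : 33792 ≤ fl 8192 (566 + n) := by
      have h2 : fl 8192 566 ≤ fl 8192 (566 + n) := fl_mono (by omega)
      rw [fl_566] at h2
      omega
    have h1 := fl_step34 h0
    have h2 := fl_pos (566 + n)
    have h3 := fl_pos (566 + n + 1)
    have h4 : 34 * (1 / (fl 8192 (566 + n + 1) : ℝ)) ≤ 33 * (1 / (fl 8192 (566 + n) : ℝ)) := by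
      rw [mul_one_div, mul_one_div, div_le_div_iff₀ (by linarith) (by linarith)]
      linarith
    linarith

theorem sum_inv_fl' (g : ℕ) (hg : 566 ≤ g) :
    ∑ h ∈ Finset.Ico 566 g, 1 / (fl 8192 h : ℝ) ≤ 34 / 282896225344 := by
  obtain ⟨n, rfl⟩ := Nat.exists_eq_add_of_le hg
  have h1 := sum_inv_fl n
  have h2 : (0 : ℝ) < 1 / (fl 8192 (566 + n) : ℝ) := by
    have := fl_pos (566 + n)
    positivity
  have h3 : (fl 8192 566 : ℝ) = 282896225344 := by
    rw [fl_566]
    norm_num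
  rw [h3] at h1
  linarith

theorem costs_tail' {h : ℕ} (hh : 566 ≤ h) :
    (F41 h).mJ ≤ 240 / 10000 * (1 / (fl 8192 h : ℝ)) ∧
      FATr (F41 h) ≤ 913 / 100 * (1 / (fl 8192 h : ℝ)) := by
  have h1 : 20361472 ≤ fl 8192 h := by
    have h2 : fl 8192 566 ≤ fl 8192 h := fl_mono hh
    rw [fl_566] at h2
    omega
  have h2 := costs_tail h1
  rw [F41_eq]
  constructor
  · refine h2.1.trans (le_of_eq ?_)
    ring
  · refine h2.2.trans (le_of_eq ?_)
    ring

/-! ### the tables -/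

/-- packed table, 20 bits per entry, units `2 ^ (-20)`: cumulative cost of the fat lane.
`fatTab` has the entries `g ≤ G1` (the last one is a bound for all `g`) -/
def fatTab : ℕ := 0xb8840b8830b8830b8830b8830b8830b8830b8830b8830b8830b8830b8830b8830b8830b8830b8830b8830b8830b8830b8830b8830b8830b8830b8830b8830b8830b8830b8830b8830b8830b8830b8830b8830b8830b8830b8830b8830b8830b8830b8830b8830b8830b8830b8830b8830b8830b8830b8830b8830b8830b8830b8830b8830b8830b8830b8830b8830b8830b8830b8830b8830b8830b8830b8830b8830b8830b8830b8830b8830b8830b8830b8830b8830b8830b8830b8830b8830b8830b8830b8830b8830b8830b8830b8830b8830b8830b8830b8830b8830b8830b8830b8830b8830b8830b8830b8830b8830b8830b8830b8830b8830b8830b8830b8830b8830b8830b8830b8830b8830b8830b8830b8830b8830b8830b8830b8830b8830b8830b8830b8830b8830b8830b8830b8830b8830b8830b8830b8830b8830b8830b8830b8830b8830b8830b8830b8830b8830b8830b8830b8830b8830b8830b8830b8830b8830b8830b8830b8830b8830b8830b8830b8830b8830b8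830b8830b8830b8830b8830b8830b8830b8830b8830b8830b8830b8830b8830b8830b8830b8830b8830b8830b8830b8830b8830b8830b8830b8830b8830b8830b8830b8830b8830b8830b8830b8830b8830b8830b8830b8830b8830b8830b8830b8830b8830b8830b8830b8830b8830b8830b8830b8830b8830b8830b8830b8830b8830b8830b8830b8830b8830b8830b8830b8830b8830b8830b8830b8830b8830b8820b8820b8820b8820b8820b8820b8820b8820b8820b8820b8820b8820b8820b8820b8820b8820b8820b8820b8820b8820b8820b8820b8820b8820b8820b8820b8810b8810b8810b8810b8810b8810b8810b8810b8810b8810b8810b8810b8810b8810b8810b8800b8800b8800b8800b8800b8800b8800b8800b8800b87f0b87f0b87f0b87f0b87f0b87f0b87f0b87f0b87e0b87e0b87e0b87e0b87e0b87e0b87d0b87d0b87d0b87d0b87d0b87c0b87c0b87c0b87c0b87c0b87b0b87b0b87b0b87b0b87a0b87a0b87a0b8790b8790b8790b8780b8780b8780b8770b8770b8770b8760b8760b8750b8750b8740b8740b8730b8730b8720b8720b8710b8710b8700b8700b86f0b86e0b86e0b86d0b86c0b86c0b86b0b86a0b8690b8680b8680b8670b8660b8650b8640b8630b8620b8610b8600b85f0b85e0b85c0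b85b0b85a0b8590b8570b8560b8540b8530b8510b8500b84e0b84d0b84b0b8490b8470b8450b8430b8410b83f0b83d0b83b0b8390b8360b8340b8310b82f0b82c0b8290b8260b8230b8200b81d0b81a0b8170b8130b8100b80c0b8080b8040b8000b7fc0b7f80b7f30b7ef0b7ea0b7e50b7e00b7db0b7d60b7d00b7ca0b7c40b7be0b7b80b7b20b7ab0b7a40b79d0b7950b78e0b7860b77e0b7760b76d0b7640b75b0b7510b7480b73d0b7330b7280b71d0b7120b7060b6f90b6ed0b6e00b6d20b6c40b6b60b6a70b6980b6880b6770b6660b6550b6430b6300b61d0b6090b5f50b5e00b5ca0b5b30b59c0b5840b56b0b5510b5360b51b0b4ff0b4e10b4c30b4a40b4830b4620b43f0b41c0b3f70b3d10b3a90b3800b3560b32b0b2fe0b2d00b2a00b26e0b23b0b2060b1cf0b1970b15c0b11f0b0e10b0a00b05d0b0180afd00af860af3a0aeea0ae990ae440adec0ad920ad340acd30ac6f0ac070ab9c0ab2d0aaba0aa440a9c90a94a0a8c60a83e0a7b10a7200a68a0a5ee0a54c0a4a50a3f80a3450a28c0a1cd0a1060a03809f6509e8709da409cb609bc309ac4099ba098ab097910966a0954609417092dc091ae0907408f3008de008c9408b3e089de08873086ff08573083da082370808b07ec407d0107b35079600776e07575073590713806f0e06cc406a73067f90657f062da0603805d6805a990579a0546d0514404de404a8e047080434503f9303ba20376d0335302ef402a4b025d70211c01c12016b00118d00c170064700000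

def fatT (g : ℕ) : ℕ := (fatTab >>> (20 * min g G1)) % 2 ^ 20

/-- packed table, 20 bits per entry, units `2 ^ (-20)`: load of class G in frame `g`
(entry `G1`: bound for all `g ≥ G1`) -/
def lamTab : ℕ := 0x106300d8f00dfb00d9100dfc00d9300dfe00e6c00e0000e6f00e0200e7100ee300e7300ee500e7500ee800f5d00eea00f5f00eec00f6100fda00f6400fde00f6700fe00105d00fe20105f00fe601063010e401065010e601068010e90116f010ed01172010ef01174011fe01177012020117c012050129201208012950120b0129a0132c0129d0132f012a001333013c901338013cf0133b013d20146e013d601471013db01477015170147b0151b0147e0151f015c701525015cb01529015cf0167a015d301681015da016850173501689017390168e01741017f701746017fc0174b01801018bc01809018c50180e018ca0198b018cf01991018d90199a01a62019a001a68019a601a6e01b4001a7801b4601a7e01b4d01c2101b5301c2c01b5e01c3301d0e01c3a01d1501c4101d2201e0401d2901e0b01d3101e1301efd01e2101f0b01e2901f130200401f1c0200d01f2a0201c02114020250211e0202e021270222e021370223802141022420234b0224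d0235c0225e023670247802372024840237e02497025b1024a3025bd024af025ca026ed025df02702025ec0270f0283b0271d028490273402861029970286f029a50287e029b402afe029ce02b0e029de02b1e02c6802b2f02c8402b4b02c9502dea02ca702dfc02cb902e1a02f7902e2d02f8d02e4002fa10310b02fc20312d02fd703142032b903158032cf0317d032f303475033090348c03321034a403643034cd0365c034e60367603813036910383f036be0385903a030387603a1f0389203a5003c0803a6f03c2703a8e03c4503e0a03c7a03e3e03c9a03e5e0403203e800405403eba0408f04272040b304295040d7042bd044c8042fc044ef04324045170471b045420475f045870478b0499f047b8049cd047e704a1604c3904a4404c6a04e9f04c9a04ed204cef04f290517304f5f051a604f93051d90545a052370549405271054d20574305510057ab05579057e905a6f0582b05aac0586905b1905db105b5d05df605ba205e3b060e605eb20616705f02061ae06476061ff064c10628206545068210659806873065ec068cb06bf70695c06c46069ad06ca906fb406d060705d06db1070bb073e3071220743d0717d074e6078230754e0788f075bc0790007c55079bd07d1307a2d07d82080e407de7081650854f08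23d085bd082ac08648089e9086c108ad2087ad08b4f08f1908bdc08fb408c790903e094940914109536091e4095ac09994096a209a9209ca90993809b630980409a4009c9a099c209ada09798098c709a10096e30983d095b809720098cd095c509775094810963d098a8095be097c5098eb09610097430948009661097ce0951d09690093f509598097430957909714098f00966e09837095c7097be09a8b0982309a4309c59099fa09c41099f109d0209f5909d0d09fa309d6409fcb0a26e0a13e0a3a80a65b0a4230a7090a4dd0a7800ab880a95a0ac6c0aa4b0ad0a0b0080ade80b2620b5510b32a0b6480b9a80b77e0bb120bfae0bd7c0c0d50beae0c23d0c6000c3cd0c34f0c1480bf5a0bd850bbc80ba1b0b8880b8d20b7610b5f80b4a50b3560b21a0b0ec0b1cd0b0ac0af920ae840ad700ac5d0ab4a0ac710ab450aa070a8b90a7920a6a60a5f90a80d0a7940a7150a6880a5ea0a5890a56c0a88b0a8c60a90e0a9550a9a40a9ed0aa3a0add20ae2e0ae790aec10aeef0af4a0afea0b4a20b5af0b3310b09a0ade40ab0d0a8110a9350aa220a6e20a37109fef09c340985b09921094b30949b094e609545095b2095af095c8095e909af109b1a09adb09a9309a0f09980098f30980309c8c09b9009a220986c09629093d8090e7093f00906b08c3308706081d407bd907cd8070030710806a970646e05df305707050850518804a900432c03c110348502c6b023ca01bb60130c0136a009fc0000000000000000000000000000000000000000000000000000000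

def lamT (g : ℕ) : ℕ := (lamTab >>> (20 * min g G1)) % 2 ^ 20

def chkF (fT' lT : ℕ → ℕ) : List Row → ℕ → Bool
  | [], _ => true
  | r :: t, g => (Nat.ble r.fat (fT' g) && Nat.ble r.lam (lT g)) && chkF fT' lT t (g + 1)

theorem chkF_sound {fT' lT : ℕ → ℕ} : ∀ (L : List Row) (g : ℕ), chkF fT' lT L g = true →
    ∀ j r, L[j]? = some r → r.fat ≤ fT' (g + j) ∧ r.lam ≤ lT (g + j) := by
  intro L
  induction L with
  | nil =>
    intro g _ j r hj
    simp at hj
  | cons r0 t ih =>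
    intro g hc j r hj
    unfold chkF at hc
    simp only [Bool.and_eq_true, Nat.ble_eq] at hc
    obtain ⟨⟨c1, c2⟩, c4⟩ := hc
    rcases j with _ | j
    · simp only [List.getElem?_cons_zero, Option.some.injEq] at hj
      rw [← hj, add_zero]
      exact ⟨c1, c2⟩
    · rw [List.getElem?_cons_succ] at hj
      have := ih (g + 1) c4 j r hj
      have e : g + (j + 1) = g + 1 + j := by omega
      rw [e]
      exact this

theorem chkF_ok : chkF fatT lamT rowsT 0 = true := by decide +kernel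

theorem chkF_last : (Nat.ble 47236 (fatT 566) && Nat.ble 4195 (lamT 566)) = true := by
  decide +kernel

def chkE (r : Row) : Bool :=
  Nat.ble ((r.cF + r.FATn) * 2 ^ 20) (47235 * (10 * 2 ^ 160)) &&
    Nat.ble ((r.cJ + r.mJn) * 10000000) (16761 * (10 * 2 ^ 160))

theorem chkE_ok : (rowsT[565]?).all chkE = true := by decide +kernel

theorem all_of {α : Type} {o : Option α} {p : α → Bool} {r : α} (h : o.all p = true)
    (hr : o = some r) : p r = true := by
  subst hr
  exact h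

theorem costs_succ {g : ℕ} {r : Row} (hr : rowsT[g]? = some r) :
    (∑ h ∈ Finset.range (g + 1), FATr (F41 h)) * (10 * 2 ^ 160) ≤ r.cF + r.FATn ∧
    (∑ h ∈ Finset.range (g + 1), (F41 h).mJ) * (10 * 2 ^ 160) ≤ r.cJ + r.mJn := by
  have hf := rows_base hr
  have hl8 : 8192 ≤ r.l := by rw [hf.l]; exact fl_geT g
  have hc := hf.ok.costs hl8
  rw [Row.F_eq hf.l hf.l1] at hc
  rw [Finset.sum_range_succ, Finset.sum_range_succ, add_mul, add_mul]
  exact ⟨add_le_add hf.cF hc.2, add_le_add hf.cJ hc.1⟩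

theorem scale_leT {a x : ℝ} {m n b : ℝ} (hb : 0 < b) (hn : 0 < n) (h1 : a * b ≤ x)
    (h2 : x * n ≤ m * b) : a ≤ m / n := by
  rw [le_div_iff₀ hn]
  have h3 := mul_le_mul_of_nonneg_right h1 hn.le
  have h4 : a * n * b ≤ m * b := by linarith
  exact le_of_mul_le_mul_right h4 hb

/-- costs of the first 566 frames -/
theorem costs_566 : (∑ h ∈ Finset.range 566, FATr (F41 h)) ≤ 47235 / 2 ^ 20 ∧
    (∑ h ∈ Finset.range 566, (F41 h).mJ) ≤ 16761 / 10000000 := by
  obtain ⟨r, hr⟩ := rows_get (g := 565) (by norm_num)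
  have h1 : chkE r = true := all_of chkE_ok hr
  unfold chkE at h1
  rw [Bool.and_eq_true] at h1
  have c1 := Nat.le_of_ble_eq_true h1.1
  have c2 := Nat.le_of_ble_eq_true h1.2
  have hc := costs_succ hr
  have d1 : ((r.cF : ℝ) + r.FATn) * 2 ^ 20 ≤ 47235 * (10 * 2 ^ 160) := by exact_mod_cast c1
  have d2 : ((r.cJ : ℝ) + r.mJn) * 10000000 ≤ 16761 * (10 * 2 ^ 160) := by exact_mod_cast c2
  exact ⟨scale_leT (by positivity) (by positivity) hc.1 d1,
    scale_leT (by positivity) (by positivity) hc.2 d2⟩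

theorem FAT_tail (g : ℕ) (hg : 566 ≤ g) :
    ∑ h ∈ Finset.range g, FATr (F41 h) ≤ 47236 / 2 ^ 20 := by
  rw [Finset.range_eq_Ico, ← Finset.sum_Ico_consecutive _ (Nat.zero_le 566) hg,
    ← Finset.range_eq_Ico]
  have h1 := costs_566.1
  have h2 : ∑ h ∈ Finset.Ico 566 g, FATr (F41 h) ≤
      ∑ h ∈ Finset.Ico 566 g, 913 / 100 * (1 / (fl 8192 h : ℝ)) := by
    apply Finset.sum_le_sum
    intro h hh
    exact (costs_tail' (Finset.mem_Ico.1 hh).1).2
  rw [← Finset.mul_sum] at h2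
  have h3 := sum_inv_fl' g hg
  have h4 : (913 / 100 * (34 / 282896225344) : ℝ) ≤ 1 / 2 ^ 20 := by norm_num
  have h5 : (47235 / 2 ^ 20 + 1 / 2 ^ 20 : ℝ) = 47236 / 2 ^ 20 := by norm_num
  linarith

theorem F41_JT (g : ℕ) : ∑ h ∈ Finset.range g, (F41 h).mJ ≤ 17 / 10000 := by
  have key : ∀ g, 566 ≤ g → ∑ h ∈ Finset.range g, (F41 h).mJ ≤ 17 / 10000 := by
    intro g hg
    rw [Finset.range_eq_Ico, ← Finset.sum_Ico_consecutive _ (Nat.zero_le 566) hg,
      ← Finset.range_eq_Ico]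
    have h1 := costs_566.2
    have h2 : ∑ h ∈ Finset.Ico 566 g, (F41 h).mJ ≤
        ∑ h ∈ Finset.Ico 566 g, 240 / 10000 * (1 / (fl 8192 h : ℝ)) := by
      apply Finset.sum_le_sum
      intro h hh
      exact (costs_tail' (Finset.mem_Ico.1 hh).1).1
    rw [← Finset.mul_sum] at h2
    have h3 := sum_inv_fl' g hg
    have h4 : (240 / 10000 * (34 / 282896225344) : ℝ) ≤ 1 / 10000000 := by norm_num
    linarith
  rcases Nat.lt_or_ge g 566 with h | h
  · refine le_trans ?_ (key 566 le_rfl)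
    apply Finset.sum_le_sum_of_subset_of_nonneg
    · intro x hx
      rw [Finset.mem_range] at hx ⊢
      omega
    · intro i _ _
      exact (FATr_nonneg (F41_ok i)).2
  · exact key g h

theorem F41_FAT (g : ℕ) :
    ∑ h ∈ Finset.range g, (chC * ((F41 h).tG + (F41 h).tJ) + 6 * (F41 h).mJ) ≤
      (fatT g : ℝ) / 2 ^ 20 := by
  show ∑ h ∈ Finset.range g, FATr (F41 h) ≤ (fatT g : ℝ) / 2 ^ 20
  rcases Nat.lt_or_ge g 566 with h | h
  · obtain ⟨r, hr⟩ := rows_get h
    have h1 := (rows_base hr).fat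
    have h2 := (chkF_sound _ _ chkF_ok g r hr).1
    rw [zero_add] at h2
    have h3 : (r.fat : ℝ) ≤ fatT g := by exact_mod_cast h2
    refine h1.trans ?_
    exact div_le_div_of_nonneg_right h3 (by positivity)
  · refine (FAT_tail g h).trans ?_
    apply div_le_div_of_nonneg_right _ (by positivity)
    have h4 := chkF_last
    rw [Bool.and_eq_true] at h4
    have h5 : fatT g = fatT 566 := by
      unfold fatT
      have : min g G1 = min 566 G1 := by
        unfold G1
        omega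
      rw [this]
    have h2 : 47236 ≤ fatT g := by
      rw [h5]
      exact Nat.le_of_ble_eq_true h4.1
    exact_mod_cast h2

theorem MGl_monoT {a b : ℝ} (h : a ≤ b) (i : ℕ) : MGl a i ≤ MGl b i := by
  rw [MGl_one a, MGl_one b]
  exact mul_le_mul_of_nonneg_left h MGl_nonneg

theorem fl_dvdT (g : ℕ) : 32 ∣ fl 8192 g := by
  induction g with
  | zero => exact ⟨256, rfl⟩
  | succ g ih =>
    show 32 ∣ fl 8192 g + 32 * (fl 8192 g / 1024)
    omega

theorem F41_MG (g i : ℕ) (_hg : 1 ≤ g) (hi : fl 8192 g / 32 ≤ i)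
    (hi' : i < fl 8192 (g + 1) / 32) :
    ∑ h ∈ Finset.range g, (F41 h).NG (th 2048 (32 * (i + 1) - 36)) (th 2048 (32 * i - 36)) ≤
      MGl ((lamT g : ℝ) / 2 ^ 20) i := by
  have hd0 := fl_dvdT g
  have hd1 := fl_dvdT (g + 1)
  rcases Nat.lt_or_ge g 566 with h | h
  · obtain ⟨r, hr⟩ := rows_get h
    have h1 := rows_MG hr i (by omega) (by omega)
    have h2 := (chkF_sound _ _ chkF_ok g r hr).2
    rw [zero_add] at h2
    have h3 : (r.lam : ℝ) ≤ lamT g := by exact_mod_cast h2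
    refine h1.trans (MGl_monoT ?_ i)
    exact div_le_div_of_nonneg_right h3 (by positivity)
  · refine (MG_tail2 h hi hi').trans (MGl_monoT ?_ i)
    have h4 := chkF_last
    rw [Bool.and_eq_true] at h4
    have h5 : lamT g = lamT 566 := by
      unfold lamT
      have : min g G1 = min 566 G1 := by
        unfold G1
        omega
      rw [this]
    have h6 : 4195 ≤ lamT g := by
      rw [h5]
      exact Nat.le_of_ble_eq_true h4.2
    have h7 : (4195 : ℝ) ≤ lamT g := by exact_mod_cast h6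
    rw [le_div_iff₀ (by positivity)]
    refine le_trans ?_ h7
    norm_num

end

end Pool.Agent.LibMoserT
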