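import Pool.Agent.LibMoserT.LedOS
import Pool.Agent.LibMoserT.LedTaskF
import Pool.Agent.LibMoserT.LedRz
set_option autoImplicit false
/-!
# Final assembly of the ledger: tables and checks (helper68)

Frames `g < G1 = 566`; windows of frame `g`: `fT g - 20 ≤ j ≤ fT (g + 1) - 21`.
-/
namespace Pool.Agent.LibMoserT

/-- tables of the ledger (packed) -/
structure LTab where
  /-- potentials of the frames (20 bits, unit `2 ^ (-20)`), entries `g < G1`; entry 0 is 0 -/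
  aT : ℕ
  /-- bound of the children of class R (20 bits, unit `2 ^ (-20)`) -/
  rT : ℕ
  /-- bound of the loads of class G over the frames which reach frame `g`
  (20 bits, unit `2 ^ (-20)`) -/
  lT : ℕ
  /-- hints, 10 bits each, see `okH` -/
  f0T : ℕ
  fbT : ℕ
  gbT : ℕ
  gmT : ℕ
  /-- 40 bits: lower bound of the pools of class G which reach the frame -/
  YT : ℕ
  /-- cumulative births of the classes R, G (40 bits, unit `2 ^ (-40)`), entries `1 .. G1` -/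
  brT : ℕ
  bgT : ℕ
  /-- tail: potential of the frames `g ≥ G1`; bound of the potentials and bound of the loads of
  class G of the frames `f ≥ fL` (unit `2 ^ (-20)`) -/
  aE : ℕ
  aL : ℕ
  lL : ℕ
  fL : ℕ
  /-- bound for `5 Sp + 6 mJ0`, unit `2 ^ (-40)` -/
  P0 : ℕ
  /-- bound for `13 (17 / 10000 + mJ0)`, unit `2 ^ (-20)` -/
  JJ : ℕ

namespace LTab
variable (L : LTab)

def a (g : ℕ) : ℕ := bif Nat.blt g G1 then dig L.aT 20 g else L.aE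
def r (g : ℕ) : ℕ := dig L.rT 20 g
def gL (g : ℕ) : ℕ := dig L.lT 20 g
def f0 (g : ℕ) : ℕ := dig L.f0T 10 g
def fb (g : ℕ) : ℕ := dig L.fbT 10 g
def gb (g : ℕ) : ℕ := dig L.gbT 10 g
def gm (g : ℕ) : ℕ := dig L.gmT 10 g
def Y (g : ℕ) : ℕ := dig L.YT 40 g
def br (g : ℕ) : ℕ := dig L.brT 40 g
def bg (g : ℕ) : ℕ := dig L.bgT 40 g

/-- births of class R in frame `F`, unit `2 ^ (-40)`; `l`, `l'` = labels of the frame -/
def incR (l l' aF : ℕ) : ℕ :=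
  (1845 * aF * (l + 110) + 2 ^ 21 * (l - 20)) * (l' - l) * 2 ^ 19 /
    ((l - 20) * (l - 36) * (l' - 36)) + 1

/-- births of class G in frame `F`, unit `2 ^ (-40)` -/
def incG (l l' lF : ℕ) : ℕ :=
  (23400 * lF * (l + 400) + 2 ^ 20 * l) * (l' - l) * 2 ^ 20 / (10 * l * l * l') + 1

/-- **check of the births**, `1 ≤ F < G1` -/
def okB (F : ℕ) : Bool :=
  Nat.ble (L.br F + incR (fT F) (fT (F + 1)) (L.a F)) (L.br (F + 1)) &&
  Nat.ble (L.bg F + incG (fT F) (fT (F + 1)) (lamT F)) (L.bg (F + 1))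

/-- **check of the hints**, `1 ≤ g < G1`: `J3` = cube of the first window, `J4` = cube of
(last window + 1) -/
def okH' (T : OTab) (g J3 J4 f0 fb gb gm Y : ℕ) : Bool :=
  Nat.ble f0 g && (Nat.beq f0 0 || (Nat.ble (fT f0 ^ 4) (12 * J3) &&
    Nat.ble (T.mt (min (f0 - 1) T.GO)) g)) &&
  Nat.ble 1 fb && Nat.ble fb g && (Nat.beq fb g || Nat.ble (108 * J4) ((fT fb - 20) ^ 4)) &&
  Nat.ble 1 gb && Nat.ble gb g && (Nat.beq gb g || Nat.ble (204 * J4) ((fT gb - 36) ^ 4)) &&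
  Nat.ble 1 gm && Nat.ble gm g && (Nat.beq gm 1 || Nat.ble (fT gm ^ 4) (12 * J3)) &&
  Nat.ble gb (gm + 64) &&
  Nat.ble 8192 Y && (Nat.beq Y 8192 || Nat.ble (Y ^ 4) (12 * J3)) &&
  allF (fun f => Nat.ble (lamT f) (L.gL g)) 6 gm (gb - gm)

def okH (T : OTab) (g : ℕ) : Bool :=
  L.okH' T g ((fT g - 20) ^ 3) ((fT (g + 1) - 20) ^ 3) (L.f0 g) (L.fb g) (L.gb g) (L.gm g) (L.Y g)

/-- children of class G, unit `2 ^ (-40)` -/
def tG (gL Y J : ℕ) : ℕ := gL * ((Y + 560) * 2880 * Y + 22528 * J) * 2 ^ 20 / (1920 * Y ^ 2) + 1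

/-- class O -/
def tO (zV zU zB l l' : ℕ) : ℕ :=
  zV * 2048 * 2 ^ 40 / (l - 19) ^ 3 + zU * (l' - 21) / (3 * 2 ^ 24) + 5 * zB / 2 ^ 24 + 3

/-- rounding errors -/
def tK (J l0 : ℕ) : ℕ := 56 * (J + 1) * 2048 * 2 ^ 40 / l0 ^ 3 + 1

/-- constants: `5 Sp + 6 mJ0 + 95 / 10000` -/
def tC : ℕ := L.P0 + 95 * 2 ^ 40 / 10000 + 1

/-- **check of the ledger**, `1 ≤ g < G1` -/
def okL (T : OTab) (Z g : ℕ) : Bool :=
  Nat.ble (L.tC + L.r g * 2 ^ 20 + L.br (L.fb g) + L.bg (L.gb g) +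
    tG (L.gL g) (L.Y g) (fT (g + 1) - 21) +
    tO (T.zV Z g) (T.zU Z g) (T.zB Z g) (fT g) (fT (g + 1)) +
    tK (fT (g + 1) - 21) (fT (L.f0 g)) + fatT g * 2 ^ 20) (L.a g * 2 ^ 20)

/-- **check of the loads**, `1 ≤ g < G1` -/
def okC (T : OTab) (g : ℕ) : Bool :=
  Nat.ble (T.lo g + L.a g + (L.a g * 60 / fT g + 1) + lamT g + L.JJ)
    (bif Nat.blt (fT g) 40000 then 629145 else 943718)

/-- **check of the tail** -/
def okE (T : OTab) (Z : ℕ) : Bool :=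
  Nat.beq (L.a 0) 0 && Nat.ble (T.lo 0 + L.JJ) 629145 &&
  Nat.ble L.aE (2 ^ 20) && Nat.ble L.aE L.aL && Nat.ble (lamT G1) L.lL && Nat.ble L.fL G1 &&
  Nat.ble (T.mt T.GO) G1 &&
  Nat.ble (fT L.fL ^ 4) (12 * (fT G1 - 20) ^ 3) &&
  allF (fun f => Nat.ble (L.a f) L.aL && Nat.ble (lamT f) L.lL) 10 L.fL (G1 - L.fL) &&
  Nat.ble (L.tC + (798 * L.aL * 2 ^ 20 / 1000 + 1) + (151 * L.lL * 2 ^ 20 / 100 + 1) +
    L.br G1 + L.bg G1 + (5 * T.zB Z G1 / 2 ^ 24 + 1) + fatT G1 * 2 ^ 20 + 2 ^ 24)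
    (L.aE * 2 ^ 20) &&
  Nat.ble (L.aE + lamT G1 + L.JJ + 2) 943718

/-- **what the kernel checks** (each field by `allF_spec`, in ranges as convenient) -/
structure Chk (T : OTab) (Z : ℕ) : Prop where
  r : ∀ g, 1 ≤ g → g < G1 → rCheck fT L.a (L.r g) g = true
  b : ∀ g, 1 ≤ g → g < G1 → L.okB g = true
  h : ∀ g, 1 ≤ g → g < G1 → L.okH T g = true
  l : ∀ g, 1 ≤ g → g < G1 → L.okL T Z g = true
  c : ∀ g, 1 ≤ g → g < G1 → L.okC T g = true
  e : L.okE T Z = true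

end LTab

end Pool.Agent.LibMoserT
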