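import Pool.Agent.LibMoserT.LedR
set_option autoImplicit false
/-!
# Ledger: kernel sum of class R, resolved by frames (helper41)
-/
namespace Pool.Agent.LibMoserT
open Pool.Agent.LibMoser5 Pool.Agent.LibMoserF Classical

noncomputable section

/-- clamp to `[v, u]` -/
def clamp (v u x : ℝ) : ℝ := min (max x v) u

theorem clamp_mono (v u : ℝ) {x y : ℝ} (h : x ≤ y) : clamp v u x ≤ clamp v u y := by
  unfold clamp
  exact min_le_min (max_le_max h le_rfl) le_rfl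

theorem kr_tele1c (J1 J2 : ℕ) (h : J1 ≤ J2) :
    ∑ J ∈ Finset.Icc J1 J2, (16 * (J : ℝ) + 16) ^ 3 ≤
      ((16 * (J2 : ℝ) + 24) ^ 4 - (16 * (J1 : ℝ) + 8) ^ 4) / 64 := by
  have key : ∀ x : ℝ, 0 ≤ x → (x + 16) ^ 3 ≤ ((x + 24) ^ 4 - (x + 8) ^ 4) / 64 := by
    intro x hx
    nlinarith
  induction J2, h using Nat.le_induction with
  | base =>
    rw [Finset.Icc_self, Finset.sum_singleton]
    exact key _ (by positivity)
  | succ n hn ih =>
    rw [Finset.sum_Icc_succ_top (by omega)]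
    have h1 := key (16 * ((n + 1 : ℕ) : ℝ)) (by positivity)
    have e : (16 * ((n + 1 : ℕ) : ℝ) + 8) = 16 * (n : ℝ) + 24 := by push_cast; ring
    rw [e] at h1
    linarith

/-- one frame and one residue class: lower edge `a`, upper edge `b` (multiples of 16) -/
theorem kf_fib (S : Finset ℕ) (j i a b : ℕ) (X : ℝ) (hi5 : 5 ≤ i) (hi20 : i ≤ 20) (hX0 : 0 < X)
    (hX : X ^ 4 ≤ 63 * (j : ℝ) ^ 3) (hk : ∀ k ∈ S, 16 * ((k + 20) / 16) = k + i)
    (hlo : ∀ k ∈ S, 3 * ((i : ℝ) - 1) * (j : ℝ) ^ 3 < ((k : ℝ) + i) ^ 4)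
    (hhi : ∀ k ∈ S, (k : ℝ) ^ 4 < 3 * ((i : ℝ) + 16) * ((j : ℝ) + 1) ^ 3)
    (ha : ∀ k ∈ S, a ≤ k + i) (hb : ∀ k ∈ S, k + i + 16 ≤ b) (hab : a ≤ b) :
    ∑ k ∈ S, (((k : ℝ) + i) + 16) ^ 3 ≤
      (clamp (3 * ((i : ℝ) - 1) * (j : ℝ) ^ 3)
        (3 * ((i : ℝ) + 16) * (1 + 44 / X) ^ 4 * ((j : ℝ) + 1) ^ 3) (((b : ℝ) + 8) ^ 4) -
      clamp (3 * ((i : ℝ) - 1) * (j : ℝ) ^ 3)
        (3 * ((i : ℝ) + 16) * (1 + 44 / X) ^ 4 * ((j : ℝ) + 1) ^ 3) (((a : ℝ) + 8) ^ 4)) / 64 := by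
  have hi5' : (5 : ℝ) ≤ i := by exact_mod_cast hi5
  have hi20' : (i : ℝ) ≤ 20 := by exact_mod_cast hi20
  have hj0 : (0 : ℝ) ≤ j := Nat.cast_nonneg _
  have hj3 : (j : ℝ) ^ 3 ≤ ((j : ℝ) + 1) ^ 3 := pow_le_pow_left₀ hj0 (by linarith) 3
  have hab' : (a : ℝ) ≤ b := by exact_mod_cast hab
  have ha0 : (0 : ℝ) ≤ a := Nat.cast_nonneg _
  have hmono : clamp (3 * ((i : ℝ) - 1) * (j : ℝ) ^ 3)
        (3 * ((i : ℝ) + 16) * (1 + 44 / X) ^ 4 * ((j : ℝ) + 1) ^ 3) (((a : ℝ) + 8) ^ 4) ≤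
      clamp (3 * ((i : ℝ) - 1) * (j : ℝ) ^ 3)
        (3 * ((i : ℝ) + 16) * (1 + 44 / X) ^ 4 * ((j : ℝ) + 1) ^ 3) (((b : ℝ) + 8) ^ 4) :=
    clamp_mono _ _ (pow_le_pow_left₀ (by positivity) (by linarith) 4)
  rcases S.eq_empty_or_nonempty with rfl | hne
  · rw [Finset.sum_empty]
    linarith
  · set f : ℕ → ℕ := fun k => (k + 20) / 16 with hf
    have hinj : Set.InjOn f S := by
      intro x hx y hy hxy
      have h1 := hk x hx
      have h2 := hk y hy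
      simp only [hf] at hxy
      omega
    have hsum : ∑ k ∈ S, (((k : ℝ) + i) + 16) ^ 3 = ∑ J ∈ S.image f, (16 * (J : ℝ) + 16) ^ 3 := by
      rw [Finset.sum_image hinj]
      refine Finset.sum_congr rfl fun k hk' => ?_
      have h1 := hk k hk'
      have h2 : (16 : ℝ) * ((f k : ℕ) : ℝ) = (k : ℝ) + i := by exact_mod_cast h1
      rw [h2]
    rw [hsum]
    have hneT : (S.image f).Nonempty := hne.image f
    set J1 := (S.image f).min' hneT with hJ1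
    set J2 := (S.image f).max' hneT with hJ2
    have h1 : J1 ∈ S.image f := Finset.min'_mem _ _
    have h2 : J2 ∈ S.image f := Finset.max'_mem _ _
    obtain ⟨k1, hk1, hk1'⟩ := Finset.mem_image.1 h1
    obtain ⟨k2, hk2, hk2'⟩ := Finset.mem_image.1 h2
    have h12 : J1 ≤ J2 := Finset.min'_le _ _ h2
    have hbd : ∑ J ∈ S.image f, (16 * (J : ℝ) + 16) ^ 3 ≤
        ((16 * (J2 : ℝ) + 24) ^ 4 - (16 * (J1 : ℝ) + 8) ^ 4) / 64 := by
      refine le_trans ?_ (kr_tele1c J1 J2 h12)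
      refine Finset.sum_le_sum_of_subset_of_nonneg ?_ (fun J _ _ => by positivity)
      intro J hJ
      exact Finset.mem_Icc.2 ⟨Finset.min'_le _ _ hJ, Finset.le_max' _ _ hJ⟩
    refine hbd.trans ?_
    have e1 : (16 : ℝ) * (J1 : ℝ) = (k1 : ℝ) + i := by
      have := hk k1 hk1
      rw [← hk1']
      exact_mod_cast this
    have e2 : (16 : ℝ) * (J2 : ℝ) = (k2 : ℝ) + i := by
      have := hk k2 hk2
      rw [← hk2']
      exact_mod_cast this
    have h12r : (J1 : ℝ) ≤ J2 := by exact_mod_cast h12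
    have hJ10 : (0 : ℝ) ≤ J1 := Nat.cast_nonneg _
    have hk10 : (0 : ℝ) ≤ k1 := Nat.cast_nonneg _
    have hk20 : (0 : ℝ) ≤ k2 := Nat.cast_nonneg _
    have hlow : 3 * ((i : ℝ) - 1) * (j : ℝ) ^ 3 ≤ (16 * (J1 : ℝ) + 8) ^ 4 := by
      rw [e1]
      exact (hlo k1 hk1).le.trans (pow_le_pow_left₀ (by positivity) (by linarith) 4)
    have halow : ((a : ℝ) + 8) ^ 4 ≤ (16 * (J1 : ℝ) + 8) ^ 4 := by
      rw [e1]
      have := ha k1 hk1
      have h3 : (a : ℝ) ≤ (k1 : ℝ) + i := by exact_mod_cast this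
      exact pow_le_pow_left₀ (by positivity) (by linarith) 4
    have hbup : (16 * (J2 : ℝ) + 24) ^ 4 ≤ ((b : ℝ) + 8) ^ 4 := by
      rw [e2]
      have := hb k2 hk2
      have h3 : (k2 : ℝ) + i + 16 ≤ b := by exact_mod_cast this
      exact pow_le_pow_left₀ (by positivity) (by linarith) 4
    have hhigh : (16 * (J2 : ℝ) + 24) ^ 4 ≤
        3 * ((i : ℝ) + 16) * (1 + 44 / X) ^ 4 * ((j : ℝ) + 1) ^ 3 := by
      rw [e2]
      refine (pow_le_pow_left₀ (by positivity) (by linarith : (k2 : ℝ) + i + 24 ≤ k2 + 44) 4).trans ?_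
      rcases le_total X k2 with hc | hc
      · have hkp : 0 < (k2 : ℝ) := lt_of_lt_of_le hX0 hc
        have h5 : (k2 : ℝ) + 44 ≤ k2 * (1 + 44 / X) := by
          have : 44 ≤ (k2 : ℝ) * (44 / X) := by
            rw [mul_div_assoc', le_div_iff₀ hX0]
            nlinarith
          linarith
        refine (pow_le_pow_left₀ (by positivity) h5 4).trans ?_
        rw [mul_pow]
        have h6 := (hhi k2 hk2).le
        have h7 : (0 : ℝ) ≤ (1 + 44 / X) ^ 4 := by positivity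
        nlinarith [mul_le_mul_of_nonneg_right h6 h7]
      · have h5 : (k2 : ℝ) + 44 ≤ X * (1 + 44 / X) := by
          have : X * (1 + 44 / X) = X + 44 := by field_simp
          linarith
        refine (pow_le_pow_left₀ (by positivity) h5 4).trans ?_
        rw [mul_pow]
        have h7 : (0 : ℝ) ≤ (1 + 44 / X) ^ 4 := by positivity
        have h8 : X ^ 4 ≤ 3 * ((i : ℝ) + 16) * ((j : ℝ) + 1) ^ 3 := by
          refine hX.trans ?_
          exact mul_le_mul (by linarith) hj3 (by positivity) (by positivity)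
        nlinarith [mul_le_mul_of_nonneg_right h8 h7]
    have hlt : (16 * (J1 : ℝ) + 8) ^ 4 ≤ (16 * (J2 : ℝ) + 24) ^ 4 :=
      pow_le_pow_left₀ (by positivity) (by linarith) 4
    unfold clamp
    rw [max_eq_left (by linarith : 3 * ((i : ℝ) - 1) * (j : ℝ) ^ 3 ≤ ((b : ℝ) + 8) ^ 4)]
    have h9 : (16 * (J2 : ℝ) + 24) ^ 4 ≤ min (((b : ℝ) + 8) ^ 4)
        (3 * ((i : ℝ) + 16) * (1 + 44 / X) ^ 4 * ((j : ℝ) + 1) ^ 3) := le_min hbup hhigh
    have h10 : min (max (((a : ℝ) + 8) ^ 4) (3 * ((i : ℝ) - 1) * (j : ℝ) ^ 3))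
        (3 * ((i : ℝ) + 16) * (1 + 44 / X) ^ 4 * ((j : ℝ) + 1) ^ 3) ≤ (16 * (J1 : ℝ) + 8) ^ 4 :=
      (min_le_left _ _).trans (max_le halow hlow)
    linarith

/-- position data of a window which reaches `j` -/
theorem kr_dat {q : ℝ} (hq : 0 < q) {k j i : ℕ} (hk : 8172 ≤ k) (hj : 1 ≤ j) (h : Reach q k j)
    (hi : kpR k = k + i) :
    3 * ((i : ℝ) - 1) * (j : ℝ) ^ 3 < ((k : ℝ) + i) ^ 4 ∧
      (k : ℝ) ^ 4 < 3 * ((i : ℝ) + 16) * ((j : ℝ) + 1) ^ 3 := by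
  obtain ⟨hr1, hr2⟩ := h
  obtain ⟨h5, h20⟩ := kpR_spec k
  rw [hi] at hr1 hr2 h5 h20
  have hk0 : (8172 : ℝ) ≤ k := by exact_mod_cast hk
  have hi5 : (5 : ℝ) ≤ i := by
    have : 5 ≤ i := by omega
    exact_mod_cast this
  constructor
  · have h := kr_lo (a := (k : ℝ) + 1) (b := (k : ℝ) + i) hq (by linarith) (by linarith)
      hj (by
        unfold th at hr2
        push_cast at hr2
        exact hr2)
    have e : (k : ℝ) + i - (k + 1) = i - 1 := by ring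
    rw [e] at h
    exact h
  · have h := kr_hi (a := (k : ℝ)) (b := (k : ℝ) + i + 16) hq (by linarith) (by linarith) (by
        unfold th at hr1
        push_cast at hr1
        exact hr1)
    have e : (k : ℝ) + i + 16 - k = i + 16 := by ring
    rw [e] at h
    exact h

theorem kr_Y {q : ℝ} (hq : 0 < q) {k j : ℕ} (hk : 8172 ≤ k) (hj : 1 ≤ j) (h : Reach q k j) {Y : ℝ}
    (hY : ∀ K : ℕ, 8177 ≤ K → 12 * (j : ℝ) ^ 3 < (K : ℝ) ^ 4 → 16 ∣ K → Y ≤ K) :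
    Y ≤ (kpR k : ℝ) := by
  obtain ⟨h5, h20⟩ := kpR_spec k
  obtain ⟨i, hi⟩ : ∃ i, kpR k = k + i := ⟨kpR k - k, by omega⟩
  obtain ⟨d1, d2⟩ := kr_dat hq hk hj h hi
  refine hY _ (by omega) ?_ ⟨(k + 20) / 16, rfl⟩
  have h1 : 12 * (j : ℝ) ^ 3 ≤ 3 * ((i : ℝ) - 1) * (j : ℝ) ^ 3 := by
    apply mul_le_mul_of_nonneg_right _ (by positivity)
    have : (5 : ℝ) ≤ i := by
      have : 5 ≤ i := by omega
      exact_mod_cast this
    linarith
  have h2 : ((kpR k : ℕ) : ℝ) = (k : ℝ) + i := by rw [hi]; push_cast; rfl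
  rw [h2]
  linarith

theorem kr_inv {q : ℝ} (hq : 0 < q) {j : ℕ} (hj : 1 ≤ j) {Y : ℝ} (hY0 : 8192 ≤ Y)
    (hY : ∀ K : ℕ, 8177 ≤ K → 12 * (j : ℝ) ^ 3 < (K : ℝ) ^ 4 → 16 ∣ K → Y ≤ K) (S : Finset ℕ)
    (hS : ∀ k ∈ S, 8172 ≤ k ∧ Reach q k j) :
    ∑ k ∈ S, 1 / (kpR k : ℝ) ^ 3 ≤ 16 / (32 * (Y - 16) ^ 2) := by
  have hmaps : ∀ k ∈ S, (kpR k - k) ∈ Finset.Icc 5 20 := by
    intro k _
    obtain ⟨h5, h20⟩ := kpR_spec k
    rw [Finset.mem_Icc]
    omega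
  rw [← Finset.sum_fiberwise_of_maps_to hmaps]
  have hb : ∀ i ∈ Finset.Icc 5 20,
      ∑ k ∈ S.filter (fun k => kpR k - k = i), 1 / (kpR k : ℝ) ^ 3 ≤
      1 / (32 * (Y - 16) ^ 2) := by
    intro i hi
    have hKi : ∀ k ∈ S.filter (fun k => kpR k - k = i), kpR k = k + i := by
      intro k hk
      rw [Finset.mem_filter] at hk
      obtain ⟨h5, h20⟩ := kpR_spec k
      omega
    have := kr_fib2 (S.filter (fun k => kpR k - k = i)) i Y hY0 hKi
      (fun k hk => by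
        have hm := hS k (Finset.mem_filter.1 hk).1
        have h1 := kr_Y hq hm.1 hj hm.2 hY
        rw [hKi k hk] at h1
        push_cast at h1
        exact h1)
    refine le_trans (le_of_eq ?_) this
    refine Finset.sum_congr rfl fun k hk => ?_
    rw [hKi k hk]
    push_cast
    rfl
  refine (Finset.sum_le_sum hb).trans (le_of_eq ?_)
  rw [Finset.sum_const, Nat.card_Icc]
  simp only [Nat.reduceAdd, Nat.reduceSub, nsmul_eq_mul]
  push_cast
  ring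

/-- lower and upper end (fourth powers) of the range of residue class `i` -/
def Vi (j i : ℕ) : ℝ := 3 * ((i : ℝ) - 1) * (j : ℝ) ^ 3
def Ui (X : ℝ) (j i : ℕ) : ℝ := 3 * ((i : ℝ) + 16) * (1 + 44 / X) ^ 4 * ((j : ℝ) + 1) ^ 3

/-- total weight of the fourth powers below `x` -/
def GG (X : ℝ) (j : ℕ) (x : ℝ) : ℝ := ∑ i ∈ Finset.Icc (5 : ℕ) 20, clamp (Vi j i) (Ui X j i) x

theorem GG_mono (X : ℝ) (j : ℕ) {x y : ℝ} (h : x ≤ y) : GG X j x ≤ GG X j y :=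
  Finset.sum_le_sum fun _ _ => clamp_mono _ _ h

/-- one frame -/
theorem kf_frame {q : ℝ} (hq : 0 < q) {j a b : ℕ} (hj : 1 ≤ j) {X : ℝ} (hX0 : 0 < X)
    (hX : X ^ 4 ≤ 63 * (j : ℝ) ^ 3) (ha : 8192 ≤ a) (ha16 : 16 ∣ a) (hb16 : 16 ∣ b) (hab : a ≤ b) :
    ∑ k ∈ (Finset.Ico (a - 20) (b - 20)).filter (fun k => Reach q k j),
      ((kpR k : ℝ) + 16) ^ 3 ≤
      (GG X j (((b : ℝ) + 8) ^ 4) - GG X j (((a : ℝ) + 8) ^ 4)) / 64 := by
  set S := (Finset.Ico (a - 20) (b - 20)).filter (fun k => Reach q k j) with hS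
  have hmem : ∀ k ∈ S, a - 20 ≤ k ∧ k < b - 20 ∧ Reach q k j := by
    intro k hk
    rw [hS, Finset.mem_filter, Finset.mem_Ico] at hk
    exact ⟨hk.1.1, hk.1.2, hk.2⟩
  have hmaps : ∀ k ∈ S, (kpR k - k) ∈ Finset.Icc 5 20 := by
    intro k _
    obtain ⟨h5, h20⟩ := kpR_spec k
    rw [Finset.mem_Icc]
    omega
  rw [← Finset.sum_fiberwise_of_maps_to hmaps]
  unfold GG
  rw [← Finset.sum_sub_distrib, Finset.sum_div]
  refine Finset.sum_le_sum fun i hi => ?_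
  rw [Finset.mem_Icc] at hi
  have hKi : ∀ k ∈ S.filter (fun k => kpR k - k = i), kpR k = k + i := by
    intro k hk
    rw [Finset.mem_filter] at hk
    obtain ⟨h5, h20⟩ := kpR_spec k
    omega
  have hd : ∀ k ∈ S.filter (fun k => kpR k - k = i), a ≤ k + i ∧ k + i + 16 ≤ b := by
    intro k hk
    have h1 := hmem k (Finset.mem_filter.1 hk).1
    have h2 := hKi k hk
    unfold kpR at h2
    obtain ⟨c, hc⟩ := ha16
    obtain ⟨d, hd⟩ := hb16
    omega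
  have := kf_fib (S.filter (fun k => kpR k - k = i)) j i a b X hi.1 hi.2 hX0 hX hKi
    (fun k hk => (kr_dat hq (by
      have := (hmem k (Finset.mem_filter.1 hk).1).1
      omega) hj (hmem k (Finset.mem_filter.1 hk).1).2.2 (hKi k hk)).1)
    (fun k hk => (kr_dat hq (by
      have := (hmem k (Finset.mem_filter.1 hk).1).1
      omega) hj (hmem k (Finset.mem_filter.1 hk).1).2.2 (hKi k hk)).2)
    (fun k hk => (hd k hk).1) (fun k hk => (hd k hk).2) hab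
  refine le_trans (le_of_eq ?_) this
  refine Finset.sum_congr rfl fun k hk => ?_
  rw [hKi k hk]
  push_cast
  rfl

/-- **KERNEL SUM**, class R, resolved by frames -/
theorem KF_sum {q : ℝ} (hq : 0 < q) (hq4 : q ≤ 4096) {j : ℕ} (hj : 34000 ≤ j) {X Y c : ℝ}
    (hX0 : 0 < X) (hX : X ^ 4 ≤ 63 * (j : ℝ) ^ 3) (hY0 : 8192 ≤ Y)
    (hY : ∀ K : ℕ, 8177 ≤ K → 12 * (j : ℝ) ^ 3 < (K : ℝ) ^ 4 → 16 ∣ K → Y ≤ K)
    (hc : q * j ≤ 96 * c * (Y - 16) ^ 2) (l : ℕ → ℕ) (hl : ∀ f, 8192 ≤ l f) (hld : ∀ f, 16 ∣ l f)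
    (hlm : ∀ f, l f ≤ l (f + 1)) (A a : ℕ → ℝ) (hA0 : ∀ k, 0 ≤ A k) (ha0 : ∀ f, 0 ≤ a f)
    (hA : ∀ f k, l f - 20 ≤ k → k < l (f + 1) - 20 → A k ≤ a f) (M : ℝ) (hM0 : 0 ≤ M)
    (hM : ∀ k, 8172 ≤ k → 12 * j ^ 3 < (k + 20) ^ 4 → k ^ 4 < 108 * (j + 1) ^ 3 → A k ≤ M)
    (n : ℕ) :
    ∑ f ∈ Finset.range n, ∑ k ∈ Finset.Ico (l f - 20) (l (f + 1) - 20), A k * wR q k j ≤
      (1 + 54 / Y) * (1 + 100 / Y) *
        ((∑ f ∈ Finset.range n, a f *
          (GG X j (((l (f + 1) : ℝ) + 8) ^ 4) - GG X j (((l f : ℝ) + 8) ^ 4))) /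
            (1024 * ((j : ℝ) + 1) ^ 3) + c * M) := by
  have hj0 : (34000 : ℝ) ≤ j := by exact_mod_cast hj
  have hjp : (0 : ℝ) < j := by linarith
  have hYp : (0 : ℝ) < Y := by linarith
  set C0 : ℝ := (1 + 54 / Y) * (1 + 100 / Y) with hC0
  have hC0p : 0 ≤ C0 := by positivity
  set S : ℕ → Finset ℕ := fun f =>
    (Finset.Ico (l f - 20) (l (f + 1) - 20)).filter (fun k => Reach q k j) with hS
  have hmem : ∀ f, ∀ k ∈ S f, l f - 20 ≤ k ∧ k < l (f + 1) - 20 ∧ Reach q k j := by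
    intro f k hk
    rw [hS, Finset.mem_filter, Finset.mem_Ico] at hk
    exact ⟨hk.1.1, hk.1.2, hk.2⟩
  -- one frame
  have h1 : ∀ f, ∑ k ∈ Finset.Ico (l f - 20) (l (f + 1) - 20), A k * wR q k j ≤
      C0 * (a f * (GG X j (((l (f + 1) : ℝ) + 8) ^ 4) - GG X j (((l f : ℝ) + 8) ^ 4)) /
          (1024 * ((j : ℝ) + 1) ^ 3)) +
        C0 * M * (q * j / 48) * ∑ k ∈ S f, 1 / (kpR k : ℝ) ^ 3 := by
    intro f
    have e1 : ∑ k ∈ Finset.Ico (l f - 20) (l (f + 1) - 20), A k * wR q k j =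
        ∑ k ∈ S f, A k * wgt q k j := by
      rw [hS, Finset.sum_filter]
      refine Finset.sum_congr rfl fun k _ => ?_
      unfold wR
      split_ifs <;> simp
    rw [e1]
    have h2 : ∀ k ∈ S f, A k * wgt q k j ≤
        C0 / (16 * ((j : ℝ) + 1) ^ 3) * a f * ((kpR k : ℝ) + 16) ^ 3 +
          C0 * M * (q * j / 48) * (1 / (kpR k : ℝ) ^ 3) := by
      intro k hk
      obtain ⟨k1, k2, k3⟩ := hmem f k hk
      have hk8 : 8172 ≤ k := by
        have := hl f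
        omega
      have hYk := kr_Y hq hk8 (by omega : 1 ≤ j) k3 hY
      have hw := kr_wgt hq hq4 hk8 hj k3 hY0 hYk
      obtain ⟨r1, r2⟩ := kr_range hq hk8 (by omega : 1 ≤ j) k3
      have hAa := hA f k k1 k2
      have hAM := hM k hk8 r1 r2
      have hKp : (0 : ℝ) < (kpR k : ℝ) := by linarith
      refine (mul_le_mul_of_nonneg_left hw (hA0 k)).trans ?_
      have hp1 : 0 ≤ ((kpR k : ℝ) + 16) ^ 3 / ((j : ℝ) + 1) ^ 3 := by positivity
      have hp2 : 0 ≤ q * j / 3 * (1 / (kpR k : ℝ) ^ 3) := by positivity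
      have hc1 : 0 ≤ 1 / 16 * C0 := by positivity
      have e2 : A k * (1 / 16 * (1 + 54 / Y) * (1 + 100 / Y) *
          (((kpR k : ℝ) + 16) ^ 3 / ((j : ℝ) + 1) ^ 3 + q * j / 3 * (1 / (kpR k : ℝ) ^ 3))) =
          1 / 16 * C0 * (A k * (((kpR k : ℝ) + 16) ^ 3 / ((j : ℝ) + 1) ^ 3) +
            A k * (q * j / 3 * (1 / (kpR k : ℝ) ^ 3))) := by
        rw [hC0]; ring
      rw [e2]
      have e3 : C0 / (16 * ((j : ℝ) + 1) ^ 3) * a f * ((kpR k : ℝ) + 16) ^ 3 +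
          C0 * M * (q * j / 48) * (1 / (kpR k : ℝ) ^ 3) =
          1 / 16 * C0 * (a f * (((kpR k : ℝ) + 16) ^ 3 / ((j : ℝ) + 1) ^ 3) +
            M * (q * j / 3 * (1 / (kpR k : ℝ) ^ 3))) := by
        field_simp
        ring
      rw [e3]
      apply mul_le_mul_of_nonneg_left _ hc1
      exact add_le_add (mul_le_mul_of_nonneg_right hAa hp1) (mul_le_mul_of_nonneg_right hAM hp2)
    refine (Finset.sum_le_sum h2).trans ?_
    rw [Finset.sum_add_distrib, ← Finset.mul_sum, ← Finset.mul_sum]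
    apply add_le_add_left
    have h3 := kf_frame hq (by omega : 1 ≤ j) hX0 hX (hl f) (hld f) (hld (f + 1)) (hlm f)
    have hc2 : 0 ≤ C0 / (16 * ((j : ℝ) + 1) ^ 3) * a f := by
      have := ha0 f
      positivity
    refine (mul_le_mul_of_nonneg_left h3 hc2).trans (le_of_eq ?_)
    field_simp
    ring
  have hinv : ∑ f ∈ Finset.range n, ∑ k ∈ S f, 1 / (kpR k : ℝ) ^ 3 ≤ 16 / (32 * (Y - 16) ^ 2) := by
    have hdisj : ∀ f ∈ Finset.range n, ∀ g ∈ Finset.range n, f ≠ g → Disjoint (S f) (S g) := by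
      have hmono : ∀ f g, f < g → l (f + 1) ≤ l g := by
        intro f g hfg
        exact monotone_nat_of_le_succ hlm hfg
      intro f _ g _ hfg
      rw [Finset.disjoint_left]
      intro k hk1 hk2
      have a1 := hmem f k hk1
      have a2 := hmem g k hk2
      rcases lt_or_gt_of_ne hfg with h | h
      · have := hmono f g h
        omega
      · have := hmono g f h
        omega
    rw [← Finset.sum_biUnion (fun f hf g hg hfg => hdisj f hf g hg hfg)]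
    refine kr_inv hq (by omega : 1 ≤ j) hY0 hY _ ?_
    intro k hk
    rw [Finset.mem_biUnion] at hk
    obtain ⟨f, _, hk⟩ := hk
    obtain ⟨k1, k2, k3⟩ := hmem f k hk
    have := hl f
    exact ⟨by omega, k3⟩
  refine (Finset.sum_le_sum fun f _ => h1 f).trans ?_
  rw [Finset.sum_add_distrib, ← Finset.mul_sum, ← Finset.mul_sum, ← Finset.sum_div]
  have hY16 : (0 : ℝ) < (Y - 16) ^ 2 := by
    have : 0 < Y - 16 := by linarith
    positivity
  have h4 : C0 * M * (q * j / 48) * ∑ f ∈ Finset.range n, ∑ k ∈ S f, 1 / (kpR k : ℝ) ^ 3 ≤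
      C0 * (c * M) := by
    have hcoef : 0 ≤ C0 * M * (q * j / 48) := by positivity
    refine (mul_le_mul_of_nonneg_left hinv hcoef).trans ?_
    have e5 : C0 * M * (q * j / 48) * (16 / (32 * (Y - 16) ^ 2)) =
        C0 * M * ((q * j) / (96 * (Y - 16) ^ 2)) := by
      field_simp
      ring
    rw [e5]
    have h6 : (q * j) / (96 * (Y - 16) ^ 2) ≤ c := by
      rw [div_le_iff₀ (by positivity)]
      linarith
    have h7 := mul_le_mul_of_nonneg_left h6 (mul_nonneg hC0p hM0)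
    linarith
  calc _ ≤ C0 * ((∑ f ∈ Finset.range n, a f *
          (GG X j (((l (f + 1) : ℝ) + 8) ^ 4) - GG X j (((l f : ℝ) + 8) ^ 4))) /
            (1024 * ((j : ℝ) + 1) ^ 3)) + C0 * (c * M) := add_le_add_right h4 _
    _ = _ := by ring

end

end Pool.Agent.LibMoserT
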