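import Pool.Agent.LibMoserT.LedKF
set_option autoImplicit false
/-!
# Ledger: kernel sum of class R, uniform over a zone of windows (helper41)
-/
namespace Pool.Agent.LibMoserT
open Pool.Agent.LibMoser5 Pool.Agent.LibMoserF Classical

noncomputable section

theorem clamp_len_anti {V V' u x y : ℝ} (h : V' ≤ V) (hxy : x ≤ y) :
    clamp V u y - clamp V u x ≤ clamp V' u y - clamp V' u x := by
  simp only [clamp, min_def, max_def]
  split_ifs <;> linarith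

theorem clamp_len_mono {v U U' x y : ℝ} (h : U ≤ U') (hxy : x ≤ y) :
    clamp v U y - clamp v U x ≤ clamp v U' y - clamp v U' x := by
  simp only [clamp, min_def, max_def]
  split_ifs <;> linarith

theorem clamp_scale {T : ℝ} (hT : 0 < T) (v u x : ℝ) :
    clamp (v * T) (u * T) x = clamp v u (x / T) * T := by
  unfold clamp
  rw [min_mul_of_nonneg _ _ hT.le, max_mul_of_nonneg _ _ hT.le, div_mul_cancel₀ _ hT.ne']

theorem clamp_low {v u x : ℝ} (h : x ≤ v) (hvu : v ≤ u) : clamp v u x = v := by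
  unfold clamp
  rw [max_eq_right h, min_eq_left hvu]

theorem clamp_high {v u x : ℝ} (h : u ≤ x) : clamp v u x = u := by
  unfold clamp
  exact min_eq_right (h.trans (le_max_left _ _))

theorem clamp_le {v u x : ℝ} : clamp v u x ≤ u := min_le_right _ _

theorem le_clamp {v u x : ℝ} (hvu : v ≤ u) : v ≤ clamp v u x := le_min (le_max_right _ _) hvu

/-- ends of the residue classes, relative to `(j + 1)^3` -/
def vz (ν : ℝ) (i : ℕ) : ℝ := 3 * ((i : ℝ) - 1) * ν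
def uz (h : ℝ) (i : ℕ) : ℝ := 3 * ((i : ℝ) + 16) * h

def HH (ν h x : ℝ) : ℝ := ∑ i ∈ Finset.Icc (5 : ℕ) 20, clamp (vz ν i) (uz h i) x

theorem HH_mono (ν h : ℝ) {x y : ℝ} (hxy : x ≤ y) : HH ν h x ≤ HH ν h y :=
  Finset.sum_le_sum fun _ _ => clamp_mono _ _ hxy

theorem vz_le_uz {ν h : ℝ} (hν : ν ≤ 1) (hh : 1 ≤ h) {i : ℕ} (hi : 5 ≤ i) : vz ν i ≤ uz h i := by
  unfold vz uz
  have : (5 : ℝ) ≤ i := by exact_mod_cast hi
  nlinarith

theorem sum_vz (ν : ℝ) : ∑ i ∈ Finset.Icc (5 : ℕ) 20, vz ν i = 552 * ν := by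
  unfold vz
  norm_num [Finset.sum_Icc_succ_top]
  ring

theorem sum_uz (h : ℝ) : ∑ i ∈ Finset.Icc (5 : ℕ) 20, uz h i = 1368 * h := by
  unfold uz
  norm_num [Finset.sum_Icc_succ_top]
  ring

theorem HH_low {ν h x : ℝ} (hν0 : 0 ≤ ν) (hν : ν ≤ 1) (hh : 1 ≤ h) (hx : x ≤ 12 * ν) :
    HH ν h x = 552 * ν := by
  rw [← sum_vz]
  unfold HH
  refine Finset.sum_congr rfl fun i hi => ?_
  rw [Finset.mem_Icc] at hi
  apply clamp_low _ (vz_le_uz hν hh hi.1)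
  unfold vz
  have : (5 : ℝ) ≤ i := by exact_mod_cast hi.1
  nlinarith

theorem HH_high {ν h x : ℝ} (hh : 1 ≤ h) (hx : 108 * h ≤ x) : HH ν h x = 1368 * h := by
  rw [← sum_uz]
  unfold HH
  refine Finset.sum_congr rfl fun i hi => ?_
  rw [Finset.mem_Icc] at hi
  apply clamp_high
  unfold uz
  have : (i : ℝ) ≤ 20 := by exact_mod_cast hi.2
  nlinarith

theorem HH_le (ν h x : ℝ) : HH ν h x ≤ 1368 * h := by
  rw [← sum_uz]
  exact Finset.sum_le_sum fun _ _ => clamp_le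

theorem le_HH {ν h : ℝ} (hν : ν ≤ 1) (hh : 1 ≤ h) (x : ℝ) : 552 * ν ≤ HH ν h x := by
  rw [← sum_vz]
  refine Finset.sum_le_sum fun i hi => ?_
  rw [Finset.mem_Icc] at hi
  exact le_clamp (vz_le_uz hν hh hi.1)

theorem GG_HH {X ν h : ℝ} {j : ℕ} (hν : ν * ((j : ℝ) + 1) ^ 3 ≤ (j : ℝ) ^ 3)
    (hh : (1 + 44 / X) ^ 4 ≤ h) {x y : ℝ} (hxy : x ≤ y) :
    GG X j y - GG X j x ≤
      (HH ν h (y / ((j : ℝ) + 1) ^ 3) - HH ν h (x / ((j : ℝ) + 1) ^ 3)) * ((j : ℝ) + 1) ^ 3 := by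
  have hT : 0 < ((j : ℝ) + 1) ^ 3 := by positivity
  unfold GG HH
  rw [← Finset.sum_sub_distrib, ← Finset.sum_sub_distrib, Finset.sum_mul]
  refine Finset.sum_le_sum fun i hi => ?_
  rw [Finset.mem_Icc] at hi
  have hi5 : (5 : ℝ) ≤ i := by exact_mod_cast hi.1
  rw [sub_mul, ← clamp_scale hT, ← clamp_scale hT]
  have h1 : vz ν i * ((j : ℝ) + 1) ^ 3 ≤ Vi j i := by
    unfold vz Vi
    have : 0 ≤ 3 * ((i : ℝ) - 1) := by linarith
    nlinarith [mul_le_mul_of_nonneg_left hν this]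
  have h2 : Ui X j i ≤ uz h i * ((j : ℝ) + 1) ^ 3 := by
    unfold uz Ui
    apply mul_le_mul_of_nonneg_right _ hT.le
    exact mul_le_mul_of_nonneg_left hh (by linarith)
  exact (clamp_len_anti h1 hxy).trans (clamp_len_mono h2 hxy)

/-- Abel summation -/
theorem abel (a h : ℕ → ℝ) (s n : ℕ) :
    ∑ f ∈ Finset.Ico s (s + n + 1), a f * (h (f + 1) - h f) =
      a (s + n) * h (s + n + 1) - a s * h s +
        ∑ f ∈ Finset.Ico (s + 1) (s + n + 1), (a (f - 1) - a f) * h f := by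
  induction n with
  | zero =>
    simp
    ring
  | succ n ih =>
    rw [show s + (n + 1) + 1 = (s + n + 1) + 1 by ring, Finset.sum_Ico_succ_top (by omega), ih,
      Finset.sum_Ico_succ_top (by omega : s + 1 ≤ s + n + 1)]
    have : s + n + 1 - 1 = s + n := by omega
    rw [this, show s + (n + 1) = s + n + 1 by ring]
    ring

/-- bound of one Abel term -/
def abt (d p m : ℝ) : ℝ := if 0 ≤ d then d * p else d * m

theorem abt_ge {d x p m : ℝ} (h1 : x ≤ p) (h2 : m ≤ x) : d * x ≤ abt d p m := by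
  unfold abt
  split_ifs with h
  · exact mul_le_mul_of_nonneg_left h1 h
  · exact mul_le_mul_of_nonpos_left h2 (by linarith)

/-- the kernel sum of a zone: frames `s ≤ f < s + n + 1` -/
theorem zone_sum {ν h J0 J1 T : ℝ} (hν0 : 0 ≤ ν) (hν : ν ≤ 1) (hh : 1 ≤ h) (hJ0 : 0 < J0)
    (hT0 : J0 ≤ T) (hT1 : T ≤ J1) (e a : ℕ → ℝ) (he0 : ∀ f, 0 ≤ e f) (he : ∀ f, e f ≤ e (f + 1))
    (ha0 : ∀ f, 0 ≤ a f) (s n N : ℕ) (hN : s + n + 1 ≤ N)
    (hs : s = 0 ∧ a 0 = 0 ∨ e s ≤ 12 * ν * J0) (ht : 108 * h * J1 ≤ e (s + n + 1)) :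
    ∑ f ∈ Finset.range N, a f * (HH ν h (e (f + 1) / T) - HH ν h (e f / T)) ≤
      a (s + n) * (1368 * h) - a s * (552 * ν) +
        ∑ f ∈ Finset.Ico (s + 1) (s + n + 1),
          abt (a (f - 1) - a f) (HH ν h (e f / J0)) (HH ν h (e f / J1)) := by
  have hT : 0 < T := lt_of_lt_of_le hJ0 hT0
  have hJ1 : 0 < J1 := lt_of_lt_of_le hT hT1
  have hmono : ∀ f g, f ≤ g → e f ≤ e g := fun f g hfg => monotone_nat_of_le_succ he hfg
  have hlow : ∀ f, f < s → HH ν h (e (f + 1) / T) - HH ν h (e f / T) = 0 := by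
    intro f hf
    rcases hs with ⟨h0, _⟩ | hs
    · omega
    · have h1 : ∀ g, g ≤ s → HH ν h (e g / T) = 552 * ν := by
        intro g hg
        apply HH_low hν0 hν hh
        rw [div_le_iff₀ hT]
        have h2 := (hmono g s hg).trans hs
        have h3 : 0 ≤ 12 * ν := by linarith
        nlinarith [mul_le_mul_of_nonneg_left hT0 h3]
      rw [h1 _ hf, h1 _ hf.le, sub_self]
  have hhigh : ∀ f, s + n + 1 ≤ f → HH ν h (e f / T) = 1368 * h := by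
    intro f hf
    apply HH_high hh
    rw [le_div_iff₀ hT]
    have h2 := ht.trans (hmono _ _ hf)
    have h3 : 0 ≤ 108 * h := by linarith
    nlinarith [mul_le_mul_of_nonneg_left hT1 h3]
  have hsplit : ∑ f ∈ Finset.range N, a f * (HH ν h (e (f + 1) / T) - HH ν h (e f / T)) =
      ∑ f ∈ Finset.Ico s (s + n + 1), a f * (HH ν h (e (f + 1) / T) - HH ν h (e f / T)) := by
    symm
    apply Finset.sum_subset
    · intro f hf
      rw [Finset.mem_Ico] at hf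
      rw [Finset.mem_range]
      omega
    · intro f hf hf'
      rw [Finset.mem_range] at hf
      rw [Finset.mem_Ico] at hf'
      rcases lt_or_ge f s with h1 | h1
      · rw [hlow f h1, mul_zero]
      · have h2 : s + n + 1 ≤ f := by
          by_contra h3
          exact hf' ⟨h1, by omega⟩
        rw [hhigh (f + 1) (by omega), hhigh f h2, sub_self, mul_zero]
  rw [hsplit, abel a (fun f => HH ν h (e f / T)) s n]
  have h1 : a (s + n) * HH ν h (e (s + n + 1) / T) ≤ a (s + n) * (1368 * h) :=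
    mul_le_mul_of_nonneg_left (HH_le _ _ _) (ha0 _)
  have h2 : a s * (552 * ν) ≤ a s * HH ν h (e s / T) :=
    mul_le_mul_of_nonneg_left (le_HH hν hh _) (ha0 _)
  have h3 : ∑ f ∈ Finset.Ico (s + 1) (s + n + 1), (a (f - 1) - a f) * HH ν h (e f / T) ≤
      ∑ f ∈ Finset.Ico (s + 1) (s + n + 1),
          abt (a (f - 1) - a f) (HH ν h (e f / J0)) (HH ν h (e f / J1)) := by
    refine Finset.sum_le_sum fun f _ => ?_
    apply abt_ge
    · exact HH_mono _ _ (div_le_div_of_nonneg_left (he0 f) hJ0 hT0)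
    · exact HH_mono _ _ (div_le_div_of_nonneg_left (he0 f) hT hT1)
  linarith

/-- **zone bound, class R** -/
theorem KZ_sum {q : ℝ} (hq : 0 < q) (hq4 : q ≤ 4096) {j : ℕ} (hj : 34000 ≤ j) {X Y c : ℝ}
    (hX0 : 0 < X) (hX : X ^ 4 ≤ 63 * (j : ℝ) ^ 3) (hY0 : 8192 ≤ Y)
    (hY : ∀ K : ℕ, 8177 ≤ K → 12 * (j : ℝ) ^ 3 < (K : ℝ) ^ 4 → 16 ∣ K → Y ≤ K)
    (hc : q * j ≤ 96 * c * (Y - 16) ^ 2) (l : ℕ → ℕ) (hl : ∀ f, 8192 ≤ l f) (hld : ∀ f, 16 ∣ l f)
    (hlm : ∀ f, l f ≤ l (f + 1)) (A a : ℕ → ℝ) (hA0 : ∀ k, 0 ≤ A k) (ha0 : ∀ f, 0 ≤ a f)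
    (hA : ∀ f k, l f - 20 ≤ k → k < l (f + 1) - 20 → A k ≤ a f) (M : ℝ) (hM0 : 0 ≤ M)
    (hM : ∀ k, 8172 ≤ k → 12 * j ^ 3 < (k + 20) ^ 4 → k ^ 4 < 108 * (j + 1) ^ 3 → A k ≤ M)
    {ν h J0 J1 : ℝ} (hν0 : 0 ≤ ν) (hν1 : ν ≤ 1) (hνj : ν * ((j : ℝ) + 1) ^ 3 ≤ (j : ℝ) ^ 3)
    (hh : (1 + 44 / X) ^ 4 ≤ h) (hJ0 : 0 < J0) (hT0 : J0 ≤ ((j : ℝ) + 1) ^ 3)
    (hT1 : ((j : ℝ) + 1) ^ 3 ≤ J1) (s n N : ℕ) (hN : s + n + 1 ≤ N)
    (hs : s = 0 ∧ a 0 = 0 ∨ ((l s : ℝ) + 8) ^ 4 ≤ 12 * ν * J0)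
    (ht : 108 * h * J1 ≤ ((l (s + n + 1) : ℝ) + 8) ^ 4) :
    ∑ f ∈ Finset.range N, ∑ k ∈ Finset.Ico (l f - 20) (l (f + 1) - 20), A k * wR q k j ≤
      (1 + 54 / Y) * (1 + 100 / Y) *
        ((a (s + n) * (1368 * h) - a s * (552 * ν) +
        ∑ f ∈ Finset.Ico (s + 1) (s + n + 1),
          abt (a (f - 1) - a f) (HH ν h (((l f : ℝ) + 8) ^ 4 / J0))
            (HH ν h (((l f : ℝ) + 8) ^ 4 / J1))) / 1024 + c * M) := by
  have hh1 : 1 ≤ h := le_trans (one_le_pow₀ (by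
    have : 0 < 44 / X := by positivity
    linarith)) hh
  have hYp : (0 : ℝ) < Y := by linarith
  refine (KF_sum hq hq4 hj hX0 hX hY0 hY hc l hl hld hlm A a hA0 ha0 hA M hM0 hM N).trans ?_
  apply mul_le_mul_of_nonneg_left _ (by positivity)
  apply add_le_add_left
  have hT : 0 < ((j : ℝ) + 1) ^ 3 := by positivity
  have hlr : ∀ f, (l f : ℝ) ≤ l (f + 1) := fun f => by exact_mod_cast hlm f
  have h1 : ∑ f ∈ Finset.range N, a f *
          (GG X j (((l (f + 1) : ℝ) + 8) ^ 4) - GG X j (((l f : ℝ) + 8) ^ 4)) ≤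
      (∑ f ∈ Finset.range N, a f * (HH ν h (((l (f + 1) : ℝ) + 8) ^ 4 / ((j : ℝ) + 1) ^ 3) -
        HH ν h (((l f : ℝ) + 8) ^ 4 / ((j : ℝ) + 1) ^ 3))) * ((j : ℝ) + 1) ^ 3 := by
    rw [Finset.sum_mul]
    refine Finset.sum_le_sum fun f _ => ?_
    rw [mul_assoc]
    apply mul_le_mul_of_nonneg_left _ (ha0 f)
    apply GG_HH hνj hh
    exact pow_le_pow_left₀ (by positivity) (by linarith [hlr f]) 4
  have h2 := zone_sum hν0 hν1 hh1 hJ0 hT0 hT1 (fun f => ((l f : ℝ) + 8) ^ 4) a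
    (fun f => by positivity)
    (fun f => pow_le_pow_left₀ (by positivity) (by linarith [hlr f]) 4) ha0 s n N hN hs ht
  have e : (∑ f ∈ Finset.range N, a f *
          (GG X j (((l (f + 1) : ℝ) + 8) ^ 4) - GG X j (((l f : ℝ) + 8) ^ 4))) /
            (1024 * ((j : ℝ) + 1) ^ 3) =
      (∑ f ∈ Finset.range N, a f *
          (GG X j (((l (f + 1) : ℝ) + 8) ^ 4) - GG X j (((l f : ℝ) + 8) ^ 4))) /
            ((j : ℝ) + 1) ^ 3 / 1024 := by
    rw [div_div, mul_comm (1024 : ℝ)]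
  rw [e]
  apply div_le_div_of_nonneg_right _ (by norm_num)
  refine le_trans ?_ h2
  rw [div_le_iff₀ hT]
  exact h1

end

end Pool.Agent.LibMoserT
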