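import Pool.Agent.LibMoserT.LedOTab
set_option autoImplicit false
/-!
# Kernel evaluation of the slots, frames 109 to 171 (generated)
-/
namespace Pool.Agent.LibMoserT

theorem L41_4_ok : LP (fun g => T41.lok RL41 g && T41.fok g) 109 63 := LP.of (by decide +kernel)

end Pool.Agent.LibMoserT
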