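import Mathlib
set_option autoImplicit false
/-!
# Sums by binary splitting and packed digits
-/
namespace Pool.Agent.LibMoserT

/-- `∑ i ∈ Ico a (a + n), f i` for `n ≤ 2 ^ k`, by binary splitting -/
def sumF (f : ℕ → ℕ) (k : ℕ) : ℕ → ℕ → ℕ :=
  Nat.rec (motive := fun _ => ℕ → ℕ → ℕ) (fun a n => bif Nat.beq n 0 then 0 else f a)
    (fun _ ih a n => ih a (n / 2) + ih (a + n / 2) (n - n / 2)) k

theorem sumF_zero (f : ℕ → ℕ) (a n : ℕ) : sumF f 0 a n = bif Nat.beq n 0 then 0 else f a := rfl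

theorem sumF_succ (f : ℕ → ℕ) (k a n : ℕ) :
    sumF f (k + 1) a n = sumF f k a (n / 2) + sumF f k (a + n / 2) (n - n / 2) := rfl

theorem sumF_eq (f : ℕ → ℕ) (k : ℕ) : ∀ a n, n ≤ 2 ^ k →
    sumF f k a n = ∑ i ∈ Finset.Ico a (a + n), f i := by
  induction k with
  | zero =>
    intro a n hn
    rw [sumF_zero]
    have h : n = 0 ∨ n = 1 := by
      rw [pow_zero] at hn
      omega
    rcases h with rfl | rfl
    · simp
    · rw [Finset.sum_Ico_succ_top (by omega), Finset.Ico_self, Finset.sum_empty, zero_add]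
      rfl
  | succ k ih =>
    intro a n hn
    have h1 : n / 2 ≤ 2 ^ k := by
      rw [pow_succ] at hn
      omega
    have h2 : n - n / 2 ≤ 2 ^ k := by
      rw [pow_succ] at hn
      omega
    rw [sumF_succ, ih _ _ h1, ih _ _ h2]
    have h3 : a + n = a + n / 2 + (n - n / 2) := by omega
    rw [h3, Finset.sum_Ico_consecutive]
    · omega
    · omega

/-- `∀ i ∈ Ico a (a + n), p i` for `n ≤ 2 ^ k`, by binary splitting -/
def allF (p : ℕ → Bool) (k : ℕ) : ℕ → ℕ → Bool :=
  Nat.rec (motive := fun _ => ℕ → ℕ → Bool) (fun a n => bif Nat.beq n 0 then true else p a)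
    (fun _ ih a n => ih a (n / 2) && ih (a + n / 2) (n - n / 2)) k

theorem allF_zero (p : ℕ → Bool) (a n : ℕ) :
    allF p 0 a n = bif Nat.beq n 0 then true else p a := rfl

theorem allF_succ (p : ℕ → Bool) (k a n : ℕ) :
    allF p (k + 1) a n = (allF p k a (n / 2) && allF p k (a + n / 2) (n - n / 2)) := rfl

theorem allF_spec (p : ℕ → Bool) (k : ℕ) : ∀ a n, n ≤ 2 ^ k → allF p k a n = true →
    ∀ i, a ≤ i → i < a + n → p i = true := by
  induction k with
  | zero =>
    intro a n hn h i hi1 hi2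
    rw [allF_zero] at h
    have h' : n = 0 ∨ n = 1 := by
      rw [pow_zero] at hn
      omega
    rcases h' with rfl | rfl
    · omega
    · have : i = a := by omega
      subst this
      exact h
  | succ k ih =>
    intro a n hn h i hi1 hi2
    have h1 : n / 2 ≤ 2 ^ k := by
      rw [pow_succ] at hn
      omega
    have h2 : n - n / 2 ≤ 2 ^ k := by
      rw [pow_succ] at hn
      omega
    rw [allF_succ, Bool.and_eq_true] at h
    by_cases h3 : i < a + n / 2
    · exact ih _ _ h1 h.1 i hi1 h3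
    · exact ih _ _ h2 h.2 i (by omega) (by omega)

/-- digit `i` (of `w` bits) of the packed table `T` -/
def dig (T w i : ℕ) : ℕ := (T >>> (w * i)) % 2 ^ w

theorem dig_lt (T w i : ℕ) : dig T w i < 2 ^ w := Nat.mod_lt _ (by positivity)

/-- sum of digits below `B ^ s` -/
theorem digsum_lt {B : ℕ} (d : ℕ → ℕ) (s : ℕ) (hd : ∀ i < s, d i < B) :
    ∑ i ∈ Finset.range s, d i * B ^ i < B ^ s := by
  induction s with
  | zero => simp
  | succ s ih =>
    rw [Finset.sum_range_succ, pow_succ]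
    have h1 := ih (fun i hi => hd i (by omega))
    have h2 : (d s + 1) * B ^ s ≤ B * B ^ s := Nat.mul_le_mul_right _ (hd s (by omega))
    calc _ < B ^ s + d s * B ^ s := by omega
      _ = (d s + 1) * B ^ s := by ring
      _ ≤ B * B ^ s := h2
      _ = _ := by ring

/-- digit of a packed sum -/
theorem digsum_dig {B : ℕ} (hB : 0 < B) (d : ℕ → ℕ) (N s : ℕ) (hs : s < N)
    (hd : ∀ i < N, d i < B) :
    (∑ i ∈ Finset.range N, d i * B ^ i) / B ^ s % B = d s := by
  obtain ⟨m, rfl⟩ : ∃ m, N = s + 1 + m := ⟨N - (s + 1), by omega⟩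
  have h1 : ∑ i ∈ Finset.range (s + 1 + m), d i * B ^ i =
      ∑ i ∈ Finset.range s, d i * B ^ i +
        B ^ s * (d s + B * ∑ i ∈ Finset.range m, d (s + 1 + i) * B ^ i) := by
    rw [Finset.sum_range_add, Finset.sum_range_succ, mul_add, Finset.mul_sum, Finset.mul_sum,
      add_assoc]
    congr 1
    congr 1
    · ring
    · apply Finset.sum_congr rfl
      intro i _
      rw [pow_add, pow_add]
      ring
  have h2 := digsum_lt d s (fun i hi => hd i (by omega))
  rw [h1, Nat.add_mul_div_left _ _ (by positivity), Nat.div_eq_of_lt h2, zero_add,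
    Nat.add_mul_mod_self_left, Nat.mod_eq_of_lt (hd s (by omega))]

/-- repunit block `∑ i ∈ Ico a b, B ^ i` -/
def rep (B a b : ℕ) : ℕ := ∑ i ∈ Finset.Ico a b, B ^ i

/-- a sum of blocks, digit by digit -/
theorem blocks_sum {ι : Type*} (C : Finset ι) (v a b : ι → ℕ) {B N : ℕ}
    (hb : ∀ c ∈ C, b c ≤ N) :
    ∑ c ∈ C, v c * rep B (a c) (b c) =
      ∑ i ∈ Finset.range N, (∑ c ∈ C.filter (fun c => a c ≤ i ∧ i < b c), v c) * B ^ i := by
  have h2 : ∀ c ∈ C, v c * rep B (a c) (b c) =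
      ∑ i ∈ Finset.range N, (if a c ≤ i ∧ i < b c then v c else 0) * B ^ i := by
    intro c hc
    unfold rep
    rw [Finset.mul_sum]
    have h3 : Finset.Ico (a c) (b c) = (Finset.range N).filter (fun i => a c ≤ i ∧ i < b c) := by
      ext i
      simp only [Finset.mem_Ico, Finset.mem_filter, Finset.mem_range]
      have := hb c hc
      constructor
      · rintro ⟨h, h'⟩; exact ⟨by omega, h, h'⟩
      · rintro ⟨_, h⟩; exact h
    rw [h3, Finset.sum_filter]
    apply Finset.sum_congr rfl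
    intro i _
    split_ifs
    · rfl
    · rw [zero_mul]
  rw [Finset.sum_congr rfl h2, Finset.sum_comm]
  apply Finset.sum_congr rfl
  intro i _
  rw [← Finset.sum_mul, Finset.sum_filter]

/-- **Digits of a sum of blocks.** -/
theorem blocks_dig {ι : Type*} (C : Finset ι) (v a b : ι → ℕ) {B N : ℕ} (hB : 0 < B)
    (hb : ∀ c ∈ C, b c ≤ N) (hv : ∑ c ∈ C, v c < B) (s : ℕ) (hs : s < N) :
    (∑ c ∈ C, v c * rep B (a c) (b c)) / B ^ s % B =
      ∑ c ∈ C.filter (fun c => a c ≤ s ∧ s < b c), v c := by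
  rw [blocks_sum C v a b hb]
  refine digsum_dig hB (fun i => ∑ c ∈ C.filter (fun c => a c ≤ i ∧ i < b c), v c) N s hs ?_
  intro i _
  exact lt_of_le_of_lt (Finset.sum_le_sum_of_subset (Finset.filter_subset _ _)) hv

/-- full repunit with `N` digits of `w` bits -/
def repN (w N : ℕ) : ℕ := (2 ^ (w * N) - 1) / (2 ^ w - 1)

theorem repN_eq {w N : ℕ} (hw : 0 < w) : repN w N = ∑ i ∈ Finset.range N, (2 ^ w) ^ i := by
  unfold repN
  have h2 : 2 ≤ 2 ^ w := by
    calc 2 = 2 ^ 1 := rfl
      _ ≤ 2 ^ w := Nat.pow_le_pow_right (by norm_num) hw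
  rw [pow_mul, ← Nat.geomSum_eq h2 N]

/-- computed block: `R` = full repunit -/
def blk (R w N a b : ℕ) : ℕ := (R >>> (w * (N - (b - a)))) <<< (w * a)

theorem blk_eq {R w N a b : ℕ} (hw : 0 < w) (hR : R = repN w N) (hb : b ≤ N) (hab : a ≤ b) :
    blk R w N a b = rep (2 ^ w) a b := by
  unfold blk rep
  rw [hR, repN_eq hw, Nat.shiftRight_eq_div_pow, Nat.shiftLeft_eq]
  have h2 : (0 : ℕ) < 2 ^ w := by positivity
  obtain ⟨k, hk⟩ : ∃ k, k = b - a := ⟨_, rfl⟩
  have h3 : ∑ i ∈ Finset.range N, (2 ^ w) ^ i =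
      ∑ i ∈ Finset.range (N - k), 1 * (2 ^ w) ^ i +
        (2 ^ (w * (N - k))) * ∑ i ∈ Finset.range k, (2 ^ w) ^ i := by
    have h4 : N = (N - k) + k := by omega
    conv_lhs => rw [h4]
    rw [Finset.sum_range_add, Finset.mul_sum]
    congr 1
    · apply Finset.sum_congr rfl
      intro i _
      rw [one_mul]
    · apply Finset.sum_congr rfl
      intro i _
      rw [pow_add, pow_mul]
  have h5 : ∑ i ∈ Finset.range (N - k), 1 * (2 ^ w) ^ i < (2 ^ w) ^ (N - k) := by
    apply digsum_lt (fun _ => 1)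
    intro i _
    calc 1 < 2 := by norm_num
      _ = 2 ^ 1 := rfl
      _ ≤ 2 ^ w := Nat.pow_le_pow_right (by norm_num) hw
  rw [← hk, h3, Nat.add_mul_div_left _ _ (by positivity), Nat.div_eq_of_lt (by rw [pow_mul]; exact h5),
    zero_add, Finset.sum_mul]
  rw [Finset.sum_Ico_eq_sum_range, ← hk]
  apply Finset.sum_congr rfl
  intro i _
  rw [pow_mul, ← pow_add, add_comm]

theorem dig_eq (T w s : ℕ) : dig T w s = T / (2 ^ w) ^ s % 2 ^ w := by
  unfold dig
  rw [Nat.shiftRight_eq_div_pow, pow_mul]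

/-- digits of a part of a table -/
theorem dig_part (T w s n i : ℕ) (hi : i < n) :
    dig ((T >>> (w * s)) % 2 ^ (w * n)) w i = dig T w (s + i) := by
  unfold dig
  apply Nat.eq_of_testBit_eq
  intro k
  rw [Nat.testBit_mod_two_pow, Nat.testBit_mod_two_pow, Nat.testBit_shiftRight,
    Nat.testBit_shiftRight, Nat.testBit_mod_two_pow, Nat.testBit_shiftRight]
  by_cases hk : k < w
  · have h1 : w * i + k < w * n := by
      have : w * (i + 1) ≤ w * n := Nat.mul_le_mul_left _ hi
      rw [mul_add, mul_one] at this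
      omega
    have h2 : w * s + (w * i + k) = w * (s + i) + k := by ring
    rw [h2]
    simp [hk, h1]
  · simp [hk]

end Pool.Agent.LibMoserT
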