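import Pool.Agent.LibMoserT.LedP
set_option autoImplicit false
/-!
# One cell of class O
-/
namespace Pool.Agent.LibMoserT
open Pool.Agent.LibMoser5 Pool.Agent.LibMoserF Classical

noncomputable section

/-- a cell: rows with thickness in `((P - st) (1 - 2^-14) / 2^K, P / 2^K]`, mass `M / 2^34`, pool
`Ico qa qb` -/
structure OC where
  P : ℕ
  K : ℕ
  st : ℕ
  M : ℕ
  qa : ℕ
  qb : ℕ

namespace OC
variable (c : OC)

def pmx : ℝ := (c.P : ℝ) / 2 ^ c.K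
def pmn : ℝ := (((c.P - c.st : ℕ) : ℝ) * 16383) / 2 ^ (c.K + 14)
def MM : ℝ := (c.M : ℝ) / 2 ^ 34

def src : Src where
  M := c.MM
  pmin := c.pmn
  pmax := c.pmx
  σ := sd (c.qb - 1)
  S := sd c.qa
  Q := Finset.Ico c.qa c.qb

/-- validity: `l1` = end of the frame, no child in the windows `< J1` or `≥ J2` -/
structure Val (l1 J1 J2 : ℕ) : Prop where
  ab : c.qa < c.qb
  st : c.st < c.P
  sp : 2 ^ (c.K + 15) ≤ (c.P - c.st) * 16383 * (2 * c.qa + 1)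
  ork : 36 * (c.P * (2 * c.qb - 1)) ≤ 37 * 2 ^ (c.K + 1)
  oth : 2048 * 2 ^ (c.K + 14) ≤ (c.P - c.st) * 16383 * (l1 - 20) ^ 3
  r1 : c.P * (2 * c.qb - 1) * J1 ^ 3 ≤ 2048 * 2 ^ c.K * (2 * c.qb - 1) + 2 ^ (c.K + 1) * J1 ^ 3
  r2 : 2048 * 2 ^ (c.K + 14) * (2 * c.qa + 1) + 2 ^ (c.K + 15) * J2 ^ 3 ≤
    (c.P - c.st) * 16383 * (2 * c.qa + 1) * J2 ^ 3

/-- coefficient of `th q (j + 1)` (unit 1) -/
def V : ℕ := c.M * c.P * (2 * c.qb - 1) ^ 3 / ((c.qb - c.qa) * 2 ^ (c.K + 37)) + 1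
/-- coefficient of `j / 3` (unit `2 ^ (-64)`) -/
def U : ℕ := c.M * c.P * (2 * c.qb - 1) ^ 2 * 2 ^ 30 /
  ((c.qb - c.qa) * (2 * c.qa + 1) * 2 ^ (c.K + 1)) + 1
/-- births (unit `2 ^ (-64)`) -/
def BT : ℕ := c.M * 2 ^ 30 * (2 * c.qb - 1) * (c.P * (c.qa + c.qb) - 2 ^ (c.K + 1)) /
    (2 ^ (c.K + 1) * (c.qa + c.qb)) +
  43 * 2 ^ 64 * (c.P * (2 * c.qb - 1) - 2 ^ (c.K + 1)) / (2 ^ c.K * (2 * c.qb - 1)) + 2
/-- load (unit `2 ^ (-40)`) -/
def L : ℕ := c.M * 2 ^ 5 * (2 * c.qb - 1) / (c.qb - c.qa) + 1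

variable {c} {l1 J1 J2 : ℕ}

theorem X_cast (h : c.Val l1 J1 J2) : ((2 * c.qb - 1 : ℕ) : ℝ) = 2 * (c.qb : ℝ) - 1 := by
  have := h.ab
  rw [Nat.cast_sub (by omega)]
  push_cast
  ring

theorem X_pos (h : c.Val l1 J1 J2) : (0 : ℝ) < ((2 * c.qb - 1 : ℕ) : ℝ) := by
  have := h.ab
  have h1 : 0 < 2 * c.qb - 1 := by omega
  exact_mod_cast h1

theorem n_cast (h : c.Val l1 J1 J2) : ((c.qb - c.qa : ℕ) : ℝ) = (c.qb : ℝ) - c.qa :=
  Nat.cast_sub h.ab.le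

theorem n_pos (h : c.Val l1 J1 J2) : (0 : ℝ) < ((c.qb - c.qa : ℕ) : ℝ) := by
  have := h.ab
  have h1 : 0 < c.qb - c.qa := by omega
  exact_mod_cast h1

theorem σ_eq (h : c.Val l1 J1 J2) : sd (c.qb - 1) = 2 / ((2 * c.qb - 1 : ℕ) : ℝ) := by
  have h0 := h.ab
  have hX := X_pos h
  rw [X_cast h] at hX ⊢
  unfold sd
  rw [Nat.cast_sub (by omega)]
  push_cast
  rw [div_eq_div_iff (by linarith) (by linarith)]
  ring

theorem S_eq : sd c.qa = 2 / ((2 * c.qa + 1 : ℕ) : ℝ) := by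
  unfold sd
  push_cast
  rw [div_eq_div_iff (by positivity) (by positivity)]
  ring

theorem card_eq : (Finset.Ico c.qa c.qb).card = c.qb - c.qa := Nat.card_Ico _ _

theorem S_le_pmn (h : c.Val l1 J1 J2) : sd c.qa ≤ c.pmn := by
  have h1 := h.sp
  have h2 : ((2 ^ (c.K + 15) : ℕ) : ℝ) ≤ (((c.P - c.st) * 16383 * (2 * c.qa + 1) : ℕ) : ℝ) := by
    exact_mod_cast h1
  rw [S_eq, pmn, div_le_div_iff₀ (by positivity) (by positivity)]
  push_cast at h2 ⊢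
  calc (2 : ℝ) * 2 ^ (c.K + 14) = 2 ^ (c.K + 15) := by ring
    _ ≤ _ := h2

theorem pmn_lt (h : c.Val l1 J1 J2) : c.pmn < c.pmx := by
  have h1 := h.st
  unfold pmn pmx
  rw [div_lt_div_iff₀ (by positivity) (by positivity)]
  have h2 : ((c.P - c.st : ℕ) : ℝ) ≤ c.P := by exact_mod_cast Nat.sub_le _ _
  have h3 : (0 : ℝ) < c.P := by
    have : 0 < c.P := by omega
    exact_mod_cast this
  have h4 : (2 : ℝ) ^ (c.K + 14) = 2 ^ c.K * 16384 := by
    rw [pow_add]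
    norm_num
  rw [h4]
  have h5 : (0 : ℝ) < 2 ^ c.K := by positivity
  calc ((c.P - c.st : ℕ) : ℝ) * 16383 * 2 ^ c.K ≤ c.P * 16383 * 2 ^ c.K := by
        apply mul_le_mul_of_nonneg_right _ h5.le
        linarith
    _ < c.P * (2 ^ c.K * 16384) := by nlinarith [mul_pos h3 h5]

theorem σ_pos : 0 < sd (c.qb - 1) := sd_pos _

theorem σ_le_S (h : c.Val l1 J1 J2) : sd (c.qb - 1) ≤ sd c.qa := sd_anti (by have := h.ab; omega)

theorem srcOk (h : c.Val l1 J1 J2) {Fr : Finset ℕ} (hF : Finset.Ico c.qa c.qb ⊆ Fr) :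
    c.src.Ok Fr where
  M0 := by
    change 0 ≤ c.MM
    unfold MM
    positivity
  σ0 := sd_pos _
  ne := by
    change (Finset.Ico c.qa c.qb).Nonempty
    rw [Finset.nonempty_Ico]
    exact h.ab
  sub := hF
  Qs := by
    intro n hn
    change n ∈ Finset.Ico c.qa c.qb at hn
    rw [Finset.mem_Ico] at hn
    exact ⟨sd_anti (by omega), sd_anti hn.1⟩
  Sp := S_le_pmn h
  pp := pmn_lt h

theorem oth_real (h : c.Val l1 J1 J2) (hl : 21 ≤ l1) : th 2048 (l1 - 20) ≤ c.pmn := by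
  have h1 := h.oth
  have h2 : ((2048 * 2 ^ (c.K + 14) : ℕ) : ℝ) ≤
      (((c.P - c.st) * 16383 * (l1 - 20) ^ 3 : ℕ) : ℝ) := by exact_mod_cast h1
  unfold th pmn
  have h3 : (0 : ℝ) < ((l1 - 20 : ℕ) : ℝ) := by
    have : 0 < l1 - 20 := by omega
    exact_mod_cast this
  rw [div_le_div_iff₀ (by positivity) (by positivity)]
  push_cast at h2 ⊢
  exact h2

theorem ork_real (h : c.Val l1 J1 J2) : c.pmx ≤ (1 + 1 / 36) * sd (c.qb - 1) := by
  have h1 := h.ork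
  have h2 : ((36 * (c.P * (2 * c.qb - 1)) : ℕ) : ℝ) ≤ ((37 * 2 ^ (c.K + 1) : ℕ) : ℝ) := by
    exact_mod_cast h1
  have hX := X_pos h
  rw [σ_eq h, pmx, mul_div_assoc', div_le_div_iff₀ (by positivity) hX]
  rw [Nat.cast_mul, Nat.cast_mul, Nat.cast_mul] at h2
  push_cast at h2 ⊢
  have h3 : (2 : ℝ) ^ (c.K + 1) = 2 ^ c.K * 2 := by rw [pow_succ]
  rw [h3] at h2
  linarith

/-- no children in the windows before `J1` -/
theorem DM_le (h : c.Val l1 J1 J2) {j : ℕ} (hj : j < J1) :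
    ¬ th 2048 (j + 1) < c.pmx - sd (c.qb - 1) := by
  rw [not_lt]
  have h1 := h.r1
  have h2 : ((c.P * (2 * c.qb - 1) * J1 ^ 3 : ℕ) : ℝ) ≤
      ((2048 * 2 ^ c.K * (2 * c.qb - 1) + 2 ^ (c.K + 1) * J1 ^ 3 : ℕ) : ℝ) := by exact_mod_cast h1
  have hX := X_pos h
  have hJ : (0 : ℝ) < (J1 : ℝ) := by
    have : 0 < J1 := by omega
    exact_mod_cast this
  have h3 : th 2048 J1 ≤ th 2048 (j + 1) := by
    unfold th
    apply div_le_div_of_nonneg_left (by norm_num) (by positivity)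
    have : ((j + 1 : ℕ) : ℝ) ≤ J1 := by exact_mod_cast hj
    gcongr
  refine le_trans ?_ h3
  rw [σ_eq h]
  unfold pmx th
  rw [div_sub_div _ _ (by positivity) hX.ne', div_le_div_iff₀ (by positivity) (by positivity)]
  rw [Nat.cast_mul, Nat.cast_mul, Nat.cast_add, Nat.cast_mul, Nat.cast_mul, Nat.cast_mul] at h2
  push_cast at h2 ⊢
  have h4 : (2 : ℝ) ^ (c.K + 1) = 2 ^ c.K * 2 := by rw [pow_succ]
  rw [h4] at h2
  nlinarith

/-- no children in the windows from `J2` on -/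
theorem Dm_ge (h : c.Val l1 J1 J2) {j : ℕ} (hj0 : 1 ≤ J2) (hj : J2 ≤ j) :
    ¬ c.pmn - sd c.qa < th 2048 j := by
  rw [not_lt]
  have h1 := h.r2
  have h2 : ((2048 * 2 ^ (c.K + 14) * (2 * c.qa + 1) + 2 ^ (c.K + 15) * J2 ^ 3 : ℕ) : ℝ) ≤
      (((c.P - c.st) * 16383 * (2 * c.qa + 1) * J2 ^ 3 : ℕ) : ℝ) := by exact_mod_cast h1
  have hJ : (0 : ℝ) < (J2 : ℝ) := by exact_mod_cast hj0
  have h3 : th 2048 j ≤ th 2048 J2 := by
    unfold th
    apply div_le_div_of_nonneg_left (by norm_num) (by positivity)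
    have : (J2 : ℝ) ≤ j := by exact_mod_cast hj
    gcongr
  refine le_trans h3 ?_
  rw [S_eq]
  unfold pmn th
  rw [div_sub_div _ _ (by positivity) (by positivity), div_le_div_iff₀ (by positivity)
    (by positivity)]
  push_cast at h2 ⊢
  have h4 : (2 : ℝ) ^ (c.K + 15) = 2 ^ (c.K + 14) * 2 := by rw [pow_succ]
  rw [h4] at h2
  nlinarith

theorem DM_pos (h : c.Val l1 J1 J2) : 0 < c.pmx - sd (c.qb - 1) := by
  have h1 := S_le_pmn h
  have h2 := pmn_lt h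
  have h3 := σ_le_S h
  linarith

/-- the load of the source -/
theorem u_eq (h : c.Val l1 J1 J2) :
    c.src.u = c.M * ((2 * c.qb - 1 : ℕ) : ℝ) / (2 ^ 35 * ((c.qb - c.qa : ℕ) : ℝ)) := by
  have hX := X_pos h
  have hn := n_pos h
  change c.MM / (sd (c.qb - 1) * ((Finset.Ico c.qa c.qb).card : ℝ)) = _
  rw [card_eq, σ_eq h]
  unfold MM
  rw [div_div, div_eq_div_iff (by positivity) (by positivity)]
  field_simp

theorem cast_div_le (a b : ℕ) (hb : 0 < b) : (a : ℝ) / b ≤ ((a / b + 1 : ℕ) : ℝ) := by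
  rw [div_le_iff₀ (by exact_mod_cast hb)]
  have h1 : a < (a / b + 1) * b := by
    have := Nat.lt_div_mul_add (a := a) hb
    rw [add_mul, one_mul]
    exact this
  exact_mod_cast h1.le

theorem u_le (h : c.Val l1 J1 J2) : c.src.u ≤ (c.L : ℝ) / 2 ^ 40 := by
  have hn := n_pos h
  have hn' : 0 < c.qb - c.qa := by exact_mod_cast hn
  rw [u_eq h]
  have h1 := cast_div_le (c.M * 2 ^ 5 * (2 * c.qb - 1)) (c.qb - c.qa) hn'
  unfold L
  rw [div_le_div_iff₀ (by positivity) (by positivity)]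
  rw [div_le_iff₀ hn, Nat.cast_mul, Nat.cast_mul] at h1
  push_cast at h1 ⊢
  have h2 : (2 : ℝ) ^ 40 = 2 ^ 5 * 2 ^ 35 := by norm_num
  rw [h2]
  nlinarith [h1]

theorem th_step {q : ℝ} (hq : 0 < q) {j : ℕ} (hj : 40 ≤ j) :
    th q j ≤ 11 / 10 * th q (j + 1) ∧ 3 * th q (j + 1) ≤ j * (th q j - th q (j + 1)) := by
  have hj' : (40 : ℝ) ≤ j := by exact_mod_cast hj
  have hj0 : (0 : ℝ) < j := by linarith
  unfold th
  push_cast
  constructor
  · rw [mul_div_assoc', div_le_div_iff₀ (by positivity) (by positivity)]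
    have h1 : ((j : ℝ) + 1) ^ 3 ≤ 11 / 10 * (j : ℝ) ^ 3 := by
      have h2 : (j : ℝ) + 1 ≤ 41 / 40 * j := by linarith
      have h3 : ((j : ℝ) + 1) ^ 3 ≤ (41 / 40 * j) ^ 3 := pow_le_pow_left₀ (by linarith) h2 3
      have h4 : (0 : ℝ) < (j : ℝ) ^ 3 := by positivity
      have h5 : (41 / 40 * (j : ℝ)) ^ 3 = (41 / 40) ^ 3 * (j : ℝ) ^ 3 := by ring
      rw [h5] at h3
      norm_num at h3 ⊢
      linarith
    calc q * ((j : ℝ) + 1) ^ 3 ≤ q * (11 / 10 * (j : ℝ) ^ 3) := mul_le_mul_of_nonneg_left h1 hq.le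
      _ = _ := by ring
  · rw [div_sub_div _ _ (by positivity) (by positivity), mul_div_assoc', mul_div_assoc',
      div_le_div_iff₀ (by positivity) (by positivity)]
    have h1 : (3 : ℝ) * (j : ℝ) ^ 3 ≤ j * (((j : ℝ) + 1) ^ 3 - (j : ℝ) ^ 3) := by nlinarith
    have h2 : 0 < q * ((j : ℝ) + 1) ^ 3 := by positivity
    calc 3 * q * ((j : ℝ) ^ 3 * ((j : ℝ) + 1) ^ 3) = (q * ((j : ℝ) + 1) ^ 3) * (3 * (j : ℝ) ^ 3) := by
          ring
      _ ≤ (q * ((j : ℝ) + 1) ^ 3) * (j * (((j : ℝ) + 1) ^ 3 - (j : ℝ) ^ 3)) :=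
          mul_le_mul_of_nonneg_left h1 h2.le
      _ = _ := by ring

theorem V_ge (h : c.Val l1 J1 J2) :
    c.src.u * (c.pmx / sd (c.qb - 1)) / sd (c.qb - 1) ≤ c.V := by
  have hX := X_pos h
  have hn := n_pos h
  have hn' : 0 < c.qb - c.qa := by exact_mod_cast hn
  have h1 := cast_div_le (c.M * c.P * (2 * c.qb - 1) ^ 3) ((c.qb - c.qa) * 2 ^ (c.K + 37))
    (by positivity)
  refine le_trans (le_of_eq ?_) h1
  rw [u_eq h, σ_eq h]
  unfold pmx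
  rw [Nat.cast_mul, Nat.cast_mul, Nat.cast_pow, Nat.cast_mul, Nat.cast_pow]
  have h2 : ((2 : ℕ) : ℝ) ^ (c.K + 37) = 2 ^ c.K * 2 ^ 35 * 4 := by
    rw [pow_add]
    norm_num
    ring
  rw [h2]
  field_simp
  ring

theorem U_ge (h : c.Val l1 J1 J2) :
    c.src.u * (c.pmx / sd (c.qb - 1)) * sd c.qa ≤ (c.U : ℝ) / 2 ^ 64 := by
  have hX := X_pos h
  have hn := n_pos h
  have hn' : 0 < c.qb - c.qa := by exact_mod_cast hn
  have h1 := cast_div_le (c.M * c.P * (2 * c.qb - 1) ^ 2 * 2 ^ 30)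
    ((c.qb - c.qa) * (2 * c.qa + 1) * 2 ^ (c.K + 1)) (by positivity)
  rw [le_div_iff₀ (by positivity)]
  refine le_trans (le_of_eq ?_) h1
  rw [u_eq h, σ_eq h, S_eq]
  unfold pmx
  rw [Nat.cast_mul, Nat.cast_mul, Nat.cast_mul, Nat.cast_pow, Nat.cast_pow, Nat.cast_mul,
    Nat.cast_mul, Nat.cast_pow]
  have h2 : ((2 : ℕ) : ℝ) ^ (c.K + 1) = 2 ^ c.K * 2 := by
    rw [pow_succ]
    norm_num
  have hZ : (0 : ℝ) < ((2 * c.qa + 1 : ℕ) : ℝ) := by positivity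
  rw [h2]
  field_simp
  norm_num
  ring

/-- **children of the cell in window `j`** -/
theorem D_le (h : c.Val l1 J1 J2) {j ja jb : ℕ} (hja : ja ≤ j) (hjb : j + 1 ≤ jb) (h40 : 40 ≤ ja)
    {σm : ℝ} (hσm : 0 < σm) (hσ : sd (c.qb - 1) ≤ 11 / 10 * σm) :
    c.src.D 2048 j σm ≤
      c.V * (2048 / ((ja : ℝ) + 1) ^ 3) + (c.U : ℝ) / 2 ^ 64 * (((jb : ℝ) - 1) / 3) := by
  have hja0 : (40 : ℝ) ≤ ja := by exact_mod_cast h40
  have hjj : (ja : ℝ) ≤ j := by exact_mod_cast hja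
  have hjb' : (j : ℝ) ≤ (jb : ℝ) - 1 := by
    have : ((j + 1 : ℕ) : ℝ) ≤ jb := by exact_mod_cast hjb
    push_cast at this
    linarith
  have hR0 : 0 ≤ c.V * (2048 / ((ja : ℝ) + 1) ^ 3) + (c.U : ℝ) / 2 ^ 64 * (((jb : ℝ) - 1) / 3) := by
    have : 0 ≤ ((jb : ℝ) - 1) / 3 := by
      apply div_nonneg _ (by norm_num)
      linarith
    positivity
  unfold Src.D
  split_ifs with hr
  swap
  · exact hR0
  obtain ⟨hr1, hr2⟩ := hr
  change th 2048 (j + 1) < c.pmx - sd (c.qb - 1) at hr1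
  change c.src.u * ((th 2048 (j + 1) / sd (c.qb - 1) + sd c.qa * (th 2048 (j + 1) /
    (th 2048 j - th 2048 (j + 1)))) * (1 + 4 / 5 * (th 2048 j / σm))) ≤ _
  obtain ⟨hs1, hs2⟩ := th_step (q := 2048) (by norm_num) (by omega : 40 ≤ j)
  have hσ0 : 0 < sd (c.qb - 1) := sd_pos _
  have hS0 : 0 < sd c.qa := sd_pos _
  have hu : 0 ≤ c.src.u := by
    rw [u_eq h]
    positivity
  have hth' : 0 < th 2048 (j + 1) := by
    unfold th
    positivity
  have hd : 0 < th 2048 j - th 2048 (j + 1) := by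
    have h1 : 0 < (j : ℝ) * (th 2048 j - th 2048 (j + 1)) := by linarith
    have h2 : (0 : ℝ) < j := by linarith
    exact pos_of_mul_pos_right h1 h2.le
  -- the factor
  have hκ : 1 + 4 / 5 * (th 2048 j / σm) ≤ c.pmx / sd (c.qb - 1) := by
    rw [le_div_iff₀ hσ0]
    have h1 : th 2048 j ≤ 11 / 10 * (c.pmx - sd (c.qb - 1)) := by linarith
    have h2 : sd (c.qb - 1) / σm ≤ 11 / 10 := by
      rw [div_le_iff₀ hσm]
      exact hσ
    have h3 : 0 ≤ sd (c.qb - 1) / σm := by positivity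
    have h4 : 4 / 5 * (th 2048 j / σm) * sd (c.qb - 1) =
        4 / 5 * (th 2048 j * (sd (c.qb - 1) / σm)) := by ring
    have h5 : 0 ≤ th 2048 j := by linarith
    have h6 : th 2048 j * (sd (c.qb - 1) / σm) ≤ (11 / 10 * (c.pmx - sd (c.qb - 1))) * (11 / 10) :=
      mul_le_mul h1 h2 h3 (by linarith)
    have h7 : 0 < c.pmx - sd (c.qb - 1) := by linarith
    rw [add_mul, h4]
    linarith
  have hj3 : th 2048 (j + 1) / (th 2048 j - th 2048 (j + 1)) ≤ (j : ℝ) / 3 := by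
    rw [div_le_div_iff₀ hd (by norm_num)]
    linarith
  have hth1 : th 2048 (j + 1) ≤ 2048 / ((ja : ℝ) + 1) ^ 3 := by
    unfold th
    push_cast
    apply div_le_div_of_nonneg_left (by norm_num) (by positivity)
    have : (ja : ℝ) + 1 ≤ j + 1 := by linarith
    gcongr
  have hκ0 : 0 ≤ c.pmx / sd (c.qb - 1) := by
    unfold pmx
    positivity
  have hin : th 2048 (j + 1) / sd (c.qb - 1) + sd c.qa * (th 2048 (j + 1) /
      (th 2048 j - th 2048 (j + 1))) ≤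
      (2048 / ((ja : ℝ) + 1) ^ 3) / sd (c.qb - 1) + sd c.qa * (((jb : ℝ) - 1) / 3) := by
    have h1 : th 2048 (j + 1) / sd (c.qb - 1) ≤ (2048 / ((ja : ℝ) + 1) ^ 3) / sd (c.qb - 1) := by
      gcongr
    have h2 : sd c.qa * (th 2048 (j + 1) / (th 2048 j - th 2048 (j + 1))) ≤
        sd c.qa * (((jb : ℝ) - 1) / 3) := by
      apply mul_le_mul_of_nonneg_left _ hS0.le
      refine hj3.trans ?_
      linarith
    linarith
  have hin0 : 0 ≤ (2048 / ((ja : ℝ) + 1) ^ 3) / sd (c.qb - 1) +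
      sd c.qa * (((jb : ℝ) - 1) / 3) := by
    have : 0 ≤ ((jb : ℝ) - 1) / 3 := by
      apply div_nonneg _ (by norm_num)
      linarith
    positivity
  have hthσ : 0 ≤ th 2048 j / σm := by
    apply div_nonneg _ hσm.le
    linarith
  calc c.src.u * ((th 2048 (j + 1) / sd (c.qb - 1) + sd c.qa * (th 2048 (j + 1) /
        (th 2048 j - th 2048 (j + 1)))) * (1 + 4 / 5 * (th 2048 j / σm)))
      ≤ c.src.u * (((2048 / ((ja : ℝ) + 1) ^ 3) / sd (c.qb - 1) +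
        sd c.qa * (((jb : ℝ) - 1) / 3)) * (c.pmx / sd (c.qb - 1))) := by
        apply mul_le_mul_of_nonneg_left _ hu
        apply mul_le_mul hin hκ (by linarith) hin0
    _ = (c.src.u * (c.pmx / sd (c.qb - 1)) / sd (c.qb - 1)) * (2048 / ((ja : ℝ) + 1) ^ 3) +
        (c.src.u * (c.pmx / sd (c.qb - 1)) * sd c.qa) * (((jb : ℝ) - 1) / 3) := by ring
    _ ≤ _ := by
        have hV := V_ge h
        have hU := U_ge h
        have h1 : 0 ≤ 2048 / ((ja : ℝ) + 1) ^ 3 := by positivity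
        have h2 : 0 ≤ ((jb : ℝ) - 1) / 3 := by
          apply div_nonneg _ (by norm_num)
          linarith
        exact add_le_add (mul_le_mul_of_nonneg_right hV h1) (mul_le_mul_of_nonneg_right hU h2)

/-- nothing reaches the windows from `J2` on -/
theorem D_zero (h : c.Val l1 J1 J2) {j : ℕ} (hj0 : 1 ≤ J2) (hj : J2 ≤ j) (σm : ℝ) :
    c.src.D 2048 j σm = 0 := by
  unfold Src.D
  rw [if_neg]
  intro hr
  exact Dm_ge h hj0 hj hr.2

/-- nothing reaches the windows before `J1` -/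
theorem D_zero' (h : c.Val l1 J1 J2) {j : ℕ} (hj : j < J1) (σm : ℝ) :
    c.src.D 2048 j σm = 0 ∧ c.src.B 2048 j = 0 := by
  constructor
  · unfold Src.D
    rw [if_neg]
    intro hr
    exact DM_le h hj hr.1
  · unfold Src.B
    rw [if_neg]
    intro hr
    exact DM_le h hj hr

/-- sum of the sides of a pool -/
theorem sum_sd_ge {a b : ℕ} (hab : a < b) :
    ((b : ℝ) - a) * (2 / ((a : ℝ) + b)) ≤ ∑ n ∈ Finset.Ico a b, sd n := by
  have hb : (0 : ℝ) < b := by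
    have : 0 < b := by omega
    exact_mod_cast this
  have ha : (0 : ℝ) ≤ a := Nat.cast_nonneg _
  obtain ⟨m, hm⟩ : ∃ m : ℝ, m = ((a : ℝ) + b) / 2 := ⟨_, rfl⟩
  have hm0 : 0 < m := by rw [hm]; linarith
  -- tangent line
  have h1 : ∀ n ∈ Finset.Ico a b, 2 / m - ((n : ℝ) + 1 / 2) / m ^ 2 ≤ sd n := by
    intro n _
    unfold sd
    have hx : (0 : ℝ) < (n : ℝ) + 1 / 2 := by positivity
    rw [div_sub_div _ _ hm0.ne' (by positivity), div_le_div_iff₀ (by positivity) hx]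
    nlinarith [mul_nonneg hm0.le (sq_nonneg ((n : ℝ) + 1 / 2 - m))]
  have h2 := Finset.sum_le_sum h1
  refine le_trans (le_of_eq ?_) h2
  have h3 : ∀ k : ℕ, ∑ n ∈ Finset.Ico a (a + k), ((n : ℝ) + 1 / 2) =
      k * ((a : ℝ) + (a + k)) / 2 := by
    intro k
    induction k with
    | zero => simp
    | succ k ih =>
      rw [← add_assoc, Finset.sum_Ico_succ_top (by omega), ih]
      push_cast
      ring
  obtain ⟨k, rfl⟩ : ∃ k, b = a + k := ⟨b - a, by omega⟩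
  have h4 := h3 k
  rw [Finset.sum_sub_distrib, Finset.sum_const, Nat.card_Ico, ← Finset.sum_div, h4]
  have h5 : a + k - a = k := by omega
  rw [h5, nsmul_eq_mul]
  push_cast at hm ⊢
  have h6 : (a : ℝ) + (a + k) = 2 * m := by rw [hm]; ring
  rw [h6]
  field_simp
  ring

/-- **births of the cell** -/
theorem B_le (h : c.Val l1 J1 J2) (j : ℕ) : c.src.B 2048 j ≤ chC * ((c.BT : ℝ) / 2 ^ 64) := by
  have hC : (0 : ℝ) ≤ chC := by unfold chC; norm_num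
  unfold Src.B
  split_ifs
  swap
  · positivity
  apply mul_le_mul_of_nonneg_left _ hC
  have hX := X_pos h
  have hn := n_pos h
  have hab := h.ab
  have hn' : 0 < c.qb - c.qa := by omega
  have hDM := DM_pos h
  have hu : 0 ≤ c.src.u := by
    rw [u_eq h]
    positivity
  have hsum : (0 : ℝ) < ((c.qa + c.qb : ℕ) : ℝ) := by
    have : 0 < c.qa + c.qb := by omega
    exact_mod_cast this
  -- the thickness of the children
  have hT : c.src.T ≤ c.src.u * (((c.qb - c.qa : ℕ) : ℝ) * (c.pmx - 2 / ((c.qa + c.qb : ℕ) : ℝ))) := by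
    change c.src.u * ∑ n ∈ Finset.Ico c.qa c.qb, (c.pmx - sd n) ≤ _
    apply mul_le_mul_of_nonneg_left _ hu
    rw [Finset.sum_sub_distrib, Finset.sum_const, Nat.card_Ico, nsmul_eq_mul]
    have h1 := sum_sd_ge hab
    rw [← n_cast h] at h1
    push_cast
    push_cast at h1
    linarith
  have hpm : 2 ^ (c.K + 1) ≤ c.P * (c.qa + c.qb) := by
    -- pmax > σ-average
    have h1 : 2 / ((2 * c.qa + 1 : ℕ) : ℝ) < c.pmx := by
      have := S_le_pmn h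
      have := pmn_lt h
      rw [S_eq] at *
      linarith
    unfold pmx at h1
    rw [div_lt_div_iff₀ (by positivity) (by positivity)] at h1
    have h2 : ((2 * 2 ^ c.K : ℕ) : ℝ) < ((c.P * (2 * c.qa + 1) : ℕ) : ℝ) := by
      push_cast at h1 ⊢
      exact h1
    have h3 : 2 * 2 ^ c.K < c.P * (2 * c.qa + 1) := by exact_mod_cast h2
    have h4 : c.P * (2 * c.qa + 1) ≤ c.P * (c.qa + c.qb) := Nat.mul_le_mul_left _ (by omega)
    rw [pow_succ]
    omega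
  have hpX : 2 ^ (c.K + 1) ≤ c.P * (2 * c.qb - 1) := by
    have h4 : c.P * (c.qa + c.qb) ≤ c.P * (2 * c.qb - 1) := Nat.mul_le_mul_left _ (by omega)
    omega
  have e1 : c.src.u * (((c.qb - c.qa : ℕ) : ℝ) * (c.pmx - 2 / ((c.qa + c.qb : ℕ) : ℝ))) * 2 ^ 64 =
      ((c.M * 2 ^ 30 * (2 * c.qb - 1) * (c.P * (c.qa + c.qb) - 2 ^ (c.K + 1)) : ℕ) : ℝ) /
        ((2 ^ (c.K + 1) * (c.qa + c.qb) : ℕ) : ℝ) := by
    rw [u_eq h, Nat.cast_mul (_ : ℕ) (c.P * (c.qa + c.qb) - 2 ^ (c.K + 1)), Nat.cast_sub hpm]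
    unfold pmx
    rw [Nat.cast_mul (2 ^ (c.K + 1)) (c.qa + c.qb), Nat.cast_mul (c.M * 2 ^ 30) (2 * c.qb - 1),
      Nat.cast_mul c.M (2 ^ 30), Nat.cast_mul c.P (c.qa + c.qb), Nat.cast_pow, Nat.cast_pow,
      Nat.cast_ofNat]
    have h2 : (2 : ℝ) ^ (c.K + 1) = 2 ^ c.K * 2 := by rw [pow_succ]
    rw [h2]
    field_simp
  have e2 : (43 * (c.pmx - sd (c.qb - 1))) * 2 ^ 64 =
      ((43 * 2 ^ 64 * (c.P * (2 * c.qb - 1) - 2 ^ (c.K + 1)) : ℕ) : ℝ) /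
        ((2 ^ c.K * (2 * c.qb - 1) : ℕ) : ℝ) := by
    rw [σ_eq h, Nat.cast_mul (43 * 2 ^ 64) _, Nat.cast_sub hpX]
    unfold pmx
    rw [Nat.cast_mul (2 ^ c.K) (2 * c.qb - 1), Nat.cast_mul c.P (2 * c.qb - 1),
      Nat.cast_mul 43 (2 ^ 64), Nat.cast_pow, Nat.cast_pow, Nat.cast_pow, Nat.cast_ofNat,
      Nat.cast_ofNat]
    have h2 : (2 : ℝ) ^ (c.K + 1) = 2 ^ c.K * 2 := by rw [pow_succ]
    rw [h2]
    field_simp
  have f1 := cast_div_le
    (c.M * 2 ^ 30 * (2 * c.qb - 1) * (c.P * (c.qa + c.qb) - 2 ^ (c.K + 1)))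
    (2 ^ (c.K + 1) * (c.qa + c.qb)) (Nat.mul_pos (by positivity) (by omega))
  have f2 := cast_div_le (43 * 2 ^ 64 * (c.P * (2 * c.qb - 1) - 2 ^ (c.K + 1)))
    (2 ^ c.K * (2 * c.qb - 1)) (Nat.mul_pos (by positivity) (by omega))
  rw [← e1] at f1
  rw [← e2] at f2
  rw [le_div_iff₀ (by positivity)]
  change (c.src.T + 43 * (c.pmx - sd (c.qb - 1))) * 2 ^ 64 ≤ _
  have hT' : c.src.T * 2 ^ 64 ≤
      c.src.u * (((c.qb - c.qa : ℕ) : ℝ) * (c.pmx - 2 / ((c.qa + c.qb : ℕ) : ℝ))) * 2 ^ 64 :=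
    mul_le_mul_of_nonneg_right hT (by positivity)
  unfold BT
  push_cast at f1 f2 hT' ⊢
  linarith

end OC

end

end Pool.Agent.LibMoserT
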