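import Pool.Agent.LibMoserT.LedOT
set_option autoImplicit false
/-!
# From the kernel evaluations to `OTab.Chk`
-/
namespace Pool.Agent.LibMoserT

/-- the kernel evaluation of a part of the zones -/
def ZP (f : ℕ → ℕ) (a n z : ℕ) : Prop := Nat.beq (sumF f 8 a n) z = true

/-- the kernel evaluation of a part of the slots -/
def LP (f : ℕ → Bool) (a n : ℕ) : Prop := allF f 8 a n = true

theorem ZP.of {f : ℕ → ℕ} {a n z : ℕ} (h : Nat.beq (sumF f 8 a n) z = true) : ZP f a n z := h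

theorem LP.of {f : ℕ → Bool} {a n : ℕ} (h : allF f 8 a n = true) : LP f a n := h

theorem zchain {f : ℕ → ℕ} {b x y : ℕ} (n c : ℕ) (h1 : ∑ i ∈ Finset.range b, f i = x)
    (h2 : ZP f b n y) (hn : n ≤ 256) (hc : b + n = c) :
    ∑ i ∈ Finset.range c, f i = x + y := by
  unfold ZP at h2
  have h3 := Nat.eq_of_beq_eq_true h2
  rw [sumF_eq f 8 b n (by omega)] at h3
  rw [← hc, ← h1, ← h3, Finset.range_eq_Ico, Finset.range_eq_Ico]
  exact (Finset.sum_Ico_consecutive f (Nat.zero_le b) (Nat.le_add_right b n)).symm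

theorem zchain0 (f : ℕ → ℕ) : ∑ i ∈ Finset.range 0, f i = 0 := rfl

theorem lchain {f : ℕ → Bool} {b : ℕ} (n c : ℕ) (h1 : ∀ g, g < b → f g = true)
    (h2 : LP f b n) (hn : n ≤ 256) (hc : b + n = c) :
    ∀ g, g < c → f g = true := by
  intro g hg
  by_cases h : g < b
  · exact h1 g h
  · exact allF_spec f 8 b n (by omega) h2 g (by omega) (by omega)

theorem lchain0 (f : ℕ → Bool) : ∀ g, g < 0 → f g = true := by
  intro g hg
  omega

/-- from the evaluations to the check -/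
theorem OTab.chk_of {T : OTab} {Z RF RL Z' : ℕ} (hGO : (Nat.ble 1 T.GO && Nat.ble T.GO 560 &&
    Nat.ble 1 T.NZ && Nat.ble T.NZ 560 && Nat.ble T.nO (2 ^ 15) && Nat.beq (T.fc 0) 0 &&
    Nat.beq (Z / 2 ^ (204 * T.NZ)) T.nO && Nat.beq Z' Z) = true)
    (hRF : RF = repN 204 T.NZ) (hRL : RL = repN 56 512)
    (hz : ∑ g ∈ Finset.range T.GO, T.zfr RF g = Z')
    (hl : ∀ g, g < T.GO → (T.lok RL g && T.fok g) = true) : T.Chk Z := by
  simp only [Bool.and_eq_true] at hGO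
  obtain ⟨⟨⟨⟨⟨⟨⟨h1, h2⟩, h3⟩, h4⟩, h5⟩, h6⟩, h7⟩, h8⟩ := hGO
  refine ⟨Nat.le_of_ble_eq_true h1, Nat.le_of_ble_eq_true h2, Nat.le_of_ble_eq_true h3,
    Nat.le_of_ble_eq_true h4, Nat.le_of_ble_eq_true h5, Nat.eq_of_beq_eq_true h6, ?_, ?_, ?_,
    Nat.eq_of_beq_eq_true h7⟩
  · intro g hg
    have h := hl g hg
    rw [Bool.and_eq_true] at h
    exact h.2
  · intro g hg
    have h := hl g hg
    rw [Bool.and_eq_true] at h
    rw [← hRL]
    exact h.1
  · rw [← hRF, hz]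
    exact Nat.eq_of_beq_eq_true h8

end Pool.Agent.LibMoserT
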