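import Pool.Agent.LibMoserT.LedOU
set_option autoImplicit false
/-!
# Class O in the ledger (helper41)
-/
namespace Pool.Agent.LibMoserT
open Pool.Agent.LibMoser5 Pool.Agent.LibMoserF Classical

noncomputable section

/-- index of the frame of the window `k` (`k ≥ fl 8192 0 - 20`) -/
def gi (k : ℕ) : ℕ := Nat.findGreatest (fun g => fl 8192 g - 20 ≤ k) k

/-- **the concrete data of the tail** -/
def D41 (T : OTab) (a lam : ℕ → ℝ) (mJ0 Sp : ℝ) : TD where
  qn := 2048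
  l0 := 8192
  N1 := N41
  A := fun k => a (gi k)
  nO := T.nO
  pmn := fun c => (T.oc c).pmn
  pmx := fun c => (T.oc c).pmx
  MO := fun c => (T.oc c).MM
  qa := fun c => (T.oc c).qa
  qb := fun c => (T.oc c).qb
  fc := T.fc
  ug := fun _ => 32
  MG := fun g i => MGl (lam g) i
  NF := 4
  F := F41
  mJ0 := mJ0
  JT := 17 / 10000 + mJ0
  Sp := Sp
  k00 := 8192

theorem srcO_eq (T : OTab) (a lam : ℕ → ℝ) (mJ0 Sp : ℝ) (c : ℕ) :
    (D41 T a lam mJ0 Sp).srcO c = (T.oc c).src := rfl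

theorem fl8_ge (g : ℕ) : 8192 + g ≤ fl 8192 g := by
  induction g with
  | zero => exact le_rfl
  | succ g ih =>
    change 8192 + (g + 1) ≤ fl 8192 g + 32 * (fl 8192 g / 1024)
    omega

theorem fl8_lt_succ (g : ℕ) : fl 8192 g < fl 8192 (g + 1) := by
  have := fl8_ge g
  change fl 8192 g < fl 8192 g + 32 * (fl 8192 g / 1024)
  omega

theorem fl8_mono {g h : ℕ} (hgh : g ≤ h) : fl 8192 g ≤ fl 8192 h :=
  monotone_nat_of_le_succ (fun n => (fl8_lt_succ n).le) hgh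

theorem gi_eq {g k : ℕ} (h1 : fl 8192 g - 20 ≤ k) (h2 : k < fl 8192 (g + 1) - 20) : gi k = g := by
  unfold gi
  have hg := fl8_ge g
  apply le_antisymm
  · by_contra hc
    rw [not_le] at hc
    have h3 : fl 8192 (Nat.findGreatest (fun g => fl 8192 g - 20 ≤ k) k) - 20 ≤ k := by
      apply Nat.findGreatest_spec (P := fun g => fl 8192 g - 20 ≤ k) (m := g) (by omega) h1
    have h4 := fl8_mono (Nat.succ_le_of_lt hc)
    rw [Nat.succ_eq_add_one] at h4
    omega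
  · exact Nat.le_findGreatest (by omega) h1

theorem D41_std (T : OTab) {a lam : ℕ → ℝ} (mJ0 Sp : ℝ) (a0 : ∀ g, 0 ≤ a g) (a1 : ∀ g, a g ≤ 1)
    (lam0 : ∀ g, 0 ≤ lam g) (lam1 : ∀ g, lam g ≤ 1) : Std41 (D41 T a lam mJ0 Sp) a lam where
  qn := rfl
  l0 := rfl
  N1 := by norm_num [D41, N41]
  N1' := by norm_num [D41, N41]
  k00 := rfl
  ug := fun _ => rfl
  F := fun _ => rfl
  a0 := a0
  a1 := a1
  A := fun g k _ h1 h2 => by
    change a (gi k) = a g
    rw [gi_eq h1 h2]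
  lam0 := lam0
  lam1 := lam1
  MG := fun _ _ => rfl

variable {T : OTab} {Z : ℕ} {a lam : ℕ → ℝ} {mJ0 Sp : ℝ}

theorem fl8_dvd (g : ℕ) : 32 ∣ fl 8192 g := by
  induction g with
  | zero => exact ⟨256, rfl⟩
  | succ g ih =>
    change 32 ∣ fl 8192 g + 32 * (fl 8192 g / 1024)
    exact Dvd.dvd.add ih (Dvd.intro _ rfl)

theorem ix_fl (g : ℕ) : ix 2048 (fl 8192 g) = (fl 8192 g) ^ 3 / 2048 := by
  have hg := fl8_ge g
  obtain ⟨m, hm⟩ := fl8_dvd g
  have e : fl 8192 g ^ 3 = 2048 * (16 * m ^ 3) := by rw [hm]; ring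
  rw [e, Nat.mul_div_cancel_left _ (by norm_num)]
  have hm0 : 0 < m := by omega
  have h1 : 0 < 16 * m ^ 3 := by positivity
  unfold ix
  rw [Nat.ceil_eq_iff h1.ne']
  have e2 : ((fl 8192 g : ℕ) : ℝ) ^ 3 / 2048 = ((16 * m ^ 3 : ℕ) : ℝ) := by
    have e3 : ((fl 8192 g : ℕ) : ℝ) ^ 3 = 2048 * ((16 * m ^ 3 : ℕ) : ℝ) := by exact_mod_cast e
    rw [e3, mul_div_assoc, mul_div_cancel₀]
    norm_num
  rw [e2, Nat.cast_sub (by omega : 1 ≤ 16 * m ^ 3)]
  constructor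
  · push_cast
    linarith
  · linarith

/-- the frames of the table -/
theorem D41_q : (D41 T a lam mJ0 Sp).q = 2048 := by
  change ((2048 : ℕ) : ℝ) = 2048
  norm_num

theorem bg_eq {g : ℕ} (hg : g ≤ 567) : (D41 T a lam mJ0 Sp).bg g = bgn g := by
  unfold TD.bg bgn
  rcases Nat.eq_zero_or_pos g with rfl | h
  · rfl
  · have hb : Nat.beq g 0 = false := by
      rw [← Bool.not_eq_true]
      intro h1
      have := Nat.eq_of_beq_eq_true h1
      omega
    rw [if_neg (by omega), hb, cond_false, fT_eq g hg, D41_q]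
    exact ix_fl g

theorem list_sum_range' (F : ℕ → ℝ) (x m : ℕ) :
    ((List.range' x m).map F).sum = ∑ i ∈ Finset.Ico x (x + m), F i := by
  induction m with
  | zero => simp
  | succ m ih =>
    rw [List.range'_concat, List.map_append, List.sum_append, ih, ← add_assoc,
      Finset.sum_Ico_succ_top (by omega)]
    simp

theorem fl8_upper (f : ℕ) : 32 * fl 8192 (f + 1) ≤ 33 * fl 8192 f := by
  change 32 * (fl 8192 f + 32 * (fl 8192 f / 1024)) ≤ 33 * fl 8192 f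
  omega

theorem wO_sum (hT : T.Chk Z) (f : ℕ) (F : ℕ → ℝ) :
    (((D41 T a lam mJ0 Sp).wO f).map F).sum = ∑ c ∈ Finset.Ico (T.fc f) (T.fc (f + 1)), F c := by
  have h := list_sum_range' F (T.fc f) (T.fc (f + 1) - T.fc f)
  have h2 : T.fc f + (T.fc (f + 1) - T.fc f) = T.fc (f + 1) := by
    have := hT.fcm f
    omega
  rw [h2] at h
  exact h

/-- sums over the cells of the frames before `g` -/
theorem wO_frames (hT : T.Chk Z) (F : ℕ → ℕ → ℝ) (g : ℕ) :
    ∑ f ∈ Finset.range g, (((D41 T a lam mJ0 Sp).wO f).map (F f)).sum =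
      ∑ c ∈ Finset.range (T.fc g), F (T.fo c) c := by
  induction g with
  | zero => simp [hT.fc0]
  | succ g ih =>
    rw [Finset.sum_range_succ, ih, wO_sum hT]
    have h1 : ∑ c ∈ Finset.Ico (T.fc g) (T.fc (g + 1)), F g c =
        ∑ c ∈ Finset.Ico (T.fc g) (T.fc (g + 1)), F (T.fo c) c := by
      apply Finset.sum_congr rfl
      intro c hc
      rw [Finset.mem_Ico] at hc
      rw [hT.fo_eq hc.1 hc.2]
    rw [h1, Finset.range_eq_Ico, Finset.sum_Ico_consecutive _ (Nat.zero_le _) (hT.fcm g),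
      ← Finset.range_eq_Ico]

/-- data of a cell -/
theorem cell_dat (hT : T.Chk Z) {c : ℕ} (hc : c < T.nO) :
    (T.oc c).Val (fl 8192 (T.fo c + 1)) (fl 8192 (rs1 (T.rc c)) - 20) (fl 8192 (rt2 (T.rc c)) - 20) ∧
      T.fo c < T.GO := by
  obtain ⟨g, hg, h1, h2⟩ := hT.ex_frame hc
  have hfo := hT.fo_eq h1 h2
  obtain ⟨hv, -, h3, h4, h5, -⟩ := OTab.okC_spec (hT.okc hc)
  have hGO := hT.GO2
  have hNZ := hT.NZ2
  rw [fT_eq _ (by omega)] at hv
  unfold jz at hv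
  rw [fT_eq _ (by omega), fT_eq _ (by omega)] at hv
  exact ⟨hv, by omega⟩

theorem fl8_ratio (f : ℕ) : th 2048 (fl 8192 f) ≤ 11 / 10 * th 2048 (fl 8192 (f + 1)) := by
  have h1 := fl8_upper f
  have h2 := fl8_ge f
  have h3 : (0 : ℝ) < fl 8192 f := by
    have : 0 < fl 8192 f := by omega
    exact_mod_cast this
  have h4 : (0 : ℝ) < fl 8192 (f + 1) := by
    have := fl8_ge (f + 1)
    have : 0 < fl 8192 (f + 1) := by omega
    exact_mod_cast this
  have h5 : (fl 8192 (f + 1) : ℝ) ≤ 33 / 32 * fl 8192 f := by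
    have : ((32 * fl 8192 (f + 1) : ℕ) : ℝ) ≤ ((33 * fl 8192 f : ℕ) : ℝ) := by exact_mod_cast h1
    push_cast at this
    linarith
  unfold th
  rw [mul_div_assoc', div_le_div_iff₀ (by positivity) (by positivity)]
  have h6 : (fl 8192 (f + 1) : ℝ) ^ 3 ≤ (33 / 32 * fl 8192 f) ^ 3 := pow_le_pow_left₀ h4.le h5 3
  have h7 : (33 / 32 * (fl 8192 f : ℝ)) ^ 3 = (33 / 32) ^ 3 * (fl 8192 f : ℝ) ^ 3 := by ring
  rw [h7] at h6
  have h8 : (0 : ℝ) < (fl 8192 f : ℝ) ^ 3 := by positivity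
  norm_num at h6 ⊢
  linarith

theorem fo_lt (hT : T.Chk Z) {c g : ℕ} (hc : c < T.fc g) : T.fo c < g := by
  obtain ⟨f, hf, h1, h2⟩ := hT.ex_frame (lt_of_lt_of_le hc (hT.fcn g))
  rw [hT.fo_eq h1 h2]
  by_contra h
  have := hT.fc_mono (not_lt.1 h)
  omega

/-- the pool lies behind the start of the frame -/
theorem qa_ge (c : ℕ) : bgn (T.fo c) ≤ (T.oc c).qa := Nat.le_add_right _ _

theorem sd_qa_le (hT : T.Chk Z) {c : ℕ} (hc : c < T.nO) :
    sd (T.oc c).qa ≤ th 2048 (fl 8192 (T.fo c)) := by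
  obtain ⟨-, hfo⟩ := cell_dat hT hc
  have hGO := hT.GO2
  have h1 := qa_ge (T := T) c
  have h2 : (fl 8192 (T.fo c)) ^ 3 / 2048 ≤ bgn (T.fo c) := by
    unfold bgn
    rw [fT_eq _ (by omega)]
    by_cases h0 : T.fo c = 0
    · rw [h0]
      change (8192 ^ 3 / 2048 : ℕ) ≤ N41
      unfold N41
      norm_num
    · have hb : Nat.beq (T.fo c) 0 = false := by
        rcases hbb : Nat.beq (T.fo c) 0 with _ | _
        · rfl
        · exact absurd (Nat.eq_of_beq_eq_true hbb) h0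
      rw [hb, cond_false]
  have h3 := ix_fl (T.fo c)
  have h4 : ix 2048 (fl 8192 (T.fo c)) ≤ (T.oc c).qa := by omega
  have h5 := fl8_ge (T.fo c)
  exact (ix_le_iff (by norm_num) (by omega)).1 h4

theorem cell_D (hT : T.Chk Z) {g j c : ℕ} (hj : fl 8192 g - 20 ≤ j)
    (hj' : j < fl 8192 (g + 1) - 20) (hc : c < T.fc g) :
    ((D41 T a lam mJ0 Sp).srcO c).D (D41 T a lam mJ0 Sp).q j ((D41 T a lam mJ0 Sp).σm (T.fo c)) ≤
      if rs1 (T.rc c) ≤ g ∧ g < rt2 (T.rc c) then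
        ((T.oc c).V : ℝ) * (2048 / ((fl 8192 g : ℝ) - 19) ^ 3) +
          ((T.oc c).U : ℝ) / 2 ^ 64 * (((fl 8192 (g + 1) : ℝ) - 21) / 3) else 0 := by
  have hc' : c < T.nO := lt_of_lt_of_le hc (hT.fcn g)
  obtain ⟨hv, hfo⟩ := cell_dat hT hc'
  have hgl := fl8_ge g
  have hgl1 := fl8_ge (g + 1)
  change (T.oc c).src.D 2048 j (th 2048 (fl 8192 (T.fo c + 1))) ≤ _
  split_ifs with hr
  · have h1 := OC.D_le hv hj (jb := fl 8192 (g + 1) - 20) (by omega) (by omega)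
      (σm := th 2048 (fl 8192 (T.fo c + 1))) (by
        unfold th
        have := fl8_ge (T.fo c + 1)
        have h3 : (0 : ℝ) < fl 8192 (T.fo c + 1) := by
          have : 0 < fl 8192 (T.fo c + 1) := by omega
          exact_mod_cast this
        positivity) (((OC.σ_le_S hv).trans (sd_qa_le hT hc')).trans (fl8_ratio _))
    refine h1.trans (le_of_eq ?_)
    have e1 : ((fl 8192 g - 20 : ℕ) : ℝ) + 1 = (fl 8192 g : ℝ) - 19 := by
      rw [Nat.cast_sub (by omega)]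
      push_cast
      ring
    have e2 : ((fl 8192 (g + 1) - 20 : ℕ) : ℝ) - 1 = (fl 8192 (g + 1) : ℝ) - 21 := by
      rw [Nat.cast_sub (by omega)]
      push_cast
      ring
    rw [e1, e2]
  · rw [not_and_or, not_le, not_lt] at hr
    rcases hr with hr | hr
    · have h1 := fl8_mono (Nat.succ_le_of_lt hr)
      rw [Nat.succ_eq_add_one] at h1
      exact (OC.D_zero' hv (by omega) _).1.le
    · have h1 := fl8_mono hr
      have h2 := fl8_ge (rt2 (T.rc c))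
      exact (OC.D_zero hv (by omega) (by omega) _).le

/-- class O, children in the windows of frame `g` -/
theorem O_D (hT : T.Chk Z) {g j : ℕ} (_hg : 1 ≤ g) (hj : fl 8192 g - 20 ≤ j)
    (hj' : j < fl 8192 (g + 1) - 20) :
    ∑ f ∈ Finset.range g, (((D41 T a lam mJ0 Sp).wO f).map (fun c =>
      ((D41 T a lam mJ0 Sp).srcO c).D (D41 T a lam mJ0 Sp).q j ((D41 T a lam mJ0 Sp).σm f))).sum ≤
      (T.zV Z g : ℝ) * (2048 / ((fl 8192 g : ℝ) - 19) ^ 3) +
        (T.zU Z g : ℝ) / 2 ^ 64 * (((fl 8192 (g + 1) : ℝ) - 21) / 3) := by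
  rw [wO_frames hT (fun f c => ((D41 T a lam mJ0 Sp).srcO c).D (D41 T a lam mJ0 Sp).q j
    ((D41 T a lam mJ0 Sp).σm f))]
  have hgl := fl8_ge g
  have hgl1 := fl8_ge (g + 1)
  obtain ⟨x, hx⟩ : ∃ x : ℝ, x = 2048 / ((fl 8192 g : ℝ) - 19) ^ 3 := ⟨_, rfl⟩
  obtain ⟨y, hy⟩ : ∃ y : ℝ, y = ((fl 8192 (g + 1) : ℝ) - 21) / 3 := ⟨_, rfl⟩
  have hx0 : 0 ≤ x := by
    rw [hx]
    have : (0 : ℝ) < (fl 8192 g : ℝ) - 19 := by
      have : ((19 : ℕ) : ℝ) < fl 8192 g := by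
        have : 19 < fl 8192 g := by omega
        exact_mod_cast this
      push_cast at this
      linarith
    positivity
  have hy0 : 0 ≤ y := by
    rw [hy]
    have : ((21 : ℕ) : ℝ) ≤ fl 8192 (g + 1) := by
      have : 21 ≤ fl 8192 (g + 1) := by omega
      exact_mod_cast this
    push_cast at this
    apply div_nonneg _ (by norm_num)
    linarith
  have h1 : ∑ c ∈ Finset.range (T.fc g), ((D41 T a lam mJ0 Sp).srcO c).D (D41 T a lam mJ0 Sp).q j
      ((D41 T a lam mJ0 Sp).σm (T.fo c)) ≤ ∑ c ∈ Finset.range T.nO,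
      (if rs1 (T.rc c) ≤ g ∧ g < rt2 (T.rc c) then
        ((T.oc c).V : ℝ) * x + ((T.oc c).U : ℝ) / 2 ^ 64 * y else 0) := by
    refine (Finset.sum_le_sum (fun c hc => cell_D hT hj hj' (Finset.mem_range.1 hc))).trans ?_
    rw [← hx, ← hy]
    apply Finset.sum_le_sum_of_subset_of_nonneg
    · intro c hc
      rw [Finset.mem_range] at hc ⊢
      exact lt_of_lt_of_le hc (hT.fcn g)
    · intro c _ _
      split_ifs
      · positivity
      · exact le_rfl
  refine h1.trans ?_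
  rw [← hx, ← hy]
  by_cases hg : g < T.NZ
  · obtain ⟨hV, hU, -⟩ := hT.zones hg
    rw [hV, hU, ← Finset.sum_filter, Finset.sum_add_distrib, ← Finset.sum_mul, ← Finset.sum_mul,
      ← Finset.sum_div]
    push_cast
    exact le_rfl
  · have h2 : ∀ c ∈ Finset.range T.nO, (if rs1 (T.rc c) ≤ g ∧ g < rt2 (T.rc c) then
        ((T.oc c).V : ℝ) * x + ((T.oc c).U : ℝ) / 2 ^ 64 * y else 0) = 0 := by
      intro c hc
      rw [if_neg]
      rintro ⟨-, h⟩
      have := (OTab.okC_spec (hT.okc (Finset.mem_range.1 hc))).2.2.2.2.1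
      omega
    rw [Finset.sum_eq_zero h2]
    positivity

/-- class O, births -/
theorem O_B (hT : T.Chk Z) {g j : ℕ} (_hg : 1 ≤ g) (hj : fl 8192 g - 20 ≤ j)
    (hj' : j < fl 8192 (g + 1) - 20) :
    ∑ f ∈ Finset.range g, (((D41 T a lam mJ0 Sp).wO f).map (fun c =>
      ((D41 T a lam mJ0 Sp).srcO c).B (D41 T a lam mJ0 Sp).q j)).sum ≤
      chC * ((T.zB Z g : ℝ) / 2 ^ 64) := by
  rw [wO_frames hT (fun _ c => ((D41 T a lam mJ0 Sp).srcO c).B (D41 T a lam mJ0 Sp).q j)]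
  have hC : (0 : ℝ) ≤ chC := by unfold chC; norm_num
  have hNZ := hT.NZ1
  have hgl := fl8_ge g
  obtain ⟨s, hs⟩ : ∃ s, s = min g (T.NZ - 1) := ⟨_, rfl⟩
  have hs1 : s < T.NZ := by omega
  have h1 : ∑ c ∈ Finset.range (T.fc g), ((D41 T a lam mJ0 Sp).srcO c).B (D41 T a lam mJ0 Sp).q j ≤
      ∑ c ∈ Finset.range T.nO,
        (if rs1 (T.rc c) ≤ s then chC * (((T.oc c).BT : ℝ) / 2 ^ 64) else 0) := by
    have h2 : ∀ c ∈ Finset.range (T.fc g),
        ((D41 T a lam mJ0 Sp).srcO c).B (D41 T a lam mJ0 Sp).q j ≤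
        (if rs1 (T.rc c) ≤ s then chC * (((T.oc c).BT : ℝ) / 2 ^ 64) else 0) := by
      intro c hc
      have hc' : c < T.nO := lt_of_lt_of_le (Finset.mem_range.1 hc) (hT.fcn g)
      obtain ⟨hv, hfo⟩ := cell_dat hT hc'
      have h3 := (OTab.okC_spec (hT.okc hc')).2.2.1
      change (T.oc c).src.B 2048 j ≤ _
      split_ifs with hr
      · exact OC.B_le hv j
      · have h4 : g < rs1 (T.rc c) := by omega
        have h5 := fl8_mono (Nat.succ_le_of_lt h4)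
        rw [Nat.succ_eq_add_one] at h5
        exact (OC.D_zero' hv (by omega) 0).2.le
    refine (Finset.sum_le_sum h2).trans ?_
    apply Finset.sum_le_sum_of_subset_of_nonneg
    · intro c hc
      rw [Finset.mem_range] at hc ⊢
      exact lt_of_lt_of_le hc (hT.fcn g)
    · intro c _ _
      split_ifs
      · positivity
      · exact le_rfl
  refine h1.trans ?_
  obtain ⟨-, -, hB⟩ := hT.zones hs1
  unfold OTab.zB
  rw [← hs, hB, ← Finset.sum_filter, ← Finset.mul_sum, ← Finset.sum_div]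
  push_cast
  exact le_rfl

/-- everything about one cell of the table -/
theorem cell_facts (hT : T.Chk Z) {g c : ℕ} (h1 : T.fc g ≤ c) (h2 : c < T.fc (g + 1)) :
    g < T.GO ∧ (T.oc c).Val (fT (g + 1)) (jz (rs1 (T.rc c))) (jz (rt2 (T.rc c))) ∧
      rb (T.rc c) ≤ 512 ∧ rt2 (T.rc c) ≤ T.NZ ∧ rt2 (T.rc c) ≤ T.mt g ∧
      (T.oc c).qa = bgn g + ra (T.rc c) * hsl g ∧ (T.oc c).qb = bgn g + rb (T.rc c) * hsl g ∧
      0 < hsl g := by
  have hg := hT.lt_GO h1 h2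
  have hfo := hT.fo_eq h1 h2
  have hok := hT.okc (lt_of_lt_of_le h2 (hT.fcn _))
  have hs := OTab.okC_spec hok
  rw [hfo] at hs
  have e : T.oc c = mkOC c (T.rc c) g := by
    unfold OTab.oc
    rw [hfo]
  rw [e]
  obtain ⟨hv, hb, _, _, ht, hm, _⟩ := hs
  refine ⟨hg, hv, hb, ht, hm, rfl, rfl, ?_⟩
  have hab := hv.ab
  change bgn g + ra (T.rc c) * hsl g < bgn g + rb (T.rc c) * hsl g at hab
  rcases Nat.eq_zero_or_pos (hsl g) with h0 | h0
  · rw [h0] at hab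
    omega
  · exact h0

/-- class O, load -/
theorem O_load (hT : T.Chk Z) {g n : ℕ} (hn : n ∈ (D41 T a lam mJ0 Sp).Frm g) :
    (((D41 T a lam mJ0 Sp).wO g).map (fun c => if n ∈ ((D41 T a lam mJ0 Sp).srcO c).Q then
      ((D41 T a lam mJ0 Sp).srcO c).u else 0)).sum ≤ (T.lo g : ℝ) / 2 ^ 20 := by
  have _ := hn
  have hfm := hT.fcm g
  have hlo : (0 : ℝ) ≤ (T.lo g : ℝ) / 2 ^ 20 := by positivity
  change ((List.range' (T.fc g) (T.fc (g + 1) - T.fc g)).map (fun c =>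
    if n ∈ (T.oc c).src.Q then (T.oc c).src.u else 0)).sum ≤ _
  rw [list_sum_range', Nat.add_sub_cancel' hfm]
  by_cases hex : ∃ c ∈ Finset.Ico (T.fc g) (T.fc (g + 1)), n ∈ (T.oc c).src.Q
  · obtain ⟨c0, hc0, hn0⟩ := hex
    rw [Finset.mem_Ico] at hc0
    obtain ⟨hgO, hv0, hb0, _, _, ea0, eb0, hh⟩ := cell_facts hT hc0.1 hc0.2
    obtain ⟨s, hs⟩ : ∃ s, s = (n - bgn g) / hsl g := ⟨_, rfl⟩
    -- membership in a pool in terms of the slot
    have key : ∀ c ∈ Finset.Ico (T.fc g) (T.fc (g + 1)), n ∈ (T.oc c).src.Q →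
        ra (T.rc c) ≤ s ∧ s < rb (T.rc c) := by
      intro c hc hnc
      rw [Finset.mem_Ico] at hc
      obtain ⟨_, _, _, _, _, ea, eb, _⟩ := cell_facts hT hc.1 hc.2
      change n ∈ Finset.Ico (T.oc c).qa (T.oc c).qb at hnc
      rw [Finset.mem_Ico, ea, eb] at hnc
      constructor
      · rw [hs, Nat.le_div_iff_mul_le hh]
        omega
      · rw [hs, Nat.div_lt_iff_lt_mul hh]
        omega
    have hs512 : s < 512 := by
      have := key c0 (Finset.mem_Ico.2 hc0) hn0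
      omega
    have h1 : ∀ c ∈ Finset.Ico (T.fc g) (T.fc (g + 1)),
        (if n ∈ (T.oc c).src.Q then (T.oc c).src.u else 0) ≤
          if ra (T.rc c) ≤ s ∧ s < rb (T.rc c) then ((T.oc c).L : ℝ) / 2 ^ 40 else 0 := by
      intro c hc
      have hc' := hc
      rw [Finset.mem_Ico] at hc'
      obtain ⟨_, hv, _⟩ := cell_facts hT hc'.1 hc'.2
      split_ifs with h2 h3
      · exact OC.u_le hv
      · exact absurd (key c hc h2) h3
      · positivity
      · exact le_rfl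
    refine (Finset.sum_le_sum h1).trans ?_
    rw [← Finset.sum_filter, ← Finset.sum_div, ← Nat.cast_sum]
    have h2 := hT.slot hgO hs512
    have h3 : ((∑ c ∈ (Finset.Ico (T.fc g) (T.fc (g + 1))).filter
        (fun c => ra (T.rc c) ≤ s ∧ s < rb (T.rc c)), (T.oc c).L : ℕ) : ℝ) ≤
          ((T.lo g * 2 ^ 20 : ℕ) : ℝ) := by exact_mod_cast h2
    rw [div_le_div_iff₀ (by positivity) (by positivity)]
    push_cast at h3 ⊢
    have e40 : (2 : ℝ) ^ 40 = 2 ^ 20 * 2 ^ 20 := by norm_num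
    rw [e40]
    have h20 : (0 : ℝ) < 2 ^ 20 := by positivity
    nlinarith
  · push Not at hex
    rw [Finset.sum_eq_zero]
    · exact hlo
    · intro c hc
      rw [if_neg (hex c hc)]

/-- class O, gap (for the rounding errors) -/
theorem O_gap (hT : T.Chk Z) {g j f0 : ℕ} (hj : fl 8192 g - 20 ≤ j)
    (hm : f0 = 0 ∨ T.mt (min (f0 - 1) T.GO) ≤ g) :
    ∀ h, h < f0 → ∀ c, (D41 T a lam mJ0 Sp).fc h ≤ c → c < (D41 T a lam mJ0 Sp).fc (h + 1) →
      th (D41 T a lam mJ0 Sp).q j ≤ (D41 T a lam mJ0 Sp).pmn c - sd ((D41 T a lam mJ0 Sp).qa c) := by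
  intro h hh c h1 h2
  change T.fc h ≤ c at h1
  change c < T.fc (h + 1) at h2
  rw [D41_q]
  change th 2048 j ≤ (T.oc c).pmn - sd (T.oc c).qa
  obtain ⟨hgO, hv, _, ht, hmt, _⟩ := cell_facts hT h1 h2
  have hm' : T.mt (min (f0 - 1) T.GO) ≤ g := by
    rcases hm with hm | hm
    · omega
    · exact hm
  have h3 : T.mt h ≤ T.mt (min (f0 - 1) T.GO) :=
    hT.mt_mono (le_min (by omega) (by omega)) (min_le_right _ _)
  have h4 : rt2 (T.rc c) ≤ g := by omega
  have hNZ := hT.NZ2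
  have h5 : fT (rt2 (T.rc c)) = fl 8192 (rt2 (T.rc c)) := fT_eq _ (by omega)
  have h6 := fl8_ge (rt2 (T.rc c))
  have h7 := fl8_mono h4
  have h8 := OC.Dm_ge hv (j := j) (by unfold jz; omega) (by unfold jz; omega)
  exact not_lt.1 h8

theorem O_fcm (hT : T.Chk Z) (g : ℕ) : T.fc g ≤ T.fc (g + 1) := hT.fcm g

theorem O_fcn (hT : T.Chk Z) (g : ℕ) : T.fc g ≤ T.nO := hT.fcn g

theorem O_ok (hT : T.Chk Z) (g c : ℕ) (h1 : T.fc g ≤ c) (h2 : c < T.fc (g + 1)) :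
    ((D41 T a lam mJ0 Sp).srcO c).Ok ((D41 T a lam mJ0 Sp).Frm g) := by
  obtain ⟨hgO, hv, hb, _, _, ea, eb, hh⟩ := cell_facts hT h1 h2
  have hGO := hT.GO2
  rw [srcO_eq]
  apply OC.srcOk hv
  unfold TD.Frm
  rw [bg_eq (by omega), bg_eq (by omega), ea, eb]
  apply Finset.Ico_subset_Ico
  · omega
  · have h3 : rb (T.rc c) * hsl g ≤ 512 * hsl g := Nat.mul_le_mul_right _ hb
    have h4 : 512 * hsl g ≤ bgn (g + 1) - bgn g := by
      unfold hsl
      exact Nat.mul_div_le _ _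
    have h5 : 0 < 512 * hsl g := by omega
    omega

theorem O_oth (hT : T.Chk Z) (g c : ℕ) (h1 : T.fc g ≤ c) (h2 : c < T.fc (g + 1)) :
    th (D41 T a lam mJ0 Sp).q ((D41 T a lam mJ0 Sp).fl (g + 1) - 20) ≤
      (D41 T a lam mJ0 Sp).pmn c := by
  obtain ⟨hgO, hv, _⟩ := cell_facts hT h1 h2
  have hGO := hT.GO2
  have h3 := fl8_ge (g + 1)
  have h4 := fT_eq (g + 1) (by omega)
  have h5 := OC.oth_real hv (by omega)
  rw [D41_q]
  change th 2048 (fl 8192 (g + 1) - 20) ≤ (T.oc c).pmn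
  rw [← h4]
  exact h5

theorem O_ork (hT : T.Chk Z) (c : ℕ) (h : c < T.nO) :
    (D41 T a lam mJ0 Sp).pmx c ≤ (1 + 1 / 36) * sd ((D41 T a lam mJ0 Sp).qb c - 1) := by
  obtain ⟨g, _, h1, h2⟩ := hT.ex_frame h
  obtain ⟨_, hv, _⟩ := cell_facts hT h1 h2
  exact OC.ork_real hv

theorem O_ok0 (hT : T.Chk Z) (c : ℕ) (h : c < T.fc 1) :
    (D41 T a lam mJ0 Sp).pmx c ≤ th (D41 T a lam mJ0 Sp).q (D41 T a lam mJ0 Sp).k00 := by
  have _ := hT
  have _ := h
  rw [D41_q]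
  change ((PPC c : ℕ) : ℝ) / 2 ^ KC c ≤ th 2048 8192
  have h1 : ((PPC c : ℕ) : ℝ) ≤ 4096 := by
    have : PPC c ≤ 4096 := by unfold PPC; exact Nat.sub_le _ _
    exact_mod_cast this
  have h2 : (2 : ℝ) ^ 40 ≤ 2 ^ KC c := by
    apply pow_le_pow_right₀ (by norm_num)
    unfold KC
    exact Nat.le_add_right _ _
  have h3 : ((PPC c : ℕ) : ℝ) / 2 ^ KC c ≤ 4096 / 2 ^ 40 :=
    div_le_div₀ (by norm_num) h1 (by positivity) h2
  refine h3.trans (le_of_eq ?_)
  unfold th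
  norm_num

end

end Pool.Agent.LibMoserT
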