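import Pool.Agent.LibMoserT.LedOC
import Pool.Agent.LibMoserT.LedFT
set_option autoImplicit false
/-!
# Table of class O: definitions
-/
namespace Pool.Agent.LibMoserT
open Pool.Agent.LibMoser5 Pool.Agent.LibMoserF

/-- step of the cell `c`: octaves 0-11: 2048 cells, 12-15: 512, 16-19: 256, then 128 -/
def stC (c : ℕ) : ℕ :=
  bif Nat.blt c 24576 then 1 else bif Nat.blt c 26624 then 4 else bif Nat.blt c 27648 then 8 else 16

/-- exponent of the cell `c` -/
def KC (c : ℕ) : ℕ :=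
  40 + bif Nat.blt c 24576 then c / 2048 else bif Nat.blt c 26624 then 12 + (c - 24576) / 512
    else bif Nat.blt c 27648 then 16 + (c - 26624) / 256 else 20 + (c - 27648) / 128

/-- upper edge of the cell `c` is `PPC c / 2 ^ KC c` -/
def PPC (c : ℕ) : ℕ :=
  4096 - bif Nat.blt c 24576 then c % 2048 else bif Nat.blt c 26624 then 4 * ((c - 24576) % 512)
    else bif Nat.blt c 27648 then 8 * ((c - 26624) % 256) else 16 * ((c - 27648) % 128)

/-- first square of the tail (run B) -/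
def N41 : ℕ := 268530469

/-- first square of frame `g` -/
def bgn (g : ℕ) : ℕ := bif Nat.beq g 0 then N41 else (fT g) ^ 3 / 2048

/-- length of a slot of frame `g` -/
def hsl (g : ℕ) : ℕ := (bgn (g + 1) - bgn g) / 512

/-- entry `g` of a list -/
def lget (l : List ℕ) (g : ℕ) : ℕ := (l.drop g).headD 0

/-- the packed tables of class O.  A record has 68 bits: mass (28), first slot (10), last slot (10),
first zone (10), last zone (10).  Zones = frames. -/
structure OTab where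
  /-- number of frames with cells -/
  GO : ℕ
  /-- number of zones which are reached -/
  NZ : ℕ
  /-- packed first cells (16 bits), entries `0 .. GO` -/
  fcT : ℕ
  /-- packed records of the frames -/
  rbL : List ℕ
  /-- packed bounds for the loads (20 bits, unit `2 ^ (-20)`) -/
  loT : ℕ
  /-- packed bounds for the last zone of the cells of the frame (10 bits), nondecreasing -/
  mtT : ℕ

namespace OTab
variable (T : OTab)

def fc (g : ℕ) : ℕ := dig T.fcT 16 (min g T.GO)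
def nO : ℕ := T.fc T.GO
def lo (g : ℕ) : ℕ := bif Nat.blt g T.GO then dig T.loT 20 g else 0
def mt (g : ℕ) : ℕ := dig T.mtT 10 g

/-- frame of the cell `c` -/
def fo (c : ℕ) : ℕ := Nat.findGreatest (fun g => T.fc g ≤ c) (T.GO - 1)

/-- the packed records of frame `g` -/
def RB (g : ℕ) : ℕ := lget T.rbL g

/-- record of the cell -/
def rc (c : ℕ) : ℕ := dig (T.RB (T.fo c)) 68 (c - T.fc (T.fo c))

end OTab

/-- fields of a record -/
def rM (r : ℕ) : ℕ := r % 2 ^ 28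
def ra (r : ℕ) : ℕ := (r >>> 28) % 1024
def rb (r : ℕ) : ℕ := (r >>> 38) % 1024
def rs1 (r : ℕ) : ℕ := (r >>> 48) % 1024
def rt2 (r : ℕ) : ℕ := (r >>> 58) % 1024

/-- the cell `c` with record `r` in frame `g` -/
def mkOC (c r g : ℕ) : OC where
  P := PPC c
  K := KC c
  st := stC c
  M := rM r
  qa := bgn g + ra r * hsl g
  qb := bgn g + rb r * hsl g

namespace OTab
variable (T : OTab)

def oc (c : ℕ) : OC := mkOC c (T.rc c) (T.fo c)

end OTab

/-- first window of the zone `s` -/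
def jz (s : ℕ) : ℕ := fT s - 20

namespace OC
variable (c : OC)

/-- Boolean form of `Val` -/
def okB (l1 J1 J2 : ℕ) : Bool :=
  Nat.blt c.qa c.qb && Nat.blt c.st c.P &&
  Nat.ble (2 ^ (c.K + 15)) ((c.P - c.st) * 16383 * (2 * c.qa + 1)) &&
  Nat.ble (36 * (c.P * (2 * c.qb - 1))) (37 * 2 ^ (c.K + 1)) &&
  Nat.ble (2048 * 2 ^ (c.K + 14)) ((c.P - c.st) * 16383 * (l1 - 20) ^ 3) &&
  Nat.ble (c.P * (2 * c.qb - 1) * J1 ^ 3)
    (2048 * 2 ^ c.K * (2 * c.qb - 1) + 2 ^ (c.K + 1) * J1 ^ 3) &&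
  Nat.ble (2048 * 2 ^ (c.K + 14) * (2 * c.qa + 1) + 2 ^ (c.K + 15) * J2 ^ 3)
    ((c.P - c.st) * 16383 * (2 * c.qa + 1) * J2 ^ 3)

theorem okB_val {l1 J1 J2 : ℕ} (h : c.okB l1 J1 J2 = true) : c.Val l1 J1 J2 := by
  unfold okB at h
  simp only [Bool.and_eq_true] at h
  obtain ⟨⟨⟨⟨⟨⟨h1, h2⟩, h3⟩, h4⟩, h5⟩, h6⟩, h7⟩ := h
  exact ⟨Nat.le_of_ble_eq_true h1, Nat.le_of_ble_eq_true h2, Nat.le_of_ble_eq_true h3,
    Nat.le_of_ble_eq_true h4, Nat.le_of_ble_eq_true h5, Nat.le_of_ble_eq_true h6,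
    Nat.le_of_ble_eq_true h7⟩

end OC

/-- check of the cell `c` with record `r` in frame `g`; `NZ` zones, `m` = bound for the last zone -/
def okC (NZ m c r g : ℕ) : Bool :=
  (mkOC c r g).okB (fT (g + 1)) (jz (rs1 r)) (jz (rt2 r)) && Nat.ble (rb r) 512 &&
  Nat.blt (rs1 r) NZ && Nat.ble (rs1 r) (rt2 r) && Nat.ble (rt2 r) NZ && Nat.ble (rt2 r) m &&
  Nat.blt (mkOC c r g).V (2 ^ 52) && Nat.blt (mkOC c r g).U (2 ^ 52) &&
  Nat.blt (mkOC c r g).BT (2 ^ 52) && Nat.blt (mkOC c r g).L (2 ^ 40)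

/-- contribution of a cell to the zones (204 bits per zone) and to the count; `RF` = repunit -/
def zval (RF NZ m c r g : ℕ) : ℕ :=
  bif okC NZ m c r g then
    ((mkOC c r g).V + (mkOC c r g).U * 2 ^ 68) * blk RF 204 NZ (rs1 r) (rt2 r) +
      ((mkOC c r g).BT * 2 ^ 136) * blk RF 204 NZ (rs1 r) NZ + 2 ^ (204 * NZ)
  else 0

/-- contribution of a cell to the slots of its frame (56 bits per slot) -/
def lval (RL c r g : ℕ) : ℕ := (mkOC c r g).L * blk RL 56 512 (ra r) (rb r)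

namespace OTab
variable (T : OTab)

/-- zone sum of frame `g` -/
def zfr (RF g : ℕ) : ℕ :=
  sumF (fun i => zval RF T.NZ (T.mt g) (T.fc g + i) (dig (T.RB g) 68 i) g) 10 0
    (T.fc (g + 1) - T.fc g)

/-- slot sum of frame `g` -/
def lfr (RL g : ℕ) : ℕ :=
  sumF (fun i => lval RL (T.fc g + i) (dig (T.RB g) 68 i) g) 10 0 (T.fc (g + 1) - T.fc g)

/-- check of the slots of frame `g` -/
def lok (RL g : ℕ) : Bool :=
  allF (fun s => Nat.ble (dig (T.lfr RL g) 56 s) (T.lo g * 2 ^ 20)) 9 0 512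

/-- check of the frame table -/
def fok (g : ℕ) : Bool :=
  Nat.ble (T.fc g) (T.fc (g + 1)) && Nat.ble (T.fc (g + 1)) (T.fc g + 1024) &&
  Nat.ble (T.mt g) (T.mt (g + 1))

/-- **what the kernel checks**; `Z` = total of the zone sums -/
structure Chk (T : OTab) (Z : ℕ) : Prop where
  GO1 : 1 ≤ T.GO
  GO2 : T.GO ≤ 560
  NZ1 : 1 ≤ T.NZ
  NZ2 : T.NZ ≤ 560
  nO : T.nO ≤ 2 ^ 15
  fc0 : T.fc 0 = 0
  fok : ∀ g, g < T.GO → T.fok g = true
  lok : ∀ g, g < T.GO → T.lok (repN 56 512) g = true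
  zs : ∑ g ∈ Finset.range T.GO, T.zfr (repN 204 T.NZ) g = Z
  cnt : Z / 2 ^ (204 * T.NZ) = T.nO

/-- sums of `V`, `U`, `BT` over the cells which reach zone `s` (births: `s1 ≤ s`) -/
def zV (T : OTab) (Z s : ℕ) : ℕ := bif Nat.blt s T.NZ then dig Z 204 s % 2 ^ 68 else 0
def zU (T : OTab) (Z s : ℕ) : ℕ := bif Nat.blt s T.NZ then (dig Z 204 s >>> 68) % 2 ^ 68 else 0
def zB (T : OTab) (Z s : ℕ) : ℕ := dig Z 204 (min s (T.NZ - 1)) >>> 136

end OTab

end Pool.Agent.LibMoserT
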