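import Pool.Agent.LibMoserT.LedOT
set_option autoImplicit false
/-!
# Consequences of the check of class O
-/
namespace Pool.Agent.LibMoserT
open Pool.Agent.LibMoser5 Pool.Agent.LibMoserF

namespace OTab
variable {T : OTab} {Z : ℕ}

theorem fc_ge {g : ℕ} (hg : T.GO ≤ g) : T.fc g = T.nO := by
  unfold nO fc
  rw [min_eq_right hg, min_self]

theorem Chk.fcm (hT : T.Chk Z) (g : ℕ) : T.fc g ≤ T.fc (g + 1) := by
  by_cases hg : g < T.GO
  · have h := hT.fok g hg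
    unfold OTab.fok at h
    simp only [Bool.and_eq_true] at h
    exact Nat.le_of_ble_eq_true h.1.1
  · rw [fc_ge (by omega), fc_ge (by omega)]

theorem Chk.fc1024 (hT : T.Chk Z) (g : ℕ) : T.fc (g + 1) - T.fc g ≤ 1024 := by
  by_cases hg : g < T.GO
  · have h := hT.fok g hg
    unfold OTab.fok at h
    simp only [Bool.and_eq_true] at h
    have := Nat.le_of_ble_eq_true h.1.2
    omega
  · rw [fc_ge (by omega), fc_ge (by omega)]
    omega

theorem Chk.fc_mono (hT : T.Chk Z) {g h : ℕ} (hgh : g ≤ h) : T.fc g ≤ T.fc h :=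
  monotone_nat_of_le_succ hT.fcm hgh

theorem Chk.fcn (hT : T.Chk Z) (g : ℕ) : T.fc g ≤ T.nO := by
  by_cases hg : g < T.GO
  · exact hT.fc_mono hg.le
  · rw [fc_ge (by omega)]

theorem Chk.mt_mono (hT : T.Chk Z) {g h : ℕ} (hgh : g ≤ h) (hh : h ≤ T.GO) :
    T.mt g ≤ T.mt h := by
  induction h with
  | zero =>
    have : g = 0 := by omega
    rw [this]
  | succ h ih =>
    rcases Nat.lt_or_ge g (h + 1) with h1 | h1
    · refine (ih (by omega) (by omega)).trans ?_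
      have h2 := hT.fok h (by omega)
      unfold OTab.fok at h2
      simp only [Bool.and_eq_true] at h2
      exact Nat.le_of_ble_eq_true h2.2
    · have : g = h + 1 := by omega
      rw [this]

theorem Chk.lt_GO (hT : T.Chk Z) {g c : ℕ} (h1 : T.fc g ≤ c) (h2 : c < T.fc (g + 1)) :
    g < T.GO := by
  by_contra hg
  rw [fc_ge (by omega)] at h1
  rw [fc_ge (by omega)] at h2
  omega

theorem Chk.fo_eq (hT : T.Chk Z) {g c : ℕ} (h1 : T.fc g ≤ c) (h2 : c < T.fc (g + 1)) :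
    T.fo c = g := by
  have hg := hT.lt_GO h1 h2
  unfold fo
  apply le_antisymm
  · by_contra hc
    rw [not_le] at hc
    have h3 : T.fc (Nat.findGreatest (fun g => T.fc g ≤ c) (T.GO - 1)) ≤ c := by
      apply Nat.findGreatest_spec (P := fun g => T.fc g ≤ c) (m := g) (by omega) h1
    have h4 := hT.fc_mono (Nat.succ_le_of_lt hc)
    rw [Nat.succ_eq_add_one] at h4
    omega
  · exact Nat.le_findGreatest (by omega) h1

/-- every cell lies in a frame -/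
theorem Chk.ex_frame (hT : T.Chk Z) {c : ℕ} (hc : c < T.nO) :
    ∃ g, g < T.GO ∧ T.fc g ≤ c ∧ c < T.fc (g + 1) := by
  have h0 : ∃ g, c < T.fc (g + 1) := ⟨T.GO, by rw [fc_ge (by omega)]; exact hc⟩
  refine ⟨Nat.find h0, ?_, ?_, Nat.find_spec h0⟩
  · by_contra hg
    have h1 := Nat.find_min h0 (m := T.GO - 1) (by have := hT.GO1; omega)
    have h2 : T.GO - 1 + 1 = T.GO := by have := hT.GO1; omega
    rw [h2] at h1
    exact h1 hc
  · rcases Nat.eq_zero_or_pos (Nat.find h0) with h | h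
    · rw [h, hT.fc0]
      omega
    · have h1 := Nat.find_min h0 (m := Nat.find h0 - 1) (by omega)
      have h2 : Nat.find h0 - 1 + 1 = Nat.find h0 := by omega
      rw [h2] at h1
      omega

/-- sums over the frames -/
theorem Chk.sum_frames (hT : T.Chk Z) (f : ℕ → ℕ) (N : ℕ) :
    ∑ g ∈ Finset.range N, ∑ c ∈ Finset.Ico (T.fc g) (T.fc (g + 1)), f c =
      ∑ c ∈ Finset.range (T.fc N), f c := by
  induction N with
  | zero => simp [hT.fc0]
  | succ N ih =>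
    rw [Finset.sum_range_succ, ih, Finset.range_eq_Ico, Finset.sum_Ico_consecutive _ (Nat.zero_le _)
      (hT.fcm N), ← Finset.range_eq_Ico]

theorem Chk.dig_RB (hT : T.Chk Z) {g i : ℕ} (hi : i < T.fc (g + 1) - T.fc g) :
    dig (T.RB g) 68 i = T.rc (T.fc g + i) := by
  unfold rc
  rw [hT.fo_eq (Nat.le_add_right _ _) (by omega), Nat.add_sub_cancel_left]

theorem Chk.zfr_eq (hT : T.Chk Z) (RF g : ℕ) : T.zfr RF g =
    ∑ c ∈ Finset.Ico (T.fc g) (T.fc (g + 1)), zval RF T.NZ (T.mt g) c (T.rc c) g := by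
  unfold zfr
  rw [sumF_eq _ _ _ _ (by have := hT.fc1024 g; omega), zero_add, Finset.sum_Ico_eq_sum_range,
    Finset.sum_Ico_eq_sum_range, Nat.sub_zero]
  apply Finset.sum_congr rfl
  intro i hi
  rw [Finset.mem_range] at hi
  rw [zero_add, hT.dig_RB hi]

theorem Chk.lfr_eq (hT : T.Chk Z) (RL g : ℕ) : T.lfr RL g =
    ∑ c ∈ Finset.Ico (T.fc g) (T.fc (g + 1)), lval RL c (T.rc c) g := by
  unfold lfr
  rw [sumF_eq _ _ _ _ (by have := hT.fc1024 g; omega), zero_add, Finset.sum_Ico_eq_sum_range,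
    Finset.sum_Ico_eq_sum_range, Nat.sub_zero]
  apply Finset.sum_congr rfl
  intro i hi
  rw [Finset.mem_range] at hi
  rw [zero_add, hT.dig_RB hi]

/-- the check of a cell in its frame -/
def okc (T : OTab) (c : ℕ) : Bool := okC T.NZ (T.mt (T.fo c)) c (T.rc c) (T.fo c)

theorem okC_spec {NZ m c r g : ℕ} (h : okC NZ m c r g = true) :
    (mkOC c r g).Val (fT (g + 1)) (jz (rs1 r)) (jz (rt2 r)) ∧ rb r ≤ 512 ∧ rs1 r < NZ ∧
      rs1 r ≤ rt2 r ∧ rt2 r ≤ NZ ∧ rt2 r ≤ m ∧ (mkOC c r g).V < 2 ^ 52 ∧ (mkOC c r g).U < 2 ^ 52 ∧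
      (mkOC c r g).BT < 2 ^ 52 ∧ (mkOC c r g).L < 2 ^ 40 := by
  unfold okC at h
  simp only [Bool.and_eq_true] at h
  obtain ⟨⟨⟨⟨⟨⟨⟨⟨⟨h1, h2⟩, h3⟩, h4⟩, h5⟩, h6⟩, h7⟩, h8⟩, h9⟩, h10⟩ := h
  exact ⟨OC.okB_val _ h1, Nat.le_of_ble_eq_true h2, Nat.le_of_ble_eq_true h3,
    Nat.le_of_ble_eq_true h4, Nat.le_of_ble_eq_true h5, Nat.le_of_ble_eq_true h6,
    Nat.le_of_ble_eq_true h7, Nat.le_of_ble_eq_true h8, Nat.le_of_ble_eq_true h9,
    Nat.le_of_ble_eq_true h10⟩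

theorem zval_eq {NZ m c r g : ℕ} (h : okC NZ m c r g = true) :
    zval (repN 204 NZ) NZ m c r g =
      ((mkOC c r g).V + (mkOC c r g).U * 2 ^ 68) * rep (2 ^ 204) (rs1 r) (rt2 r) +
      ((mkOC c r g).BT * 2 ^ 136) * rep (2 ^ 204) (rs1 r) NZ +
      1 * rep (2 ^ 204) NZ (NZ + 1) := by
  obtain ⟨-, -, h3, h4, h5, -⟩ := okC_spec h
  unfold zval
  rw [h, cond_true, blk_eq (by norm_num) rfl h5 h4, blk_eq (by norm_num) rfl le_rfl h3.le, one_mul]
  congr 1
  unfold rep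
  rw [Finset.sum_Ico_succ_top le_rfl, Finset.Ico_self, Finset.sum_empty, zero_add, pow_mul]

theorem zval_eq0 {RF NZ m c r g : ℕ} (h : ¬ okC NZ m c r g = true) :
    zval RF NZ m c r g = 0 := by
  rw [Bool.not_eq_true] at h
  unfold zval
  rw [h, cond_false]

/-- the cells which pass -/
def CC (T : OTab) : Finset ℕ := (Finset.range T.nO).filter (fun c => T.okc c = true)

theorem Chk.Z_eq (hT : T.Chk Z) : Z = ∑ c ∈ T.CC,
    (((T.oc c).V + (T.oc c).U * 2 ^ 68) * rep (2 ^ 204) (rs1 (T.rc c)) (rt2 (T.rc c)) +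
      ((T.oc c).BT * 2 ^ 136) * rep (2 ^ 204) (rs1 (T.rc c)) T.NZ +
      1 * rep (2 ^ 204) T.NZ (T.NZ + 1)) := by
  rw [← hT.zs]
  have h1 : ∑ g ∈ Finset.range T.GO, T.zfr (repN 204 T.NZ) g =
      ∑ g ∈ Finset.range T.GO, ∑ c ∈ Finset.Ico (T.fc g) (T.fc (g + 1)),
        zval (repN 204 T.NZ) T.NZ (T.mt (T.fo c)) c (T.rc c) (T.fo c) := by
    apply Finset.sum_congr rfl
    intro g _
    rw [hT.zfr_eq]
    apply Finset.sum_congr rfl
    intro c hc
    rw [Finset.mem_Ico] at hc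
    rw [hT.fo_eq hc.1 hc.2]
  rw [h1, hT.sum_frames, CC, Finset.sum_filter]
  apply Finset.sum_congr rfl
  intro c _
  by_cases hc : T.okc c = true
  · rw [if_pos hc]
    exact zval_eq hc
  · rw [if_neg hc]
    exact zval_eq0 hc

theorem CC_card_le (T : OTab) : T.CC.card ≤ T.nO := by
  have := Finset.card_filter_le (Finset.range T.nO) (fun c => T.okc c = true)
  rwa [Finset.card_range] at this

theorem CC_ok {c : ℕ} (hc : c ∈ T.CC) : T.okc c = true := (Finset.mem_filter.1 hc).2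

/-- digit `s` of `Z` -/
def DD (T : OTab) (C : Finset ℕ) (s : ℕ) : ℕ :=
  ∑ c ∈ C.filter (fun c => rs1 (T.rc c) ≤ s ∧ s < rt2 (T.rc c)),
      ((T.oc c).V + (T.oc c).U * 2 ^ 68) +
    ∑ c ∈ C.filter (fun c => rs1 (T.rc c) ≤ s ∧ s < T.NZ), (T.oc c).BT * 2 ^ 136 +
    ∑ c ∈ C.filter (fun _ => T.NZ ≤ s ∧ s < T.NZ + 1), 1

theorem Chk.Z_eq2 (hT : T.Chk Z) :
    Z = ∑ s ∈ Finset.range (T.NZ + 1), T.DD T.CC s * (2 ^ 204) ^ s := by
  have h1 := hT.Z_eq
  rw [Finset.sum_add_distrib, Finset.sum_add_distrib,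
    blocks_sum (N := T.NZ + 1) T.CC (fun c => (T.oc c).V + (T.oc c).U * 2 ^ 68)
      (fun c => rs1 (T.rc c)) (fun c => rt2 (T.rc c)) (by
        intro c hc
        have := (okC_spec (CC_ok hc)).2.2.2.2.1
        omega),
    blocks_sum (N := T.NZ + 1) T.CC (fun c => (T.oc c).BT * 2 ^ 136)
      (fun c => rs1 (T.rc c)) (fun _ => T.NZ) (by intro c _; omega),
    blocks_sum (N := T.NZ + 1) T.CC (fun _ => 1)
      (fun _ => T.NZ) (fun _ => T.NZ + 1) (by intro c _; omega),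
    ← Finset.sum_add_distrib, ← Finset.sum_add_distrib] at h1
  rw [h1]
  apply Finset.sum_congr rfl
  intro s _
  unfold DD
  ring

theorem sum_lt_pow (C : Finset ℕ) (f : ℕ → ℕ) {B : ℕ} (hC : C.card ≤ 2 ^ 15)
    (hf : ∀ c ∈ C, f c < B) : ∑ c ∈ C, f c ≤ 2 ^ 15 * B := by
  calc ∑ c ∈ C, f c ≤ ∑ _c ∈ C, B := Finset.sum_le_sum (fun c hc => (hf c hc).le)
    _ = C.card * B := by rw [Finset.sum_const, smul_eq_mul]
    _ ≤ 2 ^ 15 * B := Nat.mul_le_mul_right _ hC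

theorem Chk.DD_lt (hT : T.Chk Z) (s : ℕ) : T.DD T.CC s < 2 ^ 204 := by
  have hC : T.CC.card ≤ 2 ^ 15 := (CC_card_le T).trans hT.nO
  unfold DD
  have h1 : ∑ c ∈ T.CC.filter (fun c => rs1 (T.rc c) ≤ s ∧ s < rt2 (T.rc c)),
      ((T.oc c).V + (T.oc c).U * 2 ^ 68) ≤ 2 ^ 15 * (2 ^ 52 + 2 ^ 52 * 2 ^ 68) := by
    apply sum_lt_pow _ _ ((Finset.card_filter_le _ _).trans hC)
    intro c hc
    obtain ⟨-, -, -, -, -, -, h7, h8, -⟩ := okC_spec (CC_ok (Finset.mem_filter.1 hc).1)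
    have h8' : (T.oc c).U * 2 ^ 68 ≤ 2 ^ 52 * 2 ^ 68 := Nat.mul_le_mul_right _ h8.le
    have h7' : (T.oc c).V < 2 ^ 52 := h7
    omega
  have h2 : ∑ c ∈ T.CC.filter (fun c => rs1 (T.rc c) ≤ s ∧ s < T.NZ), (T.oc c).BT * 2 ^ 136 ≤
      2 ^ 15 * (2 ^ 52 * 2 ^ 136) := by
    apply sum_lt_pow _ _ ((Finset.card_filter_le _ _).trans hC)
    intro c hc
    obtain ⟨-, -, -, -, -, -, -, -, h9, -⟩ := okC_spec (CC_ok (Finset.mem_filter.1 hc).1)
    exact Nat.mul_lt_mul_of_pos_right h9 (by positivity)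
  have h3 : ∑ _c ∈ T.CC.filter (fun _ => T.NZ ≤ s ∧ s < T.NZ + 1), 1 ≤ 2 ^ 15 := by
    rw [Finset.sum_const, smul_eq_mul, mul_one]
    exact (Finset.card_filter_le _ _).trans hC
  have h4 : 2 ^ 15 * (2 ^ 52 + 2 ^ 52 * 2 ^ 68) + 2 ^ 15 * (2 ^ 52 * 2 ^ 136) + 2 ^ 15 < 2 ^ 204 := by
    norm_num
  omega

/-- all cells pass -/
theorem Chk.CC_eq (hT : T.Chk Z) : T.CC = Finset.range T.nO := by
  have h1 := digsum_dig (B := 2 ^ 204) (by positivity) (fun s => T.DD T.CC s) (T.NZ + 1) T.NZ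
    (by omega) (fun s _ => hT.DD_lt s)
  rw [← hT.Z_eq2, ← pow_mul, hT.cnt] at h1
  have h2 : T.nO % 2 ^ 204 = T.nO := by
    apply Nat.mod_eq_of_lt
    have := hT.nO
    have h3 : 2 ^ 15 < 2 ^ 204 := by norm_num
    omega
  have h3 : T.DD T.CC T.NZ = T.CC.card := by
    unfold DD
    rw [Finset.filter_false_of_mem, Finset.sum_empty, Finset.filter_false_of_mem, Finset.sum_empty,
      Finset.filter_true_of_mem, Finset.sum_const, smul_eq_mul, mul_one]
    · simp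
    · intro c _
      omega
    · intro c _
      omega
    · intro c hc
      have := (okC_spec (CC_ok hc)).2.2.2.2.1
      omega
  rw [h2] at h1
  have h4 : T.CC.card = T.nO := by rw [← h3]; exact h1.symm
  apply Finset.eq_of_subset_of_card_le (Finset.filter_subset _ _)
  rw [Finset.card_range]
  exact h4.ge

theorem Chk.okc (hT : T.Chk Z) {c : ℕ} (hc : c < T.nO) : T.okc c = true := by
  apply CC_ok
  rw [hT.CC_eq]
  exact Finset.mem_range.2 hc

/-- sums over the reaching cells -/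
theorem Chk.zones (hT : T.Chk Z) {s : ℕ} (hs : s < T.NZ) :
    T.zV Z s = ∑ c ∈ (Finset.range T.nO).filter
        (fun c => rs1 (T.rc c) ≤ s ∧ s < rt2 (T.rc c)), (T.oc c).V ∧
    T.zU Z s = ∑ c ∈ (Finset.range T.nO).filter
        (fun c => rs1 (T.rc c) ≤ s ∧ s < rt2 (T.rc c)), (T.oc c).U ∧
    dig Z 204 s >>> 136 = ∑ c ∈ (Finset.range T.nO).filter (fun c => rs1 (T.rc c) ≤ s),
        (T.oc c).BT := by
  have h1 := digsum_dig (B := 2 ^ 204) (by positivity) (fun s => T.DD T.CC s) (T.NZ + 1) s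
    (by omega) (fun s _ => hT.DD_lt s)
  rw [← hT.Z_eq2, ← dig_eq, hT.CC_eq] at h1
  obtain ⟨SV, hSV⟩ : ∃ x, x = ∑ c ∈ (Finset.range T.nO).filter
    (fun c => rs1 (T.rc c) ≤ s ∧ s < rt2 (T.rc c)), (T.oc c).V := ⟨_, rfl⟩
  obtain ⟨SU, hSU⟩ : ∃ x, x = ∑ c ∈ (Finset.range T.nO).filter
    (fun c => rs1 (T.rc c) ≤ s ∧ s < rt2 (T.rc c)), (T.oc c).U := ⟨_, rfl⟩
  obtain ⟨SB, hSB⟩ : ∃ x, x = ∑ c ∈ (Finset.range T.nO).filter (fun c => rs1 (T.rc c) ≤ s),
    (T.oc c).BT := ⟨_, rfl⟩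
  have hcr : (Finset.range T.nO).card ≤ 2 ^ 15 := by rw [Finset.card_range]; exact hT.nO
  have hSV' : SV < 2 ^ 68 := by
    have h := sum_lt_pow ((Finset.range T.nO).filter
      (fun c => rs1 (T.rc c) ≤ s ∧ s < rt2 (T.rc c))) (fun c => (T.oc c).V) (B := 2 ^ 52)
      ((Finset.card_filter_le _ _).trans hcr) (by
        intro c hc
        have hc' := Finset.mem_range.1 (Finset.mem_filter.1 hc).1
        obtain ⟨-, -, -, -, -, -, h7, -⟩ := okC_spec (hT.okc hc')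
        exact h7)
    rw [← hSV] at h
    have : 2 ^ 15 * 2 ^ 52 < 2 ^ 68 := by norm_num
    omega
  have hSU' : SU < 2 ^ 68 := by
    have h := sum_lt_pow ((Finset.range T.nO).filter
      (fun c => rs1 (T.rc c) ≤ s ∧ s < rt2 (T.rc c))) (fun c => (T.oc c).U) (B := 2 ^ 52)
      ((Finset.card_filter_le _ _).trans hcr) (by
        intro c hc
        have hc' := Finset.mem_range.1 (Finset.mem_filter.1 hc).1
        obtain ⟨-, -, -, -, -, -, -, h8, -⟩ := okC_spec (hT.okc hc')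
        exact h8)
    rw [← hSU] at h
    have : 2 ^ 15 * 2 ^ 52 < 2 ^ 68 := by norm_num
    omega
  have hf : (Finset.range T.nO).filter (fun c => rs1 (T.rc c) ≤ s ∧ s < T.NZ) =
      (Finset.range T.nO).filter (fun c => rs1 (T.rc c) ≤ s) := by
    apply Finset.filter_congr
    intro c _
    constructor
    · exact fun h => h.1
    · exact fun h => ⟨h, hs⟩
  have h2 : dig Z 204 s = SV + SU * 2 ^ 68 + SB * 2 ^ 136 := by
    rw [h1]
    unfold DD
    rw [Finset.filter_false_of_mem (s := Finset.range T.nO) (p := fun _ => T.NZ ≤ s ∧ s < T.NZ + 1)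
      (by intro c _; omega), Finset.sum_empty, add_zero, Finset.sum_add_distrib, ← Finset.sum_mul,
      ← Finset.sum_mul, hf, ← hSV, ← hSU, ← hSB]
  obtain ⟨B, hB⟩ : ∃ B : ℕ, B = 2 ^ 68 := ⟨_, rfl⟩
  obtain ⟨BB, hBB⟩ : ∃ BB : ℕ, BB = 2 ^ 136 := ⟨_, rfl⟩
  have hB0 : 0 < B := by rw [hB]; positivity
  have eB : BB = B * B := by rw [hBB, hB]; norm_num
  have e68 : ∀ x : ℕ, x >>> 68 = x / B := fun x => by rw [hB, Nat.shiftRight_eq_div_pow]
  have e136 : ∀ x : ℕ, x >>> 136 = x / BB := fun x => by rw [hBB, Nat.shiftRight_eq_div_pow]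
  rw [← hB] at hSV' hSU' h2
  rw [← hBB, eB] at h2
  have h3 : dig Z 204 s % B = SV := by
    rw [h2]
    have : SV + SU * B + SB * (B * B) = SV + B * (SU + SB * B) := by ring
    rw [this, Nat.add_mul_mod_self_left, Nat.mod_eq_of_lt hSV']
  have h4 : dig Z 204 s / B % B = SU := by
    rw [h2]
    have : SV + SU * B + SB * (B * B) = SV + B * (SU + B * SB) := by ring
    rw [this, Nat.add_mul_div_left _ _ hB0, Nat.div_eq_of_lt hSV', zero_add,
      Nat.add_mul_mod_self_left, Nat.mod_eq_of_lt hSU']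
  have h5 : dig Z 204 s / BB = SB := by
    rw [h2, eB]
    have : SV + SU * B + SB * (B * B) = (SV + SU * B) + (B * B) * SB := by ring
    rw [this, Nat.add_mul_div_left _ _ (Nat.mul_pos hB0 hB0), Nat.div_eq_of_lt, zero_add]
    calc SV + SU * B < B + SU * B := by omega
      _ = (SU + 1) * B := by ring
      _ ≤ B * B := Nat.mul_le_mul_right _ hSU'
  refine ⟨?_, ?_, ?_⟩
  · unfold zV
    have hb : Nat.blt s T.NZ = true := Nat.ble_eq_true_of_le hs
    rw [hb, cond_true, ← hB, h3, hSV]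
  · unfold zU
    have hb : Nat.blt s T.NZ = true := Nat.ble_eq_true_of_le hs
    rw [hb, cond_true, e68, ← hB, h4, hSU]
  · rw [e136, h5, hSB]

/-- slots -/
theorem Chk.slot (hT : T.Chk Z) {g s : ℕ} (hg : g < T.GO) (hs : s < 512) :
    ∑ c ∈ (Finset.Ico (T.fc g) (T.fc (g + 1))).filter
        (fun c => ra (T.rc c) ≤ s ∧ s < rb (T.rc c)), (T.oc c).L ≤ T.lo g * 2 ^ 20 := by
  have hcc : ∀ c ∈ Finset.Ico (T.fc g) (T.fc (g + 1)), T.fo c = g ∧ T.okc c = true := by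
    intro c hc
    rw [Finset.mem_Ico] at hc
    exact ⟨hT.fo_eq hc.1 hc.2, hT.okc (lt_of_lt_of_le hc.2 (hT.fcn _))⟩
  have h1 := allF_spec _ _ _ _ (by norm_num) (hT.lok g hg) s (Nat.zero_le _) (by omega)
  have h2 := Nat.le_of_ble_eq_true h1
  refine le_trans (le_of_eq ?_) h2
  rw [dig_eq, hT.lfr_eq]
  have h3 : ∑ c ∈ Finset.Ico (T.fc g) (T.fc (g + 1)), lval (repN 56 512) c (T.rc c) g =
      ∑ c ∈ Finset.Ico (T.fc g) (T.fc (g + 1)),
        (T.oc c).L * rep (2 ^ 56) (ra (T.rc c)) (rb (T.rc c)) := by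
    apply Finset.sum_congr rfl
    intro c hc
    obtain ⟨e1, e2⟩ := hcc c hc
    obtain ⟨hv, hb, -⟩ := okC_spec e2
    unfold lval
    have hab : ra (T.rc c) ≤ rb (T.rc c) := by
      have := hv.ab
      change bgn (T.fo c) + ra (T.rc c) * hsl (T.fo c) <
        bgn (T.fo c) + rb (T.rc c) * hsl (T.fo c) at this
      by_contra hcon
      have := Nat.mul_le_mul_right (hsl (T.fo c)) (le_of_lt (not_le.1 hcon))
      omega
    rw [blk_eq (by norm_num) rfl hb hab]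
    unfold OTab.oc
    rw [e1]
  rw [h3, blocks_dig (N := 512) _ (fun c => (T.oc c).L) (fun c => ra (T.rc c))
    (fun c => rb (T.rc c)) (by positivity) (by
      intro c hc
      exact (okC_spec (hcc c hc).2).2.1) _ s hs]
  have h4 : (Finset.Ico (T.fc g) (T.fc (g + 1))).card ≤ 2 ^ 15 := by
    rw [Nat.card_Ico]
    have := hT.fc1024 g
    omega
  have h5 := sum_lt_pow (Finset.Ico (T.fc g) (T.fc (g + 1))) (fun c => (T.oc c).L) (B := 2 ^ 40) h4
    (by
      intro c hc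
      obtain ⟨-, -, -, -, -, -, -, -, -, h10⟩ := okC_spec (hcc c hc).2
      exact h10)
  have h6 : 2 ^ 15 * 2 ^ 40 < 2 ^ 56 := by norm_num
  omega

end OTab

end Pool.Agent.LibMoserT
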