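import Pool.Agent.LibMoserT.LedG
import Pool.Agent.LibMoserT.LedR
import Pool.Agent.LibMoserT.LedKZ
import Pool.Agent.LibMoserT.LedNum
set_option autoImplicit false
/-!
# Class R in the ledger
-/
namespace Pool.Agent.LibMoserT
open Pool.Agent.LibMoser5 Pool.Agent.LibMoserF

noncomputable section

theorem std_wR {D : TD} {a lam : ℕ → ℝ} (hD : Std41 D a lam) (f : ℕ) (F : ℕ → ℝ) :
    ((D.wR f).map F).sum = ∑ k ∈ Finset.Ico (fl 8192 f - 20) (fl 8192 (f + 1) - 20), F k := by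
  unfold TD.wR
  rw [std_fl hD, std_fl hD, sum_range']
  have h1 : fl 8192 f ≤ fl 8192 (f + 1) := fl_mono (Nat.le_succ f)
  have h2 := fl_ge (le_refl 8192) f
  congr 2
  omega

/-- no row of window `k` has a child thicker than window `j` -/
theorem kr_none {q : ℝ} (hq : 0 < q) {k j : ℕ} (hk : 1 ≤ k)
    (h : 108 * ((j : ℝ) + 1) ^ 3 ≤ (k : ℝ) ^ 4) :
    ¬ th q (j + 1) < th q k - th q (kpR k + 16) := by
  intro hr
  obtain ⟨h5, h20⟩ := kpR_spec k
  have hk0 : (0 : ℝ) < k := by exact_mod_cast hk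
  have hkK : (k : ℝ) ≤ (kpR k : ℝ) + 16 := by
    have : k ≤ kpR k + 16 := by omega
    exact_mod_cast this
  have hKk : (kpR k : ℝ) + 16 ≤ (k : ℝ) + 36 := by
    have : kpR k + 16 ≤ k + 36 := by omega
    exact_mod_cast this
  have h1 := kr_hi (a := (k : ℝ)) (b := (kpR k : ℝ) + 16) (j := j) hq hk0 hkK (by
    unfold th at hr
    push_cast at hr
    exact hr)
  have hj : 0 < ((j : ℝ) + 1) ^ 3 := by positivity
  have h2 : 3 * ((kpR k : ℝ) + 16 - k) * ((j : ℝ) + 1) ^ 3 ≤ 108 * ((j : ℝ) + 1) ^ 3 := by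
    apply mul_le_mul_of_nonneg_right _ hj.le
    linarith
  linarith

/-- nothing of class R of frame `f` reaches window `j` (neither children nor births) -/
theorem BR_none {D : TD} {a lam : ℕ → ℝ} (hD : Std41 D a lam) {f j : ℕ} (hf : 1 ≤ f)
    (hj : 108 * ((j : ℝ) + 1) ^ 3 ≤ ((fl 8192 f : ℝ) - 20) ^ 4) :
    ((D.wR f).map (fun k => (srcR D.q (D.A k) k).D D.q j (D.σm f) +
      (srcR D.q (D.A k) k).B D.q j)).sum = 0 := by
  rw [std_wR hD]
  apply Finset.sum_eq_zero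
  intro k hk
  rw [Finset.mem_Ico] at hk
  have h2 := fl_ge (le_refl 8192) f
  have h3 : (fl 8192 f : ℝ) - 20 ≤ k := by
    have h4 : ((fl 8192 f - 20 : ℕ) : ℝ) ≤ k := by exact_mod_cast hk.1
    rwa [Nat.cast_sub (by omega), Nat.cast_ofNat] at h4
  have h20 : (0 : ℝ) ≤ (fl 8192 f : ℝ) - 20 := by
    have : (8192 : ℝ) ≤ fl 8192 f := by exact_mod_cast h2
    linarith
  have hk1 : 1 ≤ k := by omega
  have hq : (0 : ℝ) < D.q := by rw [std_q hD]; norm_num
  have hn := kr_none hq hk1 (hj.trans (pow_le_pow_left₀ h20 h3 4))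
  have e1 : (srcR D.q (D.A k) k).D D.q j (D.σm f) = 0 := by
    unfold Src.D
    rw [if_neg (fun h => hn h.1)]
  have e2 : (srcR D.q (D.A k) k).B D.q j = 0 := by
    unfold Src.B
    exact if_neg hn
  rw [e1, e2, add_zero]

/-- births of class R in one frame -/
theorem BR_frame {D : TD} {a lam : ℕ → ℝ} (hD : Std41 D a lam) {f j : ℕ} (hf : 1 ≤ f) :
    ((D.wR f).map (fun k => (srcR D.q (D.A k) k).B D.q j)).sum ≤
      chC * (a f * (369 / 2 * (1 + 130 / ((fl 8192 f : ℝ) - 20))) + 1 / 5) *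
        (1 / ((fl 8192 f : ℝ) - 36) - 1 / ((fl 8192 (f + 1) : ℝ) - 36)) := by
  rw [std_wR hD]
  have hl := fl_ge (le_refl 8192) f
  have hll : fl 8192 f + 256 ≤ fl 8192 (f + 1) := by
    show fl 8192 f + 256 ≤ fl 8192 f + 32 * (fl 8192 f / 1024)
    omega
  have hd : 32 ∣ fl 8192 f := fl_dvd (by norm_num) f
  have hd1 : 32 ∣ fl 8192 (f + 1) := fl_dvd (by norm_num) (f + 1)
  obtain ⟨l, hldef⟩ : ∃ l, l = fl 8192 f := ⟨_, rfl⟩
  obtain ⟨l1, hl1def⟩ : ∃ l1, l1 = fl 8192 (f + 1) := ⟨_, rfl⟩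
  have hA := hD.A f
  rw [← hldef] at hl hll hd hA ⊢
  rw [← hl1def] at hll hd1 hA ⊢
  have hq : D.q = 2048 := std_q hD
  have hlR : (8192 : ℝ) ≤ l := by exact_mod_cast hl
  have haf := hD.a0 f
  -- one window
  have hone : ∀ k ∈ Finset.Ico (l - 20) (l1 - 20), (srcR D.q (D.A k) k).B D.q j ≤
      chC * (a f * bR 2048 k + 1 / 5 * (1 / ((k : ℝ) - 16) - 1 / ((k : ℝ) - 15))) := by
    intro k hk
    rw [Finset.mem_Ico] at hk
    have hk1 : 8172 ≤ k := by omega
    have hkR : (8172 : ℝ) ≤ k := by exact_mod_cast hk1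
    obtain ⟨h5, h20⟩ := kpR_spec k
    rw [hq, hA k hf hk.1 hk.2]
    have hT : (srcR 2048 (a f) k).T ≤ a f * bR 2048 k :=
      srcR_T (by norm_num) haf (by omega) (pool_nonempty (by norm_num) (by norm_num)
        (by unfold kpR; omega) (by omega))
    have hw : 43 * ((srcR 2048 (a f) k).pmax - (srcR 2048 (a f) k).σ) ≤
        1 / 5 * (1 / ((k : ℝ) - 16) - 1 / ((k : ℝ) - 15)) := by
      show 43 * (th 2048 k - th 2048 (kpR k + 16)) ≤ _
      have h6 : th 2048 (k + 36) ≤ th 2048 (kpR k + 16) := th_anti (by norm_num) (by omega) (by omega)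
      have h7 : th 2048 k - th 2048 (k + 36) ≤ 2048 * 109 / (k : ℝ) ^ 4 := by
        unfold th
        push_cast
        have hk0 : (0 : ℝ) < k := by linarith
        rw [div_sub_div _ _ (by positivity) (by positivity), div_le_div_iff₀ (by positivity)
          (by positivity)]
        have h8 : ((k : ℝ) + 36) ^ 3 - (k : ℝ) ^ 3 ≤ 109 * (k : ℝ) ^ 2 := by nlinarith
        have h9 : (k : ℝ) ^ 3 ≤ ((k : ℝ) + 36) ^ 3 := pow_le_pow_left₀ hk0.le (by linarith) 3
        have h10 : (2048 * ((k : ℝ) + 36) ^ 3 - (k : ℝ) ^ 3 * 2048) * (k : ℝ) ^ 4 =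
            2048 * (((k : ℝ) + 36) ^ 3 - (k : ℝ) ^ 3) * (k : ℝ) ^ 4 := by ring
        rw [h10]
        calc 2048 * (((k : ℝ) + 36) ^ 3 - (k : ℝ) ^ 3) * (k : ℝ) ^ 4 ≤
              2048 * (109 * (k : ℝ) ^ 2) * (k : ℝ) ^ 4 := by
                apply mul_le_mul_of_nonneg_right _ (by positivity)
                linarith
          _ = 2048 * 109 * ((k : ℝ) ^ 3 * (k : ℝ) ^ 3) := by ring
          _ ≤ 2048 * 109 * ((k : ℝ) ^ 3 * ((k : ℝ) + 36) ^ 3) := by
                apply mul_le_mul_of_nonneg_left _ (by norm_num)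
                exact mul_le_mul_of_nonneg_left h9 (by positivity)
      have h8 : 1 / ((k : ℝ) - 16) - 1 / ((k : ℝ) - 15) ≥ 1 / (k : ℝ) ^ 2 := by
        have h9 : 0 < (k : ℝ) - 16 := by linarith
        have h10 : 0 < (k : ℝ) - 15 := by linarith
        rw [div_sub_div _ _ h9.ne' h10.ne', ge_iff_le, div_le_div_iff₀ (by positivity)
          (by positivity)]
        nlinarith
      have h9 : 43 * (2048 * 109 / (k : ℝ) ^ 4) ≤ 1 / 5 * (1 / (k : ℝ) ^ 2) := by
        have hk0 : (0 : ℝ) < k := by linarith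
        rw [mul_div_assoc', mul_one_div, div_le_div_iff₀ (by positivity) (by positivity)]
        have h10 : (8172 : ℝ) ^ 2 ≤ (k : ℝ) ^ 2 := pow_le_pow_left₀ (by norm_num) hkR 2
        have h11 : (k : ℝ) ^ 4 = (k : ℝ) ^ 2 * (k : ℝ) ^ 2 := by ring
        rw [h11]
        nlinarith [mul_pos hk0 hk0]
      linarith
    have hC : 0 < chC := by unfold chC; norm_num
    have hb0 : 0 ≤ a f * bR 2048 k := mul_nonneg haf (bR_nonneg (by norm_num) (by omega))
    have hw0 : 0 ≤ 1 / 5 * (1 / ((k : ℝ) - 16) - 1 / ((k : ℝ) - 15)) := by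
      have h9 : 0 < (k : ℝ) - 16 := by linarith
      have : 1 / ((k : ℝ) - 15) ≤ 1 / ((k : ℝ) - 16) :=
        one_div_le_one_div_of_le h9 (by linarith)
      linarith
    unfold Src.B
    split_ifs
    · apply mul_le_mul_of_nonneg_left _ hC.le
      linarith
    · exact mul_nonneg hC.le (by linarith)
  refine (Finset.sum_le_sum hone).trans ?_
  rw [← Finset.mul_sum, Finset.sum_add_distrib, ← Finset.mul_sum, ← Finset.mul_sum]
  have hC : 0 < chC := by unfold chC; norm_num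
  rw [mul_assoc]
  apply mul_le_mul_of_nonneg_left _ hC.le
  rw [add_mul]
  have e1 : l1 - 20 = l - 20 + 16 * ((l1 - l) / 16) := by omega
  have e20 : ((l - 20 : ℕ) : ℝ) = (l : ℝ) - 20 := by
    rw [Nat.cast_sub (by omega)]; norm_num
  have e2 : (l : ℝ) - 20 + 16 * (((l1 - l) / 16 : ℕ) : ℝ) - 16 = (l1 : ℝ) - 36 := by
    have h3 : 16 * ((l1 - l) / 16) + l = l1 := by omega
    have h4 : (16 : ℝ) * (((l1 - l) / 16 : ℕ) : ℝ) + l = l1 := by exact_mod_cast h3
    linarith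
  apply add_le_add
  · have h1 := bR_zone (q := 2048) (by norm_num) (by norm_num) (a := l - 20) (by omega)
      (by omega) ((l1 - l) / 16)
    rw [← e1, e20, e2] at h1
    have e3 : (l : ℝ) - 20 - 16 = (l : ℝ) - 36 := by ring
    rw [e3] at h1
    rw [mul_assoc]
    exact mul_le_mul_of_nonneg_left h1 haf
  · apply mul_le_mul_of_nonneg_left _ (by norm_num)
    have htel : ∀ n : ℕ, ∑ k ∈ Finset.Ico (l - 20) (l - 20 + n),
        (1 / ((k : ℝ) - 16) - 1 / ((k : ℝ) - 15)) = 1 / ((l : ℝ) - 36) - 1 / ((l : ℝ) + n - 36) := by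
      intro n
      induction n with
      | zero => simp
      | succ n ih =>
        rw [← add_assoc, Finset.sum_Ico_succ_top (by omega), ih]
        push_cast
        rw [e20]
        have e4 : (l : ℝ) - 20 + n - 16 = (l : ℝ) + n - 36 := by ring
        have e5 : (l : ℝ) - 20 + n - 15 = (l : ℝ) + (n + 1) - 36 := by ring
        rw [e4, e5]
        ring
    have h1 := htel (l1 - l)
    have e3 : l - 20 + (l1 - l) = l1 - 20 := by omega
    rw [e3] at h1
    rw [h1]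
    have e6 : (l : ℝ) + ((l1 - l : ℕ) : ℝ) - 36 = (l1 : ℝ) - 36 := by
      rw [Nat.cast_sub (by omega)]
      ring
    rw [e6]

/-- children of class R of the frames before `g` in terms of the kernel `wR` -/
theorem R_le {D : TD} {a lam : ℕ → ℝ} (hD : Std41 D a lam) {g j : ℕ} (hj : 1 ≤ j) (A' : ℕ → ℝ)
    (hA' : ∀ f k, 1 ≤ f → f < g → fl 8192 f - 20 ≤ k → k < fl 8192 (f + 1) - 20 → A' k = D.A k) :
    ∑ f ∈ Finset.Ico 1 g,
      ((D.wR f).map (fun k => (srcR D.q (D.A k) k).D D.q j (D.σm f))).sum ≤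
    ∑ f ∈ Finset.Ico 1 g, ∑ k ∈ Finset.Ico (fl 8192 f - 20) (fl 8192 (f + 1) - 20),
      A' k * wR 2048 k j := by
  apply Finset.sum_le_sum
  intro f hf
  rw [Finset.mem_Ico] at hf
  rw [std_wR hD]
  apply Finset.sum_le_sum
  intro k hk
  rw [Finset.mem_Ico] at hk
  have hl := fl_ge (le_refl 8192) f
  have hu := fl_upper 8192 f
  have hq : D.q = 2048 := std_q hD
  rw [hA' f k hf.1 hf.2 hk.1 hk.2, hq]
  have hAk : D.A k = a f := hD.A f k hf.1 hk.1 hk.2
  rw [hAk]
  apply srcR_D (by norm_num) (hD.a0 f) (by omega) hj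
  unfold TD.σm
  rw [hq, std_fl hD]
  apply th_anti (by norm_num)
  · have := fl_ge (le_refl 8192) (f + 1)
    omega
  · rw [Nat.le_div_iff_mul_le (by norm_num)]
    omega

/-- the same beyond the table -/
theorem R_tail {D : TD} {a lam : ℕ → ℝ} (hD : Std41 D a lam) {g j : ℕ} (hg : G1 ≤ g) {L : ℝ}
    (hL0 : 0 ≤ L)
    (hL : ∀ f, 1 ≤ f → f < g → 12 * (j : ℝ) ^ 3 < (fl 8192 (f + 1) : ℝ) ^ 4 → a f ≤ L)
    (hj : fl 8192 g - 20 ≤ j) :
    ∑ f ∈ Finset.Ico 1 g,
      ((D.wR f).map (fun k => (srcR D.q (D.A k) k).D D.q j (D.σm f))).sum ≤ 798 / 1000 * L := by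
  have hjb : 100000000000 ≤ j := by
    have hfl1 : 200000000000 ≤ fl 8192 566 := by decide +kernel
    have hflg : fl 8192 566 ≤ fl 8192 g := fl_mono hg
    generalize fl 8192 566 = x at hfl1 hflg
    omega
  have hg1 : 1 ≤ g := by
    have : (566 : ℕ) ≤ g := hg
    omega
  clear hg
  have hjR : (100000000000 : ℝ) ≤ j := by exact_mod_cast hjb
  have hj0 : (0 : ℝ) < j := lt_of_lt_of_le (by norm_num) hjR
  -- restricted potentials
  obtain ⟨A', hA'⟩ : ∃ A' : ℕ → ℝ, A' = fun k =>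
      if fl 8192 1 - 20 ≤ k ∧ k < fl 8192 g - 20 then D.A k else 0 := ⟨_, rfl⟩
  have hmon : ∀ {x y : ℕ}, x ≤ y → fl 8192 x ≤ fl 8192 y := fun h => fl_mono h
  have hge := fl_ge (le_refl 8192)
  have h1 := R_le hD (g := g) (j := j) (by omega) A' (fun f k hf hf' hk hk' => by
    rw [hA']
    have a1 := hmon hf
    have a2 := hmon (show f + 1 ≤ g from hf')
    have a3 := hge f
    have a4 : fl 8192 1 - 20 ≤ k := by omega
    have a5 : k < fl 8192 g - 20 := by omega
    exact if_pos ⟨a4, a5⟩)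
  refine h1.trans ?_
  -- sum over an interval of windows
  have hcat : ∀ n, 1 ≤ n → ∑ f ∈ Finset.Ico 1 n, ∑ k ∈ Finset.Ico (fl 8192 f - 20)
      (fl 8192 (f + 1) - 20), A' k * wR 2048 k j =
      ∑ k ∈ Finset.Ico (fl 8192 1 - 20) (fl 8192 n - 20), A' k * wR 2048 k j := by
    intro n hn
    induction n, hn using Nat.le_induction with
    | base => simp
    | succ n hn ih =>
      rw [Finset.sum_Ico_succ_top hn, ih]
      have a1 := hmon hn
      have a2 := hmon (show n ≤ n + 1 from Nat.le_succ n)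
      exact Finset.sum_Ico_consecutive _ (by omega) (by omega)
  rw [hcat g hg1]
  have h2 : ∑ k ∈ Finset.Ico (fl 8192 1 - 20) (fl 8192 g - 20), A' k * wR 2048 k j ≤
      ∑ k ∈ Finset.Ico 8172 (fl 8192 g - 20), A' k * wR 2048 k j := by
    apply Finset.sum_le_sum_of_subset_of_nonneg
    · apply Finset.Ico_subset_Ico _ le_rfl
      have := hge 1
      omega
    · intro k hk _
      rw [Finset.mem_Ico] at hk
      apply mul_nonneg
      · rw [hA']
        dsimp only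
        split_ifs with hk'
        · obtain ⟨f, hf1, hf2, hf3⟩ : ∃ f, 1 ≤ f ∧ fl 8192 f - 20 ≤ k ∧
              k < fl 8192 (f + 1) - 20 := by
            have : ∀ n, 1 ≤ n → k < fl 8192 n - 20 → ∃ f, 1 ≤ f ∧ fl 8192 f - 20 ≤ k ∧
                k < fl 8192 (f + 1) - 20 := by
              intro n hn
              induction n, hn using Nat.le_induction with
              | base => intro h; omega
              | succ n hn ih =>
                intro h
                by_cases h' : k < fl 8192 n - 20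
                · exact ih h'
                · exact ⟨n, hn, by omega, h⟩
            exact this g hg1 hk'.2
          rw [hD.A f k hf1 hf2 hf3]
          exact hD.a0 f
        · exact le_rfl
      · exact wR_nonneg (by norm_num) (by omega) (by omega)
  refine h2.trans ?_
  -- the real number Y = (12 j^3)^(1/4)
  obtain ⟨Y, hY0, hY4⟩ : ∃ Y : ℝ, 0 < Y ∧ Y ^ 4 = 12 * (j : ℝ) ^ 3 := by
    refine ⟨Real.sqrt (Real.sqrt (12 * (j : ℝ) ^ 3)), Real.sqrt_pos.2 (Real.sqrt_pos.2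
      (by positivity)), ?_⟩
    have e1 : Real.sqrt (Real.sqrt (12 * (j : ℝ) ^ 3)) ^ 4 =
        (Real.sqrt (Real.sqrt (12 * (j : ℝ) ^ 3)) ^ 2) ^ 2 := by ring
    rw [e1, Real.sq_sqrt (Real.sqrt_nonneg _), Real.sq_sqrt (by positivity)]
  have hj3 : (10 : ℝ) ^ 32 ≤ 12 * (j : ℝ) ^ 3 := by
    have h3 : (100000000000 : ℝ) ^ 3 ≤ (j : ℝ) ^ 3 := pow_le_pow_left₀ (by norm_num) hjR 3
    norm_num at h3 ⊢
    linarith
  have hY8 : (10 : ℝ) ^ 8 ≤ Y := by
    have h3 : ((10 : ℝ) ^ 8) ^ 4 ≤ Y ^ 4 := by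
      rw [hY4]
      refine le_trans (le_of_eq ?_) hj3
      norm_num
    exact le_of_pow_le_pow_left₀ (by norm_num) hY0.le h3
  -- Y^2 ≥ 3 j √j ≥ ... : (Y^2)^2 = 12 j^3
  have hY2 : 1000000 * (j : ℝ) ≤ Y ^ 2 := by
    have h3 : (1000000 * (j : ℝ)) ^ 2 ≤ (Y ^ 2) ^ 2 := by
      have e1 : (Y ^ 2) ^ 2 = Y ^ 4 := by ring
      rw [e1, hY4]
      have h4 : (1000000 * (j : ℝ)) ^ 2 = 1000000000000 * (j : ℝ) ^ 2 := by ring
      have h5 : 12 * (j : ℝ) ^ 3 = 12 * (j : ℝ) * (j : ℝ) ^ 2 := by ring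
      rw [h4, h5]
      apply mul_le_mul_of_nonneg_right _ (by positivity)
      linarith
    exact le_of_pow_le_pow_left₀ (by norm_num) (sq_nonneg Y) h3
  have hY16 : Y ^ 2 / 2 ≤ (Y - 16) ^ 2 := by
    have h4 : (100000000 : ℝ) * Y ≤ Y * Y := by
      apply mul_le_mul_of_nonneg_right _ hY0.le
      norm_num at hY8
      exact hY8
    nlinarith
  have h3 := R_sum (q := 2048) (by norm_num) (by norm_num) (j := j) (by omega) (X := 10 ^ 8) (Y := Y)
    (c := 1 / 10000) (by norm_num) (by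
      have h4 : ((10 : ℝ) ^ 8) ^ 4 = 10 ^ 32 := by norm_num
      have h5 : 0 < (j : ℝ) ^ 3 := by positivity
      rw [h4]
      linarith) (by linarith)
    (by
      intro K _ hK _
      rw [← hY4] at hK
      exact (lt_of_pow_lt_pow_left₀ 4 (Nat.cast_nonneg _) hK).le)
    (by linarith) A' L hL0
    (by
      intro k hk1 hk2 _
      rw [hA']
      dsimp only
      split_ifs with hk'
      · obtain ⟨f, hf1, hf2, hf3, hf4⟩ : ∃ f, 1 ≤ f ∧ f < g ∧ fl 8192 f - 20 ≤ k ∧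
              k < fl 8192 (f + 1) - 20 := by
            have : ∀ n, 1 ≤ n → k < fl 8192 n - 20 → ∃ f, 1 ≤ f ∧ f < n ∧ fl 8192 f - 20 ≤ k ∧
                k < fl 8192 (f + 1) - 20 := by
              intro n hn
              induction n, hn using Nat.le_induction with
              | base => intro h; omega
              | succ n hn ih =>
                intro h
                by_cases h' : k < fl 8192 n - 20
                · obtain ⟨f, b1, b2, b3, b4⟩ := ih h'
                  exact ⟨f, b1, by omega, b3, b4⟩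
                · exact ⟨n, hn, by omega, by omega, h⟩
            exact this g hg1 hk'.2
        rw [hD.A f k hf1 hf3 hf4]
        apply hL f hf1 hf2
        have h4 : 12 * j ^ 3 < fl 8192 (f + 1) ^ 4 :=
          lt_of_lt_of_le hk2 (Nat.pow_le_pow_left (by omega) 4)
        exact_mod_cast h4
      · exact hL0) (fl 8192 g - 20)
  refine h3.trans ?_
  rw [mul_comm]
  apply mul_le_mul_of_nonneg_right _ hL0
  have e1 : (1 + 54 / Y) ≤ 1 + 1 / 10 ^ 6 := by
    have : 54 / Y ≤ 1 / 10 ^ 6 := by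
      rw [div_le_div_iff₀ hY0 (by norm_num)]
      linarith
    linarith
  have e2 : (1 + 100 / Y) ≤ 1 + 1 / 10 ^ 6 := by
    have : 100 / Y ≤ 1 / 10 ^ 6 := by
      rw [div_le_div_iff₀ hY0 (by norm_num)]
      linarith
    linarith
  have e3 : 0 ≤ 54 / Y := (div_pos (by norm_num) hY0).le
  have e4 : 0 ≤ 100 / Y := (div_pos (by norm_num) hY0).le
  have e5 : 3 / (j : ℝ) ≤ 1 / 10 ^ 6 := by
    rw [div_le_div_iff₀ hj0 (by norm_num)]
    norm_num
    linarith
  have e6 : (1 + 54 / Y) * (1 + 100 / Y) ≤ (1 + 1 / 10 ^ 6) * (1 + 1 / 10 ^ 6) :=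
    mul_le_mul e1 e2 (by linarith) (by norm_num)
  have e7 : 3 * (456 * (1 + 52 / (10 : ℝ) ^ 8) ^ 4 - 184 * (1 - 3 / (j : ℝ))) / 1024 + 1 / 10000 ≤
      797 / 1000 := by
    have : 184 * (1 - 3 / (j : ℝ)) ≥ 184 * (1 - 1 / 10 ^ 6) := by linarith
    norm_num at this ⊢
    linarith
  have e8 : 0 ≤ 3 * (456 * (1 + 52 / (10 : ℝ) ^ 8) ^ 4 - 184 * (1 - 3 / (j : ℝ))) / 1024 +
      1 / 10000 := by
    have : (0 : ℝ) ≤ 3 / j := by positivity
    norm_num
    linarith
  calc (1 + 54 / Y) * (1 + 100 / Y) *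
        (3 * (456 * (1 + 52 / (10 : ℝ) ^ 8) ^ 4 - 184 * (1 - 3 / (j : ℝ))) / 1024 + 1 / 10000) ≤
      (1 + 1 / 10 ^ 6) * (1 + 1 / 10 ^ 6) * (797 / 1000) :=
        mul_le_mul e6 e7 e8 (by norm_num)
    _ ≤ 798 / 1000 := by norm_num

end

end Pool.Agent.LibMoserT
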