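import Mathlib
set_option autoImplicit false
namespace Pool.Agent.LibMoserT

/-- the real inequality behind the chain inequality -/
theorem n4_core {a b t S T1 T2 T3 : ℝ} (ha : 5 / 4 ≤ a) (ha5 : a ≤ 501 / 100) (hat : a ≤ t)
    (hab : a ≤ b) (hbt : b ≤ 6 / 5 * t)
    (h0 : a < 25 / 16 → S ≤ 0)
    (hN : S ≤ 5 / 2 * max 0 (16 / 25 * a ^ 2 - 25 / 16) + 1 / 1000)
    (hH : S ≤ 5 / 2 * (T1 + T2 + T3))
    (hT1 : T1 ≤ max 0 (16 / 25 * a ^ 2 - 25 / 121 * b ^ 2) + 1 / 10000)
    (hT1' : T1 ≤ max 0 (40000 / 38809 * (b - 5 / 4) ^ 2 - 25 / 121 * b ^ 2) + 1 / 10000)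
    (hT2 : T2 ≤ max 0 (10000 / 38809 * (b - 5 / 4) ^ 2 - 25 / 256 * b ^ 2) + 1 / 10000)
    (hT2' : T2 ≤ max 0 (10000 / 38809 * (b - 5 / 4) ^ 2 - 25 / 16) + 1 / 10000)
    (hT3 : T3 ≤ max 0 (40000 / 349281 * (b - 5 / 4) ^ 2 - 25 / 16) + 1 / 10000) :
    10006 / 10000 * (b + 4 / 5) + 1 / 1000 + S ≤ 3 / 10 * a * (5 * t - 1 / 20) := by
  have ht1 : 3 / 2 * a ^ 2 ≤ 3 / 2 * (a * t) := by nlinarith
  have ht2 : 5 / 4 * (a * b) ≤ 3 / 2 * (a * t) := by nlinarith
  have hR : 3 / 10 * a * (5 * t - 1 / 20) = 3 / 2 * (a * t) - 3 / 200 * a := by ring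
  rw [hR]
  rcases lt_or_ge a (25 / 16) with h1 | h1
  · have hS := h0 h1
    rcases le_total b (6 / 5 * a) with h2 | h2
    · nlinarith
    · have h3 : 0 ≤ (b - 6 / 5 * a) * (5 / 4 * a - 10006 / 10000) :=
        mul_nonneg (by linarith) (by linarith)
      nlinarith
  · rcases le_total b (6 / 5 * a) with h2 | h2
    · -- region A
      rcases le_total b (297 / 80) with h3 | h3
      · have e2 : T2 ≤ 1 / 10000 := by
          refine hT2'.trans ?_
          rw [max_eq_left (by nlinarith)]
          linarith
        have e3 : T3 ≤ 1 / 10000 := by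
          refine hT3.trans ?_
          rw [max_eq_left (by nlinarith)]
          linarith
        rcases max_cases (0 : ℝ) (40000 / 38809 * (b - 5 / 4) ^ 2 - 25 / 121 * b ^ 2) with
          ⟨h4, -⟩ | ⟨h4, -⟩
        · rw [h4] at hT1'
          nlinarith
        · rw [h4] at hT1'
          have h5 : 0 ≤ (b - 25 / 16) * (297 / 80 - b) := mul_nonneg (by linarith) (by linarith)
          have h6 : 0 ≤ (a - 5 / 6 * b) * (a + 5 / 6 * b - 1 / 100) :=
            mul_nonneg (by linarith) (by linarith)
          nlinarith
      · have g1 : 0 ≤ 16 / 25 * a ^ 2 - 25 / 121 * b ^ 2 := by nlinarith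
        have g2 : 0 ≤ 10000 / 38809 * (b - 5 / 4) ^ 2 - 25 / 256 * b ^ 2 := by nlinarith
        rw [max_eq_right g1] at hT1
        rw [max_eq_right g2] at hT2
        rcases le_total b (791 / 160) with h4 | h4
        · have e3 : T3 ≤ 1 / 10000 := by
            refine hT3.trans ?_
            rw [max_eq_left (by nlinarith)]
            linarith
          have h5 : 0 ≤ (b - a) * (b + a) := mul_nonneg (by linarith) (by linarith)
          nlinarith
        · have g3 : 0 ≤ 40000 / 349281 * (b - 5 / 4) ^ 2 - 25 / 16 := by nlinarith
          rw [max_eq_right g3] at hT3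
          have h5 : 0 ≤ (501 / 100 - a) * (a - 4) := mul_nonneg (by linarith) (by linarith)
          have h6 : 0 ≤ (b - 791 / 160) * (6012 / 1000 - b) := mul_nonneg (by linarith) (by linarith)
          nlinarith
    · -- region B
      rcases le_total a 2 with h3 | h3
      · rw [max_eq_right (by nlinarith)] at hN
        have h4 : 0 ≤ (b - 6 / 5 * a) * (5 / 4 * a - 10006 / 10000) :=
          mul_nonneg (by linarith) (by linarith)
        nlinarith
      · rcases le_total (3 / 2 * a) b with h4 | h4
        · rw [max_eq_right (by nlinarith)] at hN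
          have h5 : 0 ≤ (b - 3 / 2 * a) * (5 / 4 * a - 10006 / 10000) :=
            mul_nonneg (by linarith) (by linarith)
          nlinarith [sq_nonneg (a - 2756 / 1000)]
        · rcases le_total b 3 with h5 | h5
          · have e2 : T2 ≤ 1 / 10000 := by
              refine hT2'.trans ?_
              rw [max_eq_left (by nlinarith)]
              linarith
            have e3 : T3 ≤ 1 / 10000 := by
              refine hT3.trans ?_
              rw [max_eq_left (by nlinarith)]
              linarith
            have h7 : 0 ≤ (a - 2 / 3 * b) * b := mul_nonneg (by linarith) (by linarith)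
            rcases max_cases (0 : ℝ) (40000 / 38809 * (b - 5 / 4) ^ 2 - 25 / 121 * b ^ 2) with
              ⟨h6, -⟩ | ⟨h6, -⟩
            · rw [h6] at hT1'
              nlinarith
            · rw [h6] at hT1'
              have h8 : 0 ≤ (b - 24 / 10) * (3 - b) := mul_nonneg (by linarith) (by linarith)
              nlinarith
          · have g1 : 0 ≤ 16 / 25 * a ^ 2 - 25 / 121 * b ^ 2 := by nlinarith
            rw [max_eq_right g1] at hT1
            have h6 : 0 ≤ (a - 2 / 3 * b) * (5 / 6 * b - a) :=
              mul_nonneg (by linarith) (by linarith)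
            have h7 : 0 ≤ (5 / 6 * b - a) * b := mul_nonneg (by linarith) (by linarith)
            rcases le_total b (297 / 80) with h8 | h8
            · have e2 : T2 ≤ 1 / 10000 := by
                refine hT2'.trans ?_
                rw [max_eq_left (by nlinarith)]
                linarith
              have e3 : T3 ≤ 1 / 10000 := by
                refine hT3.trans ?_
                rw [max_eq_left (by nlinarith)]
                linarith
              nlinarith
            · have g2 : 0 ≤ 10000 / 38809 * (b - 5 / 4) ^ 2 - 25 / 256 * b ^ 2 := by nlinarith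
              rw [max_eq_right g2] at hT2
              rcases le_total b (791 / 160) with h9 | h9
              · have e3 : T3 ≤ 1 / 10000 := by
                  refine hT3.trans ?_
                  rw [max_eq_left (by nlinarith)]
                  linarith
                nlinarith
              · have g3 : 0 ≤ 40000 / 349281 * (b - 5 / 4) ^ 2 - 25 / 16 := by nlinarith
                rw [max_eq_right g3] at hT3
                rcases le_total b (6012 / 1000) with h10 | h10
                · have h11 : 0 ≤ (b - 791 / 160) * (6012 / 1000 - b) :=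
                    mul_nonneg (by linarith) (by linarith)
                  nlinarith
                · have h11 : 0 ≤ (b - 6012 / 1000) * (752 / 100 - b) :=
                    mul_nonneg (by linarith) (by linarith)
                  have h12 : 0 ≤ (501 / 100 - a) * (a - 2 / 3 * b) :=
                    mul_nonneg (by linarith) (by linarith)
                  have h13 : 0 ≤ (501 / 100 - a) * (b - 6012 / 1000) :=
                    mul_nonneg (by linarith) (by linarith)
                  nlinarith

end Pool.Agent.LibMoserT
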