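import Pool.Agent.LibMoserT.ChainA
import Pool.Agent.LibMoserT.N4Core
set_option autoImplicit false
/-!
# The chain inequality with known rests
-/
namespace Pool.Agent.LibMoserT
open Pool.Agent.LibMoser5 Pool.Agent.LibMoserF Classical

noncomputable section

/-- normalised chain potential of a strip `p × b` -/
def nF (p b : ℝ) : ℝ := if hitR (5 / 4) p b then (if 5 / 4 ≤ p then 5 * p - 1 / 20 else 0) else 0

theorem nF_nonneg (p b : ℝ) : 0 ≤ nF p b := by
  unfold nF
  split_ifs with h1 h2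
  · linarith
  · exact le_rfl
  · exact le_rfl

theorem nF_le (p b : ℝ) (hp : 5 / 4 ≤ p) : nF p b ≤ 5 * p - 1 / 20 := by
  unfold nF
  split_ifs with h1
  · exact le_rfl
  · linarith

theorem nF_zero (p b : ℝ) (hp : p < 5 / 4) : nF p b = 0 := by
  unfold nF
  split_ifs with h1 h2
  · linarith
  · rfl
  · rfl

/-- the three intervals -/
theorem nF_le3 {a b p : ℝ} (hb : 0 < b) (hab : a ≤ b) (hp : p ≤ 4 / 5 * a) :
    nF p b ≤ (if 5 / 11 * b ≤ p ∧ p ≤ min (4 / 5 * a) (200 / 197 * (b - 5 / 4)) then 5 * p else 0) +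
      (if max (5 / 4) (5 / 16 * b) ≤ p ∧ p ≤ 100 / 197 * (b - 5 / 4) then 5 * p else 0) +
      (if 5 / 4 ≤ p ∧ p ≤ 200 / 591 * (b - 5 / 4) then 5 * p else 0) := by
  by_cases h5 : p < 5 / 4
  · rw [nF_zero p b h5]
    have h1 : ∀ P : Prop, [Decidable P] → (P → 0 ≤ p) → 0 ≤ (if P then 5 * p else 0) := by
      intro P _ hP
      split_ifs with h
      · linarith [hP h]
      · exact le_rfl
    refine add_nonneg (add_nonneg (h1 _ ?_) (h1 _ ?_)) (h1 _ ?_)
    · rintro ⟨h, -⟩
      linarith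
    · rintro ⟨h, -⟩
      have := le_trans (le_max_left _ _) h
      linarith
    · rintro ⟨h, -⟩
      linarith
  push Not at h5
  have hp0 : 0 < p := by linarith
  have hnn : ∀ P : Prop, [Decidable P] → 0 ≤ (if P then 5 * p else 0) := by
    intro P _
    split_ifs
    · linarith
    · exact le_rfl
  unfold nF
  by_cases hh : hitR (5 / 4) p b
  · rw [if_pos hh, if_pos h5]
    obtain ⟨n, hn1, hn2⟩ := hh
    rcases n with _ | _ | _ | n
    · exfalso
      push_cast at hn1
      linarith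
    · have c : 5 / 11 * b ≤ p ∧ p ≤ min (4 / 5 * a) (200 / 197 * (b - 5 / 4)) := by
        push_cast at hn1 hn2
        refine ⟨by linarith, le_min hp (by linarith)⟩
      rw [if_pos c]
      have := hnn (max (5 / 4) (5 / 16 * b) ≤ p ∧ p ≤ 100 / 197 * (b - 5 / 4))
      have := hnn (5 / 4 ≤ p ∧ p ≤ 200 / 591 * (b - 5 / 4))
      linarith
    · have c : max (5 / 4) (5 / 16 * b) ≤ p ∧ p ≤ 100 / 197 * (b - 5 / 4) := by
        push_cast at hn1 hn2
        refine ⟨max_le h5 (by linarith), by linarith⟩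
      rw [if_pos c]
      have := hnn (5 / 11 * b ≤ p ∧ p ≤ min (4 / 5 * a) (200 / 197 * (b - 5 / 4)))
      have := hnn (5 / 4 ≤ p ∧ p ≤ 200 / 591 * (b - 5 / 4))
      linarith
    · have c : 5 / 4 ≤ p ∧ p ≤ 200 / 591 * (b - 5 / 4) := by
        push_cast at hn2
        have h6 : 0 ≤ (n : ℝ) * p := mul_nonneg (Nat.cast_nonneg _) hp0.le
        refine ⟨h5, by linarith⟩
      rw [if_pos c]
      have := hnn (5 / 11 * b ≤ p ∧ p ≤ min (4 / 5 * a) (200 / 197 * (b - 5 / 4)))
      have := hnn (max (5 / 4) (5 / 16 * b) ≤ p ∧ p ≤ 100 / 197 * (b - 5 / 4))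
      linarith
  · rw [if_neg hh]
    exact add_nonneg (add_nonneg (hnn _) (hnn _)) (hnn _)

/-- Riemann sum over the cuts with thickness in `[lo, hi]` -/
theorem grid_sum {a lo hi : ℝ} {N : ℕ} (ha : 0 < a) (hN : 0 < N) (hlo : 0 ≤ lo) :
    (∑ m ∈ Finset.range N, (if lo ≤ phi N m * a ∧ phi N m * a ≤ hi then 5 * (phi N m * a) else 0)) *
      (3 * a / (5 * N)) ≤ 5 / 2 * max 0 ((hi + 3 * a / (5 * N)) ^ 2 - lo ^ 2) := by
  have hN' : (0 : ℝ) < N := by exact_mod_cast hN
  obtain ⟨δ, hδ⟩ : ∃ δ, δ = 3 * a / (5 * N) := ⟨_, rfl⟩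
  have hδ0 : 0 < δ := by rw [hδ]; positivity
  rw [← hδ, Finset.sum_mul]
  obtain ⟨Ψ, hΨ⟩ : ∃ Ψ : ℝ → ℝ, Ψ = fun x => 5 / 2 * (max lo (min x (hi + δ))) ^ 2 := ⟨_, rfl⟩
  have hp : ∀ m : ℕ, phi N (m + 1) * a = phi N m * a + δ := by
    intro m
    unfold phi
    push_cast
    rw [hδ]
    field_simp
    ring
  have hstep : ∀ m ∈ Finset.range N, (if lo ≤ phi N m * a ∧ phi N m * a ≤ hi then
      5 * (phi N m * a) else 0) * δ ≤ Ψ (phi N (m + 1) * a) - Ψ (phi N m * a) := by
    intro m _
    rw [hp m]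
    generalize phi N m * a = x
    rw [hΨ]
    dsimp only
    split_ifs with h
    · obtain ⟨h1, h2⟩ := h
      have e1 : max lo (min (x + δ) (hi + δ)) = x + δ := by
        rw [min_eq_left (by linarith), max_eq_right (by linarith)]
      have e2 : max lo (min x (hi + δ)) = x := by
        rw [min_eq_left (by linarith), max_eq_right h1]
      rw [e1, e2]
      nlinarith [sq_nonneg δ]
    · rw [zero_mul]
      have h1 : max lo (min x (hi + δ)) ≤ max lo (min (x + δ) (hi + δ)) :=
        max_le_max le_rfl (min_le_min (by linarith) le_rfl)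
      have h2 : 0 ≤ max lo (min x (hi + δ)) := hlo.trans (le_max_left _ _)
      have h3 := pow_le_pow_left₀ h2 h1 2
      linarith
  refine (Finset.sum_le_sum hstep).trans ?_
  rw [Finset.sum_range_sub (fun m => Ψ (phi N m * a)), hΨ]
  dsimp only
  rw [← mul_sub]
  apply mul_le_mul_of_nonneg_left _ (by norm_num)
  have h1 : lo ≤ max lo (min (phi N 0 * a) (hi + δ)) := le_max_left _ _
  have h2 : lo ^ 2 ≤ (max lo (min (phi N 0 * a) (hi + δ))) ^ 2 := pow_le_pow_left₀ hlo h1 2
  rcases le_total (hi + δ) lo with h3 | h3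
  · have h4 : max lo (min (phi N N * a) (hi + δ)) = lo :=
      max_eq_left ((min_le_right _ _).trans h3)
    rw [h4]
    have := le_max_left 0 ((hi + δ) ^ 2 - lo ^ 2)
    linarith
  · have h4 : max lo (min (phi N N * a) (hi + δ)) ≤ hi + δ := max_le h3 (min_le_right _ _)
    have h5 : 0 ≤ max lo (min (phi N N * a) (hi + δ)) := hlo.trans (le_max_left _ _)
    have h6 := pow_le_pow_left₀ h5 h4 2
    have := le_max_right 0 ((hi + δ) ^ 2 - lo ^ 2)
    linarith

theorem max_shift {x y z δ η : ℝ} (hx : x ≤ z) (hx0 : 0 ≤ x + δ) (hz : 0 ≤ z) (hδ : 0 ≤ δ)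
    (h : 2 * z * δ + δ ^ 2 ≤ η) :
    max 0 ((x + δ) ^ 2 - y) ≤ max 0 (z ^ 2 - y) + η := by
  have h1 : (x + δ) ^ 2 ≤ (z + δ) ^ 2 := pow_le_pow_left₀ hx0 (by linarith) 2
  have h2 : (z + δ) ^ 2 = z ^ 2 + (2 * z * δ + δ ^ 2) := by ring
  have h3 : 0 ≤ 2 * z * δ + δ ^ 2 := by positivity
  refine max_le ?_ ?_
  · have := le_max_left 0 (z ^ 2 - y)
    linarith
  · have := le_max_right 0 (z ^ 2 - y)
    linarith

/-- The chain inequality, normalised. -/
theorem n4_one {w a b t : ℝ} {N : ℕ} (hw : 0 < w) (hw' : w ≤ 1 / 1000) (ha : 5 / 4 ≤ a)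
    (hat : a ≤ t) (hta : t ≤ 5 * a) (htb : t ≤ b) (hbt : b ≤ 6 / 5 * t) (hN : 1000 * a ≤ N * w) :
    2 * ∑ m ∈ Finset.range N, (nm w b (phi N m * a) + nF (phi N m * a) b) ≤
      N * (5 * t - 1 / 20) := by
  have ha0 : 0 < a := by linarith
  have hNp : (0 : ℝ) < N := by
    by_contra hcon
    have : (N : ℝ) * w ≤ 0 := mul_nonpos_of_nonpos_of_nonneg (not_lt.1 hcon) hw.le
    linarith
  have hNn : 0 < N := by exact_mod_cast hNp
  have hb0 : 0 < b := by linarith
  rcases lt_or_ge (5 * (1 + w)) a with hfar | hnear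
  · -- far: pointwise
    have h1 : 2 * ∑ m ∈ Finset.range N, (nm w b (phi N m * a) + nF (phi N m * a) b) =
        ∑ m ∈ Finset.range N, ((nm w b (phi N m * a) + nF (phi N m * a) b) +
          (nm w b ((1 - phi N m) * a) + nF ((1 - phi N m) * a) b)) := by
      have e1 : ∑ m ∈ Finset.range N, ((nm w b (phi N m * a) + nF (phi N m * a) b) +
          (nm w b ((1 - phi N m) * a) + nF ((1 - phi N m) * a) b)) =
          ∑ m ∈ Finset.range N, (nm w b (phi N m * a) + nF (phi N m * a) b) +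
          ∑ m ∈ Finset.range N, (nm w b ((1 - phi N m) * a) + nF ((1 - phi N m) * a) b) :=
        Finset.sum_add_distrib
      have e2 := sum_reflect_phi N (fun y => nm w b (y * a) + nF (y * a) b)
      rw [e1, e2]
      ring
    rw [h1]
    have h2 : ∀ m ∈ Finset.range N, ((nm w b (phi N m * a) + nF (phi N m * a) b) +
          (nm w b ((1 - phi N m) * a) + nF ((1 - phi N m) * a) b)) ≤ 5 * t - 1 / 20 := by
      intro m hm
      obtain ⟨h3, h4⟩ := phi_mem (Finset.mem_range.1 hm)
      have e0 : (1 - phi N m) * a = a - phi N m * a := by ring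
      have h5 : 1 / 5 * a ≤ phi N m * a := mul_le_mul_of_nonneg_right h3 ha0.le
      have h6 : phi N m * a ≤ 4 / 5 * a := mul_le_mul_of_nonneg_right h4 ha0.le
      rw [e0]
      generalize phi N m * a = x at *
      have e1 : nm w b x = 0 := by
        unfold nm
        rw [if_neg]
        rintro ⟨-, h7⟩
        linarith
      have e2 : nm w b (a - x) = 0 := by
        unfold nm
        rw [if_neg]
        rintro ⟨-, h7⟩
        linarith
      rw [e1, e2, zero_add, zero_add]
      rcases lt_or_ge x (5 / 4) with h7 | h7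
      · rw [nF_zero x b h7, zero_add]
        have := nF_le (a - x) b (by linarith)
        linarith
      · rcases lt_or_ge (a - x) (5 / 4) with h8 | h8
        · rw [nF_zero (a - x) b h8, add_zero]
          have := nF_le x b h7
          linarith
        · have := nF_le x b h7
          have := nF_le (a - x) b h8
          linarith
    refine (Finset.sum_le_sum h2).trans (le_of_eq ?_)
    rw [Finset.sum_const, Finset.card_range, nsmul_eq_mul]
  · -- near
    have ha5 : a ≤ 501 / 100 := by linarith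
    obtain ⟨δ, hδ⟩ : ∃ δ, δ = 3 * a / (5 * (N : ℝ)) := ⟨_, rfl⟩
    have hδ0 : 0 < δ := by rw [hδ]; positivity
    have hδw : δ ≤ 3 / 5000 * w := by
      rw [hδ, div_le_iff₀ (by positivity)]
      linarith
    have hδ1 : δ ≤ 1 / 1000000 := by linarith
    have hNδ : (N : ℝ) * δ = 3 / 5 * a := by
      rw [hδ]
      field_simp
    -- direct part
    have hdir : (∑ m ∈ Finset.range N, nm w b (phi N m * a)) * δ ≤
        10006 / 10000 * (b + 4 / 5) + 1 / 1000 := by
      have h1 := mul_le_mul_of_nonneg_right (sum_nm_le (N := N) hw ha0 hb0.le hNn) hδ0.le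
      refine h1.trans ?_
      have e1 : ((N : ℝ) * w * (5 / (3 * a)) + 1) * ((b + 4 / 5 * (1 + w)) / w) * δ =
          (b + 4 / 5 * (1 + w)) * (1 + δ / w) := by
        have e2 : (N : ℝ) * δ * (5 / (3 * a)) = 1 := by
          rw [hNδ]
          field_simp
        calc ((N : ℝ) * w * (5 / (3 * a)) + 1) * ((b + 4 / 5 * (1 + w)) / w) * δ =
            (b + 4 / 5 * (1 + w)) * ((N : ℝ) * δ * (5 / (3 * a)) * (w / w) + δ / w) := by ring
          _ = (b + 4 / 5 * (1 + w)) * (1 + δ / w) := by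
              rw [e2, div_self hw.ne', mul_one]
      rw [e1]
      have e3 : δ / w ≤ 6 / 10000 := by
        rw [div_le_iff₀ hw]
        linarith
      have e4 : 0 ≤ δ / w := by positivity
      calc (b + 4 / 5 * (1 + w)) * (1 + δ / w) ≤ (b + 4 / 5 * (1 + w)) * (10006 / 10000) :=
            mul_le_mul_of_nonneg_left (by linarith) (by positivity)
        _ ≤ 10006 / 10000 * (b + 4 / 5) + 1 / 1000 := by linarith
    -- chain part
    obtain ⟨S, hS⟩ : ∃ S, S = (∑ m ∈ Finset.range N, nF (phi N m * a) b) * δ := ⟨_, rfl⟩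
    have hpm : ∀ m ∈ Finset.range N, phi N m * a ≤ 4 / 5 * a := fun m hm =>
      mul_le_mul_of_nonneg_right (phi_mem (Finset.mem_range.1 hm)).2 ha0.le
    have h0 : a < 25 / 16 → S ≤ 0 := by
      intro h1
      rw [hS, Finset.sum_eq_zero, zero_mul]
      intro m hm
      exact nF_zero _ _ (by linarith [hpm m hm])
    have hNb : S ≤ 5 / 2 * max 0 (16 / 25 * a ^ 2 - 25 / 16) + 1 / 1000 := by
      have h1 : ∀ m ∈ Finset.range N, nF (phi N m * a) b ≤
          (if 5 / 4 ≤ phi N m * a ∧ phi N m * a ≤ 4 / 5 * a then 5 * (phi N m * a) else 0) := by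
        intro m hm
        rcases lt_or_ge (phi N m * a) (5 / 4) with h2 | h2
        · rw [nF_zero _ _ h2]
          split_ifs with h3
          · linarith [h3.1]
          · exact le_rfl
        · rw [if_pos ⟨h2, hpm m hm⟩]
          have := nF_le _ b h2
          linarith
      have h2 := mul_le_mul_of_nonneg_right (Finset.sum_le_sum h1) hδ0.le
      have h3 := grid_sum (a := a) (lo := 5 / 4) (hi := 4 / 5 * a) (N := N) ha0 hNn (by norm_num)
      rw [← hδ] at h3
      have h4 := max_shift (x := 4 / 5 * a) (y := (5 / 4 : ℝ) ^ 2) (z := 4 / 5 * a) (δ := δ)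
        (η := 1 / 10000) le_rfl (by positivity) (by positivity) hδ0.le (by nlinarith)
      rw [hS]
      have e1 : (4 / 5 * a) ^ 2 - (5 / 4 : ℝ) ^ 2 = 16 / 25 * a ^ 2 - 25 / 16 := by ring
      rw [e1] at h4
      linarith
    have hH : ∃ T1 T2 T3 : ℝ, S ≤ 5 / 2 * (T1 + T2 + T3) ∧
        T1 ≤ max 0 (16 / 25 * a ^ 2 - 25 / 121 * b ^ 2) + 1 / 10000 ∧
        T1 ≤ max 0 (40000 / 38809 * (b - 5 / 4) ^ 2 - 25 / 121 * b ^ 2) + 1 / 10000 ∧
        T2 ≤ max 0 (10000 / 38809 * (b - 5 / 4) ^ 2 - 25 / 256 * b ^ 2) + 1 / 10000 ∧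
        T2 ≤ max 0 (10000 / 38809 * (b - 5 / 4) ^ 2 - 25 / 16) + 1 / 10000 ∧
        T3 ≤ max 0 (40000 / 349281 * (b - 5 / 4) ^ 2 - 25 / 16) + 1 / 10000 := by
      have hu : 0 ≤ b - 5 / 4 := by linarith
      have hb31 : b ≤ 3006 / 100 := by linarith
      refine ⟨max 0 ((min (4 / 5 * a) (200 / 197 * (b - 5 / 4)) + δ) ^ 2 - (5 / 11 * b) ^ 2),
        max 0 ((100 / 197 * (b - 5 / 4) + δ) ^ 2 - (max (5 / 4) (5 / 16 * b)) ^ 2),
        max 0 ((200 / 591 * (b - 5 / 4) + δ) ^ 2 - (5 / 4) ^ 2), ?_, ?_, ?_, ?_, ?_, ?_⟩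
      · have h1 : ∀ m ∈ Finset.range N, nF (phi N m * a) b ≤ _ := fun m hm =>
          nF_le3 hb0 (hat.trans htb) (hpm m hm)
        have h2 := mul_le_mul_of_nonneg_right (Finset.sum_le_sum h1) hδ0.le
        rw [Finset.sum_add_distrib, Finset.sum_add_distrib, add_mul, add_mul] at h2
        have g1 := grid_sum (a := a) (lo := 5 / 11 * b)
          (hi := min (4 / 5 * a) (200 / 197 * (b - 5 / 4))) (N := N) ha0 hNn (by positivity)
        have g2 := grid_sum (a := a) (lo := max (5 / 4) (5 / 16 * b))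
          (hi := 100 / 197 * (b - 5 / 4)) (N := N) ha0 hNn (by positivity)
        have g3 := grid_sum (a := a) (lo := 5 / 4)
          (hi := 200 / 591 * (b - 5 / 4)) (N := N) ha0 hNn (by norm_num)
        rw [← hδ] at g1 g2 g3
        rw [hS]
        linarith
      · have h4 := max_shift (x := min (4 / 5 * a) (200 / 197 * (b - 5 / 4)))
          (y := (5 / 11 * b) ^ 2) (z := 4 / 5 * a) (δ := δ) (η := 1 / 10000) (min_le_left _ _)
          (by
            have : 0 ≤ min (4 / 5 * a) (200 / 197 * (b - 5 / 4)) :=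
              le_min (by positivity) (by positivity)
            linarith) (by positivity) hδ0.le (by nlinarith)
        refine h4.trans (le_of_eq ?_)
        congr 2
        ring
      · have h4 := max_shift (x := min (4 / 5 * a) (200 / 197 * (b - 5 / 4)))
          (y := (5 / 11 * b) ^ 2) (z := 200 / 197 * (b - 5 / 4)) (δ := δ) (η := 1 / 10000)
          (min_le_right _ _)
          (by
            have : 0 ≤ min (4 / 5 * a) (200 / 197 * (b - 5 / 4)) :=
              le_min (by positivity) (by positivity)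
            linarith) (by positivity) hδ0.le (by nlinarith)
        refine h4.trans (le_of_eq ?_)
        congr 2
        ring
      · have h5 : (5 / 16 * b) ^ 2 ≤ (max (5 / 4) (5 / 16 * b)) ^ 2 :=
          pow_le_pow_left₀ (by positivity) (le_max_right _ _) 2
        have h4 := max_shift (x := 100 / 197 * (b - 5 / 4))
          (y := (5 / 16 * b) ^ 2) (z := 100 / 197 * (b - 5 / 4)) (δ := δ) (η := 1 / 10000)
          le_rfl (by positivity) (by positivity) hδ0.le (by nlinarith)
        refine le_trans (max_le_max le_rfl (by linarith)) (h4.trans (le_of_eq ?_))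
        congr 2
        ring
      · have h5 : (5 / 4 : ℝ) ^ 2 ≤ (max (5 / 4) (5 / 16 * b)) ^ 2 :=
          pow_le_pow_left₀ (by norm_num) (le_max_left _ _) 2
        have h4 := max_shift (x := 100 / 197 * (b - 5 / 4))
          (y := (5 / 4) ^ 2) (z := 100 / 197 * (b - 5 / 4)) (δ := δ) (η := 1 / 10000)
          le_rfl (by positivity) (by positivity) hδ0.le (by nlinarith)
        refine le_trans (max_le_max le_rfl (by linarith)) (h4.trans (le_of_eq ?_))
        congr 2
        ring
      · have h4 := max_shift (x := 200 / 591 * (b - 5 / 4))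
          (y := (5 / 4) ^ 2) (z := 200 / 591 * (b - 5 / 4)) (δ := δ) (η := 1 / 10000)
          le_rfl (by positivity) (by positivity) hδ0.le (by nlinarith)
        refine h4.trans (le_of_eq ?_)
        congr 2
        ring
    obtain ⟨T1, T2, T3, hH, q1, q1', q2, q2', q3⟩ := hH
    have hcore := n4_core ha ha5 hat (hat.trans htb) hbt h0 hNb hH q1 q1' q2 q2' q3
    -- conclusion
    have hfin : (2 * ∑ m ∈ Finset.range N, (nm w b (phi N m * a) + nF (phi N m * a) b)) * δ ≤
        (N * (5 * t - 1 / 20)) * δ := by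
      have e1 : (2 * ∑ m ∈ Finset.range N, (nm w b (phi N m * a) + nF (phi N m * a) b)) * δ =
          2 * ((∑ m ∈ Finset.range N, nm w b (phi N m * a)) * δ + S) := by
        rw [Finset.sum_add_distrib, hS]
        ring
      have e2 : (N * (5 * t - 1 / 20)) * δ = 2 * (3 / 10 * a * (5 * t - 1 / 20)) := by
        calc (N * (5 * t - 1 / 20)) * δ = (N : ℝ) * δ * (5 * t - 1 / 20) := by ring
          _ = _ := by rw [hNδ]; ring
      rw [e1, e2]
      linarith
    exact le_of_mul_le_mul_right hfin hδ0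

end

end Pool.Agent.LibMoserT
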