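import Pool.Agent.LibMoserT.Wait
import Pool.Agent.LibMoserT.ClsP
set_option autoImplicit false
/-!
# Serving the rows of a frame
-/
namespace Pool.Agent.LibMoserT
open Pool.Agent.LibMoser5 Pool.Agent.LibMoserF Classical

noncomputable section

variable {D : TD} {OL : ℕ → List (ℝ × ℝ)}

/-- potential of window `j` -/
def Phi (q : ℝ) (j : ℕ) (R O G J : List (ℝ × ℝ)) : ℝ :=
  P q j R + PC q j (O ++ (G ++ J)) + 6 * msum J

theorem msum_append (L L' : List (ℝ × ℝ)) : msum (L ++ L') = msum L + msum L' := by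
  simp [msum]

theorem msum_perm {L L' : List (ℝ × ℝ)} (h : L.Perm L') : msum L = msum L' := (h.map _).sum_eq

theorem msum_nonneg {L : List (ℝ × ℝ)} (h : ∀ x ∈ L, 0 < x.1 ∧ 6 / 5 * x.1 ≤ x.2) : 0 ≤ msum L := by
  unfold msum
  apply List.sum_nonneg
  intro a ha
  obtain ⟨x, hx, rfl⟩ := List.mem_map.1 ha
  obtain ⟨h1, h2⟩ := h x hx
  unfold ms
  linarith

theorem PC_nonneg {q : ℝ} (hq : 0 < q) {j : ℕ} (L : List (ℝ × ℝ)) : 0 ≤ PC q j L := by
  unfold PC
  apply List.sum_nonneg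
  intro a ha
  obtain ⟨x, hx, rfl⟩ := List.mem_map.1 ha
  exact potC_nonneg (th_pos hq (Nat.succ_pos j)).le

theorem P_nonneg {q : ℝ} (hq : 0 < q) {j : ℕ} (hj : 1 ≤ j) {L : List (ℝ × ℝ)}
    (h : ∀ x ∈ L, 0 < x.1 ∧ 6 / 5 * x.1 ≤ x.2) : 0 ≤ P q j L := by
  unfold P
  apply List.sum_nonneg
  intro a ha
  obtain ⟨x, hx, rfl⟩ := List.mem_map.1 ha
  obtain ⟨h1, h2⟩ := h x hx
  exact pot_nonneg (th_pos hq (Nat.succ_pos j)) (th_lt hq hj (Nat.lt_succ_self j)) h1.le h2

theorem P_flat {α : Type} (q : ℝ) (j : ℕ) (l : List α) (f : α → List (ℝ × ℝ)) :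
    P q j (l.flatMap f) = (l.map (fun z => P q j (f z))).sum := by
  induction l with
  | nil => rfl
  | cons a l ih => rw [List.flatMap_cons, P_append, ih, List.map_cons, List.sum_cons]

theorem PC_flat {α : Type} (q : ℝ) (j : ℕ) (l : List α) (f : α → List (ℝ × ℝ)) :
    PC q j (l.flatMap f) = (l.map (fun z => PC q j (f z))).sum := by
  induction l with
  | nil => rfl
  | cons a l ih => rw [List.flatMap_cons, PC_append, ih, List.map_cons, List.sum_cons]

theorem cost_le {q : ℝ} (hq : 0 < q) {j : ℕ} (hj : 1 ≤ j) (z : Src) {L : List (ℝ × ℝ)}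
    (h : ∀ x ∈ L, th q j < x.1) : (L.map (cost q j z)).sum ≤ PC q j L := by
  unfold PC
  apply List.sum_le_sum
  intro x hx
  unfold cost
  split_ifs
  · exact pot_le_potC (th_pos hq (Nat.succ_pos j)).le (th_lt hq hj (Nat.lt_succ_self j)).le (h x hx)
  · exact le_rfl

theorem cost_R {q A : ℝ} (hq : 0 < q) {j k : ℕ} (hk : 8172 ≤ k) {L : List (ℝ × ℝ)} :
    (L.map (cost q j (srcR q A k))).sum = P q j L := by
  unfold P
  congr 1
  apply List.map_congr_left
  intro x hx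
  unfold cost
  rw [if_pos]
  show 197 / 200 * th q k ≤ th q (kpR k + 16)
  have hK : kpR k + 16 ≤ k + 36 := by unfold kpR; omega
  have h1 : th q (k + 36) ≤ th q (kpR k + 16) := th_anti hq (by unfold kpR; omega) hK
  have h2 : 197 / 200 * th q k ≤ th q (k + 36) := by
    unfold th
    push_cast
    have h3 : (8172 : ℝ) ≤ k := by exact_mod_cast hk
    have h4 : (0 : ℝ) < k := by linarith
    rw [mul_div_assoc', div_le_div_iff₀ (by positivity) (by positivity)]
    have h5 : 197 / 200 * ((k : ℝ) + 36) ^ 3 ≤ (k : ℝ) ^ 3 := by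
      have h6 : (k : ℝ) + 36 ≤ 8208 / 8172 * k := by linarith
      have h7 : ((k : ℝ) + 36) ^ 3 ≤ (8208 / 8172 * (k : ℝ)) ^ 3 :=
        pow_le_pow_left₀ (by linarith) h6 3
      rw [mul_pow] at h7
      have h8 : (0 : ℝ) < (k : ℝ) ^ 3 := by positivity
      norm_num at h7
      nlinarith
    nlinarith
  linarith

/-- served rows and the others, class by class, with the cost of the end pieces -/
theorem split3c {D : TD} (h1 : D.Ok1) {g : ℕ} {R G : List (ℝ × ℝ)} (h : D.Wt g R G) :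
    ∃ R1 G1 : List (ℝ × ℝ),
      R.Perm (R1 ++ lowL (th D.q (D.fl (g + 1) - 20)) R) ∧
      G.Perm (G1 ++ lowL (th D.q (D.fl (g + 1) - 36)) G) ∧
      ((D.sv g R G OL).flatMap Prod.snd).Perm (R1 ++ ((D.wO g).flatMap OL ++ G1)) ∧
      ∀ j, D.fl (g + 1) - 20 ≤ j →
        (∀ x ∈ (D.sv g R G OL).flatMap Prod.snd, th D.q j < x.1) →
        ((D.sv g R G OL).map (fun z => (z.2.map (cost D.q j z.1)).sum)).sum ≤
          P D.q j R1 + PC D.q j ((D.wO g).flatMap OL) + PC D.q j G1 := by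
  have hq : 0 < D.q := TD.q_pos h1
  have hfl := TD.fl_ge h1 g
  have hfl1 := TD.fl_lt h1 g
  obtain ⟨R1, G1, a1, a2, a3, a4, a5⟩ := TD.split3 (OL := OL) h1 h
  refine ⟨R1, G1, a1, a2, a5, ?_⟩
  intro j hj hx
  have hj1 : 1 ≤ j := by omega
  have hx' : ∀ x ∈ R1 ++ ((D.wO g).flatMap OL ++ G1), th D.q j < x.1 :=
    fun x hx'' => hx x (a5.symm.subset hx'')
  have hO : (((D.wO g).map (fun c => (D.srcO c, OL c))).map
      (fun z => (z.2.map (cost D.q j z.1)).sum)).sum ≤ PC D.q j ((D.wO g).flatMap OL) := by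
    rw [PC_flat, List.map_map]
    apply List.sum_le_sum
    intro c hc
    exact cost_le hq hj1 _ (fun x hx'' => hx' x (List.mem_append_right _
      (List.mem_append_left _ (List.mem_flatMap.2 ⟨c, hc, hx''⟩))))
  unfold TD.sv
  by_cases hg : g = 0
  · rw [if_pos hg] at a3 a4 ⊢
    rw [List.nil_append, a3, a4]
    have e1 : P D.q j [] = 0 := rfl
    have e2 : PC D.q j [] = 0 := rfl
    rw [e1, e2]
    linarith
  · rw [if_neg hg] at a3 a4 ⊢
    rw [List.map_append, List.sum_append, List.map_append, List.sum_append]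
    have h3 : (((D.wG g).map (fun i => (srcG D.q (D.MG g i) (D.ug g) i,
        cutL (th D.q (D.ug g * (i + 1) - 36)) (th D.q (D.ug g * i - 36)) G))).map
        (fun z => (z.2.map (cost D.q j z.1)).sum)).sum ≤ PC D.q j G1 := by
      rw [a4, PC_flat, List.map_map]
      apply List.sum_le_sum
      intro c hc
      exact cost_le hq hj1 _ (fun x hx'' => hx' x (List.mem_append_right _
        (List.mem_append_right _ (by rw [a4]; exact List.mem_flatMap.2 ⟨c, hc, hx''⟩))))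
    have h4 : (((D.wR g).map (fun k => (srcR D.q (D.A k) k,
        cutL (th D.q (k + 1)) (th D.q k) R))).map
        (fun z => (z.2.map (cost D.q j z.1)).sum)).sum = P D.q j R1 := by
      rw [a3, P_flat, List.map_map]
      congr 1
      apply List.map_congr_left
      intro k hk
      rw [mem_wR] at hk
      exact cost_R hq (by omega)
    linarith

/-! ### frames -/

theorem TD.fl_m {g g' : ℕ} (h : g ≤ g') : D.fl g ≤ D.fl g' := LibMoserT.fl_mono h

theorem TD.Frm_sd (h1 : D.Ok1) {g n : ℕ} (hn : n ∈ D.Frm g) : D.σm g < sd n ∧ sd n ≤ D.s0 g := by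
  have hq : 0 < D.q := TD.q_pos h1
  have hfl := TD.fl_ge h1 g
  have hfl1 := TD.fl_lt h1 g
  unfold TD.Frm at hn
  rw [Finset.mem_Ico] at hn
  have h2 : D.bg (g + 1) = ix D.q (D.fl (g + 1)) := by
    unfold TD.bg
    rw [if_neg (Nat.succ_ne_zero g)]
  have h3 : ix D.q (D.fl g) ≤ D.bg g := by
    unfold TD.bg
    split_ifs with hg
    · rw [hg]; exact h1.n1
    · exact le_rfl
  constructor
  · unfold TD.σm
    rw [← not_le, ← ix_le_iff hq (by omega)]
    omega
  · unfold TD.s0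
    rw [← ix_le_iff hq (by omega)]
    omega

theorem th_ratio_fl {q : ℝ} (hq : 0 < q) {l l1 : ℕ} (hl : 0 < l) (h : 32 * l1 ≤ 33 * l) (h0 : l ≤ l1) :
    th q l ≤ (33 / 32) ^ 3 * th q l1 := by
  unfold th
  have h1 : (0 : ℝ) < l := by exact_mod_cast hl
  have h2 : (l : ℝ) ≤ l1 := by exact_mod_cast h0
  have h3 : (32 : ℝ) * l1 ≤ 33 * l := by exact_mod_cast h
  have h4 : (0 : ℝ) < l1 := by linarith
  rw [mul_div_assoc', div_le_div_iff₀ (by positivity) (by positivity)]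
  have h5 : (l1 : ℝ) ^ 3 ≤ (33 / 32 * l) ^ 3 := pow_le_pow_left₀ h4.le (by linarith) 3
  rw [mul_pow] at h5
  nlinarith

/-- what is needed of a source of frame `g` -/
structure SrcFr (D : TD) (g : ℕ) (z : Src) : Prop where
  ok : z.Ok (D.Frm g)
  σ1 : D.σm g ≤ z.σ
  y1 : z.pmax - z.σ ≤ D.y0 g
  p1 : th D.q (D.fl (g + 1) - 20) ≤ z.pmin
  p2 : z.pmax ≤ th D.q (D.k0 g)
  p3 : 4 / 5 * z.pmax ≤ th D.q (D.fl (g + 1) - 20)

theorem TD.σ_ge (h1 : D.Ok1) (g : ℕ) : ∀ z ∈ D.srcs g, D.σm g ≤ z.σ := by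
  have hq : 0 < D.q := TD.q_pos h1
  have hfl := TD.fl_ge h1 g
  have hfl1 := TD.fl_lt h1 g
  have hd := TD.fl_d h1 g
  have hd1 := TD.fl_d h1 (g + 1)
  intro z hz
  unfold TD.srcs TD.srcs1 at hz
  rw [List.mem_append] at hz
  rcases hz with hz | hz
  · by_cases hg : g = 0
    · rw [if_pos hg] at hz
      simp at hz
    · rw [if_neg hg, List.mem_append] at hz
      rcases hz with hz | hz
      · obtain ⟨k, hk, rfl⟩ := List.mem_map.1 hz
        rw [mem_wR] at hk
        show th D.q (D.fl (g + 1)) ≤ th D.q (kpR k + 16)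
        unfold kpR
        exact th_anti hq (by omega) (by omega)
      · obtain ⟨k, hk, rfl⟩ := List.mem_map.1 hz
        have hk' := mem_wG' hk
        have h3 := TD.ug_lt h1 hk'.2
        have h4 := TD.ug_pos h1 g
        show th D.q (D.fl (g + 1)) ≤ th D.q (kG (D.ug g) k + 32)
        have h5 : D.ug g * (k + 1) = D.ug g * k + D.ug g := by ring
        unfold kG
        exact th_anti hq (by omega) (by omega)
  · obtain ⟨c, hc, rfl⟩ := List.mem_map.1 hz
    rw [mem_wO] at hc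
    have h2 := h1.fcm g
    have h3 := h1.oOk g c hc.1 (by omega)
    obtain ⟨n, hn⟩ := h3.ne
    have h4 : D.qb c - 1 ∈ (D.srcO c).Q := by
      have h5 : n ∈ Finset.Ico (D.qa c) (D.qb c) := hn
      show D.qb c - 1 ∈ Finset.Ico (D.qa c) (D.qb c)
      rw [Finset.mem_Ico] at h5 ⊢
      omega
    exact (TD.Frm_sd h1 (h3.sub h4)).1.le

theorem TD.p_min (h1 : D.Ok1) (g : ℕ) : ∀ z ∈ D.srcs g, th D.q (D.fl (g + 1) - 20) ≤ z.pmin := by
  have hq : 0 < D.q := TD.q_pos h1
  have hfl := TD.fl_ge h1 g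
  have hfl1 := TD.fl_lt h1 g
  intro z hz
  unfold TD.srcs TD.srcs1 at hz
  rw [List.mem_append] at hz
  rcases hz with hz | hz
  · by_cases hg : g = 0
    · rw [if_pos hg] at hz
      simp at hz
    · rw [if_neg hg, List.mem_append] at hz
      rcases hz with hz | hz
      · obtain ⟨k, hk, rfl⟩ := List.mem_map.1 hz
        rw [mem_wR] at hk
        show th D.q (D.fl (g + 1) - 20) ≤ th D.q (k + 1)
        exact th_anti hq (by omega) (by omega)
      · obtain ⟨k, hk, rfl⟩ := List.mem_map.1 hz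
        have hk' := mem_wG' hk
        have h3 := TD.ug_lt h1 hk'.2
        have h4 := TD.ug_ge h1 hk'.1
        have h5 : D.ug g * (k + 1) = D.ug g * k + D.ug g := by ring
        show th D.q (D.fl (g + 1) - 20) ≤ th D.q (D.ug g * (k + 1) - 36)
        exact th_anti hq (by omega) (by omega)
  · obtain ⟨c, hc, rfl⟩ := List.mem_map.1 hz
    rw [mem_wO] at hc
    have h2 := h1.fcm g
    exact h1.oth g c hc.1 (by omega)

theorem TD.srcs_fr (h1 : D.Ok1) (g : ℕ) : ∀ z ∈ D.srcs g, SrcFr D g z := by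
  have hq : 0 < D.q := TD.q_pos h1
  have hfl := TD.fl_ge h1 g
  have hfl1 := TD.fl_lt h1 g
  intro z hz
  have hok := TD.srcs_ok h1 g z hz
  have hthin := TD.srcs_thin h1 g z hz
  have hσ0 := hok.σ0
  have hσs : z.σ ≤ D.s0 g := by
    obtain ⟨n, hn⟩ := hok.ne
    exact (hok.Qs n hn).1.trans (TD.Frm_sd h1 (hok.sub hn)).2
  have hs0 : D.s0 g ≤ (33 / 32) ^ 3 * th D.q (D.fl (g + 1)) :=
    th_ratio_fl hq (by omega) (LibMoserT.fl_upper D.l0 g) (by omega)
  have hpos : 0 < th D.q (D.fl (g + 1)) := th_pos hq (by omega)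
  have hle : th D.q (D.fl (g + 1)) ≤ th D.q (D.fl (g + 1) - 20) := th_anti hq (by omega) (by omega)
  refine ⟨hok, TD.σ_ge h1 g z hz, ?_, TD.p_min h1 g z hz, ?_, ?_⟩
  · unfold TD.y0
    nlinarith
  · unfold TD.k0
    split_ifs with hg
    · -- frame 0
      subst hg
      unfold TD.srcs TD.srcs1 at hz
      rw [if_pos rfl, List.nil_append] at hz
      obtain ⟨c, hc, rfl⟩ := List.mem_map.1 hz
      rw [mem_wO] at hc
      have h2 := h1.fcm 0
      have h3 := h1.fcn (0 + 1)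
      show D.pmx c ≤ _
      exact h1.ok0 c (by
        have e : (0 + 1 : ℕ) = 1 := rfl
        rw [e] at hc h2
        omega)
    · obtain ⟨g', rfl⟩ : ∃ g', g = g' + 1 := ⟨g - 1, by omega⟩
      have e : g' + 1 - 1 = g' := by omega
      rw [e]
      have h2 := TD.fl_ge h1 g'
      have h3 := TD.fl_lt h1 g'
      -- (37/36) th (fl (g'+1)) ≤ th (fl g' - 64)
      have h4 : (1 + 1 / 36) * D.s0 (g' + 1) ≤ th D.q (D.fl g' - 64) := by
        unfold TD.s0 th
        have h5 : 37 * D.fl g' ≤ 36 * D.fl (g' + 1) := LibMoserT.fl_lower h1.l1 g'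
        have h6 : (37 : ℝ) * D.fl g' ≤ 36 * D.fl (g' + 1) := by exact_mod_cast h5
        have h7 : (0 : ℝ) < ((D.fl g' - 64 : ℕ) : ℝ) := by
          have : 0 < D.fl g' - 64 := by omega
          exact_mod_cast this
        have h8 : ((D.fl g' - 64 : ℕ) : ℝ) ≤ D.fl g' := by
          have : D.fl g' - 64 ≤ D.fl g' := by omega
          exact_mod_cast this
        rw [mul_div_assoc', div_le_div_iff₀ (by positivity) (by positivity)]
        have h9 : (1 + 1 / 36) * ((D.fl g' - 64 : ℕ) : ℝ) ≤ D.fl (g' + 1) := by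
          linarith
        have h10 : ((1 + 1 / 36) * ((D.fl g' - 64 : ℕ) : ℝ)) ^ 3 ≤ (D.fl (g' + 1) : ℝ) ^ 3 :=
          pow_le_pow_left₀ (by positivity) h9 3
        have h11 : (1 + 1 / 36) * ((D.fl g' - 64 : ℕ) : ℝ) ^ 3 ≤
            ((1 + 1 / 36) * ((D.fl g' - 64 : ℕ) : ℝ)) ^ 3 := by
          rw [mul_pow]
          apply mul_le_mul_of_nonneg_right _ (by positivity)
          norm_num
        nlinarith
      nlinarith
  · nlinarith

/-- the source of class J -/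
theorem TD.srcJ_fr (h1 : D.Ok1) {g : ℕ} (hg : g ≠ 0) {M : ℝ} (hM : 0 ≤ M) :
    SrcFr D g (srcJ D.q M (D.fl (g - 1)) (D.fl g) (D.fl (g + 1))) := by
  have hq : 0 < D.q := TD.q_pos h1
  obtain ⟨g', rfl⟩ : ∃ g', g = g' + 1 := ⟨g - 1, by omega⟩
  have e : g' + 1 - 1 = g' := by omega
  rw [e]
  have h2 := TD.fl_ge h1 g'
  have h3 := TD.fl_lt h1 g'
  have h4 := TD.fl_lt h1 (g' + 1)
  have h5 : 37 * D.fl g' ≤ 36 * D.fl (g' + 1) := LibMoserT.fl_lower h1.l1 g'
  have h6 : 37 * D.fl (g' + 1) ≤ 36 * D.fl (g' + 1 + 1) := LibMoserT.fl_lower h1.l1 (g' + 1)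
  have h7 : 32 * D.fl (g' + 1) ≤ 33 * D.fl g' := LibMoserT.fl_upper D.l0 g'
  have h8 : 32 * D.fl (g' + 1 + 1) ≤ 33 * D.fl (g' + 1) := LibMoserT.fl_upper D.l0 (g' + 1)
  have hpos : 0 < th D.q (D.fl (g' + 1 + 1)) := th_pos hq (by omega)
  -- th (fl g' - 64) ≤ (5/4) th (fl (g'+2))
  have h9 : th D.q (D.fl g' - 64) ≤ 5 / 4 * th D.q (D.fl (g' + 1 + 1)) := by
    unfold th
    have a1 : (32 : ℝ) * D.fl (g' + 1) ≤ 33 * D.fl g' := by exact_mod_cast h7
    have a2 : (32 : ℝ) * D.fl (g' + 1 + 1) ≤ 33 * D.fl (g' + 1) := by exact_mod_cast h8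
    have a3 : (8192 : ℝ) ≤ D.fl g' := by exact_mod_cast h2
    have a4 : ((D.fl g' - 64 : ℕ) : ℝ) = (D.fl g' : ℝ) - 64 := by
      rw [Nat.cast_sub (by omega)]
      norm_num
    have a5 : (0 : ℝ) ≤ D.fl (g' + 1 + 1) := Nat.cast_nonneg _
    have a6 : (0 : ℝ) < D.fl (g' + 1 + 1) := by
      have : 0 < D.fl (g' + 1 + 1) := by omega
      exact_mod_cast this
    rw [a4]
    have a7 : (0 : ℝ) < (D.fl g' : ℝ) - 64 := by linarith
    rw [mul_div_assoc', div_le_div_iff₀ (by positivity) (by positivity)]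
    have a8 : (D.fl (g' + 1 + 1) : ℝ) ≤ 1.072 * ((D.fl g' : ℝ) - 64) := by
      have b1 : (D.fl (g' + 1 + 1) : ℝ) ≤ (33 / 32) * ((33 / 32) * D.fl g') := by linarith
      norm_num at b1 ⊢
      linarith
    have a9 : (D.fl (g' + 1 + 1) : ℝ) ^ 3 ≤ (1.072 * ((D.fl g' : ℝ) - 64)) ^ 3 :=
      pow_le_pow_left₀ a5 a8 3
    rw [mul_pow] at a9
    have a10 : (1.072 : ℝ) ^ 3 ≤ 5 / 4 := by norm_num
    have a11 : 0 < ((D.fl g' : ℝ) - 64) ^ 3 := by positivity
    have a12 : (D.fl (g' + 1 + 1) : ℝ) ^ 3 ≤ 5 / 4 * ((D.fl g' : ℝ) - 64) ^ 3 := by nlinarith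
    nlinarith
  have hle : th D.q (D.fl (g' + 1 + 1)) ≤ th D.q (D.fl (g' + 1 + 1) - 20) :=
    th_anti hq (by omega) (by omega)
  refine ⟨?_, le_rfl, ?_, ?_, ?_, ?_⟩
  · rw [TD.Frm_eq (Nat.succ_ne_zero g')]
    exact srcJ_ok (TD.q_ge h1) (TD.q_le h1) hM h2 h5 h6
  · show th D.q (D.fl g' - 64) - th D.q (D.fl (g' + 1 + 1)) ≤ th D.q (D.fl (g' + 1 + 1)) / 4
    linarith
  · show th D.q (D.fl (g' + 1 + 1) - 20) ≤ th D.q (D.fl (g' + 1) - 64)
    exact th_anti hq (by omega) (by omega)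
  · unfold TD.k0
    rw [if_neg (Nat.succ_ne_zero g'), e]
    exact le_rfl
  · show 4 / 5 * th D.q (D.fl g' - 64) ≤ th D.q (D.fl (g' + 1 + 1) - 20)
    linarith

theorem split_J {lo hi : ℝ} (J : List (ℝ × ℝ)) (hJ : ∀ x ∈ J, x.1 ≤ hi) :
    J.Perm (cutL lo hi J ++ lowL lo J) := by
  have h := List.filter_append_perm (fun x : ℝ × ℝ => decide (lo < x.1 ∧ x.1 ≤ hi)) J
  refine h.symm.trans ?_
  apply List.Perm.append_left
  unfold lowL
  have e : List.filter (fun x : ℝ × ℝ => !decide (lo < x.1 ∧ x.1 ≤ hi)) J =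
      List.filter (fun x : ℝ × ℝ => decide (x.1 ≤ lo)) J := by
    apply List.filter_congr
    intro x hx
    have h1 := hJ x hx
    by_cases h2 : x.1 ≤ lo
    · have h3 : ¬ (lo < x.1 ∧ x.1 ≤ hi) := fun h => absurd h.1 (not_lt.2 h2)
      simp [h2, h3]
    · have h3 : lo < x.1 ∧ x.1 ≤ hi := ⟨not_le.1 h2, h1⟩
      simp [h2, h3]
  rw [e]

/-- new rows of class R -/
def newR (C : List (ℕ × ℝ)) (E Rl : List (ℝ × ℝ)) : List (ℝ × ℝ) :=
  C.map (fun z => (z.2 - sd z.1, sd z.1)) ++ (E ++ Rl)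

theorem serve (h1 : D.Ok1) (hL : D.Ledger) (hO : D.OT OL) {W H : ℝ} {g : ℕ}
    {FL R G J : List (ℝ × ℝ)}
    {Pl : Finset ℕ} (hpt : PT W H (FL ++ (R ++ (D.Ow OL g ++ (G ++ J)))) Pl)
    (hPl : ∀ n ∈ Pl, n < D.bg g)
    (wt : D.Wt g R G)
    (Jt : ∀ x ∈ J, 0 < x.1 ∧ x.1 ≤ th D.q (D.fl (g - 1) - 64) ∧ 6 / 5 * x.1 ≤ x.2)
    (Jm : msum J ≤ D.JT) {β : Type} [Fintype β] (bl : ℕ → β) :
    ∃ (C : List (ℕ × ℝ)) (E : List (ℝ × ℝ)),
      PT W H (FL ++ (newR C E (lowL (th D.q (D.fl (g + 1) - 20)) R) ++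
        (D.Ow OL (g + 1) ++ (lowL (th D.q (D.fl (g + 1) - 36)) G ++
          lowL (th D.q (D.fl g - 64)) J)))) (Pl ∪ (C.map Prod.fst).toFinset) ∧
      (∀ c ∈ C, c.1 ∈ D.Frm g) ∧
      (∀ x ∈ newR C E (lowL (th D.q (D.fl (g + 1) - 20)) R),
        0 < x.1 ∧ x.1 ≤ th D.q (D.fl (g + 1) - 20) ∧ 5 / 4 * x.1 ≤ x.2) ∧
      (∀ b, D.sm g * (((D.Frm g).filter (fun n => bl n = b)).card : ℝ) - 2 ≤
        (((D.Frm g).filter (fun n => n ∉ (C.map Prod.fst) ∧ bl n = b)).card : ℝ)) ∧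
      (∀ j, D.fl (g + 1) - 20 ≤ j →
        Phi D.q j (newR C E (lowL (th D.q (D.fl (g + 1) - 20)) R)) (D.Ow OL (g + 1))
          (lowL (th D.q (D.fl (g + 1) - 36)) G) (lowL (th D.q (D.fl g - 64)) J) ≤
        Phi D.q j R (D.Ow OL g) G J + D.inc1 g j) := by
  have hq : 0 < D.q := TD.q_pos h1
  have hfl := TD.fl_ge h1 g
  have hflm := TD.fl_ge h1 (g - 1)
  have hfl1 := TD.fl_lt h1 g
  have hmon : D.fl (g - 1) ≤ D.fl g := TD.fl_m (by omega)
  obtain ⟨R1, G1, a1, a3, a4, a6⟩ := split3c (OL := OL) h1 wt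
  obtain ⟨O1, hO1⟩ : ∃ O1, O1 = (D.wO g).flatMap OL := ⟨_, rfl⟩
  rw [← hO1] at a4
  simp only [← hO1] at a6
  have a2 : (D.Ow OL g).Perm (O1 ++ D.Ow OL (g + 1)) := by
    rw [TD.Ow_succ h1 g, hO1]
  have hlo : th D.q (D.fl g - 64) ≤ th D.q (D.fl (g - 1) - 64) := th_anti hq (by omega) (by omega)
  obtain ⟨J1, hJ1⟩ : ∃ J1, J1 = cutL (th D.q (D.fl g - 64)) (th D.q (D.fl (g - 1) - 64)) J := ⟨_, rfl⟩
  have a5 : J.Perm (J1 ++ lowL (th D.q (D.fl g - 64)) J) := by
    rw [hJ1]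
    exact split_J J (fun x hx => (Jt x hx).2.1)
  have hJ1t : ∀ x ∈ J1, th D.q (D.fl g - 64) < x.1 ∧ x.1 ≤ th D.q (D.fl (g - 1) - 64) ∧
      6 / 5 * x.1 ≤ x.2 ∧ 0 < x.1 := by
    intro x hx
    rw [hJ1, mem_cutL] at hx
    exact ⟨hx.2.1, hx.2.2, (Jt x hx.1).2.2, (Jt x hx.1).1⟩
  have hJ1m0 : 0 ≤ msum J1 := msum_nonneg (fun x hx => ⟨(hJ1t x hx).2.2.2, (hJ1t x hx).2.2.1⟩)
  have hJlm0 : 0 ≤ msum (lowL (th D.q (D.fl g - 64)) J) := msum_nonneg (fun x hx => by
    rw [mem_lowL] at hx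
    exact ⟨(Jt x hx.1).1, (Jt x hx.1).2.2⟩)
  have hJsum : msum J = msum J1 + msum (lowL (th D.q (D.fl g - 64)) J) := by
    rw [← msum_append]
    exact msum_perm a5
  have hJ0 : g = 0 → J1 = [] := by
    intro hg
    subst hg
    apply List.eq_nil_iff_forall_not_mem.2
    intro x hx
    have h2 := hJ1t x hx
    have e : D.fl (0 - 1) = D.fl 0 := rfl
    rw [e] at h2
    linarith [h2.1, h2.2.1]
  -- sources with J
  obtain ⟨sJ, hsJ⟩ : ∃ sJ : List (Src × List (ℝ × ℝ)), sJ = if g = 0 then [] else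
    [(srcJ D.q (msum J1) (D.fl (g - 1)) (D.fl g) (D.fl (g + 1)), J1)] := ⟨_, rfl⟩
  have hsJsnd : sJ.flatMap Prod.snd = J1 := by
    rw [hsJ]
    split_ifs with hg
    · rw [hJ0 hg]; rfl
    · simp
  have hsJmem : ∀ z ∈ sJ, SrcFr D g z.1 ∧ z.1.Rows z.2 ∧ g ≠ 0 ∧
      z = (srcJ D.q (msum J1) (D.fl (g - 1)) (D.fl g) (D.fl (g + 1)), J1) := by
    intro z hz
    rw [hsJ] at hz
    split_ifs at hz with hg
    · simp at hz
    · rw [List.mem_singleton] at hz
      subst hz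
      refine ⟨TD.srcJ_fr h1 hg hJ1m0, ⟨fun x hx => ?_, le_rfl⟩, hg, rfl⟩
      have := hJ1t x hx
      exact ⟨this.1, this.2.1, this.2.2.1⟩
  obtain ⟨sv, hsv⟩ : ∃ sv, sv = D.sv g R G OL ++ sJ := ⟨_, rfl⟩
  have hall : ∀ z ∈ sv, SrcFr D g z.1 ∧ z.1.Rows z.2 := by
    intro z hz
    rw [hsv, List.mem_append] at hz
    rcases hz with hz | hz
    · refine ⟨?_, (TD.sv_rows h1 hO wt z hz).2⟩
      apply TD.srcs_fr h1 g
      rw [← TD.sv_fst (OL := OL) g R G]
      exact List.mem_map.2 ⟨z, hz, rfl⟩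
    · exact ⟨(hsJmem z hz).1, (hsJmem z hz).2.1⟩
  have hsnd : sv.flatMap Prod.snd = (D.sv g R G OL).flatMap Prod.snd ++ J1 := by
    rw [hsv, List.flatMap_append, hsJsnd]
  have hloadJ : ∀ n, (sJ.map (fun z => if n ∈ z.1.Q then z.1.u else 0)).sum ≤ 13 * D.JT := by
    intro n
    rw [hsJ]
    have hJT : 0 ≤ D.JT := by linarith
    split_ifs with hg
    · simp only [List.map_nil, List.sum_nil]
      linarith
    · simp only [List.map_cons, List.map_nil, List.sum_cons, List.sum_nil, add_zero]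
      split_ifs
      · have h5 : 37 * D.fl g ≤ 36 * D.fl (g + 1) := LibMoserT.fl_lower h1.l1 g
        have h6 := srcJ_u (M := msum J1) (TD.q_ge h1) (TD.q_le h1) hJ1m0 hflm hmon h5
        refine h6.trans ?_
        linarith
      · linarith
  have hload : ∀ n ∈ D.Frm g, (sv.map (fun z => if n ∈ z.1.Q then z.1.u else 0)).sum ≤
      1 - D.sm g := by
    intro n hn
    rw [hsv, List.map_append, List.sum_append]
    have h2 := hL.cap g n hn
    have h3 := hloadJ n
    have h4 : ((D.sv g R G OL).map (fun z => if n ∈ z.1.Q then z.1.u else 0)).sum = D.load g n := by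
      unfold TD.load
      rw [← TD.sv_fst (OL := OL) g R G, List.map_map]
      rfl
    rw [h4]
    linarith
  have hk0 : 4000 ≤ D.k0 g ∧ D.k0 g ≤ D.fl (g + 1) - 20 := by
    unfold TD.k0
    split_ifs with hg
    · refine ⟨h1.k0a, ?_⟩
      have := h1.k0b
      have e : D.fl 0 = D.l0 := rfl
      subst hg
      omega
    · omega
  have hσm0 : 0 < D.σm g := th_pos hq (by omega)
  have hs00 : 0 < D.s0 g := th_pos hq (by omega)
  have hy00 : 0 < D.y0 g := by
    unfold TD.y0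
    have : 0 < th D.q (D.fl (g + 1)) := th_pos hq (by omega)
    linarith
  have hPT0 : PT W H (sv.flatMap Prod.snd ++ (FL ++ (lowL (th D.q (D.fl (g + 1) - 20)) R ++
        (D.Ow OL (g + 1) ++ (lowL (th D.q (D.fl (g + 1) - 36)) G ++
          lowL (th D.q (D.fl g - 64)) J))))) Pl := by
    refine hpt.perm ?_
    rw [hsnd]
    refine List.Perm.trans ?_ ((a4.symm.append_right J1).append_right _)
    generalize lowL (th D.q (D.fl (g + 1) - 20)) R = R2 at a1 ⊢
    generalize D.Ow OL (g + 1) = O2 at a2 ⊢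
    generalize D.Ow OL g = O0 at a2 ⊢
    generalize lowL (th D.q (D.fl (g + 1) - 36)) G = G2 at a3 ⊢
    generalize lowL (th D.q (D.fl g - 64)) J = J2 at a5 ⊢
    have h3 : (FL ++ (R ++ (O0 ++ (G ++ J)))).Perm
        (FL ++ ((R1 ++ R2) ++ ((O1 ++ O2) ++ ((G1 ++ G2) ++ (J1 ++ J2))))) :=
      List.Perm.append_left _ (a1.append (a2.append (a3.append a5)))
    refine h3.trans ?_
    rw [List.perm_iff_count]
    intro a
    simp only [List.count_append]
    omega
  obtain ⟨C, E, c1, c2, c3, c4, c5, c6⟩ := frame_src hq Pl (D.Frm g) _ sv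
    (fun z hz => ⟨(hall z hz).1.ok, (hall z hz).2⟩) hPT0
    (by
      intro n hn hn'
      have h2 := hPl n hn'
      unfold TD.Frm at hn
      rw [Finset.mem_Ico] at hn
      omega)
    (fun n hn => (hload n hn).trans (by linarith [TD.sm0 h1 g])) hs00
    (fun n hn => (TD.Frm_sd h1 hn).2) hσm0 (fun z hz => (hall z hz).1.σ1) hk0.1 hk0.2
    (fun z hz => ⟨(hall z hz).1.p1, (hall z hz).1.p2⟩) bl
  have hpmin0 : ∀ z ∈ sv, 0 < z.1.pmin := by
    intro z hz
    have h2 := (hall z hz).1.p1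
    have h3 : 0 < th D.q (D.fl (g + 1) - 20) := th_pos hq (by omega)
    linarith
  refine ⟨C, E, ?_, ?_, ?_, ?_, ?_⟩
  · refine c1.perm ?_
    unfold newR
    rw [List.perm_iff_count]
    intro a
    simp only [List.count_append]
    omega
  · intro c hc
    obtain ⟨z, hz, h2, _⟩ := c3 c hc
    exact (hall z hz).1.ok.sub h2
  · intro x hx
    unfold newR at hx
    have hle : th D.q (D.fl (g + 1)) ≤ th D.q (D.fl (g + 1) - 20) := th_anti hq (by omega) (by omega)
    rw [List.mem_append, List.mem_append] at hx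
    rcases hx with hx | hx | hx
    · obtain ⟨c, hc, rfl⟩ := List.mem_map.1 hx
      obtain ⟨z, hz, h2, h3, h4⟩ := c3 c hc
      have h5 := (hall z hz).1
      have h6 := h5.ok.Qs c.1 h2
      have h7 := h5.ok.Sp
      have h8 := h5.y1
      have h9 := h5.σ1
      unfold TD.y0 at h8
      unfold TD.σm at h9
      have h10 : 0 < th D.q (D.fl (g + 1)) := th_pos hq (by omega)
      refine ⟨by linarith, ?_, ?_⟩
      · show c.2 - sd c.1 ≤ _
        linarith
      · show 5 / 4 * (c.2 - sd c.1) ≤ sd c.1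
        linarith
    · obtain ⟨z, hz, p, h3, h4, h5, h6, h7, h8⟩ := c4 x hx
      have h9 := (hall z hz).1.p3
      have h10 := hpmin0 z hz
      refine ⟨by linarith, by linarith, by linarith⟩
    · rw [mem_lowL] at hx
      exact ⟨(wt.Rt x hx.1).1, hx.2, (wt.Rt x hx.1).2.2⟩
  · intro b
    refine le_trans ?_ (c6 b)
    apply sub_le_sub_right
    have h2 : ∑ n ∈ (D.Frm g).filter (fun n => bl n = b), D.sm g ≤
        ∑ n ∈ (D.Frm g).filter (fun n => bl n = b),
          (1 - (sv.map (fun z => if n ∈ z.1.Q then z.1.u else 0)).sum) := by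
      apply Finset.sum_le_sum
      intro n hn
      have := hload n (Finset.mem_filter.1 hn).1
      linarith
    rw [Finset.sum_const, nsmul_eq_mul] at h2
    linarith
  · intro j hj
    have hj1 : 1 ≤ j := by omega
    have hthj : th D.q j ≤ th D.q (D.fl (g + 1) - 20) := th_anti hq (by omega) hj
    have hserved : ∀ x ∈ sv.flatMap Prod.snd, th D.q j < x.1 := by
      intro x hx
      rw [List.mem_flatMap] at hx
      obtain ⟨z, hz, hxz⟩ := hx
      have h2 := (hall z hz).2.1 x hxz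
      have h3 := (hall z hz).1.p1
      linarith [h2.1]
    have hJ1' : ∀ x ∈ J1, th D.q j < x.1 := fun x hx => hserved x (by
      rw [hsnd]; exact List.mem_append_right _ hx)
    have hcost : (sv.map (fun z => (z.2.map (cost D.q j z.1)).sum)).sum ≤
        P D.q j R1 + PC D.q j O1 + PC D.q j G1 + PC D.q j J1 := by
      rw [hsv, List.map_append, List.sum_append]
      have h2 := a6 j hj (fun x hx => hserved x (by rw [hsnd]; exact List.mem_append_left _ hx))
      have h3 : (sJ.map (fun z => (z.2.map (cost D.q j z.1)).sum)).sum ≤ PC D.q j J1 := by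
        rw [hsJ]
        split_ifs with hg
        · rw [hJ0 hg]
          exact le_rfl
        · simp only [List.map_cons, List.map_nil, List.sum_cons, List.sum_nil, add_zero]
          exact cost_le hq hj1 _ hJ1'
      linarith
    have hold : Phi D.q j R (D.Ow OL g) G J = (P D.q j R1 + P D.q j (lowL (th D.q (D.fl (g + 1) - 20)) R)) +
        ((PC D.q j O1 + PC D.q j (D.Ow OL (g + 1))) +
        ((PC D.q j G1 + PC D.q j (lowL (th D.q (D.fl (g + 1) - 36)) G)) +
        (PC D.q j J1 + PC D.q j (lowL (th D.q (D.fl g - 64)) J)))) +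
        6 * (msum J1 + msum (lowL (th D.q (D.fl g - 64)) J)) := by
      have b1 := P_perm (q := D.q) (j := j) a1
      have b2 := PC_perm (q := D.q) (j := j) a2
      have b3 := PC_perm (q := D.q) (j := j) a3
      have b4 := PC_perm (q := D.q) (j := j) a5
      rw [P_append] at b1
      rw [PC_append] at b2 b3 b4
      unfold Phi
      rw [PC_append, PC_append, b1, b2, b3, b4, hJsum]
    have hnew : Phi D.q j (newR C E (lowL (th D.q (D.fl (g + 1) - 20)) R))
          (D.Ow OL (g + 1))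
          (lowL (th D.q (D.fl (g + 1) - 36)) G) (lowL (th D.q (D.fl g - 64)) J) =
        P D.q j (C.map (fun z => (z.2 - sd z.1, sd z.1)) ++ E) +
        P D.q j (lowL (th D.q (D.fl (g + 1) - 20)) R) +
        (PC D.q j (D.Ow OL (g + 1)) +
        (PC D.q j (lowL (th D.q (D.fl (g + 1) - 36)) G) +
        (PC D.q j (lowL (th D.q (D.fl g - 64)) J)))) +
        6 * (msum (lowL (th D.q (D.fl g - 64)) J)) := by
      unfold Phi newR
      rw [PC_append, PC_append, ← List.append_assoc, P_append]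
    have h5 := c5 j hj
    -- sums over the sources
    have hsum : (sv.map (fun z => z.1.D D.q j (D.σm g) + z.1.B D.q j)).sum ≤
        ((D.srcs g).map (fun z => z.D D.q j (D.σm g) + z.B D.q j)).sum + 6 * msum J1 +
          43 * chC * D.y0 g := by
      rw [hsv, List.map_append, List.sum_append]
      have e1 : ((D.sv g R G OL).map (fun z => z.1.D D.q j (D.σm g) + z.1.B D.q j)).sum =
          ((D.srcs g).map (fun z => z.D D.q j (D.σm g) + z.B D.q j)).sum := by
        rw [← TD.sv_fst (OL := OL) g R G, List.map_map]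
        rfl
      rw [e1, add_assoc]
      apply add_le_add_right
      have hy1 : 0 ≤ 43 * chC * D.y0 g := mul_nonneg (by unfold chC; norm_num) hy00.le
      rw [hsJ]
      split_ifs with hg
      · simp only [List.map_nil, List.sum_nil]
        linarith
      · simp only [List.map_cons, List.map_nil, List.sum_cons, List.sum_nil, add_zero]
        obtain ⟨g', rfl⟩ : ∃ g', g = g' + 1 := ⟨g - 1, by omega⟩
        have h6 : 37 * D.fl g' ≤ 36 * D.fl (g' + 1) := LibMoserT.fl_lower h1.l1 g'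
        have h7 : 37 * D.fl (g' + 1) ≤ 36 * D.fl (g' + 1 + 1) := LibMoserT.fl_lower h1.l1 (g' + 1)
        have h8 : 32 * D.fl (g' + 1) ≤ 33 * D.fl g' := LibMoserT.fl_upper D.l0 g'
        have h9 : 32 * D.fl (g' + 1 + 1) ≤ 33 * D.fl (g' + 1) := LibMoserT.fl_upper D.l0 (g' + 1)
        exact srcJ_cost (TD.q_ge h1) (TD.q_le h1) hJ1m0 hflm h6 h8 h7 h9 (by omega)
    have hKE : (if ∃ z ∈ sv, z.1.reach D.q j then KE D.q j (D.s0 g) (D.σm g) else 0) ≤
        D.KEE g j := by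
      unfold TD.KEE
      have hKE0 : 0 ≤ KE D.q j (D.s0 g) (D.σm g) := by
        unfold KE
        have h6 : th D.q (j + 1) < th D.q j := th_lt hq hj1 (Nat.lt_succ_self j)
        have h7 : 0 < th D.q (j + 1) := th_pos hq (Nat.succ_pos j)
        have h8 : 0 < th D.q j - th D.q (j + 1) := by linarith
        have h9 : 0 < th D.q j := by linarith
        positivity
      by_cases hr : ∃ z ∈ sv, z.1.reach D.q j
      · rw [if_pos hr, if_pos]
        obtain ⟨z, hz, hr⟩ := hr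
        rw [hsv, List.mem_append] at hz
        rcases hz with hz | hz
        · left
          refine ⟨z.1, ?_, hr⟩
          rw [← TD.sv_fst (OL := OL) g R G]
          exact List.mem_map.2 ⟨z, hz, rfl⟩
        · right
          obtain ⟨_, _, h8, h9⟩ := hsJmem z hz
          rw [h9] at hr
          exact ⟨h8, hr⟩
      · rw [if_neg hr]
        split_ifs
        · exact hKE0
        · exact le_rfl
    rw [hold, hnew]
    unfold TD.inc1
    linarith

end

end Pool.Agent.LibMoserT
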