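import Pool.Agent.LibMoserT.Win
set_option autoImplicit false
/-!
# Frame with sources

A source = a set of rows with thickness in `(pmin, pmax]`, total mass at most `M`, all with the same
pool `Q` of squares.
-/
namespace Pool.Agent.LibMoserT
open Pool.Agent.LibMoser5 Pool.Agent.LibMoserF Classical

noncomputable section

structure Src where
  M : ℝ
  pmin : ℝ
  pmax : ℝ
  σ : ℝ
  S : ℝ
  Q : Finset ℕ

/-- load of the source on each square of its pool -/
def Src.u (z : Src) : ℝ := z.M / (z.σ * z.Q.card)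

structure Src.Ok (z : Src) (Fr : Finset ℕ) : Prop where
  M0 : 0 ≤ z.M
  σ0 : 0 < z.σ
  ne : z.Q.Nonempty
  sub : z.Q ⊆ Fr
  Qs : ∀ n ∈ z.Q, z.σ ≤ sd n ∧ sd n ≤ z.S
  Sp : z.S ≤ z.pmin
  pp : z.pmin < z.pmax

/-- the rows of the source -/
def Src.Rows (z : Src) (L : List (ℝ × ℝ)) : Prop :=
  (∀ x ∈ L, z.pmin < x.1 ∧ x.1 ≤ z.pmax ∧ 6 / 5 * x.1 ≤ x.2) ∧ (L.map ms).sum ≤ z.M

/-- the rows can have children in window `j` -/
def Src.reach (q : ℝ) (j : ℕ) (z : Src) : Prop :=
  th q (j + 1) < z.pmax - z.σ ∧ z.pmin - z.S < th q j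

/-- contribution of the source to the potential of window `j` -/
def Src.D (q : ℝ) (j : ℕ) (σm : ℝ) (z : Src) : ℝ :=
  if z.reach q j then
    z.u * ((th q (j + 1) / z.σ + z.S * (th q (j + 1) / (th q j - th q (j + 1)))) *
      (1 + 4 / 5 * (th q j / σm)))
  else 0

/-- bound for the total thickness of the children -/
def Src.T (z : Src) : ℝ := z.u * ∑ n ∈ z.Q, (z.pmax - sd n)

/-- births: bound for the potential of the children of the source which are thicker than window
`j` -/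
def Src.B (q : ℝ) (j : ℕ) (z : Src) : ℝ :=
  if th q (j + 1) < z.pmax - z.σ then chC * (z.T + 43 * (z.pmax - z.σ)) else 0

/-- rounding error of window `j` in a frame with sides in `[σm, s0]` -/
def KE (q : ℝ) (j : ℕ) (s0 σm : ℝ) : ℝ :=
  7 * s0 * (th q (j + 1) / (th q j - th q (j + 1))) * (1 + 4 / 5 * (th q j / σm))

theorem Src.u_nonneg {z : Src} {Fr : Finset ℕ} (h : z.Ok Fr) : 0 ≤ z.u :=
  div_nonneg h.M0 (mul_nonneg h.σ0.le (Nat.cast_nonneg _))

/-- children of a row in window `j` -/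
theorem sum_child {q : ℝ} (hq : 0 < q) {j : ℕ} (hj : 1 ≤ j) {z : Src} {Fr : Finset ℕ}
    (hz : z.Ok Fr) {p : ℝ} (hp : z.pmin < p) (hp' : p ≤ z.pmax) :
    ∑ n ∈ z.Q.filter (fun n => InWin q j (p - sd n)), sd n ≤
      if z.reach q j then (th q j - th q (j + 1)) / z.σ + z.S else 0 := by
  have hth : th q (j + 1) < th q j := th_lt hq hj (Nat.lt_succ_self j)
  rcases (z.Q.filter (fun n => InWin q j (p - sd n))).eq_empty_or_nonempty with h0 | hne
  · rw [h0, Finset.sum_empty]
    split_ifs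
    · obtain ⟨n, hn⟩ := hz.ne
      have := hz.Qs n hn
      have h1 : 0 ≤ (th q j - th q (j + 1)) / z.σ := div_nonneg (by linarith) hz.σ0.le
      linarith [hz.σ0]
    · exact le_rfl
  · obtain ⟨n0, hn0⟩ := hne
    rw [Finset.mem_filter] at hn0
    obtain ⟨hn0Q, hn1, hn2⟩ := hn0
    obtain ⟨hq1, hq2⟩ := hz.Qs n0 hn0Q
    have hr : z.reach q j := ⟨by linarith, by linarith⟩
    rw [if_pos hr]
    obtain ⟨α, hα⟩ : ∃ α, α = max z.σ (p - th q j) := ⟨_, rfl⟩
    obtain ⟨β, hβ⟩ : ∃ β, β = min z.S (p - th q (j + 1)) := ⟨_, rfl⟩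
    have hα0 : z.σ ≤ α := by rw [hα]; exact le_max_left _ _
    have hα1 : α ≤ sd n0 := by rw [hα]; exact max_le hq1 (by linarith)
    have hβ1 : sd n0 ≤ β := by rw [hβ]; exact le_min hq2 (by linarith)
    have hβS : β ≤ z.S := by rw [hβ]; exact min_le_left _ _
    have hβp : β ≤ p - th q (j + 1) := by rw [hβ]; exact min_le_right _ _
    have hαp : p - th q j ≤ α := by rw [hα]; exact le_max_right _ _
    have hα00 : 0 < α := lt_of_lt_of_le hz.σ0 hα0
    have h := sum_sd_Icc (z.Q.filter (fun n => InWin q j (p - sd n))) hα00 (hα1.trans hβ1)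
      (by
        intro n hn
        rw [Finset.mem_filter] at hn
        obtain ⟨hnQ, hw1, hw2⟩ := hn
        obtain ⟨hs1, hs2⟩ := hz.Qs n hnQ
        constructor
        · rw [hα]; exact max_le hs1 (by linarith)
        · rw [hβ]; exact le_min hs2 (by linarith))
    have h2 : (β - α) / α ≤ (th q j - th q (j + 1)) / z.σ := by
      apply div_le_div₀ (by linarith) (by linarith) hz.σ0 hα0
    linarith

/-- sum over the rows of a source of a quantity at most `c` per unit of load -/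
theorem sum_XX_le {z : Src} {Fr : Finset ℕ} (hz : z.Ok Fr) {L : List (ℝ × ℝ)} (hL : z.Rows L)
    (f : ℝ × ℝ → ℝ) {c : ℝ} (hc : 0 ≤ c) (hf : ∀ x ∈ L, f x ≤ c) (hf0 : ∀ x ∈ L, 0 ≤ f x) :
    (L.map (fun x => XX x z.σ / z.Q.card * f x)).sum ≤ z.u * c := by
  have hcard : (0 : ℝ) < z.Q.card := by exact_mod_cast hz.ne.card_pos
  have h1 : ∀ x ∈ L, XX x z.σ / z.Q.card * f x ≤ (c / (z.σ * z.Q.card)) * ms x := by
    intro x hx
    obtain ⟨hx1, hx2, hx3⟩ := hL.1 x hx
    obtain ⟨n, hn⟩ := hz.ne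
    have hσp : z.σ ≤ x.1 := by
      have := hz.Qs n hn
      have := hz.Sp
      linarith
    have h2 : XX x z.σ ≤ ms x / z.σ := by
      unfold XX ms
      rw [le_div_iff₀ hz.σ0, add_mul, div_mul_cancel₀ _ hz.σ0.ne']
      linarith
    have h3 : 0 ≤ XX x z.σ := by
      unfold XX
      have : 0 ≤ (x.2 - 6 / 5 * x.1) / z.σ := div_nonneg (by linarith) hz.σ0.le
      linarith
    have h4 : XX x z.σ / z.Q.card * f x ≤ (ms x / z.σ) / z.Q.card * c := by
      apply mul_le_mul _ (hf x hx) (hf0 x hx)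
      · exact div_nonneg (h3.trans h2) hcard.le
      · exact div_le_div_of_nonneg_right h2 hcard.le
    refine h4.trans (le_of_eq ?_)
    have := hz.σ0.ne'
    field_simp
  have h5 : (L.map (fun x => XX x z.σ / z.Q.card * f x)).sum ≤
      (L.map (fun x => (c / (z.σ * z.Q.card)) * ms x)).sum := List.sum_le_sum h1
  rw [List.sum_map_mul_left] at h5
  refine h5.trans ?_
  have h6 : 0 ≤ c / (z.σ * z.Q.card) := div_nonneg hc (mul_nonneg hz.σ0.le hcard.le)
  refine (mul_le_mul_of_nonneg_left hL.2 h6).trans (le_of_eq ?_)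
  unfold Src.u
  ring

end

end Pool.Agent.LibMoserT
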