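import Pool.Agent.LibMoserT.Cls
set_option autoImplicit false
/-!
# Waiting rows

`TD` = the numerical data of the tail.  `Wt D g R G` = the rows of the classes R, G waiting at
the start of frame `g`; `OL c` = the rows of cell `c` of class O.
-/
namespace Pool.Agent.LibMoserT
open Pool.Agent.LibMoser5 Pool.Agent.LibMoserF Classical

noncomputable section

variable (D : TD)

/-- part of a list between two thresholds -/
def cutL (lo hi : ℝ) (L : List (ℝ × ℝ)) : List (ℝ × ℝ) :=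
  L.filter (fun x => decide (lo < x.1 ∧ x.1 ≤ hi))

def msum (L : List (ℝ × ℝ)) : ℝ := (L.map ms).sum

/-- the rows served in frame `g` with their sources -/
def TD.sv (g : ℕ) (R G : List (ℝ × ℝ)) (OL : ℕ → List (ℝ × ℝ)) : List (Src × List (ℝ × ℝ)) :=
  (if g = 0 then [] else
    (D.wR g).map (fun k => (srcR D.q (D.A k) k, cutL (th D.q (k + 1)) (th D.q k) R)) ++
    (D.wG g).map (fun i => (srcG D.q (D.MG g i) (D.ug g) i,
      cutL (th D.q (D.ug g * (i + 1) - 36)) (th D.q (D.ug g * i - 36)) G))) ++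
  (D.wO g).map (fun c => (D.srcO c, OL c))

def lowL (t : ℝ) (L : List (ℝ × ℝ)) : List (ℝ × ℝ) := L.filter (fun x => decide (x.1 ≤ t))

/-- rows of class O waiting at the start of frame `g` -/
def TD.Ow (OL : ℕ → List (ℝ × ℝ)) (g : ℕ) : List (ℝ × ℝ) :=
  (List.range' (D.fc g) (D.nO - D.fc g)).flatMap OL

/-- the table of class O -/
structure TD.OT (OL : ℕ → List (ℝ × ℝ)) : Prop where
  t : ∀ c, c < D.nO → ∀ x ∈ OL c, D.pmn c < x.1 ∧ x.1 ≤ D.pmx c ∧ 6 / 5 * x.1 ≤ x.2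
  m : ∀ c, c < D.nO → msum (OL c) ≤ D.MO c

/-- waiting rows at the start of frame `g` -/
structure TD.Wt (g : ℕ) (R G : List (ℝ × ℝ)) : Prop where
  R0 : g = 0 → R = []
  G0 : g = 0 → G = []
  Rt : ∀ x ∈ R, 0 < x.1 ∧ x.1 ≤ th D.q (D.fl g - 20) ∧ 5 / 4 * x.1 ≤ x.2
  Rm : ∀ k, D.fl g - 20 ≤ k → msum (cutL (th D.q (k + 1)) (th D.q k) R) ≤ D.A k * om D.q k
  Gt : ∀ x ∈ G, 0 < x.1 ∧ x.1 ≤ th D.q (D.fl g - 36) ∧ 6 / 5 * x.1 ≤ x.2
  Gm : ∀ h, g ≤ h → 1 ≤ h → ∀ i, D.fl h / D.ug h ≤ i → i < D.fl (h + 1) / D.ug h →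
    msum (cutL (th D.q (D.ug h * (i + 1) - 36)) (th D.q (D.ug h * i - 36)) G) ≤ D.MG h i

variable {OL : ℕ → List (ℝ × ℝ)}

variable {D}

theorem TD.q_pos (h1 : D.Ok1) : 0 < D.q := by
  unfold TD.q
  exact_mod_cast h1.q1

theorem TD.q_ge (h1 : D.Ok1) : 1 ≤ D.q := by
  unfold TD.q
  exact_mod_cast h1.q1

theorem TD.q_le (h1 : D.Ok1) : D.q ≤ 8192 := by
  unfold TD.q
  exact_mod_cast h1.q2

theorem TD.sv_fst (g : ℕ) (R G : List (ℝ × ℝ)) : (D.sv g R G OL).map Prod.fst = D.srcs g := by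
  unfold TD.sv TD.srcs TD.srcs1
  split_ifs with h
  · simp [List.map_map, Function.comp_def]
  · simp [List.map_map, Function.comp_def]

theorem TD.fl_ge (h1 : D.Ok1) (g : ℕ) : 8192 ≤ D.fl g := LibMoserT.fl_ge h1.l1 g

theorem TD.fl_lt (h1 : D.Ok1) (g : ℕ) : D.fl g + 256 ≤ D.fl (g + 1) := by
  have h := TD.fl_ge h1 g
  show D.fl g + 256 ≤ D.fl g + 32 * (D.fl g / 1024)
  have : 8 ≤ D.fl g / 1024 := by
    rw [Nat.le_div_iff_mul_le (by norm_num)]
    omega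
  omega

theorem TD.fl_d (h1 : D.Ok1) (g : ℕ) : 32 ∣ D.fl g := LibMoserT.fl_dvd h1.l2 g

theorem TD.Frm_eq {g : ℕ} (hg : g ≠ 0) : D.Frm g = pool D.q (D.fl g) (D.fl (g + 1)) := by
  unfold TD.Frm TD.bg pool
  rw [if_neg hg, if_neg (Nat.succ_ne_zero g)]

theorem mem_wR {D : TD} {g k : ℕ} : k ∈ D.wR g ↔ D.fl g - 20 ≤ k ∧ k < D.fl g - 20 + (D.fl (g + 1) - D.fl g) := by
  unfold TD.wR
  rw [List.mem_range'_1]

theorem mem_wG {D : TD} {g i : ℕ} : i ∈ D.wG g ↔
    D.fl g / D.ug g ≤ i ∧ i < D.fl g / D.ug g + (D.fl (g + 1) / D.ug g - D.fl g / D.ug g) := by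
  unfold TD.wG
  rw [List.mem_range'_1]

theorem mem_wG' {D : TD} {g i : ℕ} (h : i ∈ D.wG g) :
    D.fl g / D.ug g ≤ i ∧ i < D.fl (g + 1) / D.ug g := by
  rw [mem_wG] at h
  have : D.fl g / D.ug g ≤ D.fl (g + 1) / D.ug g :=
    Nat.div_le_div_right (LibMoserT.fl_mono (Nat.le_succ g))
  omega

theorem mem_wO {D : TD} {g c : ℕ} : c ∈ D.wO g ↔
    D.fc g ≤ c ∧ c < D.fc g + (D.fc (g + 1) - D.fc g) := by
  unfold TD.wO
  rw [List.mem_range'_1]

theorem TD.srcR_ok' (h1 : D.Ok1) {g k : ℕ} (hg : g ≠ 0) (hk : k ∈ D.wR g) :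
    (srcR D.q (D.A k) k).Ok (D.Frm g) := by
  rw [TD.Frm_eq hg]
  rw [mem_wR] at hk
  have h2 := TD.fl_ge h1 g
  have h3 := TD.fl_lt h1 g
  exact srcR_ok (TD.q_ge h1) (TD.q_le h1) (h1.A0 k) h2 (TD.fl_d h1 g) (TD.fl_d h1 (g + 1)) hk.1
    (by omega)

theorem TD.srcG_ok' (h1 : D.Ok1) {g i : ℕ} (hg : g ≠ 0) (hk : i ∈ D.wG g) :
    (srcG D.q (D.MG g i) (D.ug g) i).Ok (D.Frm g) := by
  rw [TD.Frm_eq hg]
  have hk' := mem_wG' hk
  exact srcG_ok (TD.q_ge h1) (TD.q_le h1) (h1.MG0 g i) (TD.fl_ge h1 g) (TD.fl_d h1 g)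
    (TD.fl_d h1 (g + 1)) (h1.ug g) hk'.1 hk'.2

/-- the sources of a frame are fine -/
theorem TD.srcs_ok (h1 : D.Ok1) (g : ℕ) : ∀ z ∈ D.srcs g, z.Ok (D.Frm g) := by
  intro z hz
  unfold TD.srcs TD.srcs1 at hz
  rw [List.mem_append] at hz
  rcases hz with hz | hz
  · by_cases hg : g = 0
    · rw [if_pos hg] at hz
      simp at hz
    · rw [if_neg hg, List.mem_append] at hz
      rcases hz with hz | hz
      · obtain ⟨k, hk, rfl⟩ := List.mem_map.1 hz
        exact TD.srcR_ok' h1 hg hk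
      · obtain ⟨k, hk, rfl⟩ := List.mem_map.1 hz
        exact TD.srcG_ok' h1 hg hk
  · obtain ⟨c, hc, rfl⟩ := List.mem_map.1 hz
    rw [mem_wO] at hc
    have h2 := h1.fcm g
    exact h1.oOk g c hc.1 (by omega)

theorem mem_cutL {lo hi : ℝ} {L : List (ℝ × ℝ)} {x : ℝ × ℝ} :
    x ∈ cutL lo hi L ↔ x ∈ L ∧ lo < x.1 ∧ x.1 ≤ hi := by
  unfold cutL
  rw [List.mem_filter]
  simp

theorem mem_lowL {t : ℝ} {L : List (ℝ × ℝ)} {x : ℝ × ℝ} :
    x ∈ lowL t L ↔ x ∈ L ∧ x.1 ≤ t := by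
  unfold lowL
  rw [List.mem_filter]
  simp

/-- cutting a low part -/
theorem cutL_lowL {lo hi t : ℝ} (L : List (ℝ × ℝ)) (h : hi ≤ t) :
    cutL lo hi (lowL t L) = cutL lo hi L := by
  unfold cutL lowL
  rw [List.filter_filter]
  apply List.filter_congr
  intro x _
  simp only [← Bool.decide_and]
  apply decide_eq_decide.2
  constructor
  · rintro ⟨h1, h2⟩; exact h1
  · intro h1; exact ⟨h1, h1.2.trans h⟩

theorem TD.sv_rows (h1 : D.Ok1) (hO : D.OT OL) {g : ℕ} {R G : List (ℝ × ℝ)}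
    (h : D.Wt g R G) : ∀ z ∈ D.sv g R G OL, z.1.Ok (D.Frm g) ∧ z.1.Rows z.2 := by
  intro z hz
  refine ⟨?_, ?_⟩
  · apply TD.srcs_ok h1 g
    rw [← TD.sv_fst (OL := OL) g R G]
    exact List.mem_map.2 ⟨z, hz, rfl⟩
  · unfold TD.sv at hz
    rw [List.mem_append] at hz
    have hfl := TD.fl_ge h1 g
    rcases hz with hz | hz
    · by_cases hg : g = 0
      · rw [if_pos hg] at hz
        simp at hz
      · rw [if_neg hg, List.mem_append] at hz
        rcases hz with hz | hz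
        · obtain ⟨k, hk, rfl⟩ := List.mem_map.1 hz
          rw [mem_wR] at hk
          refine ⟨fun x hx => ?_, h.Rm k hk.1⟩
          rw [mem_cutL] at hx
          have h5 := h.Rt x hx.1
          exact ⟨hx.2.1, hx.2.2, by linarith⟩
        · obtain ⟨i, hi, rfl⟩ := List.mem_map.1 hz
          have hi' := mem_wG' hi
          refine ⟨fun x hx => ?_, h.Gm g le_rfl (by omega) i hi'.1 hi'.2⟩
          rw [mem_cutL] at hx
          exact ⟨hx.2.1, hx.2.2, (h.Gt x hx.1).2.2⟩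
    · obtain ⟨c, hc, rfl⟩ := List.mem_map.1 hz
      rw [mem_wO] at hc
      have h2 := h1.fcm g
      have h3 := h1.fcn (g + 1)
      exact ⟨hO.t c (by omega), hO.m c (by omega)⟩

/-- every cell is served in some frame -/
theorem TD.cell_frame (h1 : D.Ok1) {c : ℕ} (hc : c < D.nO) : ∃ g, D.fc g ≤ c ∧ c < D.fc (g + 1) := by
  obtain ⟨G, hG⟩ := h1.fce
  have hex : ∃ d, c < D.fc d := ⟨G, by omega⟩
  obtain ⟨d, hd, hmin⟩ : ∃ d, c < D.fc d ∧ ∀ e < d, ¬ c < D.fc e :=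
    ⟨Nat.find hex, Nat.find_spec hex, fun e he => Nat.find_min hex he⟩
  cases d with
  | zero =>
    exfalso
    have := h1.fc0
    omega
  | succ d => exact ⟨d, not_lt.1 (hmin d (Nat.lt_succ_self d)), hd⟩

theorem TD.pmn_pos (h1 : D.Ok1) {c : ℕ} (hc : c < D.nO) : 0 < D.pmn c := by
  obtain ⟨g, h2, h3⟩ := TD.cell_frame h1 hc
  have h4 := h1.oOk g c h2 h3
  obtain ⟨n, hn⟩ := h4.ne
  have h5 := h4.Qs n hn
  have h6 : (D.srcO c).S ≤ D.pmn c := h4.Sp
  linarith [h4.σ0]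

theorem TD.mem_Ow {g : ℕ} {x : ℝ × ℝ} (hx : x ∈ D.Ow OL g) :
    ∃ c, D.fc g ≤ c ∧ c < D.nO ∧ x ∈ OL c := by
  unfold TD.Ow at hx
  rw [List.mem_flatMap] at hx
  obtain ⟨c, hc, hx⟩ := hx
  rw [List.mem_range'_1] at hc
  exact ⟨c, hc.1, by omega, hx⟩

theorem TD.Ow_t (h1 : D.Ok1) (hO : D.OT OL) {g : ℕ} {x : ℝ × ℝ} (hx : x ∈ D.Ow OL g) :
    0 < x.1 ∧ 6 / 5 * x.1 ≤ x.2 := by
  obtain ⟨c, _, hc, hx⟩ := TD.mem_Ow hx
  have h2 := hO.t c hc x hx
  have h3 := TD.pmn_pos h1 hc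
  exact ⟨by linarith, h2.2.2⟩

theorem TD.Ow_succ (h1 : D.Ok1) (g : ℕ) :
    D.Ow OL g = (D.wO g).flatMap OL ++ D.Ow OL (g + 1) := by
  unfold TD.Ow TD.wO
  have h2 := h1.fcm g
  have h3 := h1.fcn (g + 1)
  rw [← List.flatMap_append]
  congr 1
  have e : D.nO - D.fc g = (D.fc (g + 1) - D.fc g) + (D.nO - D.fc (g + 1)) := by omega
  rw [e, ← List.range'_append_1]
  congr 2
  omega

theorem split_cut (t : ℕ → ℝ) {a n : ℕ}
    (ht : ∀ i, a ≤ i → i < a + n → t (i + 1) ≤ t i) (L : List (ℝ × ℝ)) (hL : ∀ x ∈ L, x.1 ≤ t a) :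
    L.Perm ((List.range' a n).flatMap (fun i => cutL (t (i + 1)) (t i) L) ++ lowL (t (a + n)) L) := by
  have h := split_thr t (Nat.le_add_right a n) ht L hL
  have e : a + n - a = n := by omega
  rw [e] at h
  exact h

theorem TD.ug_mul (h1 : D.Ok1) (g h : ℕ) : D.ug g * (D.fl h / D.ug g) = D.fl h :=
  Nat.mul_div_cancel' ((h1.ug g).trans (TD.fl_d h1 h))

theorem TD.ug_pos (h1 : D.Ok1) (g : ℕ) : 1 ≤ D.ug g := Nat.pos_of_dvd_of_pos (h1.ug g) (by norm_num)

theorem TD.ug_lt (h1 : D.Ok1) {g h i : ℕ} (hi : i < D.fl h / D.ug g) :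
    D.ug g * (i + 1) ≤ D.fl h := by
  have h2 := TD.ug_mul h1 g h
  have h3 : i + 1 ≤ D.fl h / D.ug g := hi
  calc D.ug g * (i + 1) ≤ D.ug g * (D.fl h / D.ug g) := Nat.mul_le_mul_left _ h3
    _ = D.fl h := h2

theorem TD.ug_ge (h1 : D.Ok1) {g h i : ℕ} (hi : D.fl h / D.ug g ≤ i) : D.fl h ≤ D.ug g * i := by
  have h2 := TD.ug_mul h1 g h
  calc D.fl h = D.ug g * (D.fl h / D.ug g) := h2.symm
    _ ≤ D.ug g * i := Nat.mul_le_mul_left _ hi

/-- served rows and the others, class by class -/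
theorem TD.split3 (h1 : D.Ok1) {g : ℕ} {R G : List (ℝ × ℝ)} (h : D.Wt g R G) :
    ∃ R1 G1 : List (ℝ × ℝ),
      R.Perm (R1 ++ lowL (th D.q (D.fl (g + 1) - 20)) R) ∧
      G.Perm (G1 ++ lowL (th D.q (D.fl (g + 1) - 36)) G) ∧
      (R1 = if g = 0 then [] else
        (D.wR g).flatMap (fun k => cutL (th D.q (k + 1)) (th D.q k) R)) ∧
      (G1 = if g = 0 then [] else (D.wG g).flatMap (fun i =>
        cutL (th D.q (D.ug g * (i + 1) - 36)) (th D.q (D.ug g * i - 36)) G)) ∧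
      ((D.sv g R G OL).flatMap Prod.snd).Perm (R1 ++ ((D.wO g).flatMap OL ++ G1)) := by
  have hq : 0 < D.q := TD.q_pos h1
  have hfl := TD.fl_ge h1 g
  have hfl1 := TD.fl_lt h1 g
  have hOm : (((D.wO g).map (fun c => (D.srcO c, OL c))).flatMap Prod.snd) =
      (D.wO g).flatMap OL := by
    rw [List.flatMap_map]
  by_cases hg : g = 0
  · have hR := h.R0 hg
    have hG := h.G0 hg
    refine ⟨[], [], ?_, ?_, by rw [if_pos hg], by rw [if_pos hg], ?_⟩
    · rw [hR]; simp [lowL]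
    · rw [hG]; simp [lowL]
    · unfold TD.sv
      rw [if_pos hg, List.nil_append, hOm]
      simp
  · have hR : R.Perm ((D.wR g).flatMap (fun k => cutL (th D.q (k + 1)) (th D.q k) R) ++
        lowL (th D.q (D.fl (g + 1) - 20)) R) := by
      have h2 := split_cut (th D.q) (a := D.fl g - 20) (n := D.fl (g + 1) - D.fl g)
        (fun i hi hi' => th_anti hq (by omega) (Nat.le_succ i)) R (fun x hx => (h.Rt x hx).2.1)
      have e : D.fl g - 20 + (D.fl (g + 1) - D.fl g) = D.fl (g + 1) - 20 := by omega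
      rw [e] at h2
      exact h2
    have hG : G.Perm ((D.wG g).flatMap (fun i => cutL (th D.q (D.ug g * (i + 1) - 36))
        (th D.q (D.ug g * i - 36)) G) ++ lowL (th D.q (D.fl (g + 1) - 36)) G) := by
      have e1 : D.ug g * (D.fl g / D.ug g) - 36 = D.fl g - 36 := by rw [TD.ug_mul h1 g g]
      have h2 := split_cut (fun i => th D.q (D.ug g * i - 36)) (a := D.fl g / D.ug g)
        (n := D.fl (g + 1) / D.ug g - D.fl g / D.ug g)
        (fun i hi hi' => by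
          have h3 := TD.ug_ge h1 hi
          have h4 : D.ug g * i ≤ D.ug g * (i + 1) := Nat.mul_le_mul_left _ (Nat.le_succ i)
          exact th_anti hq (by omega) (by omega)) G
        (fun x hx => by
          rw [e1]
          exact (h.Gt x hx).2.1)
      have hle : D.fl g / D.ug g ≤ D.fl (g + 1) / D.ug g :=
        Nat.div_le_div_right (LibMoserT.fl_mono (Nat.le_succ g))
      have e : D.ug g * (D.fl g / D.ug g + (D.fl (g + 1) / D.ug g - D.fl g / D.ug g)) - 36 =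
          D.fl (g + 1) - 36 := by
        rw [Nat.add_sub_cancel' hle, TD.ug_mul h1 g (g + 1)]
      beta_reduce at h2
      rw [e] at h2
      exact h2
    refine ⟨_, _, hR, hG, by rw [if_neg hg], by rw [if_neg hg], ?_⟩
    unfold TD.sv
    rw [if_neg hg, List.flatMap_append, List.flatMap_append, List.flatMap_map, List.flatMap_map, hOm]
    generalize (D.wR g).flatMap (fun k => cutL (th D.q (k + 1)) (th D.q k) R) = R1
    generalize (D.wG g).flatMap (fun i => cutL (th D.q (D.ug g * (i + 1) - 36))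
        (th D.q (D.ug g * i - 36)) G) = G1
    generalize (D.wO g).flatMap OL = O1
    rw [List.perm_iff_count]
    intro a
    simp only [List.count_append]
    omega

/-- served rows and the others -/
theorem TD.sv_perm (h1 : D.Ok1) {g : ℕ} {R G : List (ℝ × ℝ)} (h : D.Wt g R G) :
    (R ++ (D.Ow OL g ++ G)).Perm ((D.sv g R G OL).flatMap Prod.snd ++
      (lowL (th D.q (D.fl (g + 1) - 20)) R ++ (D.Ow OL (g + 1) ++
        lowL (th D.q (D.fl (g + 1) - 36)) G))) := by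
  obtain ⟨R1, G1, a1, a3, _, _, a4⟩ := TD.split3 (OL := OL) h1 h
  rw [TD.Ow_succ h1 g]
  generalize lowL (th D.q (D.fl (g + 1) - 20)) R = R2 at *
  generalize lowL (th D.q (D.fl (g + 1) - 36)) G = G2 at *
  generalize D.Ow OL (g + 1) = O2
  generalize (D.wO g).flatMap OL = O1 at *
  have h3 : (R ++ ((O1 ++ O2) ++ G)).Perm ((R1 ++ R2) ++ ((O1 ++ O2) ++ (G1 ++ G2))) :=
    a1.append ((List.Perm.refl _).append a3)
  refine h3.trans (List.Perm.trans ?_ (a4.symm.append_right _))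
  rw [List.perm_iff_count]
  intro a
  simp only [List.count_append]
  omega

theorem TD.Wt_low (h1 : D.Ok1) {g : ℕ} {R G : List (ℝ × ℝ)} (h : D.Wt g R G) :
    D.Wt (g + 1) (lowL (th D.q (D.fl (g + 1) - 20)) R)
      (lowL (th D.q (D.fl (g + 1) - 36)) G) := by
  have hq : 0 < D.q := TD.q_pos h1
  have hfl := TD.fl_ge h1 g
  have hfl1 := TD.fl_lt h1 g
  refine ⟨fun h0 => absurd h0 (Nat.succ_ne_zero g), fun h0 => absurd h0 (Nat.succ_ne_zero g),
    ?_, ?_, ?_, ?_⟩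
  · intro x hx
    rw [mem_lowL] at hx
    have := h.Rt x hx.1
    exact ⟨this.1, hx.2, this.2.2⟩
  · intro k hk
    rw [cutL_lowL _ (th_anti hq (by omega) hk)]
    exact h.Rm k (by omega)
  · intro x hx
    rw [mem_lowL] at hx
    have := h.Gt x hx.1
    exact ⟨this.1, hx.2, this.2.2⟩
  · intro h' hh hh' i hi hi'
    have h3 := TD.ug_ge h1 hi
    have h4 : D.fl (g + 1) ≤ D.fl h' := LibMoserT.fl_mono hh
    rw [cutL_lowL _ (th_anti hq (by omega) (by omega))]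
    exact h.Gm h' (by omega) hh' i hi hi'

theorem ar_append' (L L' : List (ℝ × ℝ)) : ar (L ++ L') = ar L + ar L' := by
  simp [ar]

theorem ar_flatMap {α : Type} (L : List α) (f : α → List (ℝ × ℝ)) :
    ar (L.flatMap f) = (L.map (fun z => ar (f z))).sum := by
  induction L with
  | nil => simp [ar]
  | cons a L ih => rw [List.flatMap_cons, ar_append', ih, List.map_cons, List.sum_cons]

/-- area of the rows of one source -/
theorem Src.area {z : Src} {Fr : Finset ℕ} (hz : z.Ok Fr) {L : List (ℝ × ℝ)} (hL : z.Rows L)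
    {δ : ℝ} (hδ : z.pmax ≤ (1 + δ) * z.σ) :
    ar L ≤ (1 + δ) * ∑ n ∈ z.Q, z.u * sd n ^ 2 := by
  have hcard : (0 : ℝ) < z.Q.card := by exact_mod_cast hz.ne.card_pos
  have hp0 : 0 < z.pmin := by
    obtain ⟨n, hn⟩ := hz.ne
    have := hz.Qs n hn
    have := hz.Sp
    have := hz.σ0
    linarith
  have h1 : ar L ≤ z.pmax * z.M := by
    have h2 : ar L ≤ (L.map (fun x => z.pmax * ms x)).sum := by
      unfold ar
      apply List.sum_le_sum
      intro x hx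
      obtain ⟨a1, a2, a3⟩ := hL.1 x hx
      have a4 : 0 < x.1 := by linarith
      have a5 : 0 < x.2 := by linarith
      unfold ms
      nlinarith
    rw [List.sum_map_mul_left] at h2
    refine h2.trans (mul_le_mul_of_nonneg_left hL.2 ?_)
    linarith [hz.pp]
  have h3 : z.M = z.u * (z.σ * z.Q.card) := by
    unfold Src.u
    rw [div_mul_cancel₀]
    exact (mul_pos hz.σ0 hcard).ne'
  have hu := Src.u_nonneg hz
  have h4 : z.pmax * z.M ≤ (1 + δ) * (z.u * (z.σ ^ 2 * z.Q.card)) := by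
    rw [h3]
    have h5 : 0 ≤ z.u * (z.σ * z.Q.card) := mul_nonneg hu (mul_pos hz.σ0 hcard).le
    have h6 := mul_le_mul_of_nonneg_right hδ h5
    refine h6.trans (le_of_eq ?_)
    ring
  have h7 : z.u * (z.σ ^ 2 * z.Q.card) ≤ ∑ n ∈ z.Q, z.u * sd n ^ 2 := by
    rw [← Finset.mul_sum]
    apply mul_le_mul_of_nonneg_left _ hu
    have : ∑ n ∈ z.Q, z.σ ^ 2 ≤ ∑ n ∈ z.Q, sd n ^ 2 := by
      apply Finset.sum_le_sum
      intro n hn
      exact pow_le_pow_left₀ hz.σ0.le (hz.Qs n hn).1 2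
    rw [Finset.sum_const, nsmul_eq_mul] at this
    linarith
  have h8 : 0 ≤ 1 + δ := by
    have : 0 < z.pmax := by linarith [hz.pp]
    by_contra hcon
    push Not at hcon
    nlinarith [hz.σ0]
  exact h1.trans (h4.trans (mul_le_mul_of_nonneg_left h7 h8))

theorem th_thin {q : ℝ} (hq : 0 < q) {k K : ℕ} (hk : 8000 ≤ k) (hK : K ≤ k + 68) (hkK : k ≤ K) :
    th q k ≤ (1 + 1 / 36) * th q K := by
  unfold th
  have h1 : (8000 : ℝ) ≤ k := by exact_mod_cast hk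
  have h2 : (K : ℝ) ≤ k + 68 := by exact_mod_cast hK
  have h3 : (k : ℝ) ≤ K := by exact_mod_cast hkK
  have hK0 : (0 : ℝ) < K := by linarith
  have hk0 : (0 : ℝ) < k := by linarith
  rw [mul_div_assoc', div_le_div_iff₀ (by positivity) (by positivity)]
  have h4 : (K : ℝ) ^ 3 ≤ ((k : ℝ) + 68) ^ 3 := pow_le_pow_left₀ hK0.le h2 3
  have h5 : ((k : ℝ) + 68) ^ 3 ≤ (1 + 1 / 36) * (k : ℝ) ^ 3 := by
    have e : ((k : ℝ) + 68) ^ 3 = (k : ℝ) ^ 3 + 204 * (k : ℝ) ^ 2 + 13872 * k + 314432 := by ring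
    rw [e]
    have h6 : (k : ℝ) ^ 3 = k * (k : ℝ) ^ 2 := by ring
    have h7 : 8000 * (k : ℝ) ^ 2 ≤ (k : ℝ) ^ 3 := by
      rw [h6]
      exact mul_le_mul_of_nonneg_right h1 (by positivity)
    nlinarith
  have h6 : (K : ℝ) ^ 3 ≤ (1 + 1 / 36) * (k : ℝ) ^ 3 := h4.trans h5
  nlinarith

theorem TD.srcs_thin (h1 : D.Ok1) (g : ℕ) : ∀ z ∈ D.srcs g, z.pmax ≤ (1 + 1 / 36) * z.σ := by
  have hq : 0 < D.q := TD.q_pos h1
  have hfl := TD.fl_ge h1 g
  intro z hz
  unfold TD.srcs TD.srcs1 at hz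
  rw [List.mem_append] at hz
  rcases hz with hz | hz
  · by_cases hg : g = 0
    · rw [if_pos hg] at hz
      simp at hz
    · rw [if_neg hg, List.mem_append] at hz
      rcases hz with hz | hz
      · obtain ⟨k, hk, rfl⟩ := List.mem_map.1 hz
        rw [mem_wR] at hk
        show th D.q k ≤ (1 + 1 / 36) * th D.q (kpR k + 16)
        unfold kpR
        exact th_thin hq (by omega) (by omega) (by omega)
      · obtain ⟨k, hk, rfl⟩ := List.mem_map.1 hz
        have hk' := mem_wG' hk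
        have h3 := TD.ug_ge h1 hk'.1
        show th D.q (D.ug g * k - 36) ≤ (1 + 1 / 36) * th D.q (kG (D.ug g) k + 32)
        unfold kG
        exact th_thin hq (by omega) (by omega) (by omega)
  · obtain ⟨c, hc, rfl⟩ := List.mem_map.1 hz
    rw [mem_wO] at hc
    have h2 := h1.fcm g
    have h3 := h1.fcn (g + 1)
    exact h1.ork c (by omega)

/-- area of the served rows -/
theorem TD.served_area (h1 : D.Ok1) (hO : D.OT OL) {g : ℕ} {δ : ℝ}
    (hδ : ∀ z ∈ D.srcs g, z.pmax ≤ (1 + δ) * z.σ) {R G : List (ℝ × ℝ)}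
    (h : D.Wt g R G) : ar ((D.sv g R G OL).flatMap Prod.snd) ≤
      (1 + δ) * ∑ n ∈ D.Frm g, D.load g n * sd n ^ 2 := by
  rw [ar_flatMap]
  have h2 : ((D.sv g R G OL).map (fun z => ar (Prod.snd z))).sum ≤
      ((D.sv g R G OL).map (fun z => (fun z : Src => (1 + δ) * ∑ n ∈ z.Q, z.u * sd n ^ 2) z.1)).sum := by
    apply List.sum_le_sum
    intro z hz
    obtain ⟨a1, a2⟩ := TD.sv_rows h1 hO h z hz
    apply Src.area a1 a2
    apply hδ
    rw [← TD.sv_fst (OL := OL) g R G]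
    exact List.mem_map.2 ⟨z, hz, rfl⟩
  refine h2.trans (le_of_eq ?_)
  have e : (D.sv g R G OL).map (fun z => (fun z : Src => (1 + δ) * ∑ n ∈ z.Q, z.u * sd n ^ 2) z.1) =
      (D.srcs g).map (fun z : Src => (1 + δ) * ∑ n ∈ z.Q, z.u * sd n ^ 2) := by
    rw [← TD.sv_fst (OL := OL) g R G, List.map_map]
    rfl
  rw [e, List.sum_map_mul_left]
  congr 1
  unfold TD.load
  have e2 : ∀ n ∈ D.Frm g, ((D.srcs g).map (fun z => if n ∈ z.Q then z.u else 0)).sum * sd n ^ 2 =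
      ((D.srcs g).map (fun z => if n ∈ z.Q then z.u * sd n ^ 2 else 0)).sum := by
    intro n _
    rw [← List.sum_map_mul_right]
    congr 1
    apply List.map_congr_left
    intro z _
    split_ifs
    · rfl
    · rw [zero_mul]
  rw [Finset.sum_congr rfl e2]
  have h3 : ∀ z ∈ D.srcs g, z.Q ⊆ D.Frm g := fun z hz => (TD.srcs_ok h1 g z hz).sub
  revert h3
  generalize D.srcs g = L
  intro h3
  induction L with
  | nil => simp
  | cons a L ih =>
    rw [List.map_cons, List.sum_cons, ih (fun z hz => h3 z (List.mem_cons_of_mem _ hz))]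
    simp only [List.map_cons, List.sum_cons]
    rw [Finset.sum_add_distrib]
    congr 1
    rw [← Finset.sum_filter, Finset.filter_mem_eq_inter,
      Finset.inter_eq_right.2 (h3 a List.mem_cons_self)]

theorem TD.bg_pos (h1 : D.Ok1) (g : ℕ) : 1 ≤ D.bg g := by
  have hq : 0 < D.q := TD.q_pos h1
  have h0 : 1 ≤ ix D.q D.l0 := by
    unfold ix
    rw [Nat.one_le_iff_ne_zero, ← Nat.pos_iff_ne_zero, Nat.ceil_pos]
    have h2 : (8192 : ℝ) ≤ D.l0 := by exact_mod_cast h1.l1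
    have h3 : (8192 : ℝ) ^ 3 ≤ (D.l0 : ℝ) ^ 3 := pow_le_pow_left₀ (by norm_num) h2 3
    have h4 : (1 : ℝ) ≤ (D.l0 : ℝ) ^ 3 / D.q := by
      rw [le_div_iff₀ hq]
      have := TD.q_le h1
      nlinarith
    linarith
  unfold TD.bg
  split_ifs with hg
  · exact h0.trans h1.n1
  · exact h0.trans (ix_mono hq (LibMoserT.fl_mono (Nat.zero_le g)))

theorem TD.bg_mono (h1 : D.Ok1) (g : ℕ) : D.bg g ≤ D.bg (g + 1) := by
  have hq : 0 < D.q := TD.q_pos h1
  unfold TD.bg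
  rw [if_neg (Nat.succ_ne_zero g)]
  split_ifs with hg
  · rw [hg]
    have h2 := h1.n2
    have h3 : 0 ≤ (D.F 0).w := by
      have h4 := (h1.Fok 0).s0
      unfold FatP.w
      have h5 : (0 : ℝ) ≤ (D.F 0).thr := Nat.cast_nonneg _
      have h6 : 0 ≤ (D.F 0).thr / ((D.F 0).s - 1 / 2048) := div_nonneg h5 (by linarith)
      linarith
    have h4 : (D.N1 : ℝ) ≤ (ix D.q (D.fl 1) : ℕ) := by linarith
    exact_mod_cast h4
  · exact ix_mono hq (LibMoserT.fl_mono (Nat.le_succ g))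

theorem ar_perm' {L L' : List (ℝ × ℝ)} (h : L.Perm L') : ar L = ar L' := (h.map _).sum_eq

theorem TD.bg_le (h1 : D.Ok1) (g d : ℕ) : D.bg g ≤ D.bg (g + d) := by
  induction d with
  | zero => exact le_rfl
  | succ d ih => exact ih.trans (TD.bg_mono h1 (g + d))

/-- the numbers `aB g` bound the area of the rows waiting at frame `g`; `δ g` = relative excess of
the thickness of the rows of frame `g` over the squares (`1/36` is always possible: `srcs_thin`) -/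
structure AreaB (D : TD) (aB δ : ℕ → ℝ) : Prop where
  nn : ∀ g, 0 ≤ aB g
  d0 : ∀ g, 0 ≤ δ g
  thin : ∀ g, ∀ z ∈ D.srcs g, z.pmax ≤ (1 + δ g) * z.σ
  st : ∀ g, (1 + δ g) * (1 - D.sm g) * (1 / (D.bg g : ℝ) - 1 / (D.bg (g + 1) : ℝ)) +
    aB (g + 1) ≤ aB g

theorem TD.sm1 (h1 : D.Ok1) (g : ℕ) : D.sm g ≤ 1 := h1.Fs1 g

theorem TD.sm0 (h1 : D.Ok1) (g : ℕ) : 0 ≤ D.sm g := by
  have := (h1.Fok g).s0
  show 0 ≤ (D.F g).s
  linarith

theorem TD.area_hor (h1 : D.Ok1) (hO : D.OT OL)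
    (hcap : ∀ g, ∀ n ∈ D.Frm g, D.load g n ≤ 1 - D.sm g)
    {aB δ : ℕ → ℝ} (hB : AreaB D aB δ) (d : ℕ) :
    ∀ {g : ℕ} {R G : List (ℝ × ℝ)}, D.Wt g R G →
      (∀ x ∈ R, th D.q (D.fl (g + d) - 20) < x.1) → D.fc (g + d) = D.nO →
      (∀ x ∈ G, th D.q (D.fl (g + d) - 36) < x.1) →
      ar (R ++ (D.Ow OL g ++ G)) ≤ aB g := by
  induction d with
  | zero =>
    intro g R G h hR hO' hG
    have e1 : R = [] := by
      apply List.eq_nil_iff_forall_not_mem.2
      intro x hx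
      exact absurd (hR x hx) (not_lt.2 (h.Rt x hx).2.1)
    have e2 : D.Ow OL g = [] := by
      unfold TD.Ow
      rw [Nat.add_zero] at hO'
      rw [hO', Nat.sub_self]
      rfl
    have e3 : G = [] := by
      apply List.eq_nil_iff_forall_not_mem.2
      intro x hx
      exact absurd (hG x hx) (not_lt.2 (h.Gt x hx).2.1)
    rw [e1, e2, e3]
    have e4 : ar (([] : List (ℝ × ℝ)) ++ ([] ++ [])) = 0 := by simp [ar]
    rw [e4]
    exact hB.nn g
  | succ d ih =>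
    intro g R G h hR hO' hG
    have e : g + (d + 1) = g + 1 + d := by omega
    rw [e] at hR hO' hG
    have h2 := ih (TD.Wt_low h1 h) (fun x hx => hR x (mem_lowL.1 hx).1) hO'
      (fun x hx => hG x (mem_lowL.1 hx).1)
    rw [ar_perm' (TD.sv_perm h1 h), ar_append']
    have h3 := TD.served_area h1 hO (hB.thin g) h
    have h4 : ∑ n ∈ D.Frm g, D.load g n * sd n ^ 2 ≤ (1 - D.sm g) * ∑ n ∈ D.Frm g, sd n ^ 2 := by
      rw [Finset.mul_sum]
      apply Finset.sum_le_sum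
      intro n hn
      exact mul_le_mul_of_nonneg_right (hcap g n hn) (by positivity)
    have h5 : ∑ n ∈ D.Frm g, sd n ^ 2 ≤ 1 / (D.bg g : ℝ) - 1 / (D.bg (g + 1) : ℝ) :=
      sum_sd_sq_le _ _ (TD.bg_pos h1 g) (TD.bg_mono h1 g)
    have h6 := mul_le_mul_of_nonneg_left h5 (by linarith [TD.sm1 h1 g] : (0 : ℝ) ≤ 1 - D.sm g)
    have h7 := mul_le_mul_of_nonneg_left (h4.trans h6) (by linarith [hB.d0 g] : (0 : ℝ) ≤ 1 + δ g)
    have h8 := hB.st g
    linarith

/-- **area of all waiting rows** -/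
theorem TD.area_rows (h1 : D.Ok1) (hO : D.OT OL)
    (hcap : ∀ g, ∀ n ∈ D.Frm g, D.load g n ≤ 1 - D.sm g) {aB δ : ℕ → ℝ} (hB : AreaB D aB δ)
    {g : ℕ} {R G : List (ℝ × ℝ)} (h : D.Wt g R G) : ar (R ++ (D.Ow OL g ++ G)) ≤ aB g := by
  have hq : 0 < D.q := TD.q_pos h1
  -- a positive lower bound for the thicknesses
  have hpos : ∀ L : List (ℝ × ℝ), (∀ x ∈ L, 0 < x.1) → ∃ m : ℕ, 1 ≤ m ∧ ∀ x ∈ L, th D.q m < x.1 := by
    intro L
    induction L with
    | nil => intro _; exact ⟨1, le_rfl, by simp⟩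
    | cons a L ih =>
      intro hL
      obtain ⟨m, hm0, hm⟩ := ih (fun x hx => hL x (List.mem_cons_of_mem _ hx))
      have ha := hL a List.mem_cons_self
      obtain ⟨m', hm'⟩ := exists_nat_gt (D.q / a.1)
      refine ⟨max m m', hm0.trans (le_max_left _ _), ?_⟩
      have h0 : 1 ≤ max m m' := hm0.trans (le_max_left _ _)
      have hm1 : th D.q (max m m') < a.1 := by
        unfold th
        have h2 : (m' : ℝ) ≤ ((max m m' : ℕ) : ℝ) := by
          exact_mod_cast (le_max_right m m')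
        have h3 : (1 : ℝ) ≤ ((max m m' : ℕ) : ℝ) := by exact_mod_cast h0
        generalize ((max m m' : ℕ) : ℝ) = y at h2 h3
        have h4 : y ≤ y ^ 3 := by
          have : y * 1 ≤ y * y ^ 2 := mul_le_mul_of_nonneg_left (by nlinarith) (by linarith)
          nlinarith
        rw [div_lt_iff₀ (by positivity)]
        rw [div_lt_iff₀ ha] at hm'
        nlinarith
      intro x hx
      rcases List.mem_cons.1 hx with rfl | hx
      · exact hm1
      · exact lt_of_le_of_lt (th_anti hq hm0 (le_max_left m m')) (hm x hx)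
  obtain ⟨m1, hm1', hm1⟩ := hpos R (fun x hx => (h.Rt x hx).1)
  obtain ⟨m2, hm2', hm2⟩ := hpos G (fun x hx => (h.Gt x hx).1)
  obtain ⟨g0, hg0⟩ := h1.fce
  obtain ⟨g1, hg1⟩ := LibMoserT.fl_unbounded h1.l1 (m1 + m2 + 36)
  have hfl : m1 + m2 + 36 ≤ D.fl (g + (g0 + g1)) := hg1.trans (LibMoserT.fl_mono (by omega))
  have hfc : D.fc (g + (g0 + g1)) = D.nO := by
    apply le_antisymm (h1.fcn _)
    rw [← hg0]
    exact monotone_nat_of_le_succ h1.fcm (by omega)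
  exact TD.area_hor h1 hO hcap hB (g0 + g1) h
    (fun x hx => lt_of_le_of_lt (th_anti hq hm1' (by omega)) (hm1 x hx)) hfc
    (fun x hx => lt_of_le_of_lt (th_anti hq hm2' (by omega)) (hm2 x hx))

end

end Pool.Agent.LibMoserT
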